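import Pool.Agent.Lib.MP_1a4aff_gt.I3.Gen

/-! Calculus of uniformly bounded germs and radial integrals. -/

set_option autoImplicit false

open MeasureTheory Set Filter Topology
open scoped ContDiff

namespace Pool.Agent.Lib.MP_1a4aff_gt.I3

variable {ι E V W U : Type} [NormedAddCommGroup E] [NormedSpace ℝ E] [NormedAddCommGroup V]
  [NormedSpace ℝ V] [NormedAddCommGroup W] [NormedSpace ℝ W] [NormedAddCommGroup U]
  [NormedSpace ℝ U] {k : ℕ} {y : ι → E}

theorem UBk.mono {f : ι → E → V} {l : ℕ} (h : UBk k f y) (hl : l ≤ k) : UBk l f y := by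
  obtain ⟨h1, C, h2⟩ := h
  exact ⟨h1, C, fun i j hj => h2 i j (hj.trans hl)⟩

theorem UBk.congr {f g : ι → E → V} (h : UBk k f y) (e : ∀ i, f i =ᶠ[𝓝 (y i)] g i) :
    UBk k g y := by
  obtain ⟨h1, C, h2⟩ := h
  refine ⟨fun i => (h1 i).congr_of_eventuallyEq (e i).symm, C, fun i j hj => ?_⟩
  rw [← ((e i).iteratedFDeriv ℝ j).self_of_nhds]
  exact h2 i j hj

theorem UBk.reindex {κ : Type} {f : ι → E → V} (h : UBk k f y) (σ : κ → ι) :
    UBk k (fun a => f (σ a)) (fun a => y (σ a)) := by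
  obtain ⟨h1, C, h2⟩ := h
  exact ⟨fun a => h1 (σ a), C, fun a j hj => h2 (σ a) j hj⟩

theorem ub_zero_iff {f : ι → E → V} :
    UBk 0 f y ↔ (∀ i, ContDiffAt ℝ ∞ (f i) (y i)) ∧ ∃ C : ℝ, ∀ i, ‖f i (y i)‖ ≤ C := by
  constructor
  · rintro ⟨h1, C, h2⟩
    refine ⟨h1, C, fun i => ?_⟩
    simpa [norm_iteratedFDeriv_zero] using h2 i 0 le_rfl
  · rintro ⟨h1, C, h2⟩
    refine ⟨h1, C, fun i j hj => ?_⟩
    obtain rfl : j = 0 := Nat.le_zero.1 hj
    simpa [norm_iteratedFDeriv_zero] using h2 i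

theorem ub_succ_iff {f : ι → E → V} :
    UBk (k + 1) f y ↔ UBk 0 f y ∧ UBk k (fun i => fderiv ℝ (f i)) y := by
  constructor
  · intro h
    refine ⟨h.mono (Nat.zero_le _), ?_⟩
    obtain ⟨h1, C, h2⟩ := h
    refine ⟨fun i => (h1 i).fderiv_right le_rfl, C, fun i j hj => ?_⟩
    rw [norm_iteratedFDeriv_fderiv]
    exact h2 i (j + 1) (Nat.succ_le_succ hj)
  · rintro ⟨⟨h1, C, h2⟩, -, D, h3⟩
    refine ⟨h1, max C D, fun i j hj => ?_⟩
    cases j with
    | zero => exact (h2 i 0 le_rfl).trans (le_max_left _ _)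
    | succ j =>
      rw [← norm_iteratedFDeriv_fderiv]
      exact (h3 i j (Nat.le_of_succ_le_succ hj)).trans (le_max_right _ _)

theorem ub_const (c : ι → V) (C : ℝ) (hc : ∀ i, ‖c i‖ ≤ C) : UBk k (fun i _ => c i) y := by
  refine ⟨fun i => contDiffAt_const, max C 0, fun i j _ => ?_⟩
  cases j with
  | zero => simpa [norm_iteratedFDeriv_zero] using Or.inl (hc i)
  | succ j =>
    rw [iteratedFDeriv_succ_const]
    simp

theorem ub_id (C : ℝ) (hy : ∀ i, ‖y i‖ ≤ C) : UBk k (fun _ x => x) y := by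
  have h0 : UBk 0 (fun (_ : ι) (x : E) => x) y := ub_zero_iff.2 ⟨fun _ => contDiffAt_id, C, hy⟩
  cases k with
  | zero => exact h0
  | succ k =>
    refine ub_succ_iff.2 ⟨h0, ?_⟩
    refine (ub_const (k := k) (y := y) (fun _ => ContinuousLinearMap.id ℝ E) 1
      (fun _ => ContinuousLinearMap.norm_id_le)).congr fun i => ?_
    exact Eventually.of_forall fun x => (fderiv_fun_id (𝕜 := ℝ) (x := x)).symm

theorem UBk.add {f g : ι → E → V} (hf : UBk k f y) (hg : UBk k g y) :
    UBk k (fun i x => f i x + g i x) y := by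
  obtain ⟨h1, C, h2⟩ := hf
  obtain ⟨h3, D, h4⟩ := hg
  refine ⟨fun i => (h1 i).add (h3 i), C + D, fun i j hj => ?_⟩
  have e := iteratedFDeriv_add_apply (i := j) ((h1 i).of_le (by exact_mod_cast le_top))
    ((h3 i).of_le (by exact_mod_cast le_top))
  have e' : iteratedFDeriv ℝ j (fun x => f i x + g i x) (y i) = _ := e
  rw [e']
  exact (norm_add_le _ _).trans (add_le_add (h2 i j hj) (h4 i j hj))

theorem UBk.neg {f : ι → E → V} (hf : UBk k f y) : UBk k (fun i x => -f i x) y := by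
  obtain ⟨h1, C, h2⟩ := hf
  refine ⟨fun i => (h1 i).neg, C, fun i j hj => ?_⟩
  have e : iteratedFDeriv ℝ j (fun x => -f i x) (y i) = _ :=
    iteratedFDeriv_neg_apply (𝕜 := ℝ) (i := j) (f := f i) (x := y i)
  rw [e, norm_neg]
  exact h2 i j hj

theorem UBk.sub {f g : ι → E → V} (hf : UBk k f y) (hg : UBk k g y) :
    UBk k (fun i x => f i x - g i x) y := by
  simpa only [sub_eq_add_neg] using hf.add hg.neg

theorem ub_sum {κ : Type} (s : Finset κ) {f : κ → ι → E → V} (hf : ∀ a ∈ s, UBk k (f a) y) :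
    UBk k (fun i x => ∑ a ∈ s, f a i x) y := by
  classical
  induction s using Finset.induction_on with
  | empty => simpa using ub_const (k := k) (y := y) (fun _ => (0 : V)) 0 (by simp)
  | insert a s ha ih =>
    simp only [Finset.sum_insert ha]
    exact (hf a (Finset.mem_insert_self _ _)).add
      (ih fun b hb => hf b (Finset.mem_insert_of_mem hb))

theorem UBk.clm (L : V →L[ℝ] W) {f : ι → E → V} (hf : UBk k f y) :
    UBk k (fun i x => L (f i x)) y := by
  obtain ⟨h1, C, h2⟩ := hf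
  refine ⟨fun i => L.contDiff.contDiffAt.comp _ (h1 i), ‖L‖ * C, fun i j hj => ?_⟩
  have e : iteratedFDeriv ℝ j (fun x => L (f i x)) (y i) = _ :=
    L.iteratedFDeriv_comp_left (h1 i) (i := j) (by exact_mod_cast le_top)
  rw [e]
  exact (L.norm_compContinuousMultilinearMap_le _).trans
    (mul_le_mul_of_nonneg_left (h2 i j hj) (norm_nonneg _))

theorem UBc.ev_diff {f : E → V} {x : E} (h : ContDiffAt ℝ ∞ f x) :
    ∀ᶠ z in 𝓝 x, DifferentiableAt ℝ f z :=
  ((h.of_le (m := 1) (by exact_mod_cast le_top)).eventually (by simp)).mono fun _ hz =>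
    hz.differentiableAt (by simp)

theorem UBc.bilin_zero (B : V →L[ℝ] W →L[ℝ] U) {f : ι → E → V} {g : ι → E → W} (hf : UBk 0 f y)
    (hg : UBk 0 g y) : UBk 0 (fun i x => B (f i x) (g i x)) y := by
  obtain ⟨h1, C, h2⟩ := ub_zero_iff.1 hf
  obtain ⟨h3, D, h4⟩ := ub_zero_iff.1 hg
  refine ub_zero_iff.2 ⟨fun i => (B.contDiff.contDiffAt.comp _ (h1 i)).clm_apply (h3 i),
    ‖B‖ * C * D, fun i => (B.le_opNorm₂ _ _).trans ?_⟩
  have hC : 0 ≤ C := (norm_nonneg _).trans (h2 i)
  exact mul_le_mul (mul_le_mul_of_nonneg_left (h2 i) B.opNorm_nonneg) (h4 i) (norm_nonneg _)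
    (mul_nonneg B.opNorm_nonneg hC)

theorem UBc.bilin_aux (k : ℕ) : ∀ (V W U : Type) [NormedAddCommGroup V] [NormedSpace ℝ V]
    [NormedAddCommGroup W] [NormedSpace ℝ W] [NormedAddCommGroup U] [NormedSpace ℝ U]
    (B : V →L[ℝ] W →L[ℝ] U) (f : ι → E → V) (g : ι → E → W), UBk k f y → UBk k g y →
    UBk k (fun i x => B (f i x) (g i x)) y := by
  induction k with
  | zero => intro V W U _ _ _ _ _ _ B f g hf hg; exact UBc.bilin_zero B hf hg
  | succ k ih =>
    intro V W U _ _ _ _ _ _ B f g hf hg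
    obtain ⟨f0, f1⟩ := ub_succ_iff.1 hf
    obtain ⟨g0, g1⟩ := ub_succ_iff.1 hg
    refine ub_succ_iff.2 ⟨UBc.bilin_zero B f0 g0, ?_⟩
    have h1 := ih _ _ _ (B.precompR E) f _ (hf.mono (Nat.le_succ k)) g1
    have h2 := ih _ _ _ (B.precompL E) _ g f1 (hg.mono (Nat.le_succ k))
    refine (h1.add h2).congr fun i => ?_
    filter_upwards [UBc.ev_diff (hf.1 i), UBc.ev_diff (hg.1 i)] with z hz1 hz2
    exact (B.fderiv_of_bilinear hz1 hz2).symm

theorem UBk.bilin (B : V →L[ℝ] W →L[ℝ] U) {f : ι → E → V} {g : ι → E → W} (hf : UBk k f y)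
    (hg : UBk k g y) : UBk k (fun i x => B (f i x) (g i x)) y :=
  UBc.bilin_aux k V W U B f g hf hg

theorem UBk.mul {f g : ι → E → ℝ} (hf : UBk k f y) (hg : UBk k g y) :
    UBk k (fun i x => f i x * g i x) y :=
  hf.bilin (ContinuousLinearMap.mul ℝ ℝ) hg

theorem UBk.smul {f : ι → E → ℝ} {g : ι → E → V} (hf : UBk k f y) (hg : UBk k g y) :
    UBk k (fun i x => f i x • g i x) y :=
  hf.bilin (ContinuousLinearMap.lsmul ℝ ℝ) hg

theorem UBk.clm_apply {f : ι → E → V →L[ℝ] W} {g : ι → E → V} (hf : UBk k f y)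
    (hg : UBk k g y) : UBk k (fun i x => f i x (g i x)) y :=
  hf.bilin (ContinuousLinearMap.id ℝ (V →L[ℝ] W)) hg

theorem UBk.clm_comp {f : ι → E → W →L[ℝ] U} {g : ι → E → V →L[ℝ] W} (hf : UBk k f y)
    (hg : UBk k g y) : UBk k (fun i x => f i x ∘L g i x) y :=
  hf.bilin (ContinuousLinearMap.compL ℝ V W U) hg

theorem UBk.prodMk {f : ι → E → V} {g : ι → E → W} (hf : UBk k f y) (hg : UBk k g y) :
    UBk k (fun i x => (f i x, g i x)) y := by
  simpa using (hf.clm (ContinuousLinearMap.inl ℝ V W)).add (hg.clm (ContinuousLinearMap.inr ℝ V W))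

theorem ub_pi {κ : Type} [Fintype κ] {f : ι → E → κ → V}
    (hf : ∀ a, UBk k (fun i x => f i x a) y) : UBk k f y := by
  classical
  have h := ub_sum (k := k) (y := y) Finset.univ
    (f := fun a i x => ContinuousLinearMap.single ℝ (fun _ : κ => V) a (f i x a))
    fun a _ => (hf a).clm _
  refine h.congr fun i => Eventually.of_forall fun x => ?_
  simpa using Finset.univ_sum_single (f i x)

theorem ub_E3 {f : ι → E → E3} (hf : ∀ a, UBk k (fun i x => f i x a) y) : UBk k f y := by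
  have h := ub_sum (k := k) (y := y) Finset.univ (f := fun a i x => f i x a • ee a)
    fun a _ => (hf a).smul (ub_const (fun _ => ee a) ‖ee a‖ fun _ => le_rfl)
  refine h.congr fun i => Eventually.of_forall fun x => ?_
  ext b
  fin_cases b <;> simp [ee, Fin.sum_univ_three]

theorem ub_clm_E3 {f : ι → E → E3 →L[ℝ] V} (hf : ∀ c, UBk k (fun i x => f i x (ee c)) y) :
    UBk k f y := by
  have h := ub_sum (k := k) (y := y) Finset.univ
    (f := fun c i x => ContinuousLinearMap.smulRightL ℝ E3 V (EuclideanSpace.proj c) (f i x (ee c)))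
    fun c _ => (hf c).clm _
  refine h.congr fun i => Eventually.of_forall fun x => ?_
  refine ContinuousLinearMap.ext fun v => ?_
  have e : v = ∑ c, v c • ee c := by
    ext b
    fin_cases b <;> simp [ee, Fin.sum_univ_three]
  conv_rhs => rw [e]
  simp [map_sum]

theorem UBc.comp_aux {f : ι → E → V} (k : ℕ) : ∀ (W : Type) [NormedAddCommGroup W]
    [NormedSpace ℝ W] (g : ι → V → W), (UBk k g fun i => f i (y i)) → UBk k f y →
    UBk k (fun i x => g i (f i x)) y := by
  have h0 : ∀ (W : Type) [NormedAddCommGroup W] [NormedSpace ℝ W] (g : ι → V → W),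
      (UBk 0 g fun i => f i (y i)) → UBk 0 f y → UBk 0 (fun i x => g i (f i x)) y := by
    intro W _ _ g hg hf
    obtain ⟨h3, D, h4⟩ := ub_zero_iff.1 hg
    exact ub_zero_iff.2 ⟨fun i => (h3 i).comp (y i) (hf.1 i), D, h4⟩
  induction k with
  | zero => exact h0
  | succ k ih =>
    intro W _ _ g hg hf
    obtain ⟨f0, f1⟩ := ub_succ_iff.1 hf
    obtain ⟨g0, g1⟩ := ub_succ_iff.1 hg
    refine ub_succ_iff.2 ⟨h0 W g g0 f0, ?_⟩
    have h1 := ih _ _ g1 (hf.mono (Nat.le_succ k))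
    refine (h1.clm_comp f1).congr fun i => ?_
    filter_upwards [UBc.ev_diff (hf.1 i),
      (hf.1 i).continuousAt.eventually (UBc.ev_diff (hg.1 i))] with z hz1 hz2
    exact (fderiv_comp z hz2 hz1).symm

theorem UBk.comp {f : ι → E → V} {g : ι → V → W} (hg : UBk k g fun i => f i (y i))
    (hf : UBk k f y) : UBk k (fun i x => g i (f i x)) y :=
  UBc.comp_aux k W g hg hf

theorem UBc.fixed_aux (O K : Set E) (hO : IsOpen O) (hK : IsCompact K) (hKO : K ⊆ O)
    (hy : ∀ i, y i ∈ K) (k : ℕ) : ∀ (V : Type) [NormedAddCommGroup V] [NormedSpace ℝ V]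
    (g : E → V), ContDiffOn ℝ ∞ g O → UBk k (fun _ => g) y := by
  have h0 : ∀ (V : Type) [NormedAddCommGroup V] [NormedSpace ℝ V]
      (g : E → V), ContDiffOn ℝ ∞ g O → UBk 0 (fun _ => g) y := by
    intro V _ _ g hg
    obtain ⟨C, hC⟩ := hK.exists_bound_of_continuousOn (hg.continuousOn.mono hKO)
    exact ub_zero_iff.2 ⟨fun i => hg.contDiffAt (hO.mem_nhds (hKO (hy i))), C,
      fun i => hC _ (hy i)⟩
  induction k with
  | zero => exact h0
  | succ k ih =>
    intro V _ _ g hg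
    exact ub_succ_iff.2 ⟨h0 V g hg, ih _ _ (hg.fderiv_of_isOpen hO le_rfl)⟩

theorem ub_fixed (g : E → V) (O K : Set E) (hO : IsOpen O) (hg : ContDiffOn ℝ ∞ g O)
    (hK : IsCompact K) (hKO : K ⊆ O) (hy : ∀ i, y i ∈ K) : UBk k (fun _ => g) y :=
  UBc.fixed_aux O K hO hK hKO hy k V g hg

theorem UBk.fderiv_apply {f : ι → E → V} (h : UBk (k + 1) f y) (w : E) :
    UBk k (fun i x => fderiv ℝ (f i) x w) y :=
  (ub_succ_iff.1 h).2.clm_apply (ub_const (fun _ => w) ‖w‖ fun _ => le_rfl)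

/-- real powers of families with values in a compact subset of the positive reals -/
theorem UBk.rpow {f : ι → E → ℝ} (hf : UBk k f y) (a b p : ℝ) (ha : 0 < a)
    (hab : ∀ i, f i (y i) ∈ Icc a b) : UBk k (fun i x => f i x ^ p) y := by
  refine UBk.comp (g := fun _ x => x ^ p) ?_ hf
  refine ub_fixed (fun x : ℝ => x ^ p) (Ioi 0) (Icc a b) isOpen_Ioi ?_ isCompact_Icc
    (fun x hx => lt_of_lt_of_le ha hx.1) hab
  exact fun x hx => (Real.contDiffAt_rpow_const_of_ne (ne_of_gt hx)).contDiffWithinAt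

/-- inverses of maps close to the identity -/
theorem UBk.inverse {f : ι → E → E3 →L[ℝ] E3} (hf : UBk k f y)
    (h : ∀ i, ‖f i (y i) - ContinuousLinearMap.id ℝ E3‖ ≤ 1 / 2) :
    UBk k (fun i x => Ring.inverse (f i x)) y := by
  refine UBk.comp (g := fun _ x => Ring.inverse x) ?_ hf
  refine ub_fixed (fun x : E3 →L[ℝ] E3 => Ring.inverse x) {x | IsUnit x}
    (Metric.closedBall (ContinuousLinearMap.id ℝ E3) (1 / 2)) Units.isOpen ?_
    (isCompact_closedBall _ _) ?_ ?_
  · rintro x ⟨u, rfl⟩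
    exact (contDiffAt_ringInverse ℝ u).contDiffWithinAt
  · intro x hx
    rw [Metric.mem_closedBall, dist_comm, dist_eq_norm] at hx
    have h1 : ‖(1 : E3 →L[ℝ] E3) - x‖ < 1 := lt_of_le_of_lt hx (by norm_num)
    refine ⟨Units.oneSub _ h1, ?_⟩
    simp
  · intro i
    rw [Metric.mem_closedBall, dist_eq_norm]
    exact h i

/-- radial integral of a vector valued function -/
noncomputable def radv (a : ℕ) (f : E → V) (v : E) : V := ∫ s in (0 : ℝ)..1, s ^ a • f (s • v)

theorem UBc.ray_mem {R : ℝ} {v : E} (hv : v ∈ Metric.ball (0 : E) R) {s : ℝ}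
    (hs : s ∈ Icc (0 : ℝ) 1) : s • v ∈ Metric.ball (0 : E) R := by
  rw [mem_ball_zero_iff] at hv ⊢
  rw [norm_smul, Real.norm_of_nonneg hs.1]
  exact lt_of_le_of_lt (mul_le_of_le_one_left (norm_nonneg _) hs.2) hv

omit [NormedSpace ℝ V] in
theorem UBc.cont_ray {f : E → V} {R : ℝ} (hf : ContinuousOn f (Metric.ball 0 R)) {v : E}
    (hv : v ∈ Metric.ball (0 : E) R) : ContinuousOn (fun s : ℝ => f (s • v)) (Icc 0 1) :=
  hf.comp (continuous_id.smul continuous_const).continuousOn fun _ hs => UBc.ray_mem hv hs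

theorem UBc.radv_comp (a : ℕ) (L : V ≃L[ℝ] W) (f : E → V) (v : E) :
    radv a (L ∘ f) v = L (radv a f v) := by
  unfold radv
  simp only [intervalIntegral, Function.comp_apply, ← map_smul, L.integral_comp_comm, map_sub]

theorem UBc.hasFDerivAt_radv [FiniteDimensional ℝ E] (a : ℕ) {f : E → V} {R : ℝ}
    (hf : ContDiffOn ℝ ∞ f (Metric.ball 0 R)) {v : E} (hv : v ∈ Metric.ball (0 : E) R) :
    HasFDerivAt (radv a f) (radv (a + 1) (fderiv ℝ f) v) v := by
  have hv' := mem_ball_zero_iff.1 hv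
  obtain ⟨r, hr1, hr2⟩ := exists_between hv'
  have hsub : Metric.closedBall (0 : E) r ⊆ Metric.ball 0 R := Metric.closedBall_subset_ball hr2
  have hsub' : Metric.ball (0 : E) r ⊆ Metric.ball 0 R := Metric.ball_subset_ball hr2.le
  have hc' := hf.continuousOn_fderiv_of_isOpen Metric.isOpen_ball (by exact_mod_cast le_top)
  have : ProperSpace E := FiniteDimensional.proper ℝ E
  obtain ⟨C, hC⟩ := (isCompact_closedBall (0 : E) r).exists_bound_of_continuousOn (hc'.mono hsub)
  have hn : Metric.ball (0 : E) r ∈ 𝓝 v := Metric.isOpen_ball.mem_nhds (mem_ball_zero_iff.2 hr1)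
  have i1 : ∀ w ∈ Metric.ball (0 : E) R,
      IntervalIntegrable (fun s : ℝ => s ^ a • f (s • w)) volume 0 1 := fun w hw =>
    (((continuous_pow a).continuousOn).smul
      (UBc.cont_ray hf.continuousOn hw)).intervalIntegrable_of_Icc zero_le_one
  have i2 : IntervalIntegrable (fun s : ℝ => s ^ (a + 1) • fderiv ℝ f (s • v)) volume 0 1 :=
    (((continuous_pow (a + 1)).continuousOn).smul
      (UBc.cont_ray hc' hv)).intervalIntegrable_of_Icc zero_le_one
  refine intervalIntegral.hasFDerivAt_integral_of_dominated_of_fderiv_le (μ := volume)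
    (F := fun (w : E) (s : ℝ) => s ^ a • f (s • w))
    (F' := fun (w : E) (s : ℝ) => s ^ (a + 1) • fderiv ℝ f (s • w)) (bound := fun _ => C) hn
    ?_ (i1 v hv) ?_ ?_ intervalIntegrable_const ?_
  · filter_upwards [hn] with w hw
    exact (intervalIntegrable_iff.1 (i1 w (hsub' hw))).aestronglyMeasurable
  · exact (intervalIntegrable_iff.1 i2).aestronglyMeasurable
  · refine Eventually.of_forall fun s hs w hw => ?_
    rw [uIoc_of_le zero_le_one] at hs
    have h1 := hC _ (Metric.ball_subset_closedBall (UBc.ray_mem hw ⟨hs.1.le, hs.2⟩))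
    rw [norm_smul, norm_pow, Real.norm_of_nonneg hs.1.le]
    calc s ^ (a + 1) * ‖fderiv ℝ f (s • w)‖ ≤ 1 * ‖fderiv ℝ f (s • w)‖ :=
          mul_le_mul_of_nonneg_right (pow_le_one₀ hs.1.le hs.2) (norm_nonneg _)
      _ ≤ C := by simpa using h1
  · refine Eventually.of_forall fun s hs w hw => ?_
    rw [uIoc_of_le zero_le_one] at hs
    have hd : HasFDerivAt f (fderiv ℝ f (s • w)) (s • w) :=
      ((hf.contDiffAt (Metric.isOpen_ball.mem_nhds
        (UBc.ray_mem (hsub' hw) ⟨hs.1.le, hs.2⟩))).differentiableAt (by simp)).hasFDerivAt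
    have h1 := (hd.comp w ((hasFDerivAt_id w).const_smul s)).const_smul (s ^ a)
    refine HasFDerivAt.congr_fderiv h1 ?_
    ext u
    simp [smul_smul, pow_succ]

theorem UBc.radv_nat [FiniteDimensional ℝ E] (R : ℝ) (n : ℕ) : ∀ (V : Type)
    [NormedAddCommGroup V] [NormedSpace ℝ V] (a : ℕ) (f : E → V),
    ContDiffOn ℝ ∞ f (Metric.ball 0 R) → ContDiffOn ℝ n (radv a f) (Metric.ball 0 R) := by
  induction n with
  | zero =>
    intro V _ _ a f hf
    exact contDiffOn_zero.2 fun v hv =>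
      (UBc.hasFDerivAt_radv a hf hv).continuousAt.continuousWithinAt
  | succ n ih =>
    intro V _ _ a f hf
    rw [Nat.cast_succ, contDiffOn_succ_iff_fderiv_of_isOpen Metric.isOpen_ball]
    refine ⟨fun v hv => (UBc.hasFDerivAt_radv a hf hv).differentiableAt.differentiableWithinAt,
      fun h => absurd h (by simp), ?_⟩
    exact (ih _ (a + 1) _ (hf.fderiv_of_isOpen Metric.isOpen_ball le_rfl)).congr
      fun v hv => (UBc.hasFDerivAt_radv a hf hv).fderiv

theorem radv_contDiffOn [CompleteSpace V] [FiniteDimensional ℝ E] (a : ℕ) {f : E → V} {R : ℝ}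
    (hf : ContDiffOn ℝ ∞ f (Metric.ball 0 R)) : ContDiffOn ℝ ∞ (radv a f) (Metric.ball 0 R) :=
  contDiffOn_infty.2 fun n => UBc.radv_nat R n V a f hf

theorem fderiv_radv [CompleteSpace V] [FiniteDimensional ℝ E] (a : ℕ) {f : E → V} {R : ℝ}
    (hf : ContDiffOn ℝ ∞ f (Metric.ball 0 R)) {v : E} (hv : v ∈ Metric.ball (0 : E) R) :
    fderiv ℝ (radv a f) v = radv (a + 1) (fderiv ℝ f) v :=
  (UBc.hasFDerivAt_radv a hf hv).fderiv

theorem iteratedFDeriv_radv [CompleteSpace V] [FiniteDimensional ℝ E] (a k : ℕ) {f : E → V}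
    {R : ℝ} (hf : ContDiffOn ℝ ∞ f (Metric.ball 0 R)) {v : E} (hv : v ∈ Metric.ball (0 : E) R) :
    iteratedFDeriv ℝ k (radv a f) v = radv (a + k) (iteratedFDeriv ℝ k f) v := by
  induction k generalizing v with
  | zero =>
    rw [iteratedFDeriv_zero_eq_comp, iteratedFDeriv_zero_eq_comp]
    exact (UBc.radv_comp a (continuousMultilinearCurryFin0 ℝ E V).symm.toContinuousLinearEquiv
      f v).symm
  | succ k ih =>
    have e : iteratedFDeriv ℝ k (radv a f) =ᶠ[𝓝 v] radv (a + k) (iteratedFDeriv ℝ k f) := by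
      filter_upwards [Metric.isOpen_ball.mem_nhds hv] with w hw using ih hw
    have hk : ContDiffOn ℝ ∞ (iteratedFDeriv ℝ k f) (Metric.ball 0 R) := fun w hw =>
      ((hf.contDiffAt (Metric.isOpen_ball.mem_nhds hw)).iteratedFDeriv_right
        (by exact_mod_cast le_top)).contDiffWithinAt
    rw [iteratedFDeriv_succ_eq_comp_left, iteratedFDeriv_succ_eq_comp_left, Function.comp_apply,
      e.fderiv_eq, fderiv_radv (a + k) hk hv]
    exact (UBc.radv_comp (V := E →L[ℝ] E [×k]→L[ℝ] V) (W := E [×(k + 1)]→L[ℝ] V) (a + k + 1)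
      (continuousMultilinearCurryLeftEquiv ℝ (fun _ : Fin (k + 1) => E)
        V).symm.toContinuousLinearEquiv _ v).symm

/-- the transport equation solved by the radial integral -/
theorem radv_transport [CompleteSpace V] [FiniteDimensional ℝ E] (a : ℕ) {f : E → V} {R : ℝ}
    (hf : ContDiffOn ℝ ∞ f (Metric.ball 0 R)) {v : E} (hv : v ∈ Metric.ball (0 : E) R) :
    ((a : ℝ) + 1) • radv a f v + fderiv ℝ (radv a f) v v = f v := by
  have hc := UBc.cont_ray hf.continuousOn hv
  have hc' := UBc.cont_ray (hf.continuousOn_fderiv_of_isOpen Metric.isOpen_ball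
    (by exact_mod_cast le_top)) hv
  have i1 : IntervalIntegrable (fun s : ℝ => s ^ a • f (s • v)) volume 0 1 :=
    (((continuous_pow a).continuousOn).smul hc).intervalIntegrable_of_Icc zero_le_one
  have i2 : IntervalIntegrable (fun s : ℝ => s ^ (a + 1) • fderiv ℝ f (s • v)) volume 0 1 :=
    (((continuous_pow (a + 1)).continuousOn).smul hc').intervalIntegrable_of_Icc zero_le_one
  have i3 : IntervalIntegrable (fun s : ℝ => (s ^ (a + 1) • fderiv ℝ f (s • v)) v) volume 0 1 :=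
    ((((continuous_pow (a + 1)).continuousOn).smul hc').clm_apply
      continuousOn_const).intervalIntegrable_of_Icc zero_le_one
  have i4 : IntervalIntegrable (fun s : ℝ => ((a : ℝ) + 1) • s ^ a • f (s • v)) volume 0 1 :=
    i1.smul ((a : ℝ) + 1)
  rw [fderiv_radv a hf hv]
  unfold radv
  rw [ContinuousLinearMap.intervalIntegral_apply i2, ← intervalIntegral.integral_smul,
    ← intervalIntegral.integral_add i4 i3]
  have key : ∀ s ∈ uIcc (0 : ℝ) 1, HasDerivAt (fun s : ℝ => s ^ (a + 1) • f (s • v))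
      (((a : ℝ) + 1) • s ^ a • f (s • v) + (s ^ (a + 1) • fderiv ℝ f (s • v)) v) s := by
    intro s hs
    rw [uIcc_of_le zero_le_one] at hs
    have hd : HasFDerivAt f (fderiv ℝ f (s • v)) (s • v) :=
      ((hf.contDiffAt (Metric.isOpen_ball.mem_nhds (UBc.ray_mem hv hs))).differentiableAt
        (by simp)).hasFDerivAt
    have h1 : HasDerivAt (fun s : ℝ => f (s • v)) (fderiv ℝ f (s • v) v) s := by
      have := hd.comp_hasDerivAt s ((hasDerivAt_id s).smul_const v)
      simpa [Function.comp_def] using this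
    have h2 := (hasDerivAt_pow (a + 1) s).smul h1
    refine HasDerivAt.congr_deriv h2 ?_
    simp [smul_smul, add_comm]
  have := intervalIntegral.integral_eq_sub_of_hasDerivAt key (i4.add i3)
  simpa using this

theorem radv_zero [CompleteSpace V] (a : ℕ) (f : E → V) :
    radv a f 0 = ((a : ℝ) + 1)⁻¹ • f 0 := by
  unfold radv
  simp only [smul_zero]
  rw [intervalIntegral.integral_smul_const, integral_pow]
  simp

theorem norm_radv_le [CompleteSpace V] (a : ℕ) {f : E → V} {v : E} {C : ℝ}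
    (hf : ∀ s ∈ Icc (0 : ℝ) 1, ‖f (s • v)‖ ≤ C) : ‖radv a f v‖ ≤ C := by
  have h := intervalIntegral.norm_integral_le_of_norm_le_const (a := 0) (b := 1) (C := C)
    (f := fun s : ℝ => s ^ a • f (s • v)) fun s hs => by
      rw [uIoc_of_le zero_le_one] at hs
      have h1 := hf s ⟨hs.1.le, hs.2⟩
      rw [norm_smul, norm_pow, Real.norm_of_nonneg hs.1.le]
      calc s ^ a * ‖f (s • v)‖ ≤ 1 * ‖f (s • v)‖ :=
            mul_le_mul_of_nonneg_right (pow_le_one₀ hs.1.le hs.2) (norm_nonneg _)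
        _ ≤ C := by simpa using h1
  simpa [radv] using h

/-- radial integrals of families bounded on the whole ball -/
theorem ub_radv [CompleteSpace V] [FiniteDimensional ℝ E] (a : ℕ) {κ : Type} {R : ℝ}
    {f : κ → E → V}
    (hf : UBk k (fun i : κ × Metric.ball (0 : E) R => f i.1) fun i => (i.2 : E)) :
    UBk k (fun i : κ × Metric.ball (0 : E) R => radv a (f i.1)) fun i => (i.2 : E) := by
  obtain ⟨h1, C, h2⟩ := hf
  have hs : ∀ c : κ, ContDiffOn ℝ ∞ (f c) (Metric.ball 0 R) := fun c w hw =>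
    (h1 (c, ⟨w, hw⟩)).contDiffWithinAt
  refine ⟨fun i => (radv_contDiffOn a (hs i.1)).contDiffAt (Metric.isOpen_ball.mem_nhds i.2.2),
    C, fun i j hj => ?_⟩
  show ‖iteratedFDeriv ℝ j (radv a (f i.1)) i.2‖ ≤ C
  rw [iteratedFDeriv_radv a j (hs i.1) i.2.2]
  exact norm_radv_le _ fun s hs' => h2 (i.1, ⟨_, UBc.ray_mem i.2.2 hs'⟩) j hj

end Pool.Agent.Lib.MP_1a4aff_gt.I3
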