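import Pool.Agent.Lib.MP_1a4aff_gt.I3.BrB
import Pool.Agent.Lib.MP_1a4aff_gt.I3.UBc

-- part Pool.Agent.Lib.MP_1a4aff_gt.I3.P7a
section

/-! Uniform bounds for the transition maps between normal coordinates. -/

set_option autoImplicit false

open MeasureTheory Set Filter Topology Metric
open scoped ContDiff RealInnerProductSpace ENNReal

namespace Pool.Agent.Lib.MP_1a4aff_gt.I3

namespace P7a

variable {n : ℕ}

/-- the rotation between two frames at the same point -/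
noncomputable def rq (X : Flo n) (a b : Fr n) : E3 →L[ℝ] E3 :=
  ∑ c, (X.g a.1 (a.2 (ee c)) ∘L b.2).smulRight (ee c)

theorem rq_spec (X : Flo n) {a b : Fr n} (ha : a ∈ X.F) (hb : b ∈ X.F) (e : a.1 = b.1) :
    Orth (rq X a b) ∧ b = rot (rq X a b) a := by
  obtain ⟨Q, hQ, rfl⟩ := X.fiber a ha b hb e
  have : rq X a (rot Q a) = Q := by
    ext1 x
    rw [← sum_ee (Q x)]
    simp [rq, ha.2.2, ee_inner]
  rw [this]
  exact ⟨hQ, rfl⟩

theorem rq_smooth (X : Flo n) {a b : E3 → Fr n} {y : E3} (ha : ContDiffAt ℝ ∞ a y)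
    (hb : ContDiffAt ℝ ∞ b y) : ContDiffAt ℝ ∞ (fun z => rq X (a z) (b z)) y := by
  refine ContDiffAt.sum fun c _ => ContDiffAt.smulRight ?_ contDiffAt_const
  exact (((X.smg.contDiffAt.comp y ha.fst).clm_apply
    (ha.snd.clm_apply contDiffAt_const)).clm_comp hb.snd)

theorem dEx (hS : StrStmt) (X : Flo n) {u : Fr n} (hu : u ∈ X.F) (v w : E3) :
    fderiv ℝ (X.Ex u) v w = X.H (X.Ex u v) (X.th u v w) + vert (X.om u v w) (X.Ex u v) :=
  (hS n X.toCon E3 (X.Ex u) univ isOpen_univ (X.contDiff_Ex u).contDiffOn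
    (fun v _ => X.Ex_mem u hu v) v (mem_univ _)).1 w

theorem derivs (hS : StrStmt) (X : Flo n) {u u' : Fr n} (hu : u ∈ X.F) (hu' : u' ∈ X.F)
    {ψ : E3 → E3} {y : E3} (hψ : ContDiffAt ℝ ∞ ψ y)
    (e : ∀ᶠ z in 𝓝 y, X.ex u (ψ z) = X.ex u' z) (w : E3) :
    X.th u (ψ y) (fderiv ℝ ψ y w) = rq X (X.Ex u (ψ y)) (X.Ex u' y) (X.th u' y w) ∧
    fderiv ℝ (fun z => rq X (X.Ex u (ψ z)) (X.Ex u' z)) y w =
      rq X (X.Ex u (ψ y)) (X.Ex u' y) ∘L cr (X.om u' y w) -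
        cr (X.om u (ψ y) (fderiv ℝ ψ y w)) ∘L rq X (X.Ex u (ψ y)) (X.Ex u' y) := by
  have sΓ : ContDiffAt ℝ ∞ (fun z => X.Ex u (ψ z)) y := (X.contDiff_Ex u).contDiffAt.comp y hψ
  have sQ := rq_smooth X sΓ (X.contDiff_Ex u').contDiffAt
  set Q := fun z => rq X (X.Ex u (ψ z)) (X.Ex u' z) with hQ
  have dQ := (sQ.differentiableAt (by simp)).hasFDerivAt
  have dΓ : HasFDerivAt (fun z => X.Ex u (ψ z)) (fderiv ℝ (X.Ex u) (ψ y) ∘L fderiv ℝ ψ y) y :=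
    ((X.contDiff_Ex u).differentiable (by simp) _).hasFDerivAt.comp y
      (hψ.differentiableAt (by simp)).hasFDerivAt
  have d2 := dΓ.fst.prodMk (dΓ.snd.clm_comp dQ)
  have ev : X.Ex u' =ᶠ[𝓝 y] fun z => ((X.Ex u (ψ z)).1, (X.Ex u (ψ z)).2 ∘L Q z) :=
    e.mono fun z hz => (rq_spec X (X.Ex_mem u hu _) (X.Ex_mem u' hu' _) hz).2
  have h := congrArg (fun L => L w) (d2.congr_of_eventuallyEq ev).fderiv
  obtain ⟨hO, e0⟩ := rq_spec X (X.Ex_mem u hu _) (X.Ex_mem u' hu' _) e.self_of_nhds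
  change Orth (Q y) at hO
  change _ = rot (Q y) _ at e0
  have inj := X.frame_inj (X.Ex_mem u hu (ψ y))
  simp only [dEx hS X hu'] at h
  rw [e0, X.H_rot _ hO] at h
  have h1 := congrArg Prod.fst h
  have h2 := congrArg Prod.snd h
  simp [dEx hS X hu, X.H_fst] at h1 h2
  have k1 := inj h1
  refine ⟨k1.symm, ContinuousLinearMap.ext fun x => inj ?_⟩
  have := congrArg (fun L : E3 →L[ℝ] Amb n => L x) h2
  simp [← k1] at this
  simp only [sub_apply, ContinuousLinearMap.comp_apply, map_sub]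
  change _ = (X.Ex u (ψ y)).2 (Q y _) - (X.Ex u (ψ y)).2 (cr _ (Q y x))
  linear_combination (norm := abel1) -this

/-- local transition maps -/
structure Ix (J : ℕ) (B : ℝ) where
  n : ℕ
  X : Flo n
  b0 : X.Bd 0 1
  bJ : X.Bd J B
  u : Fr n
  hu : u ∈ X.F
  u' : Fr n
  hu' : u' ∈ X.F
  y : E3
  hy : y ∈ ball (0 : E3) (1 / 4)
  ψ : E3 → E3
  ev : ∀ᶠ z in 𝓝 y, ContDiffAt ℝ ∞ ψ z ∧ ψ z ∈ ball (0 : E3) (1 / 4) ∧ X.ex u (ψ z) = X.ex u' z

theorem ub_psi (hS : StrStmt) (hR : RadStmt) {k J : ℕ} {B C : ℝ}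
    (hC : ∀ (n : ℕ) (X : Flo n), X.Bd 0 1 → X.Bd J B →
      ∀ u ∈ X.F, ∀ v ∈ ball (0 : E3) (1 / 4), ∀ j ≤ k,
        ‖iteratedFDeriv ℝ j (X.th u) v‖ ≤ C ∧ ‖iteratedFDeriv ℝ j (X.om u) v‖ ≤ C) :
    ∀ l ≤ k, UBk l (fun i : Ix J B => i.ψ) (fun i => i.y) ∧
      UBk l (fun (i : Ix J B) z => rq i.X (i.X.Ex i.u (i.ψ z)) (i.X.Ex i.u' z)) fun i => i.y := by
  have t1 : UBk k (fun i : Ix J B => i.X.th i.u') fun i => i.y :=
    ⟨fun i => (i.X.contDiff_th _).contDiffAt, C, fun i j hj =>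
      (hC _ i.X i.b0 i.bJ _ i.hu' _ i.hy j hj).1⟩
  have o1 : UBk k (fun i : Ix J B => i.X.om i.u') fun i => i.y :=
    ⟨fun i => (i.X.contDiff_om _).contDiffAt, C, fun i j hj =>
      (hC _ i.X i.b0 i.bJ _ i.hu' _ i.hy j hj).2⟩
  have t2 : UBk k (fun i : Ix J B => i.X.th i.u) fun i => i.ψ i.y :=
    ⟨fun i => (i.X.contDiff_th _).contDiffAt, C, fun i j hj =>
      (hC _ i.X i.b0 i.bJ _ i.hu _ i.ev.self_of_nhds.2.1 j hj).1⟩
  have o2 : UBk k (fun i : Ix J B => i.X.om i.u) fun i => i.ψ i.y :=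
    ⟨fun i => (i.X.contDiff_om _).contDiffAt, C, fun i j hj =>
      (hC _ i.X i.b0 i.bJ _ i.hu _ i.ev.self_of_nhds.2.1 j hj).2⟩
  have nr : ∀ (i : Ix J B), ∀ v ∈ ball (0 : E3) (1 / 4),
      ‖i.X.th i.u v - ContinuousLinearMap.id ℝ E3‖ ≤ 1 / 2 := fun i v hv => by
    have h := mem_ball_zero_iff.1 hv
    refine ((hR _ i.X _ i.hu).2.2.2.2.2.2 i.b0 v h.le).1.trans ?_
    nlinarith [norm_nonneg v]
  have z0 : UBk 0 (fun i : Ix J B => i.ψ) (fun i => i.y) ∧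
      UBk 0 (fun (i : Ix J B) z => rq i.X (i.X.Ex i.u (i.ψ z)) (i.X.Ex i.u' z)) fun i => i.y :=
    ⟨ub_zero_iff.2 ⟨fun i => i.ev.self_of_nhds.1, 1 / 4,
      fun i => (mem_ball_zero_iff.1 i.ev.self_of_nhds.2.1).le⟩,
    ub_zero_iff.2 ⟨fun i => rq_smooth _ ((i.X.contDiff_Ex _).contDiffAt.comp _
      i.ev.self_of_nhds.1) (i.X.contDiff_Ex _).contDiffAt, 1, fun i =>
        (rq_spec i.X (i.X.Ex_mem _ i.hu _) (i.X.Ex_mem _ i.hu' _)
          i.ev.self_of_nhds.2.2).1.opNorm_le⟩⟩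
  intro l
  induction l with
  | zero => exact fun _ => z0
  | succ l ih =>
    intro hl
    have hl' : l ≤ k := (Nat.le_succ l).trans hl
    obtain ⟨a, b⟩ := ih hl'
    have d : UBk l (fun i : Ix J B => fderiv ℝ i.ψ) fun i => i.y := by
      refine ((((t2.mono hl').comp a).inverse fun i => nr i _ i.ev.self_of_nhds.2.1).clm_comp
        (b.clm_comp (t1.mono hl'))).congr fun i => ?_
      filter_upwards [i.ev.eventually_nhds] with z hz
      ext1 w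
      have hU : IsUnit (i.X.th i.u (i.ψ z)) := by
        have h := nr i _ hz.self_of_nhds.2.1
        rw [norm_sub_rev] at h
        simpa using isUnit_one_sub_of_norm_lt_one (x := 1 - i.X.th i.u (i.ψ z))
          (h.trans_lt (by norm_num))
      have e := (derivs hS i.X i.hu i.hu' hz.self_of_nhds.1 (hz.mono fun _ h => h.2.2) w).1
      simp only [ContinuousLinearMap.comp_apply, ← e]
      rw [← mul_apply_eq_comp, Ring.inverse_mul_cancel _ hU]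
      rfl
    refine ⟨ub_succ_iff.2 ⟨z0.1, d⟩, ub_succ_iff.2 ⟨z0.2, ub_clm_E3 fun c => ?_⟩⟩
    have ce : UBk l (fun (_ : Ix J B) (_ : E3) => ee c) fun i => i.y :=
      ub_const (fun _ => ee c) ‖ee c‖ fun _ => le_rfl
    refine ((b.clm_comp (((o1.mono hl').clm_apply ce).clm cr)).sub
      (((((o2.mono hl').comp a).clm_apply (d.clm_apply ce)).clm cr).clm_comp b)).congr fun i => ?_
    filter_upwards [i.ev.eventually_nhds] with z hz
    exact (derivs hS i.X i.hu i.hu' hz.self_of_nhds.1 (hz.mono fun _ h => h.2.2) (ee c)).2.symm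

variable {ρ : ℝ} {χ : E3 → ℝ} {X : Flo n} {u u' : Fr n}

theorem cut_zero {p : Amb n} (hp : p ∉ X.ex u '' tsupport χ) : X.cut χ u p = 0 :=
  finsum_mem_of_eqOn_zero fun v hv => by
    have : χ v = 0 := image_eq_zero_of_notMem_tsupport fun h => hp ⟨v, h, hv⟩
    simp [this]

theorem cut_ex (hs : tsupport χ ⊆ ball 0 ρ) (hI : X.Inj ρ) (hu : u ∈ X.F) {v : E3}
    (hv : v ∈ ball (0 : E3) ρ) : X.cut χ u (X.ex u v) = (χ v • v, χ v) := by
  rw [Flo.cut, finsum_mem_def, finsum_eq_single _ v,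
    indicator_of_mem (s := {w | X.ex u w = X.ex u v}) rfl]
  intro w hw
  refine indicator_apply_eq_zero.2 fun e => ?_
  have : χ w = 0 := image_eq_zero_of_notMem_tsupport fun h => hw (hI u hu (hs h) hv e)
  simp [this]

theorem cases (hR : RadStmt) (hL : LocStmt) (hρ : ρ ≤ 1 / 4) (hs : tsupport χ ⊆ ball 0 ρ)
    (hB : X.Bd 0 1) (hI : X.Inj ρ) (hu : u ∈ X.F) (hu' : u' ∈ X.F) (y : E3) :
    (fun z => X.cut χ u (X.ex u' z)) =ᶠ[𝓝 y] (fun _ => 0) ∨ ∃ ψ : E3 → E3,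
      (∀ᶠ z in 𝓝 y, ContDiffAt ℝ ∞ ψ z ∧ ψ z ∈ ball (0 : E3) (1 / 4) ∧
        X.ex u (ψ z) = X.ex u' z) ∧
      (fun z => (χ (ψ z) • ψ z, χ (ψ z))) =ᶠ[𝓝 y] fun z => X.cut χ u (X.ex u' z) := by
  have c' := (X.contDiff_ex u').continuous
  by_cases hy : X.ex u' y ∈ X.ex u '' tsupport χ
  · obtain ⟨v, hv, e⟩ := hy
    have hi : Function.Injective (fderiv ℝ (X.ex u) v) := by
      rw [((hR n X u hu).2.2.2.2.2.1 v).2.2.2.1]
      refine (X.frame_inj (X.Ex_mem u hu v)).comp ?_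
      have := ((hR n X u hu).2.2.2.2.2.2 hB v
        ((mem_ball_zero_iff.1 (hs hv)).le.trans hρ)).2.2.1
      rw [Flo.den_eq_det] at this
      exact (LinearMap.equivOfDetNeZero (X.th u v : E3 →ₗ[ℝ] E3)
        (lt_of_lt_of_le (by norm_num) this).ne').injective
    obtain ⟨O, U, a, -, h2, h3, h4, h5, h6, h7⟩ := hL n X.toData (X.ex u) _ isOpen_ball
      (X.contDiff_ex u).contDiffOn (fun v _ => X.ex_mem hu v) v (hs hv) hi
    have ev : ∀ᶠ z in 𝓝 y, X.ex u' z ∈ U :=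
      c'.continuousAt.eventually (h4.mem_nhds (e ▸ (h6 v h2).1))
    refine Or.inr ⟨fun z => a (X.ex u' z), ev.mono fun z hz => ?_, ev.mono fun z hz => ?_⟩
    · obtain ⟨k1, k2⟩ := h7 _ ⟨X.ex_mem hu' z, hz⟩
      exact ⟨(h5.contDiffAt (h4.mem_nhds hz)).comp z (X.contDiff_ex u').contDiffAt,
        ball_subset_ball hρ (h3 k1), k2⟩
    · obtain ⟨k1, k2⟩ := h7 _ ⟨X.ex_mem hu' z, hz⟩
      have := cut_ex hs hI hu (h3 k1)
      rw [k2] at this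
      exact this.symm
  · have cK : IsClosed (X.ex u '' tsupport χ) :=
      (((isCompact_closedBall 0 ρ).of_isClosed_subset (isClosed_tsupport χ)
        (hs.trans ball_subset_closedBall)).image (X.contDiff_ex u).continuous).isClosed
    exact Or.inl ((c'.continuousAt.eventually (cK.isOpen_compl.mem_nhds hy)).mono
      fun z hz => cut_zero hz)

end P7a

open P7a in
theorem p7a_holds (hS : StrStmt) (hR : RadStmt) (hL : LocStmt) (hU : UB1Stmt) : P7aStmt := by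
  intro ρ χ _ hρ hχ hs
  have sF : ContDiff ℝ ∞ fun v : E3 => (χ v • v, χ v) := (hχ.smul contDiff_id).prodMk hχ
  refine ⟨fun n X hB hI u hu => ⟨fun v hv => cut_ex hs hI hu hv,
    fun p hp => cut_zero fun h => hp (image_mono hs h), fun u' hu' y _ => ?_⟩, fun k => ?_⟩
  · rcases cases hR hL hρ hs hB hI hu hu' y with h | ⟨ψ, h1, h2⟩
    · exact (contDiffAt_const.congr_of_eventuallyEq h).contDiffWithinAt
    · exact ((sF.contDiffAt.comp y h1.self_of_nhds.1).congr_of_eventuallyEq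
        h2.symm).contDiffWithinAt
  · obtain ⟨J, hJ⟩ := hU k
    refine ⟨J, fun B => ?_⟩
    obtain ⟨C, hC⟩ := hJ B
    obtain ⟨-, D, hD⟩ := UBk.comp (g := fun (_ : Ix J B) (v : E3) => (χ v • v, χ v))
      (ub_fixed _ univ (closedBall 0 (1 / 4)) isOpen_univ sF.contDiffOn (isCompact_closedBall _ _)
        (subset_univ _) fun i => ball_subset_closedBall i.ev.self_of_nhds.2.1)
      (ub_psi hS hR hC k le_rfl).1
    refine ⟨max D 0, fun n X hB hBJ hI u hu u' hu' y hy => ?_⟩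
    rcases cases hR hL hρ hs hB hI hu hu' y with h | ⟨ψ, h1, h2⟩
    · rw [(h.iteratedFDeriv ℝ k).self_of_nhds]
      simp
    · rw [← (h2.iteratedFDeriv ℝ k).self_of_nhds]
      exact le_max_of_le_left (hD ⟨n, X, hB, hBJ, u, hu, u', hu', y, hy, ψ, h1⟩ k le_rfl)

end Pool.Agent.Lib.MP_1a4aff_gt.I3
end

-- part Pool.Agent.Lib.MP_1a4aff_gt.I3.P7c
section

/-! Cheeger-Gromov diffeomorphisms. -/

set_option autoImplicit false

open MeasureTheory Set Filter Topology Metric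
open scoped ContDiff RealInnerProductSpace

namespace Pool.Agent.Lib.MP_1a4aff_gt.I3

namespace P7c

variable {n : ℕ}

theorem ext_charts (hL : LocStmt) (hE : ExtStmt) (D : Data n) {m : ℕ} {r : ℝ}
    (e₁ e₂ : Fin m → E3 → Amb n) (h₁ : ∀ β, ContDiffOn ℝ ∞ (e₁ β) (ball 0 r))
    (h₂ : ∀ β, ContDiffOn ℝ ∞ (e₂ β) (ball 0 r)) (m₁ : ∀ β, MapsTo (e₁ β) (ball 0 r) D.S)
    (i₁ : ∀ β, ∀ y ∈ ball (0 : E3) r, Function.Injective (fderiv ℝ (e₁ β) y))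
    (c₁ : ∀ p ∈ D.S, ∃ β, ∃ y ∈ ball (0 : E3) r, e₁ β y = p) (f : Amb n → Amb n)
    (hf : ∀ β, ∀ y ∈ ball (0 : E3) r, f (e₁ β y) = e₂ β y) :
    ∃ φ, ContDiff ℝ ∞ φ ∧ EqOn φ f D.S := by
  refine hE n _ D.S D.cpt.isClosed f fun p hp => ?_
  obtain ⟨β, y, hy, rfl⟩ := c₁ p hp
  obtain ⟨W, U, a, -, hyW, hW, hU, ha, h1, h2⟩ :=
    hL n D (e₁ β) _ isOpen_ball (h₁ β) (m₁ β) y hy (i₁ β y hy)
  refine ⟨U ∩ a ⁻¹' ball 0 r, ha.continuousOn.isOpen_inter_preimage hU isOpen_ball,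
    ⟨(h1 y hyW).1, by rw [mem_preimage, (h1 y hyW).2]; exact hy⟩, e₂ β ∘ a,
    (h₂ β).comp (ha.mono inter_subset_left) fun q hq => hq.2, fun q hq => ?_⟩
  obtain ⟨h3, h4⟩ := h2 q ⟨hq.1, hq.2.1⟩
  rw [Function.comp_apply, ← hf β _ (hW h3), h4]

theorem half_le {A : E3 →L[ℝ] E3} (h : ‖A - ContinuousLinearMap.id ℝ E3‖ ≤ 1 / 2) (x : E3) :
    ‖x‖ ≤ 2 * ‖A x‖ := by
  have h1 : ‖A x - x‖ ≤ 1 / 2 * ‖x‖ :=
    ((A - ContinuousLinearMap.id ℝ E3).le_opNorm x).trans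
      (mul_le_mul_of_nonneg_right h (norm_nonneg _))
  have h2 := norm_sub_norm_le x (A x)
  rw [norm_sub_rev] at h2
  linarith

theorem inj_of_half {A : E3 →L[ℝ] E3} (h : ‖A - ContinuousLinearMap.id ℝ E3‖ ≤ 1 / 2) :
    Function.Injective A :=
  (injective_iff_map_eq_zero _).2 fun x hx => by
    have := half_le h x
    rw [hx, norm_zero, mul_zero] at this
    exact norm_le_zero_iff.1 this

theorem approx {k : E3 → E3} {r : ℝ} (hk : ContDiffOn ℝ ∞ k (ball 0 r))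
    (h : ∀ y ∈ ball (0 : E3) r, ‖fderiv ℝ k y - ContinuousLinearMap.id ℝ E3‖ ≤ 1 / 2) :
    ApproximatesLinearOn k
      ((ContinuousLinearEquiv.refl ℝ E3 : E3 ≃L[ℝ] E3) : E3 →L[ℝ] E3) (ball 0 r) (1 / 2) := by
  intro x hx y hy
  have := (convex_ball (0 : E3) r).norm_image_sub_le_of_norm_fderiv_le' (φ := .id ℝ E3)
    (fun z hz => (hk.contDiffAt (isOpen_ball.mem_nhds hz)).differentiableAt (by simp)) h hy hx
  simpa using this

theorem k_inj {k : E3 → E3} {r : ℝ} (hk : ContDiffOn ℝ ∞ k (ball 0 r))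
    (h : ∀ y ∈ ball (0 : E3) r, ‖fderiv ℝ k y - ContinuousLinearMap.id ℝ E3‖ ≤ 1 / 2) :
    InjOn k (ball 0 r) := fun x hx y hy e => by
  have := approx hk h x hx y hy
  rw [e] at this
  simp only [sub_self, ContinuousLinearEquiv.coe_refl, ContinuousLinearMap.coe_id', id_eq,
    zero_sub, norm_neg, NNReal.coe_div, NNReal.coe_one, NNReal.coe_ofNat] at this
  exact sub_eq_zero.1 (norm_le_zero_iff.1 (by linarith))

theorem k_surj {k : E3 → E3} {ρ : ℝ} (hρ : 0 < ρ) (hk : ContDiffOn ℝ ∞ k (ball 0 (ρ / 32)))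
    (h : ∀ y ∈ ball (0 : E3) (ρ / 32), ‖fderiv ℝ k y - ContinuousLinearMap.id ℝ E3‖ ≤ 1 / 2)
    (h2 : ∀ y ∈ ball (0 : E3) (ρ / 32), ‖k y - y‖ ≤ ρ / 1000) {x : E3}
    (hx : x ∈ ball (0 : E3) (ρ / 100)) : ∃ y ∈ ball (0 : E3) (ρ / 32), k y = x := by
  have hs : closedBall x (ρ / 100) ⊆ ball 0 (ρ / 32) :=
    closedBall_subset_ball' (by rw [mem_ball] at hx; linarith)
  let fs : ((ContinuousLinearEquiv.refl ℝ E3 : E3 ≃L[ℝ] E3) : E3 →L[ℝ] E3).NonlinearRightInverse :=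
    ⟨id, 1, fun y => by simp, fun y => rfl⟩
  have := (approx hk h).surjOn_closedBall_of_nonlinearRightInverse fs (by positivity) hs
  obtain ⟨y, hy, e⟩ := this (a := x) (by
    have h3 := h2 x (hs (mem_closedBall_self (by positivity)))
    rw [mem_closedBall, dist_eq_norm, norm_sub_rev]
    simp only [fs, NNReal.coe_one, inv_one, NNReal.coe_div, NNReal.coe_ofNat]
    linarith)
  exact ⟨y, hs hy, e⟩

theorem norm_sub_le0 {E V : Type} [NormedAddCommGroup E] [NormedSpace ℝ E] [NormedAddCommGroup V]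
    [NormedSpace ℝ V] (f g : E → V) (y : E) :
    ‖f y - g y‖ ≤ dist (iteratedFDeriv ℝ 0 f y) (iteratedFDeriv ℝ 0 g y) := by
  have := (iteratedFDeriv ℝ 0 f y - iteratedFDeriv ℝ 0 g y).le_opNorm fun _ => 0
  simpa [dist_eq_norm] using this

theorem norm_sub_le1 {E V : Type} [NormedAddCommGroup E] [NormedSpace ℝ E] [NormedAddCommGroup V]
    [NormedSpace ℝ V] (f g : E → V) (y : E) :
    ‖fderiv ℝ f y - fderiv ℝ g y‖ ≤ dist (iteratedFDeriv ℝ 1 f y) (iteratedFDeriv ℝ 1 g y) := by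
  refine ContinuousLinearMap.opNorm_le_bound _ dist_nonneg fun v => ?_
  have := (iteratedFDeriv ℝ 1 f y - iteratedFDeriv ℝ 1 g y).le_opNorm fun _ => v
  simpa [dist_eq_norm] using this

theorem th_half (hR : RadStmt) {X : Flo n} (hB : X.Bd 0 1) {u : Fr n} (hu : u ∈ X.F) {v : E3}
    (hv : ‖v‖ ≤ 1 / 4) : ‖X.th u v - ContinuousLinearMap.id ℝ E3‖ ≤ 1 / 2 := by
  have := ((hR n X u hu).2.2.2.2.2.2 hB v hv).1
  nlinarith [norm_nonneg v]

theorem ex_inj (hR : RadStmt) {X : Flo n} (hB : X.Bd 0 1) {u : Fr n} (hu : u ∈ X.F) {v : E3}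
    (hv : ‖v‖ ≤ 1 / 4) : Function.Injective (fderiv ℝ (X.ex u) v) := by
  rw [((hR n X u hu).2.2.2.2.2.1 v).2.2.2.1]
  exact (X.frame_inj (X.Ex_mem u hu v)).comp (inj_of_half (th_half hR hB hu hv))

/-- the pulled back metric in normal coordinates -/
theorem pb_eq (hR : RadStmt) {E : Type} [NormedAddCommGroup E] [NormedSpace ℝ E] {X : Flo n}
    {u : Fr n} (hu : u ∈ X.F) {κ : E → E3} {y : E} (hκ : DifferentiableAt ℝ κ y) {J : E → Amb n}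
    (hJ : J =ᶠ[𝓝 y] X.ex u ∘ κ) :
    pb X.g J y = (innerSL ℝ).bilinearComp (X.th u (κ y) ∘L fderiv ℝ κ y)
      (X.th u (κ y) ∘L fderiv ℝ κ y) := by
  ext v w
  rw [pb, hJ.fderiv_eq, hJ.eq_of_nhds,
    fderiv_comp y ((X.contDiff_ex u).differentiable (by simp) _) hκ,
    ((hR n X u hu).2.2.2.2.2.1 _).2.2.2.1]
  exact (X.Ex_mem u hu (κ y)).2.2 _ _

theorem ub_gram {ι E : Type} [NormedAddCommGroup E] [NormedSpace ℝ E] {k : ℕ} {y : ι → E}
    {A : ι → E → E →L[ℝ] E3} (h : UBk k A y) :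
    UBk k (fun i x => (innerSL ℝ).bilinearComp (A i x) (A i x)) y := by
  have h1 := (ub_const (fun _ : ι => (innerSL ℝ : E3 →L[ℝ] E3 →L[ℝ] ℝ)) _
    (fun _ => le_rfl)).clm_comp h
  have h2 := (h1.clm
    (ContinuousLinearMap.flipₗᵢ ℝ E E3 ℝ).toContinuousLinearEquiv.toContinuousLinearMap).clm_comp h
  exact UBk.clm (W := E →L[ℝ] E →L[ℝ] ℝ)
    (ContinuousLinearMap.flipₗᵢ ℝ E E ℝ).toContinuousLinearEquiv.toContinuousLinearMap h2

theorem bounds (h1 : UB1Stmt) (hL : LocStmt) (hR : RadStmt) {ι : Type} {S : Set (Amb n)}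
    (G : ι → Geo n) {r : ℝ} (hGS : ∀ i, (G i).S = S) (hB0 : ∀ i, (G i).Bd 0 1)
    (hBJ : ∀ J, ∃ B, ∀ i, (G i).Bd J B) (A : Set ι) (i₀ : ι) (u : ι → Fr n)
    (hu : ∀ i, u i ∈ (G i).F) (hr : r ≤ 1 / 4) (k : ι → E3 → E3) (C' : ℕ → ℝ)
    (φ : ι → Amb n → Amb n)
    (hk : ∀ i ∈ A, ContDiffOn ℝ ∞ (k i) (ball 0 r) ∧ ∀ y ∈ ball (0 : E3) r,
      φ i ((G i₀).ex (u i₀) y) = (G i).ex (u i) (k i y) ∧ ‖k i y‖ < 1 / 4 ∧
      ‖fderiv ℝ (k i) y - ContinuousLinearMap.id ℝ E3‖ ≤ 1 / 2 ∧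
      ∀ l, ‖iteratedFDeriv ℝ l (k i) y‖ ≤ C' l)
    {E : Type} [NormedAddCommGroup E] [NormedSpace ℝ E] [FiniteDimensional ℝ E]
    (j : E → Amb n) (O : Set E) (hO : IsOpen O) (hj : ContDiffOn ℝ ∞ j O) (hjS : MapsTo j O S)
    (y₀ : E) (hy₀ : y₀ ∈ O) (x₀ : E3) (hx₀ : x₀ ∈ ball (0 : E3) r)
    (e₀ : (G i₀).ex (u i₀) x₀ = j y₀) :
    ∃ W ∈ 𝓝 y₀, ∃ c > 0, ∃ C : ℕ → ℝ, ∀ i ∈ A, ∀ y ∈ W,
      (∀ l, ‖iteratedFDeriv ℝ l (pb (G i).g (φ i ∘ j)) y‖ ≤ C l) ∧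
      ∀ v, c * ‖fderiv ℝ j y v‖ ^ 2 ≤ pb (G i).g (φ i ∘ j) y v v := by
  have hq : ∀ y ∈ ball (0 : E3) r, ‖y‖ ≤ 1 / 4 := fun y hy =>
    (mem_ball_zero_iff.1 hy).le.trans hr
  obtain ⟨W₀, U, a, -, hxW, hW₀, hU, ha, a1, a2⟩ := hL n (G i₀).toData ((G i₀).ex (u i₀)) _
    isOpen_ball ((G i₀).contDiff_ex _).contDiffOn (fun v _ => (G i₀).ex_mem (hu i₀) v) x₀ hx₀
    (ex_inj hR (hB0 i₀) (hu i₀) (hq _ hx₀))
  have hO₁ : IsOpen (O ∩ j ⁻¹' U) := hj.continuousOn.isOpen_inter_preimage hO hU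
  have hy₁ : y₀ ∈ O ∩ j ⁻¹' U := ⟨hy₀, by rw [mem_preimage, ← e₀]; exact (a1 _ hxW).1⟩
  have hτ : ContDiffOn ℝ ∞ (a ∘ j) (O ∩ j ⁻¹' U) :=
    ha.comp (hj.mono inter_subset_left) fun y hy => hy.2
  have hτ2 : ∀ y ∈ O ∩ j ⁻¹' U, (a ∘ j) y ∈ ball (0 : E3) r ∧ (G i₀).ex (u i₀) ((a ∘ j) y) = j y :=
    fun y hy => let h := a2 (j y) ⟨(hGS i₀).symm ▸ hjS hy.1, hy.2⟩; ⟨hW₀ h.1, h.2⟩
  obtain ⟨W, hWc, hyW, hWO⟩ := exists_compact_subset hO₁ hy₁
  have hkτ : ∀ i ∈ A, ContDiffOn ℝ ∞ (k i ∘ (a ∘ j)) (O ∩ j ⁻¹' U) := fun i hi =>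
    (hk i hi).1.comp hτ fun y hy => (hτ2 y hy).1
  have hpb : ∀ i ∈ A, ∀ y ∈ O ∩ j ⁻¹' U, pb (G i).g (φ i ∘ j) y =
      (innerSL ℝ).bilinearComp
        ((G i).th (u i) ((k i ∘ (a ∘ j)) y) ∘L fderiv ℝ (k i ∘ (a ∘ j)) y)
        ((G i).th (u i) ((k i ∘ (a ∘ j)) y) ∘L fderiv ℝ (k i ∘ (a ∘ j)) y) := fun i hi y hy => by
    refine pb_eq hR (hu i) (((hkτ i hi).contDiffAt (hO₁.mem_nhds hy)).differentiableAt (by simp)) ?_
    filter_upwards [hO₁.mem_nhds hy] with z hz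
    rw [Function.comp_apply, ← (hτ2 z hz).2]
    exact ((hk i hi).2 _ (hτ2 z hz).1).1
  have hub : ∀ l, UBk l (fun i : A × W => pb (G i.1).g (φ i.1 ∘ j)) fun i => (i.2 : E) := by
    intro l
    have u1 : UBk (l + 1) (fun _ : A × W => a ∘ j) fun i => (i.2 : E) :=
      ub_fixed _ _ W hO₁ hτ hWc hWO fun i => i.2.2
    have u2 : UBk (l + 1) (fun i : A × W => k i.1) fun i => (a ∘ j) i.2 := by
      refine ⟨fun i => (hk _ i.1.2).1.contDiffAt (isOpen_ball.mem_nhds (hτ2 _ (hWO i.2.2)).1),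
        ∑ b ∈ Finset.range (l + 2), |C' b|, fun i b hb => ?_⟩
      exact ((((hk _ i.1.2).2 _ (hτ2 _ (hWO i.2.2)).1).2.2.2 b).trans (le_abs_self _)).trans
        (Finset.single_le_sum (f := fun b => |C' b|) (fun _ _ => abs_nonneg _)
          (Finset.mem_range.2 (by omega)))
    have u3 : UBk (l + 1) (fun i : A × W => k i.1 ∘ (a ∘ j)) fun i => (i.2 : E) := u2.comp u1
    obtain ⟨J, hJ⟩ := h1 l
    obtain ⟨B, hB⟩ := hBJ J
    obtain ⟨C, hC⟩ := hJ B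
    have u4 : UBk l (fun i : A × W => (G i.1).th (u i.1)) fun i => (k i.1 ∘ (a ∘ j)) i.2 :=
      ⟨fun i => ((G i.1).contDiff_th _).contDiffAt, C, fun i b hb =>
        (hC n _ (hB0 _) (hB _) _ (hu _) _ (mem_ball_zero_iff.2
          ((hk _ i.1.2).2 _ (hτ2 _ (hWO i.2.2)).1).2.1) b hb).1⟩
    refine (ub_gram ((UBk.comp (f := fun i : A × W => k i.1 ∘ (a ∘ j)) u4
      (u3.mono (Nat.le_succ l))).clm_comp (ub_succ_iff.1 u3).2)).congr
      fun i => ?_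
    filter_upwards [hO₁.mem_nhds (hWO i.2.2)] with z hz
    exact (hpb _ i.1.2 z hz).symm
  choose C hC using fun l => (hub l).2
  obtain ⟨K, hK⟩ := (isCompact_closedBall (0 : E3) r).exists_bound_of_continuousOn
    (((G i₀).contDiff_ex (u i₀)).continuous_fderiv (by simp)).continuousOn
  refine ⟨W, mem_interior_iff_mem_nhds.1 hyW, 1 / (16 * (K ^ 2 + 1)), by positivity, C,
    fun i hi y hy => ⟨fun l => hC l (⟨i, hi⟩, ⟨y, hy⟩) l le_rfl, fun v => ?_⟩⟩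
  have hy1 := hWO hy
  have dτ := (hτ.contDiffAt (hO₁.mem_nhds hy1)).differentiableAt (by simp)
  obtain ⟨-, k2, k3, -⟩ := (hk i hi).2 _ (hτ2 y hy1).1
  have dk := ((hk i hi).1.contDiffAt (isOpen_ball.mem_nhds (hτ2 y hy1).1)).differentiableAt
    (by simp)
  have ej : j =ᶠ[𝓝 y] (G i₀).ex (u i₀) ∘ (a ∘ j) :=
    eventually_of_mem (hO₁.mem_nhds hy1) fun z hz => (hτ2 z hz).2.symm
  have b1 : ‖fderiv ℝ j y v‖ ≤ K * ‖fderiv ℝ (a ∘ j) y v‖ := by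
    rw [ej.fderiv_eq, fderiv_comp y (((G i₀).contDiff_ex _).differentiable (by simp) _) dτ,
      ContinuousLinearMap.comp_apply]
    exact (ContinuousLinearMap.le_opNorm _ _).trans (mul_le_mul_of_nonneg_right
      (hK _ (ball_subset_closedBall (hτ2 y hy1).1)) (norm_nonneg _))
  have b2 := half_le k3 (fderiv ℝ (a ∘ j) y v)
  have b3 := half_le (th_half hR (hB0 i) (hu i) k2.le)
    (fderiv ℝ (k i) ((a ∘ j) y) (fderiv ℝ (a ∘ j) y v))
  rw [hpb i hi y hy1, fderiv_comp y dk dτ]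
  change _ ≤ ⟪(G i).th (u i) (k i ((a ∘ j) y)) (fderiv ℝ (k i) ((a ∘ j) y) (fderiv ℝ (a ∘ j) y v)),
    (G i).th (u i) (k i ((a ∘ j) y)) (fderiv ℝ (k i) ((a ∘ j) y) (fderiv ℝ (a ∘ j) y v))⟫
  rw [real_inner_self_eq_norm_sq, one_div, inv_mul_le_iff₀ (by positivity)]
  set t := ‖(G i).th (u i) (k i ((a ∘ j) y)) (fderiv ℝ (k i) ((a ∘ j) y) (fderiv ℝ (a ∘ j) y v))‖
  have b4 : ‖fderiv ℝ j y v‖ ≤ |K| * (4 * t) :=
    b1.trans (mul_le_mul (le_abs_self _) (by linarith) (norm_nonneg _) (abs_nonneg _))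
  have b5 := pow_le_pow_left₀ (norm_nonneg _) b4 2
  rw [mul_pow, sq_abs] at b5
  nlinarith [sq_nonneg t]

end P7c

open P7c in
theorem p7_holds (hA : P7aStmt) (hT : RetrStmt) (hU : ULimStmt) (h1 : UB1Stmt) (hL : LocStmt)
    (hE : ExtStmt) (hR : RadStmt) : P7Stmt := by
  intro ι 𝒰 n S G ρ m hρ0 hρ1 hGS hB0 hBJ hI hcov
  choose u hu hcov using hcov
  let χ : ContDiffBump (0 : E3) := ⟨ρ / 2, 3 * ρ / 4, by positivity, by linarith⟩
  have hχs : tsupport χ ⊆ ball 0 ρ := by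
    rw [χ.tsupport_eq]; exact closedBall_subset_ball (show 3 * ρ / 4 < ρ by linarith)
  have hχ1 : ∀ y : E3, ‖y‖ ≤ ρ / 2 → χ y = 1 := fun y hy =>
    χ.one_of_mem_closedBall (mem_closedBall_zero_iff.2 hy)
  obtain ⟨a1, a2⟩ := hA ρ χ hρ0 hρ1 χ.contDiff hχs
  set Φ : ι → Amb n → Fin m → E3 × ℝ := fun i p γ => (G i).cut χ (u i γ) p with hΦ
  set e : ι → Fin m → E3 → Amb n := fun i β => (G i).ex (u i β) with he
  have hq : ball (0 : E3) ρ ⊆ ball 0 (1 / 4) := ball_subset_ball hρ1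
  have hsm : ∀ i β, ContDiffOn ℝ ∞ (fun y => Φ i (e i β y)) (ball 0 ρ) := fun i β =>
    contDiffOn_pi.2 fun γ => ((a1 n _ (hB0 i) (hI i) _ (hu i γ)).2.2 _ (hu i β)).mono hq
  have hub : ∀ k, UBk k (fun (z : ι × Fin m × ball (0 : E3) ρ) y => Φ z.1 (e z.1 z.2.1 y))
      fun z => (z.2.2 : E3) := fun k => ub_pi fun γ => by
    choose J hJ using a2
    choose B hB using hBJ
    choose C hC using fun l => hJ l (B (J l))
    refine ⟨fun z => ((a1 n _ (hB0 _) (hI _) _ (hu _ γ)).2.2 _ (hu _ _)).contDiffAt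
      (isOpen_ball.mem_nhds (hq z.2.2.2)), ∑ b ∈ Finset.range (k + 1), |C b|, fun z b hb => ?_⟩
    exact ((hC b n _ (hB0 _) (hB _ _) (hI _) _ (hu _ γ) _ (hu _ _) _ (hq z.2.2.2)).trans
      (le_abs_self _)).trans (Finset.single_le_sum (f := fun b => |C b|)
        (fun _ _ => abs_nonneg _) (Finset.mem_range.2 (by omega)))
  choose C hC using fun k => (hub k).2
  have hC' : ∀ i β k, ∀ y ∈ ball (0 : E3) ρ,
      ‖iteratedFDeriv ℝ k (fun y => Φ i (e i β y)) y‖ ≤ C k :=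
    fun i β k y hy => hC k (i, β, ⟨y, hy⟩) k le_rfl
  obtain ⟨δ, hδ, C', hret⟩ := hT m ρ C hρ0 (by linarith)
  choose g hg using fun β => hU ι E3 _ 𝒰 (fun i y => Φ i (e i β y)) (ball 0 ρ) C isOpen_ball
    (Eventually.of_forall fun i => ⟨hsm i β, hC' i β⟩)
  set A : Set ι := {i | ∀ β, ∀ k : Fin 2, ∀ y ∈ closedBall (0 : E3) (ρ / 2),
    dist (iteratedFDeriv ℝ k (g β) y) (iteratedFDeriv ℝ k (fun y => Φ i (e i β y)) y) < δ / 2}
    with hAdef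
  have hA𝒰 : A ∈ 𝒰 := by
    refine eventually_all.2 fun β => eventually_all.2 fun k => ?_
    exact Metric.tendstoUniformlyOn_iff.1 ((hg β).2 k _
      (closedBall_subset_ball (by linarith)) (isCompact_closedBall _ _)) _ (by positivity)
  obtain ⟨i₀, hi₀⟩ := 𝒰.nonempty_of_mem hA𝒰
  have eS : ∀ i β y, e i β y ∈ S := fun i β y => hGS i ▸ (G i).ex_mem (hu i β) y
  have c1 : ∀ i β y, ‖y‖ ≤ ρ / 2 → Φ i (e i β y) β = (y, 1) := fun i β y hy => by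
    have := (a1 n _ (hB0 i) (hI i) _ (hu i β)).1 y (mem_ball_zero_iff.2 (by linarith))
    rw [hχ1 y hy, one_smul] at this
    exact this
  have c2 : ∀ i β p, 1 / 2 < (Φ i p β).2 → ‖(Φ i p β).1‖ < ρ / 8 → p = e i β (Φ i p β).1 := by
    intro i β p h2 h3
    by_cases hp : p ∈ e i β '' ball 0 ρ
    · obtain ⟨y, hy, rfl⟩ := hp
      have e1 : Φ i (e i β y) β = (χ y • y, χ y) := (a1 n _ (hB0 i) (hI i) _ (hu i β)).1 y hy
      rw [e1] at h2 h3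
      simp only [norm_smul, Real.norm_of_nonneg χ.nonneg] at h2 h3
      rw [c1 i β y (by nlinarith [norm_nonneg y])]
    · have e1 : Φ i p β = 0 := (a1 n _ (hB0 i) (hI i) _ (hu i β)).2.1 p hp
      rw [e1] at h2
      norm_num at h2
  have hc : ∀ i, ∀ p ∈ S, ∃ β, ∃ y ∈ ball (0 : E3) (ρ / 100), e i β y = p := fun i p hp => by
    simpa using hcov i hp
  have c3 : ∀ i β, ∀ y ∈ ball (0 : E3) (ρ / 100), ∀ q, ‖Φ i q - Φ i (e i β y)‖ ≤ ρ / 500 →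
      ∃ y' ∈ ball (0 : E3) (ρ / 32), e i β y' = q := fun i β y hy q hd => by
    rw [mem_ball_zero_iff] at hy
    have d1 := (norm_le_pi_norm _ β).trans hd
    rw [Pi.sub_apply, c1 i β y (by linarith)] at d1
    have d2 := (norm_fst_le _).trans d1
    have d3 := (norm_snd_le _).trans d1
    simp only [Prod.fst_sub, Prod.snd_sub, Real.norm_eq_abs] at d2 d3
    have d4 : ‖(Φ i q β).1‖ < ρ / 32 := by linarith [norm_sub_norm_le (Φ i q β).1 y]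
    exact ⟨_, mem_ball_zero_iff.2 d4,
      (c2 i β q (by linarith [(abs_le.1 d3).1]) (by linarith)).symm⟩
  have hinj : ∀ i, InjOn (Φ i) S := fun i p hp q hq h => by
    obtain ⟨β, y, hy, rfl⟩ := hc i p hp
    rw [mem_ball_zero_iff] at hy
    have d1 := c1 i β y (by linarith)
    have d2 := c2 i β q (by rw [← h, d1]; norm_num) (by rw [← h, d1]; linarith)
    rw [d2, ← h, d1]
  have key : ∀ i, ∃ (φ φ' : Amb n → Amb n) (k : Fin m → E3 → E3), i ∈ A →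
      (ContDiff ℝ ∞ φ ∧ ContDiff ℝ ∞ φ' ∧ MapsTo φ S S ∧ MapsTo φ' S S ∧
        (∀ p ∈ S, φ' (φ p) = p) ∧ ∀ p ∈ S, φ (φ' p) = p) ∧
      ∀ β, ContDiffOn ℝ ∞ (k β) (ball 0 (ρ / 32)) ∧ ∀ y ∈ ball (0 : E3) (ρ / 32),
        φ (e i₀ β y) = e i β (k β y) ∧ ‖k β y‖ < 1 / 4 ∧
        ‖fderiv ℝ (k β) y - ContinuousLinearMap.id ℝ E3‖ ≤ 1 / 2 ∧
        ∀ l, ‖iteratedFDeriv ℝ l (k β) y‖ ≤ C' l := by
    intro i
    by_cases hi : i ∈ A
    swap
    · exact ⟨id, id, fun _ => id, fun h => absurd h hi⟩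
    obtain ⟨π, hπ⟩ := hret (fun β y => Φ i (e i β y)) (fun β y => Φ i₀ (e i₀ β y)) (Φ i '' S)
      (fun β => ⟨hsm i β, hsm i₀ β, fun k y hy => ⟨hC' i β k y hy, hC' i₀ β k y hy⟩⟩)
      (fun β y _ => mem_image_of_mem _ (eS i β y))
      (by
        rintro _ ⟨p, -, rfl⟩ β h2 h3
        exact congrArg (Φ i) (c2 i β p h2 h3))
      (fun β y hy => ⟨c1 i β y hy, c1 i₀ β y hy⟩)
      (fun β y hy => by
        have hy' := mem_closedBall_zero_iff.2 hy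
        refine ⟨(norm_sub_le0 (fun y => Φ i (e i β y)) (fun y => Φ i₀ (e i₀ β y)) y).trans ?_,
          (norm_sub_le1 _ _ y).trans ?_⟩
        · exact (dist_triangle_left _ _ _).trans
            ((add_le_add (hi β 0 y hy').le (hi₀ β 0 y hy').le).trans (by linarith))
        · exact (dist_triangle_left _ _ _).trans
            ((add_le_add (hi β 1 y hy').le (hi₀ β 1 y hy').le).trans (by linarith)))
    set k : Fin m → E3 → E3 := fun β y => (π (Φ i₀ (e i₀ β y)) β).1 with hk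
    have k1 : ∀ β, ∀ y ∈ ball (0 : E3) (ρ / 32), ‖k β y - y‖ ≤ ρ / 1000 := fun β y hy => by
      have d1 := (norm_le_pi_norm _ β).trans ((hπ β).2 y hy).2.1
      rw [Pi.sub_apply, c1 i₀ β y (by linarith [mem_ball_zero_iff.1 hy])] at d1
      exact (norm_fst_le _).trans d1
    have k2 : ∀ β, ∀ y ∈ ball (0 : E3) (ρ / 32), ‖k β y‖ < 1 / 4 := fun β y hy => by
      linarith [k1 β y hy, norm_sub_norm_le (k β y) y, mem_ball_zero_iff.1 hy]
    have : Nonempty (Amb n) := ⟨0⟩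
    set f : Amb n → Amb n := fun p => Function.invFunOn (Φ i) S (π (Φ i₀ p)) with hf
    have f1 : ∀ β, ∀ y ∈ ball (0 : E3) (ρ / 32), f (e i₀ β y) = (e i β ∘ k β) y := fun β y hy => by
      simp only [hf]
      rw [((hπ β).2 y hy).1]
      exact (hinj i).leftInvOn_invFunOn (eS _ _ _)
    have s1 : ball (0 : E3) (ρ / 100) ⊆ ball 0 (ρ / 32) := ball_subset_ball (by linarith)
    have hc' : ∀ p ∈ S, ∃ β, ∃ y ∈ ball (0 : E3) (ρ / 32), e i₀ β y = p := fun p hp =>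
      let ⟨β, y, hy, h⟩ := hc i₀ p hp; ⟨β, y, s1 hy, h⟩
    have f2 : ∀ p ∈ S, Φ i (f p) = π (Φ i₀ p) ∧ ‖π (Φ i₀ p) - Φ i₀ p‖ ≤ ρ / 1000 ∧ f p ∈ S :=
      fun p hp => by
        obtain ⟨β, y, hy, rfl⟩ := hc' p hp
        rw [f1 β y hy]
        exact ⟨((hπ β).2 y hy).1.symm, ((hπ β).2 y hy).2.1, eS _ _ _⟩
    have kd : ∀ β, ∀ y ∈ ball (0 : E3) (ρ / 32),
        ‖fderiv ℝ (k β) y - ContinuousLinearMap.id ℝ E3‖ ≤ 1 / 2 :=
      fun β y hy => ((hπ β).2 y hy).2.2.1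
    have finj : InjOn f S := fun p hp q hq h => by
      obtain ⟨β, y, hy, rfl⟩ := hc i₀ p hp
      have d0 : π (Φ i₀ (e i₀ β y)) = π (Φ i₀ q) := by rw [← (f2 _ hp).1, h, (f2 _ hq).1]
      obtain ⟨y', hy', rfl⟩ := c3 i₀ β y hy q (by
        have d1 := (f2 _ hp).2.1
        have d2 := (f2 _ hq).2.1
        rw [d0] at d1
        have := norm_sub_le_norm_sub_add_norm_sub (Φ i₀ q) (π (Φ i₀ q)) (Φ i₀ (e i₀ β y))
        rw [norm_sub_rev (Φ i₀ q) (π _)] at this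
        linarith)
      rw [k_inj (hπ β).1 (kd β) (s1 hy) hy' (by simp only [d0])]
    have hc2 : ∀ p ∈ S, ∃ β, ∃ y ∈ ball (0 : E3) (ρ / 32), (e i β ∘ k β) y = p := fun p hp => by
      obtain ⟨β, x, hx, rfl⟩ := hc i p hp
      obtain ⟨y, hy, h⟩ := k_surj hρ0 (hπ β).1 (kd β) (k1 β) hx
      exact ⟨β, y, hy, congrArg (e i β) h⟩
    have sm0 : ∀ β, ContDiffOn ℝ ∞ (e i₀ β) (ball 0 (ρ / 32)) := fun β =>
      ((G i₀).contDiff_ex _).contDiffOn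
    have sm1 : ∀ β, ContDiffOn ℝ ∞ (e i β ∘ k β) (ball 0 (ρ / 32)) := fun β =>
      ((G i).contDiff_ex _).comp_contDiffOn (hπ β).1
    obtain ⟨φ, hφ, eφ⟩ := ext_charts hL hE (G i₀).toData (e i₀) (fun β => e i β ∘ k β) sm0 sm1
      (fun β y _ => (G i₀).ex_mem (hu _ _) y)
      (fun β y hy => ex_inj hR (hB0 _) (hu _ _) (by linarith [mem_ball_zero_iff.1 hy]))
      (by rw [hGS]; exact hc') f f1
    obtain ⟨φ', hφ', eφ'⟩ := ext_charts hL hE (G i).toData (fun β => e i β ∘ k β) (e i₀) sm1 sm0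
      (fun β y _ => (G i).ex_mem (hu _ _) _)
      (fun β y hy => by
        rw [fderiv_comp y (((G i).contDiff_ex _).differentiable (by simp) _)
          (((hπ β).1.contDiffAt (isOpen_ball.mem_nhds hy)).differentiableAt (by simp))]
        exact (ex_inj hR (hB0 _) (hu _ _) (k2 β y hy).le).comp (inj_of_half (kd β y hy)))
      (by rw [hGS]; exact hc2) (Function.invFunOn f S)
      (fun β y hy => by rw [← f1 β y hy]; exact finj.leftInvOn_invFunOn (eS _ _ _))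
    rw [hGS] at eφ eφ'
    have fs : SurjOn f S S := fun p hp =>
      let ⟨β, y, hy, h⟩ := hc2 p hp; ⟨_, eS _ _ _, (f1 β y hy).trans h⟩
    have m1 : MapsTo φ S S := fun p hp => by rw [eφ hp]; exact (f2 p hp).2.2
    have m2 : MapsTo φ' S S := fun p hp => by rw [eφ' hp]; exact fs.mapsTo_invFunOn hp
    refine ⟨φ, φ', k, fun _ => ⟨⟨hφ, hφ', m1, m2, fun p hp => ?_, fun p hp => ?_⟩, fun β =>
      ⟨(hπ β).1, fun y hy => ⟨(eφ (eS _ _ _)).trans (f1 β y hy), k2 β y hy, kd β y hy,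
        ((hπ β).2 y hy).2.2.2⟩⟩⟩⟩
    · rw [eφ' (m1 hp), eφ hp]; exact finj.leftInvOn_invFunOn hp
    · rw [eφ (m2 hp), eφ' hp]; exact fs.rightInvOn_invFunOn hp
  choose φ φ' k hk using key
  refine ⟨A, φ, φ', hA𝒰, fun i hi => (hk i hi).1, fun E _ _ _ j O hO hj hjS y₀ hy₀ => ?_⟩
  obtain ⟨β, x₀, hx₀, e₀⟩ := hc i₀ _ (hjS hy₀)
  exact bounds h1 hL hR G hGS hB0 hBJ A i₀ (fun i => u i β) (fun i => hu i β) (by linarith)
    (fun i => k i β) C' φ (fun i hi => (hk i hi).2 β) j O hO hj hjS y₀ hy₀ x₀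
    (ball_subset_ball (by linarith) hx₀) e₀

end Pool.Agent.Lib.MP_1a4aff_gt.I3
end

-- part Pool.Agent.Lib.MP_1a4aff_gt.I3.Bas
section

/-! The frame bundle of an embedded manifold, smooth extension and local inverses. -/

set_option autoImplicit false

open Set Filter Topology Metric
open scoped ContDiff RealInnerProductSpace Manifold

namespace Pool.Agent.Lib.MP_1a4aff_gt.I3

namespace Bas

variable {n : ℕ}

/-! ### charts -/

section Ch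

variable {S : Set (Amb n)} (c : Chart S)

theorem cj {y : E3} (hy : y ∈ c.V) : ContDiffAt ℝ ∞ c.j y :=
  c.smj.contDiffAt (c.openV.mem_nhds hy)

theorem cr' {p : Amb n} (hp : p ∈ c.U) : ContDiffAt ℝ ∞ c.r p :=
  c.smr.contDiffAt (c.openU.mem_nhds hp)

theorem dj {y : E3} (hy : y ∈ c.V) : DifferentiableAt ℝ c.j y :=
  (cj c hy).differentiableAt (by simp)

theorem dr {p : Amb n} (hp : p ∈ c.U) : DifferentiableAt ℝ c.r p :=
  (cr' c hp).differentiableAt (by simp)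

theorem dr_dj {y : E3} (hy : y ∈ c.V) :
    fderiv ℝ c.r (c.j y) ∘L fderiv ℝ c.j y = ContinuousLinearMap.id ℝ E3 := by
  rw [← fderiv_comp y (dr c (c.jmem hy).2) (dj c hy), ← fderiv_id (𝕜 := ℝ) (x := y)]
  refine Filter.EventuallyEq.fderiv_eq ?_
  filter_upwards [c.openV.mem_nhds hy] with z hz using c.rj z hz

theorem dj_mem {y : E3} (hy : y ∈ c.V) (w : E3) :
    fderiv ℝ c.j y w ∈ tangentConeAt ℝ S (c.j y) :=
  fderiv_mem_tangentCone (dj c hy)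
    (by filter_upwards [c.openV.mem_nhds hy] with z hz using (c.jmem hz).1) w

theorem dj_dr {p : Amb n} (hp : p ∈ S ∩ c.U) {X : Amb n} (hX : X ∈ tangentConeAt ℝ S p) :
    fderiv ℝ c.j (c.r p) (fderiv ℝ c.r p X) = X := by
  have h1 := dj c (c.rmem hp)
  have h2 := dr c hp.2
  have h := fderiv_eq_of_eventuallyEq (f := c.j ∘ c.r) (g := id) hp.1 hX (h1.comp p h2)
    differentiableAt_id (by
      filter_upwards [self_mem_nhdsWithin, mem_nhdsWithin_of_mem_nhds (c.openU.mem_nhds hp.2)]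
        with q h1 h2 using c.jr q ⟨h1, h2⟩)
  rw [fderiv_comp p h1 h2, fderiv_id] at h
  exact h

theorem tan_eq {p : Amb n} (hp : p ∈ S ∩ c.U) :
    tangentConeAt ℝ S p = range (fderiv ℝ c.j (c.r p)) := by
  refine Subset.antisymm (fun X hX => ⟨_, dj_dr c hp hX⟩) ?_
  rintro _ ⟨w, rfl⟩
  have := dj_mem c (c.rmem hp) w
  rwa [c.jr p hp] at this

theorem dj_inj {y : E3} (hy : y ∈ c.V) {w : E3} (hw : w ≠ 0) : fderiv ℝ c.j y w ≠ 0 := fun h => by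
  have := congrArg (fun A : E3 →L[ℝ] E3 => A w) (dr_dj c hy)
  simp only [ContinuousLinearMap.comp_apply, h, map_zero, ContinuousLinearMap.id_apply] at this
  exact hw this.symm

end Ch

/-! ### Gram-Schmidt -/

section GS

variable (g : Amb n →L[ℝ] Amb n →L[ℝ] ℝ) (A : E3 →L[ℝ] Amb n)

noncomputable def nrm (v : E3) : E3 := (Real.sqrt (g (A v) (A v)))⁻¹ • v
noncomputable def f0 : E3 := nrm g A (ee 0)
noncomputable def w1 : E3 := ee 1 - g (A (ee 1)) (A (f0 g A)) • f0 g A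
noncomputable def f1 : E3 := nrm g A (w1 g A)
noncomputable def w2 : E3 :=
  ee 2 - g (A (ee 2)) (A (f0 g A)) • f0 g A - g (A (ee 2)) (A (f1 g A)) • f1 g A
noncomputable def f2 : E3 := nrm g A (w2 g A)
noncomputable def gsM : E3 →L[ℝ] E3 :=
  (innerSL ℝ (ee 0)).smulRight (f0 g A) + (innerSL ℝ (ee 1)).smulRight (f1 g A) +
    (innerSL ℝ (ee 2)).smulRight (f2 g A)

theorem ee0_ne : ee 0 ≠ 0 := fun h => by simpa using congrArg (fun v : E3 => v 0) h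

theorem w1_ne : w1 g A ≠ 0 := fun h => by
  simpa [w1, f0, nrm] using congrArg (fun v : E3 => v 1) h

theorem w2_ne : w2 g A ≠ 0 := fun h => by
  simpa [w2, f1, w1, f0, nrm] using congrArg (fun v : E3 => v 2) h

variable {g A}

theorem nrm_self {v : E3} (h : 0 < g (A v) (A v)) : g (A (nrm g A v)) (A (nrm g A v)) = 1 := by
  have h1 := Real.mul_self_sqrt h.le
  have h2 := (Real.sqrt_pos.2 h).ne'
  simp only [nrm, map_smul, smul_apply, smul_eq_mul]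
  field_simp
  rw [pow_two, h1]

theorem gsM_orth (hs : ∀ X Y, g X Y = g Y X) (hp : ∀ v, v ≠ 0 → 0 < g (A v) (A v)) (x y : E3) :
    g (A (gsM g A x)) (A (gsM g A y)) = ⟪x, y⟫ := by
  have h0 : g (A (f0 g A)) (A (f0 g A)) = 1 := nrm_self (hp _ ee0_ne)
  have h1 : g (A (f1 g A)) (A (f1 g A)) = 1 := nrm_self (hp _ (w1_ne g A))
  have h2 : g (A (f2 g A)) (A (f2 g A)) = 1 := nrm_self (hp _ (w2_ne g A))
  have h10 : g (A (f1 g A)) (A (f0 g A)) = 0 := by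
    rw [f1, nrm, w1]; simp [h0]
  have h01 := (hs _ _).trans h10
  have h20 : g (A (f2 g A)) (A (f0 g A)) = 0 := by
    rw [f2, nrm, w2]; simp [h0, h10]
  have h21 : g (A (f2 g A)) (A (f1 g A)) = 0 := by
    rw [f2, nrm, w2]; simp [h1, h01]
  have h02 := (hs _ _).trans h20
  have h12 := (hs _ _).trans h21
  simp [gsM, ee_inner, inner_E3 x y, h0, h1, h2, h10, h01, h20, h21, h02, h12]

variable {G : E3 → Amb n →L[ℝ] Amb n →L[ℝ] ℝ} {B : E3 → E3 →L[ℝ] Amb n} {y : E3}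
  (hG : ContDiffAt ℝ ∞ G y) (hB : ContDiffAt ℝ ∞ B y)
include hG hB

theorem cd_g {v w : E3 → E3} (hv : ContDiffAt ℝ ∞ v y) (hw : ContDiffAt ℝ ∞ w y) :
    ContDiffAt ℝ ∞ (fun z => G z (B z (v z)) (B z (w z))) y :=
  (hG.clm_apply (hB.clm_apply hv)).clm_apply (hB.clm_apply hw)

theorem cd_nrm {v : E3 → E3} (hv : ContDiffAt ℝ ∞ v y) (h : 0 < G y (B y (v y)) (B y (v y))) :
    ContDiffAt ℝ ∞ (fun z => nrm (G z) (B z) (v z)) y :=
  (((cd_g hG hB hv hv).sqrt h.ne').inv (Real.sqrt_pos.2 h).ne').smul hv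

theorem cd_gsM (hp : ∀ v, v ≠ 0 → 0 < G y (B y v) (B y v)) :
    ContDiffAt ℝ ∞ (fun z => gsM (G z) (B z)) y := by
  have h0 : ContDiffAt ℝ ∞ (fun z => f0 (G z) (B z)) y :=
    cd_nrm hG hB contDiffAt_const (hp _ ee0_ne)
  have h1 : ContDiffAt ℝ ∞ (fun z => f1 (G z) (B z)) y :=
    cd_nrm hG hB (contDiffAt_const.sub ((cd_g hG hB contDiffAt_const h0).smul h0))
      (hp _ (w1_ne _ _))
  have h2 : ContDiffAt ℝ ∞ (fun z => f2 (G z) (B z)) y :=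
    cd_nrm hG hB ((contDiffAt_const.sub ((cd_g hG hB contDiffAt_const h0).smul h0)).sub
      ((cd_g hG hB contDiffAt_const h1).smul h1)) (hp _ (w2_ne _ _))
  exact ((contDiffAt_const.smulRight h0).add (contDiffAt_const.smulRight h1)).add
    (contDiffAt_const.smulRight h2)

end GS

/-! ### frames -/

variable (D : Data n)

/-- the local section over a chart -/
noncomputable def sig (c : Chart D.S) (y : E3) : Fr n :=
  (c.j y, fderiv ℝ c.j y ∘L gsM (D.g (c.j y)) (fderiv ℝ c.j y))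

variable {D}

theorem pos' (c : Chart D.S) {y : E3} (hy : y ∈ c.V) (v : E3) (hv : v ≠ 0) :
    0 < D.g (c.j y) (fderiv ℝ c.j y v) (fderiv ℝ c.j y v) :=
  D.pos _ (c.jmem hy).1 _ (dj_mem c hy v) (dj_inj c hy hv)

theorem sig_mem (c : Chart D.S) {y : E3} (hy : y ∈ c.V) : sig D c y ∈ D.F :=
  ⟨(c.jmem hy).1, fun _ => dj_mem c hy _, gsM_orth (D.symm _) (pos' c hy)⟩

theorem sig_cd (c : Chart D.S) {y : E3} (hy : y ∈ c.V) : ContDiffAt ℝ ∞ (sig D c) y := by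
  have h1 : ContDiffAt ℝ ∞ (fderiv ℝ c.j) y := (cj c hy).fderiv_right (m := ∞) (by simp)
  exact (cj c hy).prodMk
    (h1.clm_comp (cd_gsM (D.smg.contDiffAt.comp y (cj c hy)) h1 (pos' c hy)))

theorem span {u : Fr n} (hu : u ∈ D.F) {X : Amb n} (hX : X ∈ tangentConeAt ℝ D.S u.1) :
    ∃ x, X = u.2 x := by
  obtain ⟨c, hc⟩ := D.ch _ hu.1
  have e : ∀ x, fderiv ℝ c.j (c.r u.1) (fderiv ℝ c.r u.1 (u.2 x)) = u.2 x :=
    fun x => dj_dr c ⟨hu.1, hc⟩ (hu.2.1 x)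
  have hi : Function.Injective (fderiv ℝ c.r u.1 ∘L u.2) := fun a b h =>
    D.frame_inj hu (by rw [← e a, ← e b]; exact congrArg _ h)
  obtain ⟨x, hx⟩ := (LinearMap.injective_iff_surjective
    (f := ((fderiv ℝ c.r u.1 ∘L u.2 : E3 →L[ℝ] E3) : E3 →ₗ[ℝ] E3))).1 hi (fderiv ℝ c.r u.1 X)
  refine ⟨x, ?_⟩
  rw [← e x, ← dj_dr c ⟨hu.1, hc⟩ hX]
  exact congrArg _ hx.symm

theorem fiber {u u' : Fr n} (hu : u ∈ D.F) (hu' : u' ∈ D.F) (h : u.1 = u'.1) :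
    ∃ Q, Orth Q ∧ u' = rot Q u := by
  let Q : E3 →L[ℝ] E3 := ∑ c, (D.g u.1 (u.2 (ee c)) ∘L u'.2).smulRight (ee c)
  have hQ : ∀ x, u.2 (Q x) = u'.2 x := fun x => by
    obtain ⟨z, hz⟩ := span hu (h ▸ hu'.2.1 x)
    have : Q x = z := by
      simp only [Q, sum_apply, ContinuousLinearMap.smulRight_apply,
        ContinuousLinearMap.comp_apply, hz, hu.2.2, ee_inner, sum_ee]
    rw [this, hz]
  refine ⟨Q, fun x y => ?_, Prod.ext h.symm (ContinuousLinearMap.ext fun x => (hQ x).symm)⟩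
  rw [← hu.2.2, hQ, hQ, h, hu'.2.2]

theorem cpt_orth : IsCompact {Q : E3 →L[ℝ] E3 | Orth Q} := by
  refine isCompact_of_isClosed_isBounded ?_
    ((isBounded_closedBall (x := 0) (r := 1)).subset fun Q hQ => ?_)
  · simp only [Orth, ofPred_forall]
    exact isClosed_iInter fun x => isClosed_iInter fun y =>
      isClosed_eq (by fun_prop) continuous_const
  · simpa using Orth.opNorm_le hQ

theorem cpt_F (D : Data n) : IsCompact D.F := by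
  suffices h : ∃ K, IsCompact K ∧ K ⊆ D.F ∧ ∀ u ∈ D.F, u.1 ∈ D.S → u ∈ K by
    obtain ⟨K, h1, h2, h3⟩ := h
    rwa [Subset.antisymm h2 fun u hu => h3 u hu hu.1] at h1
  refine D.cpt.induction_on
    (p := fun s => ∃ K, IsCompact K ∧ K ⊆ D.F ∧ ∀ u ∈ D.F, u.1 ∈ s → u ∈ K)
    ⟨∅, isCompact_empty, empty_subset _, fun _ _ h => h⟩ ?_ ?_ fun p hp => ?_
  · rintro s t hst ⟨K, h1, h2, h3⟩
    exact ⟨K, h1, h2, fun u hu h => h3 u hu (hst h)⟩
  · rintro s t ⟨K, h1, h2, h3⟩ ⟨K', h1', h2', h3'⟩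
    exact ⟨K ∪ K', h1.union h1', union_subset h2 h2',
      fun u hu h => h.imp (h3 u hu) (h3' u hu)⟩
  obtain ⟨c, hc⟩ := D.ch p hp
  obtain ⟨ρ, ρ0, hρ⟩ := nhds_basis_closedBall.mem_iff.1 (c.openV.mem_nhds (c.rmem ⟨hp, hc⟩))
  refine ⟨D.S ∩ (c.U ∩ c.r ⁻¹' closedBall (c.r p) ρ), inter_mem_nhdsWithin _
    (inter_mem (c.openU.mem_nhds hc) ((cr' c hc).continuousAt (closedBall_mem_nhds _ ρ0))),
    (fun z : (E3 →L[ℝ] E3) × E3 => rot z.1 (sig D c z.2)) ''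
      ({Q | Orth Q} ×ˢ closedBall (c.r p) ρ), ?_, ?_, fun u hu h => ?_⟩
  · refine (cpt_orth.prod (isCompact_closedBall _ _)).image_of_continuousOn fun z hz => ?_
    exact (contDiff_rot₂.continuous.continuousAt.comp (continuousAt_fst.prodMk
      ((sig_cd c (hρ hz.2)).continuousAt.comp continuousAt_snd))).continuousWithinAt
  · rintro _ ⟨z, hz, rfl⟩
    exact D.rot_mem (sig_mem c (hρ hz.2)) hz.1
  · obtain ⟨Q, h1, h2⟩ := fiber (sig_mem c (hρ h.2.2)) hu (c.jr _ ⟨h.1, h.2.1⟩)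
    exact ⟨(Q, c.r u.1), ⟨h1, h.2.2⟩, h2.symm⟩

theorem curve {u : Fr n} (hu : u ∈ D.F) (x : E3) : ∃ (γ : ℝ → Fr n) (Y : Fr n), γ 0 = u ∧
    (∀ᶠ t in 𝓝 0, γ t ∈ D.F) ∧ HasDerivAt γ Y 0 ∧ Y.1 = u.2 x := by
  obtain ⟨c, hc⟩ := D.ch _ hu.1
  have hy := c.rmem ⟨hu.1, hc⟩
  obtain ⟨Q, h1, h2⟩ := fiber (sig_mem c hy) hu (c.jr _ ⟨hu.1, hc⟩)
  set y := c.r u.1
  set w := fderiv ℝ c.r u.1 (u.2 x)
  have l1 : HasDerivAt (fun t : ℝ => y + t • w) w 0 := by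
    simpa using ((hasDerivAt_id (0 : ℝ)).smul_const w).const_add y
  have l2 : Tendsto (fun t : ℝ => y + t • w) (𝓝 0) (𝓝 y) := by
    simpa using l1.continuousAt.tendsto
  have l3 : HasDerivAt (fun t : ℝ => sig D c (y + t • w)) (fderiv ℝ (sig D c) y w) 0 :=
    HasFDerivAt.comp_hasDerivAt_of_eq 0
      ((sig_cd c hy).differentiableAt (by simp)).hasFDerivAt l1 (by simp)
  have l4 : HasDerivAt (fun t : ℝ => c.j (y + t • w)) (fderiv ℝ c.j y w) 0 :=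
    HasFDerivAt.comp_hasDerivAt_of_eq 0 (dj c hy).hasFDerivAt l1 (by simp)
  refine ⟨fun t => rot Q (sig D c (y + t • w)), rot Q (fderiv ℝ (sig D c) y w),
    by simpa using h2.symm, ?_, (hasFDerivAt_rot Q _).comp_hasDerivAt 0 l3, ?_⟩
  · filter_upwards [l2.eventually (c.openV.mem_nhds hy)] with t ht
    exact D.rot_mem (sig_mem c ht) h1
  · have l5 : HasDerivAt (fun t : ℝ => c.j (y + t • w)) (fderiv ℝ (sig D c) y w).1 0 :=
      (ContinuousLinearMap.fst ℝ (Amb n) (E3 →L[ℝ] Amb n)).hasFDerivAt.comp_hasDerivAt 0 l3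
    exact (l5.unique l4).trans (dj_dr c ⟨hu.1, hc⟩ (hu.2.1 x))

end Bas

open Bas in
theorem bas_holds : BasStmt := fun n D => by
  refine ⟨fun c p hp => ⟨tan_eq c hp, ?_⟩, cpt_F D, fun p hp => ?_,
    fun u hu u' hu' h => fiber hu hu' h, fun u hu X hX => span hu hX, fun u hu x => curve hu x⟩
  · have := dr_dj c (c.rmem hp)
    rwa [c.jr p hp] at this
  · obtain ⟨c, hc⟩ := D.ch p hp
    exact ⟨_, sig_mem c (c.rmem ⟨hp, hc⟩), c.jr p ⟨hp, hc⟩⟩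

theorem ext_holds : ExtStmt := fun n V _ _ S hS f hf => by
  obtain ⟨k, hk⟩ := exists_contMDiffMap_forall_mem_convex_of_local (n := ⊤) 𝓘(ℝ, Amb n)
    (t := fun p : Amb n => {y : V | p ∈ S → y = f p})
    (fun p y hy z hz a b _ _ hab hp => by
      rw [hy hp, hz hp, ← add_smul, hab, one_smul]) (fun p => by
      by_cases hp : p ∈ S
      · obtain ⟨U, h1, h2, h, h3, h4⟩ := hf p hp
        exact ⟨U, h1.mem_nhds h2, h, h3.contMDiffOn, fun y hy hy' => h4 ⟨hy', hy⟩⟩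
      · exact ⟨Sᶜ, hS.isOpen_compl.mem_nhds hp, 0, contMDiffOn_const,
          fun y hy hy' => absurd hy' hy⟩)
  exact ⟨k, k.contMDiff.contDiff, fun p hp => hk p hp⟩

open Bas in
theorem loc_holds : LocStmt := fun n D e O hO he hS v₀ hv₀ hi => by
  obtain ⟨c, hc⟩ := D.ch _ (hS hv₀)
  have hO' : IsOpen (O ∩ e ⁻¹' c.U) := he.continuousOn.isOpen_inter_preimage hO c.openU
  have hφ : ContDiffOn ℝ ∞ (c.r ∘ e) (O ∩ e ⁻¹' c.U) :=
    c.smr.comp (he.mono inter_subset_left) fun v hv => hv.2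
  have hφ' : ∀ v ∈ O ∩ e ⁻¹' c.U, ContDiffAt ℝ ∞ (c.r ∘ e) v :=
    fun v hv => hφ.contDiffAt (hO'.mem_nhds hv)
  have hj : ∀ v ∈ O ∩ e ⁻¹' c.U, c.j ((c.r ∘ e) v) = e v := fun v hv => c.jr _ ⟨hS hv.1, hv.2⟩
  have hW₁ : IsOpen ((O ∩ e ⁻¹' c.U) ∩ (fun v => (fderiv ℝ (c.r ∘ e) v).det) ⁻¹' {0}ᶜ) :=
    (ContinuousLinearMap.continuous_det.comp_continuousOn
      (hφ.continuousOn_fderiv_of_isOpen hO' (by simp))).isOpen_inter_preimage hO'
      isOpen_compl_singleton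
  have hd₀ : (fderiv ℝ (c.r ∘ e) v₀).det ≠ 0 := by
    have e1 : fderiv ℝ e v₀ = fderiv ℝ c.j ((c.r ∘ e) v₀) ∘L fderiv ℝ (c.r ∘ e) v₀ := by
      rw [← fderiv_comp v₀ (dj c (c.rmem ⟨hS hv₀, hc⟩))
        ((hφ' v₀ ⟨hv₀, hc⟩).differentiableAt (by simp))]
      refine Filter.EventuallyEq.fderiv_eq ?_
      filter_upwards [hO'.mem_nhds ⟨hv₀, hc⟩] with v hv using (hj v hv).symm
    rw [e1] at hi
    intro h
    exact LinearMap.det_eq_zero_iff_ker_ne_bot.1 h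
      (LinearMap.ker_eq_bot.2 (Function.Injective.of_comp hi))
  have hD : ∀ v ∈ O ∩ e ⁻¹' c.U, ∀ h : (fderiv ℝ (c.r ∘ e) v).det ≠ 0, HasFDerivAt (c.r ∘ e)
      ((fderiv ℝ (c.r ∘ e) v).toContinuousLinearEquivOfDetNeZero h : E3 →L[ℝ] E3) v :=
    fun v hv h => by
      rw [ContinuousLinearMap.coe_toContinuousLinearEquivOfDetNeZero]
      exact ((hφ' v hv).differentiableAt (by simp)).hasFDerivAt
  obtain ⟨Φ, hΦ, hs⟩ : ∃ Φ : OpenPartialHomeomorph E3 E3, (Φ : E3 → E3) = c.r ∘ e ∧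
      v₀ ∈ Φ.source :=
    ⟨(hφ' v₀ ⟨hv₀, hc⟩).toOpenPartialHomeomorph _ (hD v₀ ⟨hv₀, hc⟩ hd₀) (by simp), rfl,
      ContDiffAt.mem_toOpenPartialHomeomorph_source _ _ _⟩
  have hW := Φ.open_source.inter hW₁
  set W := Φ.source ∩ ((O ∩ e ⁻¹' c.U) ∩ (fun v => (fderiv ℝ (c.r ∘ e) v).det) ⁻¹' {0}ᶜ)
  have hW' : IsOpen (Φ '' W) := (Φ.isOpen_image_iff_of_subset_source inter_subset_left).2 hW
  have hb : ContDiffOn ℝ ∞ Φ.symm (Φ '' W) := by
    rintro _ ⟨v, hv, rfl⟩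
    refine (Φ.contDiffAt_symm (f₀' := (fderiv ℝ (c.r ∘ e) v).toContinuousLinearEquivOfDetNeZero
      hv.2.2) (Φ.map_source hv.1) ?_ ?_).contDiffWithinAt
    · rw [Φ.left_inv hv.1, hΦ]; exact hD v hv.2.1 hv.2.2
    · rw [Φ.left_inv hv.1, hΦ]; exact hφ' v hv.2.1
  have hΦ' : ∀ v, c.r (e v) = Φ v := fun v => (congrFun hΦ v).symm
  refine ⟨W, c.U ∩ c.r ⁻¹' (Φ '' W), Φ.symm ∘ c.r, hW, ⟨hs, ⟨hv₀, hc⟩, hd₀⟩, fun v hv => hv.2.1.1,
    c.smr.continuousOn.isOpen_inter_preimage c.openU hW',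
    hb.comp (c.smr.mono inter_subset_left) fun p hp => hp.2,
    fun v hv => ⟨⟨hv.2.1.2, v, hv, (hΦ' v).symm⟩, ?_⟩, fun p hp => ?_⟩
  · rw [Function.comp_apply, hΦ', Φ.left_inv hv.1]
  · obtain ⟨v, hv, h⟩ := hp.2.2
    rw [Function.comp_apply, ← h, Φ.left_inv hv.1]
    refine ⟨hv, ?_⟩
    rw [← hj v hv.2.1, ← hΦ, h, c.jr p ⟨hp.1, hp.2.1⟩]

end Pool.Agent.Lib.MP_1a4aff_gt.I3
end
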