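import Pool.Agent.Lib.MP_1a4aff_gt.I3.Defs

/-! Statements of the geometric and analytic parts. -/

set_option autoImplicit false

open MeasureTheory Set Filter Topology Metric
open scoped ContDiff RealInnerProductSpace ENNReal

namespace Pool.Agent.Lib.MP_1a4aff_gt.I3

/-- (job Bas) the frame bundle -/
def BasStmt : Prop :=
  ∀ (n : ℕ) (D : Data n),
    (∀ c : Chart D.S, ∀ p ∈ D.S ∩ c.U,
      tangentConeAt ℝ D.S p = range (fderiv ℝ c.j (c.r p)) ∧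
        fderiv ℝ c.r p ∘L fderiv ℝ c.j (c.r p) = ContinuousLinearMap.id ℝ E3) ∧
    IsCompact D.F ∧ (∀ p ∈ D.S, ∃ u ∈ D.F, u.1 = p) ∧
    (∀ u ∈ D.F, ∀ u' ∈ D.F, u.1 = u'.1 → ∃ Q, Orth Q ∧ u' = rot Q u) ∧
    (∀ u ∈ D.F, ∀ X ∈ tangentConeAt ℝ D.S u.1, ∃ x, X = u.2 x) ∧
    ∀ u ∈ D.F, ∀ x, ∃ (γ : ℝ → Fr n) (Y : Fr n), γ 0 = u ∧ (∀ᶠ t in 𝓝 0, γ t ∈ D.F) ∧
      HasDerivAt γ Y 0 ∧ Y.1 = u.2 x

/-- (job Bas) functions on a closed set that extend smoothly near every point extend smoothly -/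
def ExtStmt : Prop :=
  ∀ (n : ℕ) (V : Type) [NormedAddCommGroup V] [NormedSpace ℝ V] (S : Set (Amb n)), IsClosed S →
    ∀ f : Amb n → V,
      (∀ p ∈ S, ∃ U, IsOpen U ∧ p ∈ U ∧ ∃ h, ContDiffOn ℝ ∞ h U ∧ EqOn h f (S ∩ U)) →
      ∃ h, ContDiff ℝ ∞ h ∧ EqOn h f S

/-- (job Con) the Levi-Civita connection exists -/
def ConStmt : Prop := ∀ (n : ℕ) (D : Data n), ∃ C : Con n, C.toData = D

/-- (job Flo) the geodesic flows exist -/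
def FloStmt : Prop := ∀ (n : ℕ) (C : Con n), ∃ X : Flo n, X.toCon = C

/-- (job Bia) identities for the curvature tensors -/
def BiaStmt : Prop :=
  ∀ (n : ℕ) (C : Con n), ∀ u ∈ C.F,
    (∀ xs y z, C.TV xs y z u = C.TV xs z y u) ∧
    (∀ xs y, ∑ e, C.TV (xs ++ [ee e]) y (ee e) u = 0) ∧
    (∀ Q, Orth Q → ∀ xs y z, C.TV xs y z (rot Q u) = C.TV (xs.map Q) (Q y) (Q z) u) ∧
    (∀ β xs y z, fderiv ℝ (C.TV xs y z) u (vert β u) =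
      ((vs β xs).map fun l => C.TV l y z u).sum + C.TV xs (cr β y) z u + C.TV xs y (cr β z) u) ∧
    (∀ f : Fr n → ℝ, ContDiff ℝ ∞ f → ∀ x y, C.HD x (C.HD y f) u - C.HD y (C.HD x f) u =
      fderiv ℝ f u (vert (C.N u (cr x y)) u)) ∧
    ∀ Q, Orth Q → ∀ m, C.nd m (rot Q u) = C.nd m u ∧ C.td m (rot Q u) = C.td m u

/-- (job Str) the structure equations -/
def StrStmt : Prop :=
  ∀ (n : ℕ) (C : Con n) (P : Type) [NormedAddCommGroup P] [NormedSpace ℝ P] (Γ : P → Fr n)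
    (O : Set P), IsOpen O → ContDiffOn ℝ ∞ Γ O → MapsTo Γ O C.F → ∀ y ∈ O,
      (∀ w, fderiv ℝ Γ y w = C.H (Γ y) (C.al Γ y w) + vert (C.be Γ y w) (Γ y)) ∧
      ∀ w₁ w₂,
        fderiv ℝ (fun z => C.al Γ z w₂) y w₁ - fderiv ℝ (fun z => C.al Γ z w₁) y w₂ =
          -cr (C.be Γ y w₁) (C.al Γ y w₂) + cr (C.be Γ y w₂) (C.al Γ y w₁) ∧
        fderiv ℝ (fun z => C.be Γ z w₂) y w₁ - fderiv ℝ (fun z => C.be Γ z w₁) y w₂ =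
          -C.N (Γ y) (cr (C.al Γ y w₁) (C.al Γ y w₂)) - cr (C.be Γ y w₁) (C.be Γ y w₂)

/-- (job Str) normal coordinates -/
def RadStmt : Prop :=
  ∀ (n : ℕ) (X : Flo n), ∀ u ∈ X.F,
    (∀ (x : E3) (γ : ℝ → Fr n), (∀ s ∈ Icc (0 : ℝ) 1, HasDerivAt γ (X.H (γ s) x) s) → γ 0 = u →
      ∀ s ∈ Icc (0 : ℝ) 1, γ s = X.Ex u (s • x)) ∧
    (∀ (v : E3) (s t : ℝ), X.Ex (X.Ex u (s • v)) (t • v) = X.Ex u ((s + t) • v)) ∧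
    (∀ Q, Orth Q → ∀ v, X.Ex (rot Q u) v = rot Q (X.Ex u (Q v)) ∧
      X.den (rot Q u) v = X.den u (Q v)) ∧
    X.th u 0 = ContinuousLinearMap.id ℝ E3 ∧ X.om u 0 = 0 ∧
    (∀ v, X.th u v v = v ∧ X.om u v v = 0 ∧ (∀ w, ⟪X.th u v w, v⟫ = ⟪w, v⟫) ∧
      fderiv ℝ (X.ex u) v = (X.Ex u v).2 ∘L X.th u v ∧
      gram (X.g (X.ex u v)) (fderiv ℝ (X.ex u) v) = X.den u v ^ 2 ∧
      ∀ w, X.th u v w = w + ∫ s in (0 : ℝ)..1, cr (X.om u (s • v) w) (s • v) ∧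
        X.om u v w = -∫ s in (0 : ℝ)..1, X.N (X.Ex u (s • v)) (cr (s • v) (X.th u (s • v) w))) ∧
    (X.Bd 0 1 → ∀ v, ‖v‖ ≤ 1 / 4 →
      ‖X.th u v - ContinuousLinearMap.id ℝ E3‖ ≤ ‖v‖ ^ 2 ∧ ‖X.om u v‖ ≤ 2 * ‖v‖ ∧
        1 / 2 ≤ X.den u v ∧ X.den u v ≤ 2)

/-- (job Loc) local inverses of immersions into the manifold -/
def LocStmt : Prop :=
  ∀ (n : ℕ) (D : Data n) (e : E3 → Amb n) (O : Set E3), IsOpen O → ContDiffOn ℝ ∞ e O →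
    MapsTo e O D.S → ∀ v₀ ∈ O, Function.Injective (fderiv ℝ e v₀) →
      ∃ (W : Set E3) (U : Set (Amb n)) (a : Amb n → E3), IsOpen W ∧ v₀ ∈ W ∧ W ⊆ O ∧ IsOpen U ∧
        ContDiffOn ℝ ∞ a U ∧ (∀ v ∈ W, e v ∈ U ∧ a (e v) = v) ∧
        ∀ p ∈ D.S ∩ U, a p ∈ W ∧ e (a p) = p

/-- (job Mu) the Riemannian volume exists -/
def MuStmt : Prop := ∀ (n : ℕ) (D : Data n), ∃ μ, IsArea D μ

/-- (job Haar) its invariant lift exists -/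
def NuAStmt : Prop :=
  ∀ (n : ℕ) (X : Flo n) (μ : Measure (Amb n)), IsArea X.toData μ → ∃ ν, IsLift X.toData μ ν

/-- (job NuB) horizontal fields are divergence free -/
def NuBStmt : Prop :=
  ∀ (n : ℕ) (X : Flo n) (μ : Measure (Amb n)) (ν : Measure (Fr n)), IsArea X.toData μ →
    IsLift X.toData μ ν → ∀ f : Fr n → ℝ, ContDiff ℝ ∞ f → ∀ x, ∫ u, X.HD x f u ∂ν = 0

/-- (job NuC) hence their flows preserve the measure -/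
def NuCStmt : Prop :=
  ∀ (n : ℕ) (X : Flo n) (ν : Measure (Fr n)), IsFiniteMeasure ν → ν X.Fᶜ = 0 →
    (∀ f : Fr n → ℝ, ContDiff ℝ ∞ f → ∀ x, ∫ u, X.HD x f u ∂ν = 0) →
    ∀ v, ν.map (fun u => X.Ex u v) = ν

/-- all the objects exist -/
def GeoStmt : Prop := ∀ (n : ℕ) (D : Data n), ∃ G : Geo n, G.toData = D

/-- (job NuC) injectivity radius from ambient bounds -/
def InjStmt : Prop :=
  (∀ (n : ℕ) (C : Con n), ∃ K, C.KB K) ∧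
  (∀ (n : ℕ) (C : Con n) (J : ℕ), ∃ B, C.Bd J B) ∧
  ∀ K : ℝ, ∃ ρ, 0 < ρ ∧ ρ ≤ 1 / 4 ∧ ∀ (n : ℕ) (X : Flo n), X.Bd 0 1 → X.KB K → X.Inj ρ

/-- (job Lift) change of normal coordinates without injectivity radius -/
def LiftStmt : Prop :=
  ∀ (n : ℕ) (X : Flo n), X.Bd 0 1 → ∀ u ∈ X.F, ∀ u' ∈ X.F, ∀ v₀ : E3, ‖v₀‖ ≤ 1 / 16 →
    u'.1 = X.ex u v₀ → ∃ ψ : E3 → E3, ψ 0 = v₀ ∧ ContinuousOn ψ (ball 0 (1 / 8)) ∧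
      (∀ y ∈ ball (0 : E3) (1 / 8), ‖ψ y‖ < 1 / 4 ∧ X.ex u (ψ y) = X.ex u' y) ∧
      (∀ y ∈ ball (0 : E3) (1 / 8), ∀ y' ∈ ball (0 : E3) (1 / 8),
        3 / 4 * ‖y - y'‖ ≤ ‖ψ y - ψ y'‖ ∧ ‖ψ y - ψ y'‖ ≤ 5 / 4 * ‖y - y'‖) ∧
      (∀ r, 0 ≤ r → r < 1 / 8 → ∀ z, ‖z - v₀‖ ≤ 3 / 4 * r → ∃ y, ‖y‖ ≤ r ∧ ψ y = z) ∧
      ∀ Ψ : E3 → ℝ≥0∞, Measurable Ψ →
        ∫⁻ z in ball v₀ (1 / 16), Ψ z ≤ 2 * ∫⁻ y in ball 0 (1 / 8), Ψ (ψ y)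

/-- (job MP) calculus in normal coordinates -/
def MPStmt : Prop :=
  ∀ (n : ℕ) (X : Flo n), ∀ u ∈ X.F, ∀ R : ℝ, (∀ v ∈ ball (0 : E3) R, 0 < X.den u v) →
    (∀ i j, ContDiffOn ℝ ∞ (X.gi u i j) (ball 0 R)) ∧
    (∀ k, ContDiffOn ℝ ∞ (X.bb u k) (ball 0 R)) ∧
    (∀ f, ContDiffOn ℝ ∞ f (ball 0 R) →
      ContDiffOn ℝ ∞ (X.Lap u f) (ball 0 R) ∧ ContDiffOn ℝ ∞ (X.Lc u f) (ball 0 R)) ∧
    (∀ f, ContDiff ℝ ∞ f → tsupport f ⊆ ball 0 R →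
      ContDiff ℝ ∞ (X.Lap u f) ∧ tsupport (X.Lap u f) ⊆ tsupport f) ∧
    (∀ N c, ContDiffOn ℝ ∞ (fun z : ℝ × E3 => X.par u N c z.1 z.2) (Ioi 0 ×ˢ ball 0 R)) ∧
    ∀ v ∈ ball (0 : E3) R,
      (∀ i j, X.gi u i j v = X.gi u j i v) ∧ (∀ i, ∑ j, X.gi u i j v * v j = v i) ∧
      (∀ ξ : Fin 3 → ℝ, 0 ≤ ∑ i, ∑ j, X.gi u i j v * ξ i * ξ j) ∧
      (∀ f h, ContDiffAt ℝ ∞ f v → ContDiffAt ℝ ∞ h v →
        X.Lap u (fun y => f y + h y) v = X.Lap u f v + X.Lap u h v ∧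
        X.Lap u (fun y => f y * h y) v = f v * X.Lap u h v + X.Lap u f v * h v +
          2 * ∑ i, ∑ j, X.gi u i j v * dd i f v * dd j h v) ∧
      (∀ (β : ℝ → ℝ) f, ContDiffAt ℝ ∞ β (f v) → ContDiffAt ℝ ∞ f v →
        X.Lap u (fun y => β (f y)) v = deriv β (f v) * X.Lap u f v +
          deriv (deriv β) (f v) * ∑ i, ∑ j, X.gi u i j v * dd i f v * dd j f v) ∧
      X.Lap u (fun y => ‖y‖ ^ 2) v = 6 + 2 * (fderiv ℝ (X.den u) v v / X.den u v) ∧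
      ∀ N c s, 0 < s → X.heat u (X.par u N c) s v = gs s v / Real.sqrt (X.den u v) *
        (-(s ^ N * X.Lc u (X.bb u N) v) +
          c * ((N + 1) * s ^ N - s ^ (N + 1) * X.Lc u (X.bb u 0) v))

/-- (job Push) push-forward of functions on the tangent ball -/
def PushStmt : Prop :=
  ∀ (n : ℕ) (G : Geo n), G.Bd 0 1 → ∀ u ∈ G.F, ∀ w : E3 → ℝ, ContDiff ℝ ∞ w →
    tsupport w ⊆ ball 0 (1 / 4) → ∃ W : Amb n → ℝ, ContDiff ℝ ∞ W ∧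
      (∀ p ∈ G.S, {v | v ∈ tsupport w ∧ G.ex u v = p}.Finite ∧
        W p = ∑ᶠ v ∈ {v | G.ex u v = p}, w v) ∧
      (∀ φ : Amb n → ℝ, Integrable φ G.mu →
        Integrable (fun v => w v * φ (G.ex u v) * G.den u v) ∧ G.ms W φ = G.pr u w φ) ∧
      ∀ h, ContDiff ℝ ∞ h → G.en W h = -G.pr u (G.Lap u w) h

/-- (job UB1) uniform bounds for the derivatives of the coframe and of the connection -/
def UB1Stmt : Prop :=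
  ∀ k : ℕ, ∃ J : ℕ, ∀ B : ℝ, ∃ C : ℝ, ∀ (n : ℕ) (X : Flo n), X.Bd 0 1 → X.Bd J B →
    ∀ u ∈ X.F, ∀ v ∈ ball (0 : E3) (1 / 4), ∀ j ≤ k,
      ‖iteratedFDeriv ℝ j (X.th u) v‖ ≤ C ∧ ‖iteratedFDeriv ℝ j (X.om u) v‖ ≤ C

/-- (job UB2) uniform bounds for the parametrix -/
def UB2Stmt : Prop :=
  ∀ k : ℕ, ∃ J : ℕ, ∀ B : ℝ, ∃ C : ℝ, ∀ (n : ℕ) (X : Flo n), X.Bd 0 1 → X.Bd J B →
    ∀ u ∈ X.F, ∀ v ∈ ball (0 : E3) (1 / 4), ∀ j ≤ k,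
      ‖iteratedFDeriv ℝ j (X.den u) v‖ ≤ C ∧ (∀ a b, ‖iteratedFDeriv ℝ j (X.gi u a b) v‖ ≤ C) ∧
      ∀ l ≤ k, ‖iteratedFDeriv ℝ j (X.bb u l) v‖ ≤ C ∧
        ‖iteratedFDeriv ℝ j (X.Lc u (X.bb u l)) v‖ ≤ C

/-- (job Jet) the local heat invariants are universal polynomials -/
def JetStmt : Prop := ∀ k : ℕ, (fun i : Idx => i.G.bb i.u k 0) ∈ PP 0 (2 * k)

/-- (job GlA) cubic terms and commutation of derivatives -/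
def GlAStmt : Prop :=
  (∀ (m : ℕ), ∀ f ∈ PP 3 (2 * m + 4), ∃ C : ℝ, ∀ (n : ℕ) (G : Geo n) (δ : ℝ) (J : ℕ), 0 ≤ δ →
    δ ≤ 1 → 2 * m ≤ 3 * J + 2 → G.Bd J δ → ∀ h : Fr n → ℝ, (∀ u hu, h u = f ⟨n, G, u, hu⟩) →
      |∫ u, h u ∂G.nu| ≤ C * δ * ∑ j ∈ Finset.range m, G.nn j) ∧
  (∀ K₁ K₂ : List (Fin 3), K₁.Perm K₂ → ∀ a b,
    (fun i : Idx => i.G.T K₁ a b i.u - i.G.T K₂ a b i.u) ∈ PP 2 (K₁.length + 2)) ∧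
  ∀ r w r' w', ∀ f ∈ PP r w, ∀ f' ∈ PP r' w', f * f' ∈ PP (r + r') (w + w')

/-- (job GlC) the leading terms of integrals of universal polynomials -/
def GlCStmt : Prop :=
  ∀ (m : ℕ), ∀ f ∈ PP 0 (2 * m + 4), ∃ a b C : ℝ, ∀ (n : ℕ) (G : Geo n) (δ : ℝ) (J : ℕ), 0 ≤ δ →
    δ ≤ 1 → 2 * m ≤ 3 * J + 2 → G.Bd J δ → ∀ h : Fr n → ℝ, (∀ u hu, h u = f ⟨n, G, u, hu⟩) →
      |∫ u, h u ∂G.nu - (a * G.nn m + b * G.tt m)| ≤ C * δ * ∑ j ∈ Finset.range m, G.nn j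

/-- (job TrF) the heat invariants control the derivatives of the curvature -/
def GilStmt : Prop :=
  ∀ m : ℕ, ∃ a > 0, ∃ C : ℝ, ∀ (n : ℕ) (G : Geo n) (J : ℕ), 2 * m ≤ 3 * J + 2 → G.Bd J 1 →
    a * G.nn m ≤ |G.hk (m + 2)| + C * ∑ j ∈ Finset.range m, G.nn j

/-- (job Count) Weyl type counting bound -/
def CountStmt : Prop :=
  ∀ (n : ℕ) (G : Geo n), G.Bd 0 1 → (∀ k, (G.MM k).Nonempty) ∧
    ∃ C : ℝ, ∀ k, ∀ L ∈ G.MM k, 0 ≤ L ∧ (k : ℝ) + 1 ≤ C * (1 + L) ^ 2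

/-- (job SpB) weak eigenfunctions are continuous -/
def SpBStmt : Prop :=
  ∀ (n : ℕ) (G : Geo n), G.Bd 0 1 → ∃ C : ℝ → ℝ, ∀ (φ : Amb n → ℝ) (lam : ℝ), 0 ≤ lam →
    MemLp φ 2 G.mu → G.ms φ φ ≤ 1 → G.Weak φ lam → ∃ ph : Amb n → ℝ, Continuous ph ∧
      ph =ᵐ[G.mu] φ ∧ ∀ t > 0, ∀ p ∈ G.S, |ph p| ≤ C t * Real.exp (lam * t)

/-- (job SpD) the spectral theorem -/
def SpecStmt : Prop := ∀ (n : ℕ) (G : Geo n), G.Bd 0 1 → Nonempty (Spec G)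

/-- a family of functions on the tangent ball that is an approximate identity -/
structure Adm {n : ℕ} (X : Flo n) (u : Fr n) (w : ℝ → E3 → ℝ) (T r : ℝ) : Prop where
  sm : ContDiffOn ℝ ∞ (fun z : ℝ × E3 => w z.1 z.2) (Ioo 0 T ×ˢ univ)
  supp : ∀ s ∈ Ioo 0 T, ∀ v, r < ‖v‖ → w s v = 0
  init : Tendsto (fun s => ∫ v, |w s v * X.den u v - gs s v|) (𝓝[>] 0) (𝓝 0)

/-- (job Cmp) comparison with sub- and supersolutions -/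
def CmpStmt : Prop :=
  ∀ (n : ℕ) (G : Geo n) (P : Spec G), G.Bd 0 1 → ∀ u ∈ G.F, ∀ (w : ℝ → E3 → ℝ) (T r : ℝ),
    r < 1 / 4 → Adm G.toFlo u w T r → ∀ t ∈ Ioo 0 T,
      ((∀ s ∈ Ioo 0 T, ∀ v, 0 ≤ w s v ∧ G.heat u w s v ≤ 0) →
        ∀ A : Finset E3, (∀ v ∈ A, G.ex u v = u.1) → ∑ v ∈ A, w t v ≤ P.hker t u.1 u.1) ∧
      (∀ ρ, r < ρ → G.Inj ρ → ∀ (c : ℝ) (M : ℕ), 0 ≤ c →
        (∀ s ∈ Ioo 0 T, ∀ v, 0 ≤ G.heat u w s v + c * (M + 1) * s ^ M) →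
        P.hker t u.1 u.1 ≤ w t 0 + c * t ^ (M + 1))

/-- (job LemA) lower bound for the heat kernel without injectivity radius -/
def LemAStmt : Prop :=
  ∃ c > 0, ∀ N : ℕ, ∃ J : ℕ, ∀ B : ℝ, ∃ C : ℝ, ∃ t₀ > 0, ∀ (n : ℕ) (G : Geo n) (P : Spec G),
    G.Bd 0 1 → G.Bd J B → ∀ u ∈ G.F, ∀ t, 0 < t → t ≤ t₀ →
      ∑ k ∈ Finset.range (N + 1), G.bb u k 0 * t ^ k - C * t ^ (N + 1) ≤
        (4 * Real.pi * t) ^ (3 / 2 : ℝ) * P.hker t u.1 u.1 ∧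
      ∀ z : E3, z ≠ 0 → ‖z‖ ^ 2 ≤ 36 * t → G.ex u z = u.1 →
        ∑ k ∈ Finset.range (N + 1), G.bb u k 0 * t ^ k - C * t ^ (N + 1) + c ≤
          (4 * Real.pi * t) ^ (3 / 2 : ℝ) * P.hker t u.1 u.1

/-- (job LemB) upper bound for the heat kernel -/
def LemBStmt : Prop :=
  ∀ N : ℕ, ∃ J : ℕ, ∀ B : ℝ, ∀ ρ > 0, ∃ C : ℝ, ∃ t₀ > 0, ∀ (n : ℕ) (G : Geo n) (P : Spec G),
    G.Bd 0 1 → G.Bd J B → G.Inj ρ → ∀ u ∈ G.F, ∀ t, 0 < t → t ≤ t₀ →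
      (4 * Real.pi * t) ^ (3 / 2 : ℝ) * P.hker t u.1 u.1 ≤
        ∑ k ∈ Finset.range (N + 1), G.bb u k 0 * t ^ k + C * t ^ (N + 1)

/-- (job Trc) bounds for the heat trace -/
def TrcStmt : Prop :=
  ∃ c > 0, ∀ N : ℕ, ∃ J : ℕ, ∀ B : ℝ,
    (∃ C : ℝ, ∃ t₀ > 0, ∀ (n : ℕ) (G : Geo n), G.Bd 0 1 → G.Bd J B → ∀ t, 0 < t → t ≤ t₀ →
      (∀ u ∈ G.F, ∀ r, 0 < r → r ≤ 1 / 8 →
        ∑ k ∈ Finset.range (N + 1), G.hk k * t ^ k - C * t ^ (N + 1) * G.V -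
            C * G.mu.real (G.ex u '' closedBall 0 r) +
            (4 * Real.pi * t) ^ (3 / 2 : ℝ) * (1 - C * t / r ^ 2) ≤
          (4 * Real.pi * t) ^ (3 / 2 : ℝ) * ZZ G.eig t) ∧
      ∀ A : Set (Amb n), MeasurableSet A →
        (∀ u ∈ G.F, u.1 ∈ A → ∃ z : E3, z ≠ 0 ∧ ‖z‖ ^ 2 ≤ 36 * t ∧ G.ex u z = u.1) →
        ∑ k ∈ Finset.range (N + 1), G.hk k * t ^ k - C * t ^ (N + 1) * G.V + c * G.mu.real A ≤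
          (4 * Real.pi * t) ^ (3 / 2 : ℝ) * ZZ G.eig t) ∧
    ∀ ρ > 0, ∃ C : ℝ, ∃ t₀ > 0, ∀ (n : ℕ) (G : Geo n), G.Bd 0 1 → G.Bd J B → G.Inj ρ →
      ∀ t, 0 < t → t ≤ t₀ →
        |(4 * Real.pi * t) ^ (3 / 2 : ℝ) * ZZ G.eig t -
          ∑ k ∈ Finset.range (N + 1), G.hk k * t ^ k| ≤ C * t ^ (N + 1) * G.V

/-- (job Scale) scaling of the metric -/
def ScaleStmt : Prop :=
  ∀ (n : ℕ) (G : Geo n) (s : ℝ), 0 < s → ∃ (G' : Geo n) (φ : Fr n → Fr n), G'.S = G.S ∧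
    (∀ p, G'.g p = s ^ 2 • G.g p) ∧ (∀ k, G'.eig k = G.eig k / s ^ 2) ∧ G'.F = φ '' G.F ∧
    ∀ u ∈ G.F, ∀ I a b, G'.T I a b (φ u) = G.T I a b u / s ^ (I.length + 2)

/-- (job Sob) Sobolev inequality without injectivity radius -/
def SobStmt : Prop :=
  ∃ C : ℝ, ∀ (n : ℕ) (G : Geo n), G.Bd 0 1 → ∀ u ∈ G.F, ∀ I a b,
    G.T I a b u ^ 2 * G.mu.real (G.ex u '' closedBall 0 (1 / 32)) ≤
      C * ∑ k ∈ Finset.range 5, G.nn (I.length + k)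

/-- (job Asy) the heat invariants are spectral invariants -/
def AsyStmt : Prop :=
  ∀ lam : ℕ → ℝ, ∃ α : ℕ → ℝ,
    (∀ (n : ℕ) (G : Geo n) (s : ℝ), 0 < s → G.Bd 0 1 → (∀ k, G.eig k = lam k / s ^ 2) →
      G.V = α 0 * s ^ 3 ∧ ∀ k, G.hk k * s ^ (2 * k) = α k * s ^ 3) ∧
    ∀ (n : ℕ) (G : Geo n) (s : ℝ), 0 < s → G.Bd 0 1 → (∀ k, G.eig k = lam k / s ^ 2) →
      ∀ N : ℕ, ∃ C : ℝ, ∃ t₀ > 0, ∀ t, 0 < t → t ≤ t₀ →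
        |(4 * Real.pi * t) ^ (3 / 2 : ℝ) * ZZ lam t - ∑ k ∈ Finset.range (N + 1), α k * t ^ k| ≤
          C * t ^ (N + 1)

/-- (job MainA) the spectrum bounds all derivatives of the curvature -/
def MainAStmt : Prop :=
  ∀ (lam : ℕ → ℝ) (J : ℕ), ∃ B : ℝ, ∀ (n : ℕ) (G : Geo n), (∀ k, G.eig k = lam k) → G.Bd J B

/-- (job MainB) the spectrum bounds the injectivity radius and the covering numbers -/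
def MainBStmt : Prop :=
  ∀ lam : ℕ → ℝ, ∃ ρ, 0 < ρ ∧ ρ ≤ 1 / 4 ∧ ∀ r > 0, ∃ m : ℕ, ∀ (n : ℕ) (G : Geo n),
    (∀ k, G.eig k = lam k) → G.Bd 0 1 → G.Inj ρ ∧
      ∃ u : Fin m → Fr n, (∀ β, u β ∈ G.F) ∧ G.S ⊆ ⋃ β, G.ex (u β) '' ball 0 r

/-- (job TrA) the test tori -/
def TrAStmt : Prop :=
  ∀ ε p q : ℝ, (∃ D : Data 6, IsTor ε p q D) ∧
    (∀ D : Data 6, IsTor ε p q D → ∀ x, sec ε p q x ∈ D.F) ∧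
    ∀ G : Geo 6, IsTor ε p q G.toData →
      (∀ f : Amb 6 → ℝ, Continuous f → ∫ P, f P ∂G.mu =
        cube fun x => f (tor x) * Real.exp (ε * (p + q) * Real.cos (x 0))) ∧
      (∀ f : Fr 6 → ℝ, Continuous f → (∀ u ∈ G.F, ∀ Q, Orth Q → f (rot Q u) = f u) →
        ∫ u, f u ∂G.nu =
          cube fun x => f (sec ε p q x) * Real.exp (ε * (p + q) * Real.cos (x 0))) ∧
      ∀ f h : Amb 6 → ℝ, ContDiff ℝ ∞ f → ContDiff ℝ ∞ h → G.en f h = cube fun x =>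
        (dd 0 (f ∘ tor) x * dd 0 (h ∘ tor) x +
          Real.exp (-(2 * ε * p * Real.cos (x 0))) * (dd 1 (f ∘ tor) x * dd 1 (h ∘ tor) x) +
          Real.exp (-(2 * ε * q * Real.cos (x 0))) * (dd 2 (f ∘ tor) x * dd 2 (h ∘ tor) x)) *
          Real.exp (ε * (p + q) * Real.cos (x 0))

/-- (job TrD) curvature of the test tori -/
def TrDStmt : Prop :=
  ∀ (p q : ℝ) (J : ℕ), ∃ K : ℝ, ∀ ε, 0 < ε → ε ≤ 1 → ∀ C : Con 6, IsTor ε p q C.toData →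
    C.KB K ∧ C.Bd J (K * ε) ∧ ∀ m ≤ J, ∀ x : E3,
      |C.nd m (sec ε p q x) - ε ^ 2 * (p ^ 2 + q ^ 2) * iteratedDeriv m Real.cos (x 0) ^ 2| ≤
        K * ε ^ 3 ∧
      |C.td m (sec ε p q x) - ε ^ 2 * (p + q) ^ 2 * iteratedDeriv m Real.cos (x 0) ^ 2| ≤
        K * ε ^ 3

/-- (job TrE) heat trace of the test tori -/
def TrEStmt : Prop :=
  ∀ p q : ℝ, ∃ C : ℝ, ∃ ε₀ > 0, ∀ ε, 0 < ε → ε ≤ ε₀ → ∀ G : Geo 6, IsTor ε p q G.toData →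
    G.Bd 0 1 → ∀ t, 0 < t → t ≤ 1 →
      |ZZ G.eig t - (∑' z, zA0 t z + ε ^ 2 * ∑' z, zA2 p q t z)| ≤ C * ε ^ 3 / t ^ 5

/-- (job P7a) uniform bounds for the transition maps -/
def P7aStmt : Prop :=
  ∀ (ρ : ℝ) (χ : E3 → ℝ), 0 < ρ → ρ ≤ 1 / 4 → ContDiff ℝ ∞ χ → tsupport χ ⊆ ball 0 ρ →
    (∀ (n : ℕ) (X : Flo n), X.Bd 0 1 → X.Inj ρ → ∀ u ∈ X.F,
      (∀ v ∈ ball (0 : E3) ρ, X.cut χ u (X.ex u v) = (χ v • v, χ v)) ∧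
      (∀ p, p ∉ X.ex u '' ball 0 ρ → X.cut χ u p = 0) ∧
      ∀ u' ∈ X.F, ContDiffOn ℝ ∞ (fun y => X.cut χ u (X.ex u' y)) (ball 0 (1 / 4))) ∧
    ∀ k : ℕ, ∃ J : ℕ, ∀ B : ℝ, ∃ C : ℝ, ∀ (n : ℕ) (X : Flo n), X.Bd 0 1 → X.Bd J B → X.Inj ρ →
      ∀ u ∈ X.F, ∀ u' ∈ X.F, ∀ y ∈ ball (0 : E3) (1 / 4),
        ‖iteratedFDeriv ℝ k (fun y => X.cut χ u (X.ex u' y)) y‖ ≤ C

/-- the pull-back of an ambient field of bilinear forms by a map -/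
noncomputable def pb {n : ℕ} {E : Type} [NormedAddCommGroup E] [NormedSpace ℝ E]
    (b : Amb n → Amb n →L[ℝ] Amb n →L[ℝ] ℝ) (j : E → Amb n) (y : E) : E →L[ℝ] E →L[ℝ] ℝ :=
  (b (j y)).bilinearComp (fderiv ℝ j y) (fderiv ℝ j y)

/-- (job P7c) Cheeger-Gromov: diffeomorphisms after which the metrics are uniformly bounded -/
def P7Stmt : Prop :=
  ∀ (ι : Type) (𝒰 : Ultrafilter ι) (n : ℕ) (S : Set (Amb n)) (G : ι → Geo n) (ρ : ℝ) (m : ℕ),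
    0 < ρ → ρ ≤ 1 / 4 → (∀ i, (G i).S = S) → (∀ i, (G i).Bd 0 1) →
    (∀ J, ∃ B, ∀ i, (G i).Bd J B) → (∀ i, (G i).Inj ρ) →
    (∀ i, ∃ u : Fin m → Fr n, (∀ β, u β ∈ (G i).F) ∧ S ⊆ ⋃ β, (G i).ex (u β) '' ball 0 (ρ / 100)) →
    ∃ (A : Set ι) (φ φ' : ι → Amb n → Amb n), A ∈ 𝒰 ∧
      (∀ i ∈ A, ContDiff ℝ ∞ (φ i) ∧ ContDiff ℝ ∞ (φ' i) ∧ MapsTo (φ i) S S ∧ MapsTo (φ' i) S S ∧
        (∀ p ∈ S, φ' i (φ i p) = p) ∧ ∀ p ∈ S, φ i (φ' i p) = p) ∧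
      ∀ (E : Type) [NormedAddCommGroup E] [NormedSpace ℝ E] [FiniteDimensional ℝ E]
        (j : E → Amb n) (O : Set E), IsOpen O → ContDiffOn ℝ ∞ j O → MapsTo j O S → ∀ y₀ ∈ O,
        ∃ W ∈ 𝓝 y₀, ∃ c > 0, ∃ C : ℕ → ℝ, ∀ i ∈ A, ∀ y ∈ W,
          (∀ k, ‖iteratedFDeriv ℝ k (pb (G i).g (φ i ∘ j)) y‖ ≤ C k) ∧
          ∀ v, c * ‖fderiv ℝ j y v‖ ^ 2 ≤ pb (G i).g (φ i ∘ j) y v v

end Pool.Agent.Lib.MP_1a4aff_gt.I3
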