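import Pool.Agent.Lib.MP_1a4aff_gt.I3.Stmt
import Pool.Agent.Lib.MP_1a4aff_gt.I3.Stm

-- part Pool.Agent.Lib.MP_1a4aff_gt.I3.MStm
section

/-! Statements of the parts that involve the abstract manifold. -/

set_option autoImplicit false

open MeasureTheory Set Filter Topology
open scoped ContDiff Manifold

namespace Pool.Agent.Lib.MP_1a4aff_gt.I3

section
variable (E : Type) [NormedAddCommGroup E] [InnerProductSpace ℝ E]
  {M : Type} [TopologicalSpace M] [ChartedSpace E M] {n : ℕ}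

/-- an injective smooth map through which every smooth function factors smoothly -/
structure Emb (ι : M → Amb n) : Prop where
  sm : ContMDiff 𝓘(ℝ, E) 𝓘(ℝ, Amb n) ∞ ι
  inj : Function.Injective ι
  ext : ∀ f : M → ℝ, ContMDiff 𝓘(ℝ, E) 𝓘(ℝ, ℝ) ∞ f →
    ∃ h : Amb n → ℝ, ContDiff ℝ ∞ h ∧ ∀ x, h (ι x) = f x

/-- the differential of a map to the ambient space -/
noncomputable def demb (ι : M → Amb n) (x : M) : E →L[ℝ] Amb n :=
  mfderiv 𝓘(ℝ, E) 𝓘(ℝ, Amb n) ι x

variable {E}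

/-- `g` is the pull-back of the ambient field `b` -/
def Pull (g : Met E M) (ι : M → Amb n) (b : Amb n → Amb n →L[ℝ] Amb n →L[ℝ] ℝ) : Prop :=
  ∀ x v w, g.inner x v w = b (ι x) (demb E ι x v) (demb E ι x w)

end

/-- (job BrA) Whitney embedding -/
def BrAStmt : Prop :=
  ∀ (E : Type) [NormedAddCommGroup E] [InnerProductSpace ℝ E] [FiniteDimensional ℝ E]
    (M : Type) [TopologicalSpace M] [ChartedSpace E M] [IsManifold 𝓘(ℝ, E) ∞ M] [CompactSpace M]
    [T2Space M], ∃ (n : ℕ) (ι : M → Amb n), Emb E ι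

/-- (job BrA) local left inverses of an embedding -/
def EmbLocStmt : Prop :=
  ∀ (E : Type) [NormedAddCommGroup E] [InnerProductSpace ℝ E] [FiniteDimensional ℝ E]
    (M : Type) [TopologicalSpace M] [ChartedSpace E M] [IsManifold 𝓘(ℝ, E) ∞ M] [CompactSpace M]
    [T2Space M] (n : ℕ) (ι : M → Amb n), Emb E ι → ∀ x₀ : M,
      ContDiffOn ℝ ∞ (ι ∘ (chartAt E x₀).symm) (chartAt E x₀).target ∧
      (∀ y ∈ (chartAt E x₀).target, fderiv ℝ (ι ∘ (chartAt E x₀).symm) y =
        demb E ι ((chartAt E x₀).symm y) ∘L dif E (chartAt E x₀).symm y) ∧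
      ∀ x ∈ (chartAt E x₀).source, ∃ (U : Set (Amb n)) (r : Amb n → E), IsOpen U ∧ ι x ∈ U ∧
        ContDiff ℝ ∞ r ∧
        ∀ x', ι x' ∈ U → x' ∈ (chartAt E x₀).source ∧ r (ι x') = chartAt E x₀ x'

/-- (job BrB) every metric comes from embedded data -/
def BrBStmt : Prop :=
  ∀ (E : Type) [NormedAddCommGroup E] [InnerProductSpace ℝ E] [FiniteDimensional ℝ E]
    (M : Type) [TopologicalSpace M] [ChartedSpace E M] [IsManifold 𝓘(ℝ, E) ∞ M] [CompactSpace M]
    [T2Space M] [Nonempty M], Module.finrank ℝ E = 3 → ∀ (n : ℕ) (ι : M → Amb n), Emb E ι →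
    ∀ g : Met E M, ∃ D : Data n, D.S = range ι ∧ Pull g ι D.g

/-- (job MBas) the volume and the gradient on the manifold -/
def MBasStmt : Prop :=
  ∀ (E : Type) [NormedAddCommGroup E] [InnerProductSpace ℝ E] [FiniteDimensional ℝ E]
    [MeasurableSpace E] [BorelSpace E]
    (M : Type) [TopologicalSpace M] [ChartedSpace E M] [IsManifold 𝓘(ℝ, E) ∞ M] [CompactSpace M]
    [T2Space M] [MeasurableSpace M] [BorelSpace M] (g : Met E M),
    IsFiniteMeasure (vol g) ∧ (vol g).IsOpenPosMeasure ∧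
      (∀ x₀, (vol g).restrict (chartAt E x₀).source = chartVol g x₀) ∧
      ∀ f : M → ℝ, ContMDiff 𝓘(ℝ, E) 𝓘(ℝ, ℝ) ∞ f → Continuous (gradSq g f)

/-- (job BrC) the two definitions of the eigenvalues agree -/
def BrCStmt : Prop :=
  ∀ (E : Type) [NormedAddCommGroup E] [InnerProductSpace ℝ E] [FiniteDimensional ℝ E]
    [MeasurableSpace E] [BorelSpace E]
    (M : Type) [TopologicalSpace M] [ChartedSpace E M] [IsManifold 𝓘(ℝ, E) ∞ M] [CompactSpace M]
    [T2Space M] [MeasurableSpace M] [BorelSpace M], Module.finrank ℝ E = 3 →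
    ∀ (n : ℕ) (ι : M → Amb n), Emb E ι → ∀ (g : Met E M) (G : Geo n), G.S = range ι →
      Pull g ι G.g → ∀ k, eigen g k = G.eig k

/-- (job BrD) ambient maps that preserve the image give diffeomorphisms -/
def BrDStmt : Prop :=
  ∀ (E : Type) [NormedAddCommGroup E] [InnerProductSpace ℝ E] [FiniteDimensional ℝ E]
    (M : Type) [TopologicalSpace M] [ChartedSpace E M] [IsManifold 𝓘(ℝ, E) ∞ M] [CompactSpace M]
    [T2Space M] (n : ℕ) (ι : M → Amb n), Emb E ι → ∀ φ φ' : Amb n → Amb n, ContDiff ℝ ∞ φ →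
    ContDiff ℝ ∞ φ' → MapsTo φ (range ι) (range ι) → MapsTo φ' (range ι) (range ι) →
    (∀ p ∈ range ι, φ' (φ p) = p) → (∀ p ∈ range ι, φ (φ' p) = p) →
    ∀ (g : Met E M) (b : Amb n → Amb n →L[ℝ] Amb n →L[ℝ] ℝ), ContDiff ℝ ∞ b → Pull g ι b →
      ∃ h : Met E M, Isometric g h ∧ Emb E (φ ∘ ι) ∧ range (φ ∘ ι) = range ι ∧
        Pull h (φ ∘ ι) b ∧ ∀ x₀, ∀ y ∈ (chartAt E x₀).target,
          coef E h.inner x₀ y = pb b (φ ∘ (ι ∘ (chartAt E x₀).symm)) y

/-- (job Closed) the eigenvalues depend continuously on the metric -/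
def ClosedStmt : Prop :=
  ∀ (E : Type) [NormedAddCommGroup E] [InnerProductSpace ℝ E] [FiniteDimensional ℝ E]
    [MeasurableSpace E] [BorelSpace E]
    (M : Type) [TopologicalSpace M] [ChartedSpace E M] [IsManifold 𝓘(ℝ, E) ∞ M] [CompactSpace M]
    [T2Space M] [MeasurableSpace M] [BorelSpace M] (k : ℕ),
    Continuous fun g : Met E M => eigen g k

/-- (job Lim) Arzela-Ascoli for metrics -/
def LimStmt : Prop :=
  ∀ (E : Type) [NormedAddCommGroup E] [InnerProductSpace ℝ E] [FiniteDimensional ℝ E]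
    (M : Type) [TopologicalSpace M] [ChartedSpace E M] [IsManifold 𝓘(ℝ, E) ∞ M]
    (ι : Type) (𝒰 : Ultrafilter ι) (h : ι → Met E M),
    (∀ x₀, ∀ y₀ ∈ (chartAt E x₀).target, ∃ W ∈ 𝓝 y₀, ∃ c > 0, ∃ C : ℕ → ℝ,
      ∀ᶠ i in (𝒰 : Filter ι), ∀ y ∈ W,
        (∀ k, ‖iteratedFDeriv ℝ k (coef E (h i).inner x₀) y‖ ≤ C k) ∧
        ∀ v, c * ‖v‖ ^ 2 ≤ coef E (h i).inner x₀ y v v) →
    ∃ g : Met E M, Tendsto h 𝒰 (𝓝 g)

end Pool.Agent.Lib.MP_1a4aff_gt.I3
end

-- part Pool.Agent.Lib.MP_1a4aff_gt.I3.BrA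
section

/-! Whitney embedding with smooth extension of functions. -/

set_option autoImplicit false

open Set Filter Topology
open scoped ContDiff Manifold

namespace Pool.Agent.Lib.MP_1a4aff_gt.I3

namespace BrA

variable {M : Type} [TopologicalSpace M] [CompactSpace M] {n : ℕ} {ι : M → Amb n}

lemma nbhd (hc : Continuous ι) (hi : Function.Injective ι) {x : M} {N : Set M} (hN : N ∈ 𝓝 x) :
    ∃ U, IsOpen U ∧ ι x ∈ U ∧ ∀ x', ι x' ∈ U → x' ∈ N := by
  rw [(hc.isClosedEmbedding hi).isInducing.nhds_eq_comap] at hN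
  obtain ⟨U, hU, h⟩ := hN
  obtain ⟨V, h1, h2, h3⟩ := mem_nhds_iff.1 hU
  exact ⟨V, h2, h3, fun x' hx => h (h1 hx)⟩

/-- local smooth extensions glue -/
lemma glue (hc : Continuous ι) (hi : Function.Injective ι) {f : M → ℝ}
    (h : ∀ x, ∃ N ∈ 𝓝 x, ∃ O ∈ 𝓝 (ι x), ∃ k : Amb n → ℝ, ContDiffOn ℝ ∞ k O ∧
      ∀ x' ∈ N, k (ι x') = f x') : ∃ k : Amb n → ℝ, ContDiff ℝ ∞ k ∧ ∀ x, k (ι x) = f x := by
  obtain ⟨k, hk⟩ := exists_contMDiffMap_forall_mem_convex_of_local (n := ⊤) 𝓘(ℝ, Amb n)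
    (t := fun p : Amb n => {y : ℝ | ∀ x, ι x = p → y = f x})
    (fun p y hy z hz a b _ _ hab x hx => by
      rw [hy x hx, hz x hx, ← add_smul, hab, one_smul]) (fun p => by
      by_cases hp : p ∈ range ι
      · obtain ⟨x, rfl⟩ := hp
        obtain ⟨N, hN, O, hO, k, h1, h2⟩ := h x
        obtain ⟨U, u1, u2, u3⟩ := nbhd hc hi hN
        exact ⟨U ∩ O, inter_mem (u1.mem_nhds u2) hO, k, (h1.mono inter_subset_right).contMDiffOn,
          fun y hy x' e => by rw [← e, h2 x' (u3 x' (e ▸ hy.1))]⟩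
      · exact ⟨(range ι)ᶜ, (isCompact_range hc).isClosed.isOpen_compl.mem_nhds hp, 0,
          contMDiffOn_const, fun y hy x' e => absurd ⟨x', e⟩ hy⟩)
  exact ⟨k, k.contMDiff.contDiff, fun x => hk _ x rfl⟩

end BrA

theorem brA_holds : BrAStmt := by
  intro E _ _ _ M _ _ _ _ _
  obtain ⟨ι, f, -⟩ := SmoothBumpCovering.exists_isSubordinate 𝓘(ℝ, E) isClosed_univ
    fun (x : M) _ => univ_mem
  have := f.fintype
  let L : (ι → E × ℝ) ≃L[ℝ] Amb (Module.finrank ℝ (ι → E × ℝ)) :=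
    ContinuousLinearEquiv.ofFinrankEq finrank_euclideanSpace_fin.symm
  let e : M → ι → E × ℝ := fun x i => (f i x • chartAt E (f.c i) x, f i x)
  have he : ContMDiff 𝓘(ℝ, E) 𝓘(ℝ, ι → E × ℝ) ∞ e := contMDiff_pi_space.2 fun i =>
    ((f i).contMDiff_smul contMDiffOn_chart).prodMk_space (f i).contMDiff
  have hs : ContMDiff 𝓘(ℝ, E) 𝓘(ℝ, Amb _) ∞ (L ∘ e) := L.contDiff.contMDiff.comp he
  have hi : Function.Injective (L ∘ e) := L.injective.comp fun x y h => by
    obtain ⟨h₁, h₂⟩ := Prod.mk_inj.1 (congrFun h (f.ind x trivial))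
    rw [f.apply_ind x trivial] at h₂
    rw [← h₂, f.apply_ind x trivial, one_smul, one_smul] at h₁
    exact (chartAt E (f.c _)).injOn (f.mem_chartAt_ind_source x trivial)
      (f.mem_chartAt_source_of_eq_one h₂.symm) h₁
  refine ⟨_, L ∘ e, hs, hi, fun φ hφ => BrA.glue hs.continuous hi fun x => ?_⟩
  set i := f.ind x trivial
  let P : Amb (Module.finrank ℝ (ι → E × ℝ)) → E := fun z => (L.symm z i).1
  have hP : ContDiff ℝ ∞ P := ((contDiff_apply ℝ _ i).comp L.symm.contDiff).fst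
  have key : ∀ x', f i x' = 1 → P ((L ∘ e) x') = chartAt E (f.c i) x' := fun x' h => by
    simp [P, e, h]
  refine ⟨_, f.eventuallyEq_one x trivial, P ⁻¹' (chartAt E (f.c i)).target,
    ((chartAt E (f.c i)).open_target.preimage hP.continuous).mem_nhds ?_,
    (φ ∘ (chartAt E (f.c i)).symm) ∘ P,
    (hφ.comp_contMDiffOn contMDiffOn_chart_symm).contDiffOn.comp hP.contDiffOn fun _ h => h,
    fun x' h => ?_⟩
  · rw [mem_preimage, key x (f.apply_ind x trivial)]
    exact (chartAt E (f.c i)).map_source (f.mem_chartAt_ind_source x trivial)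
  · rw [Function.comp_apply, key x' h, Function.comp_apply,
      (chartAt E (f.c i)).left_inv (f.mem_chartAt_source_of_eq_one h)]

theorem embLoc_holds : EmbLocStmt := by
  intro E _ _ _ M _ _ _ _ _ n ι hι x₀
  refine ⟨(hι.sm.comp_contMDiffOn contMDiffOn_chart_symm).contDiffOn, fun y hy => ?_,
    fun x hx => ?_⟩
  · rw [← mfderiv_eq_fderiv]
    exact mfderiv_comp y (hι.sm.mdifferentiableAt (by simp))
      ((mdifferentiable_chart x₀).mdifferentiableAt_symm hy)
  · obtain ⟨b, -, hb⟩ := (SmoothBumpFunction.nhds_basis_tsupport (I := 𝓘(ℝ, E)) x).mem_iff.1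
      ((chartAt E x₀).open_source.mem_nhds hx)
    have hF : ContMDiff 𝓘(ℝ, E) 𝓘(ℝ, E) ∞ fun x' => b x' • chartAt E x₀ x' :=
      contMDiff_of_tsupport fun x' h => b.contMDiffAt.smul (contMDiffOn_chart.contMDiffAt
        ((chartAt E x₀).open_source.mem_nhds (hb (tsupport_smul_subset_left _ _ h))))
    choose h h1 h2 using fun k => hι.ext _
      ((innerSL ℝ (stdOrthonormalBasis ℝ E k)).contDiff.contMDiff.comp hF)
    obtain ⟨U, u1, u2, u3⟩ := BrA.nbhd hι.sm.continuous hι.inj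
      (inter_mem ((chartAt E x₀).open_source.mem_nhds hx) b.eventuallyEq_one)
    refine ⟨U, fun p => ∑ k, h k p • stdOrthonormalBasis ℝ E k, u1, u2,
      ContDiff.sum fun k _ => (h1 k).smul contDiff_const, fun x' hx' => ⟨(u3 x' hx').1, ?_⟩⟩
    have h3 : b x' = 1 := (u3 x' hx').2
    simpa [h2, h3] using (stdOrthonormalBasis ℝ E).sum_repr' (chartAt E x₀ x')

end Pool.Agent.Lib.MP_1a4aff_gt.I3
end

-- part Pool.Agent.Lib.MP_1a4aff_gt.I3.MBas
section

/-! The Riemannian volume and the gradient on a closed manifold. -/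

set_option autoImplicit false

open MeasureTheory Set Filter Topology
open scoped ContDiff Manifold

namespace Pool.Agent.Lib.MP_1a4aff_gt.I3

namespace MBas

variable {E : Type} [NormedAddCommGroup E] [InnerProductSpace ℝ E] [FiniteDimensional ℝ E]

lemma gram_eq (B : E →L[ℝ] E →L[ℝ] ℝ) : gramDet B =
    (LinearMap.BilinForm.toMatrix (stdOrthonormalBasis ℝ E).toBasis B.toBilinForm).det := by
  unfold gramDet
  congr 1
  ext i j
  simp

lemma gram_comp (B : E →L[ℝ] E →L[ℝ] ℝ) (A : E →L[ℝ] E) :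
    gramDet (B.bilinearComp A A) = A.det ^ 2 * gramDet B := by
  have h : (B.bilinearComp A A).toBilinForm = B.toBilinForm.comp A A := by ext; simp
  rw [gram_eq, gram_eq, h, LinearMap.BilinForm.toMatrix_comp (stdOrthonormalBasis ℝ E).toBasis,
    Matrix.det_mul, Matrix.det_mul, Matrix.det_transpose, LinearMap.det_toMatrix,
    ContinuousLinearMap.det]
  ring

lemma gram_pos {B : E →L[ℝ] E →L[ℝ] ℝ} (hs : ∀ v w, B v w = B w v)
    (hp : ∀ v, v ≠ 0 → 0 < B v v) : 0 < gramDet B := by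
  refine Matrix.PosDef.det_pos (Matrix.PosDef.of_dotProduct_mulVec_pos ?_ fun x hx => ?_)
  · ext i j
    simp [hs]
  · have h := hp (∑ i, x i • stdOrthonormalBasis ℝ E i) fun h => hx (funext
      (Fintype.linearIndependent_iff.1 (stdOrthonormalBasis ℝ E).orthonormal.linearIndependent x h))
    simp only [map_sum, map_smul, sum_apply, smul_apply,
      smul_eq_mul] at h
    simpa [dotProduct, Matrix.mulVec, hs, mul_comm] using h

lemma gram_cont : Continuous (gramDet (E := E)) :=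
  Continuous.matrix_det (continuous_matrix fun i j => by
    simp only [Matrix.of_apply]; fun_prop)

lemma inv_of_pos {B : E →L[ℝ] E →L[ℝ] ℝ} (hp : ∀ v, v ≠ 0 → 0 < B v v) : B.IsInvertible := by
  have hi : Function.Injective B := (injective_iff_map_eq_zero B).2 fun v hv => by
    by_contra h
    simpa [hv] using hp v h
  have hr : Module.finrank ℝ E = Module.finrank ℝ (E →L[ℝ] ℝ) := by
    rw [← (LinearMap.toContinuousLinearMap (𝕜 := ℝ) (E := E) (F' := ℝ)).finrank_eq]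
    simp
  exact ⟨(LinearEquiv.ofBijective B.toLinearMap
    ⟨hi, (LinearMap.injective_iff_surjective_of_finrank_eq_finrank hr).1 hi⟩).toContinuousLinearEquiv,
    rfl⟩

lemma sup_eq {B : E →L[ℝ] E →L[ℝ] ℝ} (hs : ∀ v w, B v w = B w v) (hp : ∀ v, v ≠ 0 → 0 < B v v)
    (l : E →L[ℝ] ℝ) : sSup {r | ∃ v : E, B v v ≤ 1 ∧ r = l v ^ 2} = l (B.inverse l) := by
  obtain ⟨u, rfl⟩ : ∃ u, B u = l := ⟨_, (inv_of_pos hp).self_apply_inverse l⟩
  rw [(inv_of_pos hp).inverse_apply_self]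
  have h0 : ∀ v, 0 ≤ B v v := fun v => by
    rcases eq_or_ne v 0 with rfl | h
    · simp
    · exact (hp v h).le
  refine IsGreatest.csSup_eq ⟨?_, ?_⟩
  · rcases eq_or_ne u 0 with rfl | h
    · exact ⟨0, by simp, by simp⟩
    · have h1 := hp u h
      have h2 := Real.sqrt_pos.2 h1
      have h3 := Real.sq_sqrt h1.le
      refine ⟨(Real.sqrt (B u u))⁻¹ • u, le_of_eq ?_, ?_⟩ <;>
        simp only [map_smul, smul_apply, smul_eq_mul] <;> field_simp <;>
        rw [h3]
  · rintro _ ⟨v, hv, rfl⟩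
    exact (LinearMap.BilinForm.apply_sq_le_of_symm B.toBilinForm h0 ⟨hs⟩ u v).trans
      (mul_le_of_le_one_right (h0 u) hv)

variable {M : Type} [TopologicalSpace M] [ChartedSpace E M] [IsManifold 𝓘(ℝ, E) ∞ M]

omit [FiniteDimensional ℝ E] in
lemma md (x : M) : (chartAt E x).MDifferentiable 𝓘(ℝ, E) 𝓘(ℝ, E) :=
  haveI : IsManifold 𝓘(ℝ, E) 1 M := IsManifold.of_le (n := ∞) (by simp)
  mdifferentiable_chart x

omit [FiniteDimensional ℝ E] [IsManifold 𝓘(ℝ, E) ∞ M] in
lemma coef_symm (g : Met E M) (x : M) (y v w : E) :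
    coef E g.inner x y v w = coef E g.inner x y w v := g.symm _ _ _

omit [FiniteDimensional ℝ E] in
lemma coef_pos (g : Met E M) (x : M) {y : E} (hy : y ∈ (chartAt E x).target) (v : E) (hv : v ≠ 0) :
    0 < coef E g.inner x y v v :=
  g.pos _ _ fun h => hv ((injective_iff_map_eq_zero (dif E (chartAt E x).symm y)).1
    ((md x).symm.mfderiv_injective hy) v h)

lemma grad_cont (g : Met E M) {f : M → ℝ} (hf : ContMDiff 𝓘(ℝ, E) 𝓘(ℝ, ℝ) ∞ f) :
    Continuous (gradSq g f) := by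
  refine continuous_iff_continuousAt.2 fun x => ?_
  set c := chartAt E x
  have hx := mem_chart_target E x
  have h1 : ContDiffOn ℝ ∞ (f ∘ c.symm) c.target :=
    contMDiffOn_iff_contDiffOn.1 (hf.comp_contMDiffOn (contMDiffOn_chart_symm (x := x)))
  have h2 : ContinuousAt (fderiv ℝ (f ∘ c.symm)) (c x) :=
    (h1.continuousOn_fderiv_of_isOpen c.open_target (by simp)).continuousAt
      (c.open_target.mem_nhds hx)
  have h3 : ContinuousAt (coef E g.inner x) (c x) :=
    (g.smooth x).continuousOn.continuousAt (c.open_target.mem_nhds hx)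
  have h4 := ((inv_of_pos (coef_pos g x hx)).contDiffAt_map_inverse (n := 0)).continuousAt.comp h3
  refine (((h2.clm_apply (h4.clm_apply h2)).comp (c.continuousAt (mem_chart_source E x))).congr
    (Filter.eventually_of_mem (chart_source_mem_nhds E x) fun z hz => ?_))
  have hy := c.map_source hz
  have h5 : fderiv ℝ (f ∘ c.symm) (c z) = dfun f (c.symm (c z)) ∘L dif E c.symm (c z) := by
    rw [← mfderiv_eq_fderiv]
    exact mfderiv_comp _ (hf.mdifferentiableAt (by simp)) ((md x).mdifferentiableAt_symm hy)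
  refine (sup_eq (coef_symm g x _) (coef_pos g x hy) _).symm.trans ?_
  rw [h5]
  conv_rhs => rw [← c.left_inv hz]
  unfold gradSq
  congr 1
  ext r
  refine ⟨fun ⟨v, hv, hr⟩ => ⟨_, hv, hr⟩, fun ⟨v, hv, hr⟩ => ?_⟩
  obtain ⟨w, rfl⟩ := (md x).symm.mfderiv_surjective hy v
  exact ⟨w, hv, hr⟩

variable [MeasurableSpace E] [BorelSpace E] [MeasurableSpace M] [BorelSpace M]

omit [FiniteDimensional ℝ E] [IsManifold 𝓘(ℝ, E) ∞ M] in
lemma meas_pre (x : M) {A : Set M} (hA : MeasurableSet A) :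
    MeasurableSet ((chartAt E x).symm ⁻¹' A ∩ (chartAt E x).target) := by
  have h := (chartAt E x).open_target.measurableSet.subtype_image
    ((chartAt E x).continuousOn_symm.domRestrict.measurable hA)
  convert h using 1
  ext y
  simp [and_comm]

omit [IsManifold 𝓘(ℝ, E) ∞ M] in
lemma cv_apply (g : Met E M) (x : M) {A : Set M} (hA : MeasurableSet A) : chartVol g x A =
    ∫⁻ y in (chartAt E x).symm ⁻¹' A ∩ (chartAt E x).target,
      ENNReal.ofReal (Real.sqrt (gramDet (coef E g.inner x y))) := by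
  have h := (chartAt E x).open_target.measurableSet
  rw [chartVol, Measure.map_apply_of_aemeasurable (((chartAt E x).continuousOn_symm.aemeasurable
    h).mono_ac (withDensity_absolutelyContinuous _ _)) hA, withDensity_apply',
    Measure.restrict_restrict' h]

omit [IsManifold 𝓘(ℝ, E) ∞ M] in
lemma cv_inter (g : Met E M) (x : M) {A : Set M} (hA : MeasurableSet A) :
    chartVol g x (A ∩ (chartAt E x).source) = chartVol g x A := by
  rw [cv_apply g x hA, cv_apply g x (hA.inter (chartAt E x).open_source.measurableSet)]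
  congr 2
  ext y
  exact ⟨fun h => ⟨h.1.1, h.2⟩, fun h => ⟨⟨h.1, (chartAt E x).map_target h.2⟩, h.2⟩⟩

lemma cv_overlap (g : Met E M) (x x' : M) {A : Set M} (hA : MeasurableSet A)
    (h : A ⊆ (chartAt E x).source) (h' : A ⊆ (chartAt E x').source) :
    chartVol g x' A = chartVol g x A := by
  set c := chartAt E x
  set c' := chartAt E x'
  have hd : ∀ y ∈ c.symm ⁻¹' A ∩ c.target, MDifferentiableAt 𝓘(ℝ, E) 𝓘(ℝ, E) (c' ∘ c.symm) y :=
    fun y hy => ((md x').mdifferentiableAt (h' hy.1)).comp y ((md x).mdifferentiableAt_symm hy.2)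
  have hi : c'.symm ⁻¹' A ∩ c'.target = (c' ∘ c.symm) '' (c.symm ⁻¹' A ∩ c.target) := by
    ext y
    refine ⟨fun hy => ⟨c (c'.symm y), ⟨?_, c.map_source (h hy.1)⟩, ?_⟩, ?_⟩
    · rw [mem_preimage, c.left_inv (h hy.1)]; exact hy.1
    · rw [Function.comp_apply, c.left_inv (h hy.1), c'.right_inv hy.2]
    · rintro ⟨z, hz, rfl⟩
      refine ⟨?_, c'.map_source (h' hz.1)⟩
      rw [mem_preimage, Function.comp_apply, c'.left_inv (h' hz.1)]; exact hz.1
  rw [cv_apply g x hA, cv_apply g x' hA, hi, lintegral_image_eq_lintegral_abs_det_fderiv_mul volume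
    (meas_pre x hA) (fun y hy => (hd y hy).differentiableAt.hasFDerivAt.hasFDerivWithinAt)
    fun y hy z hz e => c.symm.injOn hy.2 hz.2 (c'.injOn (h' hy.1) (h' hz.1) e)]
  refine setLIntegral_congr_fun (meas_pre x hA) fun y hy => ?_
  have h1 : dif E c.symm y = dif E c'.symm (c' (c.symm y)) ∘L fderiv ℝ (c' ∘ c.symm) y := by
    rw [← mfderiv_eq_fderiv]
    refine Eq.trans (Filter.EventuallyEq.mfderiv_eq ?_) (mfderiv_comp y
      ((md x').mdifferentiableAt_symm (c'.map_source (h' hy.1))) (hd y hy))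
    filter_upwards [(c.continuousAt_symm hy.2).preimage_mem_nhds
      (c'.open_source.mem_nhds (h' hy.1))] with z hz
    exact (c'.left_inv hz).symm
  have h2 : coef E g.inner x y = (coef E g.inner x' (c' (c.symm y))).bilinearComp
      (fderiv ℝ (c' ∘ c.symm) y) (fderiv ℝ (c' ∘ c.symm) y) := by
    ext v w
    change g.inner (c.symm y) (dif E c.symm y v) (dif E c.symm y w) =
      g.inner (c'.symm (c' (c.symm y))) _ _
    rw [h1, c'.left_inv (h' hy.1)]
    rfl
  rw [h2, gram_comp, Real.sqrt_mul (sq_nonneg _), Real.sqrt_sq_eq_abs,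
    ENNReal.ofReal_mul (abs_nonneg _)]
  rfl

lemma vol_restrict (g : Met E M) (x : M) :
    (vol g).restrict (chartAt E x).source = chartVol g x := by
  have hs := fun x : M => (chartAt E x).open_source.measurableSet
  have h : vol g ≤ chartVol g x + (vol g).restrict (chartAt E x).sourceᶜ :=
    iSup_le fun x' => Measure.le_iff.2 fun A hA => by
      rw [← measure_inter_add_sdiff A (hs x), Measure.add_apply, Measure.restrict_apply hA,
        ← cv_inter g x' (hA.inter (hs x)), cv_overlap g x x' ((hA.inter (hs x)).inter (hs x'))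
          (fun _ h => h.1.2) fun _ h => h.2]
      exact add_le_add (measure_mono fun _ h => h.1.1)
        (Measure.le_iff'.1 (le_iSup (chartVol g) x') _)
  ext A hA
  rw [Measure.restrict_apply hA, ← cv_inter g x hA]
  refine le_antisymm ((Measure.le_iff'.1 h _).trans_eq ?_)
    (Measure.le_iff'.1 (le_iSup (chartVol g) x) _)
  rw [Measure.add_apply, Measure.restrict_apply (hA.inter (hs x)), inter_assoc, inter_compl_self,
    inter_empty, measure_empty, add_zero]

omit [MeasurableSpace E] [BorelSpace E] [MeasurableSpace M] [BorelSpace M]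
  [IsManifold 𝓘(ℝ, E) ∞ M] in
lemma dens_cont (g : Met E M) (x : M) :
    ContinuousOn (fun y => Real.sqrt (gramDet (coef E g.inner x y))) (chartAt E x).target :=
  (Real.continuous_sqrt.comp gram_cont).comp_continuousOn (g.smooth x).continuousOn

lemma vol_loc (g : Met E M) : IsLocallyFiniteMeasure (vol g) := ⟨fun x => by
  set c := chartAt E x
  obtain ⟨K, hK, h1, h2⟩ := local_compact_nhds (c.open_target.mem_nhds (mem_chart_target E x))
  have hA := (c.isOpen_inter_preimage (isOpen_interior (s := K))).measurableSet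
  refine ⟨c.source ∩ c ⁻¹' interior K, (c.isOpen_inter_preimage isOpen_interior).mem_nhds
    ⟨mem_chart_source E x, mem_interior_iff_mem_nhds.2 hK⟩, ?_⟩
  rw [← Measure.restrict_eq_self _ inter_subset_left, vol_restrict, cv_apply g x hA]
  refine lt_of_le_of_lt (lintegral_mono_set fun y hy => ?_)
    (((dens_cont g x).mono h1).integrableOn_compact h2).lintegral_lt_top
  rw [← c.right_inv hy.2]
  exact interior_subset hy.1.2⟩

lemma vol_pos (g : Met E M) : (vol g).IsOpenPosMeasure := ⟨fun U hU ⟨x, hx⟩ h0 => by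
  set c := chartAt E x
  have h1 := (Measure.le_iff'.1 (le_iSup (chartVol g) x) U).trans_eq h0
  have hW : IsOpen (c.symm ⁻¹' U ∩ c.target) := by
    rw [inter_comm]; exact c.isOpen_inter_preimage_symm hU
  rw [nonpos_iff_eq_zero, cv_apply g x hU.measurableSet, lintegral_eq_zero_iff'
    (((dens_cont g x).mono inter_subset_right).aemeasurable hW.measurableSet).ennreal_ofReal,
    Filter.EventuallyEq, ae_restrict_iff' hW.measurableSet] at h1
  refine hW.measure_ne_zero volume ⟨c x, ?_, mem_chart_target E x⟩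
    (measure_mono_null (fun y hy => ?_) (ae_iff.1 h1))
  · rw [mem_preimage, c.left_inv (mem_chart_source E x)]; exact hx
  · exact fun h => (ENNReal.ofReal_pos.2 (Real.sqrt_pos.2
      (gram_pos (coef_symm g x y) (coef_pos g x hy.2)))).ne' (h hy)⟩

end MBas

theorem mbas_holds : MBasStmt := fun _ _ _ _ _ _ _ _ _ _ _ _ _ _ g =>
  haveI := MBas.vol_loc g
  ⟨CompactSpace.isFiniteMeasure, MBas.vol_pos g, MBas.vol_restrict g, fun _ => MBas.grad_cont g⟩

end Pool.Agent.Lib.MP_1a4aff_gt.I3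
end

-- part Pool.Agent.Lib.MP_1a4aff_gt.I3.Closed
section

/-! The eigenvalues depend continuously on the metric. -/

set_option autoImplicit false
set_option linter.unusedSectionVars false

open MeasureTheory Set Filter Topology
open scoped ContDiff Manifold

namespace Pool.Agent.Lib.MP_1a4aff_gt.I3

namespace Closed

open Matrix in
open scoped MatrixOrder in
lemma det_mono {n : Type} [Fintype n] [DecidableEq n] {A B : Matrix n n ℝ} (hA : A.PosSemidef)
    (hB : B.PosDef) (h : (B - A).PosSemidef) : A.det ≤ B.det := by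
  obtain ⟨Y, hY⟩ := CStarAlgebra.nonneg_iff_eq_star_mul_self.1 hB.posSemidef.nonneg
  have h0 := hB.det_pos
  have hd : IsUnit Y.det := by
    rw [hY, det_mul] at h0
    exact (right_ne_zero_of_mul h0.ne').isUnit
  have hP := hA.conjTranspose_mul_mul_same Y⁻¹
  have hQ := h.conjTranspose_mul_mul_same Y⁻¹
  have e : (Y⁻¹)ᴴ * B * Y⁻¹ = 1 := by
    rw [hY, star_eq_conjTranspose, ← Matrix.mul_assoc, ← conjTranspose_mul, mul_nonsing_inv _ hd,
      conjTranspose_one, Matrix.one_mul, mul_nonsing_inv _ hd]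
  rw [Matrix.mul_sub, Matrix.sub_mul, e] at hQ
  have h1 : ((Y⁻¹)ᴴ * A * Y⁻¹).det ≤ 1 := by
    rw [hP.1.det_eq_prod_eigenvalues]
    refine Finset.prod_le_one (fun i _ => hP.eigenvalues_nonneg i) fun i _ => ?_
    have h2 := hQ.dotProduct_mulVec_nonneg (hP.1.eigenvectorBasis i).ofLp
    rw [sub_mulVec, hP.1.mulVec_eigenvectorBasis, one_mulVec, dotProduct_sub, dotProduct_smul,
      smul_eq_mul, ← one_sub_mul] at h2
    have h3 := dotProduct_star_self_pos_iff.2 (show (hP.1.eigenvectorBasis i).ofLp ≠ 0 from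
      fun h => hP.1.eigenvectorBasis.orthonormal.ne_zero i ((WithLp.ofLp_eq_zero 2).1 h))
    exact sub_nonneg.1 (nonneg_of_mul_nonneg_left h2 h3)
  have h2 := congrArg det e
  simp only [det_mul, det_one] at h1 h2
  calc A.det = (Y⁻¹)ᴴ.det * A.det * Y⁻¹.det * B.det := by linear_combination (-A.det) * h2
    _ ≤ _ := mul_le_of_le_one_left h0.le h1

variable {E : Type} [NormedAddCommGroup E] [InnerProductSpace ℝ E] [FiniteDimensional ℝ E]

/-- the Gram matrix -/
noncomputable def gm (B : E →L[ℝ] E →L[ℝ] ℝ) :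
    Matrix (Fin (Module.finrank ℝ E)) (Fin (Module.finrank ℝ E)) ℝ :=
  Matrix.of fun i j => B (stdOrthonormalBasis ℝ E i) (stdOrthonormalBasis ℝ E j)

lemma gm_herm {B : E →L[ℝ] E →L[ℝ] ℝ} (hs : ∀ v w, B v w = B w v) : (gm B).IsHermitian := by
  ext i j
  simp [gm, hs]

lemma gm_dot (B : E →L[ℝ] E →L[ℝ] ℝ) (x : Fin (Module.finrank ℝ E) → ℝ) :
    star x ⬝ᵥ (gm B).mulVec x =
      B (∑ i, x i • stdOrthonormalBasis ℝ E i) (∑ i, x i • stdOrthonormalBasis ℝ E i) := by
  simp only [map_sum, map_smul, sum_apply, smul_apply, smul_eq_mul, Finset.mul_sum]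
  rw [Finset.sum_comm]
  simp [gm, dotProduct, Matrix.mulVec, Finset.mul_sum, mul_comm, mul_left_comm]

lemma nonneg {B : E →L[ℝ] E →L[ℝ] ℝ} (hp : ∀ v, v ≠ 0 → 0 < B v v) (v : E) : 0 ≤ B v v := by
  rcases eq_or_ne v 0 with rfl | h
  · simp
  · exact (hp v h).le

lemma gram_le {A B : E →L[ℝ] E →L[ℝ] ℝ} {c : ℝ} (hc : 1 ≤ c) (hA : ∀ v w, A v w = A w v)
    (hB : ∀ v w, B v w = B w v) (hA' : ∀ v, 0 ≤ A v v) (hB' : ∀ v, v ≠ 0 → 0 < B v v)
    (h : ∀ v, A v v ≤ c * B v v) :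
    Real.sqrt (gramDet A) ≤ c ^ Module.finrank ℝ E * Real.sqrt (gramDet B) := by
  have h1 : (gm B).PosDef := .of_dotProduct_mulVec_pos (gm_herm hB) fun x hx => by
    rw [gm_dot]
    exact hB' _ fun h => hx (funext
      (Fintype.linearIndependent_iff.1 (stdOrthonormalBasis ℝ E).orthonormal.linearIndependent x h))
  have h2 := det_mono (A := gm A) (.of_dotProduct_mulVec_nonneg (gm_herm hA) fun x => by
    rw [gm_dot]; exact hA' _) (h1.smul (show 0 < c by linarith))
    (.of_dotProduct_mulVec_nonneg ((h1.smul (show 0 < c by linarith)).1.sub (gm_herm hA))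
      fun x => by
        rw [Matrix.sub_mulVec, Matrix.smul_mulVec, dotProduct_sub, dotProduct_smul, gm_dot, gm_dot]
        exact sub_nonneg.2 (h _))
  rw [Matrix.det_smul, Fintype.card_fin] at h2
  have h3 : 1 ≤ c ^ Module.finrank ℝ E := one_le_pow₀ hc
  rw [← Real.sqrt_sq (zero_le_one.trans h3), ← Real.sqrt_mul (sq_nonneg _)]
  refine Real.sqrt_le_sqrt (h2.trans (mul_le_mul_of_nonneg_right ?_ h1.det_pos.le))
  exact le_self_pow₀ h3 two_ne_zero

lemma coer {B : E →L[ℝ] E →L[ℝ] ℝ} (hp : ∀ v, v ≠ 0 → 0 < B v v) :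
    ∃ m > 0, ∀ v, m * ‖v‖ ^ 2 ≤ B v v := by
  obtain ⟨m, hm, h⟩ := (isCompact_sphere (0 : E) 1).exists_forall_le' (f := fun v => B v v)
    (by fun_prop) fun v hv => hp v (ne_zero_of_mem_unit_sphere ⟨v, hv⟩)
  refine ⟨m, hm, fun v => ?_⟩
  rcases eq_or_ne v 0 with rfl | hv
  · simp
  have h0 := norm_pos_iff.2 hv
  have := h (‖v‖⁻¹ • v) (by simp [norm_smul, h0.ne'])
  simp only [map_smul, smul_apply, smul_eq_mul] at this
  calc m * ‖v‖ ^ 2 ≤ ‖v‖⁻¹ * (‖v‖⁻¹ * B v v) * ‖v‖ ^ 2 := by gcongr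
    _ = _ := by field_simp

lemma diff_le (A B : E →L[ℝ] E →L[ℝ] ℝ) (v : E) : |A v v - B v v| ≤ dist A B * ‖v‖ ^ 2 := by
  have := (A - B).le_opNorm₂ v v
  rw [show dist A B = ‖A - B‖ from dist_eq_norm A B, sq, ← mul_assoc]
  simpa using this

variable {M : Type} [TopologicalSpace M] [ChartedSpace E M]

/-- comparable metrics -/
def Cmp (c : ℝ) (g h : Met E M) : Prop := ∀ x v, h.inner x v v ≤ c * g.inner x v v

lemma bdd (g : Met E M) (f : M → ℝ) (x : M) :
    BddAbove {r | ∃ v : E, g.inner x v v ≤ 1 ∧ r = dfun f x v ^ 2} := by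
  obtain ⟨m, hm, h⟩ := coer (g.pos x)
  refine ⟨‖dfun (E := E) f x‖ ^ 2 * m⁻¹, ?_⟩
  rintro _ ⟨v, hv, rfl⟩
  have h1 : ‖v‖ ^ 2 ≤ m⁻¹ := by
    rw [← one_div, le_div_iff₀' hm]; exact (h v).trans hv
  calc dfun f x v ^ 2 = ‖dfun f x v‖ ^ 2 := (sq_abs _).symm
    _ ≤ (‖dfun (E := E) f x‖ * ‖v‖) ^ 2 := by gcongr; exact ContinuousLinearMap.le_opNorm _ _
    _ ≤ _ := by rw [mul_pow]; gcongr

lemma grad_nonneg (g : Met E M) (f : M → ℝ) (x : M) : 0 ≤ gradSq g f x :=
  le_csSup (bdd g f x) ⟨0, by simp, by simp⟩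

lemma grad_le {c : ℝ} (hc : 0 < c) {g h : Met E M} (H : Cmp c h g) (f : M → ℝ) (x : M) :
    gradSq h f x ≤ c * gradSq g f x := by
  refine csSup_le ⟨0, 0, by simp, by simp⟩ ?_
  rintro _ ⟨v, hv, rfl⟩
  have h2 := Real.sqrt_pos.2 hc
  have h3 := Real.sq_sqrt hc.le
  have h4 : dfun f x ((Real.sqrt c)⁻¹ • v) ^ 2 ≤ gradSq g f x :=
    le_csSup (bdd g f x) ⟨_, by
      simp only [map_smul, smul_apply, smul_eq_mul]
      rw [← mul_assoc, ← sq, inv_pow, h3, inv_mul_le_iff₀ hc]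
      exact (H x v).trans (mul_le_mul_of_nonneg_left hv hc.le), rfl⟩
  rwa [map_smul, smul_eq_mul, mul_pow, inv_pow, h3, inv_mul_le_iff₀ hc] at h4

variable [IsManifold 𝓘(ℝ, E) ∞ M]

lemma md (x : M) : (chartAt E x).MDifferentiable 𝓘(ℝ, E) 𝓘(ℝ, E) :=
  haveI : IsManifold 𝓘(ℝ, E) 1 M := IsManifold.of_le (n := ∞) (by simp)
  mdifferentiable_chart x

lemma coef_pos (g : Met E M) (x : M) {y : E} (hy : y ∈ (chartAt E x).target) (v : E) (hv : v ≠ 0) :
    0 < coef E g.inner x y v v :=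
  g.pos _ _ fun h => hv ((injective_iff_map_eq_zero (dif E (chartAt E x).symm y)).1
    ((md x).symm.mfderiv_injective hy) v h)

lemma unif (g : Met E M) (x : M) {K : Set E} (hK : IsCompact K) (hK' : K ⊆ (chartAt E x).target)
    {ε : ℝ} (hε : 0 < ε) :
    ∀ᶠ h : Met E M in 𝓝 g, ∀ y ∈ K, dist (coef E g.inner x y) (coef E h.inner x y) < ε := by
  have h1 : Continuous fun g : Met E M =>
      UniformOnFun.ofFun {K | IsCompact K ∧ K ⊆ (chartAt E x).target}
        (iteratedFDeriv ℝ 0 (coef E g.inner x)) :=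
    continuous_iInf_dom (i := x) (continuous_iInf_dom (i := 0) continuous_induced_dom)
  have h2 := UniformOnFun.tendsto_iff_tendstoUniformlyOn.1 (h1.tendsto g) K ⟨hK, hK'⟩
  refine (Metric.tendstoUniformlyOn_iff.1 h2 ε hε).mono fun h H y hy => ?_
  rw [← (continuousMultilinearCurryFin0 ℝ E (E →L[ℝ] E →L[ℝ] ℝ)).symm.dist_map]
  exact H y hy

lemma near [CompactSpace M] (g : Met E M) {c : ℝ} (hc : 1 < c) :
    ∀ᶠ h : Met E M in 𝓝 g, Cmp c g h ∧ Cmp c h g := by
  suffices H : ∀ᶠ h : Met E M in 𝓝 g, ∀ x ∈ univ, ∀ v, h.inner x v v ≤ c * g.inner x v v ∧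
      g.inner x v v ≤ c * h.inner x v v from
    H.mono fun h H => ⟨fun x v => (H x trivial v).1, fun x v => (H x trivial v).2⟩
  refine isCompact_univ.eventually_forall_of_forall_eventually fun x _ => ?_
  have hx := mem_chart_source E x
  have hy := mem_chart_target E x
  have ht := (chartAt E x).open_target.mem_nhds hy
  obtain ⟨m, hm, hm'⟩ := coer (coef_pos g x hy)
  have h1 : ∀ᶠ y in 𝓝 (chartAt E x x), y ∈ (chartAt E x).target ∧
      dist (coef E g.inner x y) (coef E g.inner x (chartAt E x x)) < m / 2 :=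
    Eventually.and ht (Metric.tendsto_nhds.1 ((g.smooth x).continuousOn.continuousAt ht) _
      (half_pos hm))
  obtain ⟨K, hK, hK1, hK2⟩ := local_compact_nhds h1
  have hc0 : 0 < c := by linarith
  have hδ : 0 < 1 - c⁻¹ := sub_pos.2 (inv_lt_one_of_one_lt₀ hc)
  have h2 := unif g x hK2 (fun y hy => (hK1 hy).1) (mul_pos hδ (half_pos hm))
  have h3 : ∀ᶠ z in 𝓝 x, z ∈ (chartAt E x).source ∧ chartAt E x z ∈ K :=
    Eventually.and (chart_source_mem_nhds E x) ((chartAt E x).continuousAt hx hK)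
  refine (h2.prod_nhds h3).mono fun ⟨h, z⟩ ⟨H, hz, hz'⟩ w => ?_
  obtain ⟨v, rfl⟩ : ∃ v, dif E (chartAt E x).symm (chartAt E x z) v = w :=
    (md x).symm.mfderiv_surjective (hK1 hz').1 w
  have e : ∀ g : Met E M, g.inner z (dif E (chartAt E x).symm (chartAt E x z) v)
      (dif E (chartAt E x).symm (chartAt E x z) v) = coef E g.inner x (chartAt E x z) v v :=
    fun g => by
      rw [coef, (chartAt E x).left_inv hz]; rfl
  dsimp only
  rw [e, e]
  have a1 := (abs_le.1 ((diff_le _ _ v).trans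
    (mul_le_mul_of_nonneg_right (hK1 hz').2.le (sq_nonneg _)))).1
  have a2 := abs_le.1 ((diff_le _ _ v).trans
    (mul_le_mul_of_nonneg_right (H _ hz').le (sq_nonneg _)))
  have a3 := hm' v
  dsimp only at a2
  generalize coef E g.inner x (chartAt E x z) v v = p at a1 a2 ⊢
  generalize coef E h.inner x (chartAt E x z) v v = q at a2 ⊢
  have a4 : m / 2 * ‖v‖ ^ 2 ≤ p := by linarith
  have a5 := mul_le_mul_of_nonneg_left a4 hδ.le
  have a6 : 0 ≤ p := le_trans (by positivity) a4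
  have a7 : 2 - c⁻¹ ≤ c := by
    rw [← sub_nonneg, show c - (2 - c⁻¹) = (c - 1) ^ 2 / c by field_simp; ring]
    positivity
  refine ⟨?_, ?_⟩
  · have := mul_le_mul_of_nonneg_right a7 a6
    linarith [a2.1]
  · rw [← inv_mul_le_iff₀ hc0]
    linarith [a2.2]

variable [MeasurableSpace E] [BorelSpace E] [MeasurableSpace M] [BorelSpace M]

lemma vol_le {c : ℝ} (hc : 1 ≤ c) {g h : Met E M} (H : Cmp c g h) :
    vol h ≤ ENNReal.ofReal (c ^ Module.finrank ℝ E) • vol g := by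
  refine iSup_le fun x => le_trans ?_ (show ENNReal.ofReal (c ^ Module.finrank ℝ E) • chartVol g x
    ≤ _ from Measure.le_iff'.2 fun s => mul_le_mul_right (le_iSup (chartVol g) x s) _)
  have hm := (chartAt E x).open_target.measurableSet
  rw [chartVol, chartVol, ← Measure.map_smul, ← withDensity_smul' _ _ ENNReal.ofReal_ne_top]
  refine Measure.map_mono_of_aemeasurable (withDensity_mono ?_)
    (((chartAt E x).continuousOn_symm.aemeasurable hm).mono_ac
      (withDensity_absolutelyContinuous _ _))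
  refine (ae_restrict_mem hm).mono fun y hy => ?_
  simp only [Pi.smul_apply, smul_eq_mul]
  rw [← ENNReal.ofReal_mul (by positivity)]
  exact ENNReal.ofReal_le_ofReal (gram_le hc (fun _ _ => h.symm _ _ _) (fun _ _ => g.symm _ _ _)
    (nonneg (coef_pos h x hy)) (coef_pos g x hy) fun v => H _ _)

variable [CompactSpace M] [T2Space M]

lemma intg (μ : Measure M) [IsFiniteMeasure μ] {f : M → ℝ} (hf : Continuous f) : Integrable f μ :=
  hf.integrable_of_hasCompactSupport (HasCompactSupport.of_compactSpace f)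

lemma int_le (hB : MBasStmt) {c : ℝ} (hc : 1 ≤ c) {g h : Met E M} (H : Cmp c g h) {f : M → ℝ}
    (hf : Continuous f) (h0 : ∀ x, 0 ≤ f x) :
    ∫ x, f x ∂vol h ≤ c ^ Module.finrank ℝ E * ∫ x, f x ∂vol g := by
  have := (hB E M g).1
  have h1 := integral_mono_measure (vol_le hc H) (Eventually.of_forall h0)
    ((intg _ hf).smul_measure ENNReal.ofReal_ne_top)
  rwa [integral_smul_measure, ENNReal.toReal_ofReal (by positivity), smul_eq_mul] at h1

/-- the min-max set -/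
def MS (g : Met E M) (k : ℕ) : Set ℝ :=
  {L : ℝ | ∃ F : Submodule ℝ (M → ℝ), Module.finrank ℝ F = k + 1 ∧
    ∀ f ∈ F, ContMDiff 𝓘(ℝ, E) 𝓘(ℝ, ℝ) ∞ f ∧
      ∫ x, gradSq g f x ∂vol g ≤ L * ∫ x, f x ^ 2 ∂vol g}

lemma ms_nonneg (hB : MBasStmt) {g : Met E M} {k : ℕ} {L : ℝ} (h : L ∈ MS g k) : 0 ≤ L := by
  obtain ⟨F, hF, h⟩ := h
  obtain ⟨h1, h2, -⟩ := hB E M g
  obtain ⟨f, hf, h0⟩ := (Submodule.ne_bot_iff F).1 (by rintro rfl; simp at hF)
  obtain ⟨x, hx⟩ := Function.ne_iff.1 h0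
  have h3 : Continuous fun x => f x ^ 2 := (h f hf).1.continuous.pow 2
  exact nonneg_of_mul_nonneg_left ((integral_nonneg (grad_nonneg g f)).trans (h f hf).2)
    (integral_pos_of_integrable_nonneg_nonzero h3 (intg _ h3) (fun _ => sq_nonneg _)
      (pow_ne_zero 2 hx))

lemma ms_mem (hB : MBasStmt) {c : ℝ} (hc : 1 ≤ c) {g h : Met E M} (H : Cmp c g h) (H' : Cmp c h g)
    {k : ℕ} {L : ℝ} (hL : L ∈ MS g k) : c * (c ^ Module.finrank ℝ E) ^ 2 * L ∈ MS h k := by
  have h0 := ms_nonneg hB hL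
  obtain ⟨F, hF, hL⟩ := hL
  refine ⟨F, hF, fun f hf => ⟨(hL f hf).1, ?_⟩⟩
  have hc0 : 0 < c := by linarith
  have := (hB E M h).1
  have h1 := (hB E M g).2.2.2 f (hL f hf).1
  have h2 := (hB E M h).2.2.2 f (hL f hf).1
  calc _ ≤ ∫ x, c * gradSq g f x ∂vol h :=
        integral_mono (intg _ h2) ((intg _ h1).const_mul c) (grad_le hc0 H' f)
    _ = c * ∫ x, gradSq g f x ∂vol h := integral_const_mul _ _
    _ ≤ c * (c ^ Module.finrank ℝ E * ∫ x, gradSq g f x ∂vol g) := by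
        gcongr; exact int_le hB hc H h1 (grad_nonneg g f)
    _ ≤ c * (c ^ Module.finrank ℝ E * (L * ∫ x, f x ^ 2 ∂vol g)) := by
        gcongr; exact (hL f hf).2
    _ ≤ c * (c ^ Module.finrank ℝ E * (L * (c ^ Module.finrank ℝ E * ∫ x, f x ^ 2 ∂vol h))) := by
        gcongr; exact int_le hB hc H' ((hL f hf).1.continuous.pow 2) fun _ => sq_nonneg _
    _ = _ := by ring

lemma eig_le (hB : MBasStmt) {c : ℝ} (hc : 1 ≤ c) {g h : Met E M} (H : Cmp c g h) (H' : Cmp c h g)
    (k : ℕ) : eigen h k ≤ c * (c ^ Module.finrank ℝ E) ^ 2 * eigen g k := by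
  change sInf (MS h k) ≤ _ * sInf (MS g k)
  rcases (MS g k).eq_empty_or_nonempty with e | e
  · rw [e, eq_empty_of_forall_notMem (s := MS h k) fun L hL =>
      (e ▸ ms_mem hB hc H' H hL : _ ∈ (∅ : Set ℝ))]
    simp
  · rw [← inv_mul_le_iff₀ (by positivity)]
    refine le_csInf e fun L hL => ?_
    rw [inv_mul_le_iff₀ (by positivity)]
    exact csInf_le ⟨0, fun _ => ms_nonneg hB⟩ (ms_mem hB hc H H' hL)

lemma ex_c (d : ℕ) {a b : ℝ} (h : a < b) : ∃ c > 1, c * (c ^ d) ^ 2 * a < b := by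
  have h1 : Continuous fun c : ℝ => c * (c ^ d) ^ 2 * a := by fun_prop
  have h2 : ∀ᶠ c in 𝓝[>] (1 : ℝ), c * (c ^ d) ^ 2 * a < b :=
    nhdsWithin_le_nhds ((h1.tendsto 1).eventually (gt_mem_nhds (by simpa using h)))
  exact (Eventually.and (f := 𝓝[>] 1) self_mem_nhdsWithin h2).exists

end Closed

open Closed in
theorem closed_holds (hB : MBasStmt) : ClosedStmt := by
  intro E _ _ _ _ _ M _ _ _ _ _ _ _ k
  refine continuous_iff_continuousAt.2 fun g => tendsto_order.2 ⟨fun a ha => ?_, fun a ha => ?_⟩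
  · obtain ⟨c, hc, h⟩ := ex_c (Module.finrank ℝ E) ha
    exact (near g hc).mono fun g' H => lt_of_mul_lt_mul_left
      (h.trans_le (eig_le hB hc.le H.2 H.1 k)) (by positivity)
  · obtain ⟨c, hc, h⟩ := ex_c (Module.finrank ℝ E) ha
    exact (near g hc).mono fun g' H => (eig_le hB hc.le H.1 H.2 k).trans_lt h

end Pool.Agent.Lib.MP_1a4aff_gt.I3
end

-- part Pool.Agent.Lib.MP_1a4aff_gt.I3.Lim
section

/-! Arzela-Ascoli for Riemannian metrics along an ultrafilter. -/

set_option autoImplicit false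

open Set Filter Topology
open scoped ContDiff Manifold

namespace Pool.Agent.Lib.MP_1a4aff_gt.I3

namespace Lim

variable {E : Type} [NormedAddCommGroup E] [InnerProductSpace ℝ E] [FiniteDimensional ℝ E]
  {M : Type} [TopologicalSpace M] [ChartedSpace E M]

theorem cont_comp (A : E →L[ℝ] E) :
    Continuous fun b : E →L[ℝ] E →L[ℝ] ℝ => b.bilinearComp A A := by
  refine continuous_clm_apply.2 fun v => continuous_clm_apply.2 fun w => ?_
  simp only [ContinuousLinearMap.bilinearComp_apply]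
  fun_prop

omit [FiniteDimensional ℝ E] in
theorem exists_inv [IsManifold 𝓘(ℝ, E) ∞ M] (x : M) :
    ∃ B : E →L[ℝ] E, ∀ v, dif E (chartAt E x).symm (chartAt E x x) (B v) = v := by
  have h := (mdifferentiable_chart (I := 𝓘(ℝ, E)) x).symm_comp_deriv (mem_chart_source E x)
  exact ⟨mfderiv 𝓘(ℝ, E) 𝓘(ℝ, E) (chartAt E x) x, fun v => DFunLike.congr_fun h v⟩

omit [FiniteDimensional ℝ E] in
theorem coef_self (b : M → E →L[ℝ] E →L[ℝ] ℝ) (x : M) {B : E →L[ℝ] E}
    (hB : ∀ v, dif E (chartAt E x).symm (chartAt E x x) (B v) = v) :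
    (coef E b x (chartAt E x x)).bilinearComp B B = b x := by
  ext v w
  simp only [coef, ContinuousLinearMap.bilinearComp_apply, hB,
    (chartAt E x).left_inv (mem_chart_source E x)]

end Lim

open Lim

theorem lim_holds (hU : ULimStmt) : LimStmt := by
  intro E _ _ _ M _ _ _ ι 𝒰 h H
  have loc : ∀ x₀, ∀ y₀ ∈ (chartAt E x₀).target, ∃ W : Set E, IsOpen W ∧ y₀ ∈ W ∧
      ∃ G : E → E →L[ℝ] E →L[ℝ] ℝ, ContDiffOn ℝ ∞ G W ∧
        (∀ k, ∀ K ⊆ W, IsCompact K → TendstoUniformlyOn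
          (fun i => iteratedFDeriv ℝ k (coef E (h i).inner x₀)) (iteratedFDeriv ℝ k G) 𝒰 K) ∧
        ∀ y ∈ W, Tendsto (fun i => coef E (h i).inner x₀ y) 𝒰 (𝓝 (G y)) := by
    intro x₀ y₀ hy₀
    obtain ⟨W, hW, c, -, C, hC⟩ := H x₀ y₀ hy₀
    obtain ⟨G, hG1, hG2⟩ := hU ι E (E →L[ℝ] E →L[ℝ] ℝ) 𝒰 (fun i => coef E (h i).inner x₀)
      (interior W ∩ (chartAt E x₀).target) C (isOpen_interior.inter (chartAt E x₀).open_target)
      (by
        filter_upwards [hC] with i hi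
        exact ⟨((h i).smooth x₀).mono inter_subset_right,
          fun k y hy => (hi y (interior_subset hy.1)).1 k⟩)
    refine ⟨_, isOpen_interior.inter (chartAt E x₀).open_target,
      ⟨mem_interior_iff_mem_nhds.2 hW, hy₀⟩, G, hG1, hG2, fun y hy => ?_⟩
    have h1 := (hG2 0 {y} (singleton_subset_iff.2 hy) isCompact_singleton).tendsto_at
      (mem_singleton y)
    have h2 := ((continuous_eval_const (fun _ : Fin 0 => (0 : E))).tendsto _).comp h1
    simpa only [Function.comp_def, iteratedFDeriv_zero_apply] using h2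
  have pt : ∀ x, ∃ b : E →L[ℝ] E →L[ℝ] ℝ, Tendsto (fun i => (h i).inner x) 𝒰 (𝓝 b) := by
    intro x
    obtain ⟨W, -, hy, G, -, -, hG⟩ := loc x _ (mem_chart_target E x)
    obtain ⟨B, hB⟩ := exists_inv (E := E) x
    have h1 := ((cont_comp B).tendsto _).comp (hG _ hy)
    refine ⟨_, h1.congr fun i => ?_⟩
    exact coef_self _ x hB
  choose b hb using pt
  have hcoef : ∀ x₀ y, Tendsto (fun i => coef E (h i).inner x₀ y) 𝒰 (𝓝 (coef E b x₀ y)) :=
    fun x₀ y => ((cont_comp _).tendsto _).comp (hb _)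
  have hev : ∀ x v w, Tendsto (fun i => (h i).inner x v w) 𝒰 (𝓝 (b x v w)) := fun x v w =>
    ((show Continuous fun a : E →L[ℝ] E →L[ℝ] ℝ => a v w by fun_prop).tendsto _).comp (hb x)
  have loc2 : ∀ x₀, ∀ y₀ ∈ (chartAt E x₀).target, ∃ W : Set E, IsOpen W ∧ y₀ ∈ W ∧
      ContDiffOn ℝ ∞ (coef E b x₀) W ∧ ∀ k, ∀ K ⊆ W, IsCompact K → TendstoUniformlyOn
        (fun i => iteratedFDeriv ℝ k (coef E (h i).inner x₀))
        (iteratedFDeriv ℝ k (coef E b x₀)) 𝒰 K := by
    intro x₀ y₀ hy₀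
    obtain ⟨W, hW, hy, G, hG1, hG2, hG3⟩ := loc x₀ y₀ hy₀
    have e : ∀ y ∈ W, coef E b x₀ y = G y := fun y hy =>
      tendsto_nhds_unique (hcoef x₀ y) (hG3 y hy)
    refine ⟨W, hW, hy, hG1.congr e, fun k K hK hK' => (hG2 k K hK hK').congr_right ?_⟩
    intro y hy
    have e2 : G =ᶠ[𝓝 y] coef E b x₀ := by
      filter_upwards [hW.mem_nhds (hK hy)] with z hz using (e z hz).symm
    exact (e2.iteratedFDeriv ℝ k).eq_of_nhds
  have hsymm : ∀ x v w, b x v w = b x w v := fun x v w =>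
    tendsto_nhds_unique (hev x v w) ((hev x w v).congr fun i => (h i).symm x w v)
  have hpos : ∀ x v, v ≠ 0 → 0 < b x v v := by
    intro x v hv
    obtain ⟨W, hW, c, hc, C, hC⟩ := H x _ (mem_chart_target E x)
    obtain ⟨B, hB⟩ := exists_inv (E := E) x
    have h0 : B v ≠ 0 := fun e => hv (by rw [← hB v, e, map_zero])
    have h1 : c * ‖B v‖ ^ 2 ≤ b x v v := by
      refine ge_of_tendsto (hev x v v) ?_
      filter_upwards [hC] with i hi
      have h2 := (hi _ (mem_of_mem_nhds hW)).2 (B v)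
      rw [← coef_self (h i).inner x hB]
      exact h2
    have h2 : 0 < ‖B v‖ := norm_pos_iff.2 h0
    exact lt_of_lt_of_le (by positivity) h1
  have hsm : ∀ x₀, ContDiffOn ℝ ∞ (coef E b x₀) (chartAt E x₀).target := by
    intro x₀ y hy
    obtain ⟨W, hW, hyW, h1, -⟩ := loc2 x₀ y hy
    exact (h1.contDiffAt (hW.mem_nhds hyW)).contDiffWithinAt
  refine ⟨⟨b, hsymm, hpos, hsm⟩, ?_⟩
  rw [nhds_iInf, tendsto_iInf]
  intro x₀
  rw [nhds_iInf, tendsto_iInf]
  intro k
  rw [nhds_induced, tendsto_comap_iff, UniformOnFun.tendsto_iff_tendstoUniformlyOn]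
  rintro K ⟨hK1, hK2⟩
  have : ProperSpace E := FiniteDimensional.proper ℝ E
  rw [← tendstoLocallyUniformlyOn_iff_tendstoUniformlyOn_of_compact hK1]
  intro u hu y hy
  obtain ⟨W, hW, hyW, -, h2⟩ := loc2 x₀ y (hK2 hy)
  obtain ⟨K', hK'1, hK'2, hK'3⟩ := local_compact_nhds (hW.mem_nhds hyW)
  exact ⟨K', mem_nhdsWithin_of_mem_nhds hK'1, h2 k K' hK'2 hK'3 u hu⟩

end Pool.Agent.Lib.MP_1a4aff_gt.I3
end
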