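import Pool.Agent.Lib.MP_1a4aff_gt.I3.Stm
import Pool.Agent.Lib.MP_1a4aff_gt.I3.UBc
import Pool.Agent.Lib.MP_1a4aff_gt.I3.Lim

-- part Pool.Agent.Lib.MP_1a4aff_gt.I3.Basic
section

/-! Common lemmas. -/

set_option autoImplicit false

open MeasureTheory Set Filter Topology Metric
open scoped ContDiff RealInnerProductSpace ENNReal

namespace Pool.Agent.Lib.MP_1a4aff_gt.I3

variable {n : ℕ}

/-! ### linear algebra in `E3` -/

@[simp] theorem ee_apply (i j : Fin 3) : ee i j = if j = i then 1 else 0 := by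
  simp [ee, PiLp.single_apply]

theorem inner_E3 (x y : E3) : ⟪x, y⟫ = x 0 * y 0 + x 1 * y 1 + x 2 * y 2 := by
  simp [PiLp.inner_apply, Fin.sum_univ_three]; ring

theorem inner_ee (x : E3) (i : Fin 3) : ⟪x, ee i⟫ = x i := by
  fin_cases i <;> simp [inner_E3]

theorem ee_inner (x : E3) (i : Fin 3) : ⟪ee i, x⟫ = x i := by
  rw [real_inner_comm, inner_ee]

@[simp] theorem norm_ee (i : Fin 3) : ‖ee i‖ = 1 := by simp [ee]

theorem normSq_E3 (x : E3) : ‖x‖ ^ 2 = x 0 ^ 2 + x 1 ^ 2 + x 2 ^ 2 := by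
  rw [← real_inner_self_eq_norm_sq, inner_E3]; ring

theorem abs_apply_le (x : E3) (i : Fin 3) : |x i| ≤ ‖x‖ := by
  simpa using PiLp.norm_apply_le x i

theorem sum_ee (x : E3) : ∑ c, x c • ee c = x := by
  ext i; fin_cases i <;> simp [Fin.sum_univ_three]

theorem clm_sum_ee {V : Type*} [NormedAddCommGroup V] [NormedSpace ℝ V] (A : E3 →L[ℝ] V)
    (x : E3) : A x = ∑ c, x c • A (ee c) := by
  conv_lhs => rw [← sum_ee x]
  simp [map_sum]

theorem lin_sum_ee {f : E3 → ℝ} (hf : IsLinearMap ℝ f) (x : E3) :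
    f x = ∑ c, x c * f (ee c) := by
  conv_lhs => rw [← sum_ee x]
  simp only [Fin.sum_univ_three, hf.map_add, hf.map_smul, smul_eq_mul]

theorem clm_ext_ee {V : Type*} [NormedAddCommGroup V] [NormedSpace ℝ V] {A B : E3 →L[ℝ] V}
    (h : ∀ c, A (ee c) = B (ee c)) : A = B := by
  ext1 x; rw [clm_sum_ee A, clm_sum_ee B]; simp [h]

theorem E3_ext {a b : E3} (h0 : a 0 = b 0) (h1 : a 1 = b 1) (h2 : a 2 = b 2) : a = b := by
  ext i; fin_cases i <;> assumption

@[simp] theorem cr_self (a : E3) : cr a a = 0 := E3_ext (by simp; ring) (by simp; ring) (by simp; ring)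

theorem cr_comm (a b : E3) : cr a b = -cr b a :=
  E3_ext (by simp; ring) (by simp; ring) (by simp; ring)

theorem inner_cr_right (a b : E3) : ⟪cr a b, b⟫ = 0 := by simp [inner_E3]; ring

theorem inner_cr_left (a b : E3) : ⟪cr a b, a⟫ = 0 := by simp [inner_E3]; ring

theorem inner_cr_skew (a x y : E3) : ⟪cr a x, y⟫ = -⟪x, cr a y⟫ := by simp [inner_E3]; ring

theorem cr_cr_sub (a b x : E3) : cr a (cr b x) - cr b (cr a x) = cr (cr a b) x :=
  E3_ext (by simp; ring) (by simp; ring) (by simp; ring)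

theorem norm_cr_le (a b : E3) : ‖cr a b‖ ≤ ‖a‖ * ‖b‖ := by
  have h : ‖cr a b‖ ^ 2 ≤ (‖a‖ * ‖b‖) ^ 2 := by
    rw [mul_pow, normSq_E3, normSq_E3, normSq_E3]; simp
    nlinarith [sq_nonneg (a 0 * b 0 + a 1 * b 1 + a 2 * b 2)]
  exact le_of_sq_le_sq h (by positivity) |>.trans le_rfl
where le_of_sq_le_sq {x y : ℝ} (h : x ^ 2 ≤ y ^ 2) (hy : 0 ≤ y) : x ≤ y := abs_le_of_sq_le_sq' h hy |>.2

theorem opNorm_cr_le (a : E3) : ‖cr a‖ ≤ ‖a‖ :=
  ContinuousLinearMap.opNorm_le_bound _ (norm_nonneg _) (norm_cr_le a)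

theorem cr_inj {a b : E3} (h : cr a = cr b) : a = b := by
  have h0 := congrArg (fun A : E3 →L[ℝ] E3 => A (ee 1) 2) h
  have h1 := congrArg (fun A : E3 →L[ℝ] E3 => A (ee 2) 0) h
  have h2 := congrArg (fun A : E3 →L[ℝ] E3 => A (ee 0) 1) h
  simp at h0 h1 h2
  exact E3_ext h0 h1 h2

/-- a skew map is a cross product -/
theorem exists_cr_of_skew {A : E3 →L[ℝ] E3} (h : ∀ x y, ⟪A x, y⟫ = -⟪x, A y⟫) :
    ∃ β, A = cr β := by
  refine ⟨WithLp.toLp 2 ![A (ee 1) 2, A (ee 2) 0, A (ee 0) 1], clm_ext_ee fun c => ?_⟩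
  have e : ∀ i j, A (ee i) j = -A (ee j) i := fun i j => by
    simpa [inner_ee, ee_inner] using h (ee i) (ee j)
  have e0 := e 0 0; have e1 := e 1 1; have e2 := e 2 2
  have e01 := e 0 1; have e02 := e 0 2; have e12 := e 1 2
  fin_cases c <;> refine E3_ext ?_ ?_ ?_ <;> simp <;> linarith

theorem orth_id : Orth (ContinuousLinearMap.id ℝ E3) := fun _ _ => rfl

theorem Orth.comp {Q R : E3 →L[ℝ] E3} (hQ : Orth Q) (hR : Orth R) : Orth (Q ∘L R) :=
  fun x y => by simp [hQ _ _, hR _ _]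

theorem Orth.norm_map {Q : E3 →L[ℝ] E3} (hQ : Orth Q) (x : E3) : ‖Q x‖ = ‖x‖ := by
  have := hQ x x
  rw [real_inner_self_eq_norm_sq, real_inner_self_eq_norm_sq] at this
  exact (pow_left_inj₀ (norm_nonneg _) (norm_nonneg _) two_ne_zero).1 this

theorem Orth.opNorm_le {Q : E3 →L[ℝ] E3} (hQ : Orth Q) : ‖Q‖ ≤ 1 :=
  ContinuousLinearMap.opNorm_le_bound _ zero_le_one fun x => by simp [hQ.norm_map]

theorem Orth.adj_apply {Q : E3 →L[ℝ] E3} (hQ : Orth Q) (x : E3) : Q.adjoint (Q x) = x :=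
  ext_inner_right ℝ fun y => by rw [ContinuousLinearMap.adjoint_inner_left, hQ]

theorem Orth.apply_adj {Q : E3 →L[ℝ] E3} (hQ : Orth Q) (x : E3) : Q (Q.adjoint x) = x := by
  have hi : Function.Injective Q := fun a b h => by rw [← hQ.adj_apply a, h, hQ.adj_apply]
  obtain ⟨y, rfl⟩ := (LinearMap.injective_iff_surjective (f := (Q : E3 →ₗ[ℝ] E3))).1 hi x
  exact congrArg Q (hQ.adj_apply y)

theorem Orth.adj {Q : E3 →L[ℝ] E3} (hQ : Orth Q) : Orth Q.adjoint := fun x y => by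
  rw [ContinuousLinearMap.adjoint_inner_left, hQ.apply_adj]

/-- sums of products over the basis are invariant -/
theorem Orth.sum_mul {Q : E3 →L[ℝ] E3} (hQ : Orth Q) {f h : E3 → ℝ} (hf : IsLinearMap ℝ f)
    (hh : IsLinearMap ℝ h) : ∑ c, f (Q (ee c)) * h (Q (ee c)) = ∑ c, f (ee c) * h (ee c) := by
  have e : ∀ a b, ∑ c, Q (ee c) a * Q (ee c) b = if a = b then 1 else 0 := fun a b => by
    have := hQ.adj (ee a) (ee b)
    rw [inner_E3, ee_inner] at this
    have e2 : ∀ a c, Q.adjoint (ee a) c = Q (ee c) a := fun a c => by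
      rw [← inner_ee, ContinuousLinearMap.adjoint_inner_left, ee_inner]
    simp only [e2] at this
    rw [Fin.sum_univ_three, this, ee_apply]
  have e00 := e 0 0; have e01 := e 0 1; have e02 := e 0 2; have e11 := e 1 1; have e12 := e 1 2
  have e22 := e 2 2
  simp only [Fin.sum_univ_three, lin_sum_ee hf (Q _), lin_sum_ee hh (Q _)] at *
  simp at e00 e01 e02 e11 e12 e22
  linear_combination (f (ee 0) * h (ee 0)) * e00 + (f (ee 1) * h (ee 1)) * e11 +
    (f (ee 2) * h (ee 2)) * e22 + (f (ee 0) * h (ee 1) + f (ee 1) * h (ee 0)) * e01 +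
    (f (ee 0) * h (ee 2) + f (ee 2) * h (ee 0)) * e02 +
    (f (ee 1) * h (ee 2) + f (ee 2) * h (ee 1)) * e12

/-- orthogonal maps respect the cross product up to a sign -/
theorem Orth.cr_map {Q : E3 →L[ℝ] E3} (hQ : Orth Q) :
    ∃ σ : ℝ, σ ^ 2 = 1 ∧ ∀ x y, cr (Q x) (Q y) = σ • Q (cr x y) := by
  set σ := ⟪cr (Q (ee 0)) (Q (ee 1)), Q (ee 2)⟫ with hσ
  have key : ∀ x y z, ⟪cr (Q x) (Q y), Q z⟫ = σ * ⟪cr x y, z⟫ := fun x y z => by
    rw [hσ, clm_sum_ee Q x, clm_sum_ee Q y, clm_sum_ee Q z]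
    simp [Fin.sum_univ_three, inner_E3]; ring
  have h2 : ∀ x y, cr (Q x) (Q y) = σ • Q (cr x y) := fun x y =>
    ext_inner_right ℝ fun w => by
      rw [← hQ.apply_adj w, key, inner_smul_left, hQ]; simp
  refine ⟨σ, ?_, h2⟩
  have h3 : ⟪cr (Q (ee 0)) (Q (ee 1)), cr (Q (ee 0)) (Q (ee 1))⟫ =
      ⟪Q (ee 0), Q (ee 0)⟫ * ⟪Q (ee 1), Q (ee 1)⟫ - ⟪Q (ee 0), Q (ee 1)⟫ ^ 2 := by
    simp only [inner_E3, cr0, cr1, cr2]; ring
  rw [hQ, hQ, hQ, h2, inner_smul_left, inner_smul_right, hQ] at h3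
  simp only [inner_E3, cr0, cr1, cr2] at h3
  simp at h3
  nlinarith

/-- a curve of rotations with velocity `cr β` (Cayley transform) -/
theorem exists_rot_curve (β : E3) : ∃ R : ℝ → E3 →L[ℝ] E3, ContDiff ℝ ∞ R ∧
    R 0 = ContinuousLinearMap.id ℝ E3 ∧ (∀ t, Orth (R t)) ∧ HasDerivAt R (cr β) 0 := by
  have hp : ∀ t : ℝ, 4 + t ^ 2 * ‖β‖ ^ 2 ≠ 0 := fun t => by positivity
  have h1 : ContDiff ℝ ∞ fun t : ℝ => 4 * t / (4 + t ^ 2 * ‖β‖ ^ 2) :=
    ContDiff.div (by fun_prop) (by fun_prop) hp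
  have h2 : ContDiff ℝ ∞ fun t : ℝ => 2 * t ^ 2 / (4 + t ^ 2 * ‖β‖ ^ 2) :=
    ContDiff.div (by fun_prop) (by fun_prop) hp
  refine ⟨fun t => ContinuousLinearMap.id ℝ E3 + (4 * t / (4 + t ^ 2 * ‖β‖ ^ 2)) • cr β +
    (2 * t ^ 2 / (4 + t ^ 2 * ‖β‖ ^ 2)) • (cr β ∘L cr β),
    (contDiff_const.add (h1.smul contDiff_const)).add (h2.smul contDiff_const), by ext1 x; simp,
    fun t x y => ?_, ?_⟩
  · have := hp t
    rw [normSq_E3] at this
    simp [inner_E3, normSq_E3]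
    field_simp
    ring
  · have d1 : HasDerivAt (fun t : ℝ => 4 * t / (4 + t ^ 2 * ‖β‖ ^ 2)) 1 0 := by
      have := ((hasDerivAt_id (0 : ℝ)).const_mul 4).div
        (((hasDerivAt_pow 2 (0 : ℝ)).mul_const (‖β‖ ^ 2)).const_add 4) (hp 0)
      exact this.congr_deriv (by norm_num)
    have d2 : HasDerivAt (fun t : ℝ => 2 * t ^ 2 / (4 + t ^ 2 * ‖β‖ ^ 2)) 0 0 := by
      have := ((hasDerivAt_pow 2 (0 : ℝ)).const_mul 2).div
        (((hasDerivAt_pow 2 (0 : ℝ)).mul_const (‖β‖ ^ 2)).const_add 4) (hp 0)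
      exact this.congr_deriv (by norm_num)
    have := ((d1.smul_const (cr β)).const_add (ContinuousLinearMap.id ℝ E3)).add
      (d2.smul_const (cr β ∘L cr β))
    exact this.congr_deriv (by ext1 x; simp)

/-! ### frames -/

/-- `rot Q` as a continuous linear map -/
noncomputable def rotL (n : ℕ) (Q : E3 →L[ℝ] E3) : Fr n →L[ℝ] Fr n :=
  (ContinuousLinearMap.fst ℝ _ _).prod
    (((ContinuousLinearMap.compL ℝ E3 E3 (Amb n)).flip Q) ∘L ContinuousLinearMap.snd ℝ _ _)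

@[simp] theorem rotL_apply (Q : E3 →L[ℝ] E3) (u : Fr n) : rotL n Q u = rot Q u := rfl

@[simp] theorem rot_fst (Q : E3 →L[ℝ] E3) (u : Fr n) : (rot Q u).1 = u.1 := rfl
@[simp] theorem rot_snd (Q : E3 →L[ℝ] E3) (u : Fr n) : (rot Q u).2 = u.2 ∘L Q := rfl
@[simp] theorem vert_fst (β : E3) (u : Fr n) : (vert β u).1 = 0 := rfl
@[simp] theorem vert_snd (β : E3) (u : Fr n) : (vert β u).2 = u.2 ∘L cr β := rfl
@[simp] theorem rot_id (u : Fr n) : rot (ContinuousLinearMap.id ℝ E3) u = u := rfl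

theorem rot_rot (Q R : E3 →L[ℝ] E3) (u : Fr n) : rot Q (rot R u) = rot (R ∘L Q) u := rfl

theorem hasFDerivAt_rot (Q : E3 →L[ℝ] E3) (u : Fr n) : HasFDerivAt (rot Q) (rotL n Q) u :=
  (rotL n Q).hasFDerivAt

theorem contDiff_rot (Q : E3 →L[ℝ] E3) : ContDiff ℝ ∞ (rot Q : Fr n → Fr n) :=
  (rotL n Q).contDiff

theorem contDiff_rot₂ : ContDiff ℝ ∞ fun z : (E3 →L[ℝ] E3) × Fr n => rot z.1 z.2 :=
  (contDiff_fst.comp contDiff_snd).prodMk ((contDiff_snd.comp contDiff_snd).clm_comp contDiff_fst)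

theorem contDiff_vert₂ : ContDiff ℝ ∞ fun z : E3 × Fr n => vert z.1 z.2 :=
  contDiff_const.prodMk ((contDiff_snd.comp contDiff_snd).clm_comp (cr.contDiff.comp contDiff_fst))

/-- `β ↦ vert β u` as a continuous linear map -/
noncomputable def vertL (u : Fr n) : E3 →L[ℝ] Fr n :=
  (0 : E3 →L[ℝ] Amb n).prod ((ContinuousLinearMap.compL ℝ E3 E3 (Amb n) u.2) ∘L cr)

@[simp] theorem vertL_apply (u : Fr n) (β : E3) : vertL u β = vert β u := rfl

@[simp] theorem vert_zero (u : Fr n) : vert 0 u = 0 := (vertL u).map_zero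

theorem hasDerivAt_rot_curve {R : ℝ → E3 →L[ℝ] E3} {β : E3} (hR : HasDerivAt R (cr β) 0)
    (u : Fr n) : HasDerivAt (fun t => rot (R t) u) (vert β u) 0 :=
  (hasDerivAt_const _ _).prodMk
    ((ContinuousLinearMap.compL ℝ E3 E3 (Amb n) u.2).hasFDerivAt.comp_hasDerivAt 0 hR)

theorem Data.rot_mem (D : Data n) {u : Fr n} (hu : u ∈ D.F) {Q : E3 →L[ℝ] E3} (hQ : Orth Q) :
    rot Q u ∈ D.F :=
  ⟨hu.1, fun x => hu.2.1 (Q x), fun x y => (hu.2.2 (Q x) (Q y)).trans (hQ x y)⟩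

theorem Data.frame_inj (D : Data n) {u : Fr n} (hu : u ∈ D.F) : Function.Injective u.2 := by
  refine (injective_iff_map_eq_zero _).2 fun x hx => ?_
  have := hu.2.2 x x
  rw [hx, map_zero] at this
  exact inner_self_eq_zero.1 this.symm

/-! ### tangent cones -/

section
variable {E V : Type*} [NormedAddCommGroup E] [NormedSpace ℝ E] [NormedAddCommGroup V]
  [NormedSpace ℝ V]

theorem tangentCone_of_pos {s : Set E} {x y : E} (h : y ∈ posTangentConeAt s x) :
    y ∈ tangentConeAt ℝ s x := tangentConeAt_mono_field h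

/-- functions that agree on a set have the same derivative along its tangent cone -/
theorem fderiv_eq_of_eqOn {s : Set E} {x y : E} {f g : E → V} (hx : x ∈ s)
    (hy : y ∈ tangentConeAt ℝ s x) (hf : DifferentiableAt ℝ f x) (hg : DifferentiableAt ℝ g x)
    (h : EqOn f g s) : fderiv ℝ f x y = fderiv ℝ g x y :=
  HasFDerivWithinAt.unique_on (hf.hasFDerivAt.hasFDerivWithinAt (s := s))
    ((hg.hasFDerivAt.hasFDerivWithinAt (s := s)).congr h (h hx)) hy

/-- the same for functions that agree near the point -/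
theorem fderiv_eq_of_eventuallyEq {s : Set E} {x y : E} {f g : E → V} (hx : x ∈ s)
    (hy : y ∈ tangentConeAt ℝ s x) (hf : DifferentiableAt ℝ f x) (hg : DifferentiableAt ℝ g x)
    (h : f =ᶠ[𝓝[s] x] g) : fderiv ℝ f x y = fderiv ℝ g x y :=
  HasFDerivWithinAt.unique_on (hf.hasFDerivAt.hasFDerivWithinAt (s := s))
    ((hg.hasFDerivAt.hasFDerivWithinAt (s := s)).congr_of_eventuallyEq h
      (h.eq_of_nhdsWithin hx)) hy

/-- velocities of curves in a set lie in its positive tangent cone -/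
theorem mem_posTangentCone_of_curve {s : Set E} {γ : ℝ → E} {Y : E} (hγ : HasDerivAt γ Y 0)
    (hs : ∀ᶠ t in 𝓝 0, γ t ∈ s) : Y ∈ posTangentConeAt s (γ 0) := by
  have h1 := hγ.tendsto_slope_zero_right
  refine mem_tangentConeAt_of_seq (𝓝[>] (0 : ℝ)) (fun t => Real.toNNReal t⁻¹)
    (fun t => γ t - γ 0) ?_ ?_ ?_
  · have : Tendsto (fun t => γ t - γ 0) (𝓝 0) (𝓝 (γ 0 - γ 0)) :=
      hγ.continuousAt.tendsto.sub_const _
    rw [sub_self] at this
    exact this.mono_left nhdsWithin_le_nhds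
  · exact (hs.filter_mono nhdsWithin_le_nhds).mono fun t ht => by simpa using ht
  · refine h1.congr' ?_
    filter_upwards [self_mem_nhdsWithin] with t ht
    have : 0 ≤ t⁻¹ := inv_nonneg.2 (le_of_lt ht)
    simp [NNReal.smul_def, this]

theorem mem_tangentCone_of_curve {s : Set E} {γ : ℝ → E} {Y : E} (hγ : HasDerivAt γ Y 0)
    (hs : ∀ᶠ t in 𝓝 0, γ t ∈ s) : Y ∈ tangentConeAt ℝ s (γ 0) :=
  tangentCone_of_pos (mem_posTangentCone_of_curve hγ hs)

/-- derivatives of maps into a set lie in its tangent cone -/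
theorem fderiv_mem_tangentCone {s : Set V} {f : E → V} {x : E} (hf : DifferentiableAt ℝ f x)
    (hs : ∀ᶠ y in 𝓝 x, f y ∈ s) (w : E) : fderiv ℝ f x w ∈ tangentConeAt ℝ s (f x) := by
  have h1 : HasDerivAt (fun t : ℝ => x + t • w) w 0 := by
    simpa using ((hasDerivAt_id (0 : ℝ)).smul_const w).const_add x
  have h2 : HasDerivAt (fun t : ℝ => f (x + t • w)) (fderiv ℝ f x w) 0 :=
    HasFDerivAt.comp_hasDerivAt_of_eq 0 hf.hasFDerivAt h1 (by simp)
  have h3 : Tendsto (fun t : ℝ => x + t • w) (𝓝 0) (𝓝 x) := by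
    simpa using h1.continuousAt.tendsto
  simpa using mem_tangentCone_of_curve h2 (h3.eventually hs)

end

namespace Con

variable (C : Con n)

theorem H_mem {u : Fr n} (hu : u ∈ C.F) (x : E3) : C.H u x ∈ tangentConeAt ℝ C.F u :=
  tangentCone_of_pos (C.H_tan u hu x)

theorem vert_mem {u : Fr n} (hu : u ∈ C.F) (β : E3) : vert β u ∈ tangentConeAt ℝ C.F u := by
  obtain ⟨R, -, h0, hO, hR⟩ := exists_rot_curve β
  have := mem_tangentCone_of_curve (hasDerivAt_rot_curve hR u)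
    (Eventually.of_forall fun t => C.rot_mem hu (hO t))
  rwa [h0] at this

theorem Th_H {u : Fr n} (hu : u ∈ C.F) (x : E3) : C.Th u (C.H u x) = x := by
  simpa using C.Th_eq u hu x 0

theorem Om_H {u : Fr n} (hu : u ∈ C.F) (x : E3) : C.Om u (C.H u x) = 0 := by
  simpa using C.Om_eq u hu x 0

theorem Th_vert {u : Fr n} (hu : u ∈ C.F) (β : E3) : C.Th u (vert β u) = 0 := by
  simpa using C.Th_eq u hu 0 β

theorem Om_vert {u : Fr n} (hu : u ∈ C.F) (β : E3) : C.Om u (vert β u) = β := by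
  simpa using C.Om_eq u hu 0 β

theorem contDiff_H (x : E3) : ContDiff ℝ ∞ fun w => C.H w x := C.smH.clm_apply contDiff_const

/-- vertical derivative of the horizontal fields -/
theorem fderiv_H_vert (u : Fr n) (b c : E3) :
    fderiv ℝ (fun w => C.H w c) u (vert b u) = vert b (C.H u c) + C.H u (cr b c) := by
  obtain ⟨R, -, h0, hO, hR⟩ := exists_rot_curve b
  have h1 : HasDerivAt (fun t => C.H (rot (R t) u) c)
      (fderiv ℝ (fun w => C.H w c) u (vert b u)) 0 :=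
    HasFDerivAt.comp_hasDerivAt_of_eq 0
      ((C.contDiff_H c).differentiable (by simp) u).hasFDerivAt (hasDerivAt_rot_curve hR u)
      (by rw [h0]; rfl)
  have h2 : HasDerivAt (fun t => C.H u (R t c)) (C.H u (cr b c)) 0 :=
    (C.H u).hasFDerivAt.comp_hasDerivAt 0 (by simpa using hR.clm_apply (hasDerivAt_const 0 c))
  have h3 : HasDerivAt (fun t => rot (R t) (C.H u (R t c)))
      (vert b (C.H u c) + C.H u (cr b c)) 0 := by
    refine HasDerivAt.prodMk ?_ ?_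
    · exact ((ContinuousLinearMap.fst ℝ (Amb n) (E3 →L[ℝ] Amb n)).hasFDerivAt.comp_hasDerivAt 0
        h2).congr_deriv (zero_add _).symm
    · have h4 : HasDerivAt (fun t => (C.H u (R t c)).2) (C.H u (cr b c)).2 0 :=
        (ContinuousLinearMap.snd ℝ (Amb n) (E3 →L[ℝ] Amb n)).hasFDerivAt.comp_hasDerivAt 0 h2
      refine (h4.clm_comp hR).congr_deriv ?_
      rw [h0, add_comm]; rfl
  simp only [C.H_rot _ (hO _)] at h1
  exact h1.unique h3

theorem contDiff_HD (x : E3) {f : Fr n → ℝ} (hf : ContDiff ℝ ∞ f) : ContDiff ℝ ∞ (C.HD x f) :=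
  (hf.fderiv_right (m := ∞) (by simp)).clm_apply (C.contDiff_H x)

theorem HD_congr {u : Fr n} (hu : u ∈ C.F) (x : E3) {f g : Fr n → ℝ} (hf : ContDiff ℝ ∞ f)
    (hg : ContDiff ℝ ∞ g) (h : EqOn f g C.F) : C.HD x f u = C.HD x g u :=
  fderiv_eq_of_eqOn hu (C.H_mem hu x) (hf.differentiable (by simp) u)
    (hg.differentiable (by simp) u) h

theorem HD_add (x : E3) {f g : Fr n → ℝ} (hf : ContDiff ℝ ∞ f) (hg : ContDiff ℝ ∞ g) (u : Fr n) :
    C.HD x (fun w => f w + g w) u = C.HD x f u + C.HD x g u := by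
  simp [HD, fderiv_fun_add (hf.differentiable (by simp) u) (hg.differentiable (by simp) u)]

theorem HD_mul (x : E3) {f g : Fr n → ℝ} (hf : ContDiff ℝ ∞ f) (hg : ContDiff ℝ ∞ g) (u : Fr n) :
    C.HD x (fun w => f w * g w) u = f u * C.HD x g u + C.HD x f u * g u := by
  simp [HD, fderiv_fun_mul (hf.differentiable (by simp) u) (hg.differentiable (by simp) u)]
  ring

theorem HD_const_mul (x : E3) (c : ℝ) {f : Fr n → ℝ} (hf : ContDiff ℝ ∞ f) (u : Fr n) :
    C.HD x (fun w => c * f w) u = c * C.HD x f u := by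
  simp [HD, fderiv_const_mul (hf.differentiable (by simp) u)]

theorem HD_sum {κ : Type*} (s : Finset κ) (x : E3) {f : κ → Fr n → ℝ}
    (hf : ∀ a ∈ s, ContDiff ℝ ∞ (f a)) (u : Fr n) :
    C.HD x (fun w => ∑ a ∈ s, f a w) u = ∑ a ∈ s, C.HD x (f a) u := by
  simp [HD, fderiv_fun_sum fun a ha => (hf a ha).differentiable (by simp) u]

theorem HD_lin (f : Fr n → ℝ) (u : Fr n) : IsLinearMap ℝ fun x => C.HD x f u :=
  ⟨fun x y => by simp [HD], fun c x => by simp [HD]⟩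

theorem contDiff_TV : ∀ (xs : List E3) (y z : E3), ContDiff ℝ ∞ (C.TV xs y z)
  | [], _, _ => (C.smN.clm_apply contDiff_const).inner ℝ contDiff_const
  | x :: xs, y, z => C.contDiff_HD x (contDiff_TV xs y z)

theorem contDiff_T (I : List (Fin 3)) (a b : Fin 3) : ContDiff ℝ ∞ (C.T I a b) :=
  C.contDiff_TV _ _ _

theorem T_cons (c : Fin 3) (I : List (Fin 3)) (a b : Fin 3) :
    C.T (c :: I) a b = C.HD (ee c) (C.T I a b) := rfl

theorem HD_lin_of {F : E3 → Fr n → ℝ} (hF : ∀ a, ContDiff ℝ ∞ (F a))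
    (h : ∀ u, IsLinearMap ℝ fun a => F a u) (x : E3) (u : Fr n) :
    IsLinearMap ℝ fun a => C.HD x (F a) u := by
  refine ⟨fun a b => ?_, fun c a => ?_⟩
  · rw [← C.HD_add x (hF a) (hF b)]
    congr 1; funext w; exact (h w).map_add a b
  · rw [smul_eq_mul, ← C.HD_const_mul x c (hF a)]
    congr 1; funext w; exact (h w).map_smul c a

theorem TV_lin_y : ∀ (xs : List E3) (z : E3) (u : Fr n), IsLinearMap ℝ fun y => C.TV xs y z u
  | [], _, _ => ⟨fun a b => by simp [TV, inner_add_left], fun c a => by simp [TV, inner_smul_left]⟩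
  | x :: xs, z, u => C.HD_lin_of (fun a => C.contDiff_TV xs a z) (TV_lin_y xs z) x u

theorem TV_lin_z : ∀ (xs : List E3) (y : E3) (u : Fr n), IsLinearMap ℝ fun z => C.TV xs y z u
  | [], _, _ =>
    ⟨fun a b => by simp [TV, inner_add_right], fun c a => by simp [TV, inner_smul_right]⟩
  | x :: xs, y, u => C.HD_lin_of (fun a => C.contDiff_TV xs y a) (TV_lin_z xs y) x u

theorem TV_lin : ∀ (xs ys : List E3) (y z : E3) (u : Fr n),
    IsLinearMap ℝ fun x => C.TV (xs ++ x :: ys) y z u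
  | [], _, _, _, u => C.HD_lin _ u
  | x :: xs, ys, y, z, u =>
    C.HD_lin_of (fun a => C.contDiff_TV (xs ++ a :: ys) y z) (TV_lin xs ys y z) x u

theorem contDiff_nd (m : ℕ) : ContDiff ℝ ∞ (C.nd m) :=
  ContDiff.sum fun _ _ => ContDiff.sum fun _ _ => ContDiff.sum fun _ _ =>
    (C.contDiff_T _ _ _).pow 2

theorem contDiff_td (m : ℕ) : ContDiff ℝ ∞ (C.td m) :=
  ContDiff.sum fun _ _ => (ContDiff.sum fun _ _ => C.contDiff_T _ _ _).pow 2

theorem nd_nonneg (m : ℕ) (u : Fr n) : 0 ≤ C.nd m u := by unfold nd; positivity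

theorem td_nonneg (m : ℕ) (u : Fr n) : 0 ≤ C.td m u := by unfold td; positivity

theorem T_sq_le_nd (I : List (Fin 3)) (a b : Fin 3) (u : Fr n) :
    C.T I a b u ^ 2 ≤ C.nd I.length u := by
  have h1 : C.T I a b u ^ 2 ≤ ∑ a, ∑ b, C.T (List.ofFn I.get) a b u ^ 2 := by
    rw [List.ofFn_get]
    exact (Finset.single_le_sum (f := fun b => C.T I a b u ^ 2) (fun _ _ => by positivity)
      (Finset.mem_univ b)).trans (Finset.single_le_sum (f := fun a => ∑ b, C.T I a b u ^ 2)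
        (fun _ _ => by positivity) (Finset.mem_univ a))
  exact h1.trans (Finset.single_le_sum
    (f := fun J : Fin I.length → Fin 3 => ∑ a, ∑ b, C.T (List.ofFn J) a b u ^ 2)
    (fun _ _ => by positivity) (Finset.mem_univ I.get))

theorem contDiff_mon : ∀ M : Mon, ContDiff ℝ ∞ (C.mon M)
  | [] => contDiff_const (c := 1)
  | f :: M => (C.contDiff_T f.1 f.2.1 f.2.2).mul (contDiff_mon M)

variable {C}

theorem Bd.mono {J J' : ℕ} {B B' : ℝ} (h : C.Bd J B) (hJ : J' ≤ J) (hB : B ≤ B') : C.Bd J' B' :=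
  fun u hu I hI a b => (h u hu I (hI.trans hJ) a b).trans hB

theorem Bd.norm_N {B : ℝ} {J : ℕ} (h : C.Bd J B) {u : Fr n} (hu : u ∈ C.F) :
    ‖C.N u‖ ≤ 3 * B := by
  have e : ∀ a b, |C.N u (ee a) b| ≤ B := fun a b => by
    simpa [T, TV, inner_ee] using h u hu [] (Nat.zero_le _) a b
  have hB : 0 ≤ B := (abs_nonneg _).trans (e 0 0)
  refine ContinuousLinearMap.opNorm_le_bound _ (by positivity) fun x => ?_
  refine abs_le_of_sq_le_sq' ?_ (by positivity) |>.2
  have r : ∀ b, C.N u x b ^ 2 ≤ 3 * B ^ 2 * ‖x‖ ^ 2 := fun b => by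
    have : C.N u x b = x 0 * C.N u (ee 0) b + x 1 * C.N u (ee 1) b + x 2 * C.N u (ee 2) b := by
      rw [clm_sum_ee]; simp [Fin.sum_univ_three]
    rw [this, normSq_E3]
    have h0 := sq_le_sq' (abs_le.1 (e 0 b)).1 (abs_le.1 (e 0 b)).2
    have h1 := sq_le_sq' (abs_le.1 (e 1 b)).1 (abs_le.1 (e 1 b)).2
    have h2 := sq_le_sq' (abs_le.1 (e 2 b)).1 (abs_le.1 (e 2 b)).2
    have cs : (x 0 * C.N u (ee 0) b + x 1 * C.N u (ee 1) b + x 2 * C.N u (ee 2) b) ^ 2 ≤
        (x 0 ^ 2 + x 1 ^ 2 + x 2 ^ 2) *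
          (C.N u (ee 0) b ^ 2 + C.N u (ee 1) b ^ 2 + C.N u (ee 2) b ^ 2) := by
      nlinarith [sq_nonneg (x 0 * C.N u (ee 1) b - x 1 * C.N u (ee 0) b),
        sq_nonneg (x 0 * C.N u (ee 2) b - x 2 * C.N u (ee 0) b),
        sq_nonneg (x 1 * C.N u (ee 2) b - x 2 * C.N u (ee 1) b)]
    refine cs.trans ?_
    rw [mul_comm]
    exact mul_le_mul_of_nonneg_right (by linarith) (by positivity)
  rw [normSq_E3]
  nlinarith [r 0, r 1, r 2]

end Con

namespace Flo

variable (X : Flo n)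

theorem contDiff_Ex (u : Fr n) : ContDiff ℝ ∞ (X.Ex u) :=
  X.smEx.comp (contDiff_const.prodMk contDiff_id)

theorem contDiff_Ex_left (v : E3) : ContDiff ℝ ∞ fun u => X.Ex u v :=
  X.smEx.comp (contDiff_id.prodMk contDiff_const)

theorem contDiff_ex₂ : ContDiff ℝ ∞ fun z : Fr n × E3 => X.ex z.1 z.2 := contDiff_fst.comp X.smEx

theorem contDiff_ex (u : Fr n) : ContDiff ℝ ∞ (X.ex u) := contDiff_fst.comp (X.contDiff_Ex u)

theorem ex_mem {u : Fr n} (hu : u ∈ X.F) (v : E3) : X.ex u v ∈ X.S := (X.Ex_mem u hu v).1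

@[simp] theorem ex_zero (u : Fr n) : X.ex u 0 = u.1 := by simp [ex, X.Ex_zero]

theorem contDiff_fderiv_Ex₂ : ContDiff ℝ ∞ fun z : Fr n × E3 => fderiv ℝ (X.Ex z.1) z.2 :=
  ContDiff.fderiv (f := fun z : Fr n × E3 => X.Ex z.1) (n := ∞)
    (X.smEx.comp ((contDiff_fst.comp contDiff_fst).prodMk contDiff_snd)) contDiff_snd (by simp)

theorem contDiff_th₂ : ContDiff ℝ ∞ fun z : Fr n × E3 => X.th z.1 z.2 :=
  (X.smTh.comp X.smEx).clm_comp X.contDiff_fderiv_Ex₂

theorem contDiff_om₂ : ContDiff ℝ ∞ fun z : Fr n × E3 => X.om z.1 z.2 :=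
  (X.smOm.comp X.smEx).clm_comp X.contDiff_fderiv_Ex₂

theorem contDiff_th (u : Fr n) : ContDiff ℝ ∞ (X.th u) :=
  X.contDiff_th₂.comp (contDiff_const.prodMk contDiff_id)

theorem contDiff_om (u : Fr n) : ContDiff ℝ ∞ (X.om u) :=
  X.contDiff_om₂.comp (contDiff_const.prodMk contDiff_id)

theorem contDiff_thM₂ (a i : Fin 3) : ContDiff ℝ ∞ fun z : Fr n × E3 => X.thM z.1 z.2 a i := by
  have h : ContDiff ℝ ∞ fun z : Fr n × E3 => X.th z.1 z.2 (ee i) :=
    X.contDiff_th₂.clm_apply contDiff_const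
  exact contDiff_euclidean.1 h a

theorem contDiff_den₂ : ContDiff ℝ ∞ fun z : Fr n × E3 => X.den z.1 z.2 := by
  simp only [den, Matrix.det_fin_three]
  have h := X.contDiff_thM₂
  exact ((((((h 0 0).mul (h 1 1)).mul (h 2 2)).sub (((h 0 0).mul (h 1 2)).mul (h 2 1))).sub
    (((h 0 1).mul (h 1 0)).mul (h 2 2))).add (((h 0 1).mul (h 1 2)).mul (h 2 0))).add
    (((h 0 2).mul (h 1 0)).mul (h 2 1)) |>.sub (((h 0 2).mul (h 1 1)).mul (h 2 0))

theorem contDiff_den (u : Fr n) : ContDiff ℝ ∞ (X.den u) := by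
  have h : ContDiff ℝ ∞ fun v : E3 => (u, v) := contDiff_const.prodMk contDiff_id
  simpa only [Function.comp_def] using X.contDiff_den₂.comp h

theorem den_eq_det (u : Fr n) (v : E3) : X.den u v = (X.th u v).det := by
  rw [den, ContinuousLinearMap.det, ← LinearMap.det_toMatrix (EuclideanSpace.basisFun _ ℝ).toBasis]
  congr 1

theorem Inj.mono {X : Flo n} {ρ ρ' : ℝ} (h : X.Inj ρ) (hρ : ρ' ≤ ρ) : X.Inj ρ' :=
  fun u hu => (h u hu).mono (ball_subset_ball hρ)

end Flo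

/-! ### measures -/

theorem IsLift.fin {D : Data n} {μ : Measure (Amb n)} {ν : Measure (Fr n)} (h : IsLift D μ ν)
    [IsFiniteMeasure μ] : IsFiniteMeasure ν := by
  refine ⟨?_⟩
  have := measure_lt_top μ univ
  rwa [← h.fst, Measure.map_apply measurable_fst MeasurableSet.univ] at this

theorem IsLift.integral_fst {D : Data n} {μ : Measure (Amb n)} {ν : Measure (Fr n)}
    (h : IsLift D μ ν) {f : Amb n → ℝ} (hf : AEStronglyMeasurable f μ) :
    ∫ u, f u.1 ∂ν = ∫ p, f p ∂μ := by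
  rw [← h.fst] at hf ⊢
  exact (integral_map measurable_fst.aemeasurable hf).symm

theorem integrable_of_conc {α : Type*} [TopologicalSpace α] [MeasurableSpace α]
    [OpensMeasurableSpace α] [T2Space α] {μ : Measure α} [IsFiniteMeasure μ] {K : Set α}
    (hK : IsCompact K) (hμ : μ Kᶜ = 0) {f : α → ℝ} (hf : ContinuousOn f K) : Integrable f μ := by
  have h := hf.integrableOn_compact (μ := μ) hK
  rwa [IntegrableOn, Measure.restrict_eq_self_of_ae_mem hμ] at h

namespace Geo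

variable (G : Geo n)

instance : IsFiniteMeasure G.mu := G.area.fin

instance : IsFiniteMeasure G.nu := G.lift.fin

theorem ae_S : ∀ᵐ p ∂G.mu, p ∈ G.S := G.area.conc

theorem ae_F : ∀ᵐ u ∂G.nu, u ∈ G.F := G.lift.conc

theorem integrable_mu {f : Amb n → ℝ} (hf : ContinuousOn f G.S) : Integrable f G.mu :=
  integrable_of_conc G.cpt G.area.conc hf

theorem integrable_nu {f : Fr n → ℝ} (hf : ContinuousOn f G.F) : Integrable f G.nu :=
  integrable_of_conc G.cptF G.lift.conc hf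

theorem integral_fst {f : Amb n → ℝ} (hf : AEStronglyMeasurable f G.mu) :
    ∫ u, f u.1 ∂G.nu = ∫ p, f p ∂G.mu := G.lift.integral_fst hf

theorem nu_real_fst {A : Set (Amb n)} (hA : MeasurableSet A) :
    G.nu.real (Prod.fst ⁻¹' A) = G.mu.real A := by
  rw [← G.lift.fst, Measure.real, Measure.real, Measure.map_apply measurable_fst hA]

theorem nu_real_univ : G.nu.real univ = G.V := G.nu_real_fst MeasurableSet.univ

theorem integral_congr_F {f h : Fr n → ℝ} (e : EqOn f h G.F) :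
    ∫ u, f u ∂G.nu = ∫ u, h u ∂G.nu := integral_congr_ae (G.ae_F.mono fun _ hu => e hu)

theorem integral_rot {Q : E3 →L[ℝ] E3} (hQ : Orth Q) {f : Fr n → ℝ} (hf : Continuous f) :
    ∫ u, f (rot Q u) ∂G.nu = ∫ u, f u ∂G.nu := by
  conv_rhs => rw [← G.lift.rot Q hQ]
  exact (integral_map (contDiff_rot Q).continuous.aemeasurable hf.aestronglyMeasurable).symm

theorem integral_Ex (v : E3) {f : Fr n → ℝ} (hf : Continuous f) :
    ∫ u, f (G.Ex u v) ∂G.nu = ∫ u, f u ∂G.nu := by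
  conv_rhs => rw [← G.pres v]
  exact (integral_map (G.contDiff_Ex_left v).continuous.aemeasurable hf.aestronglyMeasurable).symm

/-- integration by parts on the frame bundle -/
theorem integral_HD_mul (x : E3) {f h : Fr n → ℝ} (hf : ContDiff ℝ ∞ f) (hh : ContDiff ℝ ∞ h) :
    ∫ u, G.HD x f u * h u ∂G.nu = -∫ u, f u * G.HD x h u ∂G.nu := by
  have := G.div _ (hf.mul hh) x
  simp only [G.HD_mul x hf hh] at this
  rw [integral_add (G.integrable_nu (hf.mul (G.contDiff_HD x hh)).continuous.continuousOn)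
    (G.integrable_nu ((G.contDiff_HD x hf).mul hh).continuous.continuousOn)] at this
  linarith

theorem nn_nonneg (m : ℕ) : 0 ≤ G.nn m := integral_nonneg (G.nd_nonneg m)

theorem tt_nonneg (m : ℕ) : 0 ≤ G.tt m := integral_nonneg (G.td_nonneg m)

theorem ms_comm (f h : Amb n → ℝ) : G.ms f h = G.ms h f := by simp [ms, mul_comm]

theorem en_comm (f h : Amb n → ℝ) : G.en f h = G.en h f := by simp [en, mul_comm]

theorem hk_zero : G.hk 0 = G.V := by simp [hk, Flo.bb, nu_real_univ]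

/-- a function continuous on the manifold, positive somewhere and nonnegative, has positive
integral -/
theorem integral_pos {f : Amb n → ℝ} (hf : ContinuousOn f G.S) (h0 : ∀ p ∈ G.S, 0 ≤ f p)
    {p : Amb n} (hp : p ∈ G.S) (h : 0 < f p) : 0 < ∫ q, f q ∂G.mu := by
  rw [integral_pos_iff_support_of_nonneg_ae (G.ae_S.mono h0) (G.integrable_mu hf)]
  obtain ⟨U, hU, hpU, hsub⟩ := mem_nhdsWithin.1 ((hf p hp).eventually (lt_mem_nhds h))
  refine pos_iff_ne_zero.2 fun h1 => G.area.pos U hU ⟨p, hp, hpU⟩ ?_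
  refine measure_mono_null (t := Function.support f ∪ G.Sᶜ) (fun q hq => ?_)
    (measure_union_null h1 G.area.conc)
  by_cases hq' : q ∈ G.S
  · exact Or.inl (ne_of_gt (hsub ⟨hq, hq'⟩))
  · exact Or.inr hq'

end Geo

/-- universal polynomials are restrictions of smooth functions -/
theorem exists_contDiff_of_PP {r w : ℕ} {f : Idx → ℝ} (hf : f ∈ PP r w) (G : Geo n) :
    ∃ h : Fr n → ℝ, ContDiff ℝ ∞ h ∧ ∀ u hu, h u = f ⟨n, G, u, hu⟩ := by
  induction hf using Submodule.span_induction with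
  | mem f hf =>
    obtain ⟨M, -, -, rfl⟩ := hf
    exact ⟨G.mon M, G.contDiff_mon M, fun _ _ => rfl⟩
  | zero => exact ⟨fun _ => 0, contDiff_const, fun _ _ => rfl⟩
  | add f g _ _ hf hg =>
    obtain ⟨a, ha, ha'⟩ := hf
    obtain ⟨b, hb, hb'⟩ := hg
    exact ⟨fun u => a u + b u, ha.add hb, fun u hu => by simp [ha' u hu, hb' u hu]⟩
  | smul c f _ hf =>
    obtain ⟨a, ha, ha'⟩ := hf
    exact ⟨fun u => c * a u, contDiff_const.mul ha, fun u hu => by simp [ha' u hu]⟩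

theorem rad_eq (k : ℕ) (f : E3 → ℝ) (v : E3) :
    rad k f v = ∫ s in (0 : ℝ)..1, s ^ k • f (s • v) := rfl

theorem geo_holds (hC : ConStmt) (hF : FloStmt) (hM : MuStmt) (hA : NuAStmt) (hB : NuBStmt)
    (hN : NuCStmt) : GeoStmt := fun n D => by
  obtain ⟨C, rfl⟩ := hC n D
  obtain ⟨X, rfl⟩ := hF n C
  obtain ⟨μ, hμ⟩ := hM n X.toData
  obtain ⟨ν, hν⟩ := hA n X μ hμ
  have := hμ.fin
  exact ⟨⟨X, μ, ν, hμ, hν, hB n X μ ν hμ hν, hN n X ν hν.fin hν.conc (hB n X μ ν hμ hν)⟩, rfl⟩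

end Pool.Agent.Lib.MP_1a4aff_gt.I3
end

-- part Pool.Agent.Lib.MP_1a4aff_gt.I3.MP
section

/-! Calculus of the Laplacian in normal coordinates and the parametrix identity. -/

set_option autoImplicit false

open MeasureTheory Set Filter Topology Metric
open scoped ContDiff RealInnerProductSpace

namespace Pool.Agent.Lib.MP_1a4aff_gt.I3

namespace MP

variable {n : ℕ} {f h : E3 → ℝ} {v : E3}

theorem dif (hf : ContDiffAt ℝ ∞ f v) : DifferentiableAt ℝ f v := hf.differentiableAt (by simp)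

theorem sm_dd (hf : ContDiffAt ℝ ∞ f v) (i : Fin 3) : ContDiffAt ℝ ∞ (dd i f) v :=
  (hf.fderiv_right (m := ∞) (by simp)).clm_apply contDiffAt_const

theorem ev {E : Type} [NormedAddCommGroup E] [NormedSpace ℝ E] {f : E → ℝ} {v : E}
    (hf : ContDiffAt ℝ ∞ f v) : ∀ᶠ y in 𝓝 v, DifferentiableAt ℝ f y :=
  ((hf.of_le (m := 1) (by simp)).eventually (by simp)).mono fun _ hy =>
    hy.differentiableAt one_ne_zero

theorem dd_congr (e : f =ᶠ[𝓝 v] h) (i : Fin 3) : dd i f =ᶠ[𝓝 v] dd i h :=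
  (e.fderiv (𝕜 := ℝ)).mono fun y hy => by simp only [dd, hy]

theorem dd_add (hf : DifferentiableAt ℝ f v) (hh : DifferentiableAt ℝ h v) (i : Fin 3) :
    dd i (fun y => f y + h y) v = dd i f v + dd i h v := by
  simp [dd, fderiv_fun_add hf hh]

theorem dd_mul (hf : DifferentiableAt ℝ f v) (hh : DifferentiableAt ℝ h v) (i : Fin 3) :
    dd i (fun y => f y * h y) v = f v * dd i h v + dd i f v * h v := by
  simp [dd, fderiv_fun_mul hf hh]; ring

theorem dd_comp {β : ℝ → ℝ} (hβ : DifferentiableAt ℝ β (f v)) (hf : DifferentiableAt ℝ f v)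
    (i : Fin 3) : dd i (fun y => β (f y)) v = deriv β (f v) * dd i f v := by
  have e := (hβ.hasDerivAt.comp_hasFDerivAt v hf.hasFDerivAt).fderiv
  simp only [dd]
  rw [show (fun y => β (f y)) = β ∘ f from rfl, e]
  simp

theorem dd_sum {F : Fin 3 → E3 → ℝ} (hF : ∀ j, DifferentiableAt ℝ (F j) v) (i : Fin 3) :
    dd i (fun y => ∑ j, F j y) v = ∑ j, dd i (F j) v := by
  simp [dd, fderiv_fun_sum fun j _ => hF j]

theorem dd_const (c : ℝ) (i : Fin 3) : dd i (fun _ => c) v = 0 := by simp [dd]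

theorem sm_co (i : Fin 3) : ContDiff ℝ ∞ fun y : E3 => y i := contDiff_euclidean.1 contDiff_id i

theorem dd_co (i : Fin 3) : dd i (fun y => y i) v = 1 := by
  have e : HasFDerivAt (fun y : E3 => y i) (EuclideanSpace.proj (𝕜 := ℝ) i) v :=
    (EuclideanSpace.proj (𝕜 := ℝ) i : E3 →L[ℝ] ℝ).hasFDerivAt
  simp [dd, e.fderiv]

theorem dd_nsq (i : Fin 3) : dd i (fun y => ‖y‖ ^ 2) v = 2 * v i := by
  simp [dd, fderiv_norm_sq_apply, inner_ee]

theorem fderiv_eq (f : E3 → ℝ) (v : E3) : fderiv ℝ f v v = ∑ i, v i * dd i f v :=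
  clm_sum_ee _ _

theorem sm_det {M : E3 → Matrix (Fin 3) (Fin 3) ℝ} (hM : ∀ i j, ContDiff ℝ ∞ fun y => M y i j) :
    ContDiff ℝ ∞ fun y => (M y).det := by
  simp only [Matrix.det_apply']
  exact ContDiff.sum fun _ _ => contDiff_const.mul (contDiff_prod fun _ _ => hM _ _)

variable {X : Flo n} {u : Fr n}

theorem det_gram (X : Flo n) (u : Fr n) (v : E3) :
    ((X.thM u v).transpose * X.thM u v).det = X.den u v ^ 2 := by
  rw [Matrix.det_mul, Matrix.det_transpose, sq]; rfl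

theorem sm_gi (hd : 0 < X.den u v) (i j : Fin 3) : ContDiffAt ℝ ∞ (X.gi u i j) v := by
  have h1 : ∀ a b, ContDiff ℝ ∞ fun y => X.thM u y a b := fun a b =>
    contDiff_euclidean.1 ((X.contDiff_th u).clm_apply contDiff_const) a
  have h2 : ∀ a b, ContDiff ℝ ∞ fun y => ((X.thM u y).transpose * X.thM u y) a b := fun a b => by
    simp only [Matrix.mul_apply, Matrix.transpose_apply]
    exact ContDiff.sum fun _ _ => (h1 _ _).mul (h1 _ _)
  have h3 : X.gi u i j = fun y => (X.den u y ^ 2)⁻¹ *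
      (((X.thM u y).transpose * X.thM u y).updateRow j (Pi.single i 1)).det := by
    ext y
    rw [Flo.gi, Matrix.inv_def, Matrix.smul_apply, Ring.inverse_eq_inv', det_gram,
      Matrix.adjugate_apply, smul_eq_mul]
  rw [h3]
  refine (((X.contDiff_den u).contDiffAt.pow 2).inv (by positivity)).mul
    (sm_det fun a b => ?_).contDiffAt
  simp only [Matrix.updateRow_apply]
  split_ifs
  · exact contDiff_const
  · exact h2 a b

theorem gi_symm (X : Flo n) (u : Fr n) (i j : Fin 3) (v : E3) : X.gi u i j v = X.gi u j i v := by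
  have e := Matrix.transpose_nonsing_inv ((X.thM u v).transpose * X.thM u v)
  rw [Matrix.transpose_mul, Matrix.transpose_transpose] at e
  exact congrFun (congrFun e j) i

theorem gi_nonneg (X : Flo n) (u : Fr n) (v : E3) (ξ : Fin 3 → ℝ) :
    0 ≤ ∑ i, ∑ j, X.gi u i j v * ξ i * ξ j := by
  have h1 := (Matrix.posSemidef_conjTranspose_mul_self (X.thM u v)).inv.dotProduct_mulVec_nonneg ξ
  rw [Matrix.conjTranspose_eq_transpose_of_trivial] at h1
  refine h1.trans_eq ?_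
  simp only [dotProduct, Matrix.mulVec, Flo.gi, star_trivial, Finset.mul_sum]
  exact Finset.sum_congr rfl fun i _ => Finset.sum_congr rfl fun j _ => by ring

theorem gauss (hR : RadStmt) (hu : u ∈ X.F) (hd : 0 < X.den u v) (i : Fin 3) :
    ∑ j, X.gi u i j v * v j = v i := by
  obtain ⟨h1, -, h2, -⟩ := (hR n X u hu).2.2.2.2.2.1 v
  have h3 : (X.thM u v).mulVec v = v := by
    ext a
    conv_rhs => rw [← h1, clm_sum_ee]
    simp [Matrix.mulVec, dotProduct, Flo.thM, mul_comm]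
  have h4 : (X.thM u v).transpose.mulVec v = v := by
    ext a
    have := h2 (ee a)
    rw [ee_inner, inner_E3] at this
    simpa [Matrix.mulVec, dotProduct, Flo.thM, Fin.sum_univ_three] using this
  have h5 : ((X.thM u v).transpose * X.thM u v)⁻¹.mulVec v = v := by
    conv_lhs => rw [← h4, ← h3]
    rw [Matrix.mulVec_mulVec, Matrix.mulVec_mulVec, Matrix.mul_assoc, Matrix.nonsing_inv_mul _
      (by rw [det_gram]; exact IsUnit.mk0 _ (by positivity)), Matrix.one_mulVec]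
  exact congrFun h5 i

theorem ev_den (hd : 0 < X.den u v) : ∀ᶠ y in 𝓝 v, 0 < X.den u y :=
  (X.contDiff_den u).continuous.continuousAt.eventually (lt_mem_nhds hd)

theorem sm_a (hd : 0 < X.den u v) (i j : Fin 3) :
    ContDiffAt ℝ ∞ (fun y => X.den u y * X.gi u i j y) v :=
  (X.contDiff_den u).contDiffAt.mul (sm_gi hd i j)

theorem sm_lap (hd : 0 < X.den u v) (hf : ContDiffAt ℝ ∞ f v) : ContDiffAt ℝ ∞ (X.Lap u f) v :=
  ((X.contDiff_den u).contDiffAt.inv hd.ne').mul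
    (ContDiffAt.sum fun i _ => ContDiffAt.sum fun j _ => sm_dd ((sm_a hd i j).mul (sm_dd hf j)) i)

theorem sm_sq (hd : 0 < X.den u v) : ContDiffAt ℝ ∞ (fun y => Real.sqrt (X.den u y)) v :=
  (X.contDiff_den u).contDiffAt.sqrt hd.ne'

theorem sm_div (hd : 0 < X.den u v) (hf : ContDiffAt ℝ ∞ f v) :
    ContDiffAt ℝ ∞ (fun y => f y / Real.sqrt (X.den u y)) v :=
  hf.div (sm_sq hd) (Real.sqrt_pos.2 hd).ne'

theorem sm_lc (hd : 0 < X.den u v) (hf : ContDiffAt ℝ ∞ f v) : ContDiffAt ℝ ∞ (X.Lc u f) v :=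
  (sm_sq hd).mul (sm_lap hd (sm_div hd hf))

theorem lap_congr (e : f =ᶠ[𝓝 v] h) : X.Lap u f =ᶠ[𝓝 v] X.Lap u h := by
  have h1 : ∀ i j : Fin 3, dd i (fun y => X.den u y * X.gi u i j y * dd j f y) =ᶠ[𝓝 v]
      dd i (fun y => X.den u y * X.gi u i j y * dd j h y) := fun i j =>
    dd_congr ((dd_congr e j).mono fun y hy => by simp only [hy]) i
  filter_upwards [eventually_all.2 fun i => eventually_all.2 (h1 i)] with y hy
  simp only [Flo.Lap, hy]

theorem lap_const (c : ℝ) : X.Lap u (fun _ => c) v = 0 := by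
  simp [Flo.Lap, dd_const]

theorem lap_eq (hd : 0 < X.den u v) (hf : ContDiffAt ℝ ∞ f v) :
    X.Lap u f v = ∑ i, ∑ j, (X.gi u i j v * dd i (dd j f) v +
      (X.den u v)⁻¹ * dd i (fun y => X.den u y * X.gi u i j y) v * dd j f v) := by
  simp only [Flo.Lap, Finset.mul_sum]
  refine Finset.sum_congr rfl fun i _ => Finset.sum_congr rfl fun j _ => ?_
  rw [dd_mul (dif (sm_a hd i j)) (dif (sm_dd hf j))]
  field_simp

theorem lap_add (hd : 0 < X.den u v) (hf : ContDiffAt ℝ ∞ f v) (hh : ContDiffAt ℝ ∞ h v) :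
    X.Lap u (fun y => f y + h y) v = X.Lap u f v + X.Lap u h v := by
  have h1 : ∀ i j, dd i (dd j fun y => f y + h y) v = dd i (dd j f) v + dd i (dd j h) v :=
    fun i j => by
      rw [← dd_add (dif (sm_dd hf j)) (dif (sm_dd hh j))]
      refine (dd_congr ?_ i).eq_of_nhds
      filter_upwards [ev hf, ev hh] with y a b using dd_add a b j
  rw [lap_eq hd (hf.add hh), lap_eq hd hf, lap_eq hd hh]
  simp only [h1, dd_add (dif hf) (dif hh), Fin.sum_univ_three]
  ring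

theorem lap_mul (hd : 0 < X.den u v) (hf : ContDiffAt ℝ ∞ f v) (hh : ContDiffAt ℝ ∞ h v) :
    X.Lap u (fun y => f y * h y) v = f v * X.Lap u h v + X.Lap u f v * h v +
      2 * ∑ i, ∑ j, X.gi u i j v * dd i f v * dd j h v := by
  have h1 : ∀ i j, dd i (dd j fun y => f y * h y) v = f v * dd i (dd j h) v +
      dd i f v * dd j h v + (dd j f v * dd i h v + dd i (dd j f) v * h v) := fun i j => by
    rw [← dd_mul (dif hf) (dif (sm_dd hh j)), ← dd_mul (dif (sm_dd hf j)) (dif hh),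
      ← dd_add (dif (hf.mul (sm_dd hh j))) (dif ((sm_dd hf j).mul hh))]
    refine (dd_congr ?_ i).eq_of_nhds
    filter_upwards [ev hf, ev hh] with y a b using dd_mul a b j
  rw [lap_eq hd (hf.mul hh), lap_eq hd hf, lap_eq hd hh]
  simp only [h1, dd_mul (dif hf) (dif hh), Fin.sum_univ_three, gi_symm X u 1 0, gi_symm X u 2 0,
    gi_symm X u 2 1]
  ring

theorem lap_comp (hd : 0 < X.den u v) {β : ℝ → ℝ} (hβ : ContDiffAt ℝ ∞ β (f v))
    (hf : ContDiffAt ℝ ∞ f v) :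
    X.Lap u (fun y => β (f y)) v = deriv β (f v) * X.Lap u f v +
      deriv (deriv β) (f v) * ∑ i, ∑ j, X.gi u i j v * dd i f v * dd j f v := by
  have h0 : ContDiffAt ℝ ∞ (deriv β) (f v) := hβ.derivWithin (by simp)
  have h1 : ∀ i j, dd i (dd j fun y => β (f y)) v = deriv β (f v) * dd i (dd j f) v +
      deriv (deriv β) (f v) * dd i f v * dd j f v := fun i j => by
    rw [← dd_comp (h0.differentiableAt (by simp)) (dif hf),
      ← dd_mul (f := fun y => deriv β (f y)) (dif (h0.comp v hf)) (dif (sm_dd hf j))]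
    refine (dd_congr ?_ i).eq_of_nhds
    filter_upwards [ev hf, hf.continuousAt.eventually (ev hβ)] with y a b using dd_comp b a j
  rw [lap_eq (f := fun y => β (f y)) hd (hβ.comp v hf), lap_eq hd hf]
  simp only [h1, dd_comp (hβ.differentiableAt (by simp)) (dif hf), Fin.sum_univ_three]
  ring

theorem lap_nsq (hR : RadStmt) (hu : u ∈ X.F) (hd : 0 < X.den u v) :
    X.Lap u (fun y => ‖y‖ ^ 2) v = 6 + 2 * (fderiv ℝ (X.den u) v v / X.den u v) := by
  have h1 : ∀ i, ∑ j, dd i (fun y => X.den u y * X.gi u i j y * dd j (fun y => ‖y‖ ^ 2) y) v =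
      2 * X.den u v + 2 * (v i * dd i (X.den u) v) := fun i => by
    have hD := dif (X.contDiff_den u).contDiffAt (v := v)
    have hc := dif (sm_co i).contDiffAt (v := v)
    rw [← dd_sum fun j => dif ((sm_a hd i j).mul (sm_dd (contDiff_norm_sq ℝ).contDiffAt j))]
    have e : (fun y => ∑ j, X.den u y * X.gi u i j y * dd j (fun y => ‖y‖ ^ 2) y) =ᶠ[𝓝 v]
        fun y => 2 * (X.den u y * y i) := by
      filter_upwards [ev_den hd] with y hy
      rw [← gauss hR hu hy i]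
      simp only [dd_nsq, Fin.sum_univ_three]
      ring
    rw [(dd_congr e i).eq_of_nhds, dd_mul (differentiableAt_const _) (hD.fun_mul hc),
      dd_mul hD hc, dd_co, dd_const]
    ring
  rw [Flo.Lap, fderiv_eq]
  simp only [h1, Fin.sum_univ_three]
  field_simp
  ring

theorem sm_gs : ContDiffOn ℝ ∞ (fun z : ℝ × E3 => gs z.1 z.2) (Ioi 0 ×ˢ univ) := fun z hz => by
  have h0 : 0 < z.1 := hz.1
  have := Real.pi_pos
  exact (((contDiffAt_const.mul contDiffAt_fst).rpow_const_of_ne (by positivity)).mul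
    (((contDiffAt_snd.norm_sq ℝ).div (contDiffAt_const.mul contDiffAt_fst)
      (by positivity)).neg.exp)).contDiffWithinAt

theorem gs_time {s : ℝ} (hs : 0 < s) (v : E3) : HasDerivAt (fun s => gs s v)
    (gs s v * (-(3 / (2 * s)) + ‖v‖ ^ 2 / (4 * s ^ 2))) s := by
  have hp := Real.pi_pos
  have h0 : 4 * Real.pi * s ≠ 0 := by positivity
  have h1 := ((hasDerivAt_id' s).const_mul (4 * Real.pi)).rpow_const (p := -(3 / 2)) (Or.inl h0)
  have h2 := ((hasDerivAt_const s (‖v‖ ^ 2)).fun_div ((hasDerivAt_id' s).const_mul 4)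
    (by positivity)).fun_neg.exp
  refine (h1.fun_mul h2).congr_deriv ?_
  rw [Real.rpow_sub_one h0, gs]
  field_simp
  ring

theorem lap_gs (hR : RadStmt) (hu : u ∈ X.F) (hd : 0 < X.den u v) {s : ℝ} (hs : 0 < s)
    (hf : ContDiffAt ℝ ∞ f v) :
    X.Lap u (fun y => gs s y / Real.sqrt (X.den u y) * f y) v = gs s v / Real.sqrt (X.den u v) *
      (X.Lc u f v - fderiv ℝ f v v / s + f v * (-(3 / (2 * s)) + ‖v‖ ^ 2 / (4 * s ^ 2))) := by
  obtain ⟨β, hβ⟩ : ∃ β : ℝ → ℝ, β = fun r =>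
      (4 * Real.pi * s) ^ (-(3 / 2) : ℝ) * Real.exp (-(r / (4 * s))) := ⟨_, rfl⟩
  have b0 : ContDiff ℝ ∞ β := by rw [hβ]; fun_prop
  have b1 : ∀ r, HasDerivAt β (-(4 * s)⁻¹ * β r) r := fun r => by
    rw [hβ]
    refine ((((hasDerivAt_id' r).div_const (4 * s)).fun_neg.exp).const_mul _).congr_deriv ?_
    ring
  have b2 : deriv β = fun r => -(4 * s)⁻¹ * β r := funext fun r => (b1 r).deriv
  have b3 : ∀ r, deriv (deriv β) r = -(4 * s)⁻¹ * (-(4 * s)⁻¹ * β r) := fun r => by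
    rw [b2]; exact ((b1 r).const_mul _).deriv
  have b4 : gs s = fun y => β (‖y‖ ^ 2) := by rw [hβ]; rfl
  have hq : ContDiffAt ℝ ∞ (fun y : E3 => ‖y‖ ^ 2) v := (contDiff_norm_sq ℝ).contDiffAt
  have hg : ContDiffAt ℝ ∞ (fun y : E3 => β (‖y‖ ^ 2)) v := b0.contDiffAt.comp v hq
  have hG := gauss hR hu hd
  have hr := Real.sqrt_pos.2 hd
  have e1 : ∀ w : Fin 3 → ℝ, ∀ c : ℝ,
      ∑ i, ∑ j, X.gi u i j v * (c * (2 * v i)) * w j = 2 * c * ∑ j, v j * w j := fun w c => by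
    rw [Finset.sum_comm, Finset.mul_sum]
    refine Finset.sum_congr rfl fun j _ => ?_
    rw [← hG j]
    simp only [Fin.sum_univ_three, gi_symm X u j]
    ring
  have e2 : ∑ i, ∑ j, X.gi u i j v * (2 * v i) * (2 * v j) = 4 * ‖v‖ ^ 2 := by
    have := e1 (fun j => 2 * v j) 1
    simp only [one_mul] at this
    rw [this, normSq_E3, Fin.sum_univ_three]
    ring
  have e3 : fderiv ℝ (fun y => f y / Real.sqrt (X.den u y)) v v = fderiv ℝ f v v /
      Real.sqrt (X.den u v) - f v / Real.sqrt (X.den u v) *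
        (fderiv ℝ (X.den u) v v / X.den u v) / 2 := by
    have h1 := (dif (X.contDiff_den u).contDiffAt (v := v)).hasFDerivAt.sqrt hd.ne'
    have h2 := (dif hf).hasFDerivAt.fun_mul
      ((hasDerivAt_inv hr.ne').comp_hasFDerivAt (f := fun y => Real.sqrt (X.den u y)) v h1)
    simp only [div_eq_mul_inv]
    erw [h2.fderiv]
    simp only [add_apply, smul_apply, smul_eq_mul, Function.comp_apply,
      Real.sq_sqrt hd.le]
    field_simp
    ring
  have e4 : (fun y => gs s y / Real.sqrt (X.den u y) * f y) =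
      fun y => β (‖y‖ ^ 2) * (f y / Real.sqrt (X.den u y)) := by
    ext y; rw [b4]; ring
  rw [e4, lap_mul hd hg (sm_div hd hf), lap_comp hd b0.contDiffAt hq, lap_nsq hR hu hd, b4, Flo.Lc]
  simp only [dd_comp (f := fun y : E3 => ‖y‖ ^ 2) (b1 _).differentiableAt (dif hq), dd_nsq, e1, e2,
    b3]
  rw [← fderiv_eq, e3, b2]
  field_simp
  ring

theorem lc_add (hd : 0 < X.den u v) (hf : ContDiffAt ℝ ∞ f v) (hh : ContDiffAt ℝ ∞ h v) :
    X.Lc u (fun y => f y + h y) v = X.Lc u f v + X.Lc u h v := by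
  simp only [Flo.Lc, add_div]
  rw [lap_add hd (sm_div hd hf) (sm_div hd hh), mul_add]

theorem lc_mul (hd : 0 < X.den u v) (hf : ContDiffAt ℝ ∞ f v) (c : ℝ) :
    X.Lc u (fun y => f y * c) v = X.Lc u f v * c := by
  simp only [Flo.Lc, mul_div_right_comm]
  rw [lap_mul hd (sm_div hd hf) contDiffAt_const]
  simp [lap_const, dd_const, mul_assoc]

variable {R : ℝ}

theorem sm_bb (hd : ∀ v ∈ ball (0 : E3) R, 0 < X.den u v) :
    ∀ k, ContDiffOn ℝ ∞ (X.bb u k) (ball 0 R)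
  | 0 => contDiffOn_const
  | k + 1 => radv_contDiffOn (f := X.Lc u (X.bb u k)) k fun v hv =>
      (sm_lc (hd v hv) ((sm_bb hd k).contDiffAt (isOpen_ball.mem_nhds hv))).contDiffWithinAt

theorem tele (hd : ∀ v ∈ ball (0 : E3) R, 0 < X.den u v) (hv : v ∈ ball (0 : E3) R) {s : ℝ}
    (hs : 0 < s) (N : ℕ) :
    X.Lc u (fun y => ∑ k ∈ Finset.range (N + 1), X.bb u k y * s ^ k) v -
      fderiv ℝ (fun y => ∑ k ∈ Finset.range (N + 1), X.bb u k y * s ^ k) v v / s =
      ∑ k ∈ Finset.range (N + 1), X.bb u k v * (k * s ^ (k - 1)) +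
        s ^ N * X.Lc u (X.bb u N) v := by
  have hb := fun k => (sm_bb hd k).contDiffAt (isOpen_ball.mem_nhds hv)
  induction N with
  | zero => simp [Flo.bb]
  | succ N ih =>
    have h1 : ContDiffAt ℝ ∞ (fun y => ∑ k ∈ Finset.range (N + 1), X.bb u k y * s ^ k) v :=
      ContDiffAt.sum fun k _ => (hb k).mul contDiffAt_const
    have h2 : ((N : ℝ) + 1) * X.bb u (N + 1) v + fderiv ℝ (X.bb u (N + 1)) v v =
        X.Lc u (X.bb u N) v :=
      radv_transport (f := X.Lc u (X.bb u N)) N (fun v hv => (sm_lc (hd v hv)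
        ((sm_bb hd N).contDiffAt (isOpen_ball.mem_nhds hv))).contDiffWithinAt) hv
    simp only [Finset.sum_range_succ _ (N + 1)]
    rw [lc_add (hd v hv) h1 ((hb _).mul contDiffAt_const), lc_mul (hd v hv) (hb _),
      fderiv_fun_add (dif h1) (dif ((hb _).mul contDiffAt_const)), fderiv_mul_const (dif (hb _)),
      add_apply, smul_apply, smul_eq_mul, add_div, pow_succ s N,
      mul_right_comm (s ^ N), mul_div_cancel_right₀ _ hs.ne', Nat.add_sub_cancel, Nat.cast_succ]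
    linear_combination ih - s ^ N * h2

theorem heat_par (hR : RadStmt) (hu : u ∈ X.F) (hd : ∀ v ∈ ball (0 : E3) R, 0 < X.den u v)
    (hv : v ∈ ball (0 : E3) R) (N : ℕ) (c s : ℝ) (hs : 0 < s) :
    X.heat u (X.par u N c) s v = gs s v / Real.sqrt (X.den u v) *
      (-(s ^ N * X.Lc u (X.bb u N) v) +
        c * ((N + 1) * s ^ N - s ^ (N + 1) * X.Lc u (X.bb u 0) v)) := by
  have hb := fun k => (sm_bb hd k).contDiffAt (isOpen_ball.mem_nhds hv)
  have h1 : ContDiffAt ℝ ∞ (fun y => ∑ k ∈ Finset.range (N + 1), X.bb u k y * s ^ k) v :=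
    ContDiffAt.sum fun k _ => (hb k).mul contDiffAt_const
  have h2 : HasDerivAt (fun s => X.par u N c s v) _ s :=
    ((gs_time hs v).div_const _).fun_mul ((HasDerivAt.fun_sum fun k _ =>
      (hasDerivAt_pow k s).const_mul (X.bb u k v)).fun_add ((hasDerivAt_pow (N + 1) s).const_mul c))
  have h3 := lap_gs hR hu (hd v hv) hs (h1.add (contDiffAt_const (c := c * s ^ (N + 1))))
  have h4 := lc_mul (hd v hv) (hb 0) (c * s ^ (N + 1))
  simp only [Flo.bb, one_mul] at h4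
  rw [lc_add (hd v hv) h1 contDiffAt_const, h4, fderiv_add_const] at h3
  rw [Flo.heat, h2.deriv, show X.Lap u (X.par u N c s) v = _ from h3, Nat.add_sub_cancel,
    Nat.cast_succ, show X.bb u 0 = fun _ => 1 from rfl]
  linear_combination (-(gs s v / Real.sqrt (X.den u v))) * tele hd hv hs N

end MP

open MP in
theorem mp_holds (hR : RadStmt) : MPStmt := by
  intro n X u hu R hd
  refine ⟨fun i j v hv => (sm_gi (hd v hv) i j).contDiffWithinAt, sm_bb hd, fun f hf =>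
    ⟨fun v hv => (sm_lap (hd v hv) (hf.contDiffAt (isOpen_ball.mem_nhds hv))).contDiffWithinAt,
      fun v hv => (sm_lc (hd v hv) (hf.contDiffAt (isOpen_ball.mem_nhds hv))).contDiffWithinAt⟩,
    fun f hf hs => ?_, fun N c => ?_, fun v hv => ⟨fun i j => gi_symm X u i j v,
      gauss hR hu (hd v hv), gi_nonneg X u v, fun f h hf hh =>
        ⟨lap_add (hd v hv) hf hh, lap_mul (hd v hv) hf hh⟩, fun β f hβ hf =>
        lap_comp (hd v hv) hβ hf, lap_nsq hR hu (hd v hv), heat_par hR hu hd hv⟩⟩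
  · have h1 : ∀ v, v ∉ tsupport f → X.Lap u f =ᶠ[𝓝 v] 0 := fun v hv =>
      (lap_congr (notMem_tsupport_iff_eventuallyEq.1 hv)).trans
        (Eventually.of_forall fun _ => lap_const 0)
    refine ⟨contDiff_iff_contDiffAt.2 fun v => ?_, fun v hv => by_contra fun h =>
      notMem_tsupport_iff_eventuallyEq.2 (h1 v h) hv⟩
    by_cases hv : v ∈ tsupport f
    · exact sm_lap (hd v (hs hv)) hf.contDiffAt
    · exact contDiffAt_const.congr_of_eventuallyEq (h1 v hv)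
  · have h1 : ∀ g : E3 → ℝ, ContDiffOn ℝ ∞ g (ball 0 R) →
        ContDiffOn ℝ ∞ (fun z : ℝ × E3 => g z.2) (Ioi 0 ×ˢ ball 0 R) := fun g hg =>
      hg.comp contDiffOn_snd fun _ hz => hz.2
    exact ((sm_gs.mono (prod_mono_right (subset_univ _))).div
      (h1 _ fun v hv => (sm_sq (hd v hv)).contDiffWithinAt)
      fun z hz => (Real.sqrt_pos.2 (hd _ hz.2)).ne').mul
      ((ContDiffOn.sum fun k _ => (h1 _ (sm_bb hd k)).mul (contDiffOn_fst.pow k)).add
        (contDiffOn_const.mul (contDiffOn_fst.pow _)))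

end Pool.Agent.Lib.MP_1a4aff_gt.I3
end

-- part Pool.Agent.Lib.MP_1a4aff_gt.I3.Final
section

/-! Assembly of the compactness theorem from the parts. -/

set_option autoImplicit false

open MeasureTheory Set Filter Topology
open scoped ContDiff Manifold

namespace Pool.Agent.Lib.MP_1a4aff_gt.I3

theorem pb_smul {n : ℕ} {E : Type} [NormedAddCommGroup E] [NormedSpace ℝ E]
    {b b' : Amb n → Amb n →L[ℝ] Amb n →L[ℝ] ℝ} {c : ℝ} (h : ∀ p, b' p = c • b p) (j : E → Amb n) :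
    pb b' j = c • pb b j := by
  funext y; ext v w; simp [pb, h]

theorem norm_iter_le {E V : Type} [NormedAddCommGroup E] [NormedSpace ℝ E] [NormedAddCommGroup V]
    [NormedSpace ℝ V] {f g : E → V} {c : ℝ} {y : E} (hc : 1 ≤ c) (e : f =ᶠ[𝓝 y] c • g)
    (hg : ContDiffAt ℝ ∞ g y) (k : ℕ) :
    ‖iteratedFDeriv ℝ k g y‖ ≤ ‖iteratedFDeriv ℝ k f y‖ := by
  rw [(e.iteratedFDeriv ℝ k).eq_of_nhds, iteratedFDeriv_const_smul_apply
    (hg.of_le (by exact_mod_cast le_top)), norm_smul, Real.norm_of_nonneg (by positivity)]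
  exact le_mul_of_one_le_left (norm_nonneg _) hc

theorem lower_of_left_inverse {n : ℕ} {E : Type} [NormedAddCommGroup E] [NormedSpace ℝ E]
    {j : E → Amb n} {r : Amb n → E} {O : Set E} (hO : IsOpen O) (hj : ContDiffOn ℝ ∞ j O)
    (hr : ContDiff ℝ ∞ r) {y₀ : E} (hy : y₀ ∈ O) (h : ∀ᶠ y in 𝓝 y₀, r (j y) = y) :
    ∃ K > 0, ∀ᶠ y in 𝓝 y₀, ∀ v, ‖v‖ ≤ K * ‖fderiv ℝ j y v‖ := by
  have hc : ContinuousAt (fun y => ‖fderiv ℝ r (j y)‖) y₀ :=
    (((hr.continuous_fderiv (by simp)).continuousAt).comp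
      (hj.continuousOn.continuousAt (hO.mem_nhds hy))).norm
  refine ⟨‖fderiv ℝ r (j y₀)‖ + 1, by positivity, ?_⟩
  filter_upwards [hc.eventually (gt_mem_nhds (lt_add_one _)), h.eventually_nhds, hO.mem_nhds hy]
    with y h1 h2 h3 v
  have hd : DifferentiableAt ℝ j y :=
    (hj.contDiffAt (hO.mem_nhds h3)).differentiableAt (by simp)
  have e : fderiv ℝ (r ∘ j) y = ContinuousLinearMap.id ℝ E := by
    rw [Filter.EventuallyEq.fderiv_eq (f₁ := r ∘ j) (f := id) h2, fderiv_id]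
  rw [fderiv_comp y (hr.differentiable (by simp) _) hd] at e
  calc ‖v‖ = ‖fderiv ℝ r (j y) (fderiv ℝ j y v)‖ := by
        rw [← ContinuousLinearMap.comp_apply, e]; rfl
    _ ≤ ‖fderiv ℝ r (j y)‖ * ‖fderiv ℝ j y v‖ := ContinuousLinearMap.le_opNorm _ _
    _ ≤ _ := mul_le_mul_of_nonneg_right h1.le (norm_nonneg _)

theorem final_of (hA : BrAStmt) (hL : EmbLocStmt) (hB : BrBStmt) (hC : BrCStmt) (hD : BrDStmt)
    (hG : GeoStmt) (hS : ScaleStmt) (hMA : MainAStmt) (hMB : MainBStmt) (hP : P7Stmt)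
    (hCl : ClosedStmt) (hLim : LimStmt)
    (E : Type) [NormedAddCommGroup E] [InnerProductSpace ℝ E] [FiniteDimensional ℝ E]
    [MeasurableSpace E] [BorelSpace E] (hE : Module.finrank ℝ E = 3)
    (M : Type) [TopologicalSpace M] [ChartedSpace E M] [IsManifold 𝓘(ℝ, E) ∞ M] [CompactSpace M]
    [T2Space M] [Nonempty M] [MeasurableSpace M] [BorelSpace M] (g₀ : Met E M) :
    IsCompact (isospectral g₀) := by
  obtain ⟨n, ι, hι⟩ := hA E M
  set lam : ℕ → ℝ := fun k => eigen g₀ k with hlam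
  let I := {g : Met E M // ∀ k, eigen g k = eigen g₀ k}
  have hGe : ∀ g : Met E M, ∃ G : Geo n, G.S = range ι ∧ Pull g ι G.g := fun g => by
    obtain ⟨D, h1, h2⟩ := hB E M hE n ι hι g
    obtain ⟨G, rfl⟩ := hG n D
    exact ⟨G, h1, h2⟩
  choose G hGS hGP using hGe
  have hGe : ∀ g : I, ∀ k, (G g.1).eig k = lam k := fun g k =>
    (hC E M hE n ι hι g.1 _ (hGS _) (hGP _) k).symm.trans (g.2 k)
  obtain ⟨B₀, hB₀⟩ := hMA lam 0
  set s : ℝ := max 1 B₀ with hs
  have hs1 : 1 ≤ s := le_max_left _ _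
  have hs0 : 0 < s := one_pos.trans_le hs1
  choose G' φ₀ h1 h2 h3 h4 h5 using fun g : I => hS n (G g.1) s hs0
  have h3' : ∀ g : I, ∀ k, (G' g).eig k = lam k / s ^ 2 := fun g k => by rw [h3, hGe]
  have hbd : ∀ g : I, (G' g).Bd 0 1 := fun g u hu J hJ a b => by
    rw [h4] at hu
    obtain ⟨u, hu, rfl⟩ := hu
    rw [h5 g u hu, abs_div, abs_of_pos (pow_pos hs0 _), div_le_one (pow_pos hs0 _)]
    exact (hB₀ n _ (hGe g) u hu J hJ a b).trans ((le_max_right 1 B₀).trans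
      (le_self_pow₀ hs1 (by omega)))
  obtain ⟨ρ, hρ0, hρ1, hρ⟩ := hMB fun k => lam k / s ^ 2
  obtain ⟨m, hm⟩ := hρ (ρ / 100) (by positivity)
  rw [isCompact_iff_ultrafilter_le_nhds]
  intro 𝒱 h𝒱
  have hr : isospectral g₀ = range fun g : I => (Quot.mk _ g.1 : Quot (Isometric (E := E) (M := M))) := by
    ext x; simp [isospectral, I]
  have hmem : range (fun g : I => (Quot.mk _ g.1 : Quot (Isometric (E := E) (M := M)))) ∈ 𝒱 := by
    rw [← hr]; exact le_principal_iff.1 h𝒱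
  obtain ⟨𝒰, h𝒰⟩ : ∃ 𝒰 : Ultrafilter I,
      𝒰.map (fun g : I => (Quot.mk _ g.1 : Quot (Isometric (E := E) (M := M)))) = 𝒱 := by
    have : NeBot (comap (fun g : I => (Quot.mk _ g.1 : Quot (Isometric (E := E) (M := M))))
      (𝒱 : Filter _)) := NeBot.comap_of_range_mem inferInstance hmem
    exact ⟨Ultrafilter.of _, Ultrafilter.coe_injective
      (𝒱.unique (map_le_iff_le_comap.2 (Ultrafilter.of_le _)))⟩
  obtain ⟨A, φ, φ', hA𝒰, hφ, hb⟩ := hP I 𝒰 n (range ι) G' ρ m hρ0 hρ1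
    (fun g => (h1 g).trans (hGS _)) hbd
    (fun J => let ⟨B, hB⟩ := hMA (fun k => lam k / s ^ 2) J; ⟨B, fun g => hB n _ (h3' g)⟩)
    (fun g => (hm n _ (h3' g) (hbd g)).1)
    (fun g => by
      obtain ⟨u, hu, hc⟩ := (hm n _ (h3' g) (hbd g)).2
      exact ⟨u, hu, by rwa [h1, hGS] at hc⟩)
  have hh : ∀ g : I, ∃ h : Met E M, g ∈ A → Isometric g.1 h ∧ (∀ k, eigen h k = lam k) ∧
      ∀ x₀, ∀ y ∈ (chartAt E x₀).target,
        coef E h.inner x₀ y = pb (G g.1).g (φ g ∘ (ι ∘ (chartAt E x₀).symm)) y := fun g => by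
    by_cases hg : g ∈ A
    · obtain ⟨a1, a2, a3, a4, a5, a6⟩ := hφ g hg
      obtain ⟨h, b1, b2, b3, b4, b5⟩ :=
        hD E M n ι hι _ _ a1 a2 a3 a4 a5 a6 g.1 _ (G g.1).smg (hGP _)
      exact ⟨h, fun _ => ⟨b1, fun k =>
        (hC E M hE n _ b2 h _ ((hGS _).trans b3.symm) b4 k).trans (hGe g k), b5⟩⟩
    · exact ⟨g.1, fun h => absurd h hg⟩
  choose h hh using hh
  obtain ⟨g, hg⟩ := hLim E M I 𝒰 h fun x₀ y₀ hy₀ => by
    obtain ⟨l1, -, l3⟩ := hL E M n ι hι x₀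
    have hO := (chartAt E x₀).open_target
    obtain ⟨W, hW, c, hc, C, hC⟩ := hb E (ι ∘ (chartAt E x₀).symm) _ hO l1
      (fun y _ => mem_range_self _) y₀ hy₀
    obtain ⟨U, r, hU, hxU, hr, hUr⟩ := l3 _ ((chartAt E x₀).map_target hy₀)
    obtain ⟨K, hK, hKv⟩ := lower_of_left_inverse hO l1 hr hy₀ (by
      filter_upwards [(l1.continuousOn.continuousAt (hO.mem_nhds hy₀)).eventually
        (hU.mem_nhds hxU), hO.mem_nhds hy₀] with y h1 h2
      exact (hUr _ h1).2.trans ((chartAt E x₀).right_inv h2))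
    refine ⟨W ∩ {y | ∀ v, ‖v‖ ≤ K * ‖fderiv ℝ (ι ∘ (chartAt E x₀).symm) y v‖} ∩
      (chartAt E x₀).target, inter_mem (inter_mem hW hKv) (hO.mem_nhds hy₀),
      c / (s ^ 2 * K ^ 2), by positivity, C, ?_⟩
    filter_upwards [hA𝒰] with i hi y ⟨⟨y1, y2⟩, y3⟩
    obtain ⟨c1, c2⟩ := hC i hi y y1
    have e : ∀ z ∈ (chartAt E x₀).target,
        pb (G' i).g (φ i ∘ (ι ∘ (chartAt E x₀).symm)) z = s ^ 2 • coef E (h i).inner x₀ z :=
      fun z hz => by rw [pb_smul (h2 i), (hh i hi).2.2 x₀ z hz]; rfl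
    refine ⟨fun k => le_trans ?_ (c1 k), fun v => ?_⟩
    · have e' : pb (G' i).g (φ i ∘ (ι ∘ (chartAt E x₀).symm)) =ᶠ[𝓝 y]
          s ^ 2 • coef E (h i).inner x₀ := eventually_of_mem (hO.mem_nhds y3) e
      exact norm_iter_le (one_le_pow₀ hs1) e' (((h i).smooth x₀).contDiffAt (hO.mem_nhds y3)) k
    · have c3 := c2 v
      rw [e y y3] at c3
      simp only [smul_apply, smul_eq_mul] at c3
      have c4 : ‖v‖ ^ 2 ≤ K ^ 2 * ‖fderiv ℝ (ι ∘ (chartAt E x₀).symm) y v‖ ^ 2 := by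
        rw [← mul_pow]; exact pow_le_pow_left₀ (norm_nonneg _) (y2 v) 2
      rw [div_mul_eq_mul_div, div_le_iff₀ (by positivity)]
      nlinarith [mul_le_mul_of_nonneg_left c4 hc.le, mul_le_mul_of_nonneg_left c3 (sq_nonneg K)]
  refine ⟨Quot.mk _ g, ⟨g, fun k => ?_, rfl⟩, ?_⟩
  · refine tendsto_nhds_unique (((hCl E M k).tendsto g).comp hg) (tendsto_const_nhds.congr' ?_)
    filter_upwards [hA𝒰] with i hi
    exact ((hh i hi).2.1 k).symm
  · rw [← h𝒰]
    refine ((continuous_quot_mk.tendsto g).comp hg).congr' ?_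
    filter_upwards [hA𝒰] with i hi
    exact (Quot.sound (hh i hi).1).symm

end Pool.Agent.Lib.MP_1a4aff_gt.I3
end

-- part Pool.Agent.Lib.MP_1a4aff_gt.I3.BrB
section

/-! From a manifold with a metric to embedded data; diffeomorphisms from ambient maps. -/

set_option autoImplicit false

open Set Filter Topology
open scoped ContDiff Manifold

namespace Pool.Agent.Lib.MP_1a4aff_gt.I3

namespace BrB

/-- smoothness of pulled back forms -/
theorem smooth_comp {P A B : Type} [NormedAddCommGroup P] [NormedSpace ℝ P]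
    [NormedAddCommGroup A] [NormedSpace ℝ A] [FiniteDimensional ℝ A]
    [NormedAddCommGroup B] [NormedSpace ℝ B] {s : Set P} {b : P → B →L[ℝ] B →L[ℝ] ℝ}
    {L : P → A →L[ℝ] B} (hb : ContDiffOn ℝ ∞ b s) (hL : ContDiffOn ℝ ∞ L s) :
    ContDiffOn ℝ ∞ (fun p => (b p).bilinearComp (L p) (L p)) s := by
  refine contDiffOn_clm_apply.2 fun v => contDiffOn_clm_apply.2 fun w => ?_
  simp only [ContinuousLinearMap.bilinearComp_apply]
  exact (hb.clm_apply (hL.clm_apply contDiffOn_const)).clm_apply (hL.clm_apply contDiffOn_const)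

variable {E : Type} [NormedAddCommGroup E] [InnerProductSpace ℝ E]
  {M : Type} [TopologicalSpace M] [ChartedSpace E M] [IsManifold 𝓘(ℝ, E) ∞ M]
  {n : ℕ} {ι : M → Amb n}

theorem md (x : M) : (chartAt E x).MDifferentiable 𝓘(ℝ, E) 𝓘(ℝ, E) :=
  haveI : IsManifold 𝓘(ℝ, E) 1 M := IsManifold.of_le (n := ∞) (by simp)
  mdifferentiable_chart x

/-- the differential of a local left inverse undoes the differential of the embedding -/
theorem back (hι : Emb E ι) (x₀ : M) {U : Set (Amb n)} {r : Amb n → E} (hU : IsOpen U)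
    (hr : ContDiff ℝ ∞ r)
    (h : ∀ x', ι x' ∈ U → x' ∈ (chartAt E x₀).source ∧ r (ι x') = chartAt E x₀ x') {x : M}
    (hx : ι x ∈ U) (v : E) :
    dif E (chartAt E x₀).symm (chartAt E x₀ x) (fderiv ℝ r (ι x) (demb E ι x v)) = v := by
  have e1 : (r ∘ ι) =ᶠ[𝓝 x] chartAt E x₀ := by
    filter_upwards [hι.sm.continuous.continuousAt.preimage_mem_nhds (hU.mem_nhds hx)] with y hy
    exact (h y hy).2
  have e2 : mfderiv 𝓘(ℝ, E) 𝓘(ℝ, E) (r ∘ ι) x =
      (mfderiv 𝓘(ℝ, Amb n) 𝓘(ℝ, E) r (ι x)).comp (mfderiv 𝓘(ℝ, E) 𝓘(ℝ, Amb n) ι x) :=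
    mfderiv_comp x (hr.contMDiff.mdifferentiableAt (by simp)) (hι.sm.mdifferentiableAt (by simp))
  rw [e1.mfderiv_eq, mfderiv_eq_fderiv] at e2
  have e3 : dif E (chartAt E x₀) x v = fderiv ℝ r (ι x) (demb E ι x v) :=
    congrArg (fun A : E →L[ℝ] E => A v) e2
  rw [← e3]
  exact congrArg (fun A : E →L[ℝ] E => A v) ((md x₀).symm_comp_deriv (h x hx).1)

variable [FiniteDimensional ℝ E] [CompactSpace M] [T2Space M]

/-- the ambient field of forms -/
theorem ambient (hL : EmbLocStmt) (hι : Emb E ι) (g : Met E M) :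
    ∃ b : Amb n → Amb n →L[ℝ] Amb n →L[ℝ] ℝ, ContDiff ℝ ∞ b ∧ (∀ p X Y, b p X Y = b p Y X) ∧
      Pull g ι b := by
  obtain ⟨k, hk⟩ := exists_contMDiffMap_forall_mem_convex_of_local (n := ⊤) 𝓘(ℝ, Amb n)
    (t := fun p : Amb n => {B : Amb n →L[ℝ] Amb n →L[ℝ] ℝ | (∀ X Y, B X Y = B Y X) ∧
      ∀ x, ι x = p → ∀ v w, g.inner x v w = B (demb E ι x v) (demb E ι x w)})
    (fun p y hy z hz a c _ _ hac => ⟨fun X Y => by
      simp only [add_apply, smul_apply, hy.1 X Y, hz.1 X Y],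
      fun x hx v w => by
        simp only [add_apply, smul_apply,
          ← hy.2 x hx v w, ← hz.2 x hx v w]
        rw [← add_smul, hac, one_smul]⟩) (fun p => by
      by_cases hp : p ∈ range ι
      · obtain ⟨x, rfl⟩ := hp
        obtain ⟨U, r, hU, hx, hr, h⟩ := (hL E M n ι hι x).2.2 x (mem_chart_source E x)
        have ho : IsOpen (U ∩ r ⁻¹' (chartAt E x).target) :=
          hU.inter ((chartAt E x).open_target.preimage hr.continuous)
        refine ⟨U ∩ r ⁻¹' (chartAt E x).target, ho.mem_nhds ⟨hx, ?_⟩,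
          fun q => (coef E g.inner x (r q)).bilinearComp (fderiv ℝ r q) (fderiv ℝ r q), ?_,
          fun q hq => ⟨fun X Y => g.symm _ _ _, fun x' e v w => ?_⟩⟩
        · rw [mem_preimage, (h x hx).2]
          exact mem_chart_target E x
        · exact (smooth_comp ((g.smooth x).comp hr.contDiffOn fun q hq => hq.2)
            (hr.fderiv_right (m := ∞) (by simp)).contDiffOn).contMDiffOn
        · subst e
          simp only [coef, ContinuousLinearMap.bilinearComp_apply]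
          rw [(h x' hq.1).2, back hι x hU hr h hq.1, back hι x hU hr h hq.1,
            (chartAt E x).left_inv (h x' hq.1).1]
      · exact ⟨(range ι)ᶜ, (isCompact_range hι.sm.continuous).isClosed.isOpen_compl.mem_nhds hp,
          0, contMDiffOn_const, fun y hy => ⟨fun _ _ => rfl, fun x' e => absurd ⟨x', e⟩ hy⟩⟩)
  exact ⟨k, k.contMDiff.contDiff, fun p => (hk p).1, fun x => (hk _).2 x rfl⟩

/-- tangent vectors of the image come from the manifold -/
theorem tangent (hL : EmbLocStmt) (hι : Emb E ι) (x : M) {X : Amb n}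
    (hX : X ∈ tangentConeAt ℝ (range ι) (ι x)) : ∃ v, X = demb E ι x v := by
  obtain ⟨h1, h2, h3⟩ := hL E M n ι hι x
  obtain ⟨U, r, hU, hx, hr, h⟩ := h3 x (mem_chart_source E x)
  have ht := mem_chart_target E x
  have d1 : DifferentiableAt ℝ (ι ∘ (chartAt E x).symm) (r (ι x)) := by
    rw [(h x hx).2]
    exact (h1.contDiffAt ((chartAt E x).open_target.mem_nhds ht)).differentiableAt (by simp)
  have d2 : DifferentiableAt ℝ r (ι x) := hr.differentiable (by simp) _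
  have e := fderiv_eq_of_eventuallyEq (f := (ι ∘ (chartAt E x).symm) ∘ r) (g := id)
    (mem_range_self x) hX (d1.comp _ d2) differentiableAt_id (by
      filter_upwards [self_mem_nhdsWithin, mem_nhdsWithin_of_mem_nhds (hU.mem_nhds hx)]
        with q q1 q2
      obtain ⟨x', rfl⟩ := q1
      simp only [Function.comp_apply, id]
      rw [(h x' q2).2, (chartAt E x).left_inv (h x' q2).1])
  rw [fderiv_comp _ d1 d2, fderiv_id, (h x hx).2, h2 _ ht,
    (chartAt E x).left_inv (mem_chart_source E x)] at e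
  exact ⟨_, e.symm⟩

/-- charts of the image -/
theorem chart (hL : EmbLocStmt) (hd : Module.finrank ℝ E = 3) (hι : Emb E ι) (x : M) :
    ∃ c : Chart (range ι), ι x ∈ c.U := by
  obtain ⟨h1, -, h3⟩ := hL E M n ι hι x
  obtain ⟨U, r, hU, hx, hr, h⟩ := h3 x (mem_chart_source E x)
  let e : E ≃L[ℝ] E3 := ContinuousLinearEquiv.ofFinrankEq (by rw [hd, finrank_euclideanSpace_fin])
  have ho : IsOpen ((chartAt E x).target ∩ (ι ∘ (chartAt E x).symm) ⁻¹' U) :=
    h1.continuousOn.isOpen_inter_preimage (chartAt E x).open_target hU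
  refine ⟨⟨(ι ∘ (chartAt E x).symm) ∘ e.symm, e ∘ r, U,
    e.symm ⁻¹' ((chartAt E x).target ∩ (ι ∘ (chartAt E x).symm) ⁻¹' U), hU,
    ho.preimage e.symm.continuous, h1.comp e.symm.contDiff.contDiffOn fun y hy => hy.1,
    (e.contDiff.comp hr).contDiffOn, fun y hy => ⟨⟨_, rfl⟩, hy.2⟩, ?_, fun y hy => ?_, ?_⟩, hx⟩
  · rintro _ ⟨⟨x', rfl⟩, hx'⟩
    simp only [mem_preimage, Function.comp_apply, e.symm_apply_apply, mem_inter_iff]
    rw [(h x' hx').2, (chartAt E x).left_inv (h x' hx').1]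
    exact ⟨(chartAt E x).map_source (h x' hx').1, hx'⟩
  · simp only [Function.comp_apply]
    rw [(h _ hy.2).2, (chartAt E x).right_inv hy.1, e.apply_symm_apply]
  · rintro _ ⟨⟨x', rfl⟩, hx'⟩
    simp only [Function.comp_apply, e.symm_apply_apply]
    rw [(h x' hx').2, (chartAt E x).left_inv (h x' hx').1]

/-- a map that is induced by a smooth ambient map is smooth -/
theorem induced (hL : EmbLocStmt) (hι : Emb E ι) {φ : Amb n → Amb n} (hφ : ContDiff ℝ ∞ φ)
    {ψ : M → M} (e : ∀ x, ι (ψ x) = φ (ι x)) : ContMDiff 𝓘(ℝ, E) 𝓘(ℝ, E) ∞ ψ := by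
  intro x
  obtain ⟨U, r, hU, hx, hr, h⟩ := (hL E M n ι hι (ψ x)).2.2 (ψ x) (mem_chart_source E _)
  have s1 : ContMDiff 𝓘(ℝ, E) 𝓘(ℝ, Amb n) ∞ (φ ∘ ι) := hφ.contMDiff.comp hι.sm
  have s2 : ContMDiffAt 𝓘(ℝ, E) 𝓘(ℝ, E) ∞ (chartAt E (ψ x)).symm ((r ∘ (φ ∘ ι)) x) := by
    simp only [Function.comp_apply]
    rw [← e, (h _ hx).2]
    exact contMDiffOn_chart_symm.contMDiffAt
      ((chartAt E (ψ x)).open_target.mem_nhds (mem_chart_target E _))
  refine (s2.comp x (hr.contMDiff.comp s1 x)).congr_of_eventuallyEq ?_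
  rw [e] at hx
  filter_upwards [s1.continuous.continuousAt.preimage_mem_nhds (hU.mem_nhds hx)] with y hy
  rw [mem_preimage, Function.comp_apply, ← e] at hy
  simp only [Function.comp_apply]
  rw [← e, (h _ hy).2, (chartAt E (ψ x)).left_inv (h _ hy).1]

end BrB

theorem brB_holds (hL : EmbLocStmt) (_hB : BasStmt) : BrBStmt := by
  intro E _ _ _ M _ _ _ _ _ _ hd n ι hι g
  obtain ⟨b, hb, hs, hp⟩ := BrB.ambient hL hι g
  refine ⟨⟨range ι, isCompact_range hι.sm.continuous, range_nonempty ι, ?_, b, hb, hs, ?_⟩,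
    rfl, hp⟩
  · rintro _ ⟨x, rfl⟩
    exact BrB.chart hL hd hι x
  · rintro _ ⟨x, rfl⟩ X hX h0
    obtain ⟨v, rfl⟩ := BrB.tangent hL hι x hX
    rw [← hp]
    exact g.pos x v fun hv => h0 (by rw [hv, map_zero])

theorem brD_holds (hL : EmbLocStmt) : BrDStmt := by
  intro E _ _ _ M _ _ _ _ _ n ι hι φ φ' hφ hφ' m m' i i' g b hb hp
  choose ψ hψ using fun x => m (mem_range_self x)
  choose ψ' hψ' using fun x => m' (mem_range_self x)
  have l1 : ∀ x, ψ' (ψ x) = x := fun x => hι.inj (by rw [hψ', hψ, i _ (mem_range_self x)])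
  have l2 : ∀ x, ψ (ψ' x) = x := fun x => hι.inj (by rw [hψ, hψ', i' _ (mem_range_self x)])
  have s := BrB.induced hL hι hφ hψ
  have s' := BrB.induced hL hι hφ' hψ'
  have hE : Emb E (φ ∘ ι) :=
    ⟨hφ.contMDiff.comp hι.sm, fun x y h => hι.inj (by
      rw [← i _ (mem_range_self x), ← i _ (mem_range_self y)]
      exact congrArg φ' h), fun f hf => by
      obtain ⟨h, h1, h2⟩ := hι.ext f hf
      exact ⟨h ∘ φ', h1.comp hφ', fun x => by
        simp only [Function.comp_apply]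
        rw [i _ (mem_range_self x), h2]⟩⟩
  have ec : φ ∘ ι = ι ∘ ψ := funext fun x => (hψ x).symm
  have ed : ∀ x, demb E (φ ∘ ι) x = demb E ι (ψ x) ∘L dif E ψ x := fun x => by
    rw [ec]
    exact mfderiv_comp x (hι.sm.mdifferentiableAt (by simp)) (s.mdifferentiableAt (by simp))
  have ei : ∀ x v, dif E ψ' (ψ x) (dif E ψ x v) = v := fun x v => by
    have e1 : mfderiv 𝓘(ℝ, E) 𝓘(ℝ, E) (ψ' ∘ ψ) x =
        (mfderiv 𝓘(ℝ, E) 𝓘(ℝ, E) ψ' (ψ x)).comp (mfderiv 𝓘(ℝ, E) 𝓘(ℝ, E) ψ x) :=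
      mfderiv_comp x (s'.mdifferentiableAt (by simp)) (s.mdifferentiableAt (by simp))
    have e2 : ψ' ∘ ψ = id := funext l1
    rw [e2, mfderiv_id] at e1
    exact (congrArg (fun A : E →L[ℝ] E => A v) e1).symm
  let hi : M → E →L[ℝ] E →L[ℝ] ℝ := fun x => (g.inner (ψ x)).bilinearComp (dif E ψ x) (dif E ψ x)
  have pull : ∀ x v w, hi x v w =
      b ((φ ∘ ι) x) (demb E (φ ∘ ι) x v) (demb E (φ ∘ ι) x w) := fun x v w => by
    rw [ed, Function.comp_apply, ← hψ]
    exact hp _ _ _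
  have co : ∀ x₀, ∀ y ∈ (chartAt E x₀).target,
      coef E hi x₀ y = pb b (φ ∘ (ι ∘ (chartAt E x₀).symm)) y := fun x₀ y hy => by
    have e1 : fderiv ℝ (φ ∘ (ι ∘ (chartAt E x₀).symm)) y = _ :=
      (hL E M n (φ ∘ ι) hE x₀).2.1 y hy
    ext v w
    simp only [coef, pb, ContinuousLinearMap.bilinearComp_apply]
    rw [pull, e1]
    rfl
  have sm : ∀ x₀, ContDiffOn ℝ ∞ (coef E hi x₀) (chartAt E x₀).target := fun x₀ => by
    have h1 : ContDiffOn ℝ ∞ (φ ∘ (ι ∘ (chartAt E x₀).symm)) (chartAt E x₀).target :=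
      (hL E M n (φ ∘ ι) hE x₀).1
    exact (BrB.smooth_comp (hb.comp_contDiffOn h1)
      (h1.fderiv_of_isOpen (m := ∞) (chartAt E x₀).open_target (by simp))).congr (co x₀)
  refine ⟨⟨hi, fun x v w => g.symm _ _ _, fun x v hv => g.pos _ _ fun h => hv ?_, sm⟩,
    ⟨⟨⟨ψ, ψ', l1, l2⟩, s, s'⟩, fun x v w => rfl⟩, hE, ?_, pull, co⟩
  · have h' : dif E ψ x v = 0 := h
    rw [← ei x v, h', map_zero]
  · rw [ec]
    exact (Function.RightInverse.surjective l2).range_comp ι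

end Pool.Agent.Lib.MP_1a4aff_gt.I3
end
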