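import Pool.Agent.Lib.MP_1a4aff_gt.I3.BrB

-- part Pool.Agent.Lib.MP_1a4aff_gt.I3.GlA
section

/-! Cubic terms and commutation defects. -/

set_option autoImplicit false

open MeasureTheory Set Filter Topology Metric
open scoped ContDiff RealInnerProductSpace ENNReal

namespace Pool.Agent.Lib.MP_1a4aff_gt.I3

namespace GlA

variable {n : ℕ}

theorem mon_cons (C : Con n) (f : List (Fin 3) × Fin 3 × Fin 3) (M : Mon) (u : Fr n) :
    C.mon (f :: M) u = C.T f.1 f.2.1 f.2.2 u * C.mon M u := by simp [Con.mon]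

theorem mon_append (C : Con n) (M M' : Mon) (u : Fr n) :
    C.mon (M ++ M') u = C.mon M u * C.mon M' u := by simp [Con.mon]

theorem mon_perm (C : Con n) {M M' : Mon} (h : M.Perm M') : C.mon M = C.mon M' := by
  funext u
  exact (h.map _).prod_eq

theorem wt_cons (f : List (Fin 3) × Fin 3 × Fin 3) (M : Mon) :
    wt (f :: M) = f.1.length + 2 + wt M := by simp [wt]

theorem wt_append (M M' : Mon) : wt (M ++ M') = wt M + wt M' := by simp [wt]

theorem wt_perm {M M' : Mon} (h : M.Perm M') : wt M = wt M' := (h.map _).sum_eq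

theorem le_wt : ∀ M : Mon, 2 * M.length ≤ wt M
  | [] => by simp
  | f :: M => by have := le_wt M; rw [wt_cons, List.length_cons]; omega

theorem mem_le_wt : ∀ M : Mon, ∀ f ∈ M, f.1.length + 2 * M.length ≤ wt M
  | [] => by simp
  | g :: M => fun f hf => by
    rw [wt_cons, List.length_cons]
    rcases List.mem_cons.1 hf with rfl | hf
    · have := le_wt M; omega
    · have := mem_le_wt M f hf; omega

theorem big_le_wt (J : ℕ) : ∀ M : Mon, (∀ f ∈ M, J < f.1.length) → (J + 3) * M.length ≤ wt M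
  | [], _ => by simp
  | g :: M, h => by
    have h1 := big_le_wt J M fun f hf => h f (List.mem_cons_of_mem _ hf)
    have h2 := h g List.mem_cons_self
    rw [wt_cons, List.length_cons, Nat.mul_succ]; omega

theorem mon_mem {r w : ℕ} (M : Mon) (hr : r ≤ M.length) (hw : wt M = w) :
    (fun i : Idx => i.G.mon M i.u) ∈ PP r w := Submodule.subset_span ⟨M, hr, hw, rfl⟩

theorem T_mem (I : List (Fin 3)) (a b : Fin 3) :
    (fun i : Idx => i.G.T I a b i.u) ∈ PP 1 (I.length + 2) := by
  have := mon_mem (r := 1) [(I, a, b)] le_rfl (w := I.length + 2) (by simp [wt])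
  simpa [Con.mon] using this

theorem mul_mem {r w r' w' : ℕ} {f f' : Idx → ℝ} (hf : f ∈ PP r w) (hf' : f' ∈ PP r' w') :
    f * f' ∈ PP (r + r') (w + w') := by
  induction hf using Submodule.span_induction with
  | mem f hf =>
    obtain ⟨M, hr, hw, rfl⟩ := hf
    induction hf' using Submodule.span_induction with
    | mem f' hf' =>
      obtain ⟨M', hr', hw', rfl⟩ := hf'
      have := mon_mem (r := r + r') (w := w + w') (M ++ M') (by rw [List.length_append]; omega)
        (by rw [wt_append, hw, hw'])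
      simp only [mon_append] at this
      exact this
    | zero => rw [mul_zero]; exact zero_mem _
    | add a b _ _ ha hb => rw [mul_add]; exact add_mem ha hb
    | smul c a _ ha => rw [mul_smul_comm]; exact Submodule.smul_mem _ _ ha
  | zero => rw [zero_mul]; exact zero_mem _
  | add a b _ _ ha hb => rw [add_mul]; exact add_mem ha hb
  | smul c a _ ha => rw [smul_mul_assoc]; exact Submodule.smul_mem _ _ ha

/-- the monomials in the derivative of a monomial -/
def dM (c : Fin 3) : Mon → List Mon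
  | [] => []
  | f :: M => ((c :: f.1, f.2) :: M) :: (dM c M).map (f :: ·)

theorem dM_spec (c : Fin 3) : ∀ M : Mon, ∀ M' ∈ dM c M, M'.length = M.length ∧ wt M' = wt M + 1
  | [] => by simp [dM]
  | f :: M => fun M' h => by
    rcases List.mem_cons.1 h with rfl | h
    · refine ⟨rfl, ?_⟩
      rw [wt_cons, wt_cons, List.length_cons]; omega
    · obtain ⟨R, hR, rfl⟩ := List.mem_map.1 h
      obtain ⟨h1, h2⟩ := dM_spec c M R hR
      rw [wt_cons, wt_cons, List.length_cons, List.length_cons, h1, h2]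
      exact ⟨rfl, by omega⟩

theorem sum_cons_mon (C : Con n) (f : List (Fin 3) × Fin 3 × Fin 3) (u : Fr n) :
    ∀ L : List Mon, ((L.map (f :: ·)).map fun M => C.mon M u).sum =
      C.T f.1 f.2.1 f.2.2 u * (L.map fun M => C.mon M u).sum
  | [] => by simp
  | M :: L => by
    rw [List.map_cons, List.map_cons, List.sum_cons, sum_cons_mon C f u L, List.map_cons,
      List.sum_cons, mon_cons, mul_add]

theorem HD_mon (C : Con n) (c : Fin 3) (u : Fr n) :
    ∀ M : Mon, C.HD (ee c) (C.mon M) u = ((dM c M).map fun M => C.mon M u).sum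
  | [] => by
    have : C.mon [] = fun _ => 1 := rfl
    simp [this, Con.HD, dM]
  | f :: M => by
    have e : C.mon (f :: M) = fun w => C.T f.1 f.2.1 f.2.2 w * C.mon M w :=
      funext (mon_cons C f M)
    rw [e, C.HD_mul _ (C.contDiff_T _ _ _) (C.contDiff_mon M), HD_mon C c u M, dM, List.map_cons,
      List.sum_cons, sum_cons_mon, mon_cons, add_comm]
    rfl

theorem list_sum_mem {κ : Type} {r w : ℕ} (F : κ → Idx → ℝ) :
    ∀ L : List κ, (∀ a ∈ L, F a ∈ PP r w) → (fun i => (L.map fun a => F a i).sum) ∈ PP r w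
  | [], _ => zero_mem _
  | a :: L, h => by
    have := add_mem (h a List.mem_cons_self)
      (list_sum_mem F L fun b hb => h b (List.mem_cons_of_mem _ hb))
    exact this

theorem sum_mem {κ : Type} [Fintype κ] {r w : ℕ} (c : κ → ℝ) (F : κ → Idx → ℝ)
    (h : ∀ a, F a ∈ PP r w) : (fun i => ∑ a, c a * F a i) ∈ PP r w := by
  have := Submodule.sum_mem (PP r w) (t := Finset.univ) (f := fun a => c a • F a)
    fun a _ => Submodule.smul_mem _ _ (h a)
  have e : (fun i => ∑ a, c a * F a i) = ∑ a, c a • F a := by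
    funext i; simp [Finset.sum_apply]
  rwa [e]

/-- horizontal derivatives of universal polynomials -/
theorem HD_closure (c : Fin 3) {r w : ℕ} {f : Idx → ℝ} (hf : f ∈ PP r w) :
    ∃ f' ∈ PP r (w + 1), ∀ (n : ℕ) (G : Geo n) (h : Fr n → ℝ), ContDiff ℝ ∞ h →
      (∀ u hu, h u = f ⟨n, G, u, hu⟩) → ∀ u hu, G.HD (ee c) h u = f' ⟨n, G, u, hu⟩ := by
  induction hf using Submodule.span_induction with
  | mem f hf =>
    obtain ⟨M, hr, hw, rfl⟩ := hf
    refine ⟨fun i => ((dM c M).map fun M' => i.G.mon M' i.u).sum,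
      list_sum_mem (fun (M' : Mon) (i : Idx) => i.G.mon M' i.u) _ fun M' hM' => ?_,
      fun n G h hh e u hu => ?_⟩
    · obtain ⟨h1, h2⟩ := dM_spec c M M' hM'
      exact mon_mem M' (h1 ▸ hr) (by rw [h2, hw])
    · rw [G.HD_congr hu _ hh (G.contDiff_mon M) fun v hv => e v hv]
      exact HD_mon _ c u M
  | zero =>
    refine ⟨0, zero_mem _, fun n G h hh e u hu => ?_⟩
    rw [G.HD_congr hu _ hh (contDiff_const (c := 0)) fun v hv => e v hv]
    simp [Con.HD]
  | add f g hf hg ha hb =>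
    obtain ⟨f', hf', ha⟩ := ha
    obtain ⟨g', hg', hb⟩ := hb
    refine ⟨f' + g', add_mem hf' hg', fun n G h hh e u hu => ?_⟩
    obtain ⟨a, sa, ea⟩ := exists_contDiff_of_PP hf G
    obtain ⟨b, sb, eb⟩ := exists_contDiff_of_PP hg G
    rw [G.HD_congr hu _ hh (sa.add sb) fun v hv => by rw [e v hv, ea v hv, eb v hv]; rfl,
      G.HD_add _ sa sb, ha n G a sa ea u hu, hb n G b sb eb u hu]
    rfl
  | smul t f hf ha =>
    obtain ⟨f', hf', ha⟩ := ha
    refine ⟨t • f', Submodule.smul_mem _ _ hf', fun n G h hh e u hu => ?_⟩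
    obtain ⟨a, sa, ea⟩ := exists_contDiff_of_PP hf G
    rw [G.HD_congr hu _ hh ((contDiff_const (c := t)).mul sa)
      fun v hv => by rw [e v hv, ea v hv]; rfl,
      G.HD_const_mul _ t sa, ha n G a sa ea u hu]
    rfl

theorem HD_mem (c : Fin 3) {r w : ℕ} (F : ∀ n, Geo n → Fr n → ℝ)
    (hF : ∀ n G, ContDiff ℝ ∞ (F n G)) (hf : (fun i : Idx => F i.n i.G i.u) ∈ PP r w) :
    (fun i : Idx => i.G.HD (ee c) (F i.n i.G) i.u) ∈ PP r (w + 1) := by
  obtain ⟨f', hf', h⟩ := HD_closure c hf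
  have : (fun i : Idx => i.G.HD (ee c) (F i.n i.G) i.u) = f' :=
    funext fun i => h i.n i.G _ (hF _ _) (fun _ _ => rfl) i.u i.hu
  rwa [this]

theorem TV_mem (y z : E3) :
    ∀ xs : List E3, (fun i : Idx => i.G.TV xs y z i.u) ∈ PP 1 (xs.length + 2)
  | [] => by
    have := sum_mem (fun a => y a) (fun a (i : Idx) => ∑ b, z b * i.G.T [] a b i.u)
      fun a => sum_mem (fun b => z b) (fun b (i : Idx) => i.G.T [] a b i.u) fun b => T_mem [] a b
    have e : (fun i : Idx => i.G.TV [] y z i.u) =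
        fun i : Idx => ∑ a, y a * ∑ b, z b * i.G.T [] a b i.u := by
      funext i
      rw [lin_sum_ee (i.G.TV_lin_y [] z i.u) y]
      refine Finset.sum_congr rfl fun a _ => ?_
      rw [lin_sum_ee (i.G.TV_lin_z [] (ee a) i.u) z]
      rfl
    rwa [e]
  | x :: xs => by
    have := sum_mem (fun c => x c) (fun c (i : Idx) => i.G.HD (ee c) (i.G.TV xs y z) i.u)
      fun c => HD_mem c (fun _ G => G.TV xs y z) (fun _ G => G.contDiff_TV xs y z) (TV_mem y z xs)
    have e : (fun i : Idx => i.G.TV (x :: xs) y z i.u) =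
        fun i : Idx => ∑ c, x c * i.G.HD (ee c) (i.G.TV xs y z) i.u := by
      funext i
      exact lin_sum_ee (i.G.HD_lin (i.G.TV xs y z) i.u) x
    rwa [e]

theorem vs_length (β : E3) : ∀ xs : List E3, ∀ l ∈ vs β xs, l.length = xs.length
  | [] => by simp [vs]
  | x :: xs => fun l h => by
    rcases List.mem_cons.1 h with rfl | h
    · rfl
    · obtain ⟨R, hR, rfl⟩ := List.mem_map.1 h
      rw [List.length_cons, List.length_cons, vs_length β xs R hR]

theorem vert_mem (hB : BiaStmt) (β y z : E3) (xs : List E3) :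
    (fun i : Idx => fderiv ℝ (i.G.TV xs y z) i.u (vert β i.u)) ∈ PP 1 (xs.length + 2) := by
  have h1 := list_sum_mem (r := 1) (w := xs.length + 2)
    (fun (l : List E3) (i : Idx) => i.G.TV l y z i.u) (vs β xs)
    fun l hl => vs_length β xs l hl ▸ TV_mem y z l
  have := add_mem (add_mem h1 (TV_mem (cr β y) z xs)) (TV_mem y (cr β z) xs)
  have e : (fun i : Idx => fderiv ℝ (i.G.TV xs y z) i.u (vert β i.u)) = fun i : Idx =>
      ((vs β xs).map fun l => i.G.TV l y z i.u).sum + i.G.TV xs (cr β y) z i.u +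
        i.G.TV xs y (cr β z) i.u :=
    funext fun i => (hB i.n i.G.toCon i.u i.hu).2.2.2.1 β xs y z
  rw [e]
  exact this

theorem swap_mem (hB : BiaStmt) (c d : Fin 3) (l : List (Fin 3)) (a b : Fin 3) :
    (fun i : Idx => i.G.T (c :: d :: l) a b i.u - i.G.T (d :: c :: l) a b i.u) ∈
      PP 2 ((c :: d :: l).length + 2) := by
  have h1 : ∀ e : Fin 3, (fun i : Idx => i.G.TV [] (cr (ee c) (ee d)) (ee e) i.u *
      fderiv ℝ (i.G.TV (l.map ee) (ee a) (ee b)) i.u (vert (ee e) i.u)) ∈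
        PP 2 ((c :: d :: l).length + 2) := fun e => by
    have := mul_mem (TV_mem (cr (ee c) (ee d)) (ee e) [])
      (vert_mem hB (ee e) (ee a) (ee b) (l.map ee))
    have e1 : ([] : List E3).length + 2 + ((l.map ee).length + 2) = (c :: d :: l).length + 2 := by
      simp; omega
    rw [e1] at this
    exact this
  have := sum_mem (fun _ => 1) _ h1
  have e : (fun i : Idx => i.G.T (c :: d :: l) a b i.u - i.G.T (d :: c :: l) a b i.u) =
      fun i : Idx => ∑ e : Fin 3, 1 * (i.G.TV [] (cr (ee c) (ee d)) (ee e) i.u *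
        fderiv ℝ (i.G.TV (l.map ee) (ee a) (ee b)) i.u (vert (ee e) i.u)) := by
    funext i
    have h2 := (hB i.n i.G.toCon i.u i.hu).2.2.2.2.1 (i.G.T l a b) (i.G.contDiff_T l a b)
      (ee c) (ee d)
    have h3 := clm_sum_ee (fderiv ℝ (i.G.T l a b) i.u ∘L vertL i.u)
      (i.G.N i.u (cr (ee c) (ee d)))
    simp only [ContinuousLinearMap.comp_apply, vertL_apply, smul_eq_mul] at h3
    rw [Con.T_cons, Con.T_cons, Con.T_cons, Con.T_cons, h2, h3]
    refine Finset.sum_congr rfl fun e _ => ?_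
    rw [one_mul, ← inner_ee]
    rfl
  rwa [e]

theorem perm_mem (hB : BiaStmt) {K₁ K₂ : List (Fin 3)} (h : K₁.Perm K₂) (a b : Fin 3) :
    (fun i : Idx => i.G.T K₁ a b i.u - i.G.T K₂ a b i.u) ∈ PP 2 (K₁.length + 2) := by
  induction h with
  | nil => simp only [sub_self]; exact zero_mem _
  | @cons x l₁ l₂ _ ih =>
    have := HD_mem x (fun _ G u => G.T l₁ a b u - G.T l₂ a b u)
      (fun _ G => (G.contDiff_T _ _ _).sub (G.contDiff_T _ _ _)) ih
    have e : (fun i : Idx => i.G.T (x :: l₁) a b i.u - i.G.T (x :: l₂) a b i.u) =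
        fun i : Idx => i.G.HD (ee x) (fun u => i.G.T l₁ a b u - i.G.T l₂ a b u) i.u := by
      funext i
      rw [Con.T_cons, Con.T_cons]
      simp [Con.HD, fderiv_fun_sub ((i.G.contDiff_T l₁ a b).differentiable (by simp) i.u)
        ((i.G.contDiff_T l₂ a b).differentiable (by simp) i.u)]
    rw [e]
    exact this
  | swap x y l => exact swap_mem hB y x l a b
  | @trans l₁ l₂ l₃ h₁ _ ih₁ ih₂ =>
    rw [← h₁.length_eq] at ih₂
    have := add_mem ih₁ ih₂
    have e : (fun i : Idx => i.G.T l₁ a b i.u - i.G.T l₃ a b i.u) =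
        (fun i : Idx => i.G.T l₁ a b i.u - i.G.T l₂ a b i.u) +
          fun i : Idx => i.G.T l₂ a b i.u - i.G.T l₃ a b i.u := by
      funext i; simp
    rwa [e]

/-- the estimate for a family of smooth functions -/
def Good (m : ℕ) (F : ∀ n, Geo n → Fr n → ℝ) : Prop :=
  ∃ C : ℝ, ∀ (n : ℕ) (G : Geo n) (δ : ℝ) (J : ℕ), 0 ≤ δ → δ ≤ 1 → 2 * m ≤ 3 * J + 2 →
    G.Bd J δ → |∫ u, F n G u ∂G.nu| ≤ C * δ * ∑ j ∈ Finset.range m, G.nn j

theorem Good.add {m : ℕ} {F F' : ∀ n, Geo n → Fr n → ℝ} (hF : ∀ n G, Continuous (F n G))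
    (hF' : ∀ n G, Continuous (F' n G)) (h : Good m F) (h' : Good m F') :
    Good m fun n G u => F n G u + F' n G u := by
  obtain ⟨C, h⟩ := h
  obtain ⟨C', h'⟩ := h'
  refine ⟨C + C', fun n G δ J h0 h1 hJ hB => ?_⟩
  rw [integral_add (G.integrable_nu (hF n G).continuousOn)
    (G.integrable_nu (hF' n G).continuousOn), add_mul, add_mul]
  exact (abs_add_le _ _).trans (add_le_add (h n G δ J h0 h1 hJ hB) (h' n G δ J h0 h1 hJ hB))

theorem contDiff_list (C : Con n) :
    ∀ L : List Mon, ContDiff ℝ ∞ fun u => (L.map fun M => C.mon M u).sum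
  | [] => contDiff_const (c := 0)
  | M :: L => (C.contDiff_mon M).add (contDiff_list C L)

theorem good_list {m : ℕ} : ∀ L : List Mon, (∀ M ∈ L, Good m fun _ G => G.mon M) →
    Good m fun _ G u => (L.map fun M => G.mon M u).sum
  | [], _ => ⟨0, fun n G δ J _ _ _ _ => by simp⟩
  | M :: L, h => Good.add (F := fun _ G => G.mon M)
      (F' := fun _ G u => (L.map fun M => G.mon M u).sum)
      (fun _ G => (G.contDiff_mon M).continuous) (fun _ G => (contDiff_list _ L).continuous)
      (h M List.mem_cons_self) (good_list L fun M' hM' => h M' (List.mem_cons_of_mem _ hM'))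

theorem abs_mon_le_one (C : Con n) (u : Fr n) :
    ∀ M : Mon, (∀ f ∈ M, |C.T f.1 f.2.1 f.2.2 u| ≤ 1) → |C.mon M u| ≤ 1
  | [], _ => by simp [Con.mon]
  | f :: M, h => by
    rw [mon_cons, abs_mul]
    exact mul_le_one₀ (h f List.mem_cons_self) (abs_nonneg _)
      (abs_mon_le_one C u M fun g hg => h g (List.mem_cons_of_mem _ hg))

theorem exists_sorted (J : ℕ) (M : Mon) (h3 : 3 ≤ M.length)
    (hw : wt M + 3 < 3 * J + 2 * M.length + 6) :
    ∃ f₁ f₂ f₃ R, M.Perm (f₁ :: f₂ :: f₃ :: R) ∧ ∀ f ∈ f₃ :: R, f.1.length ≤ J := by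
  have hp := (List.filter_append_perm (fun f => decide (J < f.1.length)) M).symm
  have hb : ∀ f ∈ M.filter (fun f => decide (J < f.1.length)), J < f.1.length := fun f hf => by
    simpa using (List.mem_filter.1 hf).2
  have hs : ∀ f ∈ M.filter (fun f => !decide (J < f.1.length)), f.1.length ≤ J := fun f hf => by
    simpa using (List.mem_filter.1 hf).2
  generalize M.filter (fun f => decide (J < f.1.length)) = B at hp hb
  generalize M.filter (fun f => !decide (J < f.1.length)) = S at hp hs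
  have hl := hp.length_eq
  have hw' := wt_perm hp
  rw [List.length_append] at hl
  rw [wt_append] at hw'
  have h1 := big_le_wt J B hb
  have h2 := le_wt S
  have hB : B.length ≤ 2 := by
    by_contra hc
    have : (J + 1) * 3 ≤ (J + 1) * B.length := Nat.mul_le_mul_left _ (by omega)
    have e : (J + 3) * B.length = (J + 1) * B.length + 2 * B.length := by ring
    omega
  rcases B with _ | ⟨b₁, _ | ⟨b₂, _ | ⟨b₃, B⟩⟩⟩
  · rcases S with _ | ⟨s₁, _ | ⟨s₂, _ | ⟨s₃, S⟩⟩⟩
    · simp only [List.length_nil] at hl; omega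
    · simp only [List.length_cons, List.length_nil] at hl; omega
    · simp only [List.length_cons, List.length_nil] at hl; omega
    · exact ⟨s₁, s₂, s₃, S, hp, fun f hf =>
        hs f (List.mem_cons_of_mem _ (List.mem_cons_of_mem _ hf))⟩
  · rcases S with _ | ⟨s₁, _ | ⟨s₂, S⟩⟩
    · simp only [List.length_cons, List.length_nil] at hl; omega
    · simp only [List.length_cons, List.length_nil] at hl; omega
    · exact ⟨b₁, s₁, s₂, S, hp, fun f hf => hs f (List.mem_cons_of_mem _ hf)⟩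
  · rcases S with _ | ⟨s₁, S⟩
    · simp only [List.length_cons, List.length_nil] at hl; omega
    · exact ⟨b₁, b₂, s₁, S, hp, hs⟩
  · simp only [List.length_cons] at hB; omega

theorem good_base {m : ℕ} (M : Mon) (h3 : 3 ≤ M.length) (hw : wt M = 2 * m + 4)
    (hm : ∀ f ∈ M, f.1.length < m) : Good m fun _ G => G.mon M := by
  refine ⟨1, fun n G δ J h0 h1 hJ hB => ?_⟩
  obtain ⟨f₁, f₂, f₃, R, hp, hs⟩ := exists_sorted J M h3 (by omega)
  have hS : ContDiff ℝ ∞ fun u => ∑ j ∈ Finset.range m, G.nd j u :=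
    ContDiff.sum fun j _ => G.contDiff_nd j
  have key : ∀ u ∈ G.F, |G.mon M u| ≤ δ * ∑ j ∈ Finset.range m, G.nd j u := fun u hu => by
    have hT : ∀ f ∈ M, G.T f.1 f.2.1 f.2.2 u ^ 2 ≤ ∑ j ∈ Finset.range m, G.nd j u := fun f hf =>
      (G.T_sq_le_nd _ _ _ u).trans (Finset.single_le_sum (f := fun j => G.nd j u)
        (fun j _ => G.nd_nonneg j u) (Finset.mem_range.2 (hm f hf)))
    have a1 := hT f₁ (hp.mem_iff.2 List.mem_cons_self)
    have a2 := hT f₂ (hp.mem_iff.2 (List.mem_cons_of_mem _ List.mem_cons_self))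
    have a3 := hB u hu f₃.1 (hs f₃ List.mem_cons_self) f₃.2.1 f₃.2.2
    have a4 := abs_mon_le_one G.toCon u R fun f hf =>
      (hB u hu f.1 (hs f (List.mem_cons_of_mem _ hf)) f.2.1 f.2.2).trans h1
    rw [mon_perm _ hp, mon_cons, mon_cons, mon_cons, abs_mul, abs_mul, abs_mul, ← mul_assoc,
      mul_comm δ]
    refine mul_le_mul ?_ ?_ (by positivity) ((sq_nonneg _).trans a1)
    · rw [← sq_abs] at a1 a2
      nlinarith [sq_nonneg (|G.T f₁.1 f₁.2.1 f₁.2.2 u| - |G.T f₂.1 f₂.2.1 f₂.2.2 u|)]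
    · exact (mul_le_of_le_one_right (abs_nonneg _) a4).trans a3
  have h2 : ∫ u, δ * ∑ j ∈ Finset.range m, G.nd j u ∂G.nu =
      δ * ∑ j ∈ Finset.range m, G.nn j := by
    rw [integral_const_mul, integral_finsetSum _ fun j _ =>
      G.integrable_nu (G.contDiff_nd j).continuous.continuousOn]
    rfl
  rw [one_mul, ← h2, ← Real.norm_eq_abs]
  exact norm_integral_le_of_norm_le
    (G.integrable_nu (contDiff_const.mul hS).continuous.continuousOn) (G.ae_F.mono key)

theorem good_cons {m : ℕ} (a b : Fin 3) : ∀ (I : List (Fin 3)) (R : Mon), m ≤ I.length + 1 →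
    2 ≤ R.length → wt ((I, a, b) :: R) = 2 * m + 4 → Good m fun _ G => G.mon ((I, a, b) :: R) := by
  have base : ∀ (I : List (Fin 3)) (R : Mon), m = I.length + 1 →
      2 ≤ R.length → wt ((I, a, b) :: R) = 2 * m + 4 →
      Good m fun _ G => G.mon ((I, a, b) :: R) := fun I R h1 h2 h3 => by
    refine good_base _ (by rw [List.length_cons]; omega) h3 fun f hf => ?_
    rcases List.mem_cons.1 hf with rfl | hf
    · show I.length < m
      omega
    · have := mem_le_wt R f hf
      rw [wt_cons] at h3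
      change I.length + 2 + wt R = _ at h3
      omega
  intro I
  induction I with
  | nil =>
    intro R h1 h2 h3
    refine base [] R ?_ h2 h3
    have := le_wt R
    rw [wt_cons] at h3
    change 0 + 2 + wt R = _ at h3
    change m ≤ 0 + 1 at h1
    change m = 0 + 1
    omega
  | cons c I ih =>
    intro R h1 h2 h3
    rcases h1.eq_or_lt with h1 | h1
    · exact base _ R h1 h2 h3
    have h4 : m ≤ I.length + 1 := by rw [List.length_cons] at h1; omega
    obtain ⟨C, hC⟩ := good_list (m := m) ((dM c R).map ((I, a, b) :: ·)) fun M hM => by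
      obtain ⟨R', hR', rfl⟩ := List.mem_map.1 hM
      obtain ⟨e1, e2⟩ := dM_spec c R R' hR'
      refine ih R' h4 (e1 ▸ h2) ?_
      rw [wt_cons] at h3 ⊢
      change I.length + 1 + 2 + wt R = _ at h3
      change I.length + 2 + wt R' = _
      omega
    refine ⟨C, fun n G δ J h0 h1 hJ hB => ?_⟩
    have e := G.integral_HD_mul (ee c) (G.contDiff_T I a b) (G.contDiff_mon R)
    have := hC n G δ J h0 h1 hJ hB
    simp only [sum_cons_mon, ← HD_mon] at this
    simp only [mon_cons, Con.T_cons]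
    rw [e, abs_neg]
    exact this

theorem good_mon {m : ℕ} (M : Mon) (h3 : 3 ≤ M.length) (hw : wt M = 2 * m + 4) :
    Good m fun _ G => G.mon M := by
  by_cases h : ∀ f ∈ M, f.1.length < m
  · exact good_base M h3 hw h
  push Not at h
  obtain ⟨⟨I, a, b⟩, hf, hm⟩ := h
  have hp := List.perm_cons_erase hf
  have hl := hp.length_eq
  rw [List.length_cons] at hl
  have := good_cons (m := m) a b I (M.erase (I, a, b)) (hm.trans (Nat.le_succ _)) (by omega)
    (by rw [← wt_perm hp, hw])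
  simp only [← mon_perm _ hp] at this
  exact this

theorem cubic (m : ℕ) {f : Idx → ℝ} (hf : f ∈ PP 3 (2 * m + 4)) :
    ∃ F : ∀ n, Geo n → Fr n → ℝ, (∀ n G, Continuous (F n G)) ∧
      (∀ n G u hu, F n G u = f ⟨n, G, u, hu⟩) ∧ Good m F := by
  induction hf using Submodule.span_induction with
  | mem f hf =>
    obtain ⟨M, hr, hw, rfl⟩ := hf
    exact ⟨fun _ G => G.mon M, fun _ G => (G.contDiff_mon M).continuous, fun _ _ _ _ => rfl,
      good_mon M hr hw⟩
  | zero =>
    exact ⟨fun _ _ _ => 0, fun _ _ => continuous_const, fun _ _ _ _ => rfl,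
      0, fun n G δ J _ _ _ _ => by simp⟩
  | add f g _ _ ha hb =>
    obtain ⟨A, a1, a2, a3⟩ := ha
    obtain ⟨B, b1, b2, b3⟩ := hb
    exact ⟨fun n G u => A n G u + B n G u, fun n G => (a1 n G).add (b1 n G),
      fun n G u hu => congrArg₂ (· + ·) (a2 n G u hu) (b2 n G u hu), Good.add a1 b1 a3 b3⟩
  | smul t f _ ha =>
    obtain ⟨A, a1, a2, C, a3⟩ := ha
    refine ⟨fun n G u => t * A n G u, fun n G => continuous_const.mul (a1 n G),
      fun n G u hu => congrArg (t * ·) (a2 n G u hu), |t| * C, fun n G δ J h0 h1 hJ hB => ?_⟩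
    rw [integral_const_mul, abs_mul, mul_assoc, mul_assoc, ← mul_assoc C]
    exact mul_le_mul_of_nonneg_left (a3 n G δ J h0 h1 hJ hB) (abs_nonneg _)

end GlA

theorem glA_holds (hB : BiaStmt) : GlAStmt := by
  refine ⟨fun m f hf => ?_, fun K₁ K₂ h a b => GlA.perm_mem hB h a b,
    fun r w r' w' f hf f' hf' => GlA.mul_mem hf hf'⟩
  obtain ⟨F, -, h2, C, h3⟩ := GlA.cubic m hf
  refine ⟨C, fun n G δ J h0 h1 hJ hb h e => ?_⟩
  rw [G.integral_congr_F (f := h) (h := F n G) fun u hu => by rw [e u hu, h2 n G u hu]]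
  exact h3 n G δ J h0 h1 hJ hb

end Pool.Agent.Lib.MP_1a4aff_gt.I3
end

-- part Pool.Agent.Lib.MP_1a4aff_gt.I3.GlC
section

/-! Leading terms of the integrals of universal polynomials. -/

set_option autoImplicit false

open MeasureTheory Set Filter Topology Metric
open scoped ContDiff RealInnerProductSpace ENNReal

namespace Pool.Agent.Lib.MP_1a4aff_gt.I3

namespace GlC

variable {n : ℕ}

/-- the integrated quadratic form -/
noncomputable def qq (G : Geo n) (xs : List E3) (a b c d : E3) : ℝ :=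
  ∫ u, G.TV [] a b u * G.TV xs c d u ∂G.nu

theorem cont_mul (G : Geo n) (xs ys : List E3) (a b c d : E3) :
    Continuous fun u => G.TV xs a b u * G.TV ys c d u :=
  (G.contDiff_TV xs a b).continuous.mul (G.contDiff_TV ys c d).continuous

theorem int_mul (G : Geo n) (xs ys : List E3) (a b c d : E3) :
    Integrable (fun u => G.TV xs a b u * G.TV ys c d u) G.nu :=
  G.integrable_nu (cont_mul G xs ys a b c d).continuousOn

theorem lin_int (G : Geo n) {F : E3 → Fr n → ℝ} (hF : ∀ x, Integrable (F x) G.nu)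
    (h : ∀ u, IsLinearMap ℝ fun x => F x u) : IsLinearMap ℝ fun x => ∫ u, F x u ∂G.nu := by
  refine ⟨fun x y => ?_, fun c x => ?_⟩
  · rw [← integral_add (hF x) (hF y)]
    exact integral_congr_ae (Eventually.of_forall fun u => (h u).map_add x y)
  · rw [smul_eq_mul, ← integral_const_mul]
    exact integral_congr_ae (Eventually.of_forall fun u => (h u).map_smul c x)

theorem lin_mul_left {f : E3 → ℝ} (hf : IsLinearMap ℝ f) (r : ℝ) :
    IsLinearMap ℝ fun x => r * f x :=
  ⟨fun x y => by rw [hf.map_add, mul_add], fun c x => by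
    rw [hf.map_smul, smul_eq_mul, smul_eq_mul]; ring⟩

theorem lin_mul_right {f : E3 → ℝ} (hf : IsLinearMap ℝ f) (r : ℝ) :
    IsLinearMap ℝ fun x => f x * r :=
  ⟨fun x y => by rw [hf.map_add, add_mul], fun c x => by
    rw [hf.map_smul, smul_eq_mul, smul_eq_mul]; ring⟩

theorem tens (hB : BiaStmt) (G : Geo n) : Tens (qq G) where
  lin xs ys a b c d := lin_int G (F := fun x u => G.TV [] a b u * G.TV (xs ++ x :: ys) c d u)
    (fun _ => int_mul G _ _ _ _ _ _) fun u => lin_mul_left (G.TV_lin xs ys c d u) _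
  lina xs b c d := lin_int G (F := fun a u => G.TV [] a b u * G.TV xs c d u)
    (fun _ => int_mul G _ _ _ _ _ _) fun u => lin_mul_right (G.TV_lin_y [] b u) _
  linc xs a b d := lin_int G (F := fun c u => G.TV [] a b u * G.TV xs c d u)
    (fun _ => int_mul G _ _ _ _ _ _) fun u => lin_mul_left (G.TV_lin_y xs d u) _
  sab xs a b c d := G.integral_congr_F fun u hu => by
    show G.TV [] a b u * G.TV xs c d u = G.TV [] b a u * G.TV xs c d u
    rw [(hB n G.toCon u hu).1 [] a b]
  scd xs a b c d := G.integral_congr_F fun u hu => by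
    show G.TV [] a b u * G.TV xs c d u = G.TV [] a b u * G.TV xs d c u
    rw [(hB n G.toCon u hu).1 xs c d]
  inv Q hQ xs a b c d := by
    unfold qq
    rw [← G.integral_rot hQ (cont_mul G [] xs a b c d)]
    refine G.integral_congr_F fun u hu => ?_
    show G.TV [] (Q a) (Q b) u * G.TV (xs.map Q) (Q c) (Q d) u =
      G.TV [] a b (rot Q u) * G.TV xs c d (rot Q u)
    rw [(hB n G.toCon u hu).2.2.1 Q hQ [] a b, (hB n G.toCon u hu).2.2.1 Q hQ xs c d]
    rfl
  bia xs a b c := by
    unfold qq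
    rw [← integral_finsetSum _ fun e _ => int_mul G _ _ _ _ _ _]
    rw [G.integral_congr_F (h := fun _ => 0) fun u hu => ?_]
    · simp
    · show ∑ e, G.TV [] a b u * G.TV (xs ++ [ee e]) c (ee e) u = 0
      rw [← Finset.mul_sum, (hB n G.toCon u hu).2.1 xs c, mul_zero]

/-- moving all derivatives to the second factor -/
theorem move (G : Geo n) (a b c d : E3) : ∀ xs ys : List E3,
    ∫ u, G.TV xs a b u * G.TV ys c d u ∂G.nu =
      (-1) ^ xs.length * qq G (xs.reverse ++ ys) a b c d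
  | [], ys => by simp [qq]
  | x :: xs, ys => by
    have h := G.integral_HD_mul x (G.contDiff_TV xs a b) (G.contDiff_TV ys c d)
    have h2 := move G a b c d xs (x :: ys)
    have e1 : G.TV (x :: xs) a b = G.HD x (G.TV xs a b) := rfl
    have e2 : G.TV (x :: ys) c d = G.HD x (G.TV ys c d) := rfl
    rw [e2] at h2
    rw [e1, h, h2, List.reverse_cons, List.append_assoc, List.singleton_append, List.length_cons,
      pow_succ]
    ring

theorem moveT (G : Geo n) (I J : List (Fin 3)) (a b c d : Fin 3) :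
    ∫ u, G.T I a b u * G.T J c d u ∂G.nu =
      (-1) ^ I.length * qb (qq G) (I.reverse ++ J) a b c d := by
  have h := move G (ee a) (ee b) (ee c) (ee d) (I.map ee) (J.map ee)
  rw [List.length_map, ← List.map_reverse, ← List.map_append] at h
  exact h

theorem qb_eq (G : Geo n) (K : List (Fin 3)) (a b c d : Fin 3) :
    qb (qq G) K a b c d = ∫ u, G.T [] a b u * G.T K c d u ∂G.nu := rfl

theorem qb_swap (G : Geo n) {m : ℕ} {K : List (Fin 3)} (hK : K.length = 2 * m) (a b c d : Fin 3) :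
    qb (qq G) K a b c d = qb (qq G) K.reverse c d a b := by
  have h := moveT G K [] c d a b
  rw [List.append_nil, hK, pow_mul, neg_one_sq, one_pow, one_mul] at h
  rw [← h, qb_eq]
  simp only [mul_comm]

theorem int_T (G : Geo n) (I J : List (Fin 3)) (a b c d : Fin 3) :
    Integrable (fun u => G.T I a b u * G.T J c d u) G.nu := int_mul G _ _ _ _ _ _

theorem qb_diag (G : Geo n) {m : ℕ} (I : Fin m → Fin 3) (a b c d : Fin 3) :
    qb (qq G) ((List.ofFn I).reverse ++ List.ofFn I) a b c d =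
      (-1) ^ m * ∫ u, G.T (List.ofFn I) a b u * G.T (List.ofFn I) c d u ∂G.nu := by
  rw [moveT, List.length_ofFn, ← mul_assoc, ← mul_pow]
  simp

theorem qX_eq (G : Geo n) (m : ℕ) : qX (qq G) m = (-1) ^ m * G.nn m := by
  unfold qX Geo.nn Con.nd
  simp only [qb_diag, sq]
  rw [integral_finsetSum _ fun I _ => integrable_finsetSum _ fun a _ =>
    integrable_finsetSum _ fun b _ => int_T G _ _ _ _ _ _, Finset.mul_sum]
  refine Finset.sum_congr rfl fun I _ => ?_
  rw [integral_finsetSum _ fun a _ =>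
    integrable_finsetSum _ fun b _ => int_T G _ _ _ _ _ _, Finset.mul_sum]
  refine Finset.sum_congr rfl fun a _ => ?_
  rw [integral_finsetSum _ fun b _ => int_T G _ _ _ _ _ _, Finset.mul_sum]

theorem qY_eq (G : Geo n) (m : ℕ) : qY (qq G) m = (-1) ^ m * G.tt m := by
  unfold qY Geo.tt Con.td
  simp only [qb_diag, sq, Finset.sum_mul_sum]
  rw [integral_finsetSum _ fun I _ => integrable_finsetSum _ fun a _ =>
    integrable_finsetSum _ fun b _ => int_T G _ _ _ _ _ _, Finset.mul_sum]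
  refine Finset.sum_congr rfl fun I _ => ?_
  rw [integral_finsetSum _ fun a _ =>
    integrable_finsetSum _ fun b _ => int_T G _ _ _ _ _ _, Finset.mul_sum]
  refine Finset.sum_congr rfl fun a _ => ?_
  rw [integral_finsetSum _ fun b _ => int_T G _ _ _ _ _ _, Finset.mul_sum]

/-- a quantity attached to every geometry is an error term with constant `C` -/
def Est (m : ℕ) (F : ∀ n, Geo n → ℝ) (C : ℝ) : Prop :=
  ∀ (n : ℕ) (G : Geo n) (δ : ℝ) (J : ℕ), 0 ≤ δ → δ ≤ 1 → 2 * m ≤ 3 * J + 2 → G.Bd J δ →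
    |F n G| ≤ C * δ * ∑ j ∈ Finset.range m, G.nn j

theorem Est.mono {m : ℕ} {F : ∀ n, Geo n → ℝ} {C C' : ℝ} (h : Est m F C) (hC : C ≤ C') :
    Est m F C' := fun n G δ J h0 h1 hJ hb =>
  (h n G δ J h0 h1 hJ hb).trans (mul_le_mul_of_nonneg_right (mul_le_mul_of_nonneg_right hC h0)
    (Finset.sum_nonneg fun j _ => G.nn_nonneg j))

theorem unif {ι : Type} [Finite ι] (m : ℕ) (F : ι → ∀ n, Geo n → ℝ) (h : ∀ i, ∃ C, Est m (F i) C) :
    ∃ C, ∀ i, Est m (F i) C := by
  choose c hc using h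
  obtain ⟨b, hb⟩ := (Set.finite_range c).bddAbove
  exact ⟨b, fun i => (hc i).mono (hb ⟨i, rfl⟩)⟩

theorem T_nil_mem (a b : Fin 3) : (fun i : Idx => i.G.T [] a b i.u) ∈ PP 1 2 :=
  Submodule.subset_span ⟨[([], a, b)], le_rfl, rfl, by funext i; simp [Con.mon]⟩

theorem perm_est (hA : GlAStmt) (m : ℕ) {K₁ K₂ : List (Fin 3)} (hK : K₁.length = 2 * m)
    (hp : K₁.Perm K₂) (a b c d : Fin 3) :
    ∃ C, Est m (fun _ G => qb (qq G) K₁ a b c d - qb (qq G) K₂ a b c d) C := by
  have h1 := hA.2.2 1 2 2 (K₁.length + 2) _ (T_nil_mem a b) _ (hA.2.1 K₁ K₂ hp c d)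
  have e : 2 + (K₁.length + 2) = 2 * m + 4 := by omega
  rw [e] at h1
  obtain ⟨C, hC⟩ := hA.1 m _ h1
  refine ⟨C, fun n G δ J h0 h1 hJ hb => ?_⟩
  have h := hC n G δ J h0 h1 hJ hb
    (fun u => G.T [] a b u * G.T K₁ c d u - G.T [] a b u * G.T K₂ c d u) fun u hu => by
      show _ = G.T [] a b u * (G.T K₁ c d u - G.T K₂ c d u)
      ring
  rw [integral_sub (int_T G _ _ _ _ _ _) (int_T G _ _ _ _ _ _)] at h
  exact h

theorem perm_unif (hA : GlAStmt) (m : ℕ) : ∃ C, ∀ K₁ K₂ : List (Fin 3), K₁.length = 2 * m →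
    K₁.Perm K₂ → ∀ a b c d,
      Est m (fun _ G => qb (qq G) K₁ a b c d - qb (qq G) K₂ a b c d) C := by
  have : Finite {l : List (Fin 3) | l.length = 2 * m} :=
    (List.finite_length_eq (Fin 3) (2 * m)).to_subtype
  let L := {l : List (Fin 3) | l.length = 2 * m}
  obtain ⟨C, hC⟩ := unif (ι := {p : L × L // p.1.1.Perm p.2.1} × Fin 3 × Fin 3 × Fin 3 × Fin 3) m
    (fun i _ G => qb (qq G) i.1.1.1.1 i.2.1 i.2.2.1 i.2.2.2.1 i.2.2.2.2 -
      qb (qq G) i.1.1.2.1 i.2.1 i.2.2.1 i.2.2.2.1 i.2.2.2.2)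
    fun i => perm_est hA m i.1.1.1.2 i.1.2 _ _ _ _
  exact ⟨C, fun K₁ K₂ hK hp a b c d =>
    hC (⟨(⟨K₁, hK⟩, ⟨K₂, hp.length_eq.symm.trans hK⟩), hp⟩, a, b, c, d)⟩

theorem quad_est (hA : GlAStmt) (hG : GlBStmt) (hB : BiaStmt) (m : ℕ) {K : List (Fin 3)}
    (hK : K.length = 2 * m) (a b c d : Fin 3) :
    ∃ α β C, Est m (fun _ G => qb (qq G) K a b c d - (α * G.nn m + β * G.tt m)) C := by
  obtain ⟨α, β, C, hC⟩ := hG m K hK a b c d
  obtain ⟨C', hC'⟩ := perm_unif hA m
  refine ⟨α * (-1) ^ m, β * (-1) ^ m, C * C', fun n G δ J h0 h1 hJ hb => ?_⟩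
  have h := hC (qq G) (tens hB G) (C' * δ * ∑ j ∈ Finset.range m, G.nn j)
    (fun K₁ K₂ hK₁ hp a b c d => hC' K₁ K₂ hK₁ hp a b c d n G δ J h0 h1 hJ hb)
    (fun K₁ hK₁ a b c d => by
      rw [qb_swap G hK₁ a b c d]
      exact hC' K₁.reverse K₁ (List.length_reverse.trans hK₁) (List.reverse_perm K₁) c d a b
        n G δ J h0 h1 hJ hb)
  rw [qX_eq, qY_eq] at h
  simpa only [mul_assoc] using h

theorem mon_est (hA : GlAStmt) (hG : GlBStmt) (hB : BiaStmt) (m : ℕ) :
    ∀ M : Mon, wt M = 2 * m + 4 →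
      ∃ α β C, Est m (fun _ G => ∫ u, G.mon M u ∂G.nu - (α * G.nn m + β * G.tt m)) C
  | [], hw => by simp [wt] at hw
  | [([], a, b)], hw => by simp [wt] at hw
  | [(c :: I, a, b)], _ => ⟨0, 0, 0, fun n G δ J _ _ _ _ => by
      have e : G.mon [(c :: I, a, b)] = G.HD (ee c) (G.T I a b) := by
        funext u; simp [Con.mon, Con.T_cons]
      have h := G.div _ (G.contDiff_T I a b) (ee c)
      simp only [e, h]
      simp⟩
  | [(I, a, b), (J, c, d)], hw => by
    have hK : (I.reverse ++ J).length = 2 * m := by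
      simp [wt] at hw ⊢; omega
    obtain ⟨α, β, C, hC⟩ := quad_est hA hG hB m hK a b c d
    refine ⟨(-1) ^ I.length * α, (-1) ^ I.length * β, C, fun n G δ L h0 h1 hJ hb => ?_⟩
    have e : G.mon [(I, a, b), (J, c, d)] = fun u => G.T I a b u * G.T J c d u := by
      funext u; simp [Con.mon]
    have h := hC n G δ L h0 h1 hJ hb
    simp only [e, moveT]
    have e2 : (-1 : ℝ) ^ I.length * qb (qq G) (I.reverse ++ J) a b c d -
        ((-1) ^ I.length * α * G.nn m + (-1) ^ I.length * β * G.tt m) =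
        (-1) ^ I.length * (qb (qq G) (I.reverse ++ J) a b c d - (α * G.nn m + β * G.tt m)) := by
      ring
    rw [e2, abs_mul, abs_pow, abs_neg, abs_one, one_pow, one_mul]
    exact h
  | f₁ :: f₂ :: f₃ :: R, hw => by
    obtain ⟨C, hC⟩ := hA.1 m (fun i => i.G.mon (f₁ :: f₂ :: f₃ :: R) i.u)
      (Submodule.subset_span ⟨_, by simp, hw, rfl⟩)
    refine ⟨0, 0, C, fun n G δ J h0 h1 hJ hb => ?_⟩
    simpa using hC n G δ J h0 h1 hJ hb (G.mon (f₁ :: f₂ :: f₃ :: R)) fun _ _ => rfl

theorem span_est (hA : GlAStmt) (hG : GlBStmt) (hB : BiaStmt) (m : ℕ) {f : Idx → ℝ}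
    (hf : f ∈ PP 0 (2 * m + 4)) :
    ∃ F : ∀ n, Geo n → Fr n → ℝ, (∀ n G, Continuous (F n G)) ∧
      (∀ n G u hu, F n G u = f ⟨n, G, u, hu⟩) ∧
      ∃ α β C, Est m (fun n G => ∫ u, F n G u ∂G.nu - (α * G.nn m + β * G.tt m)) C := by
  induction hf using Submodule.span_induction with
  | mem f hf =>
    obtain ⟨M, -, hw, rfl⟩ := hf
    exact ⟨fun _ G => G.mon M, fun _ G => (G.contDiff_mon M).continuous, fun _ _ _ _ => rfl,
      mon_est hA hG hB m M hw⟩
  | zero => exact ⟨fun _ _ _ => 0, fun _ _ => continuous_const, fun _ _ _ _ => rfl, 0, 0, 0,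
      fun n G δ J _ _ _ _ => by simp⟩
  | add f g _ _ hf hg =>
    obtain ⟨F, hF, eF, α, β, C, hC⟩ := hf
    obtain ⟨F', hF', eF', α', β', C', hC'⟩ := hg
    refine ⟨fun n G u => F n G u + F' n G u, fun n G => (hF n G).add (hF' n G),
      fun n G u hu => congrArg₂ (· + ·) (eF n G u hu) (eF' n G u hu), α + α', β + β', C + C',
      fun n G δ J h0 h1 hJ hb => ?_⟩
    have h := hC n G δ J h0 h1 hJ hb
    have h' := hC' n G δ J h0 h1 hJ hb
    simp only at h h' ⊢
    rw [integral_add (G.integrable_nu (hF n G).continuousOn)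
      (G.integrable_nu (hF' n G).continuousOn)]
    rw [abs_le] at h h' ⊢
    constructor <;> linarith [h.1, h.2, h'.1, h'.2]
  | smul r f _ hf =>
    obtain ⟨F, hF, eF, α, β, C, hC⟩ := hf
    refine ⟨fun n G u => r * F n G u, fun n G => continuous_const.mul (hF n G),
      fun n G u hu => congrArg (r * ·) (eF n G u hu), r * α, r * β, |r| * C,
      fun n G δ J h0 h1 hJ hb => ?_⟩
    have h := hC n G δ J h0 h1 hJ hb
    simp only at h ⊢
    rw [integral_const_mul]
    have e : r * ∫ u, F n G u ∂G.nu - (r * α * G.nn m + r * β * G.tt m) =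
        r * (∫ u, F n G u ∂G.nu - (α * G.nn m + β * G.tt m)) := by ring
    rw [e, abs_mul, mul_assoc, mul_assoc, ← mul_assoc C]
    exact mul_le_mul_of_nonneg_left h (abs_nonneg r)

end GlC

theorem glC_holds (hA : GlAStmt) (hG : GlBStmt) (hB : BiaStmt) : GlCStmt := by
  intro m f hf
  obtain ⟨F, -, eF, α, β, C, hC⟩ := GlC.span_est hA hG hB m hf
  refine ⟨α, β, C, fun n G δ J h0 h1 hJ hb h eh => ?_⟩
  rw [G.integral_congr_F (h := F n G) fun u hu => (eh u hu).trans (eF n G u hu).symm]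
  exact hC n G δ J h0 h1 hJ hb

end Pool.Agent.Lib.MP_1a4aff_gt.I3
end

-- part Pool.Agent.Lib.MP_1a4aff_gt.I3.Count
section

/-! A Weyl type counting bound by averaging over small geodesic balls. -/

set_option autoImplicit false

open MeasureTheory Set Filter Topology Metric
open scoped ContDiff RealInnerProductSpace ENNReal

namespace Pool.Agent.Lib.MP_1a4aff_gt.I3

namespace Count

theorem ortho0 (V : Type) [NormedAddCommGroup V] [InnerProductSpace ℝ V] [FiniteDimensional ℝ V] :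
    (∃ b : Fin (Module.finrank ℝ V) → V, ∀ c : Fin (Module.finrank ℝ V) → ℝ,
      ⟪∑ i, c i • b i, ∑ i, c i • b i⟫ = ∑ i, c i ^ 2) ∧
    ∀ Q : V →ₗ[ℝ] V →ₗ[ℝ] ℝ, ∃ L : ℝ, ∀ x, Q x x ≤ L * ⟪x, x⟫ := by
  refine ⟨⟨stdOrthonormalBasis ℝ V, fun a => ?_⟩,
    fun Q => ⟨‖Q.toContinuousBilinearMap‖, fun x => ?_⟩⟩
  · rw [(stdOrthonormalBasis ℝ V).orthonormal.inner_sum]
    simp [sq]
  · rw [real_inner_self_eq_norm_sq, sq, ← mul_assoc]
    exact (le_abs_self _).trans (Q.toContinuousBilinearMap.le_opNorm₂ x x)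

theorem ortho {V : Type} [AddCommGroup V] [Module ℝ V] [FiniteDimensional ℝ V]
    (B : V →ₗ[ℝ] V →ₗ[ℝ] ℝ) (hs : ∀ x y, B x y = B y x) (hp : ∀ x, x ≠ 0 → 0 < B x x) :
    (∃ b : Fin (Module.finrank ℝ V) → V, ∀ c : Fin (Module.finrank ℝ V) → ℝ,
      B (∑ i, c i • b i) (∑ i, c i • b i) = ∑ i, c i ^ 2) ∧
    ∀ Q : V →ₗ[ℝ] V →ₗ[ℝ] ℝ, ∃ L : ℝ, ∀ x, Q x x ≤ L * B x x := by
  have h0 : ∀ x, 0 ≤ B x x := fun x => by
    by_cases h : x = 0
    · simp [h]
    · exact (hp x h).le
  let c : InnerProductSpace.Core ℝ V :=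
    { inner := fun x y => B x y
      conj_inner_symm := fun x y => by simpa using hs y x
      re_inner_nonneg := fun x => by simpa using h0 x
      add_left := fun x y z => by simp
      smul_left := fun x y r => by simp
      definite := fun x hx => by_contra fun h => (hp x h).ne' hx }
  exact @ortho0 V c.toNormedAddCommGroup (.ofCore c.toCore) _

theorem cs {α : Type} [MeasurableSpace α] {m : Measure α} [IsFiniteMeasure m] {h : α → ℝ}
    (h0 : 0 < m.real univ) (h1 : Integrable h m) (h2 : Integrable (fun x => h x ^ 2) m) :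
    (∫ x, h x ∂m) ^ 2 ≤ m.real univ * ∫ x, h x ^ 2 ∂m := by
  have h3 : 0 ≤ ∫ x, (m.real univ ^ 2 * h x ^ 2 - 2 * m.real univ * (∫ x, h x ∂m) * h x +
      (∫ x, h x ∂m) ^ 2) ∂m := integral_nonneg fun x => by
    have := sq_nonneg (m.real univ * h x - ∫ x, h x ∂m)
    simp only [Pi.zero_apply]
    linarith
  rw [integral_add (by exact (h2.const_mul _).sub (h1.const_mul _)) (integrable_const _),
    integral_sub (h2.const_mul _) (h1.const_mul _), integral_const_mul, integral_const_mul,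
    integral_const, smul_eq_mul] at h3
  refine le_of_mul_le_mul_left ?_ h0
  linarith

variable {n : ℕ} (G : Geo n)

theorem int_prod {β : Type} [NormedAddCommGroup β] [MeasurableSpace β] [BorelSpace β]
    [SecondCountableTopology β] {m : Measure β} [IsFiniteMeasure m] {K : Set β} (hK : IsCompact K)
    (hm : m Kᶜ = 0) {f : Fr n × β → ℝ} (hf : Continuous f) : Integrable f (G.nu.prod m) := by
  refine integrable_of_conc (G.cptF.prod hK) ?_ hf.continuousOn
  rw [compl_prod_eq_union]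
  exact measure_union_null (by simp [G.lift.conc]) (by simp [hm])

/-- the smooth functions -/
def Sm (n : ℕ) : Submodule ℝ (Amb n → ℝ) where
  carrier := {f | ContDiff ℝ ∞ f}
  add_mem' hf hg := ContDiff.add (𝕜 := ℝ) (n := ∞) hf hg
  zero_mem' := contDiff_const (𝕜 := ℝ) (n := ∞) (c := 0)
  smul_mem' c _ h := ContDiff.const_smul (𝕜 := ℝ) (n := ∞) c h

theorem dif (f : Sm n) (p : Amb n) : DifferentiableAt ℝ f.1 p :=
  ContDiff.differentiable (𝕜 := ℝ) (n := ∞) f.2 (by simp) p

theorem cont_D {f : Amb n → ℝ} (hf : ContDiff ℝ ∞ f) (v : E3) :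
    Continuous fun u : Fr n => fderiv ℝ f u.1 (u.2 v) :=
  ((hf.continuous_fderiv (by simp)).comp continuous_fst).clm_apply
    (continuous_snd.clm_apply continuous_const)

theorem int_ms {f h : Amb n → ℝ} (hf : ContDiff ℝ ∞ f) (hh : ContDiff ℝ ∞ h) :
    Integrable (fun p => f p * h p) G.mu :=
  G.integrable_mu (hf.mul hh).continuous.continuousOn

theorem int_en {f h : Amb n → ℝ} (hf : ContDiff ℝ ∞ f) (hh : ContDiff ℝ ∞ h) :
    Integrable (fun u : Fr n => ∑ c, fderiv ℝ f u.1 (u.2 (ee c)) * fderiv ℝ h u.1 (u.2 (ee c)))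
      G.nu :=
  G.integrable_nu (continuous_finsetSum _ fun _ _ => (cont_D hf _).mul (cont_D hh _)).continuousOn

theorem ms_add (f g h : Sm n) : G.ms (f + g : Sm n) h = G.ms f h + G.ms g h := by
  simp only [Geo.ms, Submodule.coe_add, Pi.add_apply, add_mul]
  exact integral_add (int_ms G f.2 h.2) (int_ms G g.2 h.2)

theorem ms_smul (c : ℝ) (f h : Sm n) : G.ms (c • f : Sm n) h = c • G.ms f h := by
  simp only [Geo.ms, Submodule.coe_smul, Pi.smul_apply, smul_eq_mul, mul_assoc]
  exact integral_const_mul _ _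

theorem en_add (f g h : Sm n) : G.en (f + g : Sm n) h = G.en f h + G.en g h := by
  simp only [Geo.en, Submodule.coe_add, fun p => fderiv_add (dif f p) (dif g p),
    add_apply, add_mul, Finset.sum_add_distrib]
  exact integral_add (int_en G f.2 h.2) (int_en G g.2 h.2)

theorem en_smul (c : ℝ) (f h : Sm n) : G.en (c • f : Sm n) h = c • G.en f h := by
  simp only [Geo.en, Submodule.coe_smul, fun p => fderiv_const_smul (dif f p) c,
    smul_apply, smul_eq_mul, mul_assoc,
    ← Finset.mul_sum]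
  exact integral_const_mul _ _

noncomputable def msL : Sm n →ₗ[ℝ] Sm n →ₗ[ℝ] ℝ :=
  LinearMap.mk₂ ℝ (fun f h => G.ms f h) (ms_add G) (ms_smul G)
    (fun f g h => by rw [G.ms_comm, ms_add, G.ms_comm f, G.ms_comm f])
    fun c f g => by rw [G.ms_comm, ms_smul, G.ms_comm]

noncomputable def enL : Sm n →ₗ[ℝ] Sm n →ₗ[ℝ] ℝ :=
  LinearMap.mk₂ ℝ (fun f h => G.en f h) (en_add G) (en_smul G)
    (fun f g h => by rw [G.en_comm, en_add, G.en_comm f, G.en_comm f])
    fun c f g => by rw [G.en_comm, en_smul, G.en_comm]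

theorem orthoW (W : Submodule ℝ (Amb n → ℝ)) [FiniteDimensional ℝ W] (h1 : W ≤ Sm n)
    (h2 : ∀ f ∈ W, f ≠ 0 → 0 < G.ms f f) :
    (∃ b : Fin (Module.finrank ℝ W) → W, ∀ c : Fin (Module.finrank ℝ W) → ℝ,
      G.ms (∑ i, c i • b i : W) (∑ i, c i • b i : W) = ∑ i, c i ^ 2) ∧
    ∃ L : ℝ, ∀ f ∈ W, G.en f f ≤ L * G.ms f f := by
  obtain ⟨k1, k2⟩ := ortho ((msL G).compl₁₂ (Submodule.inclusion h1) (Submodule.inclusion h1))
    (fun x y => G.ms_comm _ _) fun x hx => h2 x x.2 (by simpa using hx)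
  obtain ⟨L, hL⟩ := k2 ((enL G).compl₁₂ (Submodule.inclusion h1) (Submodule.inclusion h1))
  exact ⟨k1, L, fun f hf => hL ⟨f, hf⟩⟩

theorem nonempty {ρ : ℝ} (hρ : 0 < ρ) (hI : G.Inj ρ) (k : ℕ) : (G.MM k).Nonempty := by
  obtain ⟨p, hp⟩ := G.ne
  obtain ⟨u, hu, -⟩ := G.frame p hp
  have h1 : G.ex u 0 ≠ G.ex u ((ρ / 2) • ee 0) := fun h => by
    have := congrArg norm (hI u hu (mem_ball_self hρ) (by
      rw [mem_ball_zero_iff, norm_smul, norm_ee, Real.norm_of_nonneg (by positivity)]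
      linarith) h)
    rw [norm_zero, norm_smul, norm_ee, Real.norm_of_nonneg (by positivity)] at this
    linarith
  obtain ⟨a, ha⟩ : ∃ a, G.ex u 0 a ≠ G.ex u ((ρ / 2) • ee 0) a := by
    by_contra! h
    exact h1 (by ext a; exact h a)
  have hc : Continuous fun v => G.ex u v a := by
    have := (G.contDiff_ex u).continuous
    fun_prop
  have hinf : (range fun v => G.ex u v a).Infinite :=
    (isPreconnected_range hc).infinite_of_nontrivial ⟨_, ⟨_, rfl⟩, _, ⟨_, rfl⟩, ha⟩
  let x : Fin (k + 1) → ℝ := fun j => hinf.natEmbedding _ j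
  have hx : Function.Injective x := fun i j h =>
    Fin.ext ((hinf.natEmbedding _).injective (Subtype.ext h))
  let Φ : (Fin (k + 1) → ℝ) →ₗ[ℝ] Amb n → ℝ :=
    Fintype.linearCombination ℝ fun i (q : Amb n) => q a ^ (i : ℕ)
  have hΦ : ∀ c q, Φ c q = ∑ i, c i * q a ^ (i : ℕ) := fun c q => by
    simp [Φ, Fintype.linearCombination_apply]
  have h2 : ∀ c, c ≠ 0 → ∃ q ∈ G.S, Φ c q ≠ 0 := fun c hc => by
    by_contra! h
    refine hc (Matrix.eq_zero_of_forall_index_sum_mul_pow_eq_zero hx fun j => ?_)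
    obtain ⟨v, hv⟩ := (hinf.natEmbedding _ j).2
    rw [← h _ (G.ex_mem hu v), hΦ]
    simp only [x, ← hv]
  have h3 : ∀ f ∈ LinearMap.range Φ, ContDiff ℝ ∞ f := by
    rintro _ ⟨c, rfl⟩
    rw [funext (hΦ c)]
    exact ContDiff.sum fun i _ => contDiff_const.mul ((contDiff_euclidean.1 contDiff_id a).pow _)
  have h4 : ∀ f ∈ LinearMap.range Φ, f ≠ 0 → 0 < G.ms f f := by
    rintro _ ⟨c, rfl⟩ h
    obtain ⟨q, hq, hq'⟩ := h2 c (by rintro rfl; simp at h)
    have := (h3 _ ⟨c, rfl⟩).continuous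
    exact G.integral_pos (this.mul this).continuousOn (fun _ _ => mul_self_nonneg _) hq
      (mul_self_pos.2 hq')
  obtain ⟨-, L, hL⟩ := orthoW G _ h3 h4
  refine ⟨L, LinearMap.range Φ, ?_, fun f hf => ⟨h3 f hf, h4 f hf, hL f hf⟩⟩
  rw [LinearMap.finrank_range_of_inj, Module.finrank_fin_fun]
  refine (injective_iff_map_eq_zero _).2 fun c h => by_contra fun hc => ?_
  obtain ⟨q, -, hq⟩ := h2 c hc
  simp [h] at hq

/-- the mean square displacement along the geodesic flow -/
theorem step {f : Amb n → ℝ} (hf : ContDiff ℝ ∞ f) (v : E3) :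
    ∫ u, (f u.1 - f (G.ex u v)) ^ 2 ∂G.nu ≤ ‖v‖ ^ 2 * G.en f f := by
  have hg := cont_D hf v
  have hE : Continuous fun z : Fr n × ℝ => G.Ex z.1 (z.2 • v) :=
    G.smEx.continuous.comp (f := fun z : Fr n × ℝ => (z.1, z.2 • v)) (by fun_prop)
  have hi : Integrable (fun z : Fr n × ℝ =>
      fderiv ℝ f (G.Ex z.1 (z.2 • v)).1 ((G.Ex z.1 (z.2 • v)).2 v) ^ 2)
      (G.nu.prod (volume.restrict (Ioc (0 : ℝ) 1))) :=
    int_prod G (isCompact_Icc (a := 0) (b := 1)) (by
      rw [Measure.restrict_apply measurableSet_Icc.compl]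
      exact measure_mono_null (fun x hx => (hx.1 (Ioc_subset_Icc_self hx.2)).elim) measure_empty)
    ((hg.comp hE).pow 2)
  have h1 : ∀ u ∈ G.F, (f u.1 - f (G.ex u v)) ^ 2 ≤ ∫ s in Ioc (0 : ℝ) 1,
      fderiv ℝ f (G.Ex u (s • v)).1 ((G.Ex u (s • v)).2 v) ^ 2 := fun u hu => by
    have hc : Continuous fun s : ℝ => fderiv ℝ f (G.Ex u (s • v)).1 ((G.Ex u (s • v)).2 v) :=
      (hg.comp hE).comp (f := fun s : ℝ => (u, s)) (by fun_prop)
    have h2 := intervalIntegral.integral_eq_sub_of_hasDerivAt (a := 0) (b := 1)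
      (f := fun s => f (G.ex u (s • v))) (fun s _ => by
        have := (hf.differentiable (by simp) _).hasFDerivAt.comp_hasDerivAt s (G.Ex_ode u hu v s).fst
        rwa [G.H_fst] at this) (hc.intervalIntegrable _ _)
    rw [intervalIntegral.integral_of_le zero_le_one, one_smul, zero_smul, G.ex_zero] at h2
    have h3 := cs (m := volume.restrict (Ioc (0 : ℝ) 1)) (by simp) hc.integrableOn_Ioc
      (hc.pow 2).integrableOn_Ioc
    rw [h2] at h3
    simp only [MeasurableSet.univ, measureReal_restrict_apply, univ_inter, Real.volume_real_Ioc,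
      sub_zero, zero_le_one, sup_of_le_left, one_mul] at h3
    linarith
  have hc : Continuous fun u : Fr n => f (G.ex u v) :=
    hf.continuous.comp (G.contDiff_Ex_left v).continuous.fst
  refine (integral_mono_ae (G.integrable_nu
    (((hf.continuous.comp continuous_fst).sub hc).pow 2).continuousOn) hi.integral_prod_left
    (G.ae_F.mono h1)).trans ?_
  rw [integral_integral_swap (f := fun (u : Fr n) (s : ℝ) =>
    fderiv ℝ f (G.Ex u (s • v)).1 ((G.Ex u (s • v)).2 v) ^ 2) hi]
  simp only [fun s : ℝ => G.integral_Ex (s • v)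
    (f := fun u => fderiv ℝ f u.1 (u.2 v) ^ 2) (hg.pow 2)]
  rw [integral_const, Geo.en, ← integral_const_mul]
  simp only [MeasurableSet.univ, measureReal_restrict_apply, univ_inter, Real.volume_real_Ioc,
    sub_zero, zero_le_one, sup_of_le_left, one_smul]
  refine integral_mono (G.integrable_nu (hg.pow 2).continuousOn) ((int_en G hf hf).const_mul _)
    fun u => ?_
  have := Finset.sum_mul_sq_le_sq_mul_sq Finset.univ (fun c => v c)
    fun c => fderiv ℝ f u.1 (u.2 (ee c))
  beta_reduce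
  rw [clm_sum_ee u.2 v, map_sum, EuclideanSpace.real_norm_sq_eq]
  simpa [sq] using this

/-- the area formula as an inequality -/
theorem area (hR : RadStmt) (hB : G.Bd 0 1) {r : ℝ} (hr : r ≤ 1 / 4) (hI : G.Inj r) {u : Fr n}
    (hu : u ∈ G.F) {f : Amb n → ℝ} (hf : Continuous f) :
    ∫ v in ball 0 r, f (G.ex u v) ^ 2 ≤ 2 * G.ms f f := by
  have he := G.contDiff_ex u
  have h1 : (volume.restrict (ball 0 r)).map (G.ex u) ≤ (2 : ℝ≥0∞) • G.mu := by
    refine Measure.le_iff.2 fun A hA => ?_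
    have hA' := he.continuous.measurable hA
    rw [Measure.map_apply he.continuous.measurable hA, Measure.restrict_apply hA',
      Measure.smul_apply, smul_eq_mul]
    have h2 := G.area.area (G.ex u) univ isOpen_univ (he.of_le (by simp)).contDiffOn
      (fun v _ => G.ex_mem hu v) (G.ex u ⁻¹' A ∩ ball 0 r) (subset_univ _)
      (hA'.inter measurableSet_ball) ((hI u hu).mono inter_subset_right)
    refine le_trans ?_ (mul_le_mul_right (measure_mono (s := G.ex u '' (G.ex u ⁻¹' A ∩ ball 0 r))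
      (by rintro _ ⟨v, hv, rfl⟩; exact hv.1)) 2)
    rw [h2, ← lintegral_const_mul' _ _ (by simp), ← setLIntegral_one]
    refine setLIntegral_mono' (hA'.inter measurableSet_ball) fun v hv => ?_
    obtain ⟨-, -, -, -, -, k1, k2⟩ := hR n G.toFlo u hu
    have h3 := (k2 hB v ((mem_ball_zero_iff.1 hv.2).le.trans hr)).2.2.1
    rw [(k1 v).2.2.2.2.1, Real.sqrt_sq (by linarith), ← ENNReal.ofReal_ofNat,
      ← ENNReal.ofReal_mul (by norm_num), ← ENNReal.ofReal_one]
    exact ENNReal.ofReal_le_ofReal (by linarith)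
  have h2 := integral_mono_measure h1 (f := fun p => f p ^ 2) (.of_forall fun _ => sq_nonneg _)
    ((G.integrable_mu (hf.pow 2).continuousOn).smul_measure (by simp))
  rw [integral_map he.continuous.aemeasurable (by exact (hf.pow 2).aestronglyMeasurable),
    integral_smul_measure] at h2
  simpa [Geo.ms, sq] using h2

theorem main (hR : RadStmt) (hB : G.Bd 0 1) {r : ℝ} (hr0 : 0 < r) (hr : r ≤ 1 / 4)
    (hI : G.Inj r) {m : ℕ} {b : Fin m → Amb n → ℝ} (hb : ∀ i, ContDiff ℝ ∞ (b i))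
    (ho : ∀ c : Fin m → ℝ, G.ms (∑ i, c i • b i) (∑ i, c i • b i) = ∑ i, c i ^ 2)
    (h1 : ∀ i, G.ms (b i) (b i) = 1) (hL : ∀ i, r ^ 2 * G.en (b i) (b i) ≤ 1 / 4) :
    m * volume.real (ball (0 : E3) r) ≤ 8 * G.V := by
  set w := volume.real (ball (0 : E3) r) with hw
  have hw0 : 0 < w := ENNReal.toReal_pos (measure_ball_pos _ _ hr0).ne' measure_ball_lt_top.ne
  have hfin : IsFiniteMeasure (volume.restrict (ball (0 : E3) r)) :=
    isFiniteMeasure_restrict.2 measure_ball_lt_top.ne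
  have hw1 : (volume.restrict (ball (0 : E3) r)).real univ = w := by simp [hw]
  have hio : ∀ {h : E3 → ℝ}, Continuous h → Integrable h (volume.restrict (ball (0 : E3) r)) :=
    fun hh => (hh.continuousOn.integrableOn_compact (isCompact_closedBall 0 r)).mono_set
      ball_subset_closedBall
  have hcs : ∀ {h : E3 → ℝ}, Continuous h →
      (∫ v in ball 0 r, h v) ^ 2 ≤ w * ∫ v in ball 0 r, h v ^ 2 := fun hh =>
    hw1 ▸ cs (hw1 ▸ hw0) (hio hh) (hio (hh.pow 2))
  have hc : ∀ i u, Continuous fun v => b i (G.ex u v) := fun i u =>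
    (hb i).continuous.comp (G.contDiff_ex u).continuous
  have hi : ∀ i, Integrable (fun z : Fr n × E3 => (b i z.1.1 - b i (G.ex z.1 z.2)) ^ 2)
      (G.nu.prod (volume.restrict (ball (0 : E3) r))) := fun i =>
    int_prod G (isCompact_closedBall 0 r) (by
      rw [Measure.restrict_apply measurableSet_closedBall.compl]
      exact measure_mono_null (fun x hx => (hx.1 (ball_subset_closedBall hx.2)).elim)
        measure_empty) ((((hb i).continuous.comp continuous_fst.fst).sub
      ((hb i).continuous.comp G.contDiff_ex₂.continuous)).pow 2)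
  have h2 : ∀ u ∈ G.F, ∑ i, w ^ 2 * (b i u.1 * b i u.1) ≤
      4 * w + ∑ i, 2 * w * ∫ v in ball 0 r, (b i u.1 - b i (G.ex u v)) ^ 2 := fun u hu => by
    obtain ⟨c, hcd⟩ : ∃ c : Fin m → ℝ, ∀ i, c i = ∫ v in ball 0 r, b i (G.ex u v) :=
      ⟨_, fun _ => rfl⟩
    have hf : Continuous (∑ i, c i • b i) := by
      rw [Finset.sum_fn]
      exact continuous_finsetSum _ fun i _ => (hb i).continuous.const_smul _
    have k1 := hcs (hf.comp (G.contDiff_ex u).continuous)
    have k2 := area G hR hB hr hI hu hf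
    have k3 : ∫ v in ball 0 r, (∑ i, c i • b i) (G.ex u v) = ∑ i, c i ^ 2 := by
      simp only [Finset.sum_apply, Pi.smul_apply, smul_eq_mul]
      rw [integral_finsetSum _ fun i _ => (hio (hc i u)).const_mul _]
      simp only [integral_const_mul, ← hcd, sq]
    simp only [Function.comp_apply] at k1
    rw [k3] at k1
    rw [ho] at k2
    have k4 : ∑ i, c i ^ 2 ≤ 2 * w := by
      have k0 : 0 ≤ ∑ i, c i ^ 2 := by positivity
      by_contra! k
      nlinarith [mul_le_mul_of_nonneg_left k2 hw0.le]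
    have k5 : ∀ i, w ^ 2 * (b i u.1 * b i u.1) ≤
        2 * c i ^ 2 + 2 * w * ∫ v in ball 0 r, (b i u.1 - b i (G.ex u v)) ^ 2 := fun i => by
      have := hcs (h := fun v => b i u.1 - b i (G.ex u v)) (continuous_const.sub (hc i u))
      rw [integral_sub (integrable_const _) (hio (hc i u)), integral_const, hw1, ← hcd,
        smul_eq_mul] at this
      nlinarith [sq_nonneg (w * b i u.1 - 2 * c i)]
    refine (Finset.sum_le_sum fun i _ => k5 i).trans ?_
    rw [Finset.sum_add_distrib, ← Finset.mul_sum]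
    linarith
  have hj : ∀ i, Integrable (fun u : Fr n => w ^ 2 * (b i u.1 * b i u.1)) G.nu := fun i =>
    (G.integrable_nu (((hb i).mul (hb i)).continuous.comp continuous_fst).continuousOn).const_mul _
  have hk := fun i => (hi i).integral_prod_left.const_mul (2 * w)
  have h3 := integral_mono_ae (integrable_finsetSum _ fun i _ => hj i)
    ((integrable_const _).add (integrable_finsetSum _ fun i _ => hk i)) (G.ae_F.mono h2)
  simp only [Pi.add_apply] at h3
  rw [integral_finsetSum _ fun i _ => hj i, integral_add (integrable_const _)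
    (integrable_finsetSum _ fun i _ => hk i), integral_finsetSum _ fun i _ => hk i,
    integral_const, G.nu_real_univ, smul_eq_mul] at h3
  have h4 : ∀ i, ∫ u : Fr n, w ^ 2 * (b i u.1 * b i u.1) ∂G.nu = w ^ 2 := fun i => by
    rw [integral_const_mul, G.integral_fst (f := fun p => b i p * b i p)
      ((hb i).mul (hb i)).continuous.aestronglyMeasurable]
    exact (congrArg _ (h1 i)).trans (mul_one _)
  have h5 : ∀ i, ∫ u : Fr n, 2 * w * ∫ v in ball 0 r, (b i u.1 - b i (G.ex u v)) ^ 2 ∂volume ∂G.nu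
      ≤ w ^ 2 / 2 := fun i => by
    rw [integral_const_mul, integral_integral_swap
      (f := fun (u : Fr n) (v : E3) => (b i u.1 - b i (G.ex u v)) ^ 2) (hi i)]
    have k1 := setIntegral_mono_on (hi i).integral_prod_right (integrable_const (1 / 4 : ℝ))
      measurableSet_ball fun v hv => (step G (hb i) v).trans (le_trans
        (mul_le_mul_of_nonneg_right (pow_le_pow_left₀ (norm_nonneg _)
          (mem_ball_zero_iff.1 hv).le 2)
          (integral_nonneg fun _ => Finset.sum_nonneg fun _ _ => mul_self_nonneg _)) (hL i))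
    rw [integral_const, hw1, smul_eq_mul] at k1
    nlinarith
  have h6 := Finset.sum_le_sum fun i (_ : i ∈ Finset.univ) => h5 i
  simp only [h4, Finset.sum_const, Finset.card_univ, Fintype.card_fin, nsmul_eq_mul] at h3 h6
  refine le_of_mul_le_mul_left ?_ hw0
  nlinarith

end Count

open Pool.Agent.Lib.MP_1a4aff_gt.I3.Count in
theorem count_holds (hR : RadStmt) (hI : InjStmt) : CountStmt := by
  intro n G hB
  obtain ⟨K, hK⟩ := hI.1 n G.toCon
  obtain ⟨ρ, hρ, hρ', h⟩ := hI.2.2 K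
  have hJ := h n G.toFlo hB hK
  have hc : 0 < volume.real (ball (0 : E3) 1) :=
    ENNReal.toReal_pos (measure_ball_pos _ _ one_pos).ne' measure_ball_lt_top.ne
  refine ⟨nonempty G hρ hJ, 8 * G.V / (ρ ^ 3 * volume.real (ball (0 : E3) 1)), ?_⟩
  rintro k L ⟨W, hW, hL⟩
  have := Module.finite_of_finrank_eq_succ hW
  obtain ⟨⟨b, hb⟩, -⟩ := orthoW G W (fun f hf => (hL f hf).1) fun f hf => (hL f hf).2.1
  have h1 : ∀ i, G.ms (b i) (b i) = 1 := fun i => by
    simpa [Pi.single_apply] using hb (Pi.single i 1)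
  have h2 : ∀ i, G.en (b i) (b i) ≤ L := fun i => by simpa [h1] using (hL _ (b i).2).2.2
  have h0 : 0 ≤ L := le_trans
    (integral_nonneg fun _ => Finset.sum_nonneg fun _ _ => mul_self_nonneg _) (h2 ⟨0, by omega⟩)
  refine ⟨h0, ?_⟩
  obtain ⟨s, hs1, hs⟩ : ∃ s : ℝ, 1 ≤ s ∧ s ^ 2 = 1 + L :=
    ⟨√(1 + L), Real.one_le_sqrt.2 (by linarith), Real.sq_sqrt (by linarith)⟩
  have hr : ρ / s ≤ ρ := div_le_self hρ.le hs1
  have h3 := main G hR hB (r := ρ / s) (by positivity) (hr.trans hρ') (hJ.mono hr)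
    (b := fun i => b i) (fun i => (hL _ (b i).2).1) (fun c => by simpa using hb c) h1 fun i => by
      refine (mul_le_mul_of_nonneg_left (h2 i) (sq_nonneg _)).trans ?_
      rw [div_pow, div_mul_eq_mul_div, div_le_iff₀ (by positivity), hs]
      nlinarith [mul_le_mul hρ' hρ' hρ.le (by norm_num)]
  rw [hW, Measure.real, Measure.addHaar_ball_of_pos _ _ (by positivity), ENNReal.toReal_mul,
    ENNReal.toReal_ofReal (by positivity), finrank_euclideanSpace_fin, ← Measure.real] at h3
  have hV : 0 ≤ G.V := measureReal_nonneg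
  rw [← hs, div_mul_eq_mul_div, le_div_iff₀ (by positivity)]
  push_cast at h3
  rw [div_pow, div_mul_eq_mul_div, ← mul_div_assoc, div_le_iff₀ (by positivity)] at h3
  refine h3.trans (mul_le_mul_of_nonneg_left ?_ (by positivity))
  rw [← pow_mul]
  exact pow_le_pow_right₀ hs1 (by norm_num)

end Pool.Agent.Lib.MP_1a4aff_gt.I3
end
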