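import Pool.Agent.Lib.MP_1a4aff_gt.I3.Gen

/-! Embedded closed three-manifolds, their frame bundles and the analytic objects on them. -/

set_option autoImplicit false

open MeasureTheory Set Filter Topology
open scoped ContDiff RealInnerProductSpace ENNReal

namespace Pool.Agent.Lib.MP_1a4aff_gt.I3

/-- the ambient space of the frame bundle -/
abbrev Fr (n : ℕ) := Amb n × (E3 →L[ℝ] Amb n)

variable {n : ℕ}

/-- right action of linear maps on frames -/
noncomputable def rot (Q : E3 →L[ℝ] E3) (u : Fr n) : Fr n := (u.1, u.2 ∘L Q)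

/-- vertical vector fields -/
noncomputable def vert (β : E3) (u : Fr n) : Fr n := (0, u.2 ∘L cr β)

/-- a chart of a three-dimensional submanifold -/
structure Chart (S : Set (Amb n)) where
  j : E3 → Amb n
  r : Amb n → E3
  U : Set (Amb n)
  V : Set E3
  openU : IsOpen U
  openV : IsOpen V
  smj : ContDiffOn ℝ ∞ j V
  smr : ContDiffOn ℝ ∞ r U
  jmem : MapsTo j V (S ∩ U)
  rmem : MapsTo r (S ∩ U) V
  rj : ∀ y ∈ V, r (j y) = y
  jr : ∀ p ∈ S ∩ U, j (r p) = p

/-- a compact three-dimensional submanifold with a Riemannian metric -/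
structure Data (n : ℕ) where
  S : Set (Amb n)
  cpt : IsCompact S
  ne : S.Nonempty
  ch : ∀ p ∈ S, ∃ c : Chart S, p ∈ c.U
  g : Amb n → Amb n →L[ℝ] Amb n →L[ℝ] ℝ
  smg : ContDiff ℝ ∞ g
  symm : ∀ p X Y, g p X Y = g p Y X
  pos : ∀ p ∈ S, ∀ X ∈ tangentConeAt ℝ S p, X ≠ 0 → 0 < g p X X

/-- the orthonormal frame bundle -/
def Data.F (D : Data n) : Set (Fr n) :=
  {u | u.1 ∈ D.S ∧ (∀ x, u.2 x ∈ tangentConeAt ℝ D.S u.1) ∧
    ∀ x y, D.g u.1 (u.2 x) (u.2 y) = ⟪x, y⟫}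

/-- the Levi-Civita connection: horizontal fields `H`, canonical form `Th`, connection form `Om`
and curvature `N` -/
structure Con (n : ℕ) extends Data n where
  cptF : IsCompact toData.F
  frame : ∀ p ∈ S, ∃ u ∈ toData.F, u.1 = p
  fiber : ∀ u ∈ toData.F, ∀ u' ∈ toData.F, u.1 = u'.1 → ∃ Q, Orth Q ∧ u' = rot Q u
  span : ∀ u ∈ toData.F, ∀ X ∈ tangentConeAt ℝ S u.1, ∃ x, X = u.2 x
  H : Fr n → E3 →L[ℝ] Fr n
  smH : ContDiff ℝ ∞ H
  H_fst : ∀ u x, (H u x).1 = u.2 x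
  H_rot : ∀ Q, Orth Q → ∀ u x, H (rot Q u) x = rot Q (H u (Q x))
  H_tan : ∀ u ∈ toData.F, ∀ x, H u x ∈ posTangentConeAt toData.F u
  Th : Fr n → Fr n →L[ℝ] E3
  Om : Fr n → Fr n →L[ℝ] E3
  smTh : ContDiff ℝ ∞ Th
  smOm : ContDiff ℝ ∞ Om
  dec : ∀ u ∈ toData.F, ∀ Y ∈ tangentConeAt ℝ toData.F u,
    Y = H u (Th u Y) + vert (Om u Y) u
  Th_eq : ∀ u ∈ toData.F, ∀ x β, Th u (H u x + vert β u) = x
  Om_eq : ∀ u ∈ toData.F, ∀ x β, Om u (H u x + vert β u) = β
  N : Fr n → E3 →L[ℝ] E3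
  smN : ContDiff ℝ ∞ N
  brk : ∀ u ∈ toData.F, ∀ x y,
    fderiv ℝ (fun w => H w y) u (H u x) - fderiv ℝ (fun w => H w x) u (H u y) =
      vert (N u (cr x y)) u

/-- the geodesic flows -/
structure Flo (n : ℕ) extends Con n where
  Ex : Fr n → E3 → Fr n
  smEx : ContDiff ℝ ∞ (fun z : Fr n × E3 => Ex z.1 z.2)
  Ex_zero : ∀ u, Ex u 0 = u
  Ex_mem : ∀ u ∈ toData.F, ∀ v, Ex u v ∈ toData.F
  Ex_ode : ∀ u ∈ toData.F, ∀ v (s : ℝ),
    HasDerivAt (fun s : ℝ => Ex u (s • v)) (H (Ex u (s • v)) v) s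

/-- the Gram determinant of `A` for the form `b` -/
noncomputable def gram (b : Amb n →L[ℝ] Amb n →L[ℝ] ℝ) (A : E3 →L[ℝ] Amb n) : ℝ :=
  (Matrix.of fun i j : Fin 3 => b (A (ee i)) (A (ee j))).det

/-- `μ` is the Riemannian volume -/
structure IsArea (D : Data n) (μ : Measure (Amb n)) : Prop where
  fin : IsFiniteMeasure μ
  conc : μ D.Sᶜ = 0
  pos : ∀ U, IsOpen U → (D.S ∩ U).Nonempty → μ U ≠ 0
  area : ∀ (e : E3 → Amb n) (O : Set E3), IsOpen O → ContDiffOn ℝ 1 e O → MapsTo e O D.S →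
    ∀ A ⊆ O, MeasurableSet A → InjOn e A →
      μ (e '' A) = ∫⁻ y in A, ENNReal.ofReal (Real.sqrt (gram (D.g (e y)) (fderiv ℝ e y)))

/-- `ν` is the invariant lift of `μ` to the frame bundle -/
structure IsLift (D : Data n) (μ : Measure (Amb n)) (ν : Measure (Fr n)) : Prop where
  conc : ν D.Fᶜ = 0
  fst : ν.map Prod.fst = μ
  rot : ∀ Q, Orth Q → ν.map (rot Q) = ν

/-- derivative along the horizontal field of `x` -/
noncomputable def Con.HD (C : Con n) (x : E3) (f : Fr n → ℝ) (u : Fr n) : ℝ :=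
  fderiv ℝ f u (C.H u x)

/-- the volume and the Liouville measure -/
structure Geo (n : ℕ) extends Flo n where
  mu : Measure (Amb n)
  nu : Measure (Fr n)
  area : IsArea toData mu
  lift : IsLift toData mu nu
  div : ∀ f : Fr n → ℝ, ContDiff ℝ ∞ f → ∀ x, ∫ u, toCon.HD x f u ∂nu = 0
  pres : ∀ v, nu.map (fun u => Ex u v) = nu

namespace Con

variable (C : Con n)

/-- covariant derivatives of the curvature; the last entry of the list is the innermost one -/
noncomputable def TV : List E3 → E3 → E3 → Fr n → ℝ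
  | [], y, z => fun u => ⟪C.N u y, z⟫
  | x :: xs, y, z => C.HD x (TV xs y z)

/-- their components -/
noncomputable def T (I : List (Fin 3)) (a b : Fin 3) : Fr n → ℝ := C.TV (I.map ee) (ee a) (ee b)

/-- bound on the components of order at most `J` -/
def Bd (J : ℕ) (B : ℝ) : Prop :=
  ∀ u ∈ C.F, ∀ I : List (Fin 3), I.length ≤ J → ∀ a b, |C.T I a b u| ≤ B

/-- squared norm of the `m`-th derivative of the curvature -/
noncomputable def nd (m : ℕ) (u : Fr n) : ℝ :=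
  ∑ I : Fin m → Fin 3, ∑ a, ∑ b, C.T (List.ofFn I) a b u ^ 2

/-- squared norm of the `m`-th derivative of its trace -/
noncomputable def td (m : ℕ) (u : Fr n) : ℝ :=
  ∑ I : Fin m → Fin 3, (∑ a, C.T (List.ofFn I) a a u) ^ 2

/-- pull-back of the canonical form -/
noncomputable def al {P : Type} [NormedAddCommGroup P] [NormedSpace ℝ P] (Γ : P → Fr n) (y : P) :
    P →L[ℝ] E3 := C.Th (Γ y) ∘L fderiv ℝ Γ y

/-- pull-back of the connection form -/
noncomputable def be {P : Type} [NormedAddCommGroup P] [NormedSpace ℝ P] (Γ : P → Fr n) (y : P) :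
    P →L[ℝ] E3 := C.Om (Γ y) ∘L fderiv ℝ Γ y

/-- ambient bounds -/
def KB (K : ℝ) : Prop :=
  ∀ u ∈ C.F, ‖C.H u‖ ≤ K ∧ ‖u.2‖ ≤ K ∧ ∀ x, ‖x‖ ≤ K * ‖u.2 x‖

end Con

/-- the lists obtained by replacing one entry `x` by `β × x` -/
noncomputable def vs (β : E3) : List E3 → List (List E3)
  | [] => []
  | x :: xs => (cr β x :: xs) :: (vs β xs).map (x :: ·)

/-- derivative along a basis vector -/
noncomputable def dd (i : Fin 3) (f : E3 → ℝ) (v : E3) : ℝ := fderiv ℝ f v (ee i)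

/-- radial integration -/
noncomputable def rad (k : ℕ) (f : E3 → ℝ) (v : E3) : ℝ := ∫ s in (0 : ℝ)..1, s ^ k * f (s • v)

/-- the Gaussian -/
noncomputable def gs (t : ℝ) (v : E3) : ℝ :=
  (4 * Real.pi * t) ^ (-(3 / 2) : ℝ) * Real.exp (-(‖v‖ ^ 2 / (4 * t)))

namespace Flo

variable (X : Flo n)

/-- the exponential map -/
noncomputable def ex (u : Fr n) (v : E3) : Amb n := (X.Ex u v).1

noncomputable def th (u : Fr n) : E3 → E3 →L[ℝ] E3 := X.al (X.Ex u)

noncomputable def om (u : Fr n) : E3 → E3 →L[ℝ] E3 := X.be (X.Ex u)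

noncomputable def thM (u : Fr n) (v : E3) : Matrix (Fin 3) (Fin 3) ℝ :=
  Matrix.of fun a i => X.th u v (ee i) a

/-- the volume density in normal coordinates -/
noncomputable def den (u : Fr n) (v : E3) : ℝ := (X.thM u v).det

/-- the inverse metric in normal coordinates -/
noncomputable def gi (u : Fr n) (i j : Fin 3) (v : E3) : ℝ :=
  ((X.thM u v).transpose * X.thM u v)⁻¹ i j

/-- the Laplacian in normal coordinates -/
noncomputable def Lap (u : Fr n) (f : E3 → ℝ) (v : E3) : ℝ :=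
  (X.den u v)⁻¹ * ∑ i, ∑ j, dd i (fun y => X.den u y * X.gi u i j y * dd j f y) v

/-- the Laplacian conjugated by the square root of the density -/
noncomputable def Lc (u : Fr n) (f : E3 → ℝ) (v : E3) : ℝ :=
  Real.sqrt (X.den u v) * X.Lap u (fun y => f y / Real.sqrt (X.den u y)) v

/-- the Minakshisundaram-Pleijel coefficients -/
noncomputable def bb (u : Fr n) : ℕ → E3 → ℝ
  | 0 => fun _ => 1
  | k + 1 => rad k (X.Lc u (bb u k))

/-- the parametrix with a correction `c s^(N+1)` -/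
noncomputable def par (u : Fr n) (N : ℕ) (c s : ℝ) (v : E3) : ℝ :=
  gs s v / Real.sqrt (X.den u v) *
    (∑ k ∈ Finset.range (N + 1), X.bb u k v * s ^ k + c * s ^ (N + 1))

/-- the heat operator in normal coordinates -/
noncomputable def heat (u : Fr n) (w : ℝ → E3 → ℝ) (s : ℝ) (v : E3) : ℝ :=
  deriv (fun s => w s v) s - X.Lap u (w s) v

/-- pairing of a function on the tangent space with a function on the manifold -/
noncomputable def pr (u : Fr n) (w : E3 → ℝ) (φ : Amb n → ℝ) : ℝ :=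
  ∫ v, w v * φ (X.ex u v) * X.den u v

/-- lower bound for the injectivity radius -/
def Inj (ρ : ℝ) : Prop := ∀ u ∈ X.F, InjOn (X.ex u) (Metric.ball 0 ρ)

/-- normal coordinates cut off by `χ` -/
noncomputable def cut (χ : E3 → ℝ) (u : Fr n) (p : Amb n) : E3 × ℝ :=
  ∑ᶠ v ∈ {v | X.ex u v = p}, (χ v • v, χ v)

end Flo

namespace Geo

variable (G : Geo n)

/-- the `L²` form -/
noncomputable def ms (f h : Amb n → ℝ) : ℝ := ∫ p, f p * h p ∂G.mu

/-- the Dirichlet form -/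
noncomputable def en (f h : Amb n → ℝ) : ℝ :=
  ∫ u, ∑ c, fderiv ℝ f u.1 (u.2 (ee c)) * fderiv ℝ h u.1 (u.2 (ee c)) ∂G.nu

/-- the min-max sets -/
def MM (k : ℕ) : Set ℝ :=
  {L | ∃ W : Submodule ℝ (Amb n → ℝ), Module.finrank ℝ W = k + 1 ∧
    ∀ f ∈ W, ContDiff ℝ ∞ f ∧ (f ≠ 0 → 0 < G.ms f f) ∧ G.en f f ≤ L * G.ms f f}

/-- the eigenvalues -/
noncomputable def eig (k : ℕ) : ℝ := sInf (G.MM k)

/-- `φ` is a weak eigenfunction -/
def Weak (φ : Amb n → ℝ) (lam : ℝ) : Prop :=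
  ∀ f L : Amb n → ℝ, ContDiff ℝ ∞ f → Continuous L →
    (∀ h, ContDiff ℝ ∞ h → G.en f h = G.ms L h) → G.ms L φ = lam * G.ms f φ

/-- the volume -/
noncomputable def V : ℝ := G.mu.real univ

/-- the heat invariants -/
noncomputable def hk (k : ℕ) : ℝ := ∫ u, G.bb u k 0 ∂G.nu

noncomputable def nn (m : ℕ) : ℝ := ∫ u, G.nd m u ∂G.nu

noncomputable def tt (m : ℕ) : ℝ := ∫ u, G.td m u ∂G.nu

end Geo

/-- the heat trace of a sequence of eigenvalues -/
noncomputable def ZZ (lam : ℕ → ℝ) (t : ℝ) : ℝ := ∑' j, Real.exp (-(lam j * t))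

/-- a basis of eigenfunctions -/
structure Spec (G : Geo n) where
  ph : ℕ → Amb n → ℝ
  cont : ∀ j, Continuous (ph j)
  norm : ∀ j, G.ms (ph j) (ph j) = 1
  nonneg : ∀ j, 0 ≤ G.eig j
  summ : ∀ t > 0, Summable fun j => Real.exp (-(G.eig j * t))
  pars : ∀ f h : Amb n → ℝ, Continuous f → Continuous h →
    HasSum (fun j => G.ms f (ph j) * G.ms h (ph j)) (G.ms f h)
  weak : ∀ j, G.Weak (ph j) (G.eig j)
  bnd : ∀ t > 0, ∃ c : ℕ → ℝ, Summable c ∧
    ∀ j, ∀ p ∈ G.S, Real.exp (-(G.eig j * t)) * ph j p ^ 2 ≤ c j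
  pos : ∀ t > 0, ∀ h k : Amb n → ℝ, Continuous h → Continuous k → (∀ p ∈ G.S, 0 ≤ h p) →
    (∀ p ∈ G.S, 0 ≤ k p) →
    0 ≤ ∑' j, Real.exp (-(G.eig j * t)) * (G.ms h (ph j) * G.ms k (ph j))

/-- the heat kernel -/
noncomputable def Spec.hker {G : Geo n} (P : Spec G) (t : ℝ) (p q : Amb n) : ℝ :=
  ∑' j, Real.exp (-(G.eig j * t)) * (P.ph j p * P.ph j q)

/-- monomials in the components of the curvature and of its derivatives -/
abbrev Mon := List (List (Fin 3) × Fin 3 × Fin 3)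

/-- the weight of a monomial -/
def wt (M : Mon) : ℕ := (M.map fun f => f.1.length + 2).sum

noncomputable def Con.mon (C : Con n) (M : Mon) (u : Fr n) : ℝ :=
  (M.map fun f => C.T f.1 f.2.1 f.2.2 u).prod

/-- all frames of all geometries -/
structure Idx where
  n : ℕ
  G : Geo n
  u : Fr n
  hu : u ∈ G.F

/-- universal polynomials of weight `w` all of whose terms have degree at least `r` -/
noncomputable def PP (r w : ℕ) : Submodule ℝ (Idx → ℝ) :=
  Submodule.span ℝ {f | ∃ M : Mon, r ≤ M.length ∧ wt M = w ∧ f = fun i => i.G.mon M i.u}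

/-- the test torus -/
noncomputable def tor (x : E3) : Amb 6 :=
  WithLp.toLp 2 ![Real.cos (x 0), Real.sin (x 0), Real.cos (x 1), Real.sin (x 1), Real.cos (x 2),
    Real.sin (x 2)]

/-- the data are the test torus with the metric
`dx² + e^{2 ε p cos x} dy² + e^{2 ε q cos x} dz²` -/
def IsTor (ε p q : ℝ) (D : Data 6) : Prop :=
  D.S = range tor ∧ ∀ P X Y : Amb 6, D.g P X Y = X 0 * Y 0 + X 1 * Y 1 +
    Real.exp (2 * ε * p * P 0) * (X 2 * Y 2 + X 3 * Y 3) +
    Real.exp (2 * ε * q * P 0) * (X 4 * Y 4 + X 5 * Y 5)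

/-- the diagonal map `diag (1, a, b)` -/
noncomputable def dg (a b : ℝ) : E3 →L[ℝ] E3 :=
  LinearMap.toContinuousLinearMap (Matrix.toLpLin 2 2 (Matrix.diagonal ![1, a, b]))

/-- the global orthonormal frame of the test torus -/
noncomputable def sec (ε p q : ℝ) (x : E3) : Fr 6 :=
  (tor x, fderiv ℝ tor x ∘L
    dg (Real.exp (-(ε * p * Real.cos (x 0)))) (Real.exp (-(ε * q * Real.cos (x 0)))))

/-- iterated integral over the fundamental cube -/
noncomputable def cube (f : E3 → ℝ) : ℝ :=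
  ∫ x in (0 : ℝ)..(2 * Real.pi), ∫ y in (0 : ℝ)..(2 * Real.pi), ∫ z in (0 : ℝ)..(2 * Real.pi),
    f (WithLp.toLp 2 ![x, y, z])

end Pool.Agent.Lib.MP_1a4aff_gt.I3
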