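import Pool.Agent.Lib.MP_1a4aff_gt.I3.BrB

-- part Pool.Agent.Lib.MP_1a4aff_gt.I3.Mu
section

/-! The Riemannian volume and its area formula. -/

set_option autoImplicit false

open MeasureTheory Set Filter Topology Metric
open scoped ContDiff RealInnerProductSpace ENNReal

namespace Pool.Agent.Lib.MP_1a4aff_gt.I3

namespace Mu

variable {n : ℕ}

theorem gram_comp (b : Amb n →L[ℝ] Amb n →L[ℝ] ℝ) (A : E3 →L[ℝ] Amb n) (B : E3 →L[ℝ] E3) :
    gram b (A ∘L B) = B.det ^ 2 * gram b A := by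
  have h1 : B.det = (Matrix.of fun a i : Fin 3 => B (ee i) a).det := by
    rw [ContinuousLinearMap.det, ← LinearMap.det_toMatrix (EuclideanSpace.basisFun _ ℝ).toBasis]
    congr 1
  have h2 : (Matrix.of fun i j : Fin 3 => b ((A ∘L B) (ee i)) ((A ∘L B) (ee j))) =
      (Matrix.of fun a i : Fin 3 => B (ee i) a).transpose *
        (Matrix.of fun i j : Fin 3 => b (A (ee i)) (A (ee j))) *
        (Matrix.of fun a i : Fin 3 => B (ee i) a) := by
    ext i j
    rw [Matrix.of_apply, ContinuousLinearMap.comp_apply, ContinuousLinearMap.comp_apply,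
      clm_sum_ee A (B (ee i)), clm_sum_ee A (B (ee j))]
    simp [Matrix.mul_apply, Fin.sum_univ_three]
    ring
  rw [gram, h2, Matrix.det_mul, Matrix.det_mul, Matrix.det_transpose, ← h1, gram]
  ring

theorem gram_pos {b : Amb n →L[ℝ] Amb n →L[ℝ] ℝ} {A : E3 →L[ℝ] Amb n}
    (hs : ∀ X Y, b X Y = b Y X) (hp : ∀ x, x ≠ 0 → 0 < b (A x) (A x)) : 0 < gram b A := by
  refine Matrix.PosDef.det_pos (Matrix.posDef_iff_dotProduct_mulVec.2 ⟨?_, fun x hx => ?_⟩)
  · ext i j
    simp [hs (A (ee i))]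
  · have := hp (WithLp.toLp 2 x) (fun e => hx (by simpa using congrArg WithLp.ofLp e))
    rw [clm_sum_ee A] at this
    refine this.trans_eq ?_
    simp [dotProduct, Matrix.mulVec, Fin.sum_univ_three]
    ring

theorem meas_pre {e : E3 → Amb n} {O A : Set E3} (hO : IsOpen O) (he : ContinuousOn e O)
    (hA : A ⊆ O) (hm : MeasurableSet A) {T : Set (Amb n)} (hT : MeasurableSet T) :
    MeasurableSet (A ∩ e ⁻¹' T) := by
  classical
  have h := he.measurable_piecewise (g := fun _ => 0) continuousOn_const hO.measurableSet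
  convert hm.inter (h hT) using 1
  ext y
  exact and_congr_right fun hy => by simp [piecewise_eq_of_mem _ _ _ (hA hy)]

variable {D : Data n}

/-- the density in a chart -/
noncomputable def den (D : Data n) (e : E3 → Amb n) (y : E3) : ℝ :=
  Real.sqrt (gram (D.g (e y)) (fderiv ℝ e y))

theorem cont_den (c : Chart D.S) : ContinuousOn (den D c.j) c.V := by
  have h1 : ContinuousOn (fun y => D.g (c.j y)) c.V :=
    D.smg.continuous.comp_continuousOn c.smj.continuousOn
  have h2 : ContinuousOn (fderiv ℝ c.j) c.V :=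
    c.smj.continuousOn_fderiv_of_isOpen c.openV (by simp)
  have h : ∀ i k : Fin 3, ContinuousOn
      (fun y => D.g (c.j y) (fderiv ℝ c.j y (ee i)) (fderiv ℝ c.j y (ee k))) c.V := fun i k =>
    (h1.clm_apply (h2.clm_apply continuousOn_const)).clm_apply (h2.clm_apply continuousOn_const)
  refine Real.continuous_sqrt.comp_continuousOn ?_
  simp only [gram, Matrix.det_fin_three, Matrix.of_apply]
  exact ((((((h 0 0).mul (h 1 1)).mul (h 2 2)).sub (((h 0 0).mul (h 1 2)).mul (h 2 1))).sub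
    (((h 0 1).mul (h 1 0)).mul (h 2 2))).add (((h 0 1).mul (h 1 2)).mul (h 2 0))).add
    (((h 0 2).mul (h 1 0)).mul (h 2 1)) |>.sub (((h 0 2).mul (h 1 1)).mul (h 2 0))

theorem den_pos (hB : BasStmt) (c : Chart D.S) {y : E3} (hy : y ∈ c.V) : 0 < den D c.j y := by
  obtain ⟨h1, h2⟩ := (hB n D).1 c _ (c.jmem hy)
  rw [c.rj y hy] at h1 h2
  refine Real.sqrt_pos.2 (gram_pos (D.symm _) fun x hx => D.pos _ (c.jmem hy).1 _ ?_ fun e => hx ?_)
  · rw [h1]; exact mem_range_self x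
  · have := congrArg (fun L => L x) h2
    simpa [e] using this.symm

/-- the measure of a chart -/
noncomputable def mc (D : Data n) (c : Chart D.S) : Measure (Amb n) :=
  ((volume.restrict c.V).withDensity fun y => ENNReal.ofReal (den D c.j y)).map c.j

theorem mc_apply (c : Chart D.S) {B : Set (Amb n)} (hB : MeasurableSet B) :
    mc D c B = ∫⁻ y in c.j ⁻¹' B ∩ c.V, ENNReal.ofReal (den D c.j y) := by
  rw [mc, Measure.map_apply_of_aemeasurable ((c.smj.continuousOn.aemeasurable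
    c.openV.measurableSet).mono_ac (withDensity_absolutelyContinuous _ _)) hB, withDensity_apply',
    Measure.restrict_restrict' c.openV.measurableSet]

theorem mc_area (c : Chart D.S) {e : E3 → Amb n} {O A : Set E3} (hO : IsOpen O)
    (he : ContDiffOn ℝ 1 e O) (hS : MapsTo e O D.S) (hA : A ⊆ O) (hm : MeasurableSet A)
    (hi : InjOn e A) (hU : MapsTo e A c.U) :
    mc D c (e '' A) = ∫⁻ y in A, ENNReal.ofReal (den D e y) := by
  have hSU : ∀ y ∈ A, e y ∈ D.S ∩ c.U := fun y hy => ⟨hS (hA hy), hU hy⟩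
  have de : ∀ y ∈ A, DifferentiableAt ℝ e y := fun y hy =>
    (he.contDiffAt (hO.mem_nhds (hA hy))).differentiableAt one_ne_zero
  have dr : ∀ y ∈ A, DifferentiableAt ℝ (c.r ∘ e) y := fun y hy =>
    ((c.smr.contDiffAt (c.openU.mem_nhds (hU hy))).differentiableAt (by simp)).comp y (de y hy)
  have e1 : c.j ⁻¹' (e '' A) ∩ c.V = (c.r ∘ e) '' A := by
    ext y
    constructor
    · rintro ⟨⟨a, ha, h⟩, hy⟩
      exact ⟨a, ha, by rw [Function.comp_apply, h, c.rj y hy]⟩
    · rintro ⟨a, ha, rfl⟩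
      exact ⟨⟨a, ha, (c.jr _ (hSU a ha)).symm⟩, c.rmem (hSU a ha)⟩
  rw [mc_apply c (hm.image_of_continuousOn_injOn (he.continuousOn.mono hA) hi), e1,
    lintegral_image_eq_lintegral_abs_det_fderiv_mul volume hm
      (fun y hy => (dr y hy).hasFDerivAt.hasFDerivWithinAt) fun a ha a' ha' h =>
        hi ha ha' (by rw [← c.jr _ (hSU a ha), ← c.jr _ (hSU a' ha')]; exact congrArg c.j h)]
  refine setLIntegral_congr_fun hm fun y hy => ?_
  have e2 : e =ᶠ[𝓝 y] c.j ∘ (c.r ∘ e) := by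
    filter_upwards [hO.mem_nhds (hA hy), (de y hy).continuousAt.preimage_mem_nhds
      (c.openU.mem_nhds (hU hy))] with z h1 h2
    exact (c.jr _ ⟨hS h1, h2⟩).symm
  have dj : DifferentiableAt ℝ c.j ((c.r ∘ e) y) :=
    (c.smj.contDiffAt (c.openV.mem_nhds (c.rmem (hSU y hy)))).differentiableAt (by simp)
  have e3 : fderiv ℝ e y = fderiv ℝ c.j ((c.r ∘ e) y) ∘L fderiv ℝ (c.r ∘ e) y := by
    rw [← fderiv_comp y dj (dr y hy), ← e2.fderiv_eq]
  simp only [den]
  rw [← ENNReal.ofReal_mul (abs_nonneg _), e3, gram_comp, Real.sqrt_mul (sq_nonneg _),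
    Real.sqrt_sq_eq_abs, Function.comp_apply, c.jr _ (hSU y hy)]

/-- the area formula holds for maps into `T` -/
def Good (D : Data n) (T : Set (Amb n)) (μ : Measure (Amb n)) : Prop :=
  IsFiniteMeasure μ ∧ μ D.Sᶜ = 0 ∧
    ∀ (e : E3 → Amb n) (O : Set E3), IsOpen O → ContDiffOn ℝ 1 e O → MapsTo e O D.S →
      ∀ A ⊆ O, MeasurableSet A → InjOn e A → MapsTo e A T →
        μ (e '' A) = ∫⁻ y in A, ENNReal.ofReal (den D e y)

theorem Good.union {T T' : Set (Amb n)} {μ μ' : Measure (Amb n)} (h : Good D T μ)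
    (h' : Good D T' μ') (hT : MeasurableSet T) :
    Good D (T ∪ T') (μ.restrict T + μ'.restrict Tᶜ) := by
  obtain ⟨f, c, a⟩ := h
  obtain ⟨f', c', a'⟩ := h'
  refine ⟨inferInstance, ?_, fun e O hO he hS A hA hm hi hU => ?_⟩
  · rw [Measure.add_apply, le_antisymm ((Measure.restrict_le_self _).trans c.le) zero_le,
      le_antisymm ((Measure.restrict_le_self _).trans c'.le) zero_le, add_zero]
  · have m1 := meas_pre hO he.continuousOn hA hm hT
    have m2 := meas_pre hO he.continuousOn hA hm hT.compl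
    rw [Measure.add_apply, Measure.restrict_apply' hT, Measure.restrict_apply' hT.compl,
      ← image_inter_preimage, ← image_inter_preimage,
      a e O hO he hS _ (inter_subset_left.trans hA) m1 (hi.mono inter_subset_left) fun y hy => hy.2,
      a' e O hO he hS _ (inter_subset_left.trans hA) m2 (hi.mono inter_subset_left)
        fun y hy => (hU hy.1).resolve_left hy.2, ← lintegral_union m2, ← inter_union_distrib_left,
      ← preimage_union, union_compl_self, preimage_univ, inter_univ]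
    exact (disjoint_compl_right.preimage e).mono inter_subset_right inter_subset_right

theorem good_loc {p : Amb n} (hp : p ∈ D.S) :
    ∃ N, IsOpen N ∧ p ∈ N ∧ ∃ μ, Good D N μ := by
  obtain ⟨c, hc⟩ := D.ch p hp
  obtain ⟨ε, hε, hb⟩ := nhds_basis_closedBall.mem_iff.1 (c.openV.mem_nhds (c.rmem ⟨hp, hc⟩))
  have hN : IsOpen (c.U ∩ c.r ⁻¹' ball (c.r p) ε) :=
    c.smr.continuousOn.isOpen_inter_preimage c.openU isOpen_ball
  refine ⟨_, hN, ⟨hc, mem_ball_self hε⟩, (mc D c).restrict (c.U ∩ c.r ⁻¹' ball (c.r p) ε),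
    ⟨?_⟩, ?_, fun e O hO he hS A hA hm hi hU => ?_⟩
  · rw [Measure.restrict_apply_univ, mc_apply c hN.measurableSet]
    refine lt_of_le_of_lt (lintegral_mono_set (t := closedBall (c.r p) ε) fun y hy => ?_)
      (((cont_den c).mono hb).integrableOn_compact (isCompact_closedBall _ _)).lintegral_lt_top
    have := hy.1.2
    rw [mem_preimage, c.rj y hy.2] at this
    exact ball_subset_closedBall this
  · refine le_antisymm ((Measure.restrict_le_self _).trans (le_of_eq ?_)) zero_le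
    rw [mc_apply c D.cpt.isClosed.measurableSet.compl,
      eq_empty_of_forall_notMem fun y (hy : y ∈ c.j ⁻¹' D.Sᶜ ∩ c.V) => hy.1 (c.jmem hy.2).1,
      Measure.restrict_empty, lintegral_zero_measure]
  · rw [Measure.restrict_apply' hN.measurableSet, inter_eq_left.2 hU.image_subset]
    exact mc_area c hO he hS hA hm hi fun y hy => (hU hy).1

theorem good_all (D : Data n) : ∃ T, D.S ⊆ T ∧ MeasurableSet T ∧ ∃ μ, Good D T μ := by
  refine D.cpt.induction_on (p := fun s => ∃ T, s ⊆ T ∧ MeasurableSet T ∧ ∃ μ, Good D T μ) ?_ ?_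
    ?_ ?_
  · refine ⟨∅, Subset.rfl, MeasurableSet.empty, 0, inferInstance, rfl,
      fun e O _ _ _ A _ _ _ hU => ?_⟩
    rw [eq_empty_of_forall_notMem fun y (hy : y ∈ A) => hU hy]
    simp
  · rintro s t hst ⟨T, h1, h2⟩
    exact ⟨T, hst.trans h1, h2⟩
  · rintro s t ⟨T, h1, h2, μ, h3⟩ ⟨T', h1', h2', μ', h3'⟩
    exact ⟨T ∪ T', union_subset_union h1 h1', h2.union h2', _, h3.union h3' h2⟩
  · intro p hp
    obtain ⟨N, h1, h2, h3⟩ := good_loc hp
    exact ⟨N, mem_nhdsWithin_of_mem_nhds (h1.mem_nhds h2), N, Subset.rfl, h1.measurableSet, h3⟩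

end Mu

open Mu

theorem mu_holds (hB : BasStmt) : MuStmt := by
  intro n D
  obtain ⟨T, hT, -, μ, h1, h2, h3⟩ := good_all D
  have area : ∀ (e : E3 → Amb n) (O : Set E3), IsOpen O → ContDiffOn ℝ 1 e O → MapsTo e O D.S →
      ∀ A ⊆ O, MeasurableSet A → InjOn e A →
        μ (e '' A) = ∫⁻ y in A, ENNReal.ofReal (den D e y) := fun e O hO he hS A hA hm hi =>
    h3 e O hO he hS A hA hm hi fun y hy => hT (hS (hA hy))
  refine ⟨μ, h1, h2, fun U hU ⟨p, hp, hpU⟩ h0 => ?_, area⟩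
  obtain ⟨c, hc⟩ := D.ch p hp
  have hO : IsOpen (c.V ∩ c.j ⁻¹' U) := c.smj.continuousOn.isOpen_inter_preimage c.openV hU
  have a := area c.j _ hO ((c.smj.of_le (by simp)).mono inter_subset_left)
    (fun y hy => (c.jmem hy.1).1) _ Subset.rfl hO.measurableSet fun y hy y' hy' e => by
      rw [← c.rj y hy.1, e, c.rj y' hy'.1]
  rw [measure_mono_null (by rintro _ ⟨y, hy, rfl⟩; exact hy.2) h0, eq_comm,
    lintegral_eq_zero_iff' (((cont_den c).mono inter_subset_left).aemeasurable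
      hO.measurableSet).ennreal_ofReal, Filter.EventuallyEq,
    ae_restrict_iff' hO.measurableSet] at a
  refine hO.measure_ne_zero volume ⟨c.r p, c.rmem ⟨hp, hc⟩, ?_⟩ (measure_mono_null ?_ a)
  · rw [mem_preimage, c.jr p ⟨hp, hc⟩]; exact hpU
  · intro y hy h
    exact (ENNReal.ofReal_pos.2 (den_pos hB c hy.1)).ne' (h hy)

end Pool.Agent.Lib.MP_1a4aff_gt.I3
end

-- part Pool.Agent.Lib.MP_1a4aff_gt.I3.Conn
section

/-! The Levi-Civita connection on the frame bundle. -/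

set_option autoImplicit false

open MeasureTheory Set Filter Topology Metric
open scoped ContDiff RealInnerProductSpace Manifold

namespace Pool.Agent.Lib.MP_1a4aff_gt.I3

namespace LC

variable {n : ℕ}

/-- a smooth family of projections onto the tangent spaces -/
structure IsProj (D : Data n) (P : Amb n → Amb n →L[ℝ] Amb n) : Prop where
  sm : ContDiff ℝ ∞ P
  fix : ∀ p ∈ D.S, ∀ X ∈ tangentConeAt ℝ D.S p, P p X = X
  mem : ∀ p ∈ D.S, ∀ X, P p X ∈ tangentConeAt ℝ D.S p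
  symm : ∀ p ∈ D.S, ∀ X ∈ tangentConeAt ℝ D.S p, ∀ Y ∈ tangentConeAt ℝ D.S p,
    fderiv ℝ P p X Y = fderiv ℝ P p Y X

theorem two_le : minSmoothness ℝ 2 ≤ ∞ := by
  rw [minSmoothness_of_isRCLikeNormedField]
  exact WithTop.coe_le_coe.2 le_top

theorem exists_proj (hB : BasStmt) (D : Data n) : ∃ P, IsProj D P := by
  have hT := (hB n D).1
  obtain ⟨P, hP⟩ := exists_contMDiffMap_forall_mem_convex_of_local (n := ⊤) 𝓘(ℝ, Amb n)
    (t := fun p => {L : Amb n →L[ℝ] Amb n | p ∈ D.S →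
      (∀ X ∈ tangentConeAt ℝ D.S p, L X = X) ∧ ∀ X, L X ∈ tangentConeAt ℝ D.S p})
    (fun p L hL L' hL' a b _ _ hab hp => by
      refine ⟨fun X hX => ?_, fun X => ?_⟩
      · simp [(hL hp).1 X hX, (hL' hp).1 X hX, ← add_smul, hab]
      · obtain ⟨c, hc⟩ := D.ch p hp
        have h1 := (hL hp).2 X
        have h2 := (hL' hp).2 X
        rw [(hT c p ⟨hp, hc⟩).1] at h1 h2 ⊢
        obtain ⟨v, hv⟩ := h1
        obtain ⟨w, hw⟩ := h2
        exact ⟨a • v + b • w, by simp [hv, hw]⟩)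
    (fun p => by
      by_cases hp : p ∈ D.S
      · obtain ⟨c, hc⟩ := D.ch p hp
        have hO : IsOpen (c.U ∩ c.r ⁻¹' c.V) :=
          c.smr.continuousOn.isOpen_inter_preimage c.openU c.openV
        refine ⟨_, hO.mem_nhds ⟨hc, c.rmem ⟨hp, hc⟩⟩,
          fun q => fderiv ℝ c.j (c.r q) ∘L fderiv ℝ c.r q, ?_, fun q hq hq' => ?_⟩
        · rw [contMDiffOn_iff_contDiffOn]
          exact ((c.smj.fderiv_of_isOpen c.openV (m := ∞) (by simp)).comp
            (c.smr.mono inter_subset_left) fun q hq => hq.2).clm_comp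
            ((c.smr.fderiv_of_isOpen c.openU (m := ∞) (by simp)).mono inter_subset_left)
        · obtain ⟨h1, h2⟩ := hT c q ⟨hq', hq.1⟩
          rw [h1]
          refine ⟨?_, fun X => ⟨_, rfl⟩⟩
          rintro _ ⟨v, rfl⟩
          exact congrArg (fderiv ℝ c.j (c.r q)) (congrArg (fun L : E3 →L[ℝ] E3 => L v) h2)
      · exact ⟨_, D.cpt.isClosed.isOpen_compl.mem_nhds hp, fun _ => 0, contMDiffOn_const,
          fun q hq hq' => absurd hq' hq⟩)
  have sm : ContDiff ℝ ∞ P := P.contMDiff.contDiff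
  refine ⟨P, sm, fun p hp => (hP p hp).1, fun p hp => (hP p hp).2, fun p hp X hX Y hY => ?_⟩
  obtain ⟨c, hc⟩ := D.ch p hp
  have hy := c.rmem ⟨hp, hc⟩
  have hV := c.openV.mem_nhds hy
  have hj : ContDiffAt ℝ ∞ c.j (c.r p) := c.smj.contDiffAt hV
  have hj' : HasFDerivAt (fderiv ℝ c.j) (fderiv ℝ (fderiv ℝ c.j) (c.r p)) (c.r p) :=
    ((hj.fderiv_right (m := ∞) (by simp)).differentiableAt (by simp)).hasFDerivAt
  have key : ∀ v w, fderiv ℝ P p (fderiv ℝ c.j (c.r p) v) (fderiv ℝ c.j (c.r p) w) =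
      fderiv ℝ (fderiv ℝ c.j) (c.r p) v w - P p (fderiv ℝ (fderiv ℝ c.j) (c.r p) v w) := by
    intro v w
    have d1 : HasFDerivAt (fun y => P (c.j y)) (fderiv ℝ P p ∘L fderiv ℝ c.j (c.r p)) (c.r p) := by
      have := (sm.differentiable (by simp) (c.j (c.r p))).hasFDerivAt.comp _
        (hj.differentiableAt (by simp)).hasFDerivAt
      rwa [c.jr p ⟨hp, hc⟩] at this
    have d2 := hj'.clm_apply (hasFDerivAt_const w (c.r p))
    have d3 := d1.clm_apply d2
    have e : (fun y => fderiv ℝ c.j y w) =ᶠ[𝓝 (c.r p)] fun y => P (c.j y) (fderiv ℝ c.j y w) := by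
      filter_upwards [hV] with y hy
      refine ((hP _ (c.jmem hy).1).1 _ ?_).symm
      rw [(hT c _ (c.jmem hy)).1, c.rj y hy]
      exact ⟨_, rfl⟩
    have := congrArg (fun L : E3 →L[ℝ] Amb n => L v) ((d3.congr_of_eventuallyEq e).unique d2)
    simp only [c.jr p ⟨hp, hc⟩] at this
    simp at this
    rw [eq_sub_iff_add_eq, add_comm]
    exact this
  rw [(hT c p ⟨hp, hc⟩).1] at hX hY
  obtain ⟨v, rfl⟩ := hX
  obtain ⟨w, rfl⟩ := hY
  rw [key, key, hj.isSymmSndFDerivAt two_le v w]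

section Defs

variable (D : Data n) (P : Amb n → Amb n →L[ℝ] Amb n)

noncomputable def cc (u : Fr n) (x y z : E3) : ℝ :=
  fderiv ℝ D.g u.1 (u.2 x) (u.2 y) (u.2 z) + D.g u.1 (fderiv ℝ P u.1 (u.2 x) (u.2 y)) (u.2 z) +
    D.g u.1 (u.2 y) (fderiv ℝ P u.1 (u.2 x) (u.2 z))

noncomputable def kap (u : Fr n) (x y z : E3) : ℝ :=
  (cc D P u x y z + cc D P u y x z - cc D P u z x y) / 2

noncomputable def Hf (u : Fr n) (x y : E3) : Amb n :=
  fderiv ℝ P u.1 (u.2 x) (u.2 y) - ∑ c, kap D P u x y (ee c) • u.2 (ee c)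

noncomputable def H2 (u : Fr n) : E3 →ₗ[ℝ] E3 →ₗ[ℝ] Amb n :=
  LinearMap.mk₂ ℝ (Hf D P u)
    (fun a a' b => by
      simp only [Hf, kap, cc, Fin.sum_univ_three, map_add, add_apply]
      module)
    (fun c a b => by
      simp only [Hf, kap, cc, Fin.sum_univ_three, map_smul, smul_apply,
        smul_eq_mul]
      module)
    (fun a b b' => by
      simp only [Hf, kap, cc, Fin.sum_univ_three, map_add, add_apply]
      module)
    (fun c a b => by
      simp only [Hf, kap, cc, Fin.sum_univ_three, map_smul, smul_apply,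
        smul_eq_mul]
      module)

/-- the horizontal fields -/
noncomputable def HH (u : Fr n) : E3 →L[ℝ] Fr n :=
  u.2.prod (LinearMap.toContinuousLinearMap
    ((LinearMap.toContinuousLinearMap (𝕜 := ℝ) (E := E3) (F' := Amb n)).toLinearMap ∘ₗ H2 D P u))

theorem HH_fst (u : Fr n) (x : E3) : (HH D P u x).1 = u.2 x := rfl

theorem HH_snd (u : Fr n) (x y : E3) : (HH D P u x).2 y = Hf D P u x y := rfl

/-- the canonical form -/
noncomputable def TT (u : Fr n) : Fr n →L[ℝ] E3 :=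
  ∑ c, ((D.g u.1).flip (u.2 (ee c)) ∘L ContinuousLinearMap.fst ℝ _ _).smulRight (ee c)

theorem TT_apply (u Y : Fr n) : TT D u Y = ∑ c, D.g u.1 Y.1 (u.2 (ee c)) • ee c := by
  simp [TT]

noncomputable def o1 (u : Fr n) (a b c : Fin 3) : Fr n →L[ℝ] E3 :=
  ((D.g u.1).flip (u.2 (ee b)) ∘L ContinuousLinearMap.apply ℝ (Amb n) (ee a) ∘L
    ContinuousLinearMap.snd ℝ _ _).smulRight (ee c)

theorem o1_apply (u Y : Fr n) (a b c : Fin 3) :
    o1 D u a b c Y = D.g u.1 (Y.2 (ee a)) (u.2 (ee b)) • ee c := rfl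

/-- the connection form -/
noncomputable def OO (u : Fr n) : Fr n →L[ℝ] E3 :=
  (o1 D u 1 2 0 + o1 D u 2 0 1 + o1 D u 0 1 2) ∘L
    (ContinuousLinearMap.id ℝ _ - HH D P u ∘L TT D u)

/-- the bracket of two horizontal fields -/
noncomputable def br (u : Fr n) (x y : E3) : Fr n :=
  fderiv ℝ (HH D P) u (HH D P u x) y - fderiv ℝ (HH D P) u (HH D P u y) x

/-- the curvature -/
noncomputable def NN (u : Fr n) : E3 →L[ℝ] E3 :=
  (EuclideanSpace.proj 0).smulRight (OO D P u (br D P u (ee 1) (ee 2))) +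
  (EuclideanSpace.proj 1).smulRight (OO D P u (br D P u (ee 2) (ee 0))) +
  (EuclideanSpace.proj 2).smulRight (OO D P u (br D P u (ee 0) (ee 1)))

/-- the constraints -/
noncomputable def Ph (x y : E3) (u : Fr n) : Amb n × ℝ :=
  (u.2 x - P u.1 (u.2 x), D.g u.1 (u.2 x) (u.2 y))

end Defs

variable {D : Data n} {P : Amb n → Amb n →L[ℝ] Amb n}

theorem sm_E (x : E3) : ContDiff ℝ ∞ fun u : Fr n => u.2 x :=
  contDiff_snd.clm_apply contDiff_const

theorem sm_g (D : Data n) : ContDiff ℝ ∞ fun u : Fr n => D.g u.1 := D.smg.comp contDiff_fst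

theorem sm_B (hP : ContDiff ℝ ∞ P) (x y : E3) :
    ContDiff ℝ ∞ fun u : Fr n => fderiv ℝ P u.1 (u.2 x) (u.2 y) :=
  (((hP.fderiv_right (m := ∞) (by simp)).comp contDiff_fst).clm_apply (sm_E x)).clm_apply (sm_E y)

theorem sm_cc (hP : ContDiff ℝ ∞ P) (x y z : E3) : ContDiff ℝ ∞ fun u => cc D P u x y z :=
  ((((((D.smg.fderiv_right (m := ∞) (by simp)).comp contDiff_fst).clm_apply (sm_E x)).clm_apply
    (sm_E y)).clm_apply (sm_E z)).add (((sm_g D).clm_apply (sm_B hP x y)).clm_apply (sm_E z))).add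
    (((sm_g D).clm_apply (sm_E y)).clm_apply (sm_B hP x z))

theorem sm_HH (hP : ContDiff ℝ ∞ P) : ContDiff ℝ ∞ (HH D P) := by
  refine contDiff_clm_apply_iff.2 fun x => (sm_E x).prodMk (contDiff_clm_apply_iff.2 fun y => ?_)
  exact (sm_B hP x y).sub (ContDiff.sum fun c _ =>
    ((((sm_cc hP _ _ _).add (sm_cc hP _ _ _)).sub (sm_cc hP _ _ _)).div_const 2).smul (sm_E _))

theorem sm_TT (D : Data n) : ContDiff ℝ ∞ (TT D) := by
  refine contDiff_clm_apply_iff.2 fun Y => ?_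
  simp only [TT_apply]
  exact ContDiff.sum fun c _ =>
    (((sm_g D).clm_apply contDiff_const).clm_apply (sm_E _)).smul contDiff_const

theorem sm_o1 (D : Data n) (a b c : Fin 3) : ContDiff ℝ ∞ fun u => o1 D u a b c :=
  contDiff_clm_apply_iff.2 fun _ =>
    (((sm_g D).clm_apply contDiff_const).clm_apply (sm_E _)).smul contDiff_const

theorem sm_OO (hP : ContDiff ℝ ∞ P) : ContDiff ℝ ∞ (OO D P) :=
  (((sm_o1 D _ _ _).add (sm_o1 D _ _ _)).add (sm_o1 D _ _ _)).clm_comp
    (contDiff_const.sub ((sm_HH hP).clm_comp (sm_TT D)))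

theorem sm_br (hP : ContDiff ℝ ∞ P) (x y : E3) : ContDiff ℝ ∞ fun u => br D P u x y := by
  have h : ∀ x y, ContDiff ℝ ∞ fun u => fderiv ℝ (HH D P) u (HH D P u x) y := fun x y =>
    (((sm_HH hP).fderiv_right (m := ∞) (by simp)).clm_apply
      ((sm_HH hP).clm_apply contDiff_const)).clm_apply contDiff_const
  exact (h x y).sub (h y x)

theorem sm_NN (hP : ContDiff ℝ ∞ P) : ContDiff ℝ ∞ (NN D P) := by
  have h : ∀ x y, ContDiff ℝ ∞ fun u => OO D P u (br D P u x y) := fun x y =>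
    (sm_OO hP).clm_apply (sm_br hP x y)
  refine contDiff_clm_apply_iff.2 fun v => ?_
  exact (((h _ _).const_smul (v 0)).add ((h _ _).const_smul (v 1))).add ((h _ _).const_smul (v 2))

theorem sm_Ph (hP : ContDiff ℝ ∞ P) (x y : E3) : ContDiff ℝ ∞ (Ph D P x y) :=
  ((sm_E x).sub ((hP.comp contDiff_fst).clm_apply (sm_E x))).prodMk
    (((sm_g D).clm_apply (sm_E x)).clm_apply (sm_E y))

theorem kap_lin (u : Fr n) (x y : E3) : IsLinearMap ℝ (kap D P u x y) :=
  ⟨fun a b => by simp only [kap, cc, map_add, add_apply]; ring,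
    fun c a => by
      simp only [kap, cc, map_smul, smul_apply, smul_eq_mul]; ring⟩

theorem HH_rot {Q : E3 →L[ℝ] E3} (hQ : Orth Q) (u : Fr n) (x : E3) :
    HH D P (rot Q u) x = rot Q (HH D P u (Q x)) := by
  refine Prod.ext rfl (ContinuousLinearMap.ext fun y => ?_)
  change fderiv ℝ P u.1 (u.2 (Q x)) (u.2 (Q y)) -
    ∑ c, kap D P u (Q x) (Q y) (Q (ee c)) • u.2 (Q (ee c)) = Hf D P u (Q x) (Q y)
  rw [Hf]
  congr 1
  ext i
  have := hQ.sum_mul (kap_lin (D := D) (P := P) u (Q x) (Q y)) (h := fun z => u.2 z i)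
    ⟨fun a b => by simp, fun c a => by simp⟩
  simpa using this

theorem fderiv_Ph (hP : ContDiff ℝ ∞ P) (x y : E3) (u Y : Fr n) :
    fderiv ℝ (Ph D P x y) u Y =
      (Y.2 x - (P u.1 (Y.2 x) + fderiv ℝ P u.1 Y.1 (u.2 x)),
        D.g u.1 (u.2 x) (Y.2 y) + (D.g u.1 (Y.2 x) (u.2 y) +
          fderiv ℝ D.g u.1 Y.1 (u.2 x) (u.2 y))) := by
  have e : ∀ x, HasFDerivAt (fun u : Fr n => u.2 x) _ u := fun x =>
    hasFDerivAt_snd.clm_apply (hasFDerivAt_const x u)
  have p1 := (hP.differentiable (by simp) u.1).hasFDerivAt.comp u hasFDerivAt_fst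
  have g1 := (D.smg.differentiable (by simp) u.1).hasFDerivAt.comp u hasFDerivAt_fst
  have := ((e x).sub (p1.clm_apply (e x))).prodMk ((g1.clm_apply (e x)).clm_apply (e y))
  have h2 : fderiv ℝ (Ph D P x y) u = _ := this.fderiv
  rw [h2]
  simp

theorem Ph_eq (hP : IsProj D P) (x y : E3) : EqOn (Ph D P x y) (fun _ => (0, ⟪x, y⟫)) D.F :=
  fun u hu => by simp [Ph, hP.fix _ hu.1 _ (hu.2.1 x), hu.2.2]

theorem lin_tan (hP : IsProj D P) {u Y : Fr n} (hu : u ∈ D.F) (hY : Y ∈ tangentConeAt ℝ D.F u)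
    (x y : E3) : fderiv ℝ (Ph D P x y) u Y = 0 := by
  rw [fderiv_eq_of_eqOn hu hY ((sm_Ph hP.sm x y).differentiable (by simp) u)
    (differentiableAt_const _) (Ph_eq hP x y)]
  simp

theorem P_B (hP : IsProj D P) {p X Y : Amb n} (hp : p ∈ D.S) (hX : X ∈ tangentConeAt ℝ D.S p)
    (hY : Y ∈ tangentConeAt ℝ D.S p) : P p (fderiv ℝ P p X Y) = 0 := by
  have d1 := (hP.sm.differentiable (by simp) p).hasFDerivAt
  have d2 := d1.clm_apply (hasFDerivAt_const Y p)
  have d3 := d1.clm_apply d2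
  have := fderiv_eq_of_eqOn hp hX d3.differentiableAt d2.differentiableAt
    fun q hq => hP.fix q hq _ (hP.mem q hq Y)
  rw [d3.fderiv, d2.fderiv] at this
  simpa [hP.fix p hp Y hY] using this

theorem dg_symm (D : Data n) (p X Y Z : Amb n) :
    fderiv ℝ D.g p X Y Z = fderiv ℝ D.g p X Z Y := by
  have d1 := (D.smg.differentiable (by simp) p).hasFDerivAt
  have d2 := fun Y Z => (d1.clm_apply (hasFDerivAt_const Y p)).clm_apply (hasFDerivAt_const Z p)
  have := (d2 Y Z).unique ((d2 Z Y).congr_of_eventuallyEq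
    (Eventually.of_forall fun q => D.symm q Y Z))
  simpa using congrArg (fun L : Amb n →L[ℝ] ℝ => L X) this

theorem cc_symm (u : Fr n) (x y z : E3) : cc D P u x y z = cc D P u x z y := by
  rw [cc, cc, dg_symm D, D.symm _ (u.2 y), D.symm _ (u.2 z)]; ring

theorem g_sum {u : Fr n} (hu : u ∈ D.F) {f : E3 → ℝ} (hf : IsLinearMap ℝ f) (y : E3) :
    D.g u.1 (∑ c, f (ee c) • u.2 (ee c)) (u.2 y) = f y := by
  rw [lin_sum_ee hf y]
  simp [hu.2.2, ee_inner, mul_comm]

theorem lin_HH (hP : IsProj D P) {u : Fr n} (hu : u ∈ D.F) (v x y : E3) :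
    fderiv ℝ (Ph D P x y) u (HH D P u v) = 0 := by
  rw [fderiv_Ph hP.sm]
  refine Prod.ext ?_ ?_
  · simp [HH_fst, HH_snd, Hf, P_B hP hu.1 (hu.2.1 _) (hu.2.1 _), hP.fix _ hu.1 _ (hu.2.1 _)]
    abel
  · have h1 := g_sum hu (kap_lin (D := D) (P := P) u v x) y
    have h2 := g_sum hu (kap_lin (D := D) (P := P) u v y) x
    rw [D.symm] at h2
    simp only [HH_fst, HH_snd, Hf, map_sub, sub_apply, h1, h2, Prod.snd_zero]
    have h3 : kap D P u v x y + kap D P u v y x = cc D P u v x y := by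
      rw [kap, kap, cc_symm u v y x, cc_symm u x v y, cc_symm u y v x]; ring
    rw [cc] at h3
    linarith

theorem exists_vert (hB : BasStmt) (hP : IsProj D P) {u Z : Fr n} (hu : u ∈ D.F) (h0 : Z.1 = 0)
    (hZ : ∀ x y, fderiv ℝ (Ph D P x y) u Z = 0) : ∃ β, Z = vert β u := by
  simp only [fderiv_Ph hP.sm, h0, Prod.ext_iff] at hZ
  have h1 : ∀ x, ∃ a, Z.2 x = u.2 a := fun x => by
    refine (hB n D).2.2.2.2.1 u hu _ ?_
    have : Z.2 x = P u.1 (Z.2 x) := by simpa [sub_eq_zero] using (hZ x x).1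
    rw [this]
    exact hP.mem _ hu.1 _
  set A : E3 →L[ℝ] E3 := TT D u ∘L ContinuousLinearMap.inl ℝ _ _ ∘L Z.2 with hA
  have h2 : ∀ x, Z.2 x = u.2 (A x) := fun x => by
    obtain ⟨a, ha⟩ := h1 x
    simp [hA, TT_apply, ha, hu.2.2, inner_ee, sum_ee]
  obtain ⟨β, hβ⟩ := exists_cr_of_skew (A := A) fun x y => by
    have := (hZ x y).2
    simp only [h2, hu.2.2] at this
    simp at this
    linarith
  exact ⟨β, Prod.ext h0 (ContinuousLinearMap.ext fun x => by rw [h2, hβ]; rfl)⟩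

theorem TT_eq {u : Fr n} (hu : u ∈ D.F) (x β : E3) : TT D u (HH D P u x + vert β u) = x := by
  simp [TT_apply, HH_fst, hu.2.2, inner_ee, sum_ee]

theorem OO_eq {u : Fr n} (hu : u ∈ D.F) (x β : E3) : OO D P u (HH D P u x + vert β u) = β := by
  have : (ContinuousLinearMap.id ℝ (Fr n) - HH D P u ∘L TT D u : Fr n →L[ℝ] Fr n)
      (HH D P u x + vert β u) = vert β u := by
    rw [sub_apply, ContinuousLinearMap.comp_apply, TT_eq hu]
    simp
  rw [OO, ContinuousLinearMap.comp_apply, this]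
  refine E3_ext ?_ ?_ ?_ <;> simp [o1_apply, hu.2.2, inner_ee]

theorem exists_dec (hB : BasStmt) (hP : IsProj D P) {u Y : Fr n} (hu : u ∈ D.F)
    (hY : Y ∈ tangentConeAt ℝ D.F u) {x : E3} (hx : Y.1 = u.2 x) :
    ∃ β, Y = HH D P u x + vert β u := by
  obtain ⟨β, hβ⟩ := exists_vert hB hP hu (Z := Y - HH D P u x) (by simp [hx, HH_fst])
    fun a b => by rw [map_sub, lin_tan hP hu hY, lin_HH hP hu, sub_zero]
  exact ⟨β, by rw [← hβ]; abel⟩

theorem dec (hB : BasStmt) (hP : IsProj D P) {u Y : Fr n} (hu : u ∈ D.F)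
    (hY : Y ∈ tangentConeAt ℝ D.F u) : Y = HH D P u (TT D u Y) + vert (OO D P u Y) u := by
  have h1 : Y.1 ∈ tangentConeAt ℝ D.S u.1 :=
    tangentConeAt_mono (by rintro _ ⟨w, hw, rfl⟩; exact hw.1)
      ((hasFDerivAt_fst (p := u)).hasFDerivWithinAt.mapsTo_tangent_cone hY)
  obtain ⟨x, hx⟩ := (hB n D).2.2.2.2.1 u hu _ h1
  obtain ⟨β, rfl⟩ := exists_dec hB hP hu hY hx
  rw [TT_eq hu, OO_eq hu]

theorem HH_tan (hB : BasStmt) (hP : IsProj D P) {u : Fr n} (hu : u ∈ D.F) (x : E3) :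
    HH D P u x ∈ posTangentConeAt D.F u := by
  obtain ⟨γ, Y, rfl, h1, h2, h3⟩ := (hB n D).2.2.2.2.2 u hu x
  obtain ⟨β, hβ⟩ := exists_dec hB hP hu (mem_tangentCone_of_curve h2 h1) h3
  obtain ⟨R, -, h0, hO, hR⟩ := exists_rot_curve (-β)
  have h4 : HasDerivAt (fun t => rot (R t) (γ t)) (HH D P (γ 0) x) 0 := by
    have h5 : HH D P (γ 0) x = Y - vert β (γ 0) := by rw [hβ]; abel
    rw [h5]
    refine HasDerivAt.prodMk ?_ ?_
    · exact ((ContinuousLinearMap.fst ℝ (Amb n) (E3 →L[ℝ] Amb n)).hasFDerivAt.comp_hasDerivAt 0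
        h2).congr_deriv (by simp)
    · have h6 : HasDerivAt (fun t => (γ t).2) Y.2 0 :=
        (ContinuousLinearMap.snd ℝ (Amb n) (E3 →L[ℝ] Amb n)).hasFDerivAt.comp_hasDerivAt 0 h2
      refine (h6.clm_comp hR).congr_deriv ?_
      rw [h0]
      ext1 y
      simp [sub_eq_add_neg]
  have := mem_posTangentCone_of_curve h4 (h1.mono fun t ht => D.rot_mem ht (hO t))
  rwa [h0] at this

theorem Hf_symm (hP : IsProj D P) {u : Fr n} (hu : u ∈ D.F) (x y : E3) :
    Hf D P u x y = Hf D P u y x := by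
  have : ∀ z, kap D P u x y z = kap D P u y x z := fun z => by
    rw [kap, kap, cc_symm u z x y]; ring
  simp only [Hf, this, hP.symm _ hu.1 _ (hu.2.1 x) _ (hu.2.1 y)]

theorem br_vert (hB : BasStmt) (hP : IsProj D P) {u : Fr n} (hu : u ∈ D.F) (x y : E3) :
    br D P u x y = vert (OO D P u (br D P u x y)) u := by
  have dH := ((sm_HH (D := D) hP.sm).differentiable (by simp) u).hasFDerivAt
  have d1 := fun y => dH.clm_apply (hasFDerivAt_const y u)
  obtain ⟨β, hβ⟩ := exists_vert hB hP hu (Z := br D P u x y) (by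
    have e : ∀ y Y, (fderiv ℝ (HH D P) u Y y).1 = Y.2 y := fun y Y => by
      have d0 : HasFDerivAt (fun u : Fr n => u.2 y) _ u :=
        hasFDerivAt_snd.clm_apply (hasFDerivAt_const y u)
      have := (d1 y).fst.unique d0
      simpa using congrArg (fun L : Fr n →L[ℝ] Amb n => L Y) this
    simp [br, e, HH_snd, Hf_symm hP hu x y]) fun a b => by
    have hf := sm_Ph (D := D) hP.sm a b
    have d2 := ((hf.fderiv_right (m := ∞) (by simp)).differentiable (by simp) u).hasFDerivAt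
    have key : ∀ x y, fderiv ℝ (Ph D P a b) u (fderiv ℝ (HH D P) u (HH D P u x) y) =
        -fderiv ℝ (fderiv ℝ (Ph D P a b)) u (HH D P u x) (HH D P u y) := fun x y => by
      have d3 := d2.clm_apply (d1 y)
      have := fderiv_eq_of_eqOn hu (tangentCone_of_pos (HH_tan hB hP hu x)) d3.differentiableAt
        (differentiableAt_const 0) fun w hw => lin_HH hP hw y a b
      rw [d3.fderiv] at this
      simpa [add_eq_zero_iff_eq_neg] using this
    rw [br, map_sub, key, key, hf.contDiffAt.isSymmSndFDerivAt two_le _ _, sub_self]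
  have := OO_eq (P := P) hu 0 β
  rw [map_zero, zero_add] at this
  rw [hβ, this]

theorem NN_cr (u : Fr n) (x y : E3) : NN D P u (cr x y) = OO D P u (br D P u x y) := by
  conv_rhs => rw [← sum_ee x, ← sum_ee y]
  simp only [NN, br, Fin.sum_univ_three, map_add, map_smul, map_sub, add_apply,
    smul_apply, ContinuousLinearMap.smulRight_apply, PiLp.proj_apply,
    cr0, cr1, cr2]
  module

end LC

open LC in
theorem con_holds (hB : BasStmt) : ConStmt := fun n D => by
  obtain ⟨P, hP⟩ := exists_proj hB D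
  obtain ⟨-, h1, h2, h3, h4, -⟩ := hB n D
  refine ⟨⟨D, h1, h2, h3, h4, HH D P, sm_HH hP.sm, HH_fst D P, fun Q hQ => HH_rot hQ,
    fun u hu => HH_tan hB hP hu, TT D, OO D P, sm_TT D, sm_OO hP.sm,
    fun u hu Y hY => dec hB hP hu hY, fun u hu => TT_eq hu, fun u hu => OO_eq hu, NN D P,
    sm_NN hP.sm, fun u hu x y => ?_⟩, rfl⟩
  have dH := ((sm_HH (D := D) hP.sm).differentiable (by simp) u).hasFDerivAt
  have d1 := fun y => (dH.clm_apply (hasFDerivAt_const y u)).fderiv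
  rw [NN_cr, ← br_vert hB hP hu, d1, d1]
  simp [br]

end Pool.Agent.Lib.MP_1a4aff_gt.I3
end

-- part Pool.Agent.Lib.MP_1a4aff_gt.I3.Flo
section

/-! Existence of the geodesic flows and scaling of the metric. -/

set_option autoImplicit false

open MeasureTheory Set Filter Topology Metric
open scoped ContDiff RealInnerProductSpace ENNReal NNReal Pointwise

namespace Pool.Agent.Lib.MP_1a4aff_gt.I3

namespace FloJ

section BB

variable {E : Type} [NormedAddCommGroup E] [NormedSpace ℝ E]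

theorem freq_of_cone {F : Set E} {z y : E} (hz : z ∈ F) (hy : y ∈ posTangentConeAt F z) {ε : ℝ}
    (hε : 0 < ε) : ∃ᶠ h in 𝓝[>] (0 : ℝ), infDist (z + h • y) F ≤ ε * h := by
  rcases eq_or_ne y 0 with rfl | hy0
  · refine Eventually.frequently ?_
    filter_upwards [self_mem_nhdsWithin] with h hh
    rw [smul_zero, add_zero, infDist_zero_of_mem hz]
    exact mul_nonneg hε.le (le_of_lt hh)
  obtain ⟨c, d, hd, hF, hc⟩ := mem_tangentConeAt_iff_exists_seq.1 hy
  have hn : 0 < ‖y‖ := norm_pos_iff.2 hy0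
  have h1 : Tendsto (fun k => ‖c k • d k‖) atTop (𝓝 ‖y‖) := hc.norm
  have h2 : ∀ᶠ k in atTop, 0 < ‖c k • d k‖ := h1.eventually (lt_mem_nhds hn)
  have e : ∀ k, ‖c k • d k‖ = (c k : ℝ) * ‖d k‖ := fun k => by
    rw [NNReal.smul_def, norm_smul, Real.norm_of_nonneg (c k).coe_nonneg]
  have h3 : ∀ᶠ k in atTop, 0 < (c k : ℝ) := h2.mono fun k hk => by
    rw [e] at hk
    rcases (c k).coe_nonneg.eq_or_lt with h0 | h0
    · rw [← h0, zero_mul] at hk
      exact absurd hk (lt_irrefl _)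
    · exact h0
  have h4 : Tendsto (fun k => ((c k : ℝ))⁻¹) atTop (𝓝[>] 0) := by
    refine tendsto_nhdsWithin_iff.2 ⟨?_, h3.mono fun k hk => inv_pos.2 hk⟩
    have h5 := hd.norm.div h1 hn.ne'
    rw [norm_zero, zero_div] at h5
    refine h5.congr' ?_
    filter_upwards [h2, h3] with k hk hk'
    have : ‖d k‖ ≠ 0 := by
      intro h0
      rw [e, h0, mul_zero] at hk
      exact lt_irrefl _ hk
    simp only [Pi.div_apply, e]
    field_simp
  refine h4.frequently (Eventually.frequently ?_)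
  have h6 : ∀ᶠ k in atTop, ‖c k • d k - y‖ < ε := by
    have := (hc.sub_const y).norm
    rw [sub_self, norm_zero] at this
    exact this.eventually (gt_mem_nhds hε)
  filter_upwards [h3, hF, h6] with k hk hk' hk''
  refine (infDist_le_dist_of_mem hk').trans ?_
  have : z + (c k : ℝ)⁻¹ • y - (z + d k) = -((c k : ℝ)⁻¹ • (c k • d k - y)) := by
    rw [NNReal.smul_def, smul_sub, smul_smul, inv_mul_cancel₀ hk.ne', one_smul]
    abel
  rw [dist_eq_norm, this, norm_neg, norm_smul, Real.norm_of_nonneg (inv_pos.2 hk).le, mul_comm]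
  exact mul_le_mul_of_nonneg_right hk''.le (inv_pos.2 hk).le

/-- invariance of compact sets under tangent Lipschitz fields -/
theorem bony {F : Set E} (hF : IsCompact F) {Y : E → E} {L : ℝ≥0} (hL : LipschitzWith L Y)
    (hY : ∀ z ∈ F, Y z ∈ posTangentConeAt F z) {γ : ℝ → E} (hγ : ∀ s, HasDerivAt γ (Y (γ s)) s)
    (h0 : γ 0 ∈ F) : γ 1 ∈ F := by
  have hne : F.Nonempty := ⟨_, h0⟩
  have hc : Continuous γ := continuous_iff_continuousAt.2 fun s => (hγ s).continuousAt
  have key := le_gronwallBound_of_liminf_deriv_right_le (f := fun s => infDist (γ s) F)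
    (f' := fun s => L * infDist (γ s) F) (δ := 0) (K := L) (ε := 0) (a := 0) (b := 1)
    ((continuous_infDist_pt F).comp hc).continuousOn ?_ (infDist_zero_of_mem h0).le
    (fun x _ => by simp) 1 ⟨zero_le_one, le_rfl⟩
  · rw [gronwallBound_ε0_δ0] at key
    exact (hF.isClosed.mem_iff_infDist_zero hne).2 (le_antisymm key infDist_nonneg)
  intro x _ r hr
  obtain ⟨z, hz, hd⟩ := hF.exists_infDist_eq_dist hne (γ x)
  set ε := (r - L * infDist (γ x) F) / 3 with hε
  have hε0 : 0 < ε := by rw [hε]; linarith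
  have h1 := freq_of_cone hz (hY z hz) hε0
  have h2 : ∀ᶠ h in 𝓝[>] (0 : ℝ), ‖γ (x + h) - γ x - h • Y (γ x)‖ ≤ ε * ‖h‖ :=
    ((hasDerivAt_iff_isLittleO_nhds_zero.1 (hγ x)).def hε0).filter_mono nhdsWithin_le_nhds
  have h3 : Tendsto (fun h : ℝ => x + h) (𝓝[>] 0) (𝓝[>] x) := by
    refine tendsto_nhdsWithin_iff.2 ⟨?_, ?_⟩
    · have : Tendsto (fun h : ℝ => x + h) (𝓝 0) (𝓝 (x + 0)) := tendsto_id.const_add x
      rw [add_zero] at this
      exact this.mono_left nhdsWithin_le_nhds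
    · filter_upwards [self_mem_nhdsWithin] with h hh
      exact lt_add_of_pos_right x hh
  refine h3.frequently ((h1.and_eventually (h2.and self_mem_nhdsWithin)).mono ?_)
  rintro h ⟨a1, a2, a3⟩
  have hh : 0 < h := a3
  rw [Real.norm_of_nonneg hh.le] at a2
  have a4 : ‖Y (γ x) - Y z‖ ≤ L * infDist (γ x) F := by
    rw [hd, ← dist_eq_norm]
    exact hL.dist_le_mul _ _
  have a5 : dist (γ (x + h)) (z + h • Y z) ≤
      ε * h + infDist (γ x) F + h * (L * infDist (γ x) F) := by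
    have e : γ (x + h) - (z + h • Y z) =
        (γ (x + h) - γ x - h • Y (γ x)) + (γ x - z) + h • (Y (γ x) - Y z) := by
      rw [smul_sub]; abel
    rw [dist_eq_norm, e]
    refine (norm_add₃_le).trans (add_le_add (add_le_add a2 ?_) ?_)
    · rw [hd, dist_eq_norm]
    · rw [norm_smul, Real.norm_of_nonneg hh.le]
      exact mul_le_mul_of_nonneg_left a4 hh.le
  have a6 := infDist_le_infDist_add_dist (x := γ (x + h)) (y := z + h • Y z) (s := F)
  rw [add_sub_cancel_left, inv_mul_lt_iff₀ hh]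
  have a7 : h * r = h * (L * infDist (γ x) F) + 3 * (ε * h) := by rw [hε]; ring
  have a8 : 0 < ε * h := mul_pos hε0 hh
  linarith

theorem cone_map {F : Set E} {z y : E} (A : E →L[ℝ] E) (hy : y ∈ posTangentConeAt F z) :
    A y ∈ posTangentConeAt (A '' F) (A z) := by
  obtain ⟨c, d, hd, hF, hc⟩ := mem_tangentConeAt_iff_exists_seq.1 hy
  refine mem_tangentConeAt_iff_exists_seq.2 ⟨c, fun k => A (d k), ?_, ?_, ?_⟩
  · simpa [Function.comp_def] using (A.continuous.tendsto 0).comp hd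
  · exact hF.mono fun k hk => ⟨_, hk, map_add A _ _⟩
  · refine ((A.continuous.tendsto y).comp hc).congr fun k => ?_
    simp [NNReal.smul_def]

theorem exists_cut [FiniteDimensional ℝ E] {V : Type} [NormedAddCommGroup V] [NormedSpace ℝ V]
    {F : Set E} (hF : IsCompact F) {H : E → V} (hH : ContDiff ℝ ∞ H) :
    ∃ X : E → V, ContDiff ℝ ∞ X ∧ HasCompactSupport X ∧ ∀ u ∈ F, X u = H u := by
  obtain ⟨R, hR0, hR⟩ := hF.isBounded.subset_closedBall_lt 0 (0 : E)
  let χ : ContDiffBump (0 : E) := ⟨R, R + 1, hR0, lt_add_one R⟩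
  refine ⟨fun u => χ u • H u, χ.contDiff.smul hH, χ.hasCompactSupport.smul_right, fun u hu => ?_⟩
  show χ u • H u = H u
  rw [χ.one_of_mem_closedBall (hR hu), one_smul]

end BB

variable {n : ℕ}

/-- scaling of frames -/
noncomputable def sc (n : ℕ) (t : ℝ) : Fr n →L[ℝ] Fr n :=
  (ContinuousLinearMap.fst ℝ _ _).prod (t • ContinuousLinearMap.snd ℝ _ _)

@[simp] theorem sc_fst (t : ℝ) (u : Fr n) : (sc n t u).1 = u.1 := rfl
@[simp] theorem sc_snd (t : ℝ) (u : Fr n) : (sc n t u).2 = t • u.2 := rfl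

theorem sc_inv {s : ℝ} (hs : 0 < s) (u : Fr n) : sc n s⁻¹ (sc n s u) = u :=
  Prod.ext rfl (by simp [smul_smul, hs.ne'])

theorem sc_inv' {s : ℝ} (hs : 0 < s) (u : Fr n) : sc n s (sc n s⁻¹ u) = u :=
  Prod.ext rfl (by simp [smul_smul, hs.ne'])

theorem sc_rot (t : ℝ) (Q : E3 →L[ℝ] E3) (u : Fr n) : sc n t (rot Q u) = rot Q (sc n t u) :=
  Prod.ext rfl (by simp)

theorem sc_vert (t : ℝ) (β : E3) (u : Fr n) : sc n t (vert β u) = vert β (sc n t u) :=
  Prod.ext rfl (by simp)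

theorem sc_emb {s : ℝ} (hs : 0 < s) : MeasurableEmbedding (sc n s⁻¹) :=
  (ContinuousLinearEquiv.equivOfInverse (sc n s⁻¹) (sc n s) (sc_inv' hs)
    (sc_inv hs)).toHomeomorph.measurableEmbedding

/-- the scaled metric -/
noncomputable def scD (D : Data n) (s : ℝ) (hs : 0 < s) : Data n where
  S := D.S
  cpt := D.cpt
  ne := D.ne
  ch := D.ch
  g p := s ^ 2 • D.g p
  smg := D.smg.const_smul _
  symm p X Y := by simp [D.symm p X Y]
  pos p hp X hX h0 := by
    have := D.pos p hp X hX h0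
    simp only [smul_apply, smul_eq_mul]
    positivity

theorem mem_F (D : Data n) {s : ℝ} (hs : 0 < s) (u : Fr n) :
    u ∈ (scD D s hs).F ↔ sc n s u ∈ D.F := by
  have e : ∀ x y, D.g u.1 ((s • u.2) x) ((s • u.2) y) = (s ^ 2 • D.g u.1) (u.2 x) (u.2 y) := by
    intro x y
    simp only [smul_apply, map_smul, smul_eq_mul]
    ring
  constructor
  · rintro ⟨h1, h2, h3⟩
    refine ⟨h1, fun x => ?_, fun x y => (e x y).trans (h3 x y)⟩
    have := h2 (s • x)
    rwa [map_smul] at this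
  · rintro ⟨h1, h2, h3⟩
    refine ⟨h1, fun x => ?_, fun x y => (e x y).symm.trans (h3 x y)⟩
    have := h2 (s⁻¹ • x)
    show u.2 x ∈ tangentConeAt ℝ D.S u.1
    simpa [smul_smul, hs.ne'] using this

theorem F_eq (D : Data n) {s : ℝ} (hs : 0 < s) : (scD D s hs).F = sc n s⁻¹ '' D.F := by
  ext u
  rw [mem_F]
  constructor
  · exact fun h => ⟨_, h, sc_inv hs u⟩
  · rintro ⟨w, hw, rfl⟩
    rwa [sc_inv' hs]

theorem F_eq' (D : Data n) {s : ℝ} (hs : 0 < s) : D.F = sc n s '' (scD D s hs).F := by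
  rw [F_eq, image_image]
  simp [sc_inv' hs]

/-- the scaled horizontal fields -/
noncomputable def scH (C : Con n) (s : ℝ) (u : Fr n) : E3 →L[ℝ] Fr n :=
  s⁻¹ • (sc n s⁻¹ ∘L C.H (sc n s u))

theorem scH_apply (C : Con n) (s : ℝ) (u : Fr n) (x : E3) :
    scH C s u x = sc n s⁻¹ (C.H (sc n s u) (s⁻¹ • x)) := by
  simp [scH]

theorem fderiv_scH (C : Con n) (s : ℝ) (u w : Fr n) (y : E3) :
    fderiv ℝ (fun w => scH C s w y) u w =
      sc n s⁻¹ (fderiv ℝ (fun w => C.H w (s⁻¹ • y)) (sc n s u) (sc n s w)) := by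
  have h1 := ((C.contDiff_H (s⁻¹ • y)).differentiable (by simp) (sc n s u)).hasFDerivAt
  have h2 := (sc n s⁻¹).hasFDerivAt.comp u (h1.comp u (sc n s).hasFDerivAt)
  have e : (fun w => scH C s w y) = sc n s⁻¹ ∘ (fun w => C.H w (s⁻¹ • y)) ∘ sc n s :=
    funext fun w => scH_apply C s w y
  rw [e, h2.fderiv]
  rfl

/-- the scaled connection -/
noncomputable def scC (C : Con n) (s : ℝ) (hs : 0 < s) : Con n where
  toData := scD C.toData s hs
  cptF := by
    rw [F_eq]
    exact C.cptF.image (sc n s⁻¹).continuous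
  frame p hp := by
    obtain ⟨u, hu, h⟩ := C.frame p hp
    exact ⟨sc n s⁻¹ u, by rw [F_eq]; exact mem_image_of_mem _ hu, h⟩
  fiber u hu u' hu' h := by
    obtain ⟨Q, hQ, e⟩ := C.fiber _ ((mem_F _ hs u).1 hu) _ ((mem_F _ hs u').1 hu') h
    refine ⟨Q, hQ, ?_⟩
    rw [← sc_inv hs u', e, sc_rot, sc_inv hs]
  span u hu X hX := by
    obtain ⟨x, hx⟩ := C.span _ ((mem_F _ hs u).1 hu) X hX
    exact ⟨s • x, by rw [hx, map_smul]; rfl⟩
  H := scH C s
  smH := (contDiff_const.clm_comp (C.smH.comp (sc n s).contDiff)).const_smul _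
  H_fst u x := by
    rw [scH_apply, sc_fst, C.H_fst]
    simp [smul_smul, hs.ne']
  H_rot Q hQ u x := by
    rw [scH_apply, scH_apply, sc_rot, C.H_rot Q hQ, sc_rot, map_smul]
  H_tan u hu x := by
    have := cone_map (sc n s⁻¹) (C.H_tan _ ((mem_F _ hs u).1 hu) (s⁻¹ • x))
    rwa [sc_inv hs, ← F_eq _ hs, ← scH_apply] at this
  Th u := s • (C.Th (sc n s u) ∘L sc n s)
  Om u := C.Om (sc n s u) ∘L sc n s
  smTh := ((C.smTh.comp (sc n s).contDiff).clm_comp contDiff_const).const_smul _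
  smOm := (C.smOm.comp (sc n s).contDiff).clm_comp contDiff_const
  dec u hu Y hY := by
    have h1 := (sc n s).hasFDerivWithinAt.mapsTo_tangent_cone hY
    rw [← F_eq' _ hs] at h1
    have h2 := congrArg (sc n s⁻¹) (C.dec _ ((mem_F _ hs u).1 hu) _ h1)
    rw [sc_inv hs, map_add, sc_vert, sc_inv hs] at h2
    rw [scH_apply]
    simpa [smul_smul, hs.ne'] using h2
  Th_eq u hu x β := by
    have := C.Th_eq _ ((mem_F _ hs u).1 hu) (s⁻¹ • x) β
    rw [smul_apply, ContinuousLinearMap.comp_apply, map_add, scH_apply,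
      sc_inv' hs, sc_vert, this]
    simp [smul_smul, hs.ne']
  Om_eq u hu x β := by
    have := C.Om_eq _ ((mem_F _ hs u).1 hu) (s⁻¹ • x) β
    rw [ContinuousLinearMap.comp_apply, map_add, scH_apply, sc_inv' hs, sc_vert, this]
  N u := (s ^ 2)⁻¹ • C.N (sc n s u)
  smN := (C.smN.comp (sc n s).contDiff).const_smul _
  brk u hu x y := by
    have := C.brk _ ((mem_F _ hs u).1 hu) (s⁻¹ • x) (s⁻¹ • y)
    rw [fderiv_scH, fderiv_scH, scH_apply, scH_apply, sc_inv' hs, sc_inv' hs, ← map_sub, this,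
      sc_vert, sc_inv hs]
    congr 1
    simp [smul_smul, sq]

theorem HD_sc (C : Con n) {s : ℝ} (hs : 0 < s) (x : E3) {f : Fr n → ℝ} (hf : ContDiff ℝ ∞ f)
    (u : Fr n) :
    (scC C s hs).HD x f (sc n s⁻¹ u) = C.HD (s⁻¹ • x) (fun w => f (sc n s⁻¹ w)) u := by
  have h1 := (hf.differentiable (by simp) (sc n s⁻¹ u)).hasFDerivAt.comp u (sc n s⁻¹).hasFDerivAt
  show fderiv ℝ f (sc n s⁻¹ u) (scH C s (sc n s⁻¹ u) x) = fderiv ℝ (f ∘ sc n s⁻¹) u _
  rw [scH_apply, sc_inv' hs, h1.fderiv]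
  rfl

theorem TV_sc (C : Con n) {s : ℝ} (hs : 0 < s) (y z : E3) : ∀ (xs : List E3) (u : Fr n),
    (scC C s hs).TV xs y z (sc n s⁻¹ u) = (s ^ (xs.length + 2))⁻¹ * C.TV xs y z u
  | [], u => by
    show ⟪((s ^ 2)⁻¹ • C.N (sc n s (sc n s⁻¹ u))) y, z⟫ = _
    rw [sc_inv' hs, smul_apply, inner_smul_left]
    rfl
  | x :: xs, u => by
    show (scC C s hs).HD x ((scC C s hs).TV xs y z) _ = _ * C.HD x (C.TV xs y z) u
    rw [HD_sc C hs x ((scC C s hs).contDiff_TV xs y z), funext (TV_sc C hs y z xs),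
      C.HD_const_mul _ _ (C.contDiff_TV xs y z), (C.HD_lin _ u).map_smul, List.length_cons,
      smul_eq_mul]
    field_simp
    ring

/-- the scaled flows -/
noncomputable def scX (X : Flo n) (s : ℝ) (hs : 0 < s) : Flo n where
  toCon := scC X.toCon s hs
  Ex u v := sc n s⁻¹ (X.Ex (sc n s u) (s⁻¹ • v))
  smEx := (sc n s⁻¹).contDiff.comp (X.smEx.comp
    (((sc n s).contDiff.comp contDiff_fst).prodMk (contDiff_snd.const_smul s⁻¹)))
  Ex_zero u := by rw [smul_zero, X.Ex_zero, sc_inv hs]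
  Ex_mem u hu v := by
    refine (mem_F _ hs _).2 ?_
    rw [sc_inv' hs]
    exact X.Ex_mem _ ((mem_F _ hs u).1 hu) _
  Ex_ode u hu v t := by
    have h := (sc n s⁻¹).hasFDerivAt.comp_hasDerivAt t
      (X.Ex_ode _ ((mem_F _ hs u).1 hu) (s⁻¹ • v) t)
    show HasDerivAt _ (scH X.toCon s _ v) t
    rw [scH_apply, sc_inv' hs]
    simp only [smul_comm s⁻¹ _ v]
    exact h

theorem gram_smul (c : ℝ) (b : Amb n →L[ℝ] Amb n →L[ℝ] ℝ) (A : E3 →L[ℝ] Amb n) :
    gram (c • b) A = c ^ 3 * gram b A := by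
  have e : (Matrix.of fun i j : Fin 3 => (c • b) (A (ee i)) (A (ee j))) =
      c • Matrix.of fun i j : Fin 3 => b (A (ee i)) (A (ee j)) := by
    ext i j
    simp
  rw [gram, e, Matrix.det_smul, Fintype.card_fin, gram]

/-- the scaled geometry -/
noncomputable def scG (G : Geo n) (s : ℝ) (hs : 0 < s) : Geo n where
  toFlo := scX G.toFlo s hs
  mu := ENNReal.ofReal (s ^ 3) • G.mu
  nu := ENNReal.ofReal (s ^ 3) • G.nu.map (sc n s⁻¹)
  area := by
    have := G.area.fin
    refine ⟨⟨?_⟩, ?_, fun U hU hne => ?_, fun e O hO he hm A hA hA' hi => ?_⟩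
    · rw [Measure.smul_apply, smul_eq_mul]
      exact ENNReal.mul_lt_top ENNReal.ofReal_lt_top (measure_lt_top _ _)
    · rw [Measure.smul_apply, smul_eq_mul]
      exact mul_eq_zero_of_right _ G.area.conc
    · rw [Measure.smul_apply, smul_eq_mul]
      exact mul_ne_zero (ENNReal.ofReal_pos.2 (pow_pos hs 3)).ne' (G.area.pos U hU hne)
    · rw [Measure.smul_apply, smul_eq_mul, G.area.area e O hO he hm A hA hA' hi,
        ← lintegral_const_mul' _ _ ENNReal.ofReal_ne_top]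
      refine lintegral_congr fun y => ?_
      show _ = ENNReal.ofReal (Real.sqrt (gram (s ^ 2 • G.g (e y)) _))
      rw [gram_smul, ← ENNReal.ofReal_mul (pow_pos hs 3).le, Real.sqrt_mul (by positivity),
        show (s ^ 2) ^ 3 = (s ^ 3) ^ 2 by ring, Real.sqrt_sq (pow_pos hs 3).le]
  lift := by
    refine ⟨?_, ?_, fun Q hQ => ?_⟩
    · rw [Measure.smul_apply, smul_eq_mul, (sc_emb hs).map_apply]
      refine mul_eq_zero_of_right _ ?_
      have : sc n s⁻¹ ⁻¹' (scD G.toData s hs).Fᶜ = G.Fᶜ := by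
        ext u
        rw [mem_preimage, mem_compl_iff, mem_F, sc_inv' hs, mem_compl_iff]
      exact (congrArg G.nu this).trans G.lift.conc
    · rw [Measure.map_smul, Measure.map_map measurable_fst (sc_emb hs).measurable, ← G.lift.fst]
      rfl
    · have hm : Measurable (rot Q : Fr n → Fr n) := (contDiff_rot Q).continuous.measurable
      rw [Measure.map_smul, Measure.map_map hm (sc_emb hs).measurable]
      conv_rhs => rw [← G.lift.rot Q hQ, Measure.map_map (sc_emb hs).measurable hm]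
      congr 2
  div f hf x := by
    rw [integral_smul_measure, (sc_emb hs).integral_map]
    have := G.div (fun w => f (sc n s⁻¹ w)) (hf.comp (sc n s⁻¹).contDiff) (s⁻¹ • x)
    have e : ∀ u, (scC G.toCon s hs).HD x f (sc n s⁻¹ u) = _ := HD_sc G.toCon hs x hf
    show _ • ∫ u, (scC G.toCon s hs).HD x f (sc n s⁻¹ u) ∂G.nu = 0
    simp only [e, this, smul_zero]
  pres v := by
    have hm : Measurable fun u => G.Ex u (s⁻¹ • v) :=
      (G.smEx.continuous.comp (continuous_id.prodMk continuous_const)).measurable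
    have hm' : Measurable fun u => sc n s⁻¹ (G.Ex (sc n s u) (s⁻¹ • v)) :=
      (sc_emb hs).measurable.comp (hm.comp (sc n s).continuous.measurable)
    show Measure.map (fun u => sc n s⁻¹ (G.Ex (sc n s u) (s⁻¹ • v))) _ = _
    rw [Measure.map_smul, Measure.map_map hm' (sc_emb hs).measurable]
    conv_rhs => rw [← G.pres (s⁻¹ • v), Measure.map_map (sc_emb hs).measurable hm]
    congr 2
    funext u
    simp only [Function.comp_apply, sc_inv' hs]

theorem ms_sc (G : Geo n) {s : ℝ} (hs : 0 < s) (f h : Amb n → ℝ) :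
    (scG G s hs).ms f h = s ^ 3 * G.ms f h := by
  show ∫ p, f p * h p ∂(ENNReal.ofReal (s ^ 3) • G.mu) = _
  rw [integral_smul_measure, ENNReal.toReal_ofReal (pow_pos hs 3).le, smul_eq_mul, Geo.ms]

theorem en_sc (G : Geo n) {s : ℝ} (hs : 0 < s) (f h : Amb n → ℝ) :
    (scG G s hs).en f h = s * G.en f h := by
  show ∫ u : Fr n, ∑ c, fderiv ℝ f u.1 (u.2 (ee c)) * fderiv ℝ h u.1 (u.2 (ee c))
    ∂(ENNReal.ofReal (s ^ 3) • G.nu.map (sc n s⁻¹)) = _
  rw [integral_smul_measure, ENNReal.toReal_ofReal (pow_pos hs 3).le, smul_eq_mul,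
    (sc_emb hs).integral_map, Geo.en, ← integral_const_mul, ← integral_const_mul]
  congr 1
  funext u
  simp only [sc_fst, sc_snd, smul_apply, map_smul, smul_eq_mul, Finset.mul_sum]
  refine Finset.sum_congr rfl fun c _ => ?_
  field_simp

theorem eig_sc (G : Geo n) {s : ℝ} (hs : 0 < s) (k : ℕ) :
    (scG G s hs).eig k = G.eig k / s ^ 2 := by
  have hs2 : 0 < s ^ 2 := pow_pos hs 2
  have e : (scG G s hs).MM k = (s ^ 2)⁻¹ • G.MM k := by
    ext L
    rw [mem_smul_set_iff_inv_smul_mem₀ (inv_pos.2 hs2).ne', inv_inv, smul_eq_mul]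
    simp only [Geo.MM, mem_ofPred_eq, ms_sc, en_sc]
    refine exists_congr fun W => and_congr_right fun _ => forall₂_congr fun f _ =>
      and_congr_right fun _ => and_congr ?_ ?_
    · exact imp_congr_right fun _ => mul_pos_iff_of_pos_left (pow_pos hs 3)
    · rw [show L * (s ^ 3 * G.ms f f) = s * (s ^ 2 * L * G.ms f f) by ring]
      exact mul_le_mul_iff_right₀ hs
  rw [Geo.eig, e, Real.sInf_smul_of_nonneg (inv_pos.2 hs2).le, Geo.eig, smul_eq_mul,
    div_eq_inv_mul]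

end FloJ

open FloJ

theorem flo_holds (hF : FlowStmt) : FloStmt := by
  intro n C
  obtain ⟨X, hX, hc, h1⟩ := exists_cut C.cptF C.smH
  obtain ⟨Φ, hΦ, h0, hode⟩ := hF (Fr n) E3 X hX hc
  have hmem : ∀ u ∈ C.F, ∀ v, Φ u v ∈ C.F := fun u hu v => by
    have hc' : HasCompactSupport fun u => X u v :=
      hc.comp_left (g := fun A : E3 →L[ℝ] Fr n => A v) rfl
    have hs : ContDiff ℝ ∞ fun u => X u v := hX.clm_apply contDiff_const
    obtain ⟨L, hL⟩ := hs.lipschitzWith_of_hasCompactSupport hc' (by simp)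
    have := bony (γ := fun s : ℝ => Φ u (s • v)) C.cptF hL
      (fun z hz => by rw [h1 z hz]; exact C.H_tan z hz v) (hode u v)
      (by rw [zero_smul, h0]; exact hu)
    rwa [one_smul] at this
  refine ⟨⟨C, Φ, hΦ, h0, hmem, fun u hu v s => ?_⟩, rfl⟩
  have := hode u v s
  rwa [h1 _ (hmem u hu _)] at this

theorem scale_holds : ScaleStmt := by
  intro n G s hs
  refine ⟨scG G s hs, sc n s⁻¹, rfl, fun _ => rfl, eig_sc G hs, F_eq _ hs, fun u _ I a b => ?_⟩
  have := TV_sc G.toCon hs (ee a) (ee b) (I.map ee) u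
  rw [List.length_map, ← div_eq_inv_mul] at this
  exact this

end Pool.Agent.Lib.MP_1a4aff_gt.I3
end
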