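import Pool.Agent.Lib.MP_1a4aff_gt.I3.Gen

/-! Smooth dependence of flows on the initial point and on a linear parameter. -/

set_option autoImplicit false

open Set Filter Topology Metric
open scoped ContDiff NNReal

namespace Pool.Agent.Lib.MP_1a4aff_gt.I3

namespace Flow

section Nem

variable {K : Type} [TopologicalSpace K] [CompactSpace K]
  {E : Type} [NormedAddCommGroup E] [NormedSpace ℝ E]

/-- pointwise application -/
noncomputable def app (K E W : Type) [TopologicalSpace K] [CompactSpace K] [NormedAddCommGroup E]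
    [NormedSpace ℝ E] [NormedAddCommGroup W] [NormedSpace ℝ W] :
    C(K, E →L[ℝ] W) →L[ℝ] C(K, E) →L[ℝ] C(K, W) :=
  LinearMap.mkContinuous₂ (E := C(K, E →L[ℝ] W)) (F := C(K, E)) (G := C(K, W))
    (LinearMap.mk₂ ℝ (fun A h => ⟨fun t => A t (h t), A.continuous.clm_apply h.continuous⟩)
      (fun _ _ _ => by ext; simp) (fun _ _ _ => by ext; simp) (fun _ _ _ => by ext; simp)
      (fun _ _ _ => by ext; simp)) 1
    fun A h => (ContinuousMap.norm_le _ (by positivity)).2 fun t => by
      rw [one_mul]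
      exact (A t).le_of_opNorm_le_of_le (A.norm_coe_le_norm t) (h.norm_coe_le_norm t)

theorem app_apply {W : Type} [NormedAddCommGroup W] [NormedSpace ℝ W] (A : C(K, E →L[ℝ] W))
    (h : C(K, E)) (t : K) : app K E W A h t = A t (h t) := rfl

/-- composition with a smooth map is smooth -/
theorem nem (n : ℕ) : ∀ (W : Type) [NormedAddCommGroup W] [NormedSpace ℝ W] (G : C(E, W)),
    ContDiff ℝ n G → ContDiff ℝ n fun γ : C(K, E) => G.comp γ := by
  induction n with
  | zero => exact fun W _ _ G _ => contDiff_zero.2 G.continuous_postcomp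
  | succ n ih =>
    intro W _ _ G hG
    obtain ⟨D, hD, hGD⟩ := contDiff_succ_iff_hasFDerivAt.1 (by exact_mod_cast hG)
    let D' : C(E, E →L[ℝ] W) := ⟨D, hD.continuous⟩
    have h0 := (app K E W).contDiff.comp (ih _ D' hD)
    rw [Nat.cast_succ]
    refine contDiff_succ_iff_hasFDerivAt.2 ⟨fun γ => app K E W (D'.comp γ), h0, fun γ => ?_⟩
    rw [hasFDerivAt_iff_isLittleO_nhds_zero, Asymptotics.isLittleO_iff]
    intro ε hε
    obtain ⟨δ, hδ, hc⟩ := (Metric.continuous_iff (α := C(K, E)) (β := C(K, E →L[ℝ] W))).1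
      (D'.continuous_postcomp (X := K)) γ ε hε
    filter_upwards [ball_mem_nhds 0 hδ] with h hh
    rw [mem_ball_zero_iff] at hh
    refine (ContinuousMap.norm_le _ (by positivity)).2 fun t => ?_
    have h1 := h.norm_coe_le_norm t
    have := (convex_ball (γ t) δ).norm_image_sub_le_of_norm_hasFDerivWithin_le' (φ := D (γ t))
      (C := ε) (fun x _ => (hGD x).hasFDerivWithinAt) (fun x hx => by
        have h2 := hc (γ + .const K (x - γ t)) (by
          rw [dist_eq_norm, add_sub_cancel_left]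
          exact ((ContinuousMap.norm_le _ (norm_nonneg _)).2 fun _ => le_rfl).trans_lt
            (mem_ball_iff_norm.1 hx))
        have h3 := (ContinuousMap.dist_apply_le_dist t).trans h2.le
        simpa [D', dist_eq_norm] using h3)
      (mem_ball_self hδ) (y := γ t + h t) (by simpa using h1.trans_lt hh)
    rw [add_sub_cancel_left] at this
    exact this.trans (mul_le_mul_of_nonneg_left h1 hε.le)

end Nem

/-- fixed points of a smooth family of contractions depend smoothly on the parameter -/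
theorem fix_smooth {Z B : Type} [NormedAddCommGroup Z] [NormedSpace ℝ Z] [CompleteSpace Z]
    [NormedAddCommGroup B] [NormedSpace ℝ B] [CompleteSpace B] {T : Z × B → B}
    (hT : ContDiff ℝ ∞ T) {g : Z → B} (hg : ∀ z, T (z, g z) = g z) {z₀ : Z} {κ : ℝ≥0} (hκ : κ < 1)
    (hL : ∀ᶠ z in 𝓝 z₀, LipschitzWith κ fun b => T (z, b)) : ContDiffAt ℝ ∞ g z₀ := by
  have cdf : ContDiffAt ℝ ∞ (fun u : Z × B => u.2 - T u) (z₀, g z₀) :=
    (contDiff_snd.sub hT).contDiffAt
  have hd : DifferentiableAt ℝ (fun b => T (z₀, b)) (g z₀) :=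
    (hT.comp (contDiff_const.prodMk contDiff_id)).differentiable (by simp) _
  have hn : ‖fderiv ℝ (fun b => T (z₀, b)) (g z₀)‖ < 1 :=
    (norm_fderiv_le_of_lipschitz ℝ hL.self_of_nhds).trans_lt (mod_cast hκ)
  have h1 : HasFDerivAt (fun b => b - T (z₀, b))
      (fderiv ℝ (fun u : Z × B => u.2 - T u) (z₀, g z₀) ∘L .inr ℝ Z B) (g z₀) :=
    (cdf.differentiableAt (by simp)).hasFDerivAt.comp (g z₀) (hasFDerivAt_prodMk_right z₀ (g z₀))
  have hi : (fderiv ℝ (fun u : Z × B => u.2 - T u) (z₀, g z₀) ∘L .inr ℝ Z B).IsInvertible := by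
    rw [h1.unique ((hasFDerivAt_id _).sub hd.hasFDerivAt)]
    exact ⟨.ofUnit (Units.oneSub _ hn), rfl⟩
  refine (cdf.contDiffAt_implicitFunction (by simp) hi).congr_of_eventuallyEq ?_
  filter_upwards [cdf.eventually_apply_implicitFunction (by simp) hi, hL] with z h2 h3
  simp only [hg, sub_self, sub_eq_zero] at h2
  have h4 := h3.dist_le_mul (g z) (cdf.implicitFunction (by simp) hi z)
  simp only [hg, ← h2] at h4
  have h5 : (κ : ℝ) < 1 := mod_cast hκ
  have h6 : 0 ≤ dist (g z) (cdf.implicitFunction (by simp) hi z) := dist_nonneg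
  exact dist_le_zero.1 (by nlinarith)

variable {V : Type} [NormedAddCommGroup V] [NormedSpace ℝ V] [CompleteSpace V]

omit [NormedSpace ℝ V] [CompleteSpace V] in
theorem cont_ext (γ : C(Icc (0 : ℝ) 1, V)) : Continuous fun s => γ (projIcc 0 1 zero_le_one s) :=
  γ.continuous.comp continuous_projIcc

/-- the primitive -/
noncomputable def prim (V : Type) [NormedAddCommGroup V] [NormedSpace ℝ V] [CompleteSpace V] :
    C(Icc (0 : ℝ) 1, V) →L[ℝ] C(Icc (0 : ℝ) 1, V) :=
  LinearMap.mkContinuous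
    { toFun := fun γ => ⟨fun t => ∫ s in (0 : ℝ)..t, γ (projIcc 0 1 zero_le_one s),
        (intervalIntegral.continuous_primitive
          (fun a b => (cont_ext γ).intervalIntegrable a b) 0).comp continuous_subtype_val⟩
      map_add' := fun γ γ' => by
        ext t
        exact intervalIntegral.integral_add ((cont_ext γ).intervalIntegrable _ _)
          ((cont_ext γ').intervalIntegrable _ _)
      map_smul' := fun c γ => by
        ext t
        exact intervalIntegral.integral_smul c _ } 1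
    fun γ => (ContinuousMap.norm_le _ (by positivity)).2 fun t => by
      refine (intervalIntegral.norm_integral_le_of_norm_le_const
        fun s _ => γ.norm_coe_le_norm _).trans ?_
      rw [sub_zero, abs_of_nonneg t.2.1, mul_comm]
      exact mul_le_mul_of_nonneg_right t.2.2 (norm_nonneg _)

theorem prim_apply (γ : C(Icc (0 : ℝ) 1, V)) (t : Icc (0 : ℝ) 1) :
    prim V γ t = ∫ s in (0 : ℝ)..t, γ (projIcc 0 1 zero_le_one s) := rfl

theorem norm_prim (γ : C(Icc (0 : ℝ) 1, V)) : ‖prim V γ‖ ≤ ‖γ‖ :=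
  ((prim V).le_of_opNorm_le (LinearMap.mkContinuous_norm_le _ zero_le_one _) γ).trans_eq
    (one_mul _)

theorem exists_global {Z : V → V} {K L : ℝ≥0} (hK : LipschitzWith K Z) (hL : ∀ y, ‖Z y‖ ≤ L)
    (x : V) : ∃ α : ℝ → V, α 0 = x ∧ ∀ t, HasDerivAt α (Z (α t)) t := by
  have h1 : ∀ n : ℕ, ∃ α : ℝ → V, α 0 = x ∧
      ∀ t ∈ Ioo (-((n:ℝ) + 1)) (n + 1), HasDerivAt α (Z (α t)) t := by
    intro n
    have hn : (0:ℝ) < n + 1 := by positivity
    have hpl : IsPicardLindelof (fun _ => Z) (tmin := -((n:ℝ) + 1)) (tmax := n + 1)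
        ⟨0, by constructor <;> linarith⟩ x (L * (n + 1)) 0 L K :=
      ⟨fun _ _ => hK.lipschitzOnWith, fun _ _ => continuousOn_const, fun _ _ y _ => hL y, by
        simp⟩
    obtain ⟨α, h0, hα⟩ := hpl.exists_eq_forall_mem_Icc_hasDerivWithinAt₀
    exact ⟨α, h0, fun t ht =>
      (hα t (Ioo_subset_Icc_self ht)).hasDerivAt (Icc_mem_nhds ht.1 ht.2)⟩
  choose α h0 hα using h1
  have h2 : ∀ m n : ℕ, m ≤ n → EqOn (α m) (α n) (Ioo (-((m:ℝ) + 1)) (m + 1)) := by
    intro m n hmn
    have hm : (0:ℝ) < m + 1 := by positivity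
    have hmn' : (m:ℝ) ≤ n := by exact_mod_cast hmn
    refine ODE_solution_unique_of_mem_Ioo (v := fun _ => Z) (s := fun _ => univ) (K := K)
      (t₀ := 0) (fun _ _ => hK.lipschitzOnWith) ⟨by linarith, hm⟩
      (fun t ht => ⟨hα m t ht, trivial⟩)
      (fun t ht => ⟨hα n t ⟨by linarith [ht.1], by linarith [ht.2]⟩, trivial⟩) ?_
    rw [h0, h0]
  have h3 : ∀ t : ℝ, t ∈ Ioo (-((⌈|t|⌉₊:ℝ) + 1)) (⌈|t|⌉₊ + 1) := fun t => by
    have := Nat.le_ceil |t|
    constructor <;> linarith [le_abs_self t, neg_abs_le t]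
  have h4 : ∀ (n : ℕ) (t : ℝ), t ∈ Ioo (-((n:ℝ) + 1)) (n + 1) → α ⌈|t|⌉₊ t = α n t := by
    intro n t ht
    rcases le_total ⌈|t|⌉₊ n with h | h
    · exact h2 _ _ h (h3 t)
    · exact (h2 _ _ h ht).symm
  refine ⟨fun t => α ⌈|t|⌉₊ t, h0 _, fun t => ?_⟩
  refine (hα _ t (h3 t)).congr_of_eventuallyEq ?_
  filter_upwards [Ioo_mem_nhds (h3 t).1 (h3 t).2] with s hs
  exact h4 _ s hs

variable {P : Type} [NormedAddCommGroup P] [NormedSpace ℝ P] {X : V → P →L[ℝ] V} {L : ℝ≥0}

omit [CompleteSpace V] in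
theorem lip (hL : LipschitzWith L X) (p : P) : LipschitzWith (L * ‖p‖₊) fun v => X v p :=
  .of_dist_le_mul fun v w => by
    rw [dist_eq_norm, ← sub_apply, NNReal.coe_mul, mul_right_comm]
    exact (X v - X w).le_of_opNorm_le (by rw [← dist_eq_norm]; exact hL.dist_le_mul v w) p

/-- smoothness for small parameters -/
theorem small [CompleteSpace P] (hX : ContDiff ℝ ∞ X) (hL : LipschitzWith L X)
    {α : V → P → ℝ → V} (h0 : ∀ u p, α u p 0 = u)
    (hα : ∀ u p t, HasDerivAt (α u p) (X (α u p t) p) t) {z₀ : V × P}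
    (hz : ‖z₀.2‖ < 1 / (2 * (L + 1))) : ContDiffAt ℝ ∞ (fun z : V × P => α z.1 z.2 1) z₀ := by
  let X' : C(V, P →L[ℝ] V) := ⟨X, hX.continuous⟩
  have hc : ∀ u p, Continuous (α u p) := fun u p =>
    continuous_iff_continuousAt.2 fun t => (hα u p t).continuousAt
  let g : V × P → C(Icc (0 : ℝ) 1, V) := fun z =>
    ⟨fun t => α z.1 z.2 t, (hc _ _).comp continuous_subtype_val⟩
  let T : (V × P) × C(Icc (0 : ℝ) 1, V) → C(Icc (0 : ℝ) 1, V) := fun w =>
    ContinuousLinearMap.const ℝ _ w.1.1 +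
      prim V (app _ P V (X'.comp w.2) (ContinuousLinearMap.const ℝ _ w.1.2))
  have hN : ContDiff ℝ ∞ fun γ : C(Icc (0 : ℝ) 1, V) => X'.comp γ :=
    contDiff_infty.2 fun n => nem n _ X' (contDiff_infty.1 hX n)
  have hT : ContDiff ℝ ∞ T :=
    ((ContinuousLinearMap.contDiff _).comp contDiff_fst.fst).add ((prim V).contDiff.comp
      (((app _ P V).contDiff.comp (hN.comp contDiff_snd)).clm_apply
        ((ContinuousLinearMap.contDiff _).comp contDiff_fst.snd)))
  have hg : ∀ z, T (z, g z) = g z := fun z => by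
    ext t
    change z.1 + ∫ s in (0 : ℝ)..t, X (α z.1 z.2 (projIcc 0 1 zero_le_one s : Icc (0 : ℝ) 1)) z.2
      = α z.1 z.2 t
    rw [intervalIntegral.integral_congr (g := fun s => X (α z.1 z.2 s) z.2) (fun s hs => by
      rw [uIcc_of_le t.2.1] at hs
      simp only [projIcc_of_mem zero_le_one ⟨hs.1, hs.2.trans t.2.2⟩]),
      intervalIntegral.integral_eq_sub_of_hasDerivAt (fun s _ => hα _ _ s)
        (((hX.continuous.comp (hc _ _)).clm_apply continuous_const).intervalIntegrable _ _), h0,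
      add_sub_cancel]
  have hs := fix_smooth hT hg (z₀ := z₀) (κ := 1 / 2) (by norm_num) (by
    filter_upwards [(continuous_snd.norm.tendsto z₀).eventually (gt_mem_nhds hz)] with z h1
    refine .of_dist_le_mul fun b c => ?_
    simp only [T]
    rw [dist_add_left, dist_eq_norm, ← map_sub]
    refine (norm_prim _).trans ((ContinuousMap.norm_le _ (by positivity)).2 fun t => ?_)
    have h2 := (lip hL z.2).dist_le_mul (b t) (c t)
    rw [dist_eq_norm] at h2
    refine h2.trans (mul_le_mul ?_ (ContinuousMap.dist_apply_le_dist t) dist_nonneg (by positivity))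
    rw [lt_div_iff₀ (by positivity)] at h1
    push_cast
    nlinarith [norm_nonneg z.2])
  exact (ContinuousMap.evalCLM ℝ (⟨1, zero_le_one, le_rfl⟩ : Icc (0 : ℝ) 1)).contDiff.contDiffAt.comp
    z₀ hs

end Flow

open Pool.Agent.Lib.MP_1a4aff_gt.I3.Flow in
theorem flow_holds : FlowStmt := by
  intro V P _ _ _ _ _ _ X hX hc
  have := FiniteDimensional.complete ℝ V
  have := FiniteDimensional.complete ℝ P
  obtain ⟨L, hL⟩ := hX.lipschitzWith_of_hasCompactSupport hc (by simp)
  obtain ⟨C, hC⟩ := hc.exists_bound_of_continuous hX.continuous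
  have hC0 : 0 ≤ C := (norm_nonneg _).trans (hC 0)
  choose α h0 hα using fun (u : V) (p : P) => exists_global (lip hL p)
    (L := ⟨C * ‖p‖, by positivity⟩) (fun y => (X y).le_of_opNorm_le (hC y) p) u
  have uq : ∀ (p : P) (f g : ℝ → V), (∀ t, HasDerivAt f (X (f t) p) t) →
      (∀ t, HasDerivAt g (X (g t) p) t) → f 0 = g 0 → f = g := fun p f g hf hg h =>
    ODE_solution_unique_univ (v := fun _ v => X v p) (s := fun _ => univ)
      (fun _ => (lip hL p).lipschitzOnWith) (fun t => ⟨hf t, trivial⟩)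
      (fun t => ⟨hg t, trivial⟩) h
  have sc : ∀ u p (s : ℝ), α u (s • p) 1 = α u p s := fun u p s => by
    have := uq (s • p) _ (fun t => α u p (s * t)) (hα u _) (fun t => by
      have := (hα u p (s * t)).scomp t ((hasDerivAt_id t).const_mul s)
      simpa [Function.comp_def] using this) (by simp [h0])
    simpa using congrFun this 1
  have sg : ∀ u p, α u p 1 = α (α u ((1 / 2 : ℝ) • p) 1) ((1 / 2 : ℝ) • p) 1 := fun u p => by
    rw [sc, sc]
    have := uq p (fun t => α u p (t + 1 / 2)) _ (fun t => (hα u p _).comp_add_const t _)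
      (hα (α u p (1 / 2)) p) (by simp [h0])
    rw [← this]
    norm_num
  have key : ∀ (n : ℕ) (z : V × P), ‖z.2‖ < 2 ^ n * (1 / (2 * (L + 1))) →
      ContDiffAt ℝ ∞ (fun z : V × P => α z.1 z.2 1) z := by
    intro n
    induction n with
    | zero => exact fun z hz => small hX hL h0 hα (by simpa using hz)
    | succ n ih =>
      intro z hz
      have h1 : ‖(1 / 2 : ℝ) • z.2‖ < 2 ^ n * (1 / (2 * (L + 1))) := by
        rw [norm_smul, Real.norm_of_nonneg (by norm_num)]
        rw [pow_succ] at hz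
        linarith
      have h2 : ContDiffAt ℝ ∞ (fun z : V × P => (1 / 2 : ℝ) • z.2) z := by fun_prop
      have h3 := (ih (z.1, (1 / 2 : ℝ) • z.2) h1).comp z (contDiffAt_fst.prodMk h2)
      have h4 := (ih (α z.1 ((1 / 2 : ℝ) • z.2) 1, (1 / 2 : ℝ) • z.2) h1).comp z (h3.prodMk h2)
      exact h4.congr_of_eventuallyEq (.of_forall fun w => sg w.1 w.2)
  refine ⟨fun u p => α u p 1, contDiff_iff_contDiffAt.2 fun z => ?_, fun u => ?_,
    fun u p s => ?_⟩
  · obtain ⟨n, hn⟩ := pow_unbounded_of_one_lt (‖z.2‖ / (1 / (2 * (L + 1)))) (one_lt_two (α := ℝ))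
    exact key n z ((div_lt_iff₀ (by positivity)).1 hn)
  · simpa [h0] using sc u 0 0
  · simp only [sc]
    exact hα u p s

end Pool.Agent.Lib.MP_1a4aff_gt.I3
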