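import Mathlib

/-! Generic definitions and the statements of the parts that do not involve the geometry. -/

set_option autoImplicit false

open MeasureTheory Set Filter Topology
open scoped ContDiff RealInnerProductSpace

namespace Pool.Agent.Lib.MP_1a4aff_gt.I3

abbrev E3 := EuclideanSpace ℝ (Fin 3)

abbrev Amb (n : ℕ) := EuclideanSpace ℝ (Fin n)

/-- the standard basis -/
noncomputable def ee (i : Fin 3) : E3 := EuclideanSpace.single i 1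

/-- the cross product -/
def crs (a b : E3) : E3 :=
  WithLp.toLp 2 ![a 1 * b 2 - a 2 * b 1, a 2 * b 0 - a 0 * b 2, a 0 * b 1 - a 1 * b 0]

def crL : E3 →ₗ[ℝ] E3 →ₗ[ℝ] E3 :=
  LinearMap.mk₂ ℝ crs
    (fun a a' b => by ext i; fin_cases i <;> simp [crs] <;> ring)
    (fun c a b => by ext i; fin_cases i <;> simp [crs] <;> ring)
    (fun a b b' => by ext i; fin_cases i <;> simp [crs] <;> ring)
    (fun c a b => by ext i; fin_cases i <;> simp [crs] <;> ring)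

/-- the cross product as a continuous bilinear map -/
noncomputable def cr : E3 →L[ℝ] E3 →L[ℝ] E3 :=
  LinearMap.toContinuousLinearMap
    ((LinearMap.toContinuousLinearMap (𝕜 := ℝ) (E := E3) (F' := E3)).toLinearMap ∘ₗ crL)

@[simp] theorem cr0 (a b : E3) : cr a b 0 = a 1 * b 2 - a 2 * b 1 := rfl
@[simp] theorem cr1 (a b : E3) : cr a b 1 = a 2 * b 0 - a 0 * b 2 := rfl
@[simp] theorem cr2 (a b : E3) : cr a b 2 = a 0 * b 1 - a 1 * b 0 := rfl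

/-- orthogonal maps -/
def Orth (Q : E3 →L[ℝ] E3) : Prop := ∀ x y, ⟪Q x, Q y⟫ = ⟪x, y⟫

/-- a family of germs `f i` at `y i` whose derivatives up to order `k` are uniformly bounded -/
def UBk {ι E V : Type} [NormedAddCommGroup E] [NormedSpace ℝ E] [NormedAddCommGroup V]
    [NormedSpace ℝ V] (k : ℕ) (f : ι → E → V) (y : ι → E) : Prop :=
  (∀ i, ContDiffAt ℝ ∞ (f i) (y i)) ∧
    ∃ C : ℝ, ∀ i, ∀ j ≤ k, ‖iteratedFDeriv ℝ j (f i) (y i)‖ ≤ C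

/-- (job Flow) smooth flows of compactly supported fields depending linearly on a parameter -/
def FlowStmt : Prop :=
  ∀ (V P : Type) [NormedAddCommGroup V] [NormedSpace ℝ V] [FiniteDimensional ℝ V]
    [NormedAddCommGroup P] [NormedSpace ℝ P] [FiniteDimensional ℝ P] (X : V → P →L[ℝ] V),
    ContDiff ℝ ∞ X → HasCompactSupport X →
    ∃ Φ : V → P → V, ContDiff ℝ ∞ (fun z : V × P => Φ z.1 z.2) ∧ (∀ u, Φ u 0 = u) ∧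
      ∀ u p (s : ℝ), HasDerivAt (fun s : ℝ => Φ u (s • p)) (X (Φ u (s • p)) p) s

/-- the min-max set of a form `q` on a space `V` mapped to a Hilbert space -/
def MMs {V H : Type} [AddCommGroup V] [Module ℝ V] [NormedAddCommGroup H] [InnerProductSpace ℝ H]
    (ι : V →ₗ[ℝ] H) (q : V →ₗ[ℝ] V →ₗ[ℝ] ℝ) (k : ℕ) : Set ℝ :=
  {L | ∃ W : Submodule ℝ V, Module.finrank ℝ W = k + 1 ∧
    ∀ f ∈ W, (f ≠ 0 → ι f ≠ 0) ∧ q f f ≤ L * ‖ι f‖ ^ 2}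

/-- `b j` is a weak eigenvector of the closure of the form -/
def WeakEig {V H : Type} [AddCommGroup V] [Module ℝ V] [NormedAddCommGroup H]
    [InnerProductSpace ℝ H] (ι : V →ₗ[ℝ] H) (q : V →ₗ[ℝ] V →ₗ[ℝ] ℝ) (b : H) (lam : ℝ) : Prop :=
  ∀ ε > 0, ∃ f : V, ‖ι f - b‖ ≤ ε ∧
    ∀ h : V, |q f h - lam * ⟪b, ι h⟫| ≤ ε * Real.sqrt (q h h + ‖ι h‖ ^ 2)

/-- (job SpA) spectral theorem for a form with finite counting function -/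
def SpAStmt : Prop :=
  ∀ (V H : Type) [AddCommGroup V] [Module ℝ V] [NormedAddCommGroup H] [InnerProductSpace ℝ H]
    [CompleteSpace H] (ι : V →ₗ[ℝ] H) (q : V →ₗ[ℝ] V →ₗ[ℝ] ℝ), DenseRange ι →
    (∀ f h, q f h = q h f) → (∀ f, 0 ≤ q f f) → (∀ k, (MMs ι q k).Nonempty) →
    (∀ L : ℝ, ∃ N : ℕ, ∀ k, L ∈ MMs ι q k → k ≤ N) →
    ∃ b : HilbertBasis ℕ ℝ H, ∀ j, WeakEig ι q (b j) (sInf (MMs ι q j))

/-- (job SpC) the semigroup of a form that does not increase under `f ↦ |f|` is positive -/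
def SpCStmt : Prop :=
  ∀ (X V : Type) [MeasurableSpace X] (μ : Measure X) [AddCommGroup V] [Module ℝ V]
    (ι : V →ₗ[ℝ] Lp ℝ 2 μ) (q : V →ₗ[ℝ] V →ₗ[ℝ] ℝ) (b : HilbertBasis ℕ ℝ (Lp ℝ 2 μ))
    (lam : ℕ → ℝ), (∀ f h, q f h = q h f) → (∀ f, 0 ≤ q f f) → (∀ j, 0 ≤ lam j) →
    (∀ j, WeakEig ι q (b j) (lam j)) →
    (∀ f, ∀ ε > 0, ∃ f', q f' f' ≤ q f f ∧ ‖ι f' - |ι f|‖ ≤ ε) →
    ∀ t > 0, ∀ h k : Lp ℝ 2 μ, 0 ≤ h → 0 ≤ k →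
      0 ≤ ∑' j, Real.exp (-(lam j * t)) * (⟪h, b j⟫ * ⟪k, b j⟫)

/-- invariant multilinear forms with the symmetries of `∫ T_[]^{ab} T_K^{cd}` -/
structure Tens (q : List E3 → E3 → E3 → E3 → E3 → ℝ) : Prop where
  lin : ∀ xs ys a b c d, IsLinearMap ℝ fun x => q (xs ++ x :: ys) a b c d
  lina : ∀ xs b c d, IsLinearMap ℝ fun a => q xs a b c d
  linc : ∀ xs a b d, IsLinearMap ℝ fun c => q xs a b c d
  sab : ∀ xs a b c d, q xs a b c d = q xs b a c d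
  scd : ∀ xs a b c d, q xs a b c d = q xs a b d c
  inv : ∀ Q, Orth Q → ∀ xs a b c d, q (xs.map Q) (Q a) (Q b) (Q c) (Q d) = q xs a b c d
  bia : ∀ xs a b c, ∑ e, q (xs ++ [ee e]) a b c (ee e) = 0

/-- components in the standard basis -/
noncomputable def qb (q : List E3 → E3 → E3 → E3 → E3 → ℝ) (K : List (Fin 3))
    (a b c d : Fin 3) : ℝ :=
  q (K.map ee) (ee a) (ee b) (ee c) (ee d)

noncomputable def qX (q : List E3 → E3 → E3 → E3 → E3 → ℝ) (m : ℕ) : ℝ :=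
  ∑ I : Fin m → Fin 3, ∑ a, ∑ b, qb q ((List.ofFn I).reverse ++ List.ofFn I) a b a b

noncomputable def qY (q : List E3 → E3 → E3 → E3 → E3 → ℝ) (m : ℕ) : ℝ :=
  ∑ I : Fin m → Fin 3, ∑ a, ∑ b, qb q ((List.ofFn I).reverse ++ List.ofFn I) a a b b

/-- (job GlB) an almost symmetric invariant form is almost determined by two traces -/
def GlBStmt : Prop :=
  ∀ (m : ℕ) (K : List (Fin 3)), K.length = 2 * m → ∀ a b c d : Fin 3, ∃ α β C : ℝ,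
    ∀ q, Tens q → ∀ D : ℝ,
      (∀ K₁ K₂ : List (Fin 3), K₁.length = 2 * m → K₁.Perm K₂ → ∀ a b c d,
        |qb q K₁ a b c d - qb q K₂ a b c d| ≤ D) →
      (∀ K₁ : List (Fin 3), K₁.length = 2 * m → ∀ a b c d,
        |qb q K₁ a b c d - qb q K₁ c d a b| ≤ D) →
      |qb q K a b c d - (α * qX q m + β * qY q m)| ≤ C * D

/-- normalised inner product on the circle -/
noncomputable def ipc (f h : ℝ → ℂ) : ℂ :=
  (∫ x in (0 : ℝ)..(2 * Real.pi), f x * (starRingEnd ℂ) (h x)) / (2 * Real.pi)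

/-- `a (cos x) e^{inx}` -/
noncomputable def mode (a : ℝ → ℝ) (n : ℤ) (x : ℝ) : ℂ :=
  (a (Real.cos x) : ℂ) * Complex.exp (Complex.I * n * x)

noncomputable def th0 (t : ℝ) : ℝ := ∑' n : ℤ, Real.exp (-(t * (n : ℝ) ^ 2))

noncomputable def th1 (t : ℝ) : ℝ :=
  ∑' n : ℤ, ∫ α in (0 : ℝ)..1, Real.exp (-(t * (((n : ℝ) + α) ^ 2 + α * (1 - α))))

/-- (job TrB) second order perturbation of the heat trace of
`-d²/dx² + κ - ε w cos x + ε² a (cos x)` on the circle -/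
def TrBStmt : Prop :=
  ∃ C : ℝ, ∀ (κ B ε w : ℝ) (a : ℝ → ℝ) (ψ : ℕ → ℝ → ℂ) (lam : ℕ → ℝ),
    0 ≤ κ → 0 < ε → ε ≤ 1 → |w| ≤ B → Continuous a → (∀ x, |a (Real.cos x)| ≤ B) →
    (κ = 0 ∨ 4 * ε * B < κ) → (∀ j, 0 ≤ lam j) → (∀ j, Continuous (ψ j)) →
    (∀ (a₁ a₂ : ℝ → ℝ) (n₁ n₂ : ℤ), Continuous a₁ → Continuous a₂ →
      HasSum (fun j => ipc (mode a₁ n₁) (ψ j) * (starRingEnd ℂ) (ipc (mode a₂ n₂) (ψ j)))
        (ipc (mode a₁ n₁) (mode a₂ n₂))) →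
    (∀ (j : ℕ) (n : ℤ), ipc (mode (fun c => (n : ℝ) ^ 2 + κ - ε * w * c + ε ^ 2 * a c) n) (ψ j) =
      lam j * ipc (mode (fun _ => 1) n) (ψ j)) →
    ∀ t, 0 < t → t ≤ 1 → ∃ z : ℝ,
      HasSum (fun j => Real.exp (-(lam j * t)) * (ipc (ψ j) (ψ j)).re) z ∧
      |z - Real.exp (-(t * κ)) * (th0 t * (1 - t * ε ^ 2 *
          ((∫ x in (0 : ℝ)..(2 * Real.pi), a (Real.cos x)) / (2 * Real.pi))) +
          ε ^ 2 * (w ^ 2 / 4) * t ^ 2 * th1 t)| ≤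
        C * ε ^ 3 * (1 + B) ^ 3 * Real.exp (-(t * κ / 2))

/-- `(-1)^k k! / (2k+1)!` -/
noncomputable def phk (k : ℕ) : ℝ := (-1) ^ k * (k.factorial : ℝ) / ((2 * k + 1).factorial : ℝ)

/-- the second order heat coefficient of the test tori -/
noncomputable def cTest (p q : ℝ) (k : ℕ) : ℝ :=
  (2 * Real.pi) ^ 3 * (phk k / 4) *
    ((4 * (k : ℝ) ^ 2 - 4 * k - 2) * (p + q) ^ 2 + 2 * (p ^ 2 + q ^ 2))

noncomputable def kap (z : ℤ × ℤ) : ℝ := (z.1 : ℝ) ^ 2 + (z.2 : ℝ) ^ 2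

noncomputable def wT (p q : ℝ) (z : ℤ × ℤ) : ℝ :=
  (p + q) / 2 + 2 * p * (z.1 : ℝ) ^ 2 + 2 * q * (z.2 : ℝ) ^ 2

noncomputable def mT (p q : ℝ) (z : ℤ × ℤ) : ℝ :=
  (p + q) ^ 2 / 8 + p ^ 2 * (z.1 : ℝ) ^ 2 + q ^ 2 * (z.2 : ℝ) ^ 2

noncomputable def zA0 (t : ℝ) (z : ℤ × ℤ) : ℝ := Real.exp (-(t * kap z)) * th0 t

noncomputable def zA2 (p q t : ℝ) (z : ℤ × ℤ) : ℝ :=
  Real.exp (-(t * kap z)) * (-(th0 t * t * mT p q z) + wT p q z ^ 2 / 4 * t ^ 2 * th1 t)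

/-- (job TrC) Poisson summation for the test tori -/
def TrCStmt : Prop :=
  (∃ C : ℝ, ∀ t, 0 < t → t ≤ 1 → |th0 t| ≤ C / t ∧
    Summable (fun z => (1 + kap z) ^ 3 * Real.exp (-(t * kap z / 2))) ∧
    ∑' z, (1 + kap z) ^ 3 * Real.exp (-(t * kap z / 2)) ≤ C / t ^ 5) ∧
  ∀ p q : ℝ, ∃ c : ℕ → ℝ, (∀ k, 2 ≤ k → c k = cTest p q k) ∧ ∀ N : ℕ, ∃ C : ℝ,
    ∀ t, 0 < t → t ≤ 1 → Summable (zA0 t) ∧ Summable (zA2 p q t) ∧
      |(4 * Real.pi * t) ^ (3 / 2 : ℝ) * ∑' z, zA0 t z - (2 * Real.pi) ^ 3| ≤ C * t ^ (N + 1) ∧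
      |(4 * Real.pi * t) ^ (3 / 2 : ℝ) * ∑' z, zA2 p q t z -
        ∑ k ∈ Finset.range (N + 1), c k * t ^ k| ≤ C * t ^ (N + 1)

/-- (job ULim) coefficients of a polynomial that is small on `[τ, 2τ]` -/
def CoefStmt : Prop :=
  ∀ N : ℕ, ∃ C : ℝ, ∀ (c : ℕ → ℝ) (τ D : ℝ), 0 < τ →
    (∀ t ∈ Icc τ (2 * τ), |∑ k ∈ Finset.range (N + 1), c k * t ^ k| ≤ D) →
    ∀ k ≤ N, |c k| * τ ^ k ≤ C * D

/-- (job ULim) smooth limits along an ultrafilter -/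
def ULimStmt : Prop :=
  ∀ (ι E V : Type) [NormedAddCommGroup E] [NormedSpace ℝ E] [FiniteDimensional ℝ E]
    [NormedAddCommGroup V] [NormedSpace ℝ V] [FiniteDimensional ℝ V] (𝒰 : Ultrafilter ι)
    (f : ι → E → V) (W : Set E) (C : ℕ → ℝ), IsOpen W →
    (∀ᶠ i in (𝒰 : Filter ι), ContDiffOn ℝ ∞ (f i) W ∧
      ∀ k, ∀ y ∈ W, ‖iteratedFDeriv ℝ k (f i) y‖ ≤ C k) →
    ∃ g : E → V, ContDiffOn ℝ ∞ g W ∧ ∀ k, ∀ K ⊆ W, IsCompact K →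
      TendstoUniformlyOn (fun i => iteratedFDeriv ℝ k (f i)) (iteratedFDeriv ℝ k g) 𝒰 K

/-- (job Retr) gluing of charts: a retraction onto the set `Σ` described by the charts `Ψ β` moves
the nearby charts `Ψ' β` into it -/
def RetrStmt : Prop :=
  ∀ (m : ℕ) (ρ : ℝ) (C : ℕ → ℝ), 0 < ρ → ρ ≤ 1 → ∃ δ > 0, ∃ C' : ℕ → ℝ,
    ∀ (Ψ Ψ' : Fin m → E3 → Fin m → E3 × ℝ) (Z : Set (Fin m → E3 × ℝ)),
      (∀ β, ContDiffOn ℝ ∞ (Ψ β) (Metric.ball 0 ρ) ∧ ContDiffOn ℝ ∞ (Ψ' β) (Metric.ball 0 ρ) ∧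
        ∀ k, ∀ y ∈ Metric.ball (0 : E3) ρ, ‖iteratedFDeriv ℝ k (Ψ β) y‖ ≤ C k ∧
          ‖iteratedFDeriv ℝ k (Ψ' β) y‖ ≤ C k) →
      (∀ β, MapsTo (Ψ β) (Metric.ball 0 ρ) Z) →
      (∀ z ∈ Z, ∀ β, 1 / 2 < (z β).2 → ‖(z β).1‖ < ρ / 8 → z = Ψ β (z β).1) →
      (∀ β y, ‖y‖ ≤ ρ / 2 → Ψ β y β = (y, 1) ∧ Ψ' β y β = (y, 1)) →
      (∀ β y, ‖y‖ ≤ ρ / 2 → ‖Ψ β y - Ψ' β y‖ ≤ δ ∧ ‖fderiv ℝ (Ψ β) y - fderiv ℝ (Ψ' β) y‖ ≤ δ) →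
      ∃ π : (Fin m → E3 × ℝ) → Fin m → E3 × ℝ, ∀ β,
        ContDiffOn ℝ ∞ (fun y => (π (Ψ' β y) β).1) (Metric.ball 0 (ρ / 32)) ∧
        ∀ y ∈ Metric.ball (0 : E3) (ρ / 32), π (Ψ' β y) = Ψ β (π (Ψ' β y) β).1 ∧
          ‖π (Ψ' β y) - Ψ' β y‖ ≤ ρ / 1000 ∧
          ‖fderiv ℝ (fun y => (π (Ψ' β y) β).1) y - ContinuousLinearMap.id ℝ E3‖ ≤ 1 / 2 ∧
          ∀ k, ‖iteratedFDeriv ℝ k (fun y => (π (Ψ' β y) β).1) y‖ ≤ C' k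

/-- (job Haar) a bi-invariant probability on the orthogonal maps -/
def HaarStmt : Prop :=
  ∃ η : Measure (E3 →L[ℝ] E3), IsProbabilityMeasure η ∧ η {Q | ¬ Orth Q} = 0 ∧
    ∀ Q, Orth Q → η.map (fun R => Q ∘L R) = η ∧ η.map (fun R => R ∘L Q) = η

end Pool.Agent.Lib.MP_1a4aff_gt.I3
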