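import Pool.Agent.Lib.MP_1a4aff_gt.I3.Gen

-- part Pool.Agent.Lib.MP_1a4aff_gt.I3.SpA
section

/-!
The spectral theorem for a nonnegative form with a finite counting function.
-/

set_option autoImplicit false

open Filter Topology
open scoped RealInnerProductSpace

namespace Pool.Agent.Lib.MP_1a4aff_gt.I3

namespace SpA

/-- The set whose infimum is the `k`-th min-max value of the pair of forms `q`, `b`. -/
def MM {D : Type*} [AddCommGroup D] [Module ℝ D] (q b : D →ₗ[ℝ] D →ₗ[ℝ] ℝ) (k : ℕ) : Set ℝ :=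
  {L | ∃ F : Submodule ℝ D, Module.finrank ℝ F = k + 1 ∧ ∀ φ ∈ F, q φ φ ≤ L * b φ φ}

/-- Spectral theorem for a pair of forms with a finite counting function (job Spec). -/
def SpecStmt : Prop :=
  ∀ (H : Type) [NormedAddCommGroup H] [InnerProductSpace ℝ H] [CompleteSpace H]
    (q b : H →ₗ[ℝ] H →ₗ[ℝ] ℝ) (c C : ℝ), 0 < c →
    (∀ x y, q x y = q y x) → (∀ x y, b x y = b y x) →
    (∀ x, c * ‖x‖ ^ 2 ≤ q x x) → (∀ x, q x x ≤ C * ‖x‖ ^ 2) →
    (∀ x, x ≠ 0 → 0 < b x x) → (∀ x, b x x ≤ C * ‖x‖ ^ 2) →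
    (∀ k : ℕ, ∃ F : Submodule ℝ H, Module.finrank ℝ F = k + 1) →
    (∀ L : ℝ, ∃ N : ℕ, ∀ F : Submodule ℝ H, (∀ x ∈ F, q x x ≤ L * b x x) →
      Module.finrank ℝ F ≤ N) →
    ∃ (v : ℕ → H) (lam : ℕ → ℝ), (∀ j, 0 < lam j) ∧ (∀ j φ, q (v j) φ = lam j * b (v j) φ) ∧
      (∀ j k, b (v j) (v k) = if j = k then 1 else 0) ∧
      (∀ φ, HasSum (fun k => b φ (v k) ^ 2) (b φ φ)) ∧
      (∀ φ, HasSum (fun k => lam k * b φ (v k) ^ 2) (q φ φ)) ∧
      ∀ k, IsLeast (MM q b k) (lam k)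

namespace Spec

variable {H : Type} [NormedAddCommGroup H] [NormedSpace ℝ H]

lemma cs (T : H →ₗ[ℝ] H →ₗ[ℝ] ℝ) (hs : ∀ x y, T x y = T y x) (hp : ∀ x, 0 ≤ T x x) (x y : H) :
    T x y ^ 2 ≤ T x x * T y y := by
  have := LinearMap.BilinForm.apply_mul_apply_le_of_forall_zero_le T hp x y
  rwa [hs y x, ← sq] at this

lemma cont (T : H →ₗ[ℝ] H →ₗ[ℝ] ℝ) (hs : ∀ x y, T x y = T y x) (hp : ∀ x, 0 ≤ T x x) {C : ℝ}
    (hC : ∀ x, T x x ≤ C * ‖x‖ ^ 2) : Continuous fun p : H × H => T p.1 p.2 := by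
  have h : ∀ x y, ‖T x y‖ ≤ |C| * ‖x‖ * ‖y‖ := fun x y => by
    refine abs_le_of_sq_le_sq' ?_ (by positivity) |> abs_le.2
    have h1 : ∀ z, T z z ≤ |C| * ‖z‖ ^ 2 := fun z =>
      (hC z).trans (mul_le_mul_of_nonneg_right (le_abs_self C) (by positivity))
    calc _ ≤ T x x * T y y := cs T hs hp x y
      _ ≤ (|C| * ‖x‖ ^ 2) * (|C| * ‖y‖ ^ 2) := mul_le_mul (h1 x) (h1 y) (hp y) (by positivity)
      _ = _ := by ring
  exact (T.mkContinuous₂ |C| h).continuous₂

lemma sub_le (T : H →ₗ[ℝ] H →ₗ[ℝ] ℝ) (hp : ∀ x, 0 ≤ T x x) (x y : H) :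
    T (x - y) (x - y) ≤ 2 * T x x + 2 * T y y := by
  have := hp (x + y)
  simp only [map_add, map_sub, LinearMap.add_apply, LinearMap.sub_apply] at this ⊢
  linarith

/-- the standing hypotheses -/
structure Hyp (q b : H →ₗ[ℝ] H →ₗ[ℝ] ℝ) (c C : ℝ) : Prop where
  hc : 0 < c
  qs : ∀ x y, q x y = q y x
  bs : ∀ x y, b x y = b y x
  qlo : ∀ x, c * ‖x‖ ^ 2 ≤ q x x
  qhi : ∀ x, q x x ≤ C * ‖x‖ ^ 2
  bpos : ∀ x, x ≠ 0 → 0 < b x x
  bhi : ∀ x, b x x ≤ C * ‖x‖ ^ 2
  fin : ∀ L : ℝ, ∃ N : ℕ, ∀ F : Submodule ℝ H, (∀ x ∈ F, q x x ≤ L * b x x) →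
    Module.finrank ℝ F ≤ N

variable {q b : H →ₗ[ℝ] H →ₗ[ℝ] ℝ} {c C : ℝ}

lemma Hyp.q0 (h : Hyp q b c C) (x : H) : 0 ≤ q x x :=
  le_trans (mul_nonneg h.hc.le (sq_nonneg _)) (h.qlo x)

lemma Hyp.qpos (h : Hyp q b c C) {x : H} (hx : x ≠ 0) : 0 < q x x :=
  lt_of_lt_of_le (mul_pos h.hc (pow_pos (norm_pos_iff.2 hx) 2)) (h.qlo x)

lemma Hyp.b0 (h : Hyp q b c C) (x : H) : 0 ≤ b x x := by
  by_cases hx : x = 0
  · simp [hx]
  · exact (h.bpos x hx).le

lemma Hyp.qc (h : Hyp q b c C) : Continuous fun p : H × H => q p.1 p.2 := cont q h.qs h.q0 h.qhi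

lemma Hyp.bc (h : Hyp q b c C) : Continuous fun p : H × H => b p.1 p.2 := cont b h.bs h.b0 h.bhi

lemma Hyp.sub (h : Hyp q b c C) (W : Submodule ℝ H) :
    Hyp (q.compl₁₂ W.subtype W.subtype) (b.compl₁₂ W.subtype W.subtype) c C where
  hc := h.hc
  qs := fun x y => h.qs x y
  bs := fun x y => h.bs x y
  qlo := fun x => h.qlo x
  qhi := fun x => h.qhi x
  bpos := fun x hx => h.bpos x (by simpa using hx)
  bhi := fun x => h.bhi x
  fin := fun L => by
    obtain ⟨N, hN⟩ := h.fin L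
    refine ⟨N, fun F hF => ?_⟩
    rw [← Submodule.finrank_map_subtype_eq]
    refine hN _ ?_
    rintro _ ⟨x, hx, rfl⟩
    exact hF x hx

/-- on a subspace of finite codimension the form `b` is small -/
lemma Hyp.small (h : Hyp q b c C) (L : ℝ) : ∃ (n : ℕ) (A : H →L[ℝ] (Fin n → ℝ)),
    ∀ x, A x = 0 → L * b x x ≤ q x x := by
  obtain ⟨N, hN⟩ := h.fin L
  set P : Set ℕ := {n | ∃ F : Submodule ℝ H, FiniteDimensional ℝ F ∧ Module.finrank ℝ F = n ∧
    ∀ x ∈ F, q x x ≤ L * b x x} with hP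
  have hb : BddAbove P := ⟨N, by
    rintro _ ⟨F, -, rfl, hF⟩
    exact hN F hF⟩
  have hne : P.Nonempty := ⟨_, ⊥, inferInstance, rfl, fun x hx => by
    simp [(Submodule.mem_bot ℝ).1 hx]⟩
  obtain ⟨F, hfd, hrk, hF⟩ := Nat.sSup_mem hne hb
  let β := Module.finBasisOfFinrankEq ℝ F hrk
  let S : H →ₗ[ℝ] H →ₗ[ℝ] ℝ := q - L • b
  have hS : ∀ x y, S x y = q x y - L * b x y := fun x y => by simp [S]
  let A : H →ₗ[ℝ] (Fin (sSup P) → ℝ) := LinearMap.pi fun i => S (β i)
  have hA : Continuous A := continuous_pi fun i => by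
    simp only [A, LinearMap.pi_apply, hS]
    exact (h.qc.comp (Continuous.prodMk_right _)).sub
      ((h.bc.comp (Continuous.prodMk_right _)).const_mul L)
  refine ⟨_, ⟨A, hA⟩, fun x hx => ?_⟩
  have h1 : (S.flip x).comp F.subtype = 0 := β.ext fun i => congrFun hx i
  have h2 : ∀ f ∈ F, S f x = 0 := fun f hf => LinearMap.congr_fun h1 ⟨f, hf⟩
  by_contra hlt
  have h3 : S x x < 0 := by rw [hS]; linarith
  have hx : x ∉ F := fun hx => h3.ne (h2 x hx)
  have h4 : F < F ⊔ Submodule.span ℝ {x} := left_lt_sup.2 (by simpa using hx)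
  have h5 := Submodule.finrank_lt_finrank_of_lt h4
  have h6 : Module.finrank ℝ (F ⊔ Submodule.span ℝ {x} : Submodule ℝ H) ∈ P := by
    refine ⟨_, inferInstance, rfl, fun y hy => ?_⟩
    obtain ⟨f, hf, z, hz, rfl⟩ := Submodule.mem_sup.1 hy
    obtain ⟨t, rfl⟩ := Submodule.mem_span_singleton.1 hz
    have a1 : S f f ≤ 0 := by rw [hS]; linarith [hF f hf]
    have a2 : S x f = 0 := by rw [hS, h.qs, h.bs, ← hS, h2 f hf]
    have a3 : S (f + t • x) (f + t • x) = S f f + t * t * S x x := by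
      simp only [map_add, map_smul, LinearMap.add_apply, LinearMap.smul_apply, smul_eq_mul, a2,
        h2 f hf]
      ring
    have a4 := mul_nonneg (mul_self_nonneg t) (neg_nonneg.2 h3.le)
    have a5 := hS (f + t • x) (f + t • x)
    linarith
  have h7 := le_csSup hb h6
  omega

lemma Hyp.norm1 (h : Hyp q b c C) {x : H} (hx : x ≠ 0) :
    ∃ y, q y y = 1 ∧ b x x = b y y * q x x := by
  have h1 := h.qpos hx
  have h2 : 0 < √(q x x) := Real.sqrt_pos.2 h1
  have h3 : (√(q x x))⁻¹ * ((√(q x x))⁻¹ * q x x) = 1 := by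
    field_simp
    rw [Real.sq_sqrt h1.le]
  refine ⟨(√(q x x))⁻¹ • x, by simpa using h3, ?_⟩
  simp only [map_smul, LinearMap.smul_apply, smul_eq_mul]
  linear_combination (-b x x) * h3

/-- the maximum of the quotient is attained -/
lemma Hyp.exists_max [CompleteSpace H] (h : Hyp q b c C) {x0 : H} (hx0 : x0 ≠ 0) :
    ∃ (e : H) (κ : ℝ), q e e = 1 ∧ 0 < κ ∧ (∀ y, b e y = κ * q e y) ∧
      ∀ y, b y y ≤ κ * q y y := by
  have hc := h.hc
  set M : Set ℝ := {t | ∃ x, q x x = 1 ∧ b x x = t} with hM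
  have hnorm : ∀ x, q x x = 1 → ‖x‖ ≤ 1 + 1 / c := fun x hx => by
    have h1 : ‖x‖ ^ 2 ≤ 1 / c := by rw [le_div_iff₀ hc]; linarith [h.qlo x]
    nlinarith [sq_nonneg (‖x‖ - 1), norm_nonneg x, one_div_pos.2 hc]
  have hb : BddAbove M := ⟨|C| * (1 + 1 / c) ^ 2, by
    rintro _ ⟨x, hx, rfl⟩
    refine (h.bhi x).trans ((mul_le_mul_of_nonneg_right (le_abs_self C) (by positivity)).trans ?_)
    gcongr
    exact hnorm x hx⟩
  obtain ⟨y0, hy0, -⟩ := h.norm1 hx0
  have hne : M.Nonempty := ⟨_, y0, hy0, rfl⟩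
  set κ := sSup M with hκ
  have hκ0 : 0 < κ := lt_of_lt_of_le (h.bpos y0 fun h0 => by simp [h0] at hy0)
    (le_csSup hb ⟨y0, hy0, rfl⟩)
  have hle : ∀ y, b y y ≤ κ * q y y := fun y => by
    by_cases hy : y = 0
    · simp [hy]
    obtain ⟨z, hz, h1⟩ := h.norm1 hy
    rw [h1]
    exact mul_le_mul_of_nonneg_right (le_csSup hb ⟨z, hz, rfl⟩) (h.q0 y)
  let T : H →ₗ[ℝ] H →ₗ[ℝ] ℝ := κ • q - b
  have hT : ∀ x y, T x y = κ * q x y - b x y := fun x y => by simp [T]
  have hT0 : ∀ x, 0 ≤ T x x := fun x => by rw [hT]; linarith [hle x]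
  have hTs : ∀ x y, T x y = T y x := fun x y => by rw [hT, hT, h.qs, h.bs]
  have hTc : Continuous fun x => T x x := by
    simp only [hT]
    exact ((h.qc.comp (continuous_id.prodMk continuous_id)).const_mul κ).sub
      (h.bc.comp (continuous_id.prodMk continuous_id))
  obtain ⟨u, -, hu, hu'⟩ := exists_seq_tendsto_sSup hne hb
  choose x hx1 hx2 using hu'
  have hTx : Tendsto (fun n => T (x n) (x n)) atTop (𝓝 0) := by
    simp only [hT, hx1, hx2, mul_one]
    have := (tendsto_const_nhds (x := κ)).sub hu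
    rwa [← hκ, sub_self] at this
  obtain ⟨n, A, hA⟩ := h.small (2 / κ)
  obtain ⟨σ0, hσ0⟩ := (A : H →ₗ[ℝ] (Fin n → ℝ)).rangeRestrict.exists_rightInverse_of_surjective
    (LinearMap.range_rangeRestrict _)
  obtain ⟨σ, hσ⟩ := σ0.exists_extend
  have hAσ : ∀ z, A (σ (A z)) = A z := fun z => by
    have a1 := LinearMap.congr_fun hσ ⟨A z, z, rfl⟩
    have a2 := congrArg Subtype.val (LinearMap.congr_fun hσ0 ⟨A z, z, rfl⟩)
    simp only [LinearMap.comp_apply, Submodule.subtype_apply] at a1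
    rw [a1]
    exact a2
  obtain ⟨a, -, φ, hφ, ha⟩ := tendsto_subseq_of_bounded
    (Metric.isBounded_closedBall (x := (0 : Fin n → ℝ)) (r := ‖A‖ * (1 + 1 / c)))
    (x := fun k => A (x k)) fun k => by
      rw [mem_closedBall_zero_iff]
      exact (A.le_opNorm _).trans (mul_le_mul_of_nonneg_left (hnorm _ (hx1 k)) (norm_nonneg _))
  set w : ℕ → H := fun k => σ (A (x (φ k))) - σ a with hw
  have hw0 : Tendsto w atTop (𝓝 0) := by
    have := ((σ.continuous_of_finiteDimensional.tendsto a).comp ha).sub_const (σ a)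
    rwa [sub_self] at this
  set y : ℕ → H := fun k => x (φ k) - w k with hy
  have hTy : Tendsto (fun k => T (y k) (y k)) atTop (𝓝 0) := by
    have a1 : Tendsto (fun k => T (w k) (w k)) atTop (𝓝 0) := by
      simpa [Function.comp_def] using (hTc.tendsto 0).comp hw0
    have a2 := ((hTx.comp hφ.tendsto_atTop).const_mul 2).add (a1.const_mul 2)
    rw [mul_zero, add_zero] at a2
    exact squeeze_zero (fun k => hT0 _) (fun k => sub_le T hT0 _ _) a2
  have hcau : CauchySeq y := by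
    rw [Metric.cauchySeq_iff]
    intro ε hε
    obtain ⟨N, hN⟩ := eventually_atTop.1
      (hTy.eventually (gt_mem_nhds (show 0 < κ * c * ε ^ 2 / 8 by positivity)))
    refine ⟨N, fun k hk l hl => ?_⟩
    have a1 : A (y k - y l) = 0 := by simp [hy, hw, hAσ]
    have a2 := hA _ a1
    have a3 := sub_le T hT0 (y k) (y l)
    have a4 := h.qlo (y k - y l)
    rw [hT] at a3
    rw [div_mul_eq_mul_div, div_le_iff₀ hκ0] at a2
    have a5 := mul_le_mul_of_nonneg_left a4 hκ0.le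
    have a6 : κ * c * ‖y k - y l‖ ^ 2 < κ * c * ε ^ 2 := by linarith [hN k hk, hN l hl]
    rw [dist_eq_norm]
    exact lt_of_pow_lt_pow_left₀ 2 hε.le (lt_of_mul_lt_mul_left a6 (by positivity))
  obtain ⟨e, he⟩ := cauchySeq_tendsto_of_complete hcau
  have he2 : Tendsto (fun k => x (φ k)) atTop (𝓝 e) := by simpa [hy] using he.add hw0
  have he3 : q e e = 1 := tendsto_nhds_unique
    (((h.qc.comp (continuous_id.prodMk continuous_id)).tendsto e).comp he2)
    (by simp [Function.comp_def, hx1])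
  have he4 : T e e = 0 := tendsto_nhds_unique ((hTc.tendsto e).comp he) hTy
  refine ⟨e, κ, he3, hκ0, fun z => ?_, hle⟩
  have a1 := cs T hTs hT0 e z
  rw [he4, zero_mul] at a1
  have a2 : T e z = 0 := pow_eq_zero_iff (n := 2) (by norm_num) |>.1 (le_antisymm a1 (sq_nonneg _))
  rw [hT] at a2
  linarith

lemma exists_orth (q : H →ₗ[ℝ] H →ₗ[ℝ] ℝ) {k : ℕ} (e : Fin k → H) {F : Submodule ℝ H}
    (hF : Module.finrank ℝ F = k + 1) : ∃ x ∈ F, x ≠ 0 ∧ ∀ j, q (e j) x = 0 := by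
  have : FiniteDimensional ℝ F := Module.finite_of_finrank_pos (by omega)
  obtain ⟨x, hx, hx0⟩ := (Submodule.ne_bot_iff _).1 (LinearMap.ker_ne_bot_of_finrank_lt
    (f := (LinearMap.pi fun j => q (e j)).comp F.subtype) (by simp [hF]))
  exact ⟨x, x.2, by simpa using hx0, fun j => congrFun hx j⟩

lemma Hyp.step [CompleteSpace H] (h : Hyp q b c C)
    (hinf : ∀ k : ℕ, ∃ F : Submodule ℝ H, Module.finrank ℝ F = k + 1) (s : Finset H) :
    ∃ (e : H) (κ : ℝ), q e e = 1 ∧ 0 < κ ∧ (∀ f ∈ s, q f e = 0) ∧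
      ∀ y, (∀ f ∈ s, q f y = 0) → b e y = κ * q e y ∧ b y y ≤ κ * q y y := by
  let W : Submodule ℝ H := ⨅ f ∈ s, LinearMap.ker (q f)
  have hW : ∀ y, y ∈ W ↔ ∀ f ∈ s, q f y = 0 := fun y => by simp [W]
  have hcl : IsClosed (W : Set H) := by
    have : (W : Set H) = ⋂ f ∈ s, {y | q f y = 0} := by ext y; simp [hW]
    rw [this]
    exact isClosed_biInter fun f _ =>
      isClosed_eq (h.qc.comp (Continuous.prodMk_right f)) continuous_const
  have := hcl.completeSpace_coe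
  obtain ⟨F, hF⟩ := hinf s.card
  obtain ⟨x, -, hx0, hx⟩ := exists_orth q (fun j => (s.equivFin.symm j : H)) hF
  obtain ⟨e, κ, h1, h2, h3, h4⟩ := (h.sub W).exists_max
    (x0 := ⟨x, (hW x).2 fun f hf => by simpa using hx (s.equivFin ⟨f, hf⟩)⟩) (by simpa using hx0)
  exact ⟨e, κ, h1, h2, (hW e).1 e.2, fun y hy => ⟨h3 ⟨y, (hW y).2 hy⟩, h4 ⟨y, (hW y).2 hy⟩⟩⟩

lemma Hyp.seq [CompleteSpace H] (h : Hyp q b c C)
    (hinf : ∀ k : ℕ, ∃ F : Submodule ℝ H, Module.finrank ℝ F = k + 1) :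
    ∃ (e : ℕ → H) (κ : ℕ → ℝ), (∀ k, 0 < κ k) ∧ (∀ j k, q (e j) (e k) = if j = k then 1 else 0) ∧
      (∀ k y, b (e k) y = κ k * q (e k) y) ∧
      ∀ k y, (∀ j < k, q (e j) y = 0) → b y y ≤ κ k * q y y := by
  classical
  choose nx κ h1 h2 h3 h4 using h.step hinf
  let S : ℕ → Finset H := fun k => Nat.rec ∅ (fun _ s => insert (nx s) s) k
  have hS : ∀ k f, f ∈ S k ↔ ∃ j < k, f = nx (S j) := fun k => by
    induction k with
    | zero => simp [S]
    | succ k ih =>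
      intro f
      rw [show S (k + 1) = insert (nx (S k)) (S k) from rfl, Finset.mem_insert, ih]
      constructor
      · rintro (rfl | ⟨j, hj, rfl⟩)
        exacts [⟨k, by omega, rfl⟩, ⟨j, by omega, rfl⟩]
      · rintro ⟨j, hj, rfl⟩
        rcases (Nat.lt_succ_iff_lt_or_eq.1 hj) with hj | rfl
        exacts [Or.inr ⟨j, hj, rfl⟩, Or.inl rfl]
  set e : ℕ → H := fun k => nx (S k) with he
  have h5 : ∀ k y, (∀ j < k, q (e j) y = 0) → ∀ f ∈ S k, q f y = 0 := fun k y hy f hf => by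
    obtain ⟨j, hj, rfl⟩ := (hS k f).1 hf
    exact hy j hj
  have h6 : ∀ j k, j < k → q (e j) (e k) = 0 := fun j k hj => h3 _ _ ((hS k _).2 ⟨j, hj, rfl⟩)
  have h7 : ∀ j k, q (e j) (e k) = if j = k then 1 else 0 := fun j k => by
    rcases lt_trichotomy j k with hj | rfl | hj
    · rw [h6 j k hj, if_neg hj.ne]
    · rw [if_pos rfl]; exact h1 _
    · rw [h.qs, h6 k j hj, if_neg hj.ne']
  refine ⟨e, fun k => κ (S k), fun k => h2 _, h7, fun k y => ?_,
    fun k y hy => (h4 _ y (h5 k y hy)).2⟩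
  have a1 := (h4 (S k) (y - ∑ i ∈ Finset.range k, q (e i) y • e i) (h5 k _ fun j hj => by
    simp [h7, hj])).1
  have a2 : ∀ i ∈ Finset.range k, b (e k) (e i) = 0 ∧ q (e k) (e i) = 0 := fun i hi => by
    have hi := Finset.mem_range.1 hi
    have a3 := (h4 (S i) (e k) (h5 i _ fun j hj => h6 j k (by omega))).1
    rw [h.bs, h.qs, h6 i k hi]
    exact ⟨a3.trans (mul_eq_zero_of_right _ (h6 i k hi)), rfl⟩
  simp only [map_sub, map_sum, map_smul, smul_eq_mul] at a1
  rw [Finset.sum_eq_zero fun i hi => mul_eq_zero_of_right _ (a2 i hi).1,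
    Finset.sum_eq_zero fun i hi => mul_eq_zero_of_right _ (a2 i hi).2, sub_zero, sub_zero] at a1
  exact a1

section Final

variable {e : ℕ → H} {κ : ℕ → ℝ}

lemma form_sum (T : H →ₗ[ℝ] H →ₗ[ℝ] ℝ) (hT : ∀ j k, T (e j) (e k) = if j = k then κ j else 0)
    (a : ℕ → ℝ) (t : Finset ℕ) :
    T (∑ j ∈ t, a j • e j) (∑ j ∈ t, a j • e j) = ∑ j ∈ t, κ j * a j ^ 2 := by
  simp only [map_sum, map_smul, LinearMap.sum_apply, LinearMap.smul_apply, smul_eq_mul, hT,
    mul_ite, mul_zero, Finset.sum_ite_eq']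
  exact Finset.sum_congr rfl fun j hj => by rw [if_pos hj]; ring

lemma form_rem (T : H →ₗ[ℝ] H →ₗ[ℝ] ℝ) (hs : ∀ x y, T x y = T y x)
    (hT : ∀ j k, T (e j) (e k) = if j = k then κ j else 0) {a : ℕ → ℝ} {φ : H}
    (ha : ∀ j, T (e j) φ = κ j * a j) (t : Finset ℕ) :
    T (φ - ∑ j ∈ t, a j • e j) (φ - ∑ j ∈ t, a j • e j) = T φ φ - ∑ j ∈ t, κ j * a j ^ 2 := by
  have h1 : T (∑ j ∈ t, a j • e j) φ = ∑ j ∈ t, κ j * a j ^ 2 := by
    simp only [map_sum, map_smul, LinearMap.sum_apply, LinearMap.smul_apply, smul_eq_mul, ha]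
    exact Finset.sum_congr rfl fun j _ => by ring
  have h2 := form_sum T hT a t
  generalize ∑ j ∈ t, a j • e j = s at h1 h2 ⊢
  simp only [map_sub, LinearMap.sub_apply]
  rw [hs φ s, h1, h2]
  ring

lemma span_le (hq : ∀ j k, q (e j) (e k) = if j = k then 1 else 0)
    (hb : ∀ j k, b (e j) (e k) = if j = k then κ j else 0) (hκ : Antitone κ) (k : ℕ) :
    ∃ F : Submodule ℝ H, Module.finrank ℝ F = k + 1 ∧ ∀ x ∈ F, κ k * q x x ≤ b x x := by
  have hli : LinearIndependent ℝ fun j : Fin (k + 1) => e j := by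
    rw [Fintype.linearIndependent_iff]
    intro g hg i
    have := congrArg (q (e i)) hg
    simpa [hq, Fin.val_inj] using this
  refine ⟨_, by rw [finrank_span_eq_card hli, Fintype.card_fin], fun x hx => ?_⟩
  obtain ⟨g, rfl⟩ := (Submodule.mem_span_range_iff_exists_fun ℝ).1 hx
  have h1 : ∑ j, g j • e j = ∑ j ∈ Finset.range (k + 1),
      (if h : j < k + 1 then g ⟨j, h⟩ else 0) • e j := by
    rw [Finset.sum_range]
    exact Finset.sum_congr rfl fun j _ => by rw [dif_pos j.2]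
  rw [h1, form_sum (κ := fun _ => 1) q hq, form_sum b hb, Finset.mul_sum]
  refine Finset.sum_le_sum fun j hj => ?_
  rw [one_mul]
  exact mul_le_mul_of_nonneg_right (hκ (Nat.lt_succ_iff.1 (Finset.mem_range.1 hj))) (sq_nonneg _)

end Final

end Spec

open Spec in
theorem spec_holds : SpecStmt := by
  intro H _ _ _ q b c C hc qs bs qlo qhi bpos bhi hinf fin
  have h : Hyp q b c C := ⟨hc, qs, bs, qlo, qhi, bpos, bhi, fin⟩
  obtain ⟨e, κ, hκ, hq, hbq, hmax⟩ := h.seq hinf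
  have hb : ∀ j k, b (e j) (e k) = if j = k then κ j else 0 := fun j k => by simp [hbq, hq]
  have hanti : Antitone κ := antitone_nat_of_succ_le fun k => by
    have := hmax k (e (k + 1)) fun j hj => by rw [hq, if_neg (by omega)]
    simpa [hb, hq] using this
  have hκ0 : Tendsto κ atTop (𝓝 0) := by
    rw [Metric.tendsto_atTop]
    intro ε hε
    obtain ⟨N, hN⟩ := fin (1 / ε)
    refine ⟨N, fun k hk => ?_⟩
    rw [Real.dist_eq, sub_zero, abs_of_pos (hκ k)]
    refine (hanti hk).trans_lt (not_le.1 fun h1 => ?_)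
    obtain ⟨F, hF, h2⟩ := span_le hq hb hanti N
    have := hN F fun x hx => by
      rw [one_div_mul_eq_div, le_div_iff₀' hε]
      exact (mul_le_mul_of_nonneg_right h1 (h.q0 x)).trans (h2 x hx)
    omega
  have hrq : ∀ φ t, q (φ - ∑ j ∈ t, q (e j) φ • e j) (φ - ∑ j ∈ t, q (e j) φ • e j) =
      q φ φ - ∑ j ∈ t, q (e j) φ ^ 2 := fun φ t => by
    simpa using form_rem (κ := fun _ => 1) q qs hq (a := fun j => q (e j) φ) (φ := φ)
      (fun j => by simp) t
  have hrb : ∀ φ t, b (φ - ∑ j ∈ t, q (e j) φ • e j) (φ - ∑ j ∈ t, q (e j) φ • e j) =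
      b φ φ - ∑ j ∈ t, κ j * q (e j) φ ^ 2 := fun φ t => form_rem b bs hb (fun j => hbq j φ) t
  have hbz : ∀ φ, Tendsto (fun n => b (φ - ∑ j ∈ Finset.range n, q (e j) φ • e j)
      (φ - ∑ j ∈ Finset.range n, q (e j) φ • e j)) atTop (𝓝 0) := fun φ => by
    have h1 := hκ0.mul_const (q φ φ)
    rw [zero_mul] at h1
    refine squeeze_zero (fun n => h.b0 _) (fun n => (hmax n _ fun j hj => by simp [hq, hj]).trans
      (mul_le_mul_of_nonneg_left ?_ (hκ n).le)) h1
    rw [hrq]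
    exact sub_le_self _ (Finset.sum_nonneg fun j _ => sq_nonneg _)
  have hqz : ∀ φ, Tendsto (fun n => q (φ - ∑ j ∈ Finset.range n, q (e j) φ • e j)
      (φ - ∑ j ∈ Finset.range n, q (e j) φ • e j)) atTop (𝓝 0) := fun φ => by
    have h1 : Summable fun j => q (e j) φ ^ 2 :=
      summable_of_sum_le (c := q φ φ) (fun j => sq_nonneg _) fun t => by
        have := h.q0 (φ - ∑ j ∈ t, q (e j) φ • e j)
        rw [hrq] at this
        linarith
    have h2 : Summable fun j => q (e j) φ • e j := by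
      rw [summable_iff_vanishing_norm]
      intro ε hε
      obtain ⟨s, hs⟩ := summable_iff_vanishing_norm.1 h1 (c * ε ^ 2) (by positivity)
      refine ⟨s, fun t ht => ?_⟩
      have a1 := qlo (∑ j ∈ t, q (e j) φ • e j)
      rw [form_sum (κ := fun _ => 1) q hq] at a1
      simp only [one_mul] at a1
      exact lt_of_pow_lt_pow_left₀ 2 hε.le (lt_of_mul_lt_mul_left
        (a1.trans_lt ((le_abs_self _).trans_lt (hs t ht))) hc.le)
    have h3 := h2.hasSum.tendsto_sum_nat.const_sub φ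
    generalize φ - ∑' j, q (e j) φ • e j = r at h3
    have h4 : b r r = 0 := tendsto_nhds_unique
      (((h.bc.comp (continuous_id.prodMk continuous_id)).tendsto r).comp h3) (hbz φ)
    have h5 : r = 0 := by_contra fun h5 => (bpos r h5).ne' h4
    have h6 := ((h.qc.comp (continuous_id.prodMk continuous_id)).tendsto r).comp h3
    simpa [h5, Function.comp_def, -map_sub, -map_sum] using h6
  have hs : ∀ k, √(κ k)⁻¹ * √(κ k)⁻¹ = (κ k)⁻¹ := fun k =>
    Real.mul_self_sqrt (inv_pos.2 (hκ k)).le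
  have hv : ∀ φ k, b φ (√(κ k)⁻¹ • e k) ^ 2 = κ k * q (e k) φ ^ 2 := fun φ k => by
    rw [map_smul, smul_eq_mul, bs, hbq, mul_pow, sq √_, hs]
    have := (hκ k).ne'
    field_simp
  refine ⟨fun k => √(κ k)⁻¹ • e k, fun k => (κ k)⁻¹, fun k => inv_pos.2 (hκ k), fun j φ => ?_,
    fun j k => ?_, fun φ => ?_, fun φ => ?_, fun k => ⟨?_, ?_⟩⟩
  · have := (hκ j).ne'
    simp only [map_smul, LinearMap.smul_apply, smul_eq_mul, hbq]
    field_simp
  · simp only [map_smul, LinearMap.smul_apply, smul_eq_mul, hb]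
    split_ifs with hjk
    · subst hjk
      rw [← mul_assoc, hs, inv_mul_cancel₀ (hκ j).ne']
    · simp
  · simp only [hv]
    rw [hasSum_iff_tendsto_nat_of_nonneg fun k => mul_nonneg (hκ k).le (sq_nonneg _)]
    simpa [hrb, -map_sub, -map_sum] using (hbz φ).const_sub (b φ φ)
  · simp only [hv, inv_mul_cancel_left₀ (hκ _).ne']
    rw [hasSum_iff_tendsto_nat_of_nonneg fun k => sq_nonneg _]
    simpa [hrq, -map_sub, -map_sum] using (hqz φ).const_sub (q φ φ)
  · obtain ⟨F, hF, h2⟩ := span_le hq hb hanti k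
    exact ⟨F, hF, fun x hx => (le_inv_mul_iff₀ (hκ k)).2 (h2 x hx)⟩
  · rintro L ⟨F, hF, h1⟩
    obtain ⟨x, hx, hx0, h2⟩ := exists_orth q (fun j : Fin k => e j) hF
    have h3 := hmax k x fun j hj => h2 ⟨j, hj⟩
    refine le_of_mul_le_mul_right ?_ (bpos x hx0)
    exact ((inv_mul_le_iff₀ (hκ k)).2 h3).trans (h1 x hx)

/-- the completion of `V` for the form `q + |ι ·|²` -/
lemma exists_compl {V H : Type} [AddCommGroup V] [Module ℝ V] [NormedAddCommGroup H]
    [InnerProductSpace ℝ H] (ι : V →ₗ[ℝ] H) (q : V →ₗ[ℝ] V →ₗ[ℝ] ℝ)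
    (hs : ∀ f h, q f h = q h f) (hp : ∀ f, 0 ≤ q f f) :
    ∃ (G : Type) (_ : NormedAddCommGroup G) (_ : InnerProductSpace ℝ G) (_ : CompleteSpace G)
      (a : V →ₗ[ℝ] G), DenseRange a ∧ ∀ f h, ⟪a f, a h⟫ = q f h + ⟪ι f, ι h⟫ := by
  let cd : PreInnerProductSpace.Core ℝ V :=
    { inner := fun f h => q f h + ⟪ι f, ι h⟫
      conj_inner_symm := fun x y => by
        simp only [conj_trivial]
        rw [hs, real_inner_comm]
      re_inner_nonneg := fun x => add_nonneg (hp x) real_inner_self_nonneg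
      add_left := fun x y z => by
        simp only [map_add, LinearMap.add_apply, inner_add_left]
        ring
      smul_left := fun x y r => by
        simp only [map_smul, LinearMap.smul_apply, inner_smul_left, conj_trivial, smul_eq_mul]
        ring }
  let _ : SeminormedAddCommGroup V := InnerProductSpace.Core.toSeminormedAddCommGroup (c := cd)
  let _ : InnerProductSpace ℝ V := InnerProductSpace.ofCore cd
  refine ⟨UniformSpace.Completion V, inferInstance, inferInstance, inferInstance,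
    (UniformSpace.Completion.toComplₗᵢ (𝕜 := ℝ) (E := V)).toLinearMap,
    UniformSpace.Completion.denseRange_coe, fun f h => ?_⟩
  exact UniformSpace.Completion.inner_coe f h

section Main

variable {V H G : Type} [AddCommGroup V] [Module ℝ V] [NormedAddCommGroup H]
  [InnerProductSpace ℝ H] [NormedAddCommGroup G] [InnerProductSpace ℝ G]

/-- a finite dimensional subspace is approximated through a map with dense range -/
lemma approx_map (a : V →ₗ[ℝ] G) (ha : DenseRange a) (F : Submodule ℝ G) [FiniteDimensional ℝ F]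
    {δ : ℝ} (hδ : 0 < δ) : ∃ T : F →ₗ[ℝ] V, ∀ x : F, ‖a (T x) - x‖ ≤ δ * ‖(x : G)‖ := by
  let e := stdOrthonormalBasis ℝ F
  set n := Module.finrank ℝ F with hn
  have hη : 0 < δ / (n + 1) := by positivity
  choose f hf using fun i : Fin n => ha.exists_dist_lt (e i : G) hη
  refine ⟨e.toBasis.constr ℝ f, fun x => ?_⟩
  have h1 : (x : G) = ∑ i, e.toBasis.repr x i • (e i : G) := by
    conv_lhs => rw [← e.toBasis.sum_repr x]
    simp
  have h2 : a (e.toBasis.constr ℝ f x) - x = ∑ i, e.toBasis.repr x i • (a (f i) - e i) := by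
    rw [Module.Basis.constr_apply_fintype, map_sum]
    conv_lhs => rw [h1]
    rw [← Finset.sum_sub_distrib]
    exact Finset.sum_congr rfl fun i _ => by simp [smul_sub]
  rw [h2]
  refine (norm_sum_le _ _).trans ?_
  have h3 : ∀ i, ‖e.toBasis.repr x i • (a (f i) - e i)‖ ≤ ‖(x : G)‖ * (δ / (n + 1)) := fun i => by
    rw [norm_smul]
    refine mul_le_mul ?_ ?_ (norm_nonneg _) (norm_nonneg _)
    · rw [OrthonormalBasis.coe_toBasis_repr_apply, OrthonormalBasis.repr_apply_apply]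
      have := norm_inner_le_norm (𝕜 := ℝ) (e i) x
      rwa [e.orthonormal.1 i, one_mul] at this
    · have := hf i
      rw [dist_comm, dist_eq_norm] at this
      exact this.le
  refine (Finset.sum_le_sum fun i _ => h3 i).trans ?_
  rw [Finset.sum_const, Finset.card_univ, Fintype.card_fin, nsmul_eq_mul]
  have h4 : (n : ℝ) * (δ / (n + 1)) ≤ δ := by
    rw [← mul_div_assoc, div_le_iff₀ (by positivity)]
    nlinarith
  nlinarith [norm_nonneg (x : G)]

variable {ι : V →ₗ[ℝ] H} {q : V →ₗ[ℝ] V →ₗ[ℝ] ℝ} {a : V →ₗ[ℝ] G} {j : G →L[ℝ] H}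

lemma mem_MMs (ha : DenseRange a) (hq : ∀ f, ‖a f‖ ^ 2 = q f f + ‖ι f‖ ^ 2)
    (hj : ∀ f, j (a f) = ι f) (hc : ∀ x, ‖j x‖ ≤ ‖x‖) {k : ℕ} {L ε : ℝ} (hε : 0 < ε)
    (F : Submodule ℝ G) (hF : Module.finrank ℝ F = k + 1)
    (hL : ∀ x ∈ F, ‖x‖ ^ 2 ≤ L * ‖j x‖ ^ 2) : L - 1 + ε ∈ MMs ι q k := by
  have : FiniteDimensional ℝ F := Module.finite_of_finrank_pos (by omega)
  have hL0 : 0 ≤ L := by
    have : Nontrivial F := Module.nontrivial_of_finrank_pos (R := ℝ) (by omega)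
    obtain ⟨x, hx⟩ := exists_ne (0 : F)
    have h1 : 0 < ‖(x : G)‖ ^ 2 := pow_pos (norm_pos_iff.2 (by simpa using hx)) 2
    by_contra h2
    nlinarith [hL x x.2, sq_nonneg ‖j x‖]
  set s := √L with hs
  have hs0 : 0 ≤ s := Real.sqrt_nonneg L
  have hs2 : s ^ 2 = L := Real.sq_sqrt hL0
  have h1 : ∀ x ∈ F, ‖x‖ ≤ s * ‖j x‖ := fun x hx =>
    abs_le_of_sq_le_sq' (by rw [mul_pow, hs2]; exact hL x hx) (by positivity) |>.2
  obtain ⟨δ, hδ0, hδ1, hδ2, hδ3⟩ : ∃ δ : ℝ, 0 < δ ∧ δ < 1 ∧ δ * s < 1 ∧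
      ((1 + δ) * s) ^ 2 < (L + ε) * (1 - δ * s) ^ 2 := by
    have e1 : ∀ᶠ δ in 𝓝 (0 : ℝ), δ < 1 := gt_mem_nhds one_pos
    have e2 : ∀ᶠ δ in 𝓝 (0 : ℝ), δ * s < 1 :=
      ContinuousAt.eventually_lt (f := fun δ : ℝ => δ * s) (g := fun _ => 1) (by fun_prop)
        (by fun_prop) (by simp)
    have e3 : ∀ᶠ δ in 𝓝 (0 : ℝ), ((1 + δ) * s) ^ 2 < (L + ε) * (1 - δ * s) ^ 2 :=
      ContinuousAt.eventually_lt (f := fun δ : ℝ => ((1 + δ) * s) ^ 2)
        (g := fun δ => (L + ε) * (1 - δ * s) ^ 2) (by fun_prop) (by fun_prop)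
        (by simp [hs2, hε])
    obtain ⟨δ, h, h'⟩ := (((e1.and (e2.and e3)).filter_mono
      (nhdsWithin_le_nhds (s := Set.Ioi 0))).and self_mem_nhdsWithin).exists
    exact ⟨δ, h', h.1, h.2.1, h.2.2⟩
  obtain ⟨T, hT⟩ := approx_map a ha F hδ0
  have hinj : Function.Injective T := by
    rw [← LinearMap.ker_eq_bot, LinearMap.ker_eq_bot']
    intro x hx
    have h2 := hT x
    rw [hx, map_zero, zero_sub, norm_neg] at h2
    have h3 : ‖(x : G)‖ = 0 := by nlinarith [norm_nonneg (x : G)]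
    simpa using h3
  have h2 : ∀ x : F, (1 - δ * s) * ‖j x‖ ≤ ‖ι (T x)‖ := fun x => by
    have a1 : ‖j x‖ ≤ ‖ι (T x)‖ + ‖j (a (T x) - x)‖ := by
      rw [map_sub, hj]
      have := norm_sub_le (ι (T x)) (ι (T x) - j x)
      rwa [sub_sub_cancel] at this
    have a2 := (hc _).trans (hT x)
    have a3 := mul_le_mul_of_nonneg_left (h1 x x.2) hδ0.le
    linarith
  have h3 : ∀ x : F, ‖a (T x)‖ ≤ (1 + δ) * s * ‖j x‖ := fun x => by
    have a1 : ‖a (T x)‖ ≤ ‖a (T x) - x‖ + ‖(x : G)‖ := by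
      have := norm_add_le (a (T x) - x) x
      rwa [sub_add_cancel] at this
    have a2 := hT x
    have a3 := mul_le_mul_of_nonneg_left (h1 x x.2) (show 0 ≤ 1 + δ by positivity)
    linarith
  refine ⟨LinearMap.range T, by rw [LinearMap.finrank_range_of_inj hinj, hF], ?_⟩
  rintro _ ⟨x, rfl⟩
  have h4 : 0 < 1 - δ * s := by linarith
  refine ⟨fun hx h0 => hx ?_, ?_⟩
  · have a1 := h2 x
    rw [h0, norm_zero] at a1
    have a2 : ‖j x‖ ≤ 0 := by
      by_contra a2
      exact absurd (mul_pos h4 (not_le.1 a2)) (not_lt.2 a1)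
    have a3 := h1 x x.2
    have a4 : ‖(x : G)‖ = 0 := le_antisymm (by nlinarith) (norm_nonneg _)
    have a5 : x = 0 := by simpa using a4
    rw [a5, map_zero]
  · have a1 := pow_le_pow_left₀ (norm_nonneg _) (h3 x) 2
    have a2 := pow_le_pow_left₀ (by positivity) (h2 x) 2
    rw [mul_pow] at a1 a2
    have a3 := mul_le_mul_of_nonneg_right hδ3.le (sq_nonneg ‖j x‖)
    have a4 := mul_le_mul_of_nonneg_left a2 (show 0 ≤ L + ε by positivity)
    have a5 := hq (T x)
    linarith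

theorem main [CompleteSpace G] [CompleteSpace H] (hι : DenseRange ι) (ha : DenseRange a)
    (hq : ∀ f h, ⟪a f, a h⟫ = q f h + ⟪ι f, ι h⟫) (hj : ∀ f, j (a f) = ι f)
    (hc : ∀ x, ‖j x‖ ≤ ‖x‖) (hne : ∀ k, (MMs ι q k).Nonempty)
    (hfin : ∀ L : ℝ, ∃ N : ℕ, ∀ k, L ∈ MMs ι q k → k ≤ N) :
    ∃ b : HilbertBasis ℕ ℝ H, ∀ i, WeakEig ι q (b i) (sInf (MMs ι q i)) := by
  have hq' : ∀ f, ‖a f‖ ^ 2 = q f f + ‖ι f‖ ^ 2 := fun f => by
    rw [← real_inner_self_eq_norm_sq, ← real_inner_self_eq_norm_sq, hq]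
  let Z : Submodule ℝ G := LinearMap.ker (j : G →ₗ[ℝ] H)
  have hZ : IsClosed (Z : Set G) := j.isClosed_ker
  have : CompleteSpace Z := hZ.completeSpace_coe
  let K : Submodule ℝ G := Zᗮ
  let P : G →L[ℝ] K := K.orthogonalProjectionOnto
  have hP : ∀ y, j (P y) = j y := fun y => by
    have h1 : y - K.starProjection y ∈ Kᗮ := K.sub_starProjection_mem_orthogonal y
    rw [Submodule.orthogonal_orthogonal] at h1
    have h2 : j (y - K.starProjection y) = 0 := h1
    rw [map_sub, sub_eq_zero] at h2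
    exact h2.symm
  let jK : K →ₗ[ℝ] H := (j : G →ₗ[ℝ] H) ∘ₗ K.subtype
  have hjK : ∀ x : K, jK x = j x := fun x => rfl
  let q' : K →ₗ[ℝ] K →ₗ[ℝ] ℝ := innerₗ K
  let b' : K →ₗ[ℝ] K →ₗ[ℝ] ℝ := (innerₗ H).compl₁₂ jK jK
  have hq1 : ∀ x y : K, q' x y = ⟪(x : G), (y : G)⟫ := fun x y => rfl
  have hb1 : ∀ x y : K, b' x y = ⟪j x, j y⟫ := fun x y => rfl
  have hq2 : ∀ x : K, q' x x = ‖(x : G)‖ ^ 2 := fun x => by rw [hq1, real_inner_self_eq_norm_sq]
  have hb2 : ∀ x : K, b' x x = ‖j x‖ ^ 2 := fun x => by rw [hb1, real_inner_self_eq_norm_sq]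
  have up : ∀ k L, L ∈ MMs ι q k → L + 1 ∈ MM q' b' k := by
    rintro k L ⟨W, hW, hL⟩
    let A : W →ₗ[ℝ] K := (P : G →ₗ[ℝ] K) ∘ₗ a ∘ₗ W.subtype
    have hA : ∀ f : W, A f = P (a f) := fun f => rfl
    have hinj : Function.Injective A := by
      rw [← LinearMap.ker_eq_bot, LinearMap.ker_eq_bot']
      intro f hf
      by_contra h0
      refine (hL f f.2).1 (by simpa using h0) ?_
      rw [← hj, ← hP, ← hA, hf]
      simp
    refine ⟨LinearMap.range A, by rw [LinearMap.finrank_range_of_inj hinj, hW], ?_⟩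
    rintro _ ⟨f, rfl⟩
    rw [hq2, hb2, hA, hP, hj]
    have a1 : ‖((P (a f) : K) : G)‖ ≤ ‖a f‖ := K.norm_orthogonalProjectionOnto_apply_le _
    have a2 := pow_le_pow_left₀ (norm_nonneg _) a1 2
    have a3 := hq' f
    have a4 := (hL f f.2).2
    linarith
  have down : ∀ k L ε, 0 < ε → L ∈ MM q' b' k → L - 1 + ε ∈ MMs ι q k := by
    rintro k L ε hε ⟨F, hF, hL⟩
    refine mem_MMs ha hq' hj hc hε (F.map K.subtype)
      (by rw [Submodule.finrank_map_subtype_eq, hF]) ?_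
    rintro _ ⟨x, hx, rfl⟩
    have := hL x hx
    rwa [hq2, hb2] at this
  obtain ⟨v, lam, -, hv1, hv2, hv3, -, hv4⟩ := spec_holds K q' b' 1 1 one_pos
    (fun x y => by rw [hq1, hq1, real_inner_comm]) (fun x y => by rw [hb1, hb1, real_inner_comm])
    (fun x => by rw [hq2, one_mul]; exact le_rfl) (fun x => by rw [hq2, one_mul]; exact le_rfl)
    (fun x hx => by
      rw [hb2]
      refine pow_pos (norm_pos_iff.2 fun h0 => hx ?_) 2
      have h1 : ⟪(x : G), (x : G)⟫ = 0 := Submodule.inner_right_of_mem_orthogonal (K := Z) h0 x.2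
      simpa using h1)
    (fun x => by
      rw [hb2, one_mul]
      exact pow_le_pow_left₀ (norm_nonneg _) (hc _) 2)
    (fun k => by
      obtain ⟨L, hL⟩ := hne k
      obtain ⟨F, hF, -⟩ := up k L hL
      exact ⟨F, hF⟩)
    (fun L => by
      obtain ⟨N, hN⟩ := hfin (L - 1 + 1)
      refine ⟨N + 1, fun F hF => ?_⟩
      rcases h : Module.finrank ℝ F with _ | k
      · omega
      · have := hN k (down k L 1 one_pos ⟨F, h, hF⟩)
        omega)
  have hon : Orthonormal ℝ fun k => j (v k) := orthonormal_iff_ite.2 fun i k => hv2 i k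
  have hsp : (Submodule.span ℝ (Set.range fun k => j (v k)))ᗮ = ⊥ := by
    rw [Submodule.eq_bot_iff]
    intro y hy
    have h1 : ∀ k, ⟪j (v k), y⟫ = 0 := fun k =>
      Submodule.inner_right_of_mem_orthogonal (Submodule.subset_span (Set.mem_range_self k)) hy
    refine hι.eq_zero_of_inner_right (𝕜 := ℝ) fun f => ?_
    have h2 : ∀ t : ℝ, ‖ι f‖ ^ 2 ≤ ‖ι f - t • y‖ ^ 2 := fun t => by
      have a1 := hon.tsum_inner_products_le (ι f - t • y)
      have a2 := (hv3 (P (a f))).tsum_eq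
      rw [hb2, hP, hj] at a2
      refine a2.symm.le.trans (le_of_eq_of_le (tsum_congr fun k => ?_) a1)
      rw [hb1, hP, hj, inner_sub_right, inner_smul_right, h1, mul_zero, sub_zero,
        real_inner_comm, Real.norm_eq_abs, sq_abs]
    by_cases hy0 : y = 0
    · simp [hy0]
    have h3 : 0 < ‖y‖ ^ 2 := pow_pos (norm_pos_iff.2 hy0) 2
    have h4 := h2 (⟪ι f, y⟫ / ‖y‖ ^ 2)
    rw [norm_sub_sq_real, inner_smul_right, norm_smul, mul_pow, Real.norm_eq_abs, sq_abs] at h4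
    have h5 : (⟪ι f, y⟫ / ‖y‖ ^ 2) ^ 2 * ‖y‖ ^ 2 = ⟪ι f, y⟫ / ‖y‖ ^ 2 * ⟪ι f, y⟫ := by
      field_simp
    have h6 : ⟪ι f, y⟫ / ‖y‖ ^ 2 * ⟪ι f, y⟫ ≤ 0 := by linarith
    rw [div_mul_eq_mul_div, div_le_iff₀ h3, zero_mul] at h6
    exact mul_self_eq_zero.1 (le_antisymm h6 (mul_self_nonneg _))
  refine ⟨HilbertBasis.mkOfOrthogonalEqBot hon hsp, fun i => ?_⟩
  rw [HilbertBasis.coe_mkOfOrthogonalEqBot]
  have hinf : sInf (MMs ι q i) = lam i - 1 := by
    refine csInf_eq_of_forall_ge_of_forall_gt_exists_lt (hne i) (fun L hL => ?_) fun w hw => ?_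
    · linarith [(hv4 i).2 (up i L hL)]
    · exact ⟨_, down i (lam i) ((w - (lam i - 1)) / 2) (by linarith) (hv4 i).1, by linarith⟩
  rw [hinf]
  intro ε hε
  obtain ⟨f, hf⟩ := ha.exists_dist_lt (v i : G) (half_pos hε)
  rw [dist_comm, dist_eq_norm] at hf
  have hf2 : ‖ι f - j (v i)‖ ≤ ε / 2 := by
    rw [← hj, ← map_sub]
    exact (hc _).trans hf.le
  refine ⟨f, by linarith, fun h => ?_⟩
  have h1 : ⟪(v i : G), a h⟫ = lam i * ⟪j (v i), ι h⟫ := by
    have a1 := hv1 i (P (a h))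
    rw [hb1, hP, hj] at a1
    rw [← a1]
    exact (K.inner_orthogonalProjectionOnto_eq_of_mem_left (v i) (a h)).symm
  have h2 : q f h - (lam i - 1) * ⟪j (v i), ι h⟫ =
      ⟪a f - v i, a h⟫ - ⟪ι f - j (v i), ι h⟫ := by
    rw [inner_sub_left, inner_sub_left, hq, h1]
    ring
  rw [h2, ← hq', Real.sqrt_sq (norm_nonneg _)]
  have h3 : ‖ι h‖ ≤ ‖a h‖ := by
    rw [← hj]
    exact hc _
  have h4 := abs_real_inner_le_norm (a f - v i) (a h)
  have h5 := abs_real_inner_le_norm (ι f - j (v i)) (ι h)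
  have h6 := mul_le_mul_of_nonneg_right hf.le (norm_nonneg (a h))
  have h7 := mul_le_mul hf2 h3 (norm_nonneg _) (half_pos hε).le
  have h8 := abs_sub ⟪a f - v i, a h⟫ ⟪ι f - j (v i), ι h⟫
  linarith

end Main

end SpA

open SpA in
theorem spA_holds : SpAStmt := by
  intro V H _ _ _ _ _ ι q hι hs hp hne hfin
  obtain ⟨G, _, _, _, a, ha, hq⟩ := exists_compl ι q hs hp
  have hn : ∀ f, ‖ι f‖ ≤ 1 * ‖a f‖ := fun f => by
    rw [one_mul]
    refine (abs_le_of_sq_le_sq' ?_ (norm_nonneg _)).2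
    rw [← real_inner_self_eq_norm_sq, ← real_inner_self_eq_norm_sq, hq]
    linarith [hp f]
  exact main (j := ι.extendOfNorm a) hι ha hq (LinearMap.extendOfNorm_eq ha ⟨1, hn⟩)
    (fun x => by simpa using LinearMap.norm_extendOfNorm_apply_le ha 1 hn x) hne hfin

end Pool.Agent.Lib.MP_1a4aff_gt.I3
end

-- part Pool.Agent.Lib.MP_1a4aff_gt.I3.GlB
section

/-! Invariant theory of the forms `Tens`. -/

set_option autoImplicit false

open scoped RealInnerProductSpace

namespace Pool.Agent.Lib.MP_1a4aff_gt.I3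

namespace GlB

/-- multilinear functions of lists -/
def ML (s : List E3 → ℝ) : Prop := ∀ xs ys, IsLinearMap ℝ fun x => s (xs ++ x :: ys)

/-- symmetric on lists of length `n` -/
def Sy (n : ℕ) (s : List E3 → ℝ) : Prop := ∀ l l' : List E3, l.length = n → l.Perm l' → s l = s l'

/-- symmetric on lists of basis vectors of length `n` -/
def SyB (n : ℕ) (s : List E3 → ℝ) : Prop :=
  ∀ K K' : List (Fin 3), K.length = n → K.Perm K' → s (K.map ee) = s (K'.map ee)

/-- the derivation defined by `A` -/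
noncomputable def dv (A : E3 → E3) : List E3 → (List E3 → ℝ) → ℝ
  | [], _ => 0
  | x :: l, s => s (A x :: l) + dv A l fun l' => s (x :: l')

/-- infinitesimal invariance -/
def Inf (s : List E3 → ℝ) : Prop := ∀ j l, dv (cr (ee j)) l s = 0

/-- contraction of the first two slots -/
noncomputable def ctr (s : List E3 → ℝ) (l : List E3) : ℝ := ∑ e, s (ee e :: ee e :: l)

variable {s : List E3 → ℝ} {n : ℕ}

lemma lin_exp {f : E3 → ℝ} (h : IsLinearMap ℝ f) (x : E3) : f x = ∑ k, x k * f (ee k) := by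
  have e : x = x 0 • ee 0 + x 1 • ee 1 + x 2 • ee 2 := by
    ext i
    fin_cases i <;> simp [ee]
  conv_lhs => rw [e]
  rw [h.map_add, h.map_add, h.map_smul, h.map_smul, h.map_smul, Fin.sum_univ_three]
  rfl

lemma ML.cons (h : ML s) (x : E3) : ML fun l => s (x :: l) := fun xs ys => h (x :: xs) ys

lemma ML.hd (h : ML s) (l : List E3) : IsLinearMap ℝ fun x => s (x :: l) := h [] l

lemma ML.exp (h : ML s) (x : E3) (l : List E3) : s (x :: l) = ∑ k, x k * s (ee k :: l) :=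
  lin_exp (h.hd l) x

lemma ML.sum {ι : Type} [Fintype ι] {t : ι → List E3 → ℝ} (h : ∀ i, ML (t i)) :
    ML fun l => ∑ i, t i l := fun xs ys =>
  ⟨fun x y => by simp only [(h _ xs ys).map_add, Finset.sum_add_distrib],
    fun c x => by simp only [(h _ xs ys).map_smul, Finset.smul_sum]⟩

lemma ML.sub {t : List E3 → ℝ} (h : ML s) (h' : ML t) : ML fun l => s l - t l := fun xs ys =>
  ⟨fun x y => by simp only [(h xs ys).map_add, (h' xs ys).map_add]; ring,
    fun c x => by simp only [(h xs ys).map_smul, (h' xs ys).map_smul, smul_sub]⟩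

lemma Sy.cons (h : Sy (n + 1) s) (x : E3) : Sy n fun l => s (x :: l) := fun l l' h1 h2 =>
  h _ _ (by simp [h1]) (h2.cons x)

lemma ML.ext0 (h : ML s) (l : List E3)
    (h0 : ∀ K : List (Fin 3), K.length = l.length → s (K.map ee) = 0) : s l = 0 := by
  induction l generalizing s with
  | nil => exact h0 [] rfl
  | cons x l ih =>
    refine ih (h.cons x) fun K hK => ?_
    rw [h.exp]
    exact Finset.sum_eq_zero fun k _ => by
      rw [← List.map_cons, h0 (k :: K) (by simp [hK]), mul_zero]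

lemma SyB.cons (h : SyB (n + 1) s) (hm : ML s) (x : E3) : SyB n fun l => s (x :: l) :=
  fun K K' h1 h2 => by
    simp only
    rw [hm.exp, hm.exp x]
    exact Finset.sum_congr rfl fun k _ => congrArg _ (h (k :: K) (k :: K') (by simp [h1]) (h2.cons k))

lemma SyB.sy (h : SyB n s) (hm : ML s) : Sy n s := by
  intro l l' h1 h2
  induction h2 generalizing s n with
  | nil => rfl
  | cons x _ ih =>
    subst h1
    exact ih (h.cons hm x) (hm.cons x) rfl
  | swap x y l =>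
    subst h1
    refine sub_eq_zero.1 ((((hm.cons y).cons x).sub ((hm.cons x).cons y)).ext0 l fun K hK => ?_)
    have e : ∀ i j, s (ee i :: ee j :: K.map ee) = s (ee j :: ee i :: K.map ee) := fun i j =>
      h (i :: j :: K) (j :: i :: K) (by simp [hK]) (List.Perm.swap _ _ _)
    rw [hm.exp y, hm.exp x]
    simp only [(hm.cons _).exp x, (hm.cons _).exp y, Fin.sum_univ_three, e 1 0, e 2 0, e 2 1]
    ring
  | trans h3 _ ih1 ih2 => exact (ih1 h hm h1).trans (ih2 h hm (h3.length_eq ▸ h1))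

lemma dv_sum {ι : Type} [Fintype ι] (A : E3 → E3) (l : List E3) (c : ι → ℝ)
    (t : ι → List E3 → ℝ) : dv A l (fun l' => ∑ k, c k * t k l') = ∑ k, c k * dv A l (t k) := by
  induction l generalizing t with
  | nil => simp [dv]
  | cons x l ih => simp only [dv, ih, mul_add, Finset.sum_add_distrib]

lemma ML.deriv (h : ML s) {R : ℝ → E3 → E3} {A : E3 → E3} (h0 : ∀ x, R 0 x = x)
    (h1 : ∀ x k, HasDerivAt (fun t => R t x k) (A x k) 0) (l : List E3) :
    HasDerivAt (fun t => s (l.map (R t))) (dv A l s) 0 := by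
  induction l generalizing s with
  | nil => exact hasDerivAt_const (0 : ℝ) (s [])
  | cons x l ih =>
    have e : (fun t => s ((x :: l).map (R t))) =
        fun t => ∑ k, R t x k * s (ee k :: l.map (R t)) := funext fun t => h.exp _ _
    have e0 : l.map (R 0) = l := by rw [show R 0 = id from funext h0, List.map_id]
    have e1 : (fun l' => s (x :: l')) = fun l' => ∑ k, x k * s (ee k :: l') :=
      funext fun l' => h.exp _ _
    rw [e, dv, e1, dv_sum, h.exp, ← Finset.sum_add_distrib]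
    refine HasDerivAt.fun_sum fun k _ => ?_
    have := (h1 x k).mul (ih (h.cons (ee k)))
    rwa [e0, h0] at this

lemma ML.dv_zero (h : ML s) {R : ℝ → E3 → E3} {A : E3 → E3} (h0 : ∀ x, R 0 x = x)
    (h1 : ∀ x k, HasDerivAt (fun t => R t x k) (A x k) 0) (l : List E3) {c : ℝ}
    (hc : ∀ t, s (l.map (R t)) = c) : dv A l s = 0 := by
  have := h.deriv h0 h1 l
  rw [funext hc] at this
  exact this.unique (hasDerivAt_const _ _)

lemma Sy.dv_rep (h : Sy n s) (A : E3 → E3) (x : E3) :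
    dv A (List.replicate n x) s = n * s (A x :: List.replicate (n - 1) x) := by
  induction n generalizing s with
  | zero => simp [dv]
  | succ n ih =>
    rw [List.replicate_succ, dv, ih (h.cons x), Nat.add_sub_cancel]
    rcases n with _ | n
    · simp
    · rw [h (x :: A x :: _) _ (by simp) (List.Perm.swap _ _ _), Nat.add_sub_cancel,
        List.replicate_succ]
      push_cast
      ring

/-- polarisation -/
lemma polar (hm : ML s) (h : Sy n s) (h0 : ∀ x, s (List.replicate n x) = 0) (l : List E3)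
    (hl : l.length = n) : s l = 0 := by
  induction l generalizing s n with
  | nil => subst hl; exact h0 0
  | cons y l ih =>
    subst hl
    refine ih (hm.cons y) (h.cons y) (fun x => ?_) rfl
    have := hm.dv_zero (R := fun t z => z + t • y) (A := fun _ => y) (by simp) (fun z k => by
      simpa using ((hasDerivAt_id (0 : ℝ)).mul_const (y k)).const_add (z k))
      (List.replicate (l.length + 1) x) (c := 0) fun t => by rw [List.map_replicate]; exact h0 _
    rw [Sy.dv_rep (n := l.length + 1) h, Nat.add_sub_cancel] at this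
    exact (mul_eq_zero.1 this).resolve_left (by positivity)

lemma ML.rep_smul (hm : ML s) (c : ℝ) (x : E3) (n : ℕ) :
    s (List.replicate n (c • x)) = c ^ n * s (List.replicate n x) := by
  induction n generalizing s with
  | zero => simp
  | succ n ih =>
    rw [List.replicate_succ, List.replicate_succ, ih (hm.cons _), (hm.hd _).map_smul]
    simp only [smul_eq_mul]
    ring

lemma cr_tab : cr (ee 0) (ee 0) = 0 ∧ cr (ee 0) (ee 1) = ee 2 ∧ cr (ee 0) (ee 2) = -ee 1 ∧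
    cr (ee 1) (ee 0) = -ee 2 ∧ cr (ee 1) (ee 1) = 0 ∧ cr (ee 1) (ee 2) = ee 0 ∧
    cr (ee 2) (ee 0) = ee 1 ∧ cr (ee 2) (ee 1) = -ee 0 ∧ cr (ee 2) (ee 2) = 0 := by
  refine ⟨?_, ?_, ?_, ?_, ?_, ?_, ?_, ?_, ?_⟩ <;> ext i <;> fin_cases i <;> simp [ee]

/-- rotation about a coordinate axis -/
noncomputable def rt (j : Fin 3) (t : ℝ) : E3 →L[ℝ] E3 :=
  ContinuousLinearMap.id ℝ E3 + Real.sin t • cr (ee j) +
    (1 - Real.cos t) • (cr (ee j) ∘L cr (ee j))

lemma inner_eq (x y : E3) : ⟪x, y⟫ = x 0 * y 0 + x 1 * y 1 + x 2 * y 2 := by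
  simp [PiLp.inner_apply, Fin.sum_univ_three, mul_comm]

lemma rt_orth (j : Fin 3) (t : ℝ) : Orth (rt j t) := fun x y => by
  have h := Real.sin_sq_add_cos_sq t
  rw [inner_eq, inner_eq]
  fin_cases j <;> simp [rt, ee]
  · linear_combination (x 1 * y 1 + x 2 * y 2) * h
  · linear_combination (x 0 * y 0 + x 2 * y 2) * h
  · linear_combination (x 0 * y 0 + x 1 * y 1) * h

lemma ML.inf (hm : ML s) (h : ∀ Q, Orth Q → ∀ l, s (l.map Q) = s l) : Inf s := fun j l =>
  hm.dv_zero (R := fun t x => rt j t x) (by simp [rt]) (fun x k => by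
    have h1 := ((Real.hasDerivAt_sin 0).mul_const (cr (ee j) x k)).const_add (x k)
    have h2 := ((Real.hasDerivAt_cos 0).const_sub 1).mul_const (cr (ee j) (cr (ee j) x) k)
    simpa [rt] using h1.fun_add h2) l fun t => h _ (rt_orth j t) l

lemma ML.ctr (hm : ML s) : ML (ctr s) := ML.sum fun _ => (hm.cons _).cons _

lemma Sy.ctr (h : Sy (n + 2) s) : Sy n (ctr s) := fun l l' h1 h2 =>
  Finset.sum_congr rfl fun _ _ => (h.cons _).cons _ l l' h1 h2

lemma Inf.ctr (h : Inf s) (hm : ML s) : Inf (ctr s) := fun j l => by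
  have e := dv_sum (cr (ee j)) l (fun _ : Fin 3 => 1) fun e l' => s (ee e :: ee e :: l')
  simp only [one_mul] at e
  rw [show GlB.ctr s = fun l' => ∑ e, s (ee e :: ee e :: l') from rfl, e, Fin.sum_univ_three]
  have a := h j (ee 0 :: ee 0 :: l)
  have b := h j (ee 1 :: ee 1 :: l)
  have c := h j (ee 2 :: ee 2 :: l)
  have n1 : ∀ x y, s (-x :: y :: l) = -s (x :: y :: l) := fun x y => (hm.hd _).map_neg x
  have n2 : ∀ x y, s (y :: -x :: l) = -s (y :: x :: l) := fun x y => ((hm.cons y).hd _).map_neg x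
  have z1 : ∀ y, s (0 :: y :: l) = 0 := fun y => (hm.hd _).map_zero
  have z2 : ∀ y, s (y :: 0 :: l) = 0 := fun y => ((hm.cons y).hd _).map_zero
  fin_cases j <;>
    simp only [dv, cr_tab, n1, n2, z1, z2, Fin.zero_eta, Fin.mk_one, Fin.reduceFinMk] at a b c ⊢ <;>
    linarith

lemma ctr_rep (hm : ML s) (h : Sy (n + 2) s) (hi : Inf s) :
    (n + 1) * ctr s (List.replicate n (ee 2)) = (n + 3) * s (List.replicate (n + 2) (ee 2)) := by
  have a := hi 1 (ee 0 :: List.replicate (n + 1) (ee 2))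
  have b := hi 0 (ee 1 :: List.replicate (n + 1) (ee 2))
  rw [dv, Sy.dv_rep (h.cons _), Nat.add_sub_cancel] at a b
  have n1 : ∀ x l, s (-x :: l) = -s (x :: l) := fun x l => (hm.hd _).map_neg x
  have n2 : ∀ x y l, s (y :: -x :: l) = -s (y :: x :: l) := fun x y l =>
    ((hm.cons y).hd _).map_neg x
  simp only [cr_tab, n1, n2, List.replicate_succ] at a b ⊢
  rw [ctr, Fin.sum_univ_three]
  push_cast at a b
  linear_combination a - b

lemma full_ctr (m : ℕ) (hm : ML s) (h : Sy (2 * m) s) (hi : Inf s)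
    (h0 : ∑ I : Fin m → Fin 3, s (((List.ofFn I).reverse ++ List.ofFn I).map ee) = 0) :
    s (List.replicate (2 * m) (ee 2)) = 0 := by
  induction m generalizing s with
  | zero => simpa using h0
  | succ m ih =>
    have h1 := ih hm.ctr (Sy.ctr h) (hi.ctr hm) (by
      rw [← h0, ← (Fin.consEquiv fun _ => Fin 3).sum_comp, Fintype.sum_prod_type_right]
      refine Finset.sum_congr rfl fun I _ => Finset.sum_congr rfl fun e _ => ?_
      refine h _ _ (by simp; omega) ?_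
      simp only [Fin.consEquiv_apply, List.ofFn_succ, Fin.cons_zero, Fin.cons_succ,
        List.reverse_cons, List.append_assoc, List.map_append, List.map_cons, List.cons_append,
        List.nil_append]
      exact ((List.perm_middle.trans (List.perm_middle.cons _))).symm)
    have h2 := ctr_rep (n := 2 * m) hm h hi
    rw [h1, mul_zero] at h2
    exact (mul_eq_zero.1 h2.symm).resolve_left (by positivity)

/-- forms with a list and four slots -/
abbrev Fm := List E3 → E3 → E3 → E3 → E3 → ℝ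

variable {q : Fm}

structure Pre (q : Fm) : Prop where
  lin : ∀ xs ys a b c d, IsLinearMap ℝ fun x => q (xs ++ x :: ys) a b c d
  l1 : ∀ xs b c d, IsLinearMap ℝ fun a => q xs a b c d
  l2 : ∀ xs a c d, IsLinearMap ℝ fun b => q xs a b c d
  l3 : ∀ xs a b d, IsLinearMap ℝ fun c => q xs a b c d
  l4 : ∀ xs a b c, IsLinearMap ℝ fun d => q xs a b c d
  inv : ∀ Q, Orth Q → ∀ xs a b c d, q (xs.map Q) (Q a) (Q b) (Q c) (Q d) = q xs a b c d

lemma pre (h : Tens q) : Pre q :=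
  ⟨h.lin, h.lina, fun xs a c d => by simpa only [h.sab xs a] using h.lina xs a c d, h.linc,
    fun xs a b c => by simpa only [h.scd xs a b c] using h.linc xs a b c, h.inv⟩

lemma Pre.flip (h : Pre q) : Pre fun l a c b d => q l a b c d :=
  ⟨fun xs ys a b c d => h.lin xs ys a c b d, fun xs b c d => h.l1 xs c b d,
    fun xs a c d => h.l3 xs a c d, fun xs a b d => h.l2 xs a b d, fun xs a b c => h.l4 xs a c b,
    fun Q hQ xs a b c d => h.inv Q hQ xs a c b d⟩

/-- all the arguments in one list -/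
noncomputable def full (q : Fm) (l : List E3) : ℝ :=
  q (l.drop 4) (l.getD 0 0) (l.getD 1 0) (l.getD 2 0) (l.getD 3 0)

lemma full_cons (a b c d : E3) (l : List E3) : full q (a :: b :: c :: d :: l) = q l a b c d := rfl

lemma Pre.ml (h : Pre q) : ML (full q) := fun xs ys => by
  rcases xs with _ | ⟨a, _ | ⟨b, _ | ⟨c, _ | ⟨d, xs⟩⟩⟩⟩
  · exact h.l1 (ys.drop 3) (ys.getD 0 0) (ys.getD 1 0) (ys.getD 2 0)
  · exact h.l2 (ys.drop 2) a (ys.getD 0 0) (ys.getD 1 0)
  · exact h.l3 (ys.drop 1) a b (ys.getD 0 0)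
  · exact h.l4 ys a b c
  · exact h.lin xs ys a b c d

lemma Pre.inf (h : Pre q) : Inf (full q) := h.ml.inf fun Q hQ l => by
  have e : ∀ i, (l.map Q).getD i 0 = Q (l.getD i 0) := fun i => by
    rw [← List.getD_map l 0 Q, map_zero]
  simp only [full, e, ← List.map_drop]
  exact h.inv Q hQ _ _ _ _ _

/-- symmetry in the list -/
def SyQ (n : ℕ) (q : Fm) : Prop := ∀ a b c d, Sy n fun l => q l (ee a) (ee b) (ee c) (ee d)

lemma Pre.trace (h : Pre q) (m : ℕ) (hs : SyQ (2 * m) q)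
    (h0 : ∑ I : Fin m → Fin 3, ∑ a, ∑ b, qb q ((List.ofFn I).reverse ++ List.ofFn I) a a b b = 0) :
    ∑ a, ∑ b, q (List.replicate (2 * m) (ee 2)) (ee a) (ee a) (ee b) (ee b) = 0 := by
  have e : ∀ l, ctr (ctr (full q)) l = ∑ a, ∑ b, q l (ee a) (ee a) (ee b) (ee b) := fun l =>
    Finset.sum_comm
  rw [← e]
  refine full_ctr m h.ml.ctr.ctr (fun l l' h1 h2 => ?_) ((h.inf.ctr h.ml).ctr h.ml.ctr) ?_
  · rw [e, e]
    exact Finset.sum_congr rfl fun a _ => Finset.sum_congr rfl fun b _ => hs a a b b l l' h1 h2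
  · simp only [e]
    exact h0

lemma Pre.rot (h : Pre q) (hs : SyQ n q) (j a b c d : Fin 3) :
    q (List.replicate n (ee 2)) (cr (ee j) (ee a)) (ee b) (ee c) (ee d) +
    q (List.replicate n (ee 2)) (ee a) (cr (ee j) (ee b)) (ee c) (ee d) +
    q (List.replicate n (ee 2)) (ee a) (ee b) (cr (ee j) (ee c)) (ee d) +
    q (List.replicate n (ee 2)) (ee a) (ee b) (ee c) (cr (ee j) (ee d)) +
    n * q (cr (ee j) (ee 2) :: List.replicate (n - 1) (ee 2)) (ee a) (ee b) (ee c) (ee d) = 0 := by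
  have := h.inf j (ee a :: ee b :: ee c :: ee d :: List.replicate n (ee 2))
  simp only [dv, full_cons] at this
  rw [(hs a b c d).dv_rep] at this
  linarith

lemma bia_rep (h : Tens q) (hs : SyQ n q) (a b c : Fin 3) :
    n * q (ee 0 :: List.replicate (n - 1) (ee 2)) (ee a) (ee b) (ee c) (ee 0) +
    n * q (ee 1 :: List.replicate (n - 1) (ee 2)) (ee a) (ee b) (ee c) (ee 1) +
    n * q (List.replicate n (ee 2)) (ee a) (ee b) (ee c) (ee 2) = 0 := by
  rcases n with _ | n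
  · simp
  · have := h.bia (List.replicate n (ee 2)) (ee a) (ee b) (ee c)
    have e : ∀ e, q (List.replicate n (ee 2) ++ [ee e]) (ee a) (ee b) (ee c) (ee e) =
        q (ee e :: List.replicate n (ee 2)) (ee a) (ee b) (ee c) (ee e) := fun e =>
      hs a b c e _ _ (by simp) (List.perm_append_singleton _ _)
    simp only [e, Fin.sum_univ_three] at this
    rw [Nat.add_sub_cancel, List.replicate_succ]
    linear_combination ((n + 1 : ℕ) : ℝ) * this

lemma alg {N x x' y z d d' e e' f g1 g2 g3 g4 g5 g6 : ℝ} (hN : 0 ≤ N)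
    (tX : x + z + e + (z + x' + e') + (e + e' + f) = 0)
    (tY : x + y + d + (y + x' + d') + (d + d' + f) = 0) (r1 : z + z + y + -x = 0)
    (r2 : 0 + d' + -d = 0) (r3 : e' + -e = 0) (r4 : -z + -z + -y + x' = 0)
    (b1 : g1 + g2 + N * f = 0) (b2 : g3 + g4 + N * d = 0) (b3 : g5 + g6 + N * e = 0)
    (r5 : e + e + d + -f + g1 = 0) (r6 : -e' + -e' + -d' + f + -g2 = 0)
    (r7 : -e + -e + x + -d + g3 = 0) (r8 : 0 + -y + d + -g4 = 0)
    (r9 : -d + x + -e + -e + g5 = 0) (r10 : 0 + -z + e + -g6 = 0) :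
    x = 0 ∧ x' = 0 ∧ y = 0 ∧ z = 0 ∧ d = 0 ∧ d' = 0 ∧ e = 0 ∧ e' = 0 ∧ f = 0 := by
  have h1 : (2 * N + 6) * (e - d) = 0 := by linarith
  have h2 : e = d := sub_eq_zero.1 ((mul_eq_zero.1 h1).resolve_left (by positivity))
  subst h2
  have h3 : f = -(2 * N + 12) * e := by linarith
  have h4 : ((N + 2) * (2 * N + 12) + 6) * e = 0 := by
    have : (N + 2) * f = 6 * e := by linarith
    linear_combination (N + 2) * h3 - this
  have h5 : e = 0 := (mul_eq_zero.1 h4).resolve_left (by positivity)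
  subst h5
  rw [mul_zero] at h3 b2
  refine ⟨?_, ?_, ?_, ?_, rfl, ?_, rfl, ?_, h3⟩ <;> linarith

/-- the even components vanish -/
lemma even_zero (h : Tens q) (m : ℕ) (hs : SyQ (2 * m) q)
    (hw : ∀ a b c d, q (List.replicate (2 * m) (ee 2)) (ee a) (ee b) (ee c) (ee d) =
      q (List.replicate (2 * m) (ee 2)) (ee c) (ee d) (ee a) (ee b))
    (hX : qX q m = 0) (hY : qY q m = 0) (a b : Fin 3) :
    q (List.replicate (2 * m) (ee 2)) (ee a) (ee a) (ee b) (ee b) = 0 ∧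
      q (List.replicate (2 * m) (ee 2)) (ee a) (ee b) (ee a) (ee b) = 0 := by
  have hp := pre h
  have tY := hp.trace m hs hY
  have tX := hp.flip.trace m (fun a b c d => hs a c b d) hX
  have r := hp.rot hs
  have bi := bia_rep h hs
  have n0 : ∀ x l a b c d, q (-x :: l) a b c d = -q (x :: l) a b c d := fun x l a b c d =>
    (h.lin [] l a b c d).map_neg x
  have z0 : ∀ l a b c d, q (0 :: l) a b c d = 0 := fun l a b c d => (h.lin [] l a b c d).map_zero
  have n1 : ∀ l a b c d, q l (-a) b c d = -q l a b c d := fun l a b c d => (hp.l1 l b c d).map_neg a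
  have n2 : ∀ l a b c d, q l a (-b) c d = -q l a b c d := fun l a b c d => (hp.l2 l a c d).map_neg b
  have n3 : ∀ l a b c d, q l a b (-c) d = -q l a b c d := fun l a b c d => (hp.l3 l a b d).map_neg c
  have n4 : ∀ l a b c d, q l a b c (-d) = -q l a b c d := fun l a b c d => (hp.l4 l a b c).map_neg d
  have z1 : ∀ l b c d, q l 0 b c d = 0 := fun l b c d => (hp.l1 l b c d).map_zero
  have z2 : ∀ l a c d, q l a 0 c d = 0 := fun l a c d => (hp.l2 l a c d).map_zero
  have z3 : ∀ l a b d, q l a b 0 d = 0 := fun l a b d => (hp.l3 l a b d).map_zero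
  have r1 := r 2 0 0 0 1
  have r2 := r 2 2 2 0 1
  have r3 := r 2 0 2 1 2
  have r4 := r 2 1 1 1 0
  have r5 := r 1 2 2 2 0
  have r6 := r 0 2 2 2 1
  have r7 := r 1 0 0 2 0
  have r8 := r 0 0 0 2 1
  have r9 := r 1 0 2 0 0
  have r10 := r 0 0 2 0 1
  have b1 := bi 2 2 2
  have b2 := bi 0 0 2
  have b3 := bi 0 2 0
  have z4 : ∀ l a b c, q l a b c 0 = 0 := fun l a b c => (hp.l4 l a b c).map_zero
  have s1 := fun c d => h.sab (List.replicate (2 * m) (ee 2)) (ee 1) (ee 0) c d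
  have s2 := fun c d => h.sab (List.replicate (2 * m) (ee 2)) (ee 2) (ee 0) c d
  have s3 := fun c d => h.sab (List.replicate (2 * m) (ee 2)) (ee 2) (ee 1) c d
  have s4 := fun c d => h.scd (List.replicate (2 * m) (ee 2)) c d (ee 1) (ee 0)
  have s5 := fun c d => h.scd (List.replicate (2 * m) (ee 2)) c d (ee 2) (ee 0)
  have s6 := fun c d => h.scd (List.replicate (2 * m) (ee 2)) c d (ee 2) (ee 1)
  have w1 := hw 1 1 0 0
  have w2 := hw 2 2 0 0
  have w3 := hw 2 2 1 1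
  simp only [cr_tab, n0, n1, n2, n3, n4, z0, z1, z2, z3, z4, s1, s2, s3, s4, s5, s6, w1, w2, w3,
    Fin.sum_univ_three, mul_zero, add_zero, mul_neg] at tX tY r1 r2 r3 r4 r5 r6 r7 r8 r9 r10
  obtain ⟨a1, a2, a3, a4, a5, a6, a7, a8, a9⟩ :=
    alg (Nat.cast_nonneg _) tX tY r1 r2 r3 r4 b1 b2 b3 r5 r6 r7 r8 r9 r10
  fin_cases a <;> fin_cases b <;>
    simp only [Fin.zero_eta, Fin.mk_one, Fin.reduceFinMk, s1, s2, s3, s4, s5, s6, w1, w2, w3, a1,
      a2, a3, a4, a5, a6, a7, a8, a9, and_self]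

/-- signs of a coordinate reflection -/
def sg (i j : Fin 3) : ℤ := if j = i then -1 else 1

/-- a coordinate reflection -/
noncomputable def rf (i : Fin 3) : E3 →L[ℝ] E3 :=
  ContinuousLinearMap.id ℝ E3 - (2 : ℝ) • (EuclideanSpace.proj i : E3 →L[ℝ] ℝ).smulRight (ee i)

lemma rf_orth (i : Fin 3) : Orth (rf i) := fun x y => by
  rw [inner_eq, inner_eq]
  fin_cases i <;> simp [rf, ee] <;> ring

lemma rf_ee (i j : Fin 3) : rf i (ee j) = (sg i j : ℝ) • ee j := by
  ext k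
  fin_cases i <;> fin_cases j <;> fin_cases k <;> simp [rf, ee, sg] <;> norm_num

lemma classify : ∀ a b c d : Fin 3, (∃ i : Fin 3, sg i 2 = 1 ∧
    sg i d * (sg i c * (sg i b * sg i a)) = -1) ∨ (a = b ∧ c = d) ∨ (a = c ∧ b = d) ∨
      (a = d ∧ b = c) := by
  decide

lemma Pre.odd_zero (h : Pre q) (n : ℕ) {a b c d i : Fin 3} (h1 : sg i 2 = 1)
    (h2 : sg i d * (sg i c * (sg i b * sg i a)) = -1) :
    q (List.replicate n (ee 2)) (ee a) (ee b) (ee c) (ee d) = 0 := by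
  have := h.inv _ (rf_orth i) (List.replicate n (ee 2)) (ee a) (ee b) (ee c) (ee d)
  rw [List.map_replicate, rf_ee, h1, Int.cast_one, one_smul, rf_ee, rf_ee, rf_ee, rf_ee,
    (h.l1 _ _ _ _).map_smul, (h.l2 _ _ _ _).map_smul, (h.l3 _ _ _ _).map_smul,
    (h.l4 _ _ _ _).map_smul] at this
  have h3 : (sg i d : ℝ) * (sg i c * (sg i b * sg i a)) = -1 := by exact_mod_cast h2
  simp only [smul_eq_mul] at this
  linear_combination (-1 / 2 : ℝ) * this +
    (1 / 2 : ℝ) * q (List.replicate n (ee 2)) (ee a) (ee b) (ee c) (ee d) * h3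

/-- the exact statement -/
lemma exact_zero (h : Tens q) (m : ℕ)
    (hs : ∀ K₁ K₂ : List (Fin 3), K₁.length = 2 * m → K₁.Perm K₂ → ∀ a b c d,
      qb q K₁ a b c d = qb q K₂ a b c d)
    (hw : ∀ K₁ : List (Fin 3), K₁.length = 2 * m → ∀ a b c d, qb q K₁ a b c d = qb q K₁ c d a b)
    (hX : qX q m = 0) (hY : qY q m = 0) (K : List (Fin 3)) (hK : K.length = 2 * m)
    (a b c d : Fin 3) : qb q K a b c d = 0 := by
  have hp := pre h
  have ml : ∀ a b c d, ML fun l => q l a b c d := fun a b c d xs ys => h.lin xs ys a b c d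
  have sy : SyQ (2 * m) q := fun a b c d =>
    SyB.sy (fun K K' h1 h2 => hs K K' h1 h2 a b c d) (ml _ _ _ _)
  have ev := even_zero h m sy (fun a b c d => by
    simpa only [qb, List.map_replicate] using hw (List.replicate (2 * m) 2) (by simp) a b c d) hX hY
  have h1 : ∀ a b c d, q (List.replicate (2 * m) (ee 2)) (ee a) (ee b) (ee c) (ee d) = 0 := by
    intro a b c d
    rcases classify a b c d with ⟨i, h1, h2⟩ | ⟨rfl, rfl⟩ | ⟨rfl, rfl⟩ | ⟨rfl, rfl⟩
    · exact hp.odd_zero _ h1 h2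
    · exact (ev a c).1
    · exact (ev a b).2
    · rw [h.scd]
      exact (ev a b).2
  have h2 : ∀ a b c d, q (List.replicate (2 * m) (ee 2)) a b c d = 0 := by
    intro a b c d
    rw [lin_exp (hp.l1 _ b c d)]
    refine Finset.sum_eq_zero fun i _ => mul_eq_zero_of_right _ ?_
    rw [lin_exp (hp.l2 _ _ c d)]
    refine Finset.sum_eq_zero fun j _ => mul_eq_zero_of_right _ ?_
    rw [lin_exp (hp.l3 _ _ _ d)]
    refine Finset.sum_eq_zero fun k _ => mul_eq_zero_of_right _ ?_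
    rw [lin_exp (hp.l4 _ _ _ _)]
    exact Finset.sum_eq_zero fun l _ => mul_eq_zero_of_right _ (h1 _ _ _ _)
  refine polar (ml _ _ _ _) (sy a b c d) (fun x => ?_) _ (by simpa using hK)
  have hn : ‖x‖ = ‖‖x‖ • ee 2‖ := by simp [norm_smul, ee]
  let R := (ℝ ∙ (x - ‖x‖ • ee 2))ᗮ.reflection
  have hR : R x = ‖x‖ • ee 2 := Submodule.reflection_sub hn
  have := h.inv R.toLinearIsometry.toContinuousLinearMap (fun u v => R.inner_map_map u v)
    (List.replicate (2 * m) x) (ee a) (ee b) (ee c) (ee d)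
  rw [← this, List.map_replicate]
  change q (List.replicate (2 * m) (R x)) _ _ _ _ = 0
  rw [hR, (ml _ _ _ _).rep_smul, h2, mul_zero]

lemma approx {V ι : Type} [AddCommGroup V] [Module ℝ V] [Finite ι] (L : ι → V →ₗ[ℝ] ℝ)
    (X Y φ : V →ₗ[ℝ] ℝ) (h : ∀ v, (∀ i, L i v = 0) → X v = 0 → Y v = 0 → φ v = 0) :
    ∃ α β C : ℝ, ∀ v D, (∀ i, |L i v| ≤ D) → |φ v - (α * X v + β * Y v)| ≤ C * D := by
  have _ := Fintype.ofFinite ι
  have h1 : φ ∈ Submodule.span ℝ (Set.range (Sum.elim L ![X, Y])) :=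
    mem_span_of_iInf_ker_le_ker fun v hv => by
      simp only [Submodule.mem_iInf, LinearMap.mem_ker] at hv ⊢
      exact h v (fun i => hv (Sum.inl i)) (hv (Sum.inr 0)) (hv (Sum.inr 1))
  obtain ⟨c, hc⟩ := (Submodule.mem_span_range_iff_exists_fun ℝ).1 h1
  refine ⟨c (Sum.inr 0), c (Sum.inr 1), ∑ i, |c (Sum.inl i)|, fun v D hD => ?_⟩
  have e : φ v - (c (Sum.inr 0) * X v + c (Sum.inr 1) * Y v) = ∑ i, c (Sum.inl i) * L i v := by
    rw [← hc]
    simp [Fintype.sum_sum_type, Fin.sum_univ_two]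
  rw [e, Finset.sum_mul]
  refine (Finset.abs_sum_le_sum_abs _ _).trans (Finset.sum_le_sum fun i _ => ?_)
  rw [abs_mul]
  exact mul_le_mul_of_nonneg_left (hD i) (abs_nonneg _)

lemma lin_add {f g : E3 → ℝ} (hf : IsLinearMap ℝ f) (hg : IsLinearMap ℝ g) :
    IsLinearMap ℝ fun x => f x + g x :=
  ⟨fun x y => by rw [hf.map_add, hg.map_add]; ring,
    fun c x => by rw [hf.map_smul, hg.map_smul, smul_add]⟩

lemma lin_mul {f : E3 → ℝ} (hf : IsLinearMap ℝ f) (r : ℝ) : IsLinearMap ℝ fun x => r * f x :=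
  ⟨fun x y => by rw [hf.map_add]; ring,
    fun c x => by rw [hf.map_smul, smul_eq_mul, smul_eq_mul]; ring⟩

lemma tens_add {p : Fm} (h : Tens p) (h' : Tens q) : Tens (p + q) where
  lin xs ys a b c d := lin_add (h.lin xs ys a b c d) (h'.lin xs ys a b c d)
  lina xs b c d := lin_add (h.lina xs b c d) (h'.lina xs b c d)
  linc xs a b d := lin_add (h.linc xs a b d) (h'.linc xs a b d)
  sab xs a b c d := congrArg₂ (· + ·) (h.sab xs a b c d) (h'.sab xs a b c d)
  scd xs a b c d := congrArg₂ (· + ·) (h.scd xs a b c d) (h'.scd xs a b c d)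
  inv Q hQ xs a b c d := congrArg₂ (· + ·) (h.inv Q hQ xs a b c d) (h'.inv Q hQ xs a b c d)
  bia xs a b c := by
    simp only [Pi.add_apply, Finset.sum_add_distrib, h.bia, h'.bia, add_zero]

lemma tens_smul (r : ℝ) (h : Tens q) : Tens (r • q) where
  lin xs ys a b c d := lin_mul (h.lin xs ys a b c d) r
  lina xs b c d := lin_mul (h.lina xs b c d) r
  linc xs a b d := lin_mul (h.linc xs a b d) r
  sab xs a b c d := congrArg (r * ·) (h.sab xs a b c d)
  scd xs a b c d := congrArg (r * ·) (h.scd xs a b c d)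
  inv Q hQ xs a b c d := congrArg (r * ·) (h.inv Q hQ xs a b c d)
  bia xs a b c := by
    simp only [Pi.smul_apply, smul_eq_mul, ← Finset.mul_sum, h.bia, mul_zero]

lemma tens_zero : Tens 0 :=
  ⟨fun _ _ _ _ _ _ => ⟨by simp, by simp⟩, fun _ _ _ _ => ⟨by simp, by simp⟩,
    fun _ _ _ _ => ⟨by simp, by simp⟩, fun _ _ _ _ _ => rfl, fun _ _ _ _ _ => rfl,
    fun _ _ _ _ _ _ _ => rfl, by simp⟩

/-- the space of the forms -/
def TS : Submodule ℝ Fm where
  carrier := {q | Tens q}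
  add_mem' := tens_add
  zero_mem' := tens_zero
  smul_mem' r _ := tens_smul r

/-- a component as a functional -/
noncomputable def ev (K : List (Fin 3)) (a b c d : Fin 3) : TS →ₗ[ℝ] ℝ where
  toFun q := qb q.1 K a b c d
  map_add' _ _ := rfl
  map_smul' _ _ := rfl

end GlB

open GlB in
theorem glB_holds : GlBStmt := by
  intro m K hK a b c d
  let W := List.Vector (Fin 3) (2 * m)
  let L : ({p : W × W // p.1.1.Perm p.2.1} ⊕ W) × Fin 3 × Fin 3 × Fin 3 × Fin 3 → TS →ₗ[ℝ] ℝ :=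
    fun i => match i with
      | (Sum.inl p, a, b, c, d) => ev p.1.1.1 a b c d - ev p.1.2.1 a b c d
      | (Sum.inr w, a, b, c, d) => ev w.1 a b c d - ev w.1 c d a b
  let X : TS →ₗ[ℝ] ℝ :=
    ∑ I : Fin m → Fin 3, ∑ a, ∑ b, ev ((List.ofFn I).reverse ++ List.ofFn I) a b a b
  let Y : TS →ₗ[ℝ] ℝ :=
    ∑ I : Fin m → Fin 3, ∑ a, ∑ b, ev ((List.ofFn I).reverse ++ List.ofFn I) a a b b
  have hX : ∀ v, X v = qX v.1 m := fun v => by
    simp only [X, LinearMap.sum_apply]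
    rfl
  have hY : ∀ v, Y v = qY v.1 m := fun v => by
    simp only [Y, LinearMap.sum_apply]
    rfl
  obtain ⟨α, β, C, h⟩ := approx L X Y (ev K a b c d) fun v h1 h2 h3 =>
    exact_zero v.2 m (fun K₁ K₂ e1 e2 a b c d => sub_eq_zero.1
      (h1 (Sum.inl ⟨(⟨K₁, e1⟩, ⟨K₂, e2.length_eq ▸ e1⟩), e2⟩, a, b, c, d)))
      (fun K₁ e1 a b c d => sub_eq_zero.1 (h1 (Sum.inr ⟨K₁, e1⟩, a, b, c, d)))
      (hX v ▸ h2) (hY v ▸ h3) K hK a b c d
  refine ⟨α, β, C, fun q hq D h1 h2 => ?_⟩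
  have := h ⟨q, hq⟩ D fun i => by
    obtain ⟨p | w, a, b, c, d⟩ := i
    · exact h1 _ _ p.1.1.2 p.2 a b c d
    · exact h2 _ w.2 a b c d
  rwa [hX, hY] at this

end Pool.Agent.Lib.MP_1a4aff_gt.I3
end
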