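import Pool.Agent.Lib.MP_1a4aff_gt.I3.Stm

/-! Haar measure on the orthogonal group and the invariant lift of the volume. -/

set_option autoImplicit false

open MeasureTheory Set Filter Topology
open scoped ContDiff RealInnerProductSpace

namespace Pool.Agent.Lib.MP_1a4aff_gt.I3

namespace Haar

theorem orth_iff {Q : E3 →L[ℝ] E3} : Orth Q ↔ Q ∈ unitary (E3 →L[ℝ] E3) := by
  refine ⟨fun h => IsUnit.mem_unitary_of_star_mul_self ?_
    (Q.inner_map_map_iff_adjoint_comp_self.1 h), fun h => Q.inner_map_map_of_mem_unitary h⟩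
  have h1 : Function.Injective Q := (injective_iff_map_eq_zero Q).2 fun x hx => by
    have := h x x
    rwa [hx, inner_zero_left, eq_comm, inner_self_eq_zero] at this
  exact ContinuousLinearMap.isUnit_iff_bijective.2
    ⟨h1, (LinearMap.injective_iff_surjective (f := Q.toLinearMap)).1 h1⟩

theorem cstar : ContinuousStar (E3 →L[ℝ] E3) :=
  ⟨(ContinuousLinearMap.adjoint (𝕜 := ℝ) (E := E3) (F := E3)).continuous⟩

theorem cpt : CompactSpace (unitary (E3 →L[ℝ] E3)) :=
  have := cstar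
  isCompact_iff_compactSpace.1 ((isCompact_closedBall (0 : E3 →L[ℝ] E3) 1).of_isClosed_subset
    isClosed_unitary fun Q h => mem_closedBall_zero_iff.2 (Q.opNorm_le_bound zero_le_one fun x => by
      rw [Q.norm_map_of_mem_unitary h, one_mul]))

variable {n : ℕ}

theorem rot_mem {D : Data n} {u : Fr n} (hu : u ∈ D.F) {Q : E3 →L[ℝ] E3} (hQ : Orth Q) :
    rot Q u ∈ D.F :=
  ⟨hu.1, fun x => hu.2.1 (Q x), fun x y => (hu.2.2 (Q x) (Q y)).trans (hQ x y)⟩

theorem cont_rot : Continuous fun z : Fr n × (E3 →L[ℝ] E3) => rot z.2 z.1 :=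
  continuous_fst.fst.prodMk (continuous_fst.snd.clm_comp continuous_snd)

/-- a measurable section of the frame bundle -/
theorem sect (hR : RadStmt) (hL : LocStmt) (X : Flo n) :
    ∃ s : Amb n → Fr n, Measurable s ∧ ∀ p ∈ X.S, s p ∈ X.F ∧ (s p).1 = p := by
  classical
  have : ∃ U, IsOpen U ∧ X.S ⊆ U ∧ ∃ s : Amb n → Fr n, Measurable s ∧
      ∀ p ∈ X.S ∩ U, s p ∈ X.F ∧ (s p).1 = p := by
    refine X.cpt.induction_on (p := fun K => ∃ U, IsOpen U ∧ K ⊆ U ∧ ∃ s : Amb n → Fr n,
      Measurable s ∧ ∀ p ∈ X.S ∩ U, s p ∈ X.F ∧ (s p).1 = p)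
      ⟨∅, isOpen_empty, Subset.rfl, 0, measurable_zero, by simp⟩
      (fun _ _ h ⟨U, h1, h2, h3⟩ => ⟨U, h1, h.trans h2, h3⟩) ?_ fun p hp => ?_
    · rintro _ _ ⟨U, h1, h2, s, h3, h4⟩ ⟨U', h1', h2', s', h3', h4'⟩
      refine ⟨U ∪ U', h1.union h1', union_subset_union h2 h2', U.piecewise s s',
        h3.piecewise h1.measurableSet h3', fun p hp => ?_⟩
      by_cases h : p ∈ U
      · rw [piecewise_eq_of_mem _ _ _ h]; exact h4 p ⟨hp.1, h⟩
      · rw [piecewise_eq_of_notMem _ _ _ h]; exact h4' p ⟨hp.1, hp.2.resolve_left h⟩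
    · obtain ⟨u, hu, rfl⟩ := X.frame p hp
      have hE : ContDiff ℝ ∞ (X.Ex u) := X.smEx.comp (contDiff_const.prodMk contDiff_id)
      obtain ⟨-, -, -, h1, -, h2, -⟩ := hR n X u hu
      obtain ⟨W, U, a, -, h3, -, h4, h5, h6, h7⟩ := hL n X.toData (X.ex u) univ isOpen_univ
        hE.fst.contDiffOn (fun v _ => (X.Ex_mem u hu v).1) 0 trivial (by
          rw [(h2 0).2.2.2.1, h1, X.Ex_zero, ContinuousLinearMap.comp_id]
          refine (injective_iff_map_eq_zero _).2 fun x hx => ?_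
          have := hu.2.2 x x
          rwa [hx, map_zero, eq_comm, inner_self_eq_zero] at this)
      have h8 : u.1 ∈ U := by simpa [Flo.ex, X.Ex_zero] using (h6 0 h3).1
      refine ⟨U, mem_nhdsWithin_of_mem_nhds (h4.mem_nhds h8), U, h4, Subset.rfl,
        U.piecewise (fun p => X.Ex u (a p)) 0, ContinuousOn.measurable_piecewise
          (hE.continuous.comp_continuousOn h5.continuousOn) continuousOn_const h4.measurableSet,
        fun p hp => ?_⟩
      rw [piecewise_eq_of_mem _ _ _ hp.2]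
      exact ⟨X.Ex_mem u hu _, (h7 p hp).2⟩
  obtain ⟨U, -, h1, s, h2, h3⟩ := this
  exact ⟨s, h2, fun p hp => h3 p ⟨hp, h1 hp⟩⟩

end Haar

open Haar

theorem haar_holds : HaarStmt := by
  have := cpt
  have := cstar
  let μ : Measure (unitary (E3 →L[ℝ] E3)) := Measure.haarMeasure ⊤
  have : IsProbabilityMeasure μ := ⟨Measure.haarMeasure_self⟩
  have hm : Measurable ((↑) : unitary (E3 →L[ℝ] E3) → E3 →L[ℝ] E3) := measurable_subtype_coe
  refine ⟨μ.map (↑), Measure.isProbabilityMeasure_map hm.aemeasurable, ?_, fun Q hQ => ⟨?_, ?_⟩⟩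
  · have : {Q | ¬ Orth Q} = (unitary (E3 →L[ℝ] E3) : Set (E3 →L[ℝ] E3))ᶜ := by
      ext Q; exact not_congr orth_iff
    rw [this, Measure.map_apply hm isClosed_unitary.measurableSet.compl]
    convert measure_empty (μ := μ)
    ext Q
    simp
  · rw [Measure.map_map (continuous_const.clm_comp continuous_id').measurable hm]
    conv_rhs => rw [← map_mul_left_eq_self μ ⟨Q, orth_iff.1 hQ⟩,
      Measure.map_map hm (measurable_const_mul _)]
    rfl
  · have h1 := Measure.isProbabilityMeasure_map (μ := μ)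
      (measurable_mul_const (⟨Q, orth_iff.1 hQ⟩ : unitary _)).aemeasurable
    rw [Measure.map_map (continuous_id'.clm_comp continuous_const).measurable hm]
    conv_rhs => rw [Measure.isHaarMeasure_eq_of_isProbabilityMeasure μ
      (μ.map (· * ⟨Q, orth_iff.1 hQ⟩)), Measure.map_map hm (measurable_mul_const _)]
    rfl

theorem nuA_holds (hH : HaarStmt) (hR : RadStmt) (hL : LocStmt) : NuAStmt := by
  intro n X μ hμ
  obtain ⟨η, h1, h2, h3⟩ := hH
  obtain ⟨s, h4, h5⟩ := sect hR hL X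
  have := hμ.fin
  have hf : Measurable fun z : Amb n × (E3 →L[ℝ] E3) => rot z.2 (s z.1) :=
    cont_rot.measurable.comp ((h4.comp measurable_fst).prodMk measurable_snd)
  have ha : ∀ᵐ z ∂μ.prod η, z.1 ∈ X.S := Measure.quasiMeasurePreserving_fst.ae hμ.conc
  have hb : ∀ᵐ z ∂μ.prod η, Orth z.2 := Measure.quasiMeasurePreserving_snd.ae h2
  refine ⟨(μ.prod η).map fun z => rot z.2 (s z.1), ?_, ?_, fun Q hQ => ?_⟩
  · rw [Measure.map_apply hf X.cptF.measurableSet.compl]
    exact (ha.and hb).mono fun z hz => rot_mem (h5 _ hz.1).1 hz.2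
  · rw [Measure.map_map measurable_fst hf]
    exact (Measure.map_congr (g := Prod.fst) (ha.mono fun z hz => (h5 _ hz).2)).trans (by simp)
  · have h6 : Measurable fun R : E3 →L[ℝ] E3 => R ∘L Q :=
      (continuous_id'.clm_comp continuous_const).measurable
    have h7 : Measurable (rot (n := n) Q) :=
      (cont_rot.comp (continuous_id.prodMk continuous_const)).measurable
    rw [Measure.map_map h7 hf]
    conv_rhs => rw [← (h3 Q hQ).2, ← Measure.map_id (μ := μ), Measure.map_prod_map _ _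
      measurable_id h6, Measure.map_map hf (measurable_id.prodMap h6)]
    rfl

end Pool.Agent.Lib.MP_1a4aff_gt.I3
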