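import Pool.Agent.Lib.MP_1a4aff_gt.I3.Lim
import Pool.Agent.Lib.MP_1a4aff_gt.I3.BrB
import Pool.Agent.Lib.MP_1a4aff_gt.I3.UBc

-- part Pool.Agent.Lib.MP_1a4aff_gt.I3.BrC
section

/-! The eigenvalues of the manifold are those of its embedded image. -/

set_option autoImplicit false

open MeasureTheory Set Filter Topology
open scoped ContDiff Manifold RealInnerProductSpace

namespace Pool.Agent.Lib.MP_1a4aff_gt.I3

namespace BrC

theorem sup_sq (l : E3 →L[ℝ] ℝ) :
    sSup {r | ∃ y : E3, ⟪y, y⟫ ≤ 1 ∧ r = l y ^ 2} = ∑ c, l (ee c) * l (ee c) := by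
  obtain ⟨a, rfl⟩ := (InnerProductSpace.toDual ℝ E3).surjective l
  simp only [InnerProductSpace.toDual_apply_apply, inner_ee, real_inner_self_eq_norm_sq]
  have e : ∑ c, a c * a c = ‖a‖ ^ 2 := by
    rw [normSq_E3, Fin.sum_univ_three]
    ring
  rw [e]
  refine IsGreatest.csSup_eq ⟨?_, ?_⟩
  · rcases eq_or_ne a 0 with rfl | h
    · exact ⟨0, by simp, by simp⟩
    · have h1 : ‖a‖ ≠ 0 := norm_ne_zero_iff.2 h
      refine ⟨‖a‖⁻¹ • a, le_of_eq ?_, ?_⟩
      · rw [norm_smul, norm_inv, norm_norm, inv_mul_cancel₀ h1, one_pow]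
      · rw [real_inner_smul_right, real_inner_self_eq_norm_sq]
        field_simp
  · rintro _ ⟨y, hy, rfl⟩
    have h := abs_real_inner_le_norm a y
    rw [← sq_abs]
    refine (pow_le_pow_left₀ (abs_nonneg _) h 2).trans ?_
    rw [mul_pow]
    exact mul_le_of_le_one_right (sq_nonneg _) hy

variable {E : Type} [NormedAddCommGroup E] [InnerProductSpace ℝ E]
  {M : Type} [TopologicalSpace M] [ChartedSpace E M] [IsManifold 𝓘(ℝ, E) ∞ M]
  {n : ℕ} {ι : M → Amb n}

theorem md (x : M) : (chartAt E x).MDifferentiable 𝓘(ℝ, E) 𝓘(ℝ, E) :=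
  haveI : IsManifold 𝓘(ℝ, E) 1 M := IsManifold.of_le (n := ∞) (by simp)
  mdifferentiable_chart x

variable [FiniteDimensional ℝ E] [CompactSpace M] [T2Space M]

/-- the tangent cone of the image is the image of the tangent space -/
theorem tangent (hL : EmbLocStmt) (hι : Emb E ι) (x : M) {X : Amb n} :
    X ∈ tangentConeAt ℝ (range ι) (ι x) ↔ ∃ v, X = demb E ι x v := by
  obtain ⟨h1, h2, h3⟩ := hL E M n ι hι x
  obtain ⟨U, r, hU, hx, hr, h⟩ := h3 x (mem_chart_source E x)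
  have ht := mem_chart_target E x
  have hl := (chartAt E x).left_inv (mem_chart_source E x)
  have d0 : DifferentiableAt ℝ (ι ∘ (chartAt E x).symm) (chartAt E x x) :=
    (h1.contDiffAt ((chartAt E x).open_target.mem_nhds ht)).differentiableAt (by simp)
  constructor
  · intro hX
    have d1 : DifferentiableAt ℝ (ι ∘ (chartAt E x).symm) (r (ι x)) := by rwa [(h x hx).2]
    have d2 : DifferentiableAt ℝ r (ι x) := hr.differentiable (by simp) _
    have e := fderiv_eq_of_eventuallyEq (f := (ι ∘ (chartAt E x).symm) ∘ r) (g := id)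
      (mem_range_self x) hX (d1.comp _ d2) differentiableAt_id (by
        filter_upwards [self_mem_nhdsWithin, mem_nhdsWithin_of_mem_nhds (hU.mem_nhds hx)]
          with q q1 q2
        obtain ⟨x', rfl⟩ := q1
        simp only [Function.comp_apply, id]
        rw [(h x' q2).2, (chartAt E x).left_inv (h x' q2).1])
    rw [fderiv_comp _ d1 d2, fderiv_id, (h x hx).2, h2 _ ht, hl] at e
    exact ⟨_, e.symm⟩
  · rintro ⟨v, rfl⟩
    obtain ⟨w, hw⟩ := (md x).symm.mfderiv_surjective ht v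
    have := fderiv_mem_tangentCone (s := range ι) d0
      (Eventually.of_forall fun y => mem_range_self _) w
    rw [h2 _ ht, Function.comp_apply, hl] at this
    rwa [← show dif E (chartAt E x).symm (chartAt E x x) w = v from hw]

theorem grad_eq (hL : EmbLocStmt) (hι : Emb E ι) {g : Met E M} {G : Geo n} (hS : G.S = range ι)
    (hp : Pull g ι G.g) {h : Amb n → ℝ} (hh : ContDiff ℝ ∞ h) {u : Fr n} (hu : u ∈ G.F) {x : M}
    (hx : ι x = u.1) : gradSq g (h ∘ ι) x =
      ∑ c, fderiv ℝ h u.1 (u.2 (ee c)) * fderiv ℝ h u.1 (u.2 (ee c)) := by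
  have e : dfun (E := E) (h ∘ ι) x = fderiv ℝ h (ι x) ∘L demb E ι x := by
    rw [← mfderiv_eq_fderiv]
    exact mfderiv_comp x (hh.contMDiff.mdifferentiableAt (by simp))
      (hι.sm.mdifferentiableAt (by simp))
  refine Eq.trans ?_ (sup_sq (fderiv ℝ h u.1 ∘L u.2))
  unfold gradSq
  congr 1
  ext r
  simp only [mem_ofPred_eq, e, ContinuousLinearMap.comp_apply, hp x, hx]
  constructor
  · rintro ⟨v, hv, rfl⟩
    obtain ⟨y, hy⟩ := G.span u hu (demb E ι x v) (by
      rw [hS, ← hx]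
      exact (tangent hL hι x).2 ⟨v, rfl⟩)
    rw [hy, hu.2.2] at hv
    exact ⟨y, hv, by rw [hy]⟩
  · rintro ⟨y, hy, rfl⟩
    obtain ⟨v, hv⟩ := (tangent hL hι x (X := u.2 y)).1 (by
      rw [← hS, hx]
      exact hu.2.1 y)
    exact ⟨v, by rwa [← hv, hu.2.2], by rw [hv]⟩

variable [MeasurableSpace E] [BorelSpace E] [MeasurableSpace M] [BorelSpace M]

omit [FiniteDimensional ℝ E] [IsManifold 𝓘(ℝ, E) ∞ M] [CompactSpace M] [T2Space M]
  [InnerProductSpace ℝ E] in
theorem meas_pre (x : M) {A : Set M} (hA : MeasurableSet A) :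
    MeasurableSet ((chartAt E x).symm ⁻¹' A ∩ (chartAt E x).target) := by
  have h := (chartAt E x).open_target.measurableSet.subtype_image
    ((chartAt E x).continuousOn_symm.domRestrict.measurable hA)
  convert h using 1
  ext y
  simp [and_comm]

omit [IsManifold 𝓘(ℝ, E) ∞ M] [CompactSpace M] [T2Space M] in
theorem cv_apply (g : Met E M) (x : M) {A : Set M} (hA : MeasurableSet A) : chartVol g x A =
    ∫⁻ y in (chartAt E x).symm ⁻¹' A ∩ (chartAt E x).target,
      ENNReal.ofReal (Real.sqrt (gramDet (coef E g.inner x y))) := by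
  have h := (chartAt E x).open_target.measurableSet
  rw [chartVol, Measure.map_apply_of_aemeasurable (((chartAt E x).continuousOn_symm.aemeasurable
    h).mono_ac (withDensity_absolutelyContinuous _ _)) hA, withDensity_apply',
    Measure.restrict_restrict' h]

omit [MeasurableSpace E] [BorelSpace E] in
theorem exists_iso (hd : Module.finrank ℝ E = 3) : ∃ L : E3 ≃ₗᵢ[ℝ] E,
    ∀ B : E →L[ℝ] E →L[ℝ] ℝ,
      (Matrix.of fun i j : Fin 3 => B (L (ee i)) (L (ee j))).det = gramDet B := by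
  refine ⟨((stdOrthonormalBasis ℝ E).reindex (finCongr hd)).repr.symm, fun B => ?_⟩
  rw [gramDet, ← Matrix.det_submatrix_equiv_self (finCongr hd).symm]
  congr 1
  ext i j
  simp only [ee, OrthonormalBasis.repr_symm_single, OrthonormalBasis.reindex_apply,
    Matrix.of_apply, Matrix.submatrix_apply]

omit [IsManifold 𝓘(ℝ, E) ∞ M] [FiniteDimensional ℝ E] [T2Space M] [MeasurableSpace E]
  [BorelSpace E] in
theorem memb (hι : Emb E ι) : MeasurableEmbedding ι :=
  (hι.sm.continuous.isClosedEmbedding hι.inj).measurableEmbedding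

theorem chart_eq (hL : EmbLocStmt) (hd : Module.finrank ℝ E = 3) (hι : Emb E ι) {g : Met E M}
    {G : Geo n} (hS : G.S = range ι) (hp : Pull g ι G.g) (x : M) {A : Set M}
    (hA : MeasurableSet A) : chartVol g x A = G.mu (ι '' (A ∩ (chartAt E x).source)) := by
  obtain ⟨L, hL'⟩ := exists_iso hd
  obtain ⟨h1, h2, -⟩ := hL E M n ι hι x
  set c := chartAt E x
  have hm := L.continuous.measurable (meas_pre x hA)
  have ho : IsOpen (L ⁻¹' c.target) := c.open_target.preimage L.continuous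
  have ar := G.area.area ((ι ∘ c.symm) ∘ L) _ ho
    ((h1.comp L.contDiff.contDiffOn fun y hy => hy).of_le (by simp))
    (fun y _ => hS ▸ mem_range_self _) (L ⁻¹' (c.symm ⁻¹' A ∩ c.target)) (fun y hy => hy.2) hm
    fun y hy z hz e => L.injective (c.symm.injOn hy.2 hz.2 (hι.inj e))
  have im : ((ι ∘ c.symm) ∘ L) '' (L ⁻¹' (c.symm ⁻¹' A ∩ c.target)) = ι '' (A ∩ c.source) := by
    rw [image_comp, image_preimage_eq _ L.surjective, image_comp]
    congr 1
    ext z
    constructor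
    · rintro ⟨y, hy, rfl⟩
      exact ⟨hy.1, c.map_target hy.2⟩
    · intro hz
      exact ⟨c z, ⟨by rw [mem_preimage, c.left_inv hz.2]; exact hz.1, c.map_source hz.2⟩,
        c.left_inv hz.2⟩
  rw [← im, ar, cv_apply g x hA, ← L.measurePreserving.setLIntegral_comp_preimage_emb
    L.toHomeomorph.measurableEmbedding]
  refine setLIntegral_congr_fun hm fun y hy => ?_
  have d : fderiv ℝ ((ι ∘ c.symm) ∘ L) y = fderiv ℝ (ι ∘ c.symm) (L y) ∘L
      (L.toContinuousLinearEquiv : E3 →L[ℝ] E) :=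
    L.toContinuousLinearEquiv.comp_right_fderiv
  simp only [← hL', gram, d, h2 _ hy.2]
  congr 3
  ext i j
  exact hp _ _ _

theorem map_vol (hM : MBasStmt) (hL : EmbLocStmt) (hd : Module.finrank ℝ E = 3) (hι : Emb E ι)
    {g : Met E M} {G : Geo n} (hS : G.S = range ι) (hp : Pull g ι G.g) :
    (vol g).map ι = G.mu := by
  have e : vol g = G.mu.comap ι := by
    obtain ⟨t, ht⟩ := isCompact_univ.elim_finite_subcover (fun x : M => (chartAt E x).source)
      (fun x => (chartAt E x).open_source) fun x _ => mem_iUnion.2 ⟨x, mem_chart_source E x⟩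
    refine Measure.ext_of_biUnion_eq_univ t.countable_toSet (univ_subset_iff.1 ht) fun x _ => ?_
    ext A hA
    rw [(hM E M g).2.2.1 x, chart_eq hL hd hι hS hp x hA, Measure.restrict_apply hA,
      (memb hι).comap_apply]
  rw [e, (memb hι).map_comap, ← hS]
  exact Measure.restrict_eq_self_of_ae_mem G.ae_S

end BrC

open BrC

theorem brC_holds (hM : MBasStmt) (hL : EmbLocStmt) (_hB : BasStmt) : BrCStmt := by
  intro E _ _ _ _ _ M _ _ _ _ _ _ _ hd n ι hι g G hS hp k
  obtain ⟨hfin, hpos, -, hc⟩ := hM E M g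
  have hv := map_vol hM hL hd hι hS hp
  have sm : ∀ h : Amb n → ℝ, ContDiff ℝ ∞ h → ContMDiff 𝓘(ℝ, E) 𝓘(ℝ, ℝ) ∞ (h ∘ ι) :=
    fun h hh => hh.contMDiff.comp hι.sm
  have ms : ∀ h : Amb n → ℝ, G.ms h h = ∫ x, (h ∘ ι) x ^ 2 ∂vol g := fun h => by
    rw [Geo.ms, ← hv, (memb hι).integral_map]
    simp only [sq, Function.comp_apply]
  have en : ∀ h : Amb n → ℝ, ContDiff ℝ ∞ h → G.en h h = ∫ x, gradSq g (h ∘ ι) x ∂vol g :=
    fun h hh => by
    have m := (memb hι).measurable_extend (hc _ (sm h hh)).measurable (g' := fun _ => (0 : ℝ))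
      measurable_const
    rw [Geo.en, G.integral_congr_F (h := fun u => Function.extend ι (gradSq g (h ∘ ι))
      (fun _ => 0) u.1) fun u hu => ?_, G.integral_fst m.aestronglyMeasurable, ← hv,
      (memb hι).integral_map]
    · simp only [hι.inj.extend_apply]
    · obtain ⟨x, hx⟩ : u.1 ∈ range ι := hS ▸ hu.1
      simp only
      rw [← grad_eq hL hι hS hp hh hu hx, ← hx, hι.inj.extend_apply]
  unfold eigen Geo.eig
  congr 1
  ext L
  constructor
  · rintro ⟨F, hF, h⟩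
    have := Module.finite_of_finrank_eq_succ hF
    let b := Module.finBasisOfFinrankEq ℝ F hF
    choose w w1 w2 using fun i => hι.ext (b i) (h _ (b i).2).1
    have e : ∀ f : F, b.constr ℝ w f ∘ ι = f := fun f =>
      LinearMap.congr_fun (b.ext (f₁ := LinearMap.funLeft ℝ ℝ ι ∘ₗ b.constr ℝ w) (f₂ := F.subtype)
        fun i => by
          rw [LinearMap.comp_apply, b.constr_basis]
          exact funext (w2 i)) f
    refine ⟨LinearMap.range (b.constr ℝ w), ?_, ?_⟩
    · rw [LinearMap.finrank_range_of_inj fun f f' hf => Subtype.ext (by rw [← e, ← e, hf]), hF]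
    · rintro _ ⟨f, rfl⟩
      have s : ContDiff ℝ ∞ (b.constr ℝ w f) := by
        rw [b.constr_apply_fintype ℝ, Finset.sum_fn]
        exact ContDiff.sum fun i _ => (w1 i).const_smul (b.equivFun f i)
      refine ⟨s, fun h0 => ?_, ?_⟩
      · rw [ms, e]
        obtain ⟨x, hx⟩ : ∃ x, (f : M → ℝ) x ≠ 0 := Function.ne_iff.1 fun h1 =>
          h0 (by rw [show f = 0 from Subtype.ext h1, map_zero])
        exact ((h _ f.2).1.continuous.pow 2).integral_pos_of_hasCompactSupport_nonneg_nonzero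
          (HasCompactSupport.of_compactSpace _) (fun y => sq_nonneg _) (pow_ne_zero 2 hx)
      · rw [ms, en _ s, e]
        exact (h _ f.2).2
  · rintro ⟨W, hW, h⟩
    refine ⟨LinearMap.range (LinearMap.funLeft ℝ ℝ ι ∘ₗ W.subtype), ?_, ?_⟩
    · rw [LinearMap.finrank_range_of_inj ((injective_iff_map_eq_zero _).2 fun f hf => ?_), hW]
      by_contra h0
      have h1 := (h _ f.2).2.1 fun h2 => h0 (Subtype.ext h2)
      rw [ms, show (f : Amb n → ℝ) ∘ ι = 0 from hf] at h1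
      simp at h1
    · rintro _ ⟨f, rfl⟩
      have h1 := h _ f.2
      rw [ms, en _ h1.1] at h1
      exact ⟨sm _ h1.1, h1.2.2⟩

end Pool.Agent.Lib.MP_1a4aff_gt.I3
end

-- part Pool.Agent.Lib.MP_1a4aff_gt.I3.UB1
section

/-! Uniform bounds for the derivatives of the coframe and of the connection form. -/

set_option autoImplicit false

open MeasureTheory Set Filter Topology Metric
open scoped ContDiff RealInnerProductSpace

namespace Pool.Agent.Lib.MP_1a4aff_gt.I3

namespace UB1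

/-- a gain of one derivative for solutions of a contracting radial integral equation -/
theorem gain {κ V : Type} [NormedAddCommGroup V] [NormedSpace ℝ V] [CompleteSpace V] {R : ℝ}
    {k : ℕ} {L : κ → E3 → V →L[ℝ] V} {z : κ → E3 → V} (z0 : V)
    (hL : UBk (k + 1) (fun i : κ × ball (0 : E3) R => L i.1) fun i => (i.2 : E3))
    (hz : UBk k (fun i : κ × ball (0 : E3) R => z i.1) fun i => (i.2 : E3))
    (hn : ∀ c, ∀ y ∈ ball (0 : E3) R, ‖L c y‖ ≤ 3 / 4)
    (he : ∀ c, ∀ v ∈ ball (0 : E3) R, z c v = z0 + radv 0 (fun y => L c y (z c y)) v) :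
    UBk (k + 1) (fun i : κ × ball (0 : E3) R => z i.1) fun i => (i.2 : E3) := by
  obtain ⟨L1, A, hA⟩ := hL
  obtain ⟨z1, B, hB⟩ := hz
  set D : ℝ := ∑ j ∈ Finset.range (k + 1), ((k + 1).choose (j + 1) : ℝ) * |A| * |B| with hD
  have sL : ∀ c, ContDiffOn ℝ ∞ (L c) (ball 0 R) := fun c w hw => (L1 (c, ⟨w, hw⟩)).contDiffWithinAt
  have sz : ∀ c, ContDiffOn ℝ ∞ (z c) (ball 0 R) := fun c w hw => (z1 (c, ⟨w, hw⟩)).contDiffWithinAt
  have leib : ∀ c, ∀ y ∈ ball (0 : E3) R,
      ‖iteratedFDeriv ℝ (k + 1) (fun y => L c y (z c y)) y‖ ≤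
        3 / 4 * ‖iteratedFDeriv ℝ (k + 1) (z c) y‖ + D := fun c y hy => by
    have h := norm_iteratedFDerivWithin_clm_apply (n := k + 1) (sL c) (sz c)
      isOpen_ball.uniqueDiffOn hy (by exact_mod_cast le_top)
    simp only [iteratedFDerivWithin_of_isOpen _ isOpen_ball hy] at h
    rw [Finset.sum_range_succ'] at h
    refine (h.trans_eq (add_comm _ _)).trans (add_le_add ?_ (Finset.sum_le_sum fun j hj => ?_))
    · simp only [Nat.choose_zero_right, Nat.cast_one, one_mul, norm_iteratedFDeriv_zero,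
        Nat.sub_zero]
      exact mul_le_mul_of_nonneg_right (hn c y hy) (norm_nonneg _)
    · have hj' := Finset.mem_range.1 hj
      exact mul_le_mul (mul_le_mul_of_nonneg_left
        ((hA (c, ⟨y, hy⟩) (j + 1) (by omega)).trans (le_abs_self A)) (Nat.cast_nonneg _))
        ((hB (c, ⟨y, hy⟩) _ (by omega)).trans (le_abs_self B)) (norm_nonneg _) (by positivity)
  have top : ∀ c, ∀ v ∈ ball (0 : E3) R, iteratedFDeriv ℝ (k + 1) (z c) v =
      radv (0 + (k + 1)) (iteratedFDeriv ℝ (k + 1) fun y => L c y (z c y)) v := fun c v hv => by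
    have s1 : ContDiffOn ℝ ∞ (fun y => L c y (z c y)) (ball 0 R) := (sL c).clm_apply (sz c)
    have e : z c =ᶠ[𝓝 v] (fun _ => z0) + radv 0 fun y => L c y (z c y) := by
      filter_upwards [isOpen_ball.mem_nhds hv] with w hw using he c w hw
    rw [(e.iteratedFDeriv ℝ (k + 1)).self_of_nhds, iteratedFDeriv_add_apply contDiffAt_const
      (((radv_contDiffOn 0 s1).contDiffAt (isOpen_ball.mem_nhds hv)).of_le
        (by exact_mod_cast le_top)), iteratedFDeriv_succ_const, iteratedFDeriv_radv 0 _ s1 hv]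
    simp
  refine ⟨z1, max B (4 * D), fun i j hj => ?_⟩
  rcases Nat.lt_or_ge j (k + 1) with h | h
  · exact (hB i j (by omega)).trans (le_max_left _ _)
  obtain rfl : j = k + 1 := le_antisymm hj h
  obtain ⟨c, v, hv⟩ := i
  have hc : ContinuousOn (fun s : ℝ => ‖iteratedFDeriv ℝ (k + 1) (z c) (s • v)‖) (Icc 0 1) :=
    (UBc.cont_ray (f := iteratedFDeriv ℝ (k + 1) (z c)) (fun w hw =>
      ((z1 (c, ⟨w, hw⟩)).continuousAt_iteratedFDeriv
        (by exact_mod_cast le_top)).continuousWithinAt) hv).norm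
  obtain ⟨s, hs, hM⟩ := isCompact_Icc.exists_isMaxOn (nonempty_Icc.2 zero_le_one) hc
  have h1 : ‖iteratedFDeriv ℝ (k + 1) (z c) (s • v)‖ ≤
      3 / 4 * ‖iteratedFDeriv ℝ (k + 1) (z c) (s • v)‖ + D := by
    conv_lhs => rw [top c _ (UBc.ray_mem hv hs)]
    refine norm_radv_le _ fun t ht => (leib c _ (UBc.ray_mem (UBc.ray_mem hv hs) ht)).trans ?_
    have := hM (show t * s ∈ Icc (0 : ℝ) 1 from
      ⟨mul_nonneg ht.1 hs.1, mul_le_one₀ ht.2 hs.1 hs.2⟩)
    simp only [mem_ofPred_eq] at this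
    rw [smul_smul]
    linarith
  have h2 := hM (right_mem_Icc.2 zero_le_one)
  simp only [mem_ofPred_eq, one_smul] at h2
  exact le_max_of_le_right (by linarith)

section Sys

variable {G : Type} [NormedAddCommGroup G] [NormedSpace ℝ G]

/-- the operator of the system satisfied by the coframe and the connection form -/
noncomputable def sys (P Q : G →L[ℝ] G) :
    (G →L[ℝ] G) × (G →L[ℝ] G) →L[ℝ] (G →L[ℝ] G) × (G →L[ℝ] G) :=
  ContinuousLinearMap.inl ℝ _ _ ∘L
      (ContinuousLinearMap.compL ℝ G G G P ∘L ContinuousLinearMap.snd ℝ _ _) +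
    ContinuousLinearMap.inr ℝ _ _ ∘L
      (ContinuousLinearMap.compL ℝ G G G Q ∘L ContinuousLinearMap.fst ℝ _ _)

theorem sys_apply (P Q : G →L[ℝ] G) (x : (G →L[ℝ] G) × (G →L[ℝ] G)) :
    sys P Q x = (P ∘L x.2, Q ∘L x.1) := by
  simp [sys]

theorem norm_sys {P Q : G →L[ℝ] G} {c : ℝ} (hP : ‖P‖ ≤ c) (hQ : ‖Q‖ ≤ c) : ‖sys P Q‖ ≤ c := by
  have c0 := (norm_nonneg _).trans hP
  refine ContinuousLinearMap.opNorm_le_bound _ c0 fun x => ?_
  rw [sys_apply, Prod.norm_mk]
  exact max_le ((P.opNorm_comp_le _).trans (mul_le_mul hP (norm_snd_le x) (norm_nonneg _) c0))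
    ((Q.opNorm_comp_le _).trans (mul_le_mul hQ (norm_fst_le x) (norm_nonneg _) c0))

theorem ub_sandwich {ι V : Type} [NormedAddCommGroup V] [NormedSpace ℝ V] {k : ℕ} {y : ι → E3}
    (A : G →L[ℝ] V) (A' : V →L[ℝ] G) {S : ι → E3 → G →L[ℝ] G} (hS : UBk k S y) :
    UBk k (fun i x => A ∘L (S i x ∘L A')) y :=
  (ub_const (fun _ => A) ‖A‖ fun _ => le_rfl).clm_comp
    (hS.clm_comp (ub_const (fun _ => A') ‖A'‖ fun _ => le_rfl))

theorem ub_sys {ι : Type} {k : ℕ} {y : ι → E3} {P Q : ι → E3 → G →L[ℝ] G} (hP : UBk k P y)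
    (hQ : UBk k Q y) : UBk k (fun i x => sys (P i x) (Q i x)) y :=
  (ub_sandwich _ _ (hP.clm (ContinuousLinearMap.compL ℝ G G G))).add
    (ub_sandwich _ _ (hQ.clm (ContinuousLinearMap.compL ℝ G G G)))

end Sys

abbrev Op := E3 →L[ℝ] E3

theorem system (hR : RadStmt) {n : ℕ} (X : Flo n) {u : Fr n} (hu : u ∈ X.F) (v : E3) :
    (X.th u v, X.om u v) = (ContinuousLinearMap.id ℝ E3, 0) +
      radv 0 (fun y => sys (cr.flip y) (-(X.N (X.Ex u y) ∘L cr y)) (X.th u y, X.om u y)) v := by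
  have h := (hR n X u hu).2.2.2.2.2.1 v
  have c1 := (X.contDiff_th u).continuous
  have c2 := (X.contDiff_om u).continuous
  have c3 := (X.smN.comp (X.contDiff_Ex u)).continuous
  have hi : IntervalIntegrable (fun s : ℝ => s ^ 0 • sys (cr.flip (s • v))
      (-(X.N (X.Ex u (s • v)) ∘L cr (s • v))) (X.th u (s • v), X.om u (s • v))) volume 0 1 := by
    refine Continuous.intervalIntegrable ?_ _ _
    simp only [sys_apply, pow_zero, one_smul]
    have c4 : Continuous fun s : ℝ => s • v := continuous_id.smul continuous_const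
    exact ((cr.flip.continuous.comp c4).clm_comp (c2.comp c4)).prodMk
      ((((c3.comp c4).clm_comp (cr.continuous.comp c4)).neg).clm_comp (c1.comp c4))
  refine Prod.ext (ContinuousLinearMap.ext fun w => ?_) (ContinuousLinearMap.ext fun w => ?_)
  · have := (ContinuousLinearMap.apply ℝ E3 w ∘L
      ContinuousLinearMap.fst ℝ Op Op).intervalIntegral_comp_comm hi
    refine (h.2.2.2.2.2 w).1.trans (congrArg (w + ·) (Eq.trans ?_ this))
    simp [sys_apply]
  · have := (ContinuousLinearMap.apply ℝ E3 w ∘L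
      ContinuousLinearMap.snd ℝ Op Op).intervalIntegral_comp_comm hi
    refine (h.2.2.2.2.2 w).2.trans (Eq.trans ?_ (this.trans (zero_add _).symm))
    simp [sys_apply]

theorem length_vs (β : E3) : ∀ xs : List E3, ∀ l ∈ vs β xs, l.length = xs.length
  | [], _, h => by simp [vs] at h
  | x :: xs, l, h => by
    simp only [vs, List.mem_cons, List.mem_map] at h
    rcases h with rfl | ⟨l', h, rfl⟩
    · rfl
    · simp [length_vs β xs l' h]

theorem ub_list {ι α : Type} {k : ℕ} {y : ι → E3} {f : α → ι → E3 → ℝ} :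
    ∀ l : List α, (∀ a ∈ l, UBk k (f a) y) → UBk k (fun i x => (l.map fun a => f a i x).sum) y
  | [], _ => ub_const (fun _ => (0 : ℝ)) 0 fun _ => by simp
  | a :: l, h => (h a (by simp)).add (ub_list l fun b hb => h b (by simp [hb]))

/-- the derivative of a curvature tensor in normal coordinates -/
theorem fderiv_TV (hS : StrStmt) (hB : BiaStmt) {n : ℕ} (X : Flo n) {u : Fr n} (hu : u ∈ X.F)
    (xs : List E3) (y z v w : E3) :
    fderiv ℝ (fun p => X.TV xs y z (X.Ex u p)) v w =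
      ∑ c, X.th u v w c * X.TV (ee c :: xs) y z (X.Ex u v) +
      ∑ c, X.om u v w c * (((vs (ee c) xs).map fun l => X.TV l y z (X.Ex u v)).sum +
        X.TV xs (cr (ee c) y) z (X.Ex u v) + X.TV xs y (cr (ee c) z) (X.Ex u v)) := by
  have h1 := (hS n X.toCon E3 (X.Ex u) univ isOpen_univ (X.contDiff_Ex u).contDiffOn
    (fun p _ => X.Ex_mem u hu p) v trivial).1 w
  have h2 := (hB n X.toCon _ (X.Ex_mem u hu v)).2.2.2.1
  have h3 : fderiv ℝ (fun p => X.TV xs y z (X.Ex u p)) v =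
      fderiv ℝ (X.TV xs y z) (X.Ex u v) ∘L fderiv ℝ (X.Ex u) v :=
    fderiv_comp v ((X.contDiff_TV xs y z).differentiable (by simp) _)
      ((X.contDiff_Ex u).differentiable (by simp) _)
  rw [h3, ContinuousLinearMap.comp_apply, h1, map_add]
  congr 1
  · exact lin_sum_ee (X.HD_lin (X.TV xs y z) (X.Ex u v)) _
  · simp only [← h2]
    exact clm_sum_ee (fderiv ℝ (X.TV xs y z) (X.Ex u v) ∘L vertL (X.Ex u v)) _

/-- frames of geometries with bounded curvature -/
structure Ix (J : ℕ) (B : ℝ) where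
  n : ℕ
  X : Flo n
  u : Fr n
  h0 : X.Bd 0 1
  hJ : X.Bd J B
  hu : u ∈ X.F

abbrev Pt (J : ℕ) (B : ℝ) := Ix J B × ball (0 : E3) (1 / 4)

variable {J : ℕ} {B : ℝ}

/-- the curvature tensors in normal coordinates -/
noncomputable def tv (xs : List E3) (y z : E3) (i : Pt J B) (p : E3) : ℝ :=
  i.1.X.TV xs y z (i.1.X.Ex i.1.u p)

theorem tv_zero (xs : List E3) : ∀ (I : List (Fin 3)) (y z : E3), I.length + xs.length ≤ J →
    UBk 0 (tv (I.map ee ++ xs) y z) fun i : Pt J B => (i.2 : E3) := by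
  induction xs with
  | nil =>
    intro I y z h
    have h1 : ∀ a b, UBk 0 (tv (I.map ee) (ee a) (ee b)) fun i : Pt J B => (i.2 : E3) :=
      fun a b => ub_zero_iff.2 ⟨fun i =>
        ((i.1.X.contDiff_T I a b).comp (i.1.X.contDiff_Ex i.1.u)).contDiffAt, B, fun i =>
          i.1.hJ _ (i.1.X.Ex_mem _ i.1.hu _) I (by simpa using h) a b⟩
    refine (ub_sum Finset.univ fun a _ => (ub_const (fun _ => y a) _ fun _ => le_rfl).mul
      (ub_sum Finset.univ fun b _ => (ub_const (fun _ => z b) _ fun _ => le_rfl).mul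
        (h1 a b))).congr fun i => Eventually.of_forall fun p => ?_
    simp only [tv, List.append_nil]
    rw [lin_sum_ee (i.1.X.TV_lin_y _ z _) y]
    exact Finset.sum_congr rfl fun a _ => by rw [lin_sum_ee (i.1.X.TV_lin_z _ (ee a) _) z]
  | cons x xs ih =>
    intro I y z h
    refine (ub_sum Finset.univ fun c _ => (ub_const (fun _ => x c) _ fun _ => le_rfl).mul
      (ih (I ++ [c]) y z (by simp at h ⊢; omega))).congr
        fun i => Eventually.of_forall fun p => ?_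
    simp only [tv]
    rw [lin_sum_ee (i.1.X.TV_lin _ xs y z _) x]
    simp

theorem main (hS : StrStmt) (hR : RadStmt) (hB : BiaStmt) (k : ℕ) (hk : k ≤ J) :
    (UBk k (fun (i : Pt J B) p => (i.1.X.th i.1.u p, i.1.X.om i.1.u p)) fun i => (i.2 : E3)) ∧
    ∀ xs y z, xs.length + k ≤ J → UBk k (tv xs y z) fun i : Pt J B => (i.2 : E3) := by
  induction k with
  | zero =>
    refine ⟨ub_zero_iff.2 ⟨fun i => ((i.1.X.contDiff_th _).prodMk (i.1.X.contDiff_om _)).contDiffAt,
      2, fun i => ?_⟩, fun xs y z h => tv_zero xs [] y z (by simpa using h)⟩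
    have hv := (mem_ball_zero_iff.1 i.2.2).le
    obtain ⟨h1, h2, -⟩ := (hR _ i.1.X _ i.1.hu).2.2.2.2.2.2 i.1.h0 _ hv
    have h3 := norm_le_norm_add_norm_sub' (i.1.X.th i.1.u i.2) (ContinuousLinearMap.id ℝ E3)
    have h4 := ContinuousLinearMap.norm_id_le (𝕜 := ℝ) (E := E3)
    rw [Prod.norm_mk]
    exact max_le (by nlinarith [norm_nonneg (i.2 : E3)]) (by linarith)
  | succ k ih =>
    obtain ⟨h1, h2⟩ := ih (by omega)
    have co : ∀ (π : Op × Op →L[ℝ] Op) (d c : Fin 3), UBk k (fun (i : Pt J B) p =>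
        π (i.1.X.th i.1.u p, i.1.X.om i.1.u p) (ee d) c) fun i => (i.2 : E3) := fun π d c =>
      ((h1.clm π).clm (ContinuousLinearMap.apply ℝ E3 (ee d))).clm (EuclideanSpace.proj c)
    have h3 : ∀ xs y z, xs.length + (k + 1) ≤ J →
        UBk (k + 1) (tv xs y z) fun i : Pt J B => (i.2 : E3) := fun xs y z h => by
      refine ub_succ_iff.2 ⟨(h2 xs y z (by omega)).mono (Nat.zero_le _), ub_clm_E3 fun d => ?_⟩
      refine ((ub_sum Finset.univ fun c _ => (co (ContinuousLinearMap.fst ℝ Op Op) d c).mul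
        (h2 (ee c :: xs) y z (by simp; omega))).add
        (ub_sum Finset.univ fun c _ => (co (ContinuousLinearMap.snd ℝ Op Op) d c).mul
          (((ub_list (f := fun l => tv l y z) (vs (ee c) xs) fun l hl =>
            h2 l y z (by rw [length_vs _ _ l hl]; omega)).add
            (h2 xs (cr (ee c) y) z (by omega))).add
            (h2 xs y (cr (ee c) z) (by omega))))).congr fun i => Eventually.of_forall fun p => ?_
      exact (fderiv_TV hS hB i.1.X i.1.hu xs y z p (ee d)).symm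
    refine ⟨?_, h3⟩
    have hid : UBk (k + 1) (fun (_ : Pt J B) (x : E3) => x) fun i => (i.2 : E3) :=
      ub_id (1 / 4) fun i => (mem_ball_zero_iff.1 i.2.2).le
    have hN : UBk (k + 1) (fun (i : Pt J B) p => i.1.X.N (i.1.X.Ex i.1.u p)) fun i => (i.2 : E3) :=
      ub_clm_E3 fun a => ub_E3 fun b => (h3 [] (ee a) (ee b) (by simpa using hk)).congr
        fun i => Eventually.of_forall fun p => inner_ee _ b
    refine gain (L := fun (c : Ix J B) y => sys (cr.flip y) (-(c.X.N (c.X.Ex c.u y) ∘L cr y)))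
      (z := fun c p => (c.X.th c.u p, c.X.om c.u p)) (ContinuousLinearMap.id ℝ E3, 0)
      (ub_sys (hid.clm cr.flip) (hN.clm_comp (hid.clm cr)).neg) h1 (fun c y hy => ?_)
      fun c v _ => system hR c.X c.hu v
    have hy' := (mem_ball_zero_iff.1 hy).le
    refine norm_sys (ContinuousLinearMap.opNorm_le_bound _ (by norm_num) fun x => ?_) ?_
    · refine (norm_cr_le x y).trans ?_
      nlinarith [norm_nonneg x]
    · rw [norm_neg]
      refine (ContinuousLinearMap.opNorm_comp_le _ _).trans ?_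
      have := mul_le_mul (c.h0.norm_N (c.X.Ex_mem _ c.hu y)) ((opNorm_cr_le y).trans hy')
        (norm_nonneg _) (by norm_num)
      linarith

end UB1

theorem ub1_holds (hS : StrStmt) (hR : RadStmt) (hB : BiaStmt) : UB1Stmt := by
  refine fun k => ⟨k, fun B => ?_⟩
  have h := (UB1.main (B := B) hS hR hB k le_rfl).1
  obtain ⟨-, C, hC⟩ := h.clm (ContinuousLinearMap.fst ℝ UB1.Op UB1.Op)
  obtain ⟨-, D, hD⟩ := h.clm (ContinuousLinearMap.snd ℝ UB1.Op UB1.Op)
  exact ⟨max C D, fun n X h0 hJ u hu v hv j hj =>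
    ⟨(hC (⟨n, X, u, h0, hJ, hu⟩, ⟨v, hv⟩) j hj).trans (le_max_left _ _),
      (hD (⟨n, X, u, h0, hJ, hu⟩, ⟨v, hv⟩) j hj).trans (le_max_right _ _)⟩⟩

end Pool.Agent.Lib.MP_1a4aff_gt.I3
end

-- part Pool.Agent.Lib.MP_1a4aff_gt.I3.UB2
section

/-! Uniform bounds for the parametrix. -/

set_option autoImplicit false

open MeasureTheory Set Filter Topology Metric
open scoped ContDiff

namespace Pool.Agent.Lib.MP_1a4aff_gt.I3

namespace UB2

section Gen

variable {ι : Type} {k : ℕ} {y : ι → E3}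

theorem ub_det {M : ι → E3 → Matrix (Fin 3) (Fin 3) ℝ}
    (h : ∀ a b, UBk k (fun i x => M i x a b) y) : UBk k (fun i x => (M i x).det) y := by
  simp only [Matrix.det_fin_three]
  exact ((((((h 0 0).mul (h 1 1)).mul (h 2 2)).sub (((h 0 0).mul (h 1 2)).mul (h 2 1))).sub
    (((h 0 1).mul (h 1 0)).mul (h 2 2))).add (((h 0 1).mul (h 1 2)).mul (h 2 0))).add
    (((h 0 2).mul (h 1 0)).mul (h 2 1)) |>.sub (((h 0 2).mul (h 1 1)).mul (h 2 0))

theorem ub_adj {M : ι → E3 → Matrix (Fin 3) (Fin 3) ℝ}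
    (h : ∀ a b, UBk k (fun i x => M i x a b) y) (a b : Fin 3) :
    UBk k (fun i x => (M i x).adjugate a b) y := by
  simp only [Matrix.adjugate_apply]
  refine ub_det fun c d => ?_
  simp only [Matrix.updateRow_apply]
  by_cases hc : c = b
  · simp only [if_pos hc]
    exact ub_const (fun _ => (Pi.single a 1 : Fin 3 → ℝ) d) _ fun _ => le_rfl
  · simp only [if_neg hc]
    exact h c d

theorem ub_inv {f : ι → E3 → ℝ} (hf : UBk k f y) (h : ∀ i, f i (y i) ∈ Icc (1 / 2 : ℝ) 2) :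
    UBk k (fun i x => (f i x)⁻¹) y := by
  simpa only [Real.rpow_neg_one] using hf.rpow (1 / 2) 2 (-1) (by norm_num) h

theorem ub_sqrt {f : ι → E3 → ℝ} (hf : UBk k f y) (h : ∀ i, f i (y i) ∈ Icc (1 / 2 : ℝ) 2) :
    UBk k (fun i x => Real.sqrt (f i x)) y := by
  simpa only [Real.sqrt_eq_rpow] using hf.rpow (1 / 2) 2 (1 / 2) (by norm_num) h

theorem ub_dd {f : ι → E3 → ℝ} (hf : UBk (k + 1) f y) (c : Fin 3) :
    UBk k (fun i => dd c (f i)) y := hf.fderiv_apply (ee c)

theorem common {κ : Type} [Finite κ] {f : κ → ι → E3 → ℝ} (h : ∀ a, UBk k (f a) y) :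
    ∃ C : ℝ, ∀ a i, ∀ j ≤ k, ‖iteratedFDeriv ℝ j (f a i) (y i)‖ ≤ C := by
  choose C hC using fun a => (h a).2
  obtain ⟨D, hD⟩ := (finite_range C).bddAbove
  exact ⟨D, fun a i j hj => (hC a i j hj).trans (hD ⟨a, rfl⟩)⟩

end Gen

/-- all frames of all geometries with given curvature bounds -/
structure Ix (J : ℕ) (B : ℝ) where
  n : ℕ
  X : Flo n
  h0 : X.Bd 0 1
  hJ : X.Bd J B
  u : Fr n
  hu : u ∈ X.F

variable {J : ℕ} {B : ℝ}

abbrev Io (J : ℕ) (B : ℝ) : Type := Ix J B × ball (0 : E3) (1 / 4)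

def pt (i : Io J B) : E3 := i.2

theorem den_mem (hR : RadStmt) (i : Io J B) :
    i.1.X.den i.1.u (pt i) ∈ Icc (1 / 2 : ℝ) 2 :=
  ((hR _ i.1.X i.1.u i.1.hu).2.2.2.2.2.2 i.1.h0 _ (mem_ball_zero_iff.1 i.2.2).le).2.2

theorem sqrt_mem (hR : RadStmt) (i : Io J B) :
    Real.sqrt (i.1.X.den i.1.u (pt i)) ∈ Icc (1 / 2 : ℝ) 2 := by
  obtain ⟨h1, h2⟩ := den_mem hR i
  exact ⟨Real.le_sqrt_of_sq_le (by linarith), Real.sqrt_le_iff.2 ⟨by norm_num, by linarith⟩⟩

variable {K : ℕ} (hR : RadStmt) (hth : UBk K (fun i : Io J B => i.1.X.th i.1.u) pt)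
include hth

theorem ub_thM (a c : Fin 3) : UBk K (fun (i : Io J B) x => i.1.X.thM i.1.u x a c) pt :=
  (hth.clm_apply (ub_const (fun _ => ee c) _ fun _ => le_rfl)).clm (EuclideanSpace.proj a)

theorem ub_den : UBk K (fun i : Io J B => i.1.X.den i.1.u) pt := ub_det (ub_thM hth)

include hR

theorem ub_gi (a b : Fin 3) : UBk K (fun i : Io J B => i.1.X.gi i.1.u a b) pt := by
  have h1 := ub_inv (ub_den hth) (den_mem hR)
  have h2 : ∀ c d, UBk K (fun (i : Io J B) x =>
      ((i.1.X.thM i.1.u x).transpose * i.1.X.thM i.1.u x) c d) pt := fun c d => by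
    simp only [Matrix.mul_apply, Matrix.transpose_apply]
    exact ub_sum _ fun e _ => (ub_thM hth e c).mul (ub_thM hth e d)
  refine ((h1.mul h1).mul (ub_adj h2 a b)).congr fun i => Eventually.of_forall fun x => ?_
  simp only [Flo.gi, Flo.den, Matrix.inv_def, Matrix.det_mul, Matrix.det_transpose,
    Ring.inverse_eq_inv', mul_inv, Matrix.smul_apply, smul_eq_mul]

theorem ub_Lap {k : ℕ} (hk : k + 1 ≤ K) {f : Io J B → E3 → ℝ} (hf : UBk (k + 2) f pt) :
    UBk k (fun i => i.1.X.Lap i.1.u (f i)) pt :=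
  (ub_inv ((ub_den hth).mono (by omega)) (den_mem hR)).mul
    (ub_sum _ fun a _ => ub_sum _ fun b _ => ub_dd
      ((((ub_den hth).mono hk).mul ((ub_gi hR hth a b).mono hk)).mul (ub_dd hf b)) a)

theorem ub_Lc {k : ℕ} (hk : k + 2 ≤ K) {f : Io J B → E3 → ℝ} (hf : UBk (k + 2) f pt) :
    UBk k (fun i => i.1.X.Lc i.1.u (f i)) pt := by
  have h1 := ub_sqrt (ub_den hth) (den_mem hR)
  have h2 := hf.mul ((ub_inv h1 (sqrt_mem hR)).mono hk)
  simp only [← div_eq_mul_inv] at h2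
  exact (h1.mono (by omega)).mul (ub_Lap hR hth (by omega) h2)

theorem ub_bb (l : ℕ) : ∀ k, k + 2 * l ≤ K → UBk k (fun i : Io J B => i.1.X.bb i.1.u l) pt := by
  induction l with
  | zero => exact fun k _ => ub_const (fun _ => (1 : ℝ)) 1 fun _ => norm_one.le
  | succ l ih =>
    intro k hk
    exact ub_radv l (f := fun c : Ix J B => c.X.Lc c.u (c.X.bb c.u l))
      (ub_Lc hR hth (by omega) (ih (k + 2) (by omega)))

end UB2

open UB2 in
theorem ub2_holds (h1 : UB1Stmt) (hR : RadStmt) (_hM : MPStmt) : UB2Stmt := by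
  intro k
  obtain ⟨J, hJ⟩ := h1 (3 * k + 2)
  refine ⟨J, fun B => ?_⟩
  obtain ⟨C, hC⟩ := hJ B
  have hth : UBk (3 * k + 2) (fun i : Io J B => i.1.X.th i.1.u) pt :=
    ⟨fun i => (i.1.X.contDiff_th i.1.u).contDiffAt, C, fun i j hj =>
      (hC _ i.1.X i.1.h0 i.1.hJ i.1.u i.1.hu _ i.2.2 j hj).1⟩
  obtain ⟨C₁, c1⟩ := ((ub_den hth).mono (l := k) (by omega)).2
  obtain ⟨C₂, c2⟩ := common (k := k) fun z : Fin 3 × Fin 3 =>
    (ub_gi hR hth z.1 z.2).mono (by omega)
  obtain ⟨C₃, c3⟩ := common fun l : Fin (k + 1) => ub_bb hR hth l k (by omega)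
  obtain ⟨C₄, c4⟩ := common fun l : Fin (k + 1) =>
    ub_Lc hR hth (k := k) (by omega) (ub_bb hR hth l (k + 2) (by omega))
  refine ⟨max (max C₁ C₂) (max C₃ C₄), fun n X h0 hB u hu v hv j hj => ?_⟩
  let i : Io J B := (⟨n, X, h0, hB, u, hu⟩, ⟨v, hv⟩)
  exact ⟨(c1 i j hj).trans (le_max_of_le_left (le_max_left _ _)),
    fun a b => (c2 (a, b) i j hj).trans (le_max_of_le_left (le_max_right _ _)), fun l hl =>
      ⟨(c3 ⟨l, by omega⟩ i j hj).trans (le_max_of_le_right (le_max_left _ _)),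
        (c4 ⟨l, by omega⟩ i j hj).trans (le_max_of_le_right (le_max_right _ _))⟩⟩

end Pool.Agent.Lib.MP_1a4aff_gt.I3
end

-- part Pool.Agent.Lib.MP_1a4aff_gt.I3.Jet
section

/-! The local heat invariants are universal polynomials in the curvature. -/

set_option autoImplicit false

open MeasureTheory Set Filter Topology Metric
open scoped ContDiff RealInnerProductSpace

namespace Pool.Agent.Lib.MP_1a4aff_gt.I3

namespace Jet

/-- universal polynomials of integer weight `d` -/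
noncomputable def PZ (d : ℤ) : Submodule ℝ (Idx → ℝ) :=
  Submodule.span ℝ {f | ∃ M : Mon, (wt M : ℤ) = d ∧ f = fun i => i.G.mon M i.u}

theorem PZ_nat (w : ℕ) : PZ w = PP 0 w := by
  unfold PZ PP
  congr 1
  ext f
  simp

theorem wt_append (M M' : Mon) : wt (M ++ M') = wt M + wt M' := by simp [wt]

theorem PZ_mul {d e : ℤ} {f g : Idx → ℝ} (hf : f ∈ PZ d) (hg : g ∈ PZ e) :
    f * g ∈ PZ (d + e) := by
  have h := Submodule.mul_mem_mul hf hg
  unfold PZ at h
  rw [Submodule.span_mul_span] at h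
  refine Submodule.span_mono ?_ h
  rintro _ ⟨_, ⟨M, hM, rfl⟩, _, ⟨M', hM', rfl⟩, rfl⟩
  refine ⟨M ++ M', by rw [wt_append]; push_cast; rw [hM, hM'], ?_⟩
  funext i
  simp [Con.mon]

theorem PZ_const (c : ℝ) : (fun _ : Idx => c) ∈ PZ 0 := by
  have h : (fun i : Idx => i.G.mon [] i.u) ∈ PZ 0 := Submodule.subset_span ⟨[], rfl, rfl⟩
  have h2 := (PZ 0).smul_mem c h
  have e : (fun _ : Idx => c) = c • fun i : Idx => i.G.mon [] i.u := by
    funext i; simp [Con.mon]
  rwa [e]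

theorem PZ_T (I : List (Fin 3)) (a b : Fin 3) :
    (fun i : Idx => i.G.T I a b i.u) ∈ PZ (I.length + 2) := by
  refine Submodule.subset_span ⟨[(I, a, b)], by simp [wt], ?_⟩
  funext i
  simp [Con.mon]

theorem PZ_lin {d : ℤ} {F : E3 → Idx → ℝ} (hl : ∀ i, IsLinearMap ℝ fun x => F x i)
    (h : ∀ c, F (ee c) ∈ PZ d) (x : E3) : F x ∈ PZ d := by
  have e : F x = ∑ c, x c • F (ee c) := by
    funext i
    rw [Finset.sum_apply]
    exact lin_sum_ee (hl i) x
  rw [e]
  exact Submodule.sum_mem _ fun c _ => (PZ d).smul_mem _ (h c)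

theorem PZ_TV' (y z : E3) : ∀ (xs : List E3) (I : List (Fin 3)),
    (fun i : Idx => i.G.TV (I.map ee ++ xs) y z i.u) ∈ PZ (I.length + xs.length + 2)
  | [], I => by
    simp only [List.append_nil, List.length_nil, Nat.cast_zero, add_zero]
    refine PZ_lin (F := fun y i => i.G.TV (I.map ee) y z i.u)
      (fun i => i.G.TV_lin_y _ _ _) (fun a => ?_) y
    exact PZ_lin (F := fun z i => i.G.TV (I.map ee) (ee a) z i.u)
      (fun i => i.G.TV_lin_z _ _ _) (fun b => PZ_T I a b) z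
  | x :: xs, I => by
    refine PZ_lin (F := fun x i => i.G.TV (I.map ee ++ x :: xs) y z i.u)
      (fun i => i.G.TV_lin _ _ _ _ _) (fun c => ?_) x
    have h := PZ_TV' y z xs (I ++ [c])
    have e : (((I ++ [c]).length : ℕ) : ℤ) + xs.length + 2 =
        I.length + ((x :: xs).length : ℕ) + 2 := by
      simp only [List.length_append, List.length_cons, List.length_nil]; push_cast; ring
    rw [e] at h
    simpa only [List.map_append, List.map_cons, List.map_nil, List.append_assoc,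
      List.cons_append, List.nil_append] using h

theorem PZ_TV (xs : List E3) (y z : E3) :
    (fun i : Idx => i.G.TV xs y z i.u) ∈ PZ (xs.length + 2) := by
  simpa using PZ_TV' y z xs []

/-- families of functions on the tangent space -/
abbrev Fam := Idx → E3 → ℝ

/-- smooth near the origin -/
def Sm (f : Fam) : Prop := ∀ i, ∀ᶠ v in 𝓝 (0 : E3), ContDiffAt ℝ ∞ (f i) v

/-- the jets of order at most `m` at the origin are universal polynomials -/
def Jt : ℕ → ℤ → Fam → Prop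
  | 0, d, f => Sm f ∧ (fun i => f i 0) ∈ PZ d
  | m + 1, d, f => (Sm f ∧ (fun i => f i 0) ∈ PZ d) ∧ ∀ c, Jt m (d + 1) fun i => dd c (f i)

variable {m : ℕ} {d e : ℤ} {f g : Fam}

theorem Sm.of {f : Fam} (h : ∀ i, ContDiff ℝ ∞ (f i)) : Sm f :=
  fun i => Eventually.of_forall fun _ => (h i).contDiffAt

theorem Sm.dd (h : Sm f) (c : Fin 3) : Sm fun i => dd c (f i) := fun i =>
  (h i).mono fun _ hv => (hv.fderiv_right (m := ∞) (by simp)).clm_apply contDiffAt_const

theorem Sm.diff (h : Sm f) (i : Idx) : ∀ᶠ v in 𝓝 (0 : E3), DifferentiableAt ℝ (f i) v :=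
  (h i).mono fun _ hv => hv.differentiableAt (by simp)

theorem Sm.mul (hf : Sm f) (hg : Sm g) : Sm fun i v => f i v * g i v := fun i => by
  filter_upwards [hf i, hg i] with v h1 h2 using h1.mul h2

theorem Jt.base : ∀ {m : ℕ}, Jt m d f → Sm f ∧ (fun i => f i 0) ∈ PZ d
  | 0, h => h
  | _ + 1, h => h.1

theorem Jt.sm (h : Jt m d f) : Sm f := h.base.1

theorem Jt.cast (h : Jt m d f) (he : d = e) : Jt m e f := he ▸ h

theorem Jt.pred : ∀ {m : ℕ} {d : ℤ} {f : Fam}, Jt (m + 1) d f → Jt m d f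
  | 0, _, _, h => h.1
  | _ + 1, _, _, h => ⟨h.1, fun c => Jt.pred (h.2 c)⟩

theorem dd_congr {f g : E3 → ℝ} {v : E3} (h : f =ᶠ[𝓝 v] g) (c : Fin 3) :
    dd c f =ᶠ[𝓝 v] dd c g := by
  filter_upwards [h.fderiv (𝕜 := ℝ)] with w hw
  simp only [dd, hw]

theorem base_congr (h : Sm f ∧ (fun i => f i 0) ∈ PZ d) (he : ∀ i, f i =ᶠ[𝓝 0] g i) :
    Sm g ∧ (fun i => g i 0) ∈ PZ d := by
  refine ⟨fun i => ?_, ?_⟩
  · filter_upwards [h.1 i, (he i).eventuallyEq_nhds] with v h1 h2
    exact h1.congr_of_eventuallyEq h2.symm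
  · have e : (fun i => g i 0) = fun i => f i 0 := funext fun i => (he i).self_of_nhds.symm
    rw [e]
    exact h.2

theorem Jt.congr : ∀ {m : ℕ} {d : ℤ} {f g : Fam}, Jt m d f → (∀ i, f i =ᶠ[𝓝 0] g i) → Jt m d g
  | 0, _, _, _, h, he => base_congr h he
  | _ + 1, _, _, _, h, he =>
    ⟨base_congr h.1 he, fun c => Jt.congr (h.2 c) fun i => dd_congr (he i) c⟩

theorem Jt.of_eq (h : Jt m d f) (he : ∀ i v, f i v = g i v) : Jt m d g :=
  h.congr fun i => Eventually.of_forall (he i)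

theorem jt_zero : ∀ (m : ℕ) (d : ℤ), Jt m d fun _ _ => 0
  | 0, d => ⟨Sm.of fun _ => contDiff_const, (PZ d).zero_mem⟩
  | m + 1, d => ⟨⟨Sm.of fun _ => contDiff_const, (PZ d).zero_mem⟩, fun c =>
    (jt_zero m (d + 1)).of_eq fun _ _ => by simp [dd]⟩

theorem jt_const (c : ℝ) : ∀ m : ℕ, Jt m 0 fun _ _ => c
  | 0 => ⟨Sm.of fun _ => contDiff_const, PZ_const c⟩
  | m + 1 => ⟨⟨Sm.of fun _ => contDiff_const, PZ_const c⟩, fun c =>
    (jt_zero m _).of_eq fun _ _ => by simp [dd]⟩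

theorem base_add (h : Sm f ∧ (fun i => f i 0) ∈ PZ d) (h' : Sm g ∧ (fun i => g i 0) ∈ PZ d) :
    (Sm fun i v => f i v + g i v) ∧ (fun i => f i 0 + g i 0) ∈ PZ d := by
  refine ⟨fun i => ?_, (PZ d).add_mem h.2 h'.2⟩
  filter_upwards [h.1 i, h'.1 i] with v h1 h2 using h1.add h2

theorem Jt.add : ∀ {m : ℕ} {d : ℤ} {f g : Fam}, Jt m d f → Jt m d g →
    Jt m d fun i v => f i v + g i v
  | 0, _, _, _, h, h' => base_add h h'
  | _ + 1, _, _, _, h, h' => ⟨base_add h.1 h'.1, fun c =>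
    (Jt.add (h.2 c) (h'.2 c)).congr fun i => by
      filter_upwards [h.1.1.diff i, h'.1.1.diff i] with v h1 h2
      simp [dd, fderiv_fun_add h1 h2]⟩

theorem dd_mul {f g : E3 → ℝ} {v : E3} (hf : DifferentiableAt ℝ f v) (hg : DifferentiableAt ℝ g v)
    (c : Fin 3) : dd c (fun y => f y * g y) v = f v * dd c g v + dd c f v * g v := by
  simp [dd, fderiv_fun_mul hf hg]
  ring

theorem Jt.mul : ∀ {m : ℕ} {d e : ℤ} {f g : Fam}, Jt m d f → Jt m e g →
    Jt m (d + e) fun i v => f i v * g i v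
  | 0, _, _, _, _, h, h' => ⟨h.1.mul h'.1, PZ_mul h.2 h'.2⟩
  | _ + 1, d, e, _, _, h, h' => ⟨⟨h.1.1.mul h'.1.1, PZ_mul h.1.2 h'.1.2⟩, fun c =>
    (((Jt.mul h.pred (h'.2 c)).cast (by ring : d + (e + 1) = d + e + 1)).add
      ((Jt.mul (h.2 c) h'.pred).cast (by ring : d + 1 + e = d + e + 1))).congr fun i => by
      filter_upwards [h.1.1.diff i, h'.1.1.diff i] with v h1 h2
      exact (dd_mul h1 h2 c).symm⟩

theorem Jt.mul0 (h : Jt m 0 f) (h' : Jt m d g) : Jt m d fun i v => f i v * g i v :=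
  (h.mul h').cast (zero_add d)

theorem Jt.cmul (c : ℝ) (h : Jt m d f) : Jt m d fun i v => c * f i v := (jt_const c m).mul0 h

theorem Jt.neg (h : Jt m d f) : Jt m d fun i v => -f i v :=
  (h.cmul (-1)).of_eq fun _ _ => by ring

theorem Jt.sub (h : Jt m d f) (h' : Jt m d g) : Jt m d fun i v => f i v - g i v :=
  (h.add h'.neg).of_eq fun _ _ => by ring

theorem jt_sum {κ : Type} (s : Finset κ) {F : κ → Fam} (h : ∀ a ∈ s, Jt m d (F a)) :
    Jt m d fun i v => ∑ a ∈ s, F a i v := by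
  classical
  induction s using Finset.induction_on with
  | empty => exact (jt_zero m d).of_eq fun _ _ => by simp
  | insert a s ha ih =>
    exact ((h a (Finset.mem_insert_self _ _)).add
      (ih fun b hb => h b (Finset.mem_insert_of_mem hb))).of_eq fun _ _ => by
        rw [Finset.sum_insert ha]

theorem jt_lsum {κ : Type} {F : κ → Fam} : ∀ s : List κ, (∀ a ∈ s, Jt m d (F a)) →
    Jt m d fun i v => (s.map fun a => F a i v).sum
  | [], _ => (jt_zero m d).of_eq fun _ _ => by simp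
  | a :: s, h => ((h a (by simp)).add (jt_lsum s fun b hb => h b (by simp [hb]))).of_eq
    fun _ _ => by simp

theorem cd_coord (c : Fin 3) : ContDiff ℝ ∞ fun v : E3 => v c :=
  (EuclideanSpace.proj c : E3 →L[ℝ] ℝ).contDiff

theorem dd_coord (c c' : Fin 3) (v : E3) : dd c' (fun y : E3 => y c) v = ee c' c := by
  have h : HasFDerivAt (fun y : E3 => y c) (EuclideanSpace.proj c : E3 →L[ℝ] ℝ) v :=
    (EuclideanSpace.proj c : E3 →L[ℝ] ℝ).hasFDerivAt
  rw [dd, h.fderiv]
  rfl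

theorem coord_base (c : Fin 3) (h : Sm f) (d : ℤ) : Jt 0 d fun i v => v c * f i v := by
  refine ⟨(Sm.of (f := fun _ v => v c) fun _ => cd_coord c).mul h, ?_⟩
  have e : (fun i => (0 : E3) c * f i 0) = 0 := by funext i; simp
  rw [e]
  exact (PZ d).zero_mem

theorem coord_dd (c c' : Fin 3) (h : Sm f) (i : Idx) :
    (fun v => ee c' c * f i v + v c * dd c' (f i) v) =ᶠ[𝓝 0] dd c' fun v => v c * f i v := by
  filter_upwards [h.diff i] with v h1
  rw [dd_mul ((cd_coord c).differentiable (by simp) v) h1, dd_coord]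
  ring

theorem Jt.coord (c : Fin 3) : ∀ {m : ℕ} {d : ℤ} {f : Fam}, Jt m (d + 1) f →
    Jt (m + 1) d fun i v => v c * f i v
  | 0, d, _, h => ⟨coord_base c h.1 d, fun c' =>
    ((h.cmul (ee c' c)).add (coord_base c (h.1.dd c') _)).congr (coord_dd c c' h.1)⟩
  | _ + 1, d, _, h => ⟨coord_base c h.1.1 d, fun c' =>
    ((h.cmul (ee c' c)).add (Jt.coord c (h.2 c'))).congr (coord_dd c c' h.1.1)⟩

theorem Sm.ball (h : Sm f) (i : Idx) : ∃ R > 0, ContDiffOn ℝ ∞ (f i) (ball 0 R) := by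
  obtain ⟨R, hR, h1⟩ := Metric.eventually_nhds_iff_ball.1 (h i)
  exact ⟨R, hR, fun v hv => (h1 v hv).contDiffWithinAt⟩

theorem rad_base (a : ℕ) (h : Sm f ∧ (fun i => f i 0) ∈ PZ d) :
    (Sm fun i => rad a (f i)) ∧ (fun i => rad a (f i) 0) ∈ PZ d := by
  refine ⟨fun i => ?_, ?_⟩
  · obtain ⟨R, hR, h1⟩ := h.1.ball i
    filter_upwards [ball_mem_nhds (0 : E3) hR] with v hv
    exact (radv_contDiffOn a h1).contDiffAt (isOpen_ball.mem_nhds hv)
  · have e : (fun i => rad a (f i) 0) = ((a : ℝ) + 1)⁻¹ • fun i => f i 0 :=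
      funext fun i => radv_zero a (f i)
    rw [e]
    exact (PZ d).smul_mem _ h.2

theorem rad_dd (a : ℕ) (c : Fin 3) (h : Sm f) (i : Idx) :
    rad (a + 1) (dd c (f i)) =ᶠ[𝓝 0] dd c (rad a (f i)) := by
  obtain ⟨R, hR, h1⟩ := h.ball i
  filter_upwards [ball_mem_nhds (0 : E3) hR] with v hv
  have h2 : fderiv ℝ (rad a (f i)) v = radv (a + 1) (fderiv ℝ (f i)) v := fderiv_radv a h1 hv
  have hc := UBc.cont_ray (h1.continuousOn_fderiv_of_isOpen isOpen_ball
    (by exact_mod_cast le_top)) hv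
  have hi : IntervalIntegrable (fun s : ℝ => s ^ (a + 1) • fderiv ℝ (f i) (s • v)) volume 0 1 := by
    apply ContinuousOn.intervalIntegrable
    rw [uIcc_of_le zero_le_one]
    exact (continuous_pow _).continuousOn.smul hc
  rw [dd, h2, radv, ContinuousLinearMap.intervalIntegral_apply hi]
  rfl

theorem Jt.rad : ∀ {m : ℕ} {d : ℤ} {f : Fam} (a : ℕ), Jt m d f → Jt m d fun i => rad a (f i)
  | 0, _, _, a, h => rad_base a h
  | _ + 1, _, _, a, h => ⟨rad_base a h.1, fun c =>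
    (Jt.rad (a + 1) (h.2 c)).congr (rad_dd a c h.1.1)⟩

theorem Sm.pos (h : Sm f) (h1 : ∀ i, f i 0 = 1) (i : Idx) : ∀ᶠ v in 𝓝 (0 : E3), 0 < f i v :=
  (h i).self_of_nhds.continuousAt.eventually (eventually_gt_nhds (by rw [h1]; exact one_pos))

theorem rpow_base (h : Sm f) (h1 : ∀ i, f i 0 = 1) (p : ℝ) : Jt 0 0 fun i v => f i v ^ p := by
  refine ⟨fun i => ?_, ?_⟩
  · filter_upwards [h i, h.pos h1 i] with v h2 h3 using h2.rpow_const_of_ne h3.ne'
  · simpa only [h1, Real.one_rpow] using PZ_const 1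

theorem Jt.rpow (h1 : ∀ i, f i 0 = 1) : ∀ {m : ℕ} (p : ℝ), Jt m 0 f → Jt m 0 fun i v => f i v ^ p
  | 0, p, h => rpow_base h.1 h1 p
  | _ + 1, p, h => ⟨rpow_base h.1.1 h1 p, fun c =>
    (((Jt.rpow h1 (p - 1) h.pred).cmul p).mul0 (h.2 c)).congr fun i => by
      filter_upwards [h.1.1.diff i, h.1.1.pos h1 i] with v h2 h3
      rw [dd, dd, (h2.hasFDerivAt.rpow_const (Or.inl h3.ne')).fderiv]
      simp⟩

theorem Jt.inv (h1 : ∀ i, f i 0 = 1) (h : Jt m 0 f) : Jt m 0 fun i v => (f i v)⁻¹ :=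
  (h.rpow h1 (-1)).of_eq fun _ _ => Real.rpow_neg_one _

theorem Jt.sqrt (h1 : ∀ i, f i 0 = 1) (h : Jt m 0 f) : Jt m 0 fun i v => Real.sqrt (f i v) :=
  (h.rpow h1 (1 / 2)).of_eq fun _ _ => (Real.sqrt_eq_rpow _).symm

theorem jt_det {M : Idx → E3 → Matrix (Fin 3) (Fin 3) ℝ} (h : ∀ a b, Jt m 0 fun i v => M i v a b) :
    Jt m 0 fun i v => (M i v).det := by
  have t : ∀ a b c, Jt m 0 fun i v => M i v 0 a * M i v 1 b * M i v 2 c := fun a b c =>
    ((h 0 a).mul0 (h 1 b)).mul0 (h 2 c)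
  exact ((((((t 0 1 2).sub (t 0 2 1)).sub (t 1 0 2)).add (t 1 2 0)).add (t 2 0 1)).sub
    (t 2 1 0)).of_eq fun _ _ => (Matrix.det_fin_three _).symm

theorem jt_adj {M : Idx → E3 → Matrix (Fin 3) (Fin 3) ℝ} (h : ∀ a b, Jt m 0 fun i v => M i v a b)
    (a b : Fin 3) : Jt m 0 fun i v => (M i v).adjugate a b := by
  refine (jt_det (M := fun i v => (M i v).updateRow b (Pi.single a 1)) fun a' b' => ?_).of_eq
    fun _ _ => (Matrix.adjugate_apply _ _ _).symm
  by_cases hb : a' = b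
  · subst hb
    exact (jt_const ((Pi.single a 1 : Fin 3 → ℝ) b') m).of_eq fun _ _ => by
      rw [Matrix.updateRow_self]
  · exact (h a' b').of_eq fun _ _ => by rw [Matrix.updateRow_ne hb]

theorem jt_cr {p : Idx → E3 → E3} (hp : ∀ a, Jt m e fun i v => p i v a) (hg : Jt m d g) {w : ℤ}
    (hw : e + d = w + 1) (b : Fin 3) : Jt (m + 1) w fun i v => cr v (p i v) b * g i v := by
  have t : ∀ j k, Jt (m + 1) w fun i v => v j * (p i v k * g i v) := fun j k =>
    (((hp k).mul hg).cast hw).coord j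
  fin_cases b
  · exact ((t 1 2).sub (t 2 1)).of_eq fun i v => by
      change _ = cr v (p i v) 0 * g i v
      rw [cr0]; ring
  · exact ((t 2 0).sub (t 0 2)).of_eq fun i v => by
      change _ = cr v (p i v) 1 * g i v
      rw [cr1]; ring
  · exact ((t 0 1).sub (t 1 0)).of_eq fun i v => by
      change _ = cr v (p i v) 2 * g i v
      rw [cr2]; ring

theorem integral_comp {F : E3 → E3} (hF : Continuous F) (v : E3) (a : Fin 3) :
    (∫ s in (0 : ℝ)..1, F (s • v)) a = rad 0 (fun y => F y a) v := by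
  have hi : IntervalIntegrable (fun s : ℝ => F (s • v)) volume 0 1 :=
    (hF.comp (continuous_id.smul continuous_const)).intervalIntegrable _ _
  have h := (EuclideanSpace.proj a : E3 →L[ℝ] ℝ).intervalIntegral_comp_comm hi
  simp only [rad, pow_zero, one_mul]
  exact h.symm

theorem length_vs (β : E3) : ∀ xs : List E3, ∀ l ∈ vs β xs, l.length = xs.length
  | [], l, hl => by simp [vs] at hl
  | x :: xs, l, hl => by
    simp only [vs, List.mem_cons, List.mem_map] at hl
    rcases hl with rfl | ⟨l', hl', rfl⟩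
    · rfl
    · simp [length_vs β xs l' hl']

theorem cd_comp {F : E3 → E3} (hF : ContDiff ℝ ∞ F) (a : Fin 3) : ContDiff ℝ ∞ fun v => F v a :=
  (cd_coord a).comp hF

/-- the simultaneous claim -/
def Claim (m : ℕ) : Prop :=
  (∀ c a, Jt m 0 fun i v => i.G.th i.u v (ee c) a) ∧
  (∀ c a, Jt m 1 fun i v => i.G.om i.u v (ee c) a) ∧
  ∀ xs y z, Jt m ((xs : List E3).length + 2) fun i v => i.G.TV xs y z (i.G.Ex i.u v)

theorem TV_base (xs : List E3) (y z : E3) :
    Jt 0 (xs.length + 2) fun i v => i.G.TV xs y z (i.G.Ex i.u v) := by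
  refine ⟨Sm.of fun i => (i.G.contDiff_TV xs y z).comp (i.G.contDiff_Ex i.u), ?_⟩
  simp only [Flo.Ex_zero]
  exact PZ_TV xs y z

theorem claim_zero (hR : RadStmt) : Claim 0 := by
  refine ⟨fun c a => ⟨Sm.of fun i => cd_comp ((i.G.contDiff_th i.u).clm_apply contDiff_const) a,
    ?_⟩, fun c a => ⟨Sm.of fun i => cd_comp ((i.G.contDiff_om i.u).clm_apply contDiff_const) a,
    ?_⟩, TV_base⟩
  · have e : (fun i : Idx => i.G.th i.u 0 (ee c) a) = fun _ => ee c a := funext fun i => by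
      rw [(hR _ i.G.toFlo i.u i.hu).2.2.2.1]; rfl
    rw [e]
    exact PZ_const _
  · have e : (fun i : Idx => i.G.om i.u 0 (ee c) a) = 0 := funext fun i => by
      rw [(hR _ i.G.toFlo i.u i.hu).2.2.2.2.1]; rfl
    rw [e]
    exact (PZ 1).zero_mem

theorem dd_TV (hS : StrStmt) (hB : BiaStmt) (i : Idx) (xs : List E3) (y z : E3) (c : Fin 3)
    (v : E3) : dd c (fun v => i.G.TV xs y z (i.G.Ex i.u v)) v =
      ∑ j, i.G.th i.u v (ee c) j * i.G.TV (ee j :: xs) y z (i.G.Ex i.u v) +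
      ∑ j, i.G.om i.u v (ee c) j * (((vs (ee j) xs).map fun l => i.G.TV l y z (i.G.Ex i.u v)).sum +
        i.G.TV xs (cr (ee j) y) z (i.G.Ex i.u v) + i.G.TV xs y (cr (ee j) z) (i.G.Ex i.u v)) := by
  have hm := i.G.Ex_mem i.u i.hu v
  have h1 := (hS _ i.G.toCon E3 (i.G.Ex i.u) univ isOpen_univ (i.G.contDiff_Ex i.u).contDiffOn
    (fun w _ => i.G.Ex_mem i.u i.hu w) v (mem_univ v)).1 (ee c)
  have h2 : dd c (fun v => i.G.TV xs y z (i.G.Ex i.u v)) v =
      fderiv ℝ (i.G.TV xs y z) (i.G.Ex i.u v) (fderiv ℝ (i.G.Ex i.u) v (ee c)) := by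
    rw [dd, fderiv_fun_comp v ((i.G.contDiff_TV xs y z).differentiable (by simp) _)
      ((i.G.contDiff_Ex i.u).differentiable (by simp) v)]
    rfl
  rw [h2, h1, map_add]
  congr 1
  · exact lin_sum_ee (i.G.HD_lin (i.G.TV xs y z) (i.G.Ex i.u v)) _
  · have h3 := clm_sum_ee (fderiv ℝ (i.G.TV xs y z) (i.G.Ex i.u v) ∘L vertL (i.G.Ex i.u v))
      (i.G.om i.u v (ee c))
    refine h3.trans (Finset.sum_congr rfl fun j _ => ?_)
    rw [smul_eq_mul, ← (hB _ i.G.toCon _ hm).2.2.2.1 (ee j) xs y z]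
    rfl

theorem claim_succ (hS : StrStmt) (hR : RadStmt) (hB : BiaStmt) (h : Claim m) : Claim (m + 1) := by
  obtain ⟨h1, h2, h3⟩ := h
  refine ⟨fun c a => ?_, fun c a => ?_, fun xs y z => ⟨TV_base xs y z, fun c => ?_⟩⟩
  · have t := (jt_cr (p := fun i v => i.G.om i.u v (ee c)) (h2 c) (jt_const 1 m)
      (w := 0) (by ring) a).neg.rad 0
    refine ((jt_const (ee c a) _).add t).of_eq fun i v => ?_
    have hc : Continuous fun y => cr (i.G.om i.u y (ee c)) y :=
      (cr.continuous.comp ((i.G.contDiff_om i.u).continuous.clm_apply continuous_const)).clm_apply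
        continuous_id
    rw [(((hR _ i.G.toFlo i.u i.hu).2.2.2.2.2.1 v).2.2.2.2.2 (ee c)).1, PiLp.add_apply,
      integral_comp hc]
    congr 2
    funext y
    rw [cr_comm]
    simp
  · have t := (jt_sum Finset.univ fun b _ => jt_cr (p := fun i v => i.G.th i.u v (ee c)) (h1 c)
      (h3 [] (ee b) (ee a)) (w := 1) (by simp) b).rad 0
    refine t.neg.of_eq fun i v => ?_
    have hc : Continuous fun y => i.G.N (i.G.Ex i.u y) (cr y (i.G.th i.u y (ee c))) :=
      (i.G.smN.continuous.comp (i.G.contDiff_Ex i.u).continuous).clm_apply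
        (cr.continuous.clm_apply ((i.G.contDiff_th i.u).continuous.clm_apply continuous_const))
    rw [(((hR _ i.G.toFlo i.u i.hu).2.2.2.2.2.1 v).2.2.2.2.2 (ee c)).2, PiLp.neg_apply,
      integral_comp hc]
    congr 2
    funext y
    rw [← inner_ee]
    exact (lin_sum_ee (i.G.TV_lin_y [] (ee a) (i.G.Ex i.u y)) _).symm
  · refine ((jt_sum Finset.univ fun j _ => ((h1 c j).mul0 (h3 (ee j :: xs) y z)).cast ?_).add
      (jt_sum Finset.univ fun j _ => ((h2 c j).mul (((jt_lsum (vs (ee j) xs) fun l hl =>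
        (h3 l y z).cast (by rw [length_vs _ _ l hl])).add (h3 xs _ z)).add (h3 xs y _))).cast
          (by ring))).of_eq fun i v => (dd_TV hS hB i xs y z c v).symm
    simp only [List.length_cons]; push_cast; ring

theorem claim (hS : StrStmt) (hR : RadStmt) (hB : BiaStmt) : ∀ m, Claim m
  | 0 => claim_zero hR
  | m + 1 => claim_succ hS hR hB (claim hS hR hB m)

section Heat

variable (hR : RadStmt) (hC : ∀ m, Claim m)

include hR in
theorem den_zero (i : Idx) : i.G.den i.u 0 = 1 := by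
  rw [Flo.den_eq_det, (hR _ i.G.toFlo i.u i.hu).2.2.2.1]
  simp [ContinuousLinearMap.det]

include hC in
theorem jt_thM (m : ℕ) (a b : Fin 3) : Jt m 0 fun i v => i.G.thM i.u v a b := (hC m).1 b a

include hC in
theorem jt_den (m : ℕ) : Jt m 0 fun i v => i.G.den i.u v := jt_det (jt_thM hC m)

include hR hC

theorem jt_gi (m : ℕ) (a b : Fin 3) : Jt m 0 fun i v => i.G.gi i.u a b v := by
  have hM : ∀ a b, Jt m 0 fun i v => ((i.G.thM i.u v).transpose * i.G.thM i.u v) a b :=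
    fun a b => (jt_sum Finset.univ fun j _ => (jt_thM hC m j a).mul0 (jt_thM hC m j b)).of_eq
      fun _ _ => by simp [Matrix.mul_apply]
  have h1 : ∀ i : Idx, ((i.G.thM i.u 0).transpose * i.G.thM i.u 0).det = 1 := fun i => by
    have := den_zero hR i
    rw [Flo.den] at this
    rw [Matrix.det_mul, Matrix.det_transpose, this, one_mul]
  refine (((jt_det hM).inv h1).mul0 (jt_adj hM a b)).of_eq fun i v => ?_
  rw [Flo.gi, Matrix.inv_def, Ring.inverse_eq_inv', Matrix.smul_apply, smul_eq_mul]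

theorem jt_Lap (h : ∀ m, Jt m d f) (m : ℕ) : Jt m (d + 2) fun i => i.G.Lap i.u (f i) :=
  (((jt_den hC m).inv (den_zero hR)).mul0 (jt_sum Finset.univ fun a _ =>
    jt_sum Finset.univ fun b _ => ((((jt_den hC (m + 1)).mul0 (jt_gi hR hC (m + 1) a b)).mul0
      ((h (m + 2)).2 b)).2 a))).cast (by ring)

theorem jt_Lc (h : ∀ m, Jt m d f) (m : ℕ) : Jt m (d + 2) fun i => i.G.Lc i.u (f i) := by
  have hs : ∀ m, Jt m 0 fun i v => Real.sqrt (i.G.den i.u v) := fun m =>
    (jt_den hC m).sqrt (den_zero hR)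
  have h1 : ∀ i : Idx, Real.sqrt (i.G.den i.u 0) = 1 := fun i => by
    rw [den_zero hR, Real.sqrt_one]
  exact (hs m).mul0 (jt_Lap hR hC (f := fun i y => f i y / Real.sqrt (i.G.den i.u y))
    (fun m => (((hs m).inv h1).mul0 (h m)).of_eq fun _ _ => by ring) m)

theorem jt_bb : ∀ (k m : ℕ), Jt m (2 * k : ℕ) fun i => i.G.bb i.u k
  | 0, m => jt_const 1 m
  | k + 1, m => ((jt_Lc hR hC (jt_bb k) m).rad k).cast (by push_cast; ring)

end Heat

end Jet

theorem jet_holds (hS : StrStmt) (hR : RadStmt) (hB : BiaStmt) (_hM : MPStmt) : JetStmt := by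
  intro k
  rw [← Jet.PZ_nat]
  exact (Jet.jt_bb hR (Jet.claim hS hR hB) k 0).2

end Pool.Agent.Lib.MP_1a4aff_gt.I3
end
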