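import Pool.Agent.Lib.MP_1a4aff_gt.I3.Stm
import Pool.Agent.Lib.MP_1a4aff_gt.I3.BrB

-- part Pool.Agent.Lib.MP_1a4aff_gt.I3.LemA
section

/-! Lower bound for the heat kernel on the diagonal without injectivity radius. -/

set_option autoImplicit false

open MeasureTheory Set Filter Topology Metric
open scoped ContDiff RealInnerProductSpace ENNReal

namespace Pool.Agent.Lib.MP_1a4aff_gt.I3

namespace LemA

/-- a smooth convex cut-off of the identity -/
theorem exists_beta {η : ℝ} (hη : 0 < η) : ∃ β : ℝ → ℝ, ContDiff ℝ ∞ β ∧ (∀ x, 0 ≤ deriv β x) ∧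
    (∀ x, 0 ≤ deriv (deriv β) x) ∧ (∀ x ≤ η, β x = 0) ∧ (∀ x, 0 ≤ β x) ∧
    (∀ x, x - 2 * η ≤ β x) ∧ ∀ x, 0 ≤ x → β x ≤ x := by
  set φ : ℝ → ℝ := fun y => Real.smoothTransition (y / η - 1) with hφ
  have hs : ContDiff ℝ ∞ φ :=
    Real.smoothTransition.contDiff.comp ((contDiff_id.div_const η).sub contDiff_const)
  have hc := hs.continuous
  set β : ℝ → ℝ := fun x => ∫ y in η..x, φ y with hβ
  have hd : ∀ x, HasDerivAt β (φ x) x := fun x => (hc.integral_hasStrictDerivAt η x).hasDerivAt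
  have hd' : deriv β = φ := funext fun x => (hd x).deriv
  have h0 : ∀ x, 0 ≤ φ x := fun x => Real.smoothTransition.nonneg _
  have h1 : ∀ x, φ x ≤ 1 := fun x => Real.smoothTransition.le_one _
  have hz : ∀ x ≤ η, β x = 0 := fun x hx => by
    have : β x = ∫ _ in η..x, (0 : ℝ) := by
      refine intervalIntegral.integral_congr fun y hy => ?_
      rw [uIcc_of_ge hx] at hy
      refine Real.smoothTransition.zero_of_nonpos ?_
      have := (div_le_one hη).2 hy.2
      linarith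
    simpa using this
  have hm : Monotone β := monotone_of_deriv_nonneg (fun x => (hd x).differentiableAt)
    fun x => by rw [hd']; exact h0 x
  have hp : ∀ x, 0 ≤ β x := fun x => by
    rcases le_total x η with h | h
    · exact (hz x h).ge
    · exact (hz η le_rfl).ge.trans (hm h)
  refine ⟨β, contDiff_infty_iff_deriv.2 ⟨fun x => (hd x).differentiableAt, by rw [hd']; exact hs⟩,
    fun x => by rw [hd']; exact h0 x, fun x => ?_, hz, hp, fun x => ?_, fun x hx => ?_⟩
  · rw [hd']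
    refine Monotone.deriv_nonneg fun a b hab => Real.smoothTransition.monotone ?_
    have := div_le_div_of_nonneg_right hab hη.le
    linarith
  · rcases le_total x (2 * η) with h | h
    · linarith [hp x]
    · have e1 : β x - β (2 * η) = ∫ y in (2 * η)..x, φ y :=
        intervalIntegral.integral_interval_sub_left (hc.intervalIntegrable _ _)
          (hc.intervalIntegrable _ _)
      have e2 : ∫ y in (2 * η)..x, φ y = ∫ _ in (2 * η)..x, (1 : ℝ) := by
        refine intervalIntegral.integral_congr fun y hy => ?_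
        rw [uIcc_of_le h] at hy
        refine Real.smoothTransition.one_of_one_le ?_
        have := (le_div_iff₀ hη).2 hy.1
        linarith
      simp only [intervalIntegral.integral_const, smul_eq_mul, mul_one] at e2
      linarith [hp (2 * η)]
  · have hm' : Monotone fun x => x - β x :=
      monotone_of_deriv_nonneg (fun x => ((hasDerivAt_id' x).sub (hd x)).differentiableAt)
        fun x => by
          rw [((hasDerivAt_id' x).fun_sub (hd x)).deriv]
          linarith [h1 x]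
    have := hm' hx
    simp only [hz 0 hη.le] at this
    linarith

theorem gs_pos {s : ℝ} (hs : 0 < s) (v : E3) : 0 < gs s v := by
  unfold gs
  have := Real.pi_pos
  positivity

theorem gs_scale {s : ℝ} (hs : 0 < s) (v : E3) :
    gs s v = (√s ^ 3)⁻¹ * gs 1 ((√s)⁻¹ • v) := by
  have hp := Real.pi_pos
  have h1 : (4 * Real.pi * s) ^ (-(3 / 2) : ℝ) =
      (√s ^ 3)⁻¹ * (4 * Real.pi * 1) ^ (-(3 / 2) : ℝ) := by
    rw [mul_one, Real.mul_rpow (by positivity) hs.le, mul_comm, Real.sqrt_eq_rpow,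
      ← Real.rpow_natCast, ← Real.rpow_mul hs.le, ← Real.rpow_neg hs.le]
    norm_num
  have h2 : ‖(√s)⁻¹ • v‖ ^ 2 / (4 * 1) = ‖v‖ ^ 2 / (4 * s) := by
    rw [norm_smul, mul_pow, norm_inv, Real.norm_of_nonneg (Real.sqrt_nonneg s), inv_pow,
      Real.sq_sqrt hs.le]
    field_simp
  unfold gs
  rw [h1, h2, mul_assoc]

theorem integrable_exp {b : ℝ} (hb : 0 < b) :
    Integrable fun v : E3 => Real.exp (-b * ‖v‖ ^ 2) := by
  refine Integrable.of_integral_ne_zero ?_
  rw [GaussianFourier.integral_rexp_neg_mul_sq_norm hb]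
  have := Real.pi_pos
  positivity

theorem continuous_gs : Continuous (gs 1) := by
  unfold gs
  fun_prop

theorem integrable_gs (a b : ℝ) : Integrable fun y : E3 => gs 1 y * (a + b * ‖y‖) := by
  have hp := Real.pi_pos
  refine Integrable.mono'
    (((integrable_exp (b := 1 / 8) (by norm_num)).const_mul
      ((4 * Real.pi * 1) ^ (-(3 / 2) : ℝ) * (|a| + 2 * |b|))))
    (continuous_gs.mul (by fun_prop)).aestronglyMeasurable (ae_of_all _ fun y => ?_)
  have h1 : 1 + ‖y‖ ^ 2 / 8 ≤ Real.exp (‖y‖ ^ 2 / 8) := by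
    linarith [Real.add_one_le_exp (‖y‖ ^ 2 / 8)]
  have h2 : |a + b * ‖y‖| ≤ (|a| + 2 * |b|) * Real.exp (‖y‖ ^ 2 / 8) := by
    have h3 : |a + b * ‖y‖| ≤ |a| + |b| * ‖y‖ := by
      have := abs_add_le a (b * ‖y‖)
      rwa [abs_mul, abs_norm] at this
    have h4 : ‖y‖ ≤ 2 * Real.exp (‖y‖ ^ 2 / 8) := by nlinarith [sq_nonneg (‖y‖ - 2)]
    have h5 : 1 ≤ Real.exp (‖y‖ ^ 2 / 8) := by nlinarith [sq_nonneg ‖y‖]
    nlinarith [mul_le_mul_of_nonneg_left h4 (abs_nonneg b),
      mul_le_mul_of_nonneg_left h5 (abs_nonneg a)]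
  have h6 : Real.exp (-(‖y‖ ^ 2 / (4 * 1))) * Real.exp (‖y‖ ^ 2 / 8) =
      Real.exp (-(1 / 8) * ‖y‖ ^ 2) := by
    rw [← Real.exp_add]
    congr 1
    ring
  rw [Real.norm_eq_abs, abs_mul, abs_of_pos (gs_pos one_pos y), ← h6]
  unfold gs
  have h7 : 0 ≤ (4 * Real.pi * 1) ^ (-(3 / 2) : ℝ) * Real.exp (-(‖y‖ ^ 2 / (4 * 1))) := by
    positivity
  calc _ ≤ (4 * Real.pi * 1) ^ (-(3 / 2) : ℝ) * Real.exp (-(‖y‖ ^ 2 / (4 * 1))) *
        ((|a| + 2 * |b|) * Real.exp (‖y‖ ^ 2 / 8)) := mul_le_mul_of_nonneg_left h2 h7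
    _ = _ := by ring

/-- the rescaled error -/
noncomputable def err (η A a : ℝ) (y : E3) : ℝ :=
  2 * min (2 * η * a ^ 3) (3 * gs 1 y) + gs 1 y * (A * a ^ 2 + A * a * ‖y‖)

theorem continuous_err (η A a : ℝ) : Continuous (err η A a) := by
  have := continuous_gs
  unfold err
  fun_prop

theorem err_le {η A a : ℝ} (hη : 0 ≤ η) (hA : 0 ≤ A) (h0 : 0 ≤ a) (h1 : a ≤ 1) (y : E3) :
    ‖err η A a y‖ ≤ gs 1 y * ((6 + A) + A * ‖y‖) := by
  have hg := gs_pos one_pos y
  have h2 : 0 ≤ min (2 * η * a ^ 3) (3 * gs 1 y) := le_min (by positivity) (by positivity)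
  have h3 := min_le_right (2 * η * a ^ 3) (3 * gs 1 y)
  have h4 : A * a ^ 2 + A * a * ‖y‖ ≤ A + A * ‖y‖ := by
    have : a ^ 2 ≤ 1 := by nlinarith
    have h5 := mul_le_mul_of_nonneg_left this hA
    have h6 := mul_le_mul_of_nonneg_left h1 (mul_nonneg hA (norm_nonneg y))
    nlinarith
  have h7 := mul_le_mul_of_nonneg_left h4 hg.le
  unfold err
  rw [Real.norm_of_nonneg (by positivity)]
  nlinarith

theorem integrable_err {η A a : ℝ} (hη : 0 ≤ η) (hA : 0 ≤ A) (h0 : 0 ≤ a) (h1 : a ≤ 1) :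
    Integrable (err η A a) :=
  (integrable_gs (6 + A) A).mono' (continuous_err η A a).aestronglyMeasurable
    (ae_of_all _ (err_le hη hA h0 h1))

theorem tendsto_err {η A : ℝ} (hη : 0 ≤ η) (hA : 0 ≤ A) :
    Tendsto (fun s => ∫ y, err η A (√s) y) (𝓝[>] 0) (𝓝 0) := by
  have h := tendsto_integral_filter_of_dominated_convergence (l := 𝓝[>] (0 : ℝ)) (μ := volume)
    (F := fun s y => err η A (√s) y) (f := fun _ => (0 : ℝ))
    (fun y => gs 1 y * ((6 + A) + A * ‖y‖))
    (Eventually.of_forall fun s => (continuous_err η A _).aestronglyMeasurable)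
    (by
      filter_upwards [Ioo_mem_nhdsGT one_pos] with s hs
      exact ae_of_all _ (err_le hη hA (Real.sqrt_nonneg s) (Real.sqrt_le_one.2 hs.2.le)))
    (integrable_gs (6 + A) A)
    (ae_of_all _ fun y => by
      have hc : Continuous fun s : ℝ => err η A (√s) y := by
        unfold err
        fun_prop
      have h0 : err η A (√0) y = 0 := by
        have := gs_pos one_pos y
        simp [err, this.le]
      have := (hc.tendsto 0).mono_left (nhdsWithin_le_nhds (s := Ioi 0))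
      rwa [h0] at this)
  simpa using h

/-- an `L¹` criterion for approximate identities -/
theorem tendsto_init {η A T : ℝ} (hη : 0 ≤ η) (hA : 0 ≤ A) (hT : 0 < T) {f : ℝ → E3 → ℝ}
    (h : ∀ s ∈ Ioo 0 T, ∀ v, |f s v| ≤
      2 * min (2 * η) (3 * gs s v) + gs s v * (A * s + A * ‖v‖)) :
    Tendsto (fun s => ∫ v, |f s v|) (𝓝[>] 0) (𝓝 0) := by
  refine tendsto_of_tendsto_of_tendsto_of_le_of_le' tendsto_const_nhds (tendsto_err hη hA)
    (Eventually.of_forall fun s => integral_nonneg fun v => abs_nonneg _) ?_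
  filter_upwards [Ioo_mem_nhdsGT one_pos, Ioo_mem_nhdsGT hT] with s hs hs'
  have ha : 0 < √s := Real.sqrt_pos.2 hs.1
  have hi := integrable_err hη hA ha.le (Real.sqrt_le_one.2 hs.2.le)
  have e : ∫ v : E3, (√s ^ 3)⁻¹ * err η A (√s) ((√s)⁻¹ • v) = ∫ y, err η A (√s) y := by
    rw [integral_const_mul, Measure.integral_comp_smul, finrank_euclideanSpace_fin, inv_pow, inv_inv,
      abs_of_pos (by positivity), smul_eq_mul, ← mul_assoc, inv_mul_cancel₀ (by positivity),
      one_mul]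
  rw [← e]
  refine integral_mono_of_nonneg (ae_of_all _ fun v => abs_nonneg _)
    ((hi.comp_smul (inv_ne_zero ha.ne')).const_mul _) (ae_of_all _ fun v => ?_)
  refine (h s hs' v).trans (le_of_eq ?_)
  have h3 : (0 : ℝ) ≤ (√s ^ 3)⁻¹ := by positivity
  have e1 : min (2 * η) (3 * gs s v) =
      (√s ^ 3)⁻¹ * min (2 * η * √s ^ 3) (3 * gs 1 ((√s)⁻¹ • v)) := by
    rw [mul_min_of_nonneg _ _ h3, gs_scale hs.1 v]
    congr 1
    · field_simp
    · ring
  have e2 : √s * ‖(√s)⁻¹ • v‖ = ‖v‖ := by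
    rw [norm_smul, norm_inv, Real.norm_of_nonneg ha.le, ← mul_assoc, mul_inv_cancel₀ ha.ne', one_mul]
  simp only [err]
  rw [e1, Real.sq_sqrt hs.1.le, mul_assoc A, e2, gs_scale hs.1 v]
  ring

theorem rpow_le {t : ℝ} (h0 : 0 < t) (h1 : t ≤ 1) : (4 * Real.pi * t) ^ (3 / 2 : ℝ) ≤ 64 * t := by
  have hp := Real.pi_pos
  have hp4 := Real.pi_le_four
  have h2 : 4 * Real.pi * t ≤ 16 * t := by nlinarith
  have h3 : (4 * Real.pi * t) ^ (3 / 2 : ℝ) = 4 * Real.pi * t * √(4 * Real.pi * t) := by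
    rw [Real.sqrt_eq_rpow, ← Real.rpow_one_add' (by positivity) (by norm_num)]
    norm_num
  have h4 : √(4 * Real.pi * t) ≤ 4 := Real.sqrt_le_iff.2 ⟨by norm_num, by nlinarith⟩
  rw [h3]
  calc _ ≤ 16 * t * 4 := mul_le_mul h2 h4 (Real.sqrt_nonneg _) (by positivity)
    _ = _ := by ring

theorem gs_small (N : ℕ) {s : ℝ} (h0 : 0 < s) (h1 : s ≤ 1) {v : E3} (hv : 1 / 8 ≤ ‖v‖) :
    gs s v ≤ (N + 2).factorial * 256 ^ (N + 2) * s ^ N := by
  have hp := Real.pi_gt_three
  have a1 : (4 * Real.pi * s) ^ (-(3 / 2) : ℝ) ≤ (s ^ 2)⁻¹ := by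
    calc _ ≤ s ^ (-(3 / 2) : ℝ) :=
          Real.rpow_le_rpow_of_nonpos h0 (by nlinarith) (by norm_num)
      _ ≤ s ^ (-2 : ℝ) := Real.rpow_le_rpow_of_exponent_ge h0 h1 (by norm_num)
      _ = _ := by rw [Real.rpow_neg h0.le]; norm_num
  have a2 : Real.exp (-(‖v‖ ^ 2 / (4 * s))) ≤ (N + 2).factorial * (256 * s) ^ (N + 2) := by
    have b1 : (256 * s)⁻¹ ≤ ‖v‖ ^ 2 / (4 * s) := by
      rw [inv_eq_one_div, div_le_div_iff₀ (by positivity) (by positivity)]
      nlinarith [mul_le_mul hv hv (by norm_num) (norm_nonneg v)]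
    have b2 := (Real.pow_div_factorial_le_exp _ (by positivity : 0 ≤ (256 * s)⁻¹) (N + 2)).trans
      (Real.exp_le_exp.2 b1)
    rw [Real.exp_neg]
    refine (inv_anti₀ (by positivity) b2).trans (le_of_eq ?_)
    rw [inv_pow]
    field_simp
  unfold gs
  calc _ ≤ (s ^ 2)⁻¹ * ((N + 2).factorial * (256 * s) ^ (N + 2)) :=
        mul_le_mul a1 a2 (by positivity) (by positivity)
    _ = _ := by rw [mul_pow]; field_simp; ring

theorem Lap_congr {n : ℕ} (X : Flo n) (u : Fr n) {f g : E3 → ℝ} {v : E3} (h : f =ᶠ[𝓝 v] g) :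
    X.Lap u f v = X.Lap u g v := by
  unfold Flo.Lap
  congr 1
  refine Finset.sum_congr rfl fun i _ => Finset.sum_congr rfl fun j _ => ?_
  unfold dd
  congr 1
  refine EventuallyEq.fderiv_eq ?_
  filter_upwards [h.fderiv (𝕜 := ℝ)] with y hy
  rw [hy]

theorem Lap_zero {n : ℕ} (X : Flo n) (u : Fr n) (v : E3) : X.Lap u (fun _ => 0) v = 0 := by
  simp [Flo.Lap, dd]

theorem sum_near {N : ℕ} {b : ℕ → ℝ} {C s : ℝ} (hb : b 0 = 1) (hC : ∀ l ≤ N, |b l| ≤ C)
    (h0 : 0 < s) (h1 : s ≤ 1) :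
    |∑ k ∈ Finset.range (N + 1), b k * s ^ k + -(2 * C) * s ^ (N + 1) - 1| ≤ (N + 2) * C * s := by
  have hC0 : 0 ≤ C := (abs_nonneg _).trans (hC 0 (Nat.zero_le _))
  have hp : ∀ k, s ^ (k + 1) ≤ s := fun k => by
    rw [pow_succ]
    exact mul_le_of_le_one_left h0.le (pow_le_one₀ h0.le h1)
  have e : ∑ k ∈ Finset.range (N + 1), b k * s ^ k + -(2 * C) * s ^ (N + 1) - 1 =
      ∑ k ∈ Finset.range N, b (k + 1) * s ^ (k + 1) + -(2 * C) * s ^ (N + 1) := by
    rw [Finset.sum_range_succ', hb]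
    ring
  have h2 : |∑ k ∈ Finset.range N, b (k + 1) * s ^ (k + 1)| ≤ N * (C * s) := by
    refine (Finset.abs_sum_le_sum_abs _ _).trans ?_
    have := Finset.sum_le_card_nsmul (Finset.range N) (fun k => |b (k + 1) * s ^ (k + 1)|) (C * s)
      fun k hk => by
        rw [abs_mul, abs_of_pos (pow_pos h0 _)]
        exact mul_le_mul (hC _ (Finset.mem_range.1 hk)) (hp k) (by positivity) hC0
    simpa using this
  have h3 : |-(2 * C) * s ^ (N + 1)| ≤ 2 * C * s := by
    rw [abs_mul, abs_neg, abs_of_nonneg (by positivity), abs_of_pos (pow_pos h0 _)]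
    exact mul_le_mul_of_nonneg_left (hp N) (by positivity)
  rw [e]
  refine (abs_add_le _ _).trans ?_
  nlinarith

theorem sqrt_facts {d : ℝ} (h1 : 1 / 2 ≤ d) (h2 : d ≤ 2) :
    1 / 2 ≤ √d ∧ √d ≤ 2 ∧ |√d - 1| ≤ |d - 1| ∧ √d * √d = d := by
  have h0 : 0 ≤ d := by linarith
  have e := Real.mul_self_sqrt h0
  have hs := Real.sqrt_nonneg d
  refine ⟨Real.le_sqrt_of_sq_le (by linarith), Real.sqrt_le_iff.2 ⟨by norm_num, by linarith⟩, ?_, e⟩
  have : d - 1 = (√d - 1) * (√d + 1) := by nlinarith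
  rw [this, abs_mul, abs_of_pos (by linarith : 0 < √d + 1)]
  exact le_mul_of_one_le_right (abs_nonneg _) (by linarith)

end LemA

open LemA in
theorem lemA_holds (hR : RadStmt) (hM : MPStmt) (hU : UB2Stmt) (hC : CmpStmt) : LemAStmt := by
  refine ⟨Real.exp (-9) / 4, by positivity, fun N => ?_⟩
  obtain ⟨J, hJ⟩ := hU (N + 1)
  refine ⟨J, fun B => ?_⟩
  obtain ⟨C0, hC0⟩ := hJ B
  set C1 : ℝ := max C0 1 with hC1
  have hC11 : 1 ≤ C1 := le_max_right _ _
  have hC01 : C0 ≤ C1 := le_max_left _ _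
  set A : ℝ := (N + 2) * C1 with hA
  have hA2 : 2 * C1 ≤ A := by
    have : (0 : ℝ) ≤ N := Nat.cast_nonneg N
    nlinarith
  have hA0 : 0 < A := by linarith
  set E : ℝ := 3 * ((N + 2).factorial * 256 ^ (N + 2) * 2 ^ N) with hE
  have hE0 : 0 < E := by positivity
  refine ⟨2 * C1 + 256 * E, min (1 / 600) (1 / (4 * A)), by positivity, ?_⟩
  intro n G P hB0 hB u hu t ht htt
  have ht1 : t ≤ 1 / 600 := htt.trans (min_le_left _ _)
  have ht2 : A * (2 * t) ≤ 1 / 2 := by
    have := (le_div_iff₀ (by positivity)).1 (htt.trans (min_le_right _ _))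
    linarith
  obtain ⟨-, -, -, hth0, -, -, hden⟩ := hR n G.toFlo u hu
  have hd : ∀ v ∈ ball (0 : E3) (1 / 4), 1 / 2 ≤ G.den u v ∧ G.den u v ≤ 2 := fun v hv =>
    (hden hB0 v (mem_ball_zero_iff.1 hv).le).2.2
  have hd0 : G.den u 0 = 1 := by
    rw [Flo.den_eq_det, hth0]
    simp [ContinuousLinearMap.det]
  obtain ⟨-, -, -, -, hsm, hpt⟩ := hM n G.toFlo u hu (1 / 4) fun v hv => by linarith [(hd v hv).1]
  have hub := hC0 n G.toFlo hB0 hB u hu
  have hbb : ∀ v ∈ ball (0 : E3) (1 / 4), ∀ l ≤ N, |G.bb u l v| ≤ C1 ∧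
      |G.Lc u (G.bb u l) v| ≤ C1 := fun v hv l hl => by
    have := (hub v hv 0 (Nat.zero_le _)).2.2 l (by omega)
    simp only [norm_iteratedFDeriv_zero, Real.norm_eq_abs] at this
    exact ⟨this.1.trans hC01, this.2.trans hC01⟩
  have hlip : ∀ v ∈ ball (0 : E3) (1 / 4), |G.den u v - 1| ≤ C1 * ‖v‖ := fun v hv => by
    have := (convex_ball (0 : E3) (1 / 4)).norm_image_sub_le_of_norm_fderiv_le (𝕜 := ℝ)
      (f := G.den u) (C := C1)
      (fun x _ => (G.contDiff_den u).differentiable (by simp) x)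
      (fun x hx => by
        have := (hub x hx 1 (by omega)).1
        rw [norm_iteratedFDeriv_one] at this
        exact this.trans hC01) (mem_ball_self (by norm_num)) hv
    rwa [hd0, sub_zero, Real.norm_eq_abs] at this
  set η : ℝ := E * t ^ N with hη
  have hη0 : 0 < η := by positivity
  obtain ⟨β, b1, b2, b3, b4, b5, b6, b7⟩ := exists_beta hη0
  set S : ℝ → E3 → ℝ := fun s v =>
    ∑ k ∈ Finset.range (N + 1), G.bb u k v * s ^ k + -(2 * C1) * s ^ (N + 1) with hS
  set w0 : ℝ → E3 → ℝ := G.par u N (-(2 * C1)) with hw0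
  have hw0S : ∀ s v, w0 s v = gs s v / √(G.den u v) * S s v := fun s v => rfl
  have hSn : ∀ s, 0 < s → s ≤ 2 * t → ∀ v ∈ ball (0 : E3) (1 / 4), |S s v - 1| ≤ A * s :=
    fun s h0 h1 v hv => sum_near rfl (fun l hl => (hbb v hv l hl).1) h0 (by linarith)
  have hSb : ∀ s, 0 < s → s ≤ 2 * t → ∀ v ∈ ball (0 : E3) (1 / 4),
      1 / 2 ≤ S s v ∧ S s v ≤ 3 / 2 := fun s h0 h1 v hv => by
    have h2 := abs_le.1 (hSn s h0 h1 v hv)
    have h3 := mul_le_mul_of_nonneg_left h1 hA0.le
    constructor <;> linarith [h2.1, h2.2]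
  have hw0b : ∀ s, 0 < s → s ≤ 2 * t → ∀ v ∈ ball (0 : E3) (1 / 4),
      gs s v / 4 ≤ w0 s v ∧ w0 s v ≤ 3 * gs s v := fun s h0 h1 v hv => by
    obtain ⟨q1, q2, -, -⟩ := sqrt_facts (hd v hv).1 (hd v hv).2
    obtain ⟨r1, r2⟩ := hSb s h0 h1 v hv
    have hg := gs_pos h0 v
    have q3 : gs s v / 2 ≤ gs s v / √(G.den u v) :=
      div_le_div_of_nonneg_left hg.le (by linarith) q2
    have q4 : gs s v / √(G.den u v) ≤ gs s v / (1 / 2) :=
      div_le_div_of_nonneg_left hg.le (by norm_num) q1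
    rw [hw0S]
    constructor
    · calc gs s v / 4 = gs s v / 2 * (1 / 2) := by ring
        _ ≤ _ := mul_le_mul q3 r1 (by norm_num) (by linarith)
    · calc _ ≤ gs s v / (1 / 2) * (3 / 2) := mul_le_mul q4 r2 (by linarith) (by positivity)
        _ = _ := by ring
  classical
  set w : ℝ → E3 → ℝ := fun s v => if ‖v‖ < 1 / 4 then β (w0 s v) else 0 with hw
  have hwin : ∀ s v, ‖v‖ < 1 / 4 → w s v = β (w0 s v) := fun s v hv => if_pos hv
  have hsupp : ∀ s ∈ Ioo 0 (2 * t), ∀ v : E3, 1 / 8 < ‖v‖ → w s v = 0 := fun s hs v hv => by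
    by_cases h : ‖v‖ < 1 / 4
    · rw [hwin s v h]
      refine b4 _ ((hw0b s hs.1 hs.2.le v (mem_ball_zero_iff.2 h)).2.trans ?_)
      have h1 := gs_small N hs.1 (by linarith [hs.2]) hv.le
      have h2 : s ^ N ≤ (2 * t) ^ N := pow_le_pow_left₀ hs.1.le hs.2.le N
      have h3 := mul_le_mul_of_nonneg_left h2
        (by positivity : (0 : ℝ) ≤ (N + 2).factorial * 256 ^ (N + 2))
      rw [mul_pow] at h3
      rw [hη, hE]
      linarith
    · exact if_neg h
  have hsm0 : ∀ s, 0 < s → ∀ v : E3, ‖v‖ < 1 / 4 →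
      ContDiffAt ℝ ∞ (fun z : ℝ × E3 => w0 z.1 z.2) (s, v) := fun s hs v hv =>
    (hsm N (-(2 * C1))).contDiffAt
      ((isOpen_Ioi.prod isOpen_ball).mem_nhds ⟨hs, mem_ball_zero_iff.2 hv⟩)
  have hin : IsOpen {v : E3 | ‖v‖ < 1 / 4} := isOpen_lt continuous_norm continuous_const
  have hout : IsOpen {v : E3 | 1 / 8 < ‖v‖} := isOpen_lt continuous_const continuous_norm
  have hadm : Adm G.toFlo u w (2 * t) (1 / 8) := by
    refine ⟨?_, hsupp, ?_⟩
    · rintro ⟨s, v⟩ ⟨hs, -⟩
      refine ContDiffAt.contDiffWithinAt ?_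
      by_cases h : ‖v‖ < 1 / 4
      · refine (b1.contDiffAt.comp (s, v) (hsm0 s hs.1 v h)).congr_of_eventuallyEq ?_
        filter_upwards [(isOpen_univ.prod hin).mem_nhds (show (s, v) ∈ _ from ⟨trivial, h⟩)]
          with z hz
        exact hwin z.1 z.2 hz.2
      · refine (contDiffAt_const (c := (0 : ℝ))).congr_of_eventuallyEq ?_
        filter_upwards [(isOpen_Ioo.prod hout).mem_nhds
          (show (s, v) ∈ _ from ⟨hs, show 1 / 8 < ‖v‖ by linarith⟩)] with z hz
        exact hsupp z.1 hz.1 z.2 hz.2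
    · refine tendsto_init hη0.le (A := 4 * A) (by positivity) (by positivity : 0 < 2 * t)
        fun s hs v => ?_
      have hg := gs_pos hs.1 v
      have hmin : 0 ≤ min (2 * η) (3 * gs s v) := le_min (by positivity) (by positivity)
      have hs0 := hs.1
      by_cases h : ‖v‖ < 1 / 4
      · have hv := mem_ball_zero_iff.2 h
        obtain ⟨q1, q2, q3, q4⟩ := sqrt_facts (hd v hv).1 (hd v hv).2
        obtain ⟨r1, r2⟩ := hw0b s hs.1 hs.2.le v hv
        have k1 : |β (w0 s v) - w0 s v| ≤ min (2 * η) (3 * gs s v) := by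
          have := b7 (w0 s v) (by linarith)
          rw [abs_of_nonpos (by linarith)]
          exact le_min (by linarith [b6 (w0 s v)]) (by linarith [b5 (w0 s v)])
        have k2 : w0 s v * G.den u v - gs s v =
            gs s v * (√(G.den u v) * (S s v - 1) + (√(G.den u v) - 1)) := by
          have q5 : √(G.den u v) ≠ 0 := by linarith
          rw [hw0S]
          calc _ = gs s v / √(G.den u v) * S s v * (√(G.den u v) * √(G.den u v)) - gs s v := by
                rw [q4]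
            _ = _ := by field_simp; ring
        have k3 : |√(G.den u v) * (S s v - 1) + (√(G.den u v) - 1)| ≤
            4 * A * s + 4 * A * ‖v‖ := by
          refine (abs_add_le _ _).trans ?_
          rw [abs_mul, abs_of_nonneg (Real.sqrt_nonneg _)]
          have m1 := mul_le_mul q2 (hSn s hs.1 hs.2.le v hv) (abs_nonneg _) (by norm_num)
          have m2 := q3.trans (hlip v hv)
          have m3 : C1 * ‖v‖ ≤ 4 * A * ‖v‖ :=
            mul_le_mul_of_nonneg_right (by linarith) (norm_nonneg v)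
          have m4 : 0 ≤ A * s := by positivity
          linarith
        have k4 : w s v * G.den u v - gs s v =
            (β (w0 s v) - w0 s v) * G.den u v + (w0 s v * G.den u v - gs s v) := by
          rw [hwin s v h]
          ring
        rw [k4]
        refine (abs_add_le _ _).trans (add_le_add ?_ ?_)
        · rw [abs_mul, abs_of_pos (by linarith [(hd v hv).1] : 0 < G.den u v), mul_comm]
          exact mul_le_mul (hd v hv).2 k1 (abs_nonneg _) (by norm_num)
        · rw [k2, abs_mul, abs_of_pos hg]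
          exact mul_le_mul_of_nonneg_left k3 hg.le
      · have k1 : w s v = 0 := if_neg h
        rw [k1, zero_mul, zero_sub, abs_neg, abs_of_pos hg]
        have k2 : 1 ≤ 4 * A * s + 4 * A * ‖v‖ := by
          have m1 : 0 ≤ A * s := by positivity
          have m2 : 1 * (1 / 4) ≤ A * ‖v‖ :=
            mul_le_mul (by linarith) (not_lt.1 h) (by norm_num) hA0.le
          linarith
        have := mul_le_mul_of_nonneg_left k2 hg.le
        linarith
  have hsub : ∀ s ∈ Ioo 0 (2 * t), ∀ v, 0 ≤ w s v ∧ G.heat u w s v ≤ 0 := by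
    intro s hs v
    by_cases h : ‖v‖ < 1 / 4
    · refine ⟨by rw [hwin s v h]; exact b5 _, ?_⟩
      have hv := mem_ball_zero_iff.2 h
      obtain ⟨-, -, hpsd, -, hch, -, hheat⟩ := hpt v hv
      have c1 : ContDiffAt ℝ ∞ (w0 s) v :=
        (hsm0 s hs.1 v h).comp v (contDiffAt_const.prodMk contDiffAt_id)
      have c2 : DifferentiableAt ℝ (fun s => w0 s v) s :=
        ((hsm0 s hs.1 v h).comp s (contDiffAt_id.prodMk contDiffAt_const)).differentiableAt
          (by simp)
      have e1 : (fun s => w s v) = fun s => β (w0 s v) := funext fun s => hwin s v h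
      have e2 : deriv (fun s => β (w0 s v)) s = deriv β (w0 s v) * deriv (fun s => w0 s v) s :=
        deriv_comp s (b1.differentiable (by simp) _) c2
      have e3 : G.Lap u (w s) v = G.Lap u (fun y => β (w0 s y)) v := by
        refine Lap_congr _ u ?_
        filter_upwards [hin.mem_nhds h] with y hy
        exact hwin s y hy
      have e4 := hch β (w0 s) b1.contDiffAt c1
      have e5 : G.heat u w0 s v ≤ 0 := by
        rw [hw0, hheat N _ s hs.1]
        refine mul_nonpos_of_nonneg_of_nonpos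
          (div_nonneg (gs_pos hs.1 v).le (Real.sqrt_nonneg _)) ?_
        have m1 := abs_le.1 (hbb v hv N le_rfl).2
        have m2 := abs_le.1 (hbb v hv 0 (Nat.zero_le _)).2
        have m3 : C1 * s ≤ 1 / 2 := by nlinarith [hs.1, hs.2]
        have m4 : s * G.Lc u (G.bb u 0) v ≤ 1 / 2 := by nlinarith [hs.1, m2.2]
        have m5 : (0 : ℝ) ≤ N := Nat.cast_nonneg N
        have m6 : -G.Lc u (G.bb u N) v + -(2 * C1) * ((N + 1) - s * G.Lc u (G.bb u 0) v) ≤ 0 := by
          nlinarith [m1.1]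
        have m7 := mul_nonpos_of_nonneg_of_nonpos (pow_pos hs.1 N).le m6
        calc _ = s ^ N * (-G.Lc u (G.bb u N) v +
            -(2 * C1) * ((N + 1) - s * G.Lc u (G.bb u 0) v)) := by ring
          _ ≤ 0 := m7
      have e6 := mul_nonneg (b3 (w0 s v)) (hpsd fun i => dd i (w0 s) v)
      have e7 := mul_nonpos_of_nonneg_of_nonpos (b2 (w0 s v)) e5
      unfold Flo.heat at e7 ⊢
      rw [e1, e2, e3, e4]
      linarith
    · have h8 : 1 / 8 < ‖v‖ := by linarith
      refine ⟨(if_neg h).ge, le_of_eq ?_⟩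
      have e1 : (fun s => w s v) = fun _ => 0 := funext fun s => if_neg h
      have e3 : G.Lap u (w s) v = G.Lap u (fun _ => 0) v := by
        refine Lap_congr _ u ?_
        filter_upwards [hout.mem_nhds h8] with y hy
        exact hsupp s hs y hy
      unfold Flo.heat
      rw [e1, e3, Lap_zero]
      simp
  have main := (hC n G P hB0 u hu w (2 * t) (1 / 8) (by norm_num) hadm t
    ⟨ht, by linarith⟩).1 hsub
  have hp := Real.pi_pos
  set a : ℝ := (4 * Real.pi * t) ^ (3 / 2 : ℝ) with ha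
  have ha0 : 0 < a := by positivity
  have ha1 : a ≤ 64 * t := rpow_le ht (by linarith)
  have hag : ∀ v, a * gs t v = Real.exp (-(‖v‖ ^ 2 / (4 * t))) := fun v => by
    unfold gs
    rw [Real.rpow_neg (by positivity), ← ha, ← mul_assoc, mul_inv_cancel₀ ha0.ne', one_mul]
  have haη : a * η ≤ 64 * (E * t ^ (N + 1)) := by
    calc _ ≤ 64 * t * η := mul_le_mul_of_nonneg_right ha1 hη0.le
      _ = _ := by rw [hη]; ring
  have hE1 : 0 ≤ E * t ^ (N + 1) := by positivity
  have z0 : S t 0 - 2 * (a * η) ≤ a * w t 0 := by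
    have k1 : a * w0 t 0 = S t 0 := by
      rw [hw0S, hd0, Real.sqrt_one, div_one, ← mul_assoc, hag]
      simp
    rw [hwin t 0 (by simp), ← k1]
    have := mul_le_mul_of_nonneg_left (b6 (w0 t 0)) ha0.le
    linarith
  have hS0 : S t 0 = ∑ k ∈ Finset.range (N + 1), G.bb u k 0 * t ^ k + -(2 * C1) * t ^ (N + 1) :=
    rfl
  refine ⟨?_, fun z hz hz2 hz3 => ?_⟩
  · have k1 := main {0} (by simp)
    rw [Finset.sum_singleton] at k1
    have := mul_le_mul_of_nonneg_left k1 ha0.le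
    linarith
  · have k1 := main {0, z} (by simp [hz3])
    rw [Finset.sum_pair hz.symm] at k1
    have hzn : ‖z‖ < 1 / 4 := by nlinarith [norm_nonneg z]
    have k2 := (hw0b t ht (by linarith) z (mem_ball_zero_iff.2 hzn)).1
    have k3 : Real.exp (-9) ≤ a * gs t z := by
      rw [hag]
      refine Real.exp_le_exp.2 ?_
      have : ‖z‖ ^ 2 / (4 * t) ≤ 9 := by
        rw [div_le_iff₀ (by positivity)]
        linarith
      linarith
    have k4 := mul_le_mul_of_nonneg_left (b6 (w0 t z)) ha0.le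
    have k5 := mul_le_mul_of_nonneg_left k2 ha0.le
    have k6 := mul_le_mul_of_nonneg_left k1 ha0.le
    rw [hwin t z hzn] at k6
    linarith

end Pool.Agent.Lib.MP_1a4aff_gt.I3
end

-- part Pool.Agent.Lib.MP_1a4aff_gt.I3.LemB
section

/-! Upper bound for the heat kernel on the diagonal from a bound on the injectivity radius. -/

set_option autoImplicit false

open MeasureTheory Set Filter Topology Metric
open scoped ContDiff RealInnerProductSpace ENNReal

namespace Pool.Agent.Lib.MP_1a4aff_gt.I3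

namespace LemB

theorem exists_chi {r : ℝ} (hr : 0 < r) : ∃ (χ : ℝ → ℝ) (K : ℝ), 0 ≤ K ∧ ContDiff ℝ ∞ χ ∧
    (∀ x, 0 ≤ χ x ∧ χ x ≤ 1) ∧ (∀ x < r ^ 2 / 4, χ x = 1 ∧ deriv χ x = 0 ∧
      deriv (deriv χ) x = 0) ∧ (∀ x, r ^ 2 ≤ x → χ x = 0) ∧
    ∀ x ∈ Icc (0 : ℝ) 1, |deriv χ x| ≤ K ∧ |deriv (deriv χ) x| ≤ K := by
  set χ : ℝ → ℝ := fun x => Real.smoothTransition ((r ^ 2 - x) / (3 * r ^ 2 / 4)) with hχ
  have hs : ContDiff ℝ ∞ χ :=
    Real.smoothTransition.contDiff.comp ((contDiff_const.sub contDiff_id).div_const _)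
  have hs1 : ContDiff ℝ ∞ (deriv χ) := (contDiff_infty_iff_deriv.1 hs).2
  have hs2 : ContDiff ℝ ∞ (deriv (deriv χ)) := (contDiff_infty_iff_deriv.1 hs1).2
  obtain ⟨K1, hK1⟩ := isCompact_Icc.exists_bound_of_continuousOn
    (hs1.continuous.continuousOn (s := Icc (0 : ℝ) 1))
  obtain ⟨K2, hK2⟩ := isCompact_Icc.exists_bound_of_continuousOn
    (hs2.continuous.continuousOn (s := Icc (0 : ℝ) 1))
  have h1 : ∀ x < r ^ 2 / 4, χ x = 1 := fun x hx => by
    refine Real.smoothTransition.one_of_one_le ?_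
    rw [le_div_iff₀ (by positivity)]
    linarith
  have h2 : ∀ x < r ^ 2 / 4, deriv χ x = 0 := fun x hx => by
    have : χ =ᶠ[𝓝 x] fun _ => 1 := by
      filter_upwards [Iio_mem_nhds hx] with y hy using h1 y hy
    rw [this.deriv_eq, deriv_const]
  have h3 : ∀ x < r ^ 2 / 4, deriv (deriv χ) x = 0 := fun x hx => by
    have : deriv χ =ᶠ[𝓝 x] fun _ => 0 := by
      filter_upwards [Iio_mem_nhds hx] with y hy using h2 y hy
    rw [this.deriv_eq, deriv_const]
  refine ⟨χ, max (max K1 K2) 0, le_max_right _ _, hs,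
    fun x => ⟨Real.smoothTransition.nonneg _, Real.smoothTransition.le_one _⟩,
    fun x hx => ⟨h1 x hx, h2 x hx, h3 x hx⟩, fun x hx => ?_, fun x hx => ⟨?_, ?_⟩⟩
  · refine Real.smoothTransition.zero_of_nonpos ?_
    exact div_nonpos_of_nonpos_of_nonneg (by linarith) (by positivity)
  · exact (hK1 x hx).trans ((le_max_left _ _).trans (le_max_left _ _))
  · exact (hK2 x hx).trans ((le_max_right _ _).trans (le_max_left _ _))

theorem gs_small {r : ℝ} (hr : 0 < r) (N : ℕ) {s : ℝ} (h0 : 0 < s) (h1 : s ≤ 1) {v : E3}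
    (hv : r ^ 2 / 4 ≤ ‖v‖ ^ 2) :
    gs s v / s ≤ (N + 3).factorial * (16 / r ^ 2) ^ (N + 3) * s ^ N := by
  have hp := Real.pi_gt_three
  have a1 : (4 * Real.pi * s) ^ (-(3 / 2) : ℝ) ≤ (s ^ 2)⁻¹ := by
    calc _ ≤ s ^ (-(3 / 2) : ℝ) :=
          Real.rpow_le_rpow_of_nonpos h0 (by nlinarith) (by norm_num)
      _ ≤ s ^ (-2 : ℝ) := Real.rpow_le_rpow_of_exponent_ge h0 h1 (by norm_num)
      _ = _ := by rw [Real.rpow_neg h0.le]; norm_num
  have a2 : Real.exp (-(‖v‖ ^ 2 / (4 * s))) ≤ (N + 3).factorial * (16 / r ^ 2 * s) ^ (N + 3) := by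
    have b1 : (16 / r ^ 2 * s)⁻¹ ≤ ‖v‖ ^ 2 / (4 * s) := by
      have : (16 / r ^ 2 * s)⁻¹ = r ^ 2 / 4 / (4 * s) := by field_simp; ring
      rw [this]
      exact div_le_div_of_nonneg_right hv (by positivity)
    have b2 := (Real.pow_div_factorial_le_exp _
      (by positivity : 0 ≤ (16 / r ^ 2 * s)⁻¹) (N + 3)).trans (Real.exp_le_exp.2 b1)
    rw [Real.exp_neg]
    refine (inv_anti₀ (by positivity) b2).trans (le_of_eq ?_)
    rw [inv_pow]
    field_simp
  rw [div_le_iff₀ h0]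
  unfold gs
  calc _ ≤ (s ^ 2)⁻¹ * ((N + 3).factorial * (16 / r ^ 2 * s) ^ (N + 3)) :=
        mul_le_mul a1 a2 (by positivity) (by positivity)
    _ = _ := by rw [mul_pow]; field_simp; ring

theorem ray {f : E3 → ℝ} {v : E3} (hf : DifferentiableAt ℝ f v) :
    HasDerivAt (fun τ : ℝ => f (τ • v)) (fderiv ℝ f v v) 1 := by
  have h1 : HasDerivAt (fun τ : ℝ => τ • v) v 1 := by
    simpa using (hasDerivAt_id (1 : ℝ)).smul_const v
  have h2 : HasFDerivAt f (fderiv ℝ f v) ((1 : ℝ) • v) := by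
    rw [one_smul]; exact hf.hasFDerivAt
  exact h2.comp_hasDerivAt 1 h1

theorem ray_gs (s : ℝ) (v : E3) :
    HasDerivAt (fun τ : ℝ => gs s (τ • v)) (gs s v * -(2 * ‖v‖ ^ 2 / (4 * s))) 1 := by
  have h0 : DifferentiableAt ℝ (fun y : E3 => ‖y‖ ^ 2) v :=
    (contDiff_norm_sq ℝ (n := 1)).differentiable (by simp) v
  have h1 := ray h0
  have e : fderiv ℝ (fun y : E3 => ‖y‖ ^ 2) v v = 2 * ‖v‖ ^ 2 := by
    simp [fderiv_norm_sq_apply]
  rw [e] at h1
  have h2 := ((h1.div_const (4 * s)).fun_neg.exp).const_mul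
    ((4 * Real.pi * s) ^ (-(3 / 2) : ℝ))
  refine h2.congr_deriv ?_
  rw [one_smul, gs]
  exact (mul_assoc _ _ _).symm

/-- radial derivative of the parametrix -/
theorem dpar {D : E3 → ℝ} {b : ℕ → E3 → ℝ} {v : E3} (N : ℕ) (c s : ℝ)
    (hD : DifferentiableAt ℝ D v) (h0 : 0 < D v) (hb : ∀ k, DifferentiableAt ℝ (b k) v)
    (hf : DifferentiableAt ℝ (fun y => gs s y / √(D y) *
      (∑ k ∈ Finset.range (N + 1), b k y * s ^ k + c * s ^ (N + 1))) v) :
    fderiv ℝ (fun y => gs s y / √(D y) *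
      (∑ k ∈ Finset.range (N + 1), b k y * s ^ k + c * s ^ (N + 1))) v v =
    gs s v / √(D v) * ((-(2 * ‖v‖ ^ 2 / (4 * s)) - fderiv ℝ D v v / (2 * D v)) *
      (∑ k ∈ Finset.range (N + 1), b k v * s ^ k + c * s ^ (N + 1)) +
      ∑ k ∈ Finset.range (N + 1), fderiv ℝ (b k) v v * s ^ k) := by
  have hq : 0 < √(D v) := Real.sqrt_pos.2 h0
  have h1 := (ray hD).sqrt (by rw [one_smul]; exact h0.ne')
  have h2 := (ray_gs s v).fun_div h1 (by rw [one_smul]; exact hq.ne')
  have h3 := (HasDerivAt.fun_sum (u := Finset.range (N + 1))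
    fun k _ => (ray (hb k)).mul_const (s ^ k)).add_const (c * s ^ (N + 1))
  have h4 := h2.fun_mul h3
  rw [(ray hf).unique h4]
  simp only [one_smul]
  have e : D v = √(D v) ^ 2 := (Real.sq_sqrt h0.le).symm
  generalize √(D v) = q at *
  rw [e]
  field_simp

theorem sum_abs {N : ℕ} {b : ℕ → ℝ} {C s : ℝ} (hC : ∀ l ≤ N, |b l| ≤ C)
    (h0 : 0 < s) (h1 : s ≤ 1) : |∑ k ∈ Finset.range (N + 1), b k * s ^ k| ≤ (N + 1) * C := by
  refine (Finset.abs_sum_le_sum_abs _ _).trans ?_
  have := Finset.sum_le_card_nsmul (Finset.range (N + 1)) (fun k => |b k * s ^ k|) C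
    fun k hk => by
      rw [abs_mul, abs_of_pos (pow_pos h0 _)]
      exact (mul_le_of_le_one_right (abs_nonneg _) (pow_le_one₀ h0.le h1)).trans
        (hC k (Nat.lt_succ_iff.1 (Finset.mem_range.1 hk)))
  simpa using this

theorem sum_near {N : ℕ} {b : ℕ → ℝ} {C s : ℝ} (hb : b 0 = 1) (hC : ∀ l ≤ N, |b l| ≤ C)
    (h0 : 0 < s) (h1 : s ≤ 1) :
    |∑ k ∈ Finset.range (N + 1), b k * s ^ k + 2 * C * s ^ (N + 1) - 1| ≤ (N + 6) * C * s := by
  have h2 := abs_le.1 (LemA.sum_near hb hC h0 h1)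
  have hC0 : 0 ≤ C := (abs_nonneg _).trans (hC 0 (Nat.zero_le _))
  have hp : s ^ (N + 1) ≤ s := by
    rw [pow_succ]
    exact mul_le_of_le_one_left h0.le (pow_le_one₀ h0.le h1)
  have h3 := mul_le_mul_of_nonneg_left hp hC0
  have h4 : 0 ≤ C * s ^ (N + 1) := by positivity
  have h5 : 0 ≤ C * s := by positivity
  rw [abs_le]
  constructor <;> nlinarith [h2.1, h2.2]

theorem app_le {f : E3 → ℝ} {v : E3} {C : ℝ} (h : ‖iteratedFDeriv ℝ 1 f v‖ ≤ C) (hv : ‖v‖ ≤ 1) :
    |fderiv ℝ f v v| ≤ C := by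
  rw [norm_iteratedFDeriv_one] at h
  have := (fderiv ℝ f v).le_opNorm v
  rw [Real.norm_eq_abs] at this
  exact this.trans ((mul_le_of_le_one_right (norm_nonneg _) hv).trans h)

end LemB

open LemA in
theorem lemB_holds (hR : RadStmt) (hM : MPStmt) (hU : UB2Stmt) (hC : CmpStmt) : LemBStmt := by
  intro N
  obtain ⟨J, hJ⟩ := hU (N + 1)
  refine ⟨J, fun B ρ hρ => ?_⟩
  obtain ⟨C0, hC0⟩ := hJ B
  set C1 : ℝ := max C0 1 with hC1
  have hC11 : 1 ≤ C1 := le_max_right _ _
  have hC01 : C0 ≤ C1 := le_max_left _ _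
  set r : ℝ := min ρ (1 / 4) / 2 with hr
  have hr0 : 0 < r := by positivity
  have hr1 : r < ρ := by
    have := min_le_left ρ (1 / 4)
    linarith
  have hr2 : r ≤ 1 / 8 := by
    have := min_le_right ρ (1 / 4)
    linarith
  obtain ⟨χ, K, hK, c1, c2, c3, c4, c5⟩ := LemB.exists_chi hr0
  have hN : (0 : ℝ) ≤ N := Nat.cast_nonneg N
  set A : ℝ := (N + 6) * C1 with hA
  have hA2 : 6 * C1 ≤ A := by nlinarith
  have hA0 : 0 < A := by linarith
  set E : ℝ := (N + 3).factorial * (16 / r ^ 2) ^ (N + 3) with hE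
  have hE0 : 0 < E := by positivity
  set c' : ℝ := 100 * K * A * E with hc'
  have hc0 : 0 ≤ c' := by positivity
  have hA3 : (N + 1) * C1 ≤ A := by nlinarith
  clear_value c' E A r C1
  clear hJ hC1 hr
  refine ⟨2 * C1 + 64 * c', 1 / (4 * A), by positivity, ?_⟩
  intro n G P hB0 hB hI u hu t ht htt
  have ht2 : A * (2 * t) ≤ 1 / 2 := by
    have := (le_div_iff₀ (by positivity)).1 htt
    linarith
  have ht1 : 2 * t ≤ 1 := by nlinarith
  obtain ⟨-, -, -, hth0, -, -, hden⟩ := hR n G.toFlo u hu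
  have hd : ∀ v ∈ ball (0 : E3) (1 / 4), 1 / 2 ≤ G.den u v ∧ G.den u v ≤ 2 := fun v hv =>
    (hden hB0 v (mem_ball_zero_iff.1 hv).le).2.2
  have hd0 : G.den u 0 = 1 := by
    rw [Flo.den_eq_det, hth0]
    simp [ContinuousLinearMap.det]
  obtain ⟨-, hsb, -, -, hsm, hpt⟩ := hM n G.toFlo u hu (1 / 4)
    fun v hv => by linarith [(hd v hv).1]
  have hub := hC0 n G.toFlo hB0 hB u hu
  have hbb : ∀ v ∈ ball (0 : E3) (1 / 4), ∀ l ≤ N, |G.bb u l v| ≤ C1 ∧
      |G.Lc u (G.bb u l) v| ≤ C1 := fun v hv l hl => by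
    have := (hub v hv 0 (Nat.zero_le _)).2.2 l (by omega)
    simp only [norm_iteratedFDeriv_zero, Real.norm_eq_abs] at this
    exact ⟨this.1.trans hC01, this.2.trans hC01⟩
  have hlip : ∀ v ∈ ball (0 : E3) (1 / 4), |G.den u v - 1| ≤ C1 * ‖v‖ := fun v hv => by
    have := (convex_ball (0 : E3) (1 / 4)).norm_image_sub_le_of_norm_fderiv_le (𝕜 := ℝ)
      (f := G.den u) (C := C1)
      (fun x _ => (G.contDiff_den u).differentiable (by simp) x)
      (fun x hx => by
        have := (hub x hx 1 (by omega)).1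
        rw [norm_iteratedFDeriv_one] at this
        exact this.trans hC01) (mem_ball_self (by norm_num)) hv
    rwa [hd0, sub_zero, Real.norm_eq_abs] at this
  set S : ℝ → E3 → ℝ := fun s v =>
    ∑ k ∈ Finset.range (N + 1), G.bb u k v * s ^ k + 2 * C1 * s ^ (N + 1) with hS
  set w0 : ℝ → E3 → ℝ := G.par u N (2 * C1) with hw0
  have hw0S : ∀ s v, w0 s v = gs s v / √(G.den u v) * S s v := fun s v => rfl
  have hSn : ∀ s, 0 < s → s ≤ 2 * t → ∀ v ∈ ball (0 : E3) (1 / 4), |S s v - 1| ≤ A * s :=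
    fun s h0 h1 v hv => by
      rw [hA]
      exact LemB.sum_near rfl (fun l hl => (hbb v hv l hl).1) h0 (by linarith)
  have hSb : ∀ s, 0 < s → s ≤ 2 * t → ∀ v ∈ ball (0 : E3) (1 / 4),
      1 / 2 ≤ S s v ∧ S s v ≤ 3 / 2 := fun s h0 h1 v hv => by
    have h2 := abs_le.1 (hSn s h0 h1 v hv)
    have h3 := mul_le_mul_of_nonneg_left h1 hA0.le
    constructor <;> linarith [h2.1, h2.2]
  have hq : ∀ s, 0 < s → ∀ v ∈ ball (0 : E3) (1 / 4),
      0 ≤ gs s v / √(G.den u v) ∧ gs s v / √(G.den u v) ≤ 2 * gs s v := fun s h0 v hv => by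
    obtain ⟨q1, q2, -, -⟩ := sqrt_facts (hd v hv).1 (hd v hv).2
    have hg := gs_pos h0 v
    refine ⟨by positivity, ?_⟩
    rw [div_le_iff₀ (by linarith)]
    nlinarith
  have hw0b : ∀ s, 0 < s → s ≤ 2 * t → ∀ v ∈ ball (0 : E3) (1 / 4),
      0 ≤ w0 s v ∧ w0 s v ≤ 3 * gs s v := fun s h0 h1 v hv => by
    obtain ⟨r1, r2⟩ := hSb s h0 h1 v hv
    obtain ⟨q1, q2⟩ := hq s h0 v hv
    have hg := gs_pos h0 v
    rw [hw0S]
    refine ⟨mul_nonneg q1 (by linarith), ?_⟩
    calc _ ≤ 2 * gs s v * (3 / 2) := mul_le_mul q2 r2 (by linarith) (by positivity)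
      _ = _ := by ring
  set w : ℝ → E3 → ℝ := fun s v => χ (‖v‖ ^ 2) * w0 s v with hw
  have hsupp : ∀ s, ∀ v : E3, r < ‖v‖ → w s v = 0 := fun s v hv => by
    have : χ (‖v‖ ^ 2) = 0 := c4 _ (pow_le_pow_left₀ hr0.le hv.le 2)
    simp only [hw, this, zero_mul]
  have hsm0 : ∀ s, 0 < s → ∀ v : E3, ‖v‖ < 1 / 4 →
      ContDiffAt ℝ ∞ (fun z : ℝ × E3 => w0 z.1 z.2) (s, v) := fun s hs v hv =>
    (hsm N (2 * C1)).contDiffAt
      ((isOpen_Ioi.prod isOpen_ball).mem_nhds ⟨hs, mem_ball_zero_iff.2 hv⟩)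
  have hout : IsOpen {v : E3 | r < ‖v‖} := isOpen_lt continuous_const continuous_norm
  have hnq : ContDiff ℝ ∞ fun y : E3 => ‖y‖ ^ 2 := contDiff_norm_sq ℝ
  have hadm : Adm G.toFlo u w (2 * t) r := by
    refine ⟨?_, fun s _ => hsupp s, ?_⟩
    · rintro ⟨s, v⟩ ⟨hs, -⟩
      refine ContDiffAt.contDiffWithinAt ?_
      by_cases h : ‖v‖ < 1 / 4
      · exact ((c1.comp (hnq.comp contDiff_snd)).contDiffAt).mul (hsm0 s hs.1 v h)
      · refine (contDiffAt_const (c := (0 : ℝ))).congr_of_eventuallyEq ?_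
        filter_upwards [(isOpen_univ.prod hout).mem_nhds
          (show (s, v) ∈ _ from ⟨trivial, show r < ‖v‖ by linarith⟩)] with z hz
        exact hsupp z.1 z.2 hz.2
    · refine tendsto_init (η := 0) le_rfl (A := 4 * A + 14 / r) (by positivity)
        (by positivity : 0 < 2 * t) fun s hs v => ?_
      have hg := gs_pos hs.1 v
      have hmin : 0 ≤ min (2 * 0) (3 * gs s v) := le_min (by positivity) (by positivity)
      have hs0 := hs.1
      have hr14 : 0 < 14 / r := by positivity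
      by_cases h : ‖v‖ ^ 2 < r ^ 2 / 4
      · have hv : v ∈ ball (0 : E3) (1 / 4) :=
          mem_ball_zero_iff.2 (by nlinarith only [norm_nonneg v, h, hr0, hr2])
        obtain ⟨q1, q2, q3, q4⟩ := sqrt_facts (hd v hv).1 (hd v hv).2
        have k2 : w s v * G.den u v - gs s v =
            gs s v * (√(G.den u v) * (S s v - 1) + (√(G.den u v) - 1)) := by
          have q5 : √(G.den u v) ≠ 0 := by linarith
          simp only [hw, (c3 _ h).1, one_mul]
          rw [hw0S]
          calc _ = gs s v / √(G.den u v) * S s v * (√(G.den u v) * √(G.den u v)) - gs s v := by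
                rw [q4]
            _ = _ := by field_simp; ring
        have k3 : |√(G.den u v) * (S s v - 1) + (√(G.den u v) - 1)| ≤
            (4 * A + 14 / r) * s + (4 * A + 14 / r) * ‖v‖ := by
          refine (abs_add_le _ _).trans ?_
          rw [abs_mul, abs_of_nonneg (Real.sqrt_nonneg _)]
          have m1 := mul_le_mul q2 (hSn s hs.1 hs.2.le v hv) (abs_nonneg _) (by norm_num)
          have m2 := q3.trans (hlip v hv)
          have m3 : C1 * ‖v‖ ≤ (4 * A + 14 / r) * ‖v‖ :=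
            mul_le_mul_of_nonneg_right (by linarith) (norm_nonneg v)
          have m4 : 2 * A * s ≤ (4 * A + 14 / r) * s :=
            mul_le_mul_of_nonneg_right (by linarith) hs0.le
          linarith
        rw [k2, abs_mul, abs_of_pos hg]
        exact le_add_of_nonneg_of_le (mul_nonneg (by norm_num) hmin)
          (mul_le_mul_of_nonneg_left k3 hg.le)
      · have k1 : 0 ≤ w s v * G.den u v ∧ w s v * G.den u v ≤ 6 * gs s v := by
          by_cases h' : ‖v‖ < 1 / 4
          · have hv := mem_ball_zero_iff.2 h'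
            obtain ⟨r1, r2⟩ := hw0b s hs.1 hs.2.le v hv
            have m1 : 0 ≤ w s v := mul_nonneg (c2 _).1 r1
            have m2 : w s v ≤ 3 * gs s v := (mul_le_of_le_one_left r1 (c2 _).2).trans r2
            refine ⟨mul_nonneg m1 (by linarith [(hd v hv).1]), ?_⟩
            calc _ ≤ 3 * gs s v * 2 :=
                  mul_le_mul m2 (hd v hv).2 (by linarith [(hd v hv).1]) (by positivity)
              _ = _ := by ring
          · rw [hsupp s v (by linarith), zero_mul]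
            exact ⟨le_rfl, by positivity⟩
        have k2 : 7 ≤ (4 * A + 14 / r) * s + (4 * A + 14 / r) * ‖v‖ := by
          have m0 : r / 2 ≤ ‖v‖ := by
            refine (pow_le_pow_iff_left₀ (by positivity) (norm_nonneg v) two_ne_zero).1 ?_
            linarith only [not_lt.1 h]
          have m1 : 0 ≤ (4 * A + 14 / r) * s := by positivity
          have m2 : 14 / r * (r / 2) ≤ (4 * A + 14 / r) * ‖v‖ :=
            mul_le_mul (by linarith) m0 (by positivity) (by positivity)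
          have m3 : 14 / r * (r / 2) = 7 := by field_simp; norm_num
          linarith
        have k3 := mul_le_mul_of_nonneg_left k2 hg.le
        have k4 : |w s v * G.den u v - gs s v| ≤ gs s v * 7 :=
          abs_le.2 ⟨by linarith only [k1.1, hg], by linarith only [k1.2, hg]⟩
        exact le_add_of_nonneg_of_le (mul_nonneg (by norm_num) hmin) (k4.trans k3)
  have hsup : ∀ s ∈ Ioo 0 (2 * t), ∀ v, 0 ≤ G.heat u w s v + c' * (N + 1) * s ^ N := by
    intro s hs v
    have hs0 := hs.1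
    have hs1 : s ≤ 1 := by linarith [hs.2]
    have hcN : c' * s ^ N ≤ c' * (N + 1) * s ^ N :=
      mul_le_mul_of_nonneg_right (le_mul_of_one_le_right hc0 (by linarith)) (by positivity)
    have hc1 : 0 ≤ c' * s ^ N := by positivity
    by_cases h : ‖v‖ < 1 / 4
    · have hv := mem_ball_zero_iff.2 h
      obtain ⟨hsym, hgs, -, hmul, hch, hnsq, hheat⟩ := hpt v hv
      have d1 : ContDiffAt ℝ ∞ (w0 s) v :=
        (hsm0 s hs.1 v h).comp v (contDiffAt_const.prodMk contDiffAt_id)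
      have d2 : ContDiffAt ℝ ∞ (fun y : E3 => χ (‖y‖ ^ 2)) v := (c1.comp hnq).contDiffAt
      have e1 : deriv (fun s => w s v) s = χ (‖v‖ ^ 2) * deriv (fun s => w0 s v) s :=
        deriv_const_mul_field _
      have e2 := (hmul _ _ d2 d1).2
      have e3 := hch χ _ c1.contDiffAt hnq.contDiffAt
      have g1 : ∀ ξ : Fin 3 → ℝ, ∑ i, ∑ j, G.gi u i j v * v i * ξ j = ∑ j, v j * ξ j := fun ξ => by
        rw [Finset.sum_comm]
        refine Finset.sum_congr rfl fun j _ => ?_
        rw [← Finset.sum_mul, ← hgs j]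
        simp only [hsym j]
      have e4 : ∑ i, ∑ j, G.gi u i j v * dd i (fun y : E3 => ‖y‖ ^ 2) v *
          dd j (fun y : E3 => ‖y‖ ^ 2) v = 4 * ‖v‖ ^ 2 := by
        have := g1 fun j => 4 * v j
        rw [normSq_E3]
        simp only [MP.dd_nsq, Fin.sum_univ_three] at this ⊢
        linarith only [this]
      have e5 : ∑ i, ∑ j, G.gi u i j v * dd i (fun y : E3 => χ (‖y‖ ^ 2)) v * dd j (w0 s) v =
          2 * deriv χ (‖v‖ ^ 2) * fderiv ℝ (w0 s) v v := by
        have := g1 fun j => 2 * deriv χ (‖v‖ ^ 2) * dd j (w0 s) v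
        rw [MP.fderiv_eq]
        simp only [MP.dd_comp (c1.differentiable (by simp) _) (MP.dif hnq.contDiffAt),
          MP.dd_nsq, Fin.sum_univ_three] at this ⊢
        linarith only [this]
      have e6 : 0 ≤ G.heat u w0 s v := by
        rw [hw0, hheat N _ s hs.1]
        refine mul_nonneg (hq s hs0 v hv).1 ?_
        have m1 := abs_le.1 (hbb v hv N le_rfl).2
        have m2 := abs_le.1 (hbb v hv 0 (Nat.zero_le _)).2
        have m3 : C1 * s ≤ 1 / 2 := by nlinarith only [hs.1, hs.2, ht2, hA2, hC11]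
        have m4 : s * G.Lc u (G.bb u 0) v ≤ 1 / 2 := by nlinarith only [hs.1, m2.2, m3]
        have m6 : 0 ≤ -G.Lc u (G.bb u N) v + 2 * C1 * ((N + 1) - s * G.Lc u (G.bb u 0) v) := by
          nlinarith only [m1.2, m4, hN, hC11]
        have m7 := mul_nonneg (pow_pos hs.1 N).le m6
        calc (0 : ℝ) ≤ s ^ N * (-G.Lc u (G.bb u N) v +
            2 * C1 * ((N + 1) - s * G.Lc u (G.bb u 0) v)) := m7
          _ = _ := by ring
      have e7 : G.heat u w s v = χ (‖v‖ ^ 2) * G.heat u w0 s v -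
          ((deriv χ (‖v‖ ^ 2) * (6 + 2 * (fderiv ℝ (G.den u) v v / G.den u v)) +
            deriv (deriv χ) (‖v‖ ^ 2) * (4 * ‖v‖ ^ 2)) * w0 s v +
            4 * deriv χ (‖v‖ ^ 2) * fderiv ℝ (w0 s) v v) := by
        unfold Flo.heat
        rw [e1, show w s = fun y => χ (‖y‖ ^ 2) * w0 s y from rfl, e2, e3, e4, e5, hnsq]
        ring
      have e8 := mul_nonneg (c2 (‖v‖ ^ 2)).1 e6
      by_cases h' : ‖v‖ ^ 2 < r ^ 2 / 4
      · rw [e7, (c3 _ h').2.1, (c3 _ h').2.2]
        linarith only [e8, hc1, hcN]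
      · have hg := gs_pos hs0 v
        have hv2 : ‖v‖ ^ 2 ≤ 1 / 16 := by nlinarith only [norm_nonneg v, h]
        obtain ⟨x1, x2⟩ := c5 (‖v‖ ^ 2) ⟨by positivity, by linarith⟩
        have y0 := LemB.gs_small hr0 N hs0 hs1 (not_lt.1 h')
        rw [← hE] at y0
        have y1 : gs s v ≤ gs s v / s := le_div_self hg.le hs0 hs1
        have y2 : |fderiv ℝ (G.den u) v v| ≤ C1 :=
          LemB.app_le ((hub v hv 1 (by omega)).1.trans hC01) (by linarith)
        have y3 : |fderiv ℝ (G.den u) v v / G.den u v| ≤ 2 * C1 := by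
          rw [abs_div, abs_of_pos (by linarith [(hd v hv).1] : 0 < G.den u v),
            div_le_iff₀ (by linarith [(hd v hv).1])]
          nlinarith only [(hd v hv).1, y2, hC11]
        have y4 : |∑ k ∈ Finset.range (N + 1), fderiv ℝ (G.bb u k) v v * s ^ k| ≤ (N + 1) * C1 :=
          LemB.sum_abs (fun l hl => LemB.app_le
            (((hub v hv 1 (by omega)).2.2 l (by omega)).1.trans hC01) (by linarith)) hs0 hs1
        have y5 : fderiv ℝ (w0 s) v v = gs s v / √(G.den u v) *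
            ((-(2 * ‖v‖ ^ 2 / (4 * s)) - fderiv ℝ (G.den u) v v / (2 * G.den u v)) * S s v +
            ∑ k ∈ Finset.range (N + 1), fderiv ℝ (G.bb u k) v v * s ^ k) :=
          LemB.dpar N (2 * C1) s ((G.contDiff_den u).differentiable (by simp) v)
            (by linarith [(hd v hv).1])
            (fun k => MP.dif ((hsb k).contDiffAt (isOpen_ball.mem_nhds hv))) (MP.dif d1)
        have y6 : |fderiv ℝ (w0 s) v v| ≤ 4 * A * (gs s v / s) := by
          obtain ⟨q1, q2⟩ := hq s hs0 v hv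
          obtain ⟨r1, r2⟩ := hSb s hs0 hs.2.le v hv
          have i1 : 1 ≤ s⁻¹ := (one_le_inv₀ hs0).2 hs1
          have z1 : |-(2 * ‖v‖ ^ 2 / (4 * s)) - fderiv ℝ (G.den u) v v / (2 * G.den u v)| ≤
              2 * C1 * s⁻¹ := by
            have a1 : fderiv ℝ (G.den u) v v / (2 * G.den u v) =
                fderiv ℝ (G.den u) v v / G.den u v / 2 := by rw [div_div, mul_comm]
            have a2 : 2 * ‖v‖ ^ 2 / (4 * s) = ‖v‖ ^ 2 / 2 * s⁻¹ := by field_simp; ring
            have a3 : ‖v‖ ^ 2 / 2 * s⁻¹ ≤ C1 * s⁻¹ :=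
              mul_le_mul_of_nonneg_right (by linarith) (by positivity)
            have a4 : 0 ≤ ‖v‖ ^ 2 / 2 * s⁻¹ := by positivity
            have a5 : C1 ≤ C1 * s⁻¹ := le_mul_of_one_le_right (by linarith) i1
            have a6 := abs_le.1 y3
            rw [a1, a2, abs_le]
            constructor <;> linarith [a6.1, a6.2]
          have z2 : |(-(2 * ‖v‖ ^ 2 / (4 * s)) - fderiv ℝ (G.den u) v v / (2 * G.den u v)) * S s v +
              ∑ k ∈ Finset.range (N + 1), fderiv ℝ (G.bb u k) v v * s ^ k| ≤ 2 * A * s⁻¹ := by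
            refine (abs_add_le _ _).trans ?_
            rw [abs_mul, abs_of_pos (by linarith : 0 < S s v)]
            have a1 := mul_le_mul z1 r2 (by linarith) (by positivity)
            have a2 : A ≤ A * s⁻¹ := le_mul_of_one_le_right hA0.le i1
            have a3 : 6 * C1 * s⁻¹ ≤ A * s⁻¹ := mul_le_mul_of_nonneg_right hA2 (by positivity)
            have a4 : 0 ≤ C1 * s⁻¹ := by positivity
            linarith only [a1, a2, a3, a4, hA3, y4]
          rw [y5, abs_mul, abs_of_nonneg q1]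
          calc _ ≤ 2 * gs s v * (2 * A * s⁻¹) := mul_le_mul q2 z2 (abs_nonneg _) (by positivity)
            _ = _ := by rw [div_eq_mul_inv]; ring
        have y7 : |deriv χ (‖v‖ ^ 2) * (6 + 2 * (fderiv ℝ (G.den u) v v / G.den u v)) +
            deriv (deriv χ) (‖v‖ ^ 2) * (4 * ‖v‖ ^ 2)| ≤ K * (2 * A) := by
          refine (abs_add_le _ _).trans ?_
          rw [abs_mul, abs_mul]
          have a0 := abs_le.1 y3
          have a1 : |6 + 2 * (fderiv ℝ (G.den u) v v / G.den u v)| ≤ 10 * C1 :=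
            abs_le.2 ⟨by linarith [a0.1], by linarith [a0.2]⟩
          have a2 : |4 * ‖v‖ ^ 2| ≤ 2 * C1 := by
            rw [abs_of_nonneg (by positivity)]
            linarith
          have a3 := mul_le_mul x1 a1 (abs_nonneg _) hK
          have a4 := mul_le_mul x2 a2 (abs_nonneg _) hK
          have a5 := mul_le_mul_of_nonneg_left hA2 hK
          linarith
        obtain ⟨r1, r2⟩ := hw0b s hs0 hs.2.le v hv
        have y8 : (deriv χ (‖v‖ ^ 2) * (6 + 2 * (fderiv ℝ (G.den u) v v / G.den u v)) +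
            deriv (deriv χ) (‖v‖ ^ 2) * (4 * ‖v‖ ^ 2)) * w0 s v ≤
            K * (2 * A) * (3 * (gs s v / s)) :=
          mul_le_mul ((le_abs_self _).trans y7) (by linarith) r1 (by positivity)
        have y9 : deriv χ (‖v‖ ^ 2) * fderiv ℝ (w0 s) v v ≤ K * (4 * A * (gs s v / s)) := by
          refine (le_abs_self _).trans ?_
          rw [abs_mul]
          exact mul_le_mul x1 y6 (abs_nonneg _) hK
        have y10 := mul_le_mul_of_nonneg_left y0 (by positivity : 0 ≤ K * A)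
        have y11 : 0 ≤ K * A * (E * s ^ N) := by positivity
        have y12 : c' * s ^ N = 100 * (K * A * (E * s ^ N)) := by rw [hc']; ring
        rw [e7]
        linarith only [e8, y8, y9, y10, y11, y12, hcN]
    · have h8 : r < ‖v‖ := by linarith
      have e1 : (fun s => w s v) = fun _ => 0 := funext fun s => hsupp s v h8
      have e3 : G.Lap u (w s) v = G.Lap u (fun _ => 0) v := by
        refine Lap_congr _ u ?_
        filter_upwards [hout.mem_nhds h8] with y hy
        exact hsupp s y hy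
      unfold Flo.heat
      rw [e1, e3, Lap_zero, deriv_const]
      linarith
  have main := (hC n G P hB0 u hu w (2 * t) r (by linarith) hadm t
    ⟨ht, by linarith⟩).2 ρ hr1 hI c' N hc0 hsup
  have hp := Real.pi_pos
  set a : ℝ := (4 * Real.pi * t) ^ (3 / 2 : ℝ) with ha
  have ha0 : 0 < a := by positivity
  have ha1 : a ≤ 64 * t := rpow_le ht (by linarith)
  have hag : a * gs t 0 = 1 := by
    unfold gs
    rw [Real.rpow_neg (by positivity), ← ha, ← mul_assoc, mul_inv_cancel₀ ha0.ne', one_mul]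
    simp
  have k1 : a * w t 0 = S t 0 := by
    have : χ (‖(0 : E3)‖ ^ 2) = 1 := (c3 _ (by
      rw [norm_zero, zero_pow two_ne_zero]; positivity)).1
    simp only [hw, this, one_mul]
    rw [hw0S, hd0, Real.sqrt_one, div_one, ← mul_assoc, hag, one_mul]
  have hS0 : S t 0 = ∑ k ∈ Finset.range (N + 1), G.bb u k 0 * t ^ k + 2 * C1 * t ^ (N + 1) :=
    rfl
  have k2 := mul_le_mul_of_nonneg_left main ha0.le
  have k3 : a * (c' * t ^ (N + 1)) ≤ 64 * (c' * t ^ (N + 1)) :=
    mul_le_mul_of_nonneg_right (by linarith) (by positivity)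
  linarith

end Pool.Agent.Lib.MP_1a4aff_gt.I3
end
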