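import Pool.Agent.Lib.MP_1a4aff_gt.I3.BrB

-- part Pool.Agent.Lib.MP_1a4aff_gt.I3.Sob
section

/-! A Sobolev inequality that does not need the injectivity radius. -/

set_option autoImplicit false

open MeasureTheory Set Filter Topology Metric
open scoped ContDiff RealInnerProductSpace ENNReal

namespace Pool.Agent.Lib.MP_1a4aff_gt.I3

namespace Sob

theorem taylor {φ : ℕ → ℝ → ℝ} (hd : ∀ k s, HasDerivAt (φ k) (φ (k + 1) s) s) {P : ℝ → ℝ}
    (hc : Continuous P) (hP : ∀ k < 5, ∀ s ∈ Icc (0 : ℝ) 1, φ k s ^ 2 ≤ P s) :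
    φ 0 0 ^ 2 ≤ 22 * P 1 + 6 * ∫ s in (0 : ℝ)..1, s ^ 3 * P s := by
  have c4 : Continuous (φ 4) := continuous_iff_continuousAt.2 fun s => (hd 4 s).continuousAt
  have e := intervalIntegral.integral_eq_sub_of_hasDerivAt (a := 0) (b := 1)
    (f := fun s => -φ 0 0 * (φ 0 s - s * φ 1 s + s ^ 2 / 2 * φ 2 s - s ^ 3 / 6 * φ 3 s))
    (f' := fun s => φ 0 0 * (s ^ 3 / 6 * φ 4 s)) (fun s _ => by
      refine (((((hd 0 s).sub ((hasDerivAt_id s).mul (hd 1 s))).add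
        (((hasDerivAt_pow 2 s).div_const 2).mul (hd 2 s))).sub
        (((hasDerivAt_pow 3 s).div_const 6).mul (hd 3 s))).const_mul (-φ 0 0)).congr_deriv ?_
      simp only [id]
      norm_num
      ring) (Continuous.intervalIntegrable (by fun_prop) _ _)
  have i : ∫ s in (0 : ℝ)..1, φ 0 0 * (s ^ 3 / 6 * φ 4 s) ≤
      ∫ s in (0 : ℝ)..1, (φ 0 0 ^ 2 / 8 + 2 * (s ^ 3 * P s)) :=
    intervalIntegral.integral_mono_on zero_le_one (Continuous.intervalIntegrable (by fun_prop) _ _)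
      (Continuous.intervalIntegrable (by fun_prop) _ _) fun s hs => by
        have h0 := pow_nonneg hs.1 3
        have h1 := pow_le_one₀ hs.1 hs.2 (n := 3)
        have h2 := mul_le_mul_of_nonneg_left (hP 4 (by norm_num) s hs) h0
        have h3 := mul_nonneg h0 (sq_nonneg (φ 4 s))
        nlinarith [sq_nonneg (φ 0 0 - 2 / 3 * s ^ 3 * φ 4 s), mul_le_mul_of_nonneg_right h1 h3]
  rw [e, intervalIntegral.integral_add (Continuous.intervalIntegrable (by fun_prop) _ _)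
    (Continuous.intervalIntegrable (by fun_prop) _ _), intervalIntegral.integral_const_mul] at i
  have o : (1 : ℝ) ∈ Icc (0 : ℝ) 1 := ⟨zero_le_one, le_rfl⟩
  have a0 := hP 0 (by norm_num) 1 o
  have a1 := hP 1 (by norm_num) 1 o
  have a2 := hP 2 (by norm_num) 1 o
  have a3 := hP 3 (by norm_num) 1 o
  have : 0 ≤ ∫ s in (0 : ℝ)..1, s ^ 3 * P s := intervalIntegral.integral_nonneg zero_le_one
    fun s hs => mul_nonneg (pow_nonneg hs.1 3) ((sq_nonneg _).trans (hP 0 (by norm_num) s hs))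
  simp only [intervalIntegral.integral_const, sub_zero, one_smul] at i
  nlinarith [sq_nonneg (φ 0 0 - 4 * φ 0 1), sq_nonneg (φ 0 0 + 4 * φ 1 1),
    sq_nonneg (φ 0 0 - 4 * φ 2 1), sq_nonneg (φ 0 0 + 4 * φ 3 1)]

variable {n : ℕ}

theorem TV_le (C : Con n) {v : E3} (hv : ‖v‖ ≤ 1 / 3) (I : List (Fin 3)) (a b : Fin 3) (w : Fr n)
    (k : ℕ) : ∀ J : List (Fin 3), |C.TV (J.map ee ++ (List.replicate k v ++ I.map ee))
      (ee a) (ee b) w| ≤ √(C.nd (I.length + (k + J.length)) w) := by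
  induction k with
  | zero =>
    intro J
    refine Real.abs_le_sqrt ?_
    have := C.T_sq_le_nd (J ++ I) a b w
    rw [List.length_append, add_comm] at this
    simpa [Con.T] using this
  | succ k ih =>
    intro J
    rw [List.replicate_succ, List.cons_append, lin_sum_ee (C.TV_lin _ _ _ _ _) v]
    refine (Finset.abs_sum_le_sum_abs _ _).trans ((Finset.sum_le_sum
      (g := fun _ => 1 / 3 * √(C.nd (I.length + (k + 1 + J.length)) w)) fun c _ => ?_).trans ?_)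
    · have := ih (J ++ [c])
      rw [List.map_append, List.append_assoc, List.length_append, List.length_singleton,
        show k + (J.length + 1) = k + 1 + J.length by omega] at this
      rw [abs_mul]
      exact mul_le_mul ((abs_apply_le v c).trans hv) this (abs_nonneg _) (by norm_num)
    · simp

/-- the sum of the squared norms -/
noncomputable def Ps (C : Con n) (m : ℕ) (w : Fr n) : ℝ := ∑ k ∈ Finset.range 5, C.nd (m + k) w

theorem cont_Ps (C : Con n) (m : ℕ) : Continuous (Ps C m) :=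
  continuous_finsetSum _ fun _ _ => (C.contDiff_nd _).continuous

theorem Ps_nn (C : Con n) (m : ℕ) (w : Fr n) : 0 ≤ Ps C m w :=
  Finset.sum_nonneg fun _ _ => C.nd_nonneg _ _

theorem radial (X : Flo n) {u : Fr n} (hu : u ∈ X.F) (I : List (Fin 3)) (a b : Fin 3) {v : E3}
    (hv : ‖v‖ ≤ 1 / 3) : X.T I a b u ^ 2 ≤ 22 * Ps X.toCon I.length (X.Ex u v) +
      6 * ∫ s in (0 : ℝ)..1, s ^ 3 * Ps X.toCon I.length (X.Ex u (s • v)) := by
  have := taylor (φ := fun k s => X.TV (List.replicate k v ++ I.map ee) (ee a) (ee b)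
    (X.Ex u (s • v))) (P := fun s => Ps X.toCon I.length (X.Ex u (s • v)))
    (fun k s => ((X.contDiff_TV _ _ _).differentiable (by simp) _).hasFDerivAt.comp_hasDerivAt s
      (X.Ex_ode u hu v s))
    ((cont_Ps _ _).comp ((X.contDiff_Ex u).continuous.comp (by fun_prop))) fun k hk s _ => by
      have h := TV_le X.toCon hv I a b (X.Ex u (s • v)) k []
      have h' := pow_le_pow_left₀ (abs_nonneg _) h 2
      rw [sq_abs, Real.sq_sqrt (X.nd_nonneg _ _)] at h'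
      exact h'.trans (Finset.single_le_sum (f := fun k => X.nd (I.length + k) (X.Ex u (s • v)))
        (fun _ _ => X.nd_nonneg _ _) (Finset.mem_range.2 hk))
  simpa [X.Ex_zero, Con.T] using this

theorem scale {Ψ : E3 → ℝ≥0∞} (hΨ : Measurable Ψ) (r : ℝ) {s : ℝ} (hs : s ∈ Ioc (0 : ℝ) 1) :
    ENNReal.ofReal (s ^ 3) * ∫⁻ v in ball 0 r, Ψ (s • v) ≤ ∫⁻ v in ball 0 r, Ψ v := by
  have m := hΨ.indicator (measurableSet_ball (x := (0 : E3)) (ε := r))
  have h1 : ∫⁻ v in ball 0 r, Ψ (s • v) ≤ ∫⁻ v, (ball 0 r).indicator Ψ (s • v) := by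
    refine le_trans (setLIntegral_mono' measurableSet_ball fun v hv => ?_)
      (setLIntegral_le_lintegral (ball 0 r) _)
    rw [indicator_of_mem]
    rw [mem_ball_zero_iff] at hv ⊢
    rw [norm_smul, Real.norm_of_nonneg hs.1.le]
    exact (mul_le_of_le_one_left (norm_nonneg _) hs.2).trans_lt hv
  rw [← lintegral_map m (measurable_const_smul s), Measure.map_addHaar_smul _ hs.1.ne',
    lintegral_smul_measure, lintegral_indicator measurableSet_ball, finrank_euclideanSpace_fin,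
    abs_of_pos (inv_pos.2 (pow_pos hs.1 3)), smul_eq_mul] at h1
  refine (mul_le_mul_right h1 _).trans_eq ?_
  rw [← mul_assoc, ← ENNReal.ofReal_mul (pow_pos hs.1 3).le, mul_inv_cancel₀ (pow_pos hs.1 3).ne',
    ENNReal.ofReal_one, one_mul]

theorem average {P : E3 → ℝ} (hc : Continuous P) (h0 : ∀ v, 0 ≤ P v) {x r : ℝ}
    (h : ∀ v ∈ ball (0 : E3) r, x ≤ 22 * P v + 6 * ∫ s in (0 : ℝ)..1, s ^ 3 * P (s • v)) :
    ENNReal.ofReal x * volume (ball (0 : E3) r) ≤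
      28 * ∫⁻ v in ball 0 r, ENNReal.ofReal (P v) := by
  have m : Measurable fun v => ENNReal.ofReal (P v) := hc.measurable.ennreal_ofReal
  have m2 : Measurable fun z : E3 × ℝ =>
      ENNReal.ofReal (z.2 ^ 3) * ENNReal.ofReal (P (z.2 • z.1)) :=
    (Measurable.ennreal_ofReal (by fun_prop)).mul (m.comp (by fun_prop))
  calc ENNReal.ofReal x * volume (ball (0 : E3) r) = ∫⁻ _ in ball (0 : E3) r, ENNReal.ofReal x :=
        (setLIntegral_const _ _).symm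
    _ ≤ ∫⁻ v in ball (0 : E3) r, (22 * ENNReal.ofReal (P v) + 6 * ∫⁻ s in Ioc (0 : ℝ) 1,
          ENNReal.ofReal (s ^ 3) * ENNReal.ofReal (P (s • v))) := by
        refine setLIntegral_mono' measurableSet_ball fun v hv => ?_
        refine (ENNReal.ofReal_le_ofReal (h v hv)).trans (ENNReal.ofReal_add_le.trans_eq ?_)
        rw [ENNReal.ofReal_mul (by norm_num), ENNReal.ofReal_mul (by norm_num),
          intervalIntegral.integral_of_le zero_le_one, ofReal_integral_eq_lintegral_ofReal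
            (Continuous.integrableOn_Ioc (by fun_prop))
            (ae_restrict_of_forall_mem measurableSet_Ioc fun s hs =>
              mul_nonneg (pow_pos hs.1 3).le (h0 _)),
          setLIntegral_congr_fun measurableSet_Ioc fun s hs =>
            ENNReal.ofReal_mul (pow_pos hs.1 3).le]
        simp
    _ = 22 * (∫⁻ v in ball (0 : E3) r, ENNReal.ofReal (P v)) + 6 * ∫⁻ s in Ioc (0 : ℝ) 1,
          ENNReal.ofReal (s ^ 3) * ∫⁻ v in ball (0 : E3) r, ENNReal.ofReal (P (s • v)) := by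
        rw [lintegral_add_left (m.const_mul _), lintegral_const_mul _ m,
          lintegral_const_mul' _ _ (by simp), lintegral_lintegral_swap m2.aemeasurable]
        simp only [lintegral_const_mul' _ _ ENNReal.ofReal_ne_top]
    _ ≤ 22 * (∫⁻ v in ball (0 : E3) r, ENNReal.ofReal (P v)) + 6 * ∫⁻ _ in Ioc (0 : ℝ) 1,
          ∫⁻ v in ball (0 : E3) r, ENNReal.ofReal (P v) :=
        add_le_add_right (mul_le_mul_right
          (setLIntegral_mono' measurableSet_Ioc fun s hs => scale m r hs) _) _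
    _ = _ := by
        rw [setLIntegral_const, Real.volume_Ioc, sub_zero, ENNReal.ofReal_one, mul_one, ← add_mul]
        norm_num

end Sob

open Sob in
theorem sob_holds (_hR : RadStmt) (hB : BiaStmt) (hL : LiftStmt) : SobStmt := by
  refine ⟨56 * volume.real (ball (0 : E3) (1 / 8)) / volume.real (ball (0 : E3) (1 / 32)),
    fun n G hG u hu I a b => ?_⟩
  set A := G.ex u '' closedBall 0 (1 / 32)
  have hA : MeasurableSet A :=
    ((isCompact_closedBall _ _).image (G.contDiff_ex u).continuous).measurableSet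
  have m : Measurable fun w => ENNReal.ofReal (Ps G.toCon I.length w) :=
    (cont_Ps _ _).measurable.ennreal_ofReal
  have c := (cont_Ps G.toCon I.length).comp (G.contDiff_Ex u).continuous
  have h1 := average c (fun _ => Ps_nn _ _ _) (r := 1 / 32) fun v hv => radial G.toFlo hu I a b
    ((mem_ball_zero_iff.1 hv).le.trans (by norm_num))
  have h2 : ∀ u' ∈ G.F, u'.1 ∈ A → ENNReal.ofReal (G.T I a b u ^ 2) *
      volume (ball (0 : E3) (1 / 32)) ≤ 56 * ∫⁻ y in ball 0 (1 / 8),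
        ENNReal.ofReal (Ps G.toCon I.length (G.Ex u' y)) := by
    rintro u' hu' ⟨v, hv, e⟩
    rw [mem_closedBall_zero_iff] at hv
    obtain ⟨ψ, -, -, h3, -, -, h4⟩ :=
      hL n G.toFlo hG u hu u' hu' v (hv.trans (by norm_num)) e.symm
    refine h1.trans ((mul_le_mul_right ((lintegral_mono_set fun z hz => ?_).trans
      (h4 _ c.measurable.ennreal_ofReal)) _).trans_eq ?_)
    · rw [mem_ball_zero_iff] at hz
      rw [mem_ball_iff_norm]
      linarith [norm_sub_le z v]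
    · rw [← mul_assoc, setLIntegral_congr_fun measurableSet_ball
        (g := fun y => ENNReal.ofReal (Ps G.toCon I.length (G.Ex u' y))) fun y hy => ?_]
      · norm_num
      · obtain ⟨Q, hQ, e⟩ := G.fiber _ (G.Ex_mem u hu (ψ y)) _ (G.Ex_mem u' hu' y) (h3 y hy).2
        simp only [Function.comp, Ps, e,
          fun m => ((hB n G.toCon _ (G.Ex_mem u hu (ψ y))).2.2.2.2.2 Q hQ m).1]
  have h3 : ENNReal.ofReal (G.T I a b u ^ 2) * volume (ball (0 : E3) (1 / 32)) * G.mu A ≤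
      56 * (ENNReal.ofReal (∑ k ∈ Finset.range 5, G.nn (I.length + k)) *
        volume (ball (0 : E3) (1 / 8))) := by
    rw [← G.lift.fst, Measure.map_apply measurable_fst hA, ← setLIntegral_const]
    refine (lintegral_mono_ae ((ae_restrict_iff' (measurable_fst hA)).2
      (G.ae_F.mono h2))).trans ((setLIntegral_le_lintegral _ _).trans_eq ?_)
    rw [lintegral_const_mul' _ _ (by simp), lintegral_lintegral_swap
      (f := fun u' y => ENNReal.ofReal (Ps G.toCon I.length (G.Ex u' y)))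
      (m.comp G.smEx.continuous.measurable).aemeasurable, ← setLIntegral_const]
    congr 1
    refine lintegral_congr fun y => ?_
    rw [← lintegral_map m (G.contDiff_Ex_left y).continuous.measurable, G.pres,
      ← ofReal_integral_eq_lintegral_ofReal (G.integrable_nu (cont_Ps _ _).continuousOn)
        (Eventually.of_forall (Ps_nn _ _))]
    congr 1
    exact integral_finsetSum _ fun _ _ => G.integrable_nu (G.contDiff_nd _).continuous.continuousOn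
  have h4 := ENNReal.toReal_mono (ENNReal.mul_ne_top (by simp)
    (ENNReal.mul_ne_top ENNReal.ofReal_ne_top measure_ball_lt_top.ne)) h3
  have p : 0 < volume.real (ball (0 : E3) (1 / 32)) :=
    ENNReal.toReal_pos (measure_ball_pos _ _ (by norm_num)).ne' measure_ball_lt_top.ne
  simp only [ENNReal.toReal_mul, ENNReal.toReal_ofReal (sq_nonneg _), ENNReal.toReal_ofNat,
    ENNReal.toReal_ofReal (Finset.sum_nonneg fun k _ => G.nn_nonneg (I.length + k))] at h4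
  rw [div_mul_eq_mul_div, le_div_iff₀ p]
  simp only [Measure.real]
  linarith

end Pool.Agent.Lib.MP_1a4aff_gt.I3
end

-- part Pool.Agent.Lib.MP_1a4aff_gt.I3.Asy
section

/-! The heat invariants are spectral invariants, and the blow-up argument. -/

set_option autoImplicit false

open MeasureTheory Set Filter Topology Metric
open scoped ContDiff

namespace Pool.Agent.Lib.MP_1a4aff_gt.I3

namespace Asy

/-- asymptotic expansion at zero -/
def Exp (F : ℝ → ℝ) (a : ℕ → ℝ) : Prop :=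
  ∀ N : ℕ, ∃ C : ℝ, ∃ t₀ > 0, ∀ t, 0 < t → t ≤ t₀ →
    |F t - ∑ k ∈ Finset.range (N + 1), a k * t ^ k| ≤ C * t ^ (N + 1)

theorem Exp.unique {F : ℝ → ℝ} {a b : ℕ → ℝ} (ha : Exp F a) (hb : Exp F b) (m : ℕ) :
    a m = b m := by
  induction m using Nat.strong_induction_on with
  | _ m ih =>
    obtain ⟨C, t₀, h0, hC⟩ := ha m
    obtain ⟨D, t₁, h1, hD⟩ := hb m
    have key : ∀ t, 0 < t → t ≤ min t₀ t₁ → |a m - b m| ≤ (C + D) * t := fun t ht ht' => by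
      have e1 := hC t ht (ht'.trans (min_le_left _ _))
      have e2 := hD t ht (ht'.trans (min_le_right _ _))
      have e3 : ∑ k ∈ Finset.range m, a k * t ^ k = ∑ k ∈ Finset.range m, b k * t ^ k :=
        Finset.sum_congr rfl fun k hk => by rw [ih k (Finset.mem_range.1 hk)]
      rw [Finset.sum_range_succ] at e1 e2
      rw [e3] at e1
      have hp : 0 < t ^ m := pow_pos ht m
      refine le_of_mul_le_mul_right ?_ hp
      rw [← abs_of_pos hp, ← abs_mul, abs_of_pos hp]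
      have e4 := abs_le.1 e1
      have e5 := abs_le.1 e2
      rw [pow_succ] at e4 e5
      exact abs_le.2 ⟨by linarith [e4.1, e4.2, e5.1, e5.2], by linarith [e4.1, e4.2, e5.1, e5.2]⟩
    have lim : Tendsto (fun t : ℝ => (C + D) * t) (𝓝[>] 0) (𝓝 0) := by
      have : Tendsto (fun t : ℝ => (C + D) * t) (𝓝 0) (𝓝 ((C + D) * 0)) :=
        (continuous_const.mul continuous_id).tendsto 0
      rw [mul_zero] at this
      exact this.mono_left nhdsWithin_le_nhds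
    have : |a m - b m| ≤ 0 := ge_of_tendsto lim (by
      filter_upwards [Ioc_mem_nhdsGT (lt_min h0 h1)] with t ht using key t ht.1 ht.2)
    exact sub_eq_zero.1 (abs_nonpos_iff.1 this)

theorem rpow_scale {r t : ℝ} (hr : 0 < r) (ht : 0 ≤ t) :
    (4 * Real.pi * (r ^ 2 * t)) ^ (3 / 2 : ℝ) = r ^ 3 * (4 * Real.pi * t) ^ (3 / 2 : ℝ) := by
  have e : 4 * Real.pi * (r ^ 2 * t) = r ^ 2 * (4 * Real.pi * t) := by ring
  rw [e, Real.mul_rpow (by positivity) (by positivity), ← Real.rpow_natCast, ← Real.rpow_mul hr.le,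
    ← Real.rpow_natCast]
  norm_num

theorem ZZ_scale {μ lam : ℕ → ℝ} {s : ℝ} (hs : 0 < s) (h : ∀ k, μ k = lam k / s ^ 2) (t : ℝ) :
    ZZ μ (s ^ 2 * t) = ZZ lam t := by
  unfold ZZ
  refine tsum_congr fun j => ?_
  rw [h j]
  congr 2
  field_simp

/-- the normalised heat trace -/
noncomputable def FF (lam : ℕ → ℝ) (t : ℝ) : ℝ := (4 * Real.pi * t) ^ (3 / 2 : ℝ) * ZZ lam t

theorem diff_scale {n : ℕ} {G : Geo n} {lam α : ℕ → ℝ} {s t : ℝ} (hs : 0 < s) (ht : 0 ≤ t)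
    (h : ∀ k, G.eig k = lam k / s ^ 2) (hα : ∀ k, G.hk k * s ^ (2 * k) = α k * s ^ 3) (N : ℕ) :
    (4 * Real.pi * (s ^ 2 * t)) ^ (3 / 2 : ℝ) * ZZ G.eig (s ^ 2 * t) -
      ∑ k ∈ Finset.range N, G.hk k * (s ^ 2 * t) ^ k =
      s ^ 3 * (FF lam t - ∑ k ∈ Finset.range N, α k * t ^ k) := by
  rw [rpow_scale hs ht, ZZ_scale hs h, FF, mul_sub, Finset.mul_sum, mul_assoc]
  congr 1
  refine Finset.sum_congr rfl fun k _ => ?_
  rw [mul_pow, ← pow_mul, ← mul_assoc, hα k]; ring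

theorem exp_of (hT : TrcStmt) (hI : InjStmt) {n : ℕ} (G : Geo n) {lam : ℕ → ℝ} {s : ℝ}
    (hs : 0 < s) (h0 : G.Bd 0 1) (h : ∀ k, G.eig k = lam k / s ^ 2) :
    Exp (FF lam) fun k => G.hk k * s ^ (2 * k) / s ^ 3 := by
  intro N
  obtain ⟨c, -, hT⟩ := hT
  obtain ⟨J, hJ⟩ := hT N
  obtain ⟨B, hB⟩ := hI.2.1 n G.toCon J
  obtain ⟨K, hK⟩ := hI.1 n G.toCon
  obtain ⟨ρ, hρ, -, hinj⟩ := hI.2.2 K
  obtain ⟨C, t₀, ht₀, hC⟩ := (hJ B).2 ρ hρ
  refine ⟨C * (s ^ 2) ^ (N + 1) * G.V / s ^ 3, t₀ / s ^ 2, by positivity, fun t ht ht' => ?_⟩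
  have e := hC n G h0 hB (hinj n G.toFlo h0 hK) (s ^ 2 * t) (by positivity)
    (by rwa [le_div_iff₀' (by positivity)] at ht')
  rw [diff_scale (α := fun k => G.hk k * s ^ (2 * k) / s ^ 3) hs ht.le h
    (fun k => by field_simp), abs_mul, abs_of_pos (pow_pos hs 3)] at e
  rw [div_mul_eq_mul_div, le_div_iff₀' (pow_pos hs 3)]
  refine e.trans_eq ?_
  rw [mul_pow]; ring

theorem exists_bd {n : ℕ} (C : Con n) (J : ℕ) : ∃ B, C.Bd J B := by
  have h : ∀ z : List (Fin 3) × Fin 3 × Fin 3, ∃ B, ∀ u ∈ C.F, ‖C.T z.1 z.2.1 z.2.2 u‖ ≤ B :=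
    fun z => C.cptF.exists_bound_of_continuousOn (C.contDiff_T _ _ _).continuous.continuousOn
  choose B hB using h
  have hf := ((List.finite_length_le (Fin 3) J).prod (finite_univ (α := Fin 3 × Fin 3))).image B
  obtain ⟨D, hD⟩ := hf.bddAbove
  exact ⟨D, fun u hu I hI a b => (hB (I, a, b) u hu).trans (hD ⟨(I, a, b), ⟨hI, trivial⟩, rfl⟩)⟩

theorem nn_bd (hG : GilStmt) (α : ℕ → ℝ) (J M : ℕ) (hM : 2 * M ≤ 3 * J + 4) :
    ∃ D : ℝ, 0 ≤ D ∧ ∀ (n : ℕ) (G : Geo n) (y : ℝ), 0 ≤ y → G.Bd J 1 →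
      (∀ m, |G.hk (m + 2)| ≤ |α (m + 2)| * y) → ∀ j < M, G.nn j ≤ D * y := by
  induction M with
  | zero => exact ⟨0, le_rfl, fun _ _ _ _ _ _ j hj => absurd hj (Nat.not_lt_zero j)⟩
  | succ M ih =>
    obtain ⟨D, hD0, hD⟩ := ih (by omega)
    obtain ⟨a, ha, C, hC⟩ := hG M
    refine ⟨D + (|α (M + 2)| + |C| * (M * D)) / a, by positivity, fun n G y hy hB hh j hj => ?_⟩
    have h1 := hD n G y hy hB hh
    have p0 : 0 ≤ (|α (M + 2)| + |C| * (M * D)) / a * y := by positivity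
    rcases Nat.lt_succ_iff_lt_or_eq.1 hj with hj | rfl
    · nlinarith [h1 j hj]
    · have h2 := hC n G J (by omega) hB
      have h3 : ∑ i ∈ Finset.range j, G.nn i ≤ j * (D * y) := by
        simpa using Finset.sum_le_card_nsmul (Finset.range j) G.nn (D * y)
          fun i hi => h1 i (Finset.mem_range.1 hi)
      have h4 : C * ∑ i ∈ Finset.range j, G.nn i ≤ |C| * (j * (D * y)) :=
        (mul_le_mul_of_nonneg_right (le_abs_self C)
          (Finset.sum_nonneg fun i _ => G.nn_nonneg i)).trans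
          (mul_le_mul_of_nonneg_left h3 (abs_nonneg _))
      have h5 : G.nn j ≤ (|α (j + 2)| + |C| * (j * D)) / a * y := by
        rw [div_mul_eq_mul_div, le_div_iff₀' ha]
        linarith [hh j]
      nlinarith [mul_nonneg hD0 hy]

/-- all derivatives of the curvature are bounded at the scale `x ^ 4` -/
def Q {n : ℕ} (G : Geo n) (J : ℕ) (x : ℝ) : Prop :=
  ∀ u ∈ G.F, ∀ I : List (Fin 3), I.length ≤ J → ∀ a b, |G.T I a b u| ≤ (x ^ 4) ^ (I.length + 2)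

theorem final {y P C K E V μ S Z R A : ℝ} (hy : 0 < y) (hP : 1 ≤ P) (h1 : 2048 * |C| * y ^ 2 ≤ 1)
    (h2 : 2 * K * y < 1) (h : S - V - C * μ + A * (1 - C * y ^ 2 / (1 / 32) ^ 2) ≤ Z)
    (h6 : Z - S = R) (h7 : R ≤ E) (h8 : A = y ^ 3 * P) (h3 : E + V + C * μ ≤ K * y ^ 4) :
    False := by
  rw [h8] at h
  have a1 : 1 / 2 ≤ 1 - C * y ^ 2 / (1 / 32) ^ 2 := by
    have := mul_le_mul_of_nonneg_right (le_abs_self C) (sq_nonneg y)
    norm_num at this ⊢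
    linarith
  have a2 : y ^ 3 * 1 * (1 / 2) ≤ y ^ 3 * P * (1 - C * y ^ 2 / (1 / 32) ^ 2) := by gcongr
  have a3 := mul_lt_mul_of_pos_left h2 (pow_pos hy 3)
  nlinarith

theorem step (hA : AsyStmt) (hT : TrcStmt) (hG : GilStmt) (hS : SobStmt) (hC : ScaleStmt)
    (lam : ℕ → ℝ) (J₀ : ℕ) : ∃ J ≥ J₀, ∃ x₀ : ℕ, ∀ (n : ℕ) (G : Geo n), (∀ k, G.eig k = lam k) →
      ∀ x : ℝ, x₀ ≤ x → Q G J (x + 1) → Q G J x := by
  obtain ⟨α, hα, hE⟩ := hA lam
  obtain ⟨c, -, hT⟩ := hT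
  obtain ⟨J₁, hJ⟩ := hT 8
  obtain ⟨C, t₀, ht₀, hT⟩ := (hJ 1).1
  obtain ⟨CS, hS⟩ := hS
  obtain ⟨J, hJ0, hJ1, hJ6⟩ : ∃ J, J₀ ≤ J ∧ J₁ ≤ J ∧ 6 ≤ J := ⟨J₀ + J₁ + 6, by omega⟩
  obtain ⟨D, hD0, hD⟩ := nn_bd hG α J (J + 5) (by omega)
  obtain ⟨CE, t₁, ht₁, hE⟩ : ∃ CE : ℝ, ∃ t₁ > 0, ∀ (n : ℕ) (G : Geo n) (s : ℝ), 0 < s → G.Bd 0 1 →
      (∀ k, G.eig k = lam k / s ^ 2) → ∀ t, 0 < t → t ≤ t₁ →
        |FF lam t - ∑ k ∈ Finset.range (8 + 1), α k * t ^ k| ≤ CE * t ^ (8 + 1) := by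
    by_cases h : ∃ (n : ℕ) (G : Geo n) (s : ℝ), 0 < s ∧ G.Bd 0 1 ∧ ∀ k, G.eig k = lam k / s ^ 2
    · obtain ⟨n, G, s, h1, h2, h3⟩ := h
      obtain ⟨CE, t₁, ht₁, h⟩ := hE n G s h1 h2 h3 8
      exact ⟨CE, t₁, ht₁, fun _ _ _ _ _ _ => h⟩
    · exact ⟨0, 1, one_pos, fun n G s h1 h2 h3 => absurd ⟨n, G, s, h1, h2, h3⟩ h⟩
  obtain ⟨η, hη, hη'⟩ : ∃ η : ℝ, 0 < η ∧ η = ((1 / 2) ^ 4) ^ (J + 2) := ⟨_, by positivity, rfl⟩
  obtain ⟨K, hK0, hK⟩ : ∃ K : ℝ, 0 ≤ K ∧ K = |CE| + |C| * |α 0| + |C| * (|CS| * (5 * D) / η ^ 2) :=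
    ⟨_, by positivity, rfl⟩
  obtain ⟨x₀, hx₀⟩ := exists_nat_ge (1 + 2048 * |C| + 2 * K + t₀⁻¹ + t₁⁻¹)
  refine ⟨J, hJ0, x₀, fun n G he x hx hQ u hu I hI a b => ?_⟩
  by_contra hlt
  rw [not_le] at hlt
  have i0 := inv_pos.2 ht₀
  have i1 := inv_pos.2 ht₁
  have c0 := abs_nonneg C
  have hx1 : 1 ≤ x := by linarith
  obtain ⟨y, hy, hxy⟩ : ∃ y : ℝ, 0 < y ∧ (x + 1) * y = 1 :=
    ⟨(x + 1)⁻¹, by positivity, mul_inv_cancel₀ (by positivity)⟩
  have small : ∀ z : ℝ, 0 ≤ z → z ≤ x → z * y < 1 := fun z h0 hz => by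
    nlinarith only [hz, hy, hxy]
  have hy1 : y ≤ 1 := by linarith [small 1 zero_le_one hx1]
  have pw : ∀ {p q : ℕ}, q ≤ p → y ^ p ≤ y ^ q := fun h => pow_le_pow_of_le_one hy.le hy1 h
  have tle : ∀ t : ℝ, 0 < t → t⁻¹ ≤ x → y ≤ t := fun t ht h => by
    have := small _ (inv_pos.2 ht).le h
    rw [inv_mul_lt_iff₀ ht] at this
    linarith
  obtain ⟨s, hs, hsx⟩ : ∃ s : ℝ, 0 < s ∧ s = (x + 1) ^ 4 := ⟨_, by positivity, rfl⟩
  have hsy : s * y ^ 4 = 1 := by rw [hsx, ← mul_pow, hxy, one_pow]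
  obtain ⟨G', φ, -, -, he', hF, hT'⟩ := hC n G s hs
  simp only [he] at he'
  have hB : G'.Bd J 1 := fun u' hu' I hI a b => by
    rw [hF] at hu'
    obtain ⟨u, hu, rfl⟩ := hu'
    rw [hT' u hu, abs_div, abs_of_pos (pow_pos hs _), div_le_one (pow_pos hs _), hsx]
    exact hQ u hu I hI a b
  have hB0 : G'.Bd 0 1 := hB.mono (Nat.zero_le _) le_rfl
  have hu' : φ u ∈ G'.F := hF ▸ mem_image_of_mem φ hu
  obtain ⟨hV, hk⟩ := hα n G' s hs hB0 he'
  have h1 : ∀ m, |G'.hk (m + 2)| ≤ |α (m + 2)| * y ^ 4 := fun m => by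
    have e : G'.hk (m + 2) = α (m + 2) * (y ^ 4) ^ (2 * m + 1) := by
      have e1 : (s * y ^ 4) ^ (2 * (m + 2)) = 1 := by rw [hsy, one_pow]
      have e2 : (s * y ^ 4) ^ 3 = 1 := by rw [hsy, one_pow]
      calc G'.hk (m + 2) = G'.hk (m + 2) * (s * y ^ 4) ^ (2 * (m + 2)) := by rw [e1, mul_one]
        _ = α (m + 2) * s ^ 3 * (y ^ 4) ^ (2 * (m + 2)) := by rw [mul_pow, ← mul_assoc, hk]
        _ = α (m + 2) * (y ^ 4) ^ (2 * m + 1) * (s * y ^ 4) ^ 3 := by ring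
        _ = _ := by rw [e2, mul_one]
    rw [e, abs_mul, abs_of_pos (by positivity : 0 < (y ^ 4) ^ (2 * m + 1)), ← pow_mul]
    exact mul_le_mul_of_nonneg_left (pw (by omega)) (abs_nonneg _)
  have h2 := hD n G' (y ^ 4) (by positivity) hB h1
  have h3 : η ≤ |G'.T I a b (φ u)| := by
    rw [hT' u hu, abs_div, abs_of_pos (pow_pos hs _), le_div_iff₀ (pow_pos hs _)]
    refine le_trans ?_ hlt.le
    calc η * s ^ (I.length + 2) ≤ ((1 / 2) ^ 4) ^ (I.length + 2) * s ^ (I.length + 2) := by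
          rw [hη']
          exact mul_le_mul_of_nonneg_right
            (pow_le_pow_of_le_one (by norm_num) (by norm_num) (by omega)) (by positivity)
      _ = ((1 / 2 * (x + 1)) ^ 4) ^ (I.length + 2) := by rw [hsx, ← mul_pow, ← mul_pow]
      _ ≤ _ := by gcongr; linarith
  obtain ⟨μ, hμ0, hμ⟩ : ∃ μ : ℝ, 0 ≤ μ ∧ μ = G'.mu.real (G'.ex (φ u) '' closedBall 0 (1 / 32)) :=
    ⟨_, measureReal_nonneg, rfl⟩
  have h4 : μ ≤ |CS| * (5 * D) / η ^ 2 * y ^ 4 := by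
    have e1 := hS n G' hB0 _ hu' I a b
    have e2 : ∑ k ∈ Finset.range 5, G'.nn (I.length + k) ≤ 5 * (D * y ^ 4) := by
      simpa using Finset.sum_le_card_nsmul (Finset.range 5) (fun k => G'.nn (I.length + k))
        (D * y ^ 4) fun k hk => h2 _ (by have := Finset.mem_range.1 hk; omega)
    have e3 := (mul_le_mul_of_nonneg_right (le_abs_self CS)
      (Finset.sum_nonneg fun k _ => G'.nn_nonneg (I.length + k))).trans
      (mul_le_mul_of_nonneg_left e2 (abs_nonneg _))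
    have e4 : η ^ 2 ≤ G'.T I a b (φ u) ^ 2 := by rw [← sq_abs (G'.T _ _ _ _)]; gcongr
    rw [← hμ] at e1
    rw [div_mul_eq_mul_div, le_div_iff₀' (by positivity)]
    linarith [mul_le_mul_of_nonneg_right e4 hμ0]
  have e2 : y ^ 2 = s ^ 2 * y ^ 10 := by
    calc y ^ 2 = (s * y ^ 4) ^ 2 * y ^ 2 := by rw [hsy]; ring
      _ = _ := by ring
  have h5 := (hT n G' hB0 (hB.mono hJ1 le_rfl) (y ^ 2) (by positivity)
    ((pw (p := 2) (q := 1) (by omega)).trans (by rw [pow_one]; exact tle _ ht₀ (by linarith)))).1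
    _ hu' (1 / 32) (by norm_num) (by norm_num)
  have h6 := diff_scale (t := y ^ 10) hs (by positivity) he' hk (8 + 1)
  have h7 := (abs_le.1 (hE n G' s hs hB0 he' (y ^ 10) (by positivity)
    ((pw (p := 10) (q := 1) (by omega)).trans
      (by rw [pow_one]; exact tle _ ht₁ (by linarith))))).2
  have h8 := rpow_scale hy zero_le_one
  rw [mul_one, mul_one] at h8
  rw [← e2] at h6
  rw [← hμ, hV] at h5
  have s3 : (s * y ^ 4) ^ 3 = 1 := by rw [hsy, one_pow]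
  refine final (K := K) hy (Real.one_le_rpow (by linarith [Real.pi_gt_three]) (by norm_num)) ?_
    (small _ (by positivity) (by linarith)) h5 h6 (mul_le_mul_of_nonneg_left h7 (pow_pos hs 3).le)
    h8 ?_
  · have := small (2048 * |C|) (by positivity) (by linarith)
    nlinarith only [this, mul_nonneg c0 hy.le, hy1, hy]
  · have a1 : s ^ 3 * (CE * (y ^ 10) ^ (8 + 1)) ≤ |CE| * y ^ 4 :=
      calc _ = CE * y ^ 78 * (s * y ^ 4) ^ 3 := by ring
        _ = CE * y ^ 78 := by rw [s3, mul_one]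
        _ ≤ _ := mul_le_mul (le_abs_self _) (pw (by omega)) (by positivity) (abs_nonneg _)
    have a2 : C * (y ^ 2) ^ (8 + 1) * (α 0 * s ^ 3) ≤ |C| * |α 0| * y ^ 4 :=
      calc _ = C * α 0 * y ^ 6 * (s * y ^ 4) ^ 3 := by ring
        _ = C * α 0 * y ^ 6 := by rw [s3, mul_one]
        _ ≤ _ := mul_le_mul ((le_abs_self _).trans_eq (abs_mul _ _)) (pw (by omega))
          (by positivity) (by positivity)
    have a3 : C * μ ≤ |C| * (|CS| * (5 * D) / η ^ 2 * y ^ 4) :=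
      mul_le_mul (le_abs_self _) h4 hμ0 c0
    rw [hK, add_mul, add_mul, mul_assoc |C| _ (y ^ 4), mul_assoc |C| _ (y ^ 4), ← mul_assoc |C|]
    exact add_le_add (add_le_add a1 a2) a3

end Asy

open Asy in
theorem asy_holds (hT : TrcStmt) (hI : InjStmt) : AsyStmt := by
  intro lam
  by_cases h : ∃ α, Exp (FF lam) α
  · obtain ⟨α, hα⟩ := h
    refine ⟨α, fun n G s hs h0 he => ?_, fun _ _ _ _ _ _ => hα⟩
    have hk : ∀ k, G.hk k * s ^ (2 * k) = α k * s ^ 3 := fun k => by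
      rw [← (exp_of hT hI G hs h0 he).unique hα k]
      field_simp
    exact ⟨by simpa [G.hk_zero] using hk 0, hk⟩
  · exact ⟨0, fun n G s hs h0 he => absurd ⟨_, exp_of hT hI G hs h0 he⟩ h,
      fun n G s hs h0 he => absurd ⟨_, exp_of hT hI G hs h0 he⟩ h⟩

open Asy in
theorem mainA_holds (hA : AsyStmt) (hT : TrcStmt) (hG : GilStmt) (hS : SobStmt)
    (hC : ScaleStmt) : MainAStmt := by
  intro lam J₀
  obtain ⟨J, hJ, x₀, h⟩ := step hA hT hG hS hC lam J₀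
  have one : ∀ d : ℕ, (1 : ℝ) ≤ x₀ + 1 + d := fun d => by
    linarith [(Nat.cast_nonneg x₀ : (0 : ℝ) ≤ x₀), (Nat.cast_nonneg d : (0 : ℝ) ≤ d)]
  refine ⟨((x₀ + 1 : ℝ) ^ 4) ^ (J + 2), fun n G he u hu I hI a b => ?_⟩
  have down : ∀ d : ℕ, Q G J (x₀ + 1 + d) → Q G J (x₀ + 1) := fun d => by
    induction d with
    | zero => simp
    | succ d ih =>
      intro hQ
      refine ih (h n G he _ (by linarith [(Nat.cast_nonneg d : (0 : ℝ) ≤ d)]) ?_)
      simpa only [Nat.cast_succ, add_assoc] using hQ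
  obtain ⟨B, hB⟩ := exists_bd G.toCon J
  obtain ⟨d, hd⟩ := exists_nat_ge B
  have hQ := down d fun u hu I hI a b => by
    refine (hB u hu I hI a b).trans (hd.trans ?_)
    rw [← pow_mul]
    exact le_trans (by linarith [(Nat.cast_nonneg x₀ : (0 : ℝ) ≤ x₀)])
      (le_self_pow₀ (one d) (by omega))
  exact (hQ u hu I (hI.trans hJ) a b).trans
    (pow_le_pow_right₀ (one_le_pow₀ (by simp)) (by omega))

end Pool.Agent.Lib.MP_1a4aff_gt.I3
end

-- part Pool.Agent.Lib.MP_1a4aff_gt.I3.MainB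
section

/-! The spectrum bounds the volume of small balls, the injectivity radius and the covering
numbers. -/

set_option autoImplicit false

open MeasureTheory Set Filter Topology Metric
open scoped ContDiff RealInnerProductSpace ENNReal

namespace Pool.Agent.Lib.MP_1a4aff_gt.I3

namespace MainB

variable {n : ℕ}

theorem inj_fderiv (hR : RadStmt) {X : Flo n} (hB : X.Bd 0 1) {u : Fr n} (hu : u ∈ X.F) {v : E3}
    (hv : ‖v‖ ≤ 1 / 4) : Function.Injective (fderiv ℝ (X.ex u) v) := by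
  obtain ⟨-, -, -, -, -, h1, h2⟩ := hR n X u hu
  rw [(h1 v).2.2.2.1]
  refine (X.frame_inj (X.Ex_mem u hu v)).comp ((injective_iff_map_eq_zero _).2 fun w hw => ?_)
  have h3 := (h2 hB v hv).1
  have h4 := (X.th u v - ContinuousLinearMap.id ℝ E3).le_of_opNorm_le h3 w
  have hw' : X.th u v w = 0 := hw
  simp only [sub_apply, hw', ContinuousLinearMap.id_apply, zero_sub,
    norm_neg] at h4
  have h5 : ‖v‖ ^ 2 ≤ 1 / 16 := by nlinarith [norm_nonneg v]
  have h6 : ‖w‖ ≤ 0 := by nlinarith [norm_nonneg w]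
  exact norm_le_zero_iff.1 h6

theorem loc_inj (hR : RadStmt) (hO : LocStmt) {X : Flo n} (hB : X.Bd 0 1) {u : Fr n}
    (hu : u ∈ X.F) {v : E3} (hv : ‖v‖ ≤ 1 / 4) : ∃ W ∈ 𝓝 v, InjOn (X.ex u) W := by
  obtain ⟨W, U, a, hW, hv', -, -, -, h, -⟩ := hO n X.toData (X.ex u) univ isOpen_univ
    (X.contDiff_ex u).contDiffOn (fun v _ => X.ex_mem hu v) v (mem_univ _)
    (inj_fderiv hR hB hu hv)
  exact ⟨W, hW.mem_nhds hv', fun x hx y hy e => by rw [← (h x hx).2, e, (h y hy).2]⟩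

/-- two lifts of the same map that differ at one point differ everywhere -/
theorem lifts_ne (hR : RadStmt) (hO : LocStmt) {X : Flo n} (hB : X.Bd 0 1) {u : Fr n}
    (hu : u ∈ X.F) {ψ₁ ψ₂ : E3 → E3} (h₁ : ContinuousOn ψ₁ (ball 0 (1 / 8)))
    (h₂ : ContinuousOn ψ₂ (ball 0 (1 / 8))) (hb : ∀ y ∈ ball (0 : E3) (1 / 8), ‖ψ₁ y‖ < 1 / 4)
    (he : ∀ y ∈ ball (0 : E3) (1 / 8), X.ex u (ψ₁ y) = X.ex u (ψ₂ y)) (h0 : ψ₁ 0 ≠ ψ₂ 0) :
    ∀ y ∈ ball (0 : E3) (1 / 8), ψ₁ y ≠ ψ₂ y := by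
  have c₁ : ∀ y ∈ ball (0 : E3) (1 / 8), ContinuousAt ψ₁ y := fun y hy =>
    h₁.continuousAt (isOpen_ball.mem_nhds hy)
  have c₂ : ∀ y ∈ ball (0 : E3) (1 / 8), ContinuousAt ψ₂ y := fun y hy =>
    h₂.continuousAt (isOpen_ball.mem_nhds hy)
  have hne : ∀ y ∈ ball (0 : E3) (1 / 8), ψ₁ y ≠ ψ₂ y → ∀ᶠ z in 𝓝 y, ψ₁ z ≠ ψ₂ z :=
    fun y hy h => ((c₁ y hy).sub (c₂ y hy)).eventually_ne (sub_ne_zero.2 h) |>.mono
      fun z hz => sub_ne_zero.1 hz
  have key : ball (0 : E3) (1 / 8) ⊆ {y | ∀ᶠ z in 𝓝 y, ψ₁ z ≠ ψ₂ z} := by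
    refine IsPreconnected.subset_left_of_subset_union (v := {y | ∀ᶠ z in 𝓝 y, ψ₁ z = ψ₂ z})
      isOpen_setOfPred_eventually_nhds isOpen_setOfPred_eventually_nhds ?_ ?_ ?_
      (convex_ball _ _).isPreconnected
    · exact disjoint_left.2 fun y h h' => h.self_of_nhds h'.self_of_nhds
    · intro y hy
      by_cases h : ψ₁ y = ψ₂ y
      · right
        obtain ⟨W, hW, hI⟩ := loc_inj hR hO hB hu (hb y hy).le
        have hW' : W ∈ 𝓝 (ψ₂ y) := h ▸ hW
        filter_upwards [c₁ y hy hW, c₂ y hy hW', isOpen_ball.mem_nhds hy] with z z1 z2 z3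
        exact hI z1 z2 (he z z3)
      · exact Or.inl (hne y hy h)
    · have : (0 : E3) ∈ ball (0 : E3) (1 / 8) := mem_ball_self (by norm_num)
      exact ⟨0, this, hne 0 this h0⟩
  exact fun y hy => (key hy).self_of_nhds

/-- a short loop produces short loops at all nearby points -/
theorem loops (hL : LiftStmt) (hR : RadStmt) (hO : LocStmt) {X : Flo n} (hB : X.Bd 0 1)
    {u : Fr n} (hu : u ∈ X.F) {r : ℝ} (hr : r ≤ 1 / 100) {v₁ v₂ : E3} (h₁ : ‖v₁‖ ≤ r)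
    (h₂ : ‖v₂‖ ≤ r) (hne : v₁ ≠ v₂) (he : X.ex u v₁ = X.ex u v₂) :
    ∀ w ∈ X.F, w.1 ∈ X.ex (X.Ex u v₁) '' closedBall 0 r →
      ∃ z : E3, z ≠ 0 ∧ ‖z‖ ^ 2 ≤ 36 * r ^ 2 ∧ X.ex w z = w.1 := by
  rintro w hw ⟨y, hy, hyw⟩
  have hr0 : 0 ≤ r := (norm_nonneg _).trans h₁
  have hu' := X.Ex_mem u hu v₁
  obtain ⟨ψ₁, a0, a1, a2, a3, -, -⟩ := hL n X hB u hu _ hu' v₁ (by linarith) rfl
  obtain ⟨ψ₂, b0, b1, b2, b3, -, -⟩ := hL n X hB u hu _ hu' v₂ (by linarith) he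
  have hy' : ‖y‖ ≤ r := mem_closedBall_zero_iff.1 hy
  have hyb : y ∈ ball (0 : E3) (1 / 8) := mem_ball_zero_iff.2 (by linarith)
  have h0 : (0 : E3) ∈ ball (0 : E3) (1 / 8) := mem_ball_self (by norm_num)
  have hd := lifts_ne hR hO hB hu a1 b1 (fun z hz => (a2 z hz).1)
    (fun z hz => (a2 z hz).2.trans (b2 z hz).2.symm) (by rwa [a0, b0]) y hyb
  have n1 : ‖ψ₁ y‖ ≤ 9 / 4 * r := by
    have := (a3 y hyb 0 h0).2
    rw [a0, sub_zero] at this
    have := norm_le_insert' (ψ₁ y) v₁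
    linarith
  have n2 : ‖ψ₂ y‖ ≤ 9 / 4 * r := by
    have := (b3 y hyb 0 h0).2
    rw [b0, sub_zero] at this
    have := norm_le_insert' (ψ₂ y) v₂
    linarith
  obtain ⟨ψ, c0, -, c2, -, c4, -⟩ := hL n X hB u hu w hw (ψ₁ y) (by linarith)
    (hyw.symm.trans (a2 y hyb).2.symm)
  obtain ⟨z, hz, hzψ⟩ := c4 (6 * r) (by linarith) (by linarith) (ψ₂ y)
    ((norm_sub_le _ _).trans (by linarith))
  refine ⟨z, ?_, by nlinarith [norm_nonneg z], ?_⟩
  · rintro rfl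
    exact hd (c0.symm.trans hzψ)
  · rw [← (c2 z (mem_ball_zero_iff.2 (by linarith))).2, hzψ, (b2 y hyb).2, hyw]

/-- triangle inequality -/
theorem tri (hL : LiftStmt) {X : Flo n} (hB : X.Bd 0 1) {u u' : Fr n} (hu : u ∈ X.F)
    (hu' : u' ∈ X.F) {r : ℝ} (hr0 : 0 < r) (hr : r ≤ 1 / 100)
    (h : ¬Disjoint (X.ex u '' closedBall 0 r) (X.ex u' '' closedBall 0 r)) :
    u'.1 ∈ X.ex u '' ball 0 (3 * r) := by
  obtain ⟨p, ⟨v, hv, hvp⟩, v', hv', hvp'⟩ := not_disjoint_iff.1 h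
  have n1 : ‖v‖ ≤ r := mem_closedBall_zero_iff.1 hv
  have n2 : ‖v'‖ ≤ r := mem_closedBall_zero_iff.1 hv'
  have hw := X.Ex_mem u' hu' v'
  obtain ⟨ψ', -, -, a2, -, a4, -⟩ := hL n X hB u' hu' _ hw v' (by linarith) rfl
  obtain ⟨ψ, b0, -, b2, b3, -, -⟩ := hL n X hB u hu _ hw v (by linarith) (hvp'.trans hvp.symm)
  obtain ⟨y, hy, hy0⟩ := a4 (4 / 3 * r) (by linarith) (by linarith) 0
    (by rw [zero_sub, norm_neg]; linarith)
  have hyb : y ∈ ball (0 : E3) (1 / 8) := mem_ball_zero_iff.2 (by linarith)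
  have h0 : (0 : E3) ∈ ball (0 : E3) (1 / 8) := mem_ball_self (by norm_num)
  refine ⟨ψ y, mem_ball_zero_iff.2 ?_, ?_⟩
  · have := (b3 y hyb 0 h0).2
    rw [b0, sub_zero] at this
    have := norm_le_insert' (ψ y) v
    linarith
  · rw [(b2 y hyb).2, ← (a2 y hyb).2, hy0, X.ex_zero]

theorem meas_ball (X : Flo n) (u : Fr n) (r : ℝ) : MeasurableSet (X.ex u '' closedBall 0 r) :=
  ((isCompact_closedBall _ _).image (X.contDiff_ex u).continuous).isClosed.measurableSet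

/-- covering by balls -/
theorem cover (hL : LiftStmt) {G : Geo n} (hB : G.Bd 0 1) {r a : ℝ} (hr0 : 0 < r)
    (hr : r ≤ 1 / 100) (ha : 0 < a)
    (hv : ∀ u ∈ G.F, a ≤ G.mu.real (G.ex u '' closedBall 0 r)) {m : ℕ} (hm : G.V / a ≤ m) :
    ∃ u : Fin m → Fr n, (∀ β, u β ∈ G.F) ∧ G.S ⊆ ⋃ β, G.ex (u β) '' ball 0 (3 * r) := by
  classical
  have hcard : ∀ T : Finset (Fr n), (↑T : Set (Fr n)) ⊆ G.F →
      (↑T : Set (Fr n)).PairwiseDisjoint (fun u => G.ex u '' closedBall 0 r) → T.card ≤ m := by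
    intro T hT hd
    have h1 := measureReal_biUnion_finset (μ := G.mu) hd fun u _ => meas_ball G.toFlo u r
    have h2 : G.mu.real (⋃ u ∈ T, G.ex u '' closedBall 0 r) ≤ G.V :=
      measureReal_mono (subset_univ _)
    have h3 : T.card • a ≤ ∑ u ∈ T, G.mu.real (G.ex u '' closedBall 0 r) :=
      Finset.card_nsmul_le_sum _ _ _ fun u hu => hv u (hT hu)
    rw [nsmul_eq_mul] at h3
    have h4 : (T.card : ℝ) ≤ G.V / a := (le_div_iff₀ ha).2 (by linarith)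
    exact_mod_cast h4.trans hm
  obtain ⟨T, hT, hd, hmax⟩ : ∃ T : Finset (Fr n), (↑T : Set (Fr n)) ⊆ G.F ∧
      (↑T : Set (Fr n)).PairwiseDisjoint (fun u => G.ex u '' closedBall 0 r) ∧
      ∀ T' : Finset (Fr n), (↑T' : Set (Fr n)) ⊆ G.F →
        (↑T' : Set (Fr n)).PairwiseDisjoint (fun u => G.ex u '' closedBall 0 r) →
        T'.card ≤ T.card := by
    have hb : BddAbove {k | ∃ T : Finset (Fr n), (↑T : Set (Fr n)) ⊆ G.F ∧
        (↑T : Set (Fr n)).PairwiseDisjoint (fun u => G.ex u '' closedBall 0 r) ∧ T.card = k} :=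
      ⟨m, by rintro k ⟨T, h1, h2, rfl⟩; exact hcard T h1 h2⟩
    obtain ⟨T, h1, h2, h3⟩ := Nat.sSup_mem (by exact ⟨0, ∅, by simp, by simp, rfl⟩) hb
    exact ⟨T, h1, h2, fun T' h4 h5 => h3 ▸ le_csSup hb ⟨T', h4, h5, rfl⟩⟩
  obtain ⟨p₀, hp₀⟩ := G.ne
  obtain ⟨u₀, hu₀, -⟩ := G.frame p₀ hp₀
  have hTm := hcard T hT hd
  refine ⟨fun β => if h : (β : ℕ) < T.card then (T.equivFin.symm ⟨β, h⟩ : Fr n) else u₀,
    fun β => ?_, fun p hp => ?_⟩
  · dsimp only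
    split_ifs with h
    · exact hT (T.equivFin.symm ⟨β, h⟩).2
    · exact hu₀
  · obtain ⟨u', hu', rfl⟩ := G.frame p hp
    obtain ⟨u, hu, hnd⟩ : ∃ u ∈ T,
        ¬Disjoint (G.ex u '' closedBall 0 r) (G.ex u' '' closedBall 0 r) := by
      by_contra hcon
      push Not at hcon
      have hnot : u' ∉ T := fun h => by
        have := hcon u' h
        rw [disjoint_self] at this
        exact ((nonempty_closedBall.2 hr0.le).image (G.ex u')).ne_empty this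
      have := hmax (insert u' T) (by
        rw [Finset.coe_insert]; exact insert_subset hu' hT) (by
        rw [Finset.coe_insert]
        exact hd.insert fun w hw _ => (hcon w hw).symm)
      rw [Finset.card_insert_of_notMem hnot] at this
      omega
    have hlt := (T.equivFin ⟨u, hu⟩).2
    refine mem_iUnion.2 ⟨⟨T.equivFin ⟨u, hu⟩, hlt.trans_le hTm⟩, ?_⟩
    simp only [hlt, dif_pos, Fin.eta, Equiv.symm_apply_apply]
    exact tri hL hB (hT hu) hu' hr0 hr hnd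

theorem cube_le {x : ℝ} (hx : 0 ≤ x) : x ^ 3 ≤ (4 * Real.pi * x ^ 2) ^ (3 / 2 : ℝ) := by
  have h : x ^ 3 = (x ^ 2) ^ (3 / 2 : ℝ) := by
    rw [← Real.rpow_natCast, ← Real.rpow_natCast, ← Real.rpow_mul hx]
    norm_num
  rw [h]
  refine Real.rpow_le_rpow (by positivity) ?_ (by norm_num)
  nlinarith [Real.pi_gt_three, sq_nonneg x]

/-- the two consequences of the trace estimates -/
theorem est (hM : MainAStmt) (hA : AsyStmt) (hT : TrcStmt) (lam : ℕ → ℝ)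
    (hne : ∃ (n : ℕ) (G : Geo n), (∀ k, G.eig k = lam k) ∧ G.Bd 0 1) :
    ∃ V c K t₀ : ℝ, 0 < c ∧ 1 ≤ K ∧ 0 < t₀ ∧ ∀ (n : ℕ) (G : Geo n), (∀ k, G.eig k = lam k) →
      G.Bd 0 1 → G.V = V ∧ ∀ t, 0 < t → t ≤ t₀ →
        (∀ u ∈ G.F, ∀ r, 0 < r → r ≤ 1 / 8 →
          (4 * Real.pi * t) ^ (3 / 2 : ℝ) * (1 - K * t / r ^ 2) ≤
            K * G.mu.real (G.ex u '' closedBall 0 r) + K * t ^ 3) ∧
        ∀ A : Set (Amb n), MeasurableSet A →
          (∀ u ∈ G.F, u.1 ∈ A → ∃ z : E3, z ≠ 0 ∧ ‖z‖ ^ 2 ≤ 36 * t ∧ G.ex u z = u.1) →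
          c * G.mu.real A ≤ K * t ^ 3 := by
  obtain ⟨α, h1, h2⟩ := hA lam
  obtain ⟨n₀, G₀, e₀, b₀⟩ := hne
  obtain ⟨C₁, t₁, ht₁, h3⟩ := h2 n₀ G₀ 1 one_pos b₀ (fun k => by simp [e₀ k]) 2
  obtain ⟨c, hc, h4⟩ := hT
  obtain ⟨J, h5⟩ := h4 2
  obtain ⟨B, hB⟩ := hM lam J
  obtain ⟨⟨C₂, t₂, ht₂, h6⟩, -⟩ := h5 B
  have p1 := abs_nonneg C₂
  have p2 := abs_nonneg (C₁ + C₂ * α 0)
  have p3 := le_abs_self C₂
  have p4 := le_abs_self (C₁ + C₂ * α 0)
  refine ⟨α 0, c, 1 + |C₂| + |C₁ + C₂ * α 0|, min t₁ t₂, hc, by linarith, lt_min ht₁ ht₂,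
    fun n G he hb => ?_⟩
  obtain ⟨hV, hk⟩ := h1 n G 1 one_pos hb fun k => by simp [he k]
  simp only [one_pow, mul_one] at hV hk
  refine ⟨hV, fun t ht htt => ?_⟩
  have h7 := (abs_le.1 (h3 t ht (htt.trans (min_le_left _ _)))).2
  obtain ⟨h8, h9⟩ := h6 n G hb (hB n G he) t ht (htt.trans (min_le_right _ _))
  have hl : G.eig = lam := funext he
  simp only [hk, hl, hV] at h8 h9
  have ht3 : 0 < t ^ 3 := by positivity
  have h10 : (C₁ + C₂ * α 0) * t ^ 3 ≤ (1 + |C₂| + |C₁ + C₂ * α 0|) * t ^ 3 :=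
    mul_le_mul_of_nonneg_right (by linarith) ht3.le
  norm_num only at h7 h8 h9
  refine ⟨fun u hu r hr hr' => ?_, fun A hA hA' => ?_⟩
  · have h11 := h8 u hu r hr hr'
    have h12 : C₂ * G.mu.real (G.ex u '' closedBall 0 r) ≤
        (1 + |C₂| + |C₁ + C₂ * α 0|) * G.mu.real (G.ex u '' closedBall 0 r) :=
      mul_le_mul_of_nonneg_right (by linarith) measureReal_nonneg
    have h13 : (4 * Real.pi * t) ^ (3 / 2 : ℝ) * (1 - (1 + |C₂| + |C₁ + C₂ * α 0|) * t / r ^ 2) ≤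
        (4 * Real.pi * t) ^ (3 / 2 : ℝ) * (1 - C₂ * t / r ^ 2) := by
      refine mul_le_mul_of_nonneg_left ?_ (by positivity)
      have : C₂ * t / r ^ 2 ≤ (1 + |C₂| + |C₁ + C₂ * α 0|) * t / r ^ 2 := by
        gcongr
        linarith
      linarith
    nlinarith
  · have h11 := h9 A hA hA'
    nlinarith

/-- lower bound for the volume of small balls -/
theorem vol_arith {K t₀ : ℝ} (hK : 1 ≤ K) (ht₀ : 0 < t₀) : ∃ c r₀ : ℝ, 0 < c ∧ 0 < r₀ ∧
    r₀ ≤ 1 / 100 ∧ r₀ ^ 2 ≤ t₀ ∧ ∀ r x : ℝ, 0 < r → r ≤ r₀ →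
      (∀ t, 0 < t → t ≤ t₀ →
        (4 * Real.pi * t) ^ (3 / 2 : ℝ) * (1 - K * t / r ^ 2) ≤ K * x + K * t ^ 3) →
      c * r ^ 3 ≤ x := by
  have hK0 : 0 < K := by linarith
  obtain ⟨θ, hθ, hθK⟩ : ∃ θ : ℝ, 0 < θ ∧ K * θ = 1 / 2 := ⟨1 / (2 * K), by positivity, by field_simp⟩
  have hθ1 : θ ≤ 1 / 2 := by nlinarith
  refine ⟨θ ^ 3 / (4 * K), min (1 / 100) t₀, by positivity, lt_min (by norm_num) ht₀,
    min_le_left _ _, ?_, fun r x hr hr₀ h => ?_⟩
  · have h1 := min_le_left (1 / 100 : ℝ) t₀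
    have h2 := min_le_right (1 / 100 : ℝ) t₀
    have h3 : 0 < min (1 / 100 : ℝ) t₀ := lt_min (by norm_num) ht₀
    nlinarith
  · have h1 : r ≤ 1 / 100 := hr₀.trans (min_le_left _ _)
    have h2 : r ≤ t₀ := hr₀.trans (min_le_right _ _)
    have hy : 0 < θ * r := by positivity
    have hy1 : θ * r ≤ r := by nlinarith
    have h3 := h ((θ * r) ^ 2) (by positivity) (by nlinarith)
    have h4 := cube_le hy.le
    have h5 : K * (θ * r) ^ 2 / r ^ 2 = θ / 2 := by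
      field_simp
      linarith
    rw [h5] at h3
    have h6 : (θ * r) ^ 3 * (1 / 2) ≤
        (4 * Real.pi * (θ * r) ^ 2) ^ (3 / 2 : ℝ) * (1 - θ / 2) :=
      mul_le_mul h4 (by linarith) (by norm_num) (by positivity)
    have h7 : K * (θ * r) ^ 3 ≤ 1 / 4 := by
      have : K * (θ * r) ^ 3 = 1 / 2 * r * (θ * r) ^ 2 := by rw [← hθK]; ring
      rw [this]
      have : (θ * r) ^ 2 ≤ 1 := by nlinarith
      nlinarith
    have h8 : K * ((θ * r) ^ 2) ^ 3 ≤ 1 / 4 * (θ * r) ^ 3 := by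
      have : K * ((θ * r) ^ 2) ^ 3 = K * (θ * r) ^ 3 * (θ * r) ^ 3 := by ring
      rw [this]
      exact mul_le_mul_of_nonneg_right h7 (by positivity)
    rw [div_mul_eq_mul_div, div_le_iff₀ (by positivity)]
    have : θ ^ 3 * r ^ 3 = (θ * r) ^ 3 := by ring
    rw [this]
    linarith

end MainB

open MainB in
theorem mainB_holds (hM : MainAStmt) (hA : AsyStmt) (hT : TrcStmt) (hL : LiftStmt)
    (hR : RadStmt) (hO : LocStmt) : MainBStmt := by
  intro lam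
  by_cases hne : ∃ (n : ℕ) (G : Geo n), (∀ k, G.eig k = lam k) ∧ G.Bd 0 1
  swap
  · exact ⟨1 / 4, by norm_num, le_rfl, fun r _ => ⟨0, fun n G h1 h2 => (hne ⟨n, G, h1, h2⟩).elim⟩⟩
  obtain ⟨V, c, K, t₀, hc, hK, ht₀, h⟩ := est hM hA hT lam hne
  obtain ⟨c', r₀, hc', hr₀, hr₁, hr₂, hv⟩ := vol_arith hK ht₀
  have hK0 : 0 < K := by linarith
  have hvol : ∀ (n : ℕ) (G : Geo n), (∀ k, G.eig k = lam k) → G.Bd 0 1 → ∀ u ∈ G.F, ∀ r, 0 < r →
      r ≤ r₀ → c' * r ^ 3 ≤ G.mu.real (G.ex u '' closedBall 0 r) :=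
    fun n G h1 h2 u hu r hr hr' => hv r _ hr hr' fun t ht ht' =>
      ((h n G h1 h2).2 t ht ht').1 u hu r hr (by linarith)
  obtain ⟨ρ, hρ, hρ₀, hρc⟩ : ∃ ρ : ℝ, 0 < ρ ∧ ρ ≤ r₀ ∧ K * ρ < c * c' := by
    refine ⟨min r₀ (c * c' / (2 * K)), lt_min hr₀ (by positivity), min_le_left _ _, ?_⟩
    have h1 : K * min r₀ (c * c' / (2 * K)) ≤ K * (c * c' / (2 * K)) :=
      mul_le_mul_of_nonneg_left (min_le_right _ _) hK0.le
    have h2 : K * (c * c' / (2 * K)) = c * c' / 2 := by field_simp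
    have h3 : 0 < c * c' := by positivity
    linarith
  refine ⟨ρ, hρ, by linarith, fun r hr => ?_⟩
  have hs : 0 < min (r / 3) r₀ := lt_min (by linarith) hr₀
  refine ⟨⌈V / (c' * min (r / 3) r₀ ^ 3)⌉₊, fun n G h1 h2 => ⟨?_, ?_⟩⟩
  · intro u hu v₁ hv₁ v₂ hv₂ he
    by_contra hne'
    have h3 := loops hL hR hO h2 hu (hρ₀.trans hr₁) (mem_ball_zero_iff.1 hv₁).le
      (mem_ball_zero_iff.1 hv₂).le hne' he
    have h4 := ((h n G h1 h2).2 (ρ ^ 2) (by positivity) (by nlinarith)).2 _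
      (meas_ball G.toFlo _ ρ) h3
    have h5 := hvol n G h1 h2 _ (G.Ex_mem u hu v₁) ρ hρ hρ₀
    have h6 : c * (c' * ρ ^ 3) ≤ K * (ρ ^ 2) ^ 3 := (mul_le_mul_of_nonneg_left h5 hc.le).trans h4
    have h7 : ρ ^ 3 ≤ ρ := by
      have : ρ ^ 2 ≤ 1 := by nlinarith
      nlinarith
    have h8 : K * (ρ ^ 2) ^ 3 ≤ K * ρ * ρ ^ 3 := by
      have : K * (ρ ^ 2) ^ 3 = K * ρ ^ 3 * ρ ^ 3 := by ring
      rw [this]
      gcongr
    have h9 : K * ρ * ρ ^ 3 < c * c' * ρ ^ 3 := mul_lt_mul_of_pos_right hρc (by positivity)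
    nlinarith
  · obtain ⟨u, hu, hcov⟩ := cover hL h2 hs ((min_le_right _ _).trans hr₁) (by positivity)
      (fun u hu => hvol n G h1 h2 u hu _ hs (min_le_right _ _))
      (m := ⌈V / (c' * min (r / 3) r₀ ^ 3)⌉₊) (by rw [(h n G h1 h2).1]; exact Nat.le_ceil _)
    refine ⟨u, hu, hcov.trans (iUnion_mono fun β => image_mono (ball_subset_ball ?_))⟩
    linarith [min_le_left (r / 3) r₀]

end Pool.Agent.Lib.MP_1a4aff_gt.I3
end
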