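import Pool.Agent.Lib.MP_1a4aff_gt.I3.BrB

-- part Pool.Agent.Lib.MP_1a4aff_gt.I3.Bia
section

/-! Bianchi identities and equivariance of the curvature tensors. -/

set_option autoImplicit false

open MeasureTheory Set Filter Topology Metric VectorField
open scoped ContDiff RealInnerProductSpace

namespace Pool.Agent.Lib.MP_1a4aff_gt.I3

namespace Bia

variable {n : ℕ} (C : Con n)

theorem minS : minSmoothness ℝ 2 ≤ ∞ := by
  rw [minSmoothness_of_isRCLikeNormedField]
  exact WithTop.coe_le_coe.2 le_top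

theorem diffH (x : E3) (u : Fr n) : DifferentiableAt ℝ (fun w => C.H w x) u :=
  (C.contDiff_H x).differentiable (by simp) u

theorem contDiff_vert (β : E3) : ContDiff ℝ ∞ (vert β : Fr n → Fr n) :=
  contDiff_vert₂.comp (contDiff_const.prodMk contDiff_id)

theorem comm {u : Fr n} (hu : u ∈ C.F) {f : Fr n → ℝ} (hf : ContDiff ℝ ∞ f) (x y : E3) :
    C.HD x (C.HD y f) u - C.HD y (C.HD x f) u = fderiv ℝ f u (vert (C.N u (cr x y)) u) := by
  rw [← C.brk u hu x y]
  exact (fderiv_apply_lieBracket hf.contDiffAt minS (diffH C y u) (diffH C x u)).symm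

/-- derivative of a vertical field with variable coefficient -/
theorem fderiv_vert {b : Fr n → E3} {u : Fr n} (hb : DifferentiableAt ℝ b u) (Y : Fr n) :
    fderiv ℝ (fun w => vert (b w) w) u Y = vert (fderiv ℝ b u Y) u + vert (b u) Y := by
  have h1 : HasFDerivAt (fun w : Fr n => w.2) (ContinuousLinearMap.snd ℝ _ _) u := hasFDerivAt_snd
  have h2 := cr.hasFDerivAt.comp u hb.hasFDerivAt
  have h3 := (hasFDerivAt_const (0 : Amb n) u).prodMk (h1.clm_comp h2)
  have h4 : fderiv ℝ (fun w => vert (b w) w) u = _ := h3.fderiv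
  rw [h4]
  refine Prod.ext (by simp) ?_
  ext1 x
  simp

/-- commutation of a vertical and a horizontal derivative -/
theorem vert_HD {f : Fr n → ℝ} (hf : ContDiff ℝ ∞ f) (β x : E3) (u : Fr n) :
    fderiv ℝ (C.HD x f) u (vert β u) =
      C.HD x (fun w => fderiv ℝ f w (vert β w)) u + C.HD (cr β x) f u := by
  have h1 := fderiv_apply_lieBracket hf.contDiffAt minS (diffH C x u)
    ((contDiff_vert β).differentiable (by simp) u)
  have h2 : lieBracket ℝ (vert β) (fun w => C.H w x) u = C.H u (cr β x) := by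
    have h3 := fderiv_vert (b := fun _ => β) (u := u) (differentiableAt_const β) (C.H u x)
    simp only [fderiv_fun_const, Pi.zero_apply, zero_apply, vert_zero,
      zero_add] at h3
    rw [lieBracket, C.fderiv_H_vert, h3, add_sub_cancel_left]
  rw [h2] at h1
  exact (sub_eq_iff_eq_add'.1 h1.symm)

theorem fderiv_H_rot {Q : E3 →L[ℝ] E3} (hQ : Orth Q) (u Y : Fr n) (y : E3) :
    fderiv ℝ (fun w => C.H w y) (rot Q u) (rot Q Y) =
      rot Q (fderiv ℝ (fun w => C.H w (Q y)) u Y) := by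
  have h1 := (diffH C y (rot Q u)).hasFDerivAt.comp u (hasFDerivAt_rot Q u)
  have h2 := (hasFDerivAt_rot Q (C.H u (Q y))).comp u (diffH C (Q y) u).hasFDerivAt
  have h3 : ((fun w => C.H w y) ∘ rot Q) = rot Q ∘ fun w => C.H w (Q y) :=
    funext fun w => C.H_rot Q hQ w y
  rw [h3] at h1
  exact congrArg (fun L : Fr n →L[ℝ] Fr n => L Y) (h1.unique h2)

theorem N_rot {u : Fr n} (hu : u ∈ C.F) {Q : E3 →L[ℝ] E3} (hQ : Orth Q) (c : E3) :
    Q (C.N (rot Q u) c) = C.N u (Q c) := by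
  obtain ⟨σ, hσ, hc⟩ := hQ.cr_map
  have key : ∀ x y, Q (C.N (rot Q u) (cr x y)) = C.N u (Q (cr x y)) := fun x y => by
    have h1 := C.brk _ (C.rot_mem hu hQ) x y
    rw [C.H_rot Q hQ, C.H_rot Q hQ, fderiv_H_rot C hQ, fderiv_H_rot C hQ, ← rotL_apply,
      ← rotL_apply, ← map_sub, C.brk u hu, hc, map_smul] at h1
    have h2 : ∀ w, cr (σ • C.N u (Q (cr x y))) (Q w) = Q (cr (C.N (rot Q u) (cr x y)) w) :=
      fun w => C.frame_inj hu (congrArg (fun Z : Fr n => Z.2 w) h1)
    refine cr_inj (ContinuousLinearMap.ext fun w => ?_)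
    rw [← hQ.apply_adj w, hc, ← h2, map_smul, smul_apply, smul_smul,
      ← sq, hσ, one_smul]
  have h0 : ∀ i, Q (C.N (rot Q u) (ee i)) = C.N u (Q (ee i)) := fun i => by
    have e0 : ee 0 = cr (ee 1) (ee 2) := E3_ext (by simp) (by simp) (by simp)
    have e1 : ee 1 = cr (ee 2) (ee 0) := E3_ext (by simp) (by simp) (by simp)
    have e2 : ee 2 = cr (ee 0) (ee 1) := E3_ext (by simp) (by simp) (by simp)
    fin_cases i
    · exact e0 ▸ key (ee 1) (ee 2)
    · exact e1 ▸ key (ee 2) (ee 0)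
    · exact e2 ▸ key (ee 0) (ee 1)
  exact congrArg (fun L : E3 →L[ℝ] E3 => L c)
    (clm_ext_ee (A := Q ∘L C.N (rot Q u)) (B := C.N u ∘L Q) h0)

theorem TV_rot {Q : E3 →L[ℝ] E3} (hQ : Orth Q) : ∀ (xs : List E3) (y z : E3), ∀ u ∈ C.F,
    C.TV xs y z (rot Q u) = C.TV (xs.map Q) (Q y) (Q z) u
  | [], y, z, u, hu => by
    change ⟪C.N (rot Q u) y, z⟫ = ⟪C.N u (Q y), Q z⟫
    rw [← N_rot C hu hQ, hQ]
  | x :: xs, y, z, u, hu => by
    have h1 := ((C.contDiff_TV xs y z).differentiable (by simp) (rot Q u)).hasFDerivAt.comp u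
      (hasFDerivAt_rot Q u)
    have h2 : C.TV (x :: xs) y z (rot Q u) = C.HD (Q x) (C.TV xs y z ∘ rot Q) u := by
      change fderiv ℝ _ _ (C.H (rot Q u) x) = fderiv ℝ _ _ _
      rw [h1.fderiv, C.H_rot Q hQ]
      rfl
    rw [h2]
    exact C.HD_congr hu _ ((C.contDiff_TV xs y z).comp (contDiff_rot Q)) (C.contDiff_TV _ _ _)
      fun w hw => TV_rot hQ xs y z w hw

theorem contDiff_lsum (y z : E3) : ∀ L : List (List E3),
    ContDiff ℝ ∞ fun w => (L.map fun l => C.TV l y z w).sum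
  | [] => contDiff_const (c := 0)
  | l :: L => (C.contDiff_TV l y z).add (contDiff_lsum y z L)

theorem HD_lsum (x y z : E3) (u : Fr n) : ∀ L : List (List E3),
    C.HD x (fun w => (L.map fun l => C.TV l y z w).sum) u =
      ((L.map (x :: ·)).map fun l => C.TV l y z u).sum
  | [] => by simp [Con.HD]
  | l :: L => by
    simp only [List.map_cons, List.sum_cons]
    rw [C.HD_add x (C.contDiff_TV l y z) (contDiff_lsum C y z L), HD_lsum x y z u L]
    rfl

theorem TV_vert (β : E3) : ∀ (xs : List E3) (y z : E3), ∀ u ∈ C.F,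
    fderiv ℝ (C.TV xs y z) u (vert β u) =
      ((vs β xs).map fun l => C.TV l y z u).sum + C.TV xs (cr β y) z u + C.TV xs y (cr β z) u
  | [], y, z, u, hu => by
    obtain ⟨R, -, h0, hO, hR⟩ := exists_rot_curve β
    have h1 : HasDerivAt (fun t => C.TV [] y z (rot (R t) u))
        (fderiv ℝ (C.TV [] y z) u (vert β u)) 0 :=
      HasFDerivAt.comp_hasDerivAt_of_eq 0
        ((C.contDiff_TV [] y z).differentiable (by simp) u).hasFDerivAt
        (hasDerivAt_rot_curve hR u) (by rw [h0]; rfl)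
    have h2 : ∀ c, HasDerivAt (fun t => R t c) (cr β c) 0 := fun c => by
      simpa using hR.clm_apply (hasDerivAt_const 0 c)
    have h3 := ((C.N u).hasFDerivAt.comp_hasDerivAt 0 (h2 y)).inner ℝ (h2 z)
    simp only [TV_rot C (hO _) [] y z u hu] at h1
    rw [h1.unique h3]
    simp [vs, Con.TV, h0, add_comm]
  | x :: xs, y, z, u, hu => by
    have hf := C.contDiff_TV xs y z
    have h1 := vert_HD C hf β x u
    have h2 := C.HD_congr hu x ((hf.fderiv_right (m := ∞) (by simp)).clm_apply (contDiff_vert β))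
      (((contDiff_lsum C y z (vs β xs)).add (C.contDiff_TV xs (cr β y) z)).add
        (C.contDiff_TV xs y (cr β z))) fun w hw => TV_vert β xs y z w hw
    rw [C.HD_add x ((contDiff_lsum C y z (vs β xs)).add (C.contDiff_TV xs (cr β y) z))
      (C.contDiff_TV xs y (cr β z)), C.HD_add x (contDiff_lsum C y z (vs β xs))
      (C.contDiff_TV xs (cr β y) z), HD_lsum] at h2
    refine h1.trans ?_
    rw [h2]
    simp only [vs, List.map_cons, List.sum_cons, Con.TV]
    ring

/-- the iterated bracket of three horizontal fields -/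
theorem brk3 {u : Fr n} (hu : u ∈ C.F) (x y z : E3) :
    lieBracket ℝ (fun w => C.H w x) (lieBracket ℝ (fun w => C.H w y) fun w => C.H w z) u =
      C.H u (-cr (C.N u (cr y z)) x) +
        vert (fderiv ℝ (fun w => C.N w (cr y z)) u (C.H u x)) u := by
  have hN : ContDiff ℝ ∞ fun w => C.N w (cr y z) := C.smN.clm_apply contDiff_const
  have hW : ContDiff ℝ ∞ (lieBracket ℝ (fun w => C.H w y) fun w => C.H w z) :=
    (C.contDiff_H y).lieBracket_vectorField (C.contDiff_H z) (by simp)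
  have h1 := fderiv_eq_of_eqOn hu (C.H_mem hu x) (hW.differentiable (by simp) u)
    ((contDiff_vert₂.comp (hN.prodMk contDiff_id)).differentiable (by simp) u)
    fun w hw => C.brk w hw y z
  have h2 : lieBracket ℝ (fun w => C.H w y) (fun w => C.H w z) u = vert (C.N u (cr y z)) u :=
    C.brk u hu y z
  have h3 := fderiv_vert (hN.differentiable (by simp) u) (C.H u x)
  rw [lieBracket, h1.trans h3, h2, C.fderiv_H_vert, map_neg]
  abel

theorem jac {u : Fr n} (hu : u ∈ C.F) :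
    ∑ c, cr (C.N u (ee c)) (ee c) = 0 ∧
      ∑ c, fderiv ℝ (fun w => C.N w (ee c)) u (C.H u (ee c)) = 0 := by
  have e0 : cr (ee 1) (ee 2) = ee 0 := E3_ext (by simp) (by simp) (by simp)
  have e1 : cr (ee 2) (ee 0) = ee 1 := E3_ext (by simp) (by simp) (by simp)
  have e2 : cr (ee 0) (ee 1) = ee 2 := E3_ext (by simp) (by simp) (by simp)
  have h1 := leibniz_identity_lieBracket minS (C.contDiff_H (ee 0)).contDiffAt
    (C.contDiff_H (ee 1)).contDiffAt (C.contDiff_H (ee 2)).contDiffAt (x := u)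
  have h2 : lieBracket ℝ (fun w => C.H w (ee 0)) (fun w => C.H w (ee 2)) =
      fun w => -lieBracket ℝ (fun w => C.H w (ee 2)) (fun w => C.H w (ee 0)) w :=
    funext fun w => lieBracket_swap
  have h3 : lieBracket ℝ (fun w => C.H w (ee 1))
      (lieBracket ℝ (fun w => C.H w (ee 0)) fun w => C.H w (ee 2)) u =
      -lieBracket ℝ (fun w => C.H w (ee 1))
        (lieBracket ℝ (fun w => C.H w (ee 2)) fun w => C.H w (ee 0)) u := by
    rw [h2, lieBracket, lieBracket, fderiv_fun_neg, map_neg, neg_apply]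
    simp only [lieBracket]
    abel
  rw [h3, lieBracket_swap (V := lieBracket ℝ _ _), brk3 C hu, brk3 C hu, brk3 C hu, e0, e1,
    e2] at h1
  have h4 := congrArg (C.Th u) h1
  have h5 := congrArg (C.Om u) h1
  simp only [map_add (C.Th u) (-_), map_neg (C.Th u), C.Th_eq u hu] at h4
  simp only [map_add (C.Om u) (-_), map_neg (C.Om u), C.Om_eq u hu] at h5
  rw [Fin.sum_univ_three, Fin.sum_univ_three]
  constructor
  · rw [neg_eq_iff_eq_neg.1 h4]
    abel
  · rw [h5]
    abel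

theorem TV_symm : ∀ (xs : List E3) (y z : E3), ∀ u ∈ C.F, C.TV xs y z u = C.TV xs z y u
  | [], y, z, u, hu => by
    have h := (jac C hu).1
    have h0 := congrArg (fun v : E3 => v 0) h
    have h1 := congrArg (fun v : E3 => v 1) h
    have h2 := congrArg (fun v : E3 => v 2) h
    simp [Fin.sum_univ_three] at h0 h1 h2
    change ⟪C.N u y, z⟫ = ⟪C.N u z, y⟫
    rw [clm_sum_ee (C.N u) y, clm_sum_ee (C.N u) z]
    simp [Fin.sum_univ_three, inner_E3]
    linear_combination (y 2 * z 1 - y 1 * z 2) * h0 + (y 0 * z 2 - y 2 * z 0) * h1 +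
      (y 1 * z 0 - y 0 * z 1) * h2
  | x :: xs, y, z, u, hu =>
    C.HD_congr hu x (C.contDiff_TV xs y z) (C.contDiff_TV xs z y) fun w hw => TV_symm xs y z w hw

theorem TV_div : ∀ (xs : List E3) (y : E3), ∀ u ∈ C.F,
    ∑ e, C.TV (xs ++ [ee e]) y (ee e) u = 0
  | [], y, u, hu => by
    have h1 : ∀ e, C.TV ([] ++ [ee e]) y (ee e) u =
        ⟪fderiv ℝ (fun w => C.N w (ee e)) u (C.H u (ee e)), y⟫ := fun e => by
      have hN : ContDiff ℝ ∞ fun w => C.N w (ee e) := C.smN.clm_apply contDiff_const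
      rw [TV_symm C _ _ _ u hu]
      change fderiv ℝ (fun w => ⟪C.N w (ee e), y⟫) u _ = _
      rw [fderiv_inner_apply ℝ (hN.differentiable (by simp) u) (differentiableAt_const y)]
      simp
    rw [Finset.sum_congr rfl fun e _ => h1 e, ← sum_inner, (jac C hu).2, inner_zero_left]
  | x :: xs, y, u, hu => by
    have h1 := C.HD_sum Finset.univ x (f := fun e => C.TV (xs ++ [ee e]) y (ee e))
      (fun e _ => C.contDiff_TV _ _ _) u
    have h2 := C.HD_congr hu x (ContDiff.sum fun e _ => C.contDiff_TV (xs ++ [ee e]) y (ee e))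
      (contDiff_const (c := 0)) fun w hw => TV_div xs y w hw
    refine h1.symm.trans (h2.trans ?_)
    simp [Con.HD]

theorem sum_sq_ml {Q : E3 →L[ℝ] E3} (hQ : Orth Q) : ∀ (m : ℕ) (f : List E3 → ℝ),
    (∀ xs ys, IsLinearMap ℝ fun x => f (xs ++ x :: ys)) →
    ∑ I : Fin m → Fin 3, f (((List.ofFn I).map ee).map Q) ^ 2 =
      ∑ I : Fin m → Fin 3, f ((List.ofFn I).map ee) ^ 2
  | 0, f, _ => by simp
  | m + 1, f, hf => by
    rw [← (Fin.consEquiv fun _ => Fin 3).sum_comp, ← (Fin.consEquiv fun _ => Fin 3).sum_comp,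
      Fintype.sum_prod_type, Fintype.sum_prod_type]
    simp only [Fin.consEquiv_apply, List.ofFn_succ, Fin.cons_zero, Fin.cons_succ, List.map_cons]
    rw [Finset.sum_congr rfl fun c _ => sum_sq_ml hQ m (fun l => f (Q (ee c) :: l))
      fun xs ys => hf (Q (ee c) :: xs) ys, Finset.sum_comm, Finset.sum_comm (s := Finset.univ)
        (f := fun c (I : Fin m → Fin 3) => f (ee c :: (List.ofFn I).map ee) ^ 2)]
    refine Finset.sum_congr rfl fun I _ => ?_
    simp only [sq]
    exact hQ.sum_mul (hf [] _) (hf [] _)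

theorem nd_rot {u : Fr n} (hu : u ∈ C.F) {Q : E3 →L[ℝ] E3} (hQ : Orth Q) (m : ℕ) :
    C.nd m (rot Q u) = C.nd m u := by
  have h1 : ∀ l, ∑ a, ∑ b, C.TV l (Q (ee a)) (Q (ee b)) u ^ 2 =
      ∑ a, ∑ b, C.TV l (ee a) (ee b) u ^ 2 := fun l => by
    simp only [sq]
    rw [Finset.sum_congr rfl fun a _ => hQ.sum_mul (C.TV_lin_z l (Q (ee a)) u)
      (C.TV_lin_z l (Q (ee a)) u), Finset.sum_comm,
      Finset.sum_congr rfl fun b _ => hQ.sum_mul (C.TV_lin_y l (ee b) u) (C.TV_lin_y l (ee b) u),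
      Finset.sum_comm]
  simp only [Con.nd, Con.T, TV_rot C hQ _ _ _ u hu, h1]
  rw [Finset.sum_comm, Finset.sum_comm (s := (Finset.univ : Finset (Fin m → Fin 3)))]
  refine Finset.sum_congr rfl fun a _ => ?_
  rw [Finset.sum_comm, Finset.sum_comm (s := (Finset.univ : Finset (Fin m → Fin 3)))]
  exact Finset.sum_congr rfl fun b _ => sum_sq_ml hQ m (fun l => C.TV l (ee a) (ee b) u)
    fun xs ys => C.TV_lin xs ys _ _ u

theorem td_rot {u : Fr n} (hu : u ∈ C.F) {Q : E3 →L[ℝ] E3} (hQ : Orth Q) (m : ℕ) :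
    C.td m (rot Q u) = C.td m u := by
  have h1 : ∀ l, ∑ a, C.TV l (Q (ee a)) (Q (ee a)) u = ∑ a, C.TV l (ee a) (ee a) u := fun l => by
    rw [Finset.sum_congr rfl fun a _ => lin_sum_ee (C.TV_lin_z l (Q (ee a)) u) (Q (ee a)),
      Finset.sum_comm, Finset.sum_congr rfl fun b _ => hQ.sum_mul (f := fun x => x b)
        ⟨fun _ _ => rfl, fun _ _ => rfl⟩ (C.TV_lin_y l (ee b) u)]
    refine Finset.sum_congr rfl fun b _ => ?_
    simp
  simp only [Con.td, Con.T, TV_rot C hQ _ _ _ u hu, h1]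
  refine sum_sq_ml hQ m (fun l => ∑ a, C.TV l (ee a) (ee a) u) fun xs ys =>
    ⟨fun a b => ?_, fun c a => ?_⟩
  · rw [← Finset.sum_add_distrib]
    exact Finset.sum_congr rfl fun e _ => (C.TV_lin xs ys _ _ u).map_add a b
  · rw [Finset.smul_sum]
    exact Finset.sum_congr rfl fun e _ => (C.TV_lin xs ys _ _ u).map_smul c a

end Bia

theorem bia_holds : BiaStmt := fun _ C u hu =>
  ⟨fun xs y z => Bia.TV_symm C xs y z u hu, fun xs y => Bia.TV_div C xs y u hu,
    fun _ hQ xs y z => Bia.TV_rot C hQ xs y z u hu, fun β xs y z => Bia.TV_vert C β xs y z u hu,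
    fun _ hf x y => Bia.comm C hu hf x y,
    fun _ hQ m => ⟨Bia.nd_rot C hu hQ m, Bia.td_rot C hu hQ m⟩⟩

end Pool.Agent.Lib.MP_1a4aff_gt.I3
end

-- part Pool.Agent.Lib.MP_1a4aff_gt.I3.Str
section

/-! Structure equations and normal coordinates. -/

set_option autoImplicit false

open MeasureTheory Set Filter Topology Metric
open scoped ContDiff RealInnerProductSpace ENNReal

namespace Pool.Agent.Lib.MP_1a4aff_gt.I3

variable {n : ℕ}

namespace Str

section
variable {P V : Type*} [NormedAddCommGroup P] [NormedSpace ℝ P] [NormedAddCommGroup V]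
  [NormedSpace ℝ V]

theorem hasDerivAt_aff (y w : P) (t : ℝ) : HasDerivAt (fun t : ℝ => y + t • w) w t := by
  simpa using ((hasDerivAt_id t).smul_const w).const_add y

theorem hasDerivAt_line {f : P → V} {y : P} (hf : DifferentiableAt ℝ f y) (w : P) :
    HasDerivAt (fun t : ℝ => f (y + t • w)) (fderiv ℝ f y w) 0 :=
  HasFDerivAt.comp_hasDerivAt_of_eq 0 hf.hasFDerivAt (hasDerivAt_aff y w 0) (by simp)

theorem hasDerivAt_cmp {f : P → V} {y w : P} (hf : DifferentiableAt ℝ f y) {γ : ℝ → P} {t : ℝ}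
    (hγ : HasDerivAt γ w t) (e : y = γ t) : HasDerivAt (fun t => f (γ t)) (fderiv ℝ f y w) t :=
  HasFDerivAt.comp_hasDerivAt_of_eq t hf.hasFDerivAt hγ e

theorem hasDerivAt_ray {f : P → V} (hf : Differentiable ℝ f) (v : P) (s : ℝ) :
    HasDerivAt (fun s : ℝ => f (s • v)) (fderiv ℝ f (s • v) v) s :=
  (hf (s • v)).hasFDerivAt.comp_hasDerivAt s (by simpa using (hasDerivAt_id s).smul_const v)

theorem tendsto_line (y w : P) : Tendsto (fun t : ℝ => y + t • w) (𝓝 0) (𝓝 y) := by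
  simpa using (hasDerivAt_aff y w 0).continuousAt.tendsto

/-- derivative of the identity `A z z = B z` -/
theorem euler {A : P → P →L[ℝ] V} {B : P →L[ℝ] V} (hA : Differentiable ℝ A)
    (h : ∀ z, A z z = B z) (v w : P) (s : ℝ) :
    s • fderiv ℝ (fun z => A z v) (s • v) w + A (s • v) w = B w := by
  have h1 := (hasDerivAt_line (hA (s • v)) w).clm_apply (hasDerivAt_aff (s • v) w 0)
  have h2 := (hasDerivAt_line (hA (s • v)) w).clm_apply (hasDerivAt_const (0 : ℝ) v)
  have h3 := hasDerivAt_line (f := fun z => A z v) (y := s • v)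
    ((hA (s • v)).clm_apply (differentiableAt_const v)) w
  have h4 : HasDerivAt (fun t : ℝ => B (s • v + t • w)) (B w) 0 :=
    B.hasFDerivAt.comp_hasDerivAt 0 (hasDerivAt_aff (s • v) w 0)
  simp only [h] at h1
  have e1 := h1.unique h4
  have e2 := h3.unique h2
  simp only [zero_smul, add_zero, map_zero, map_smul] at e1 e2
  rw [e2, e1]

theorem norm_int_le [CompleteSpace V] {f : ℝ → V} {c : ℝ}
    (h : ∀ s ∈ Icc (0 : ℝ) 1, ‖f s‖ ≤ c * s) : ‖∫ s in (0 : ℝ)..1, f s‖ ≤ c / 2 := by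
  have h1 := intervalIntegral.norm_integral_le_of_norm_le (μ := volume) (f := f)
    (g := fun s => c * s) zero_le_one (Eventually.of_forall fun t ht => h t (Ioc_subset_Icc_self ht))
    ((continuous_const.mul continuous_id).intervalIntegrable _ _)
  rw [intervalIntegral.integral_const_mul, integral_id] at h1
  linarith

end

theorem second (C : Con n) {P : Type} [NormedAddCommGroup P] [NormedSpace ℝ P] {Γ : P → Fr n}
    {y : P} (hΓ : ContDiffAt ℝ ∞ Γ y)
    (h : ∀ᶠ z in 𝓝 y, ∀ w, fderiv ℝ Γ z w = C.H (Γ z) (C.al Γ z w) + vert (C.be Γ z w) (Γ z))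
    (w₁ w₂ : P) :
    fderiv ℝ (fderiv ℝ Γ) y w₁ w₂ =
      fderiv ℝ (fun w => C.H w (C.al Γ y w₂)) (Γ y) (fderiv ℝ Γ y w₁) +
        C.H (Γ y) (fderiv ℝ (fun z => C.al Γ z w₂) y w₁) +
        (vert (C.be Γ y w₂) (fderiv ℝ Γ y w₁) +
          vert (fderiv ℝ (fun z => C.be Γ z w₂) y w₁) (Γ y)) := by
  have hD : ContDiffAt ℝ ∞ (fderiv ℝ Γ) y := hΓ.fderiv_right (m := ∞) (by simp)
  have dΓ : DifferentiableAt ℝ Γ y := hΓ.differentiableAt (by simp)
  have hal : DifferentiableAt ℝ (fun z => C.al Γ z w₂) y :=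
    (((C.smTh.contDiffAt.comp y hΓ).clm_comp hD).clm_apply contDiffAt_const).differentiableAt
      (by simp)
  have hbe : DifferentiableAt ℝ (fun z => C.be Γ z w₂) y :=
    (((C.smOm.contDiffAt.comp y hΓ).clm_comp hD).clm_apply contDiffAt_const).differentiableAt
      (by simp)
  have dH : DifferentiableAt ℝ C.H (Γ y) := C.smH.differentiable (by simp) _
  have l0 := hasDerivAt_line dΓ w₁
  have l1 := (hasDerivAt_line (hD.differentiableAt (by simp)) w₁).clm_apply
    (hasDerivAt_const (0 : ℝ) w₂)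
  have l2 : HasDerivAt (fun t : ℝ => C.H (Γ (y + t • w₁)))
      (fderiv ℝ C.H (Γ y) (fderiv ℝ Γ y w₁)) 0 :=
    hasDerivAt_cmp (V := E3 →L[ℝ] Fr n) dH l0 (by simp)
  have l3 := l2.clm_apply (hasDerivAt_line hal w₁)
  have l4 : HasDerivAt (fun t : ℝ => (Γ (y + t • w₁)).2) (fderiv ℝ Γ y w₁).2 0 :=
    (ContinuousLinearMap.snd ℝ (Amb n) (E3 →L[ℝ] Amb n)).hasFDerivAt.comp_hasDerivAt 0 l0
  have l5 : HasDerivAt (fun t : ℝ => cr (C.be Γ (y + t • w₁) w₂))
      (cr (fderiv ℝ (fun z => C.be Γ z w₂) y w₁)) 0 :=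
    cr.hasFDerivAt.comp_hasDerivAt 0 (hasDerivAt_line hbe w₁)
  have l6 : HasDerivAt (fun t : ℝ => vert (C.be Γ (y + t • w₁) w₂) (Γ (y + t • w₁)))
      (vert (C.be Γ y w₂) (fderiv ℝ Γ y w₁) +
        vert (fderiv ℝ (fun z => C.be Γ z w₂) y w₁) (Γ y)) 0 := by
    refine HasDerivAt.prodMk ((hasDerivAt_const _ _).congr_deriv (add_zero _).symm) ?_
    refine (l4.clm_comp l5).congr_deriv ?_
    simp only [zero_smul, add_zero]
    rfl
  have l7 := (l3.add l6).congr_of_eventuallyEq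
    (f₁ := fun t : ℝ => fderiv ℝ Γ (y + t • w₁) w₂)
    (((tendsto_line y w₁).eventually h).mono fun t ht => ht w₂)
  have e := l1.unique l7
  have e2 : fderiv ℝ (fun w => C.H w (C.al Γ y w₂)) (Γ y) (fderiv ℝ Γ y w₁) =
      fderiv ℝ C.H (Γ y) (fderiv ℝ Γ y w₁) (C.al Γ y w₂) := by
    rw [fderiv_clm_apply dH (differentiableAt_const _)]
    simp
  simp only [zero_smul, add_zero, map_zero] at e
  rw [e, e2]

theorem vert_add (β : E3) (u v : Fr n) : vert β (u + v) = vert β u + vert β v :=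
  Prod.ext (add_zero _).symm (ContinuousLinearMap.add_comp _ _ _)

theorem vert_vert (a b : E3) (u : Fr n) :
    vert b (vert a u) - vert a (vert b u) = vert (cr a b) u := by
  refine Prod.ext (sub_zero _) ?_
  ext1 x
  simp only [Prod.snd_sub, vert_snd, _root_.sub_apply, ContinuousLinearMap.comp_apply]
  rw [← map_sub, cr_cr_sub]

end Str

open Str in
theorem str_holds : StrStmt := by
  intro n C P _ _ Γ O hO hΓ hF y hy
  have h1 : ∀ z ∈ O, ∀ w, fderiv ℝ Γ z w =
      C.H (Γ z) (C.al Γ z w) + vert (C.be Γ z w) (Γ z) := fun z hz w =>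
    C.dec _ (hF hz) _ (fderiv_mem_tangentCone (s := C.F)
      ((hΓ.contDiffAt (hO.mem_nhds hz)).differentiableAt (by simp))
      (mem_of_superset (hO.mem_nhds hz) fun _ ha => hF ha) w)
  refine ⟨h1 y hy, fun w₁ w₂ => ?_⟩
  have hy' := hΓ.contDiffAt (hO.mem_nhds hy)
  have h2 := second C hy' (mem_of_superset (hO.mem_nhds hy) h1)
  have hs := (hy'.isSymmSndFDerivAt (by simpa using ENat.LEInfty.out)).eq w₁ w₂
  rw [h2, h2, h1 y hy w₁, h1 y hy w₂, map_add, map_add, C.fderiv_H_vert, C.fderiv_H_vert,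
    vert_add, vert_add] at hs
  have hb := C.brk _ (hF hy) (C.al Γ y w₁) (C.al Γ y w₂)
  have hv := vert_vert (C.be Γ y w₁) (C.be Γ y w₂) (Γ y)
  generalize fderiv ℝ (fun z => C.al Γ z w₂) y w₁ = a₁ at *
  generalize fderiv ℝ (fun z => C.al Γ z w₁) y w₂ = a₂ at *
  generalize fderiv ℝ (fun z => C.be Γ z w₂) y w₁ = b₁ at *
  generalize fderiv ℝ (fun z => C.be Γ z w₁) y w₂ = b₂ at *
  have key : C.H (Γ y) (a₁ - a₂ + cr (C.be Γ y w₁) (C.al Γ y w₂) -
        cr (C.be Γ y w₂) (C.al Γ y w₁)) +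
      vert (b₁ - b₂ + C.N (Γ y) (cr (C.al Γ y w₁) (C.al Γ y w₂)) +
        cr (C.be Γ y w₁) (C.be Γ y w₂)) (Γ y) = 0 := by
    simp only [← vertL_apply (Γ y), map_add, map_sub] at hs hb hv ⊢
    linear_combination (norm := module) hs - hb - hv
  have k1 := congrArg (C.Th (Γ y)) key
  have k2 := congrArg (C.Om (Γ y)) key
  rw [C.Th_eq _ (hF hy), map_zero] at k1
  rw [C.Om_eq _ (hF hy), map_zero] at k2
  exact ⟨by linear_combination (norm := module) k1, by linear_combination (norm := module) k2⟩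

namespace Str

variable (X : Flo n)

theorem uniq {u : Fr n} (hu : u ∈ X.F) (x : E3) (γ : ℝ → Fr n)
    (hγ : ∀ s ∈ Icc (0 : ℝ) 1, HasDerivAt γ (X.H (γ s) x) s) (h0 : γ 0 = u) :
    ∀ s ∈ Icc (0 : ℝ) 1, γ s = X.Ex u (s • x) := by
  have c1 : ContinuousOn γ (Icc 0 1) := fun s hs => (hγ s hs).continuousAt.continuousWithinAt
  have c2 : ContinuousOn (fun s : ℝ => X.Ex u (s • x)) (Icc 0 1) := fun s _ =>
    (X.Ex_ode u hu x s).continuousAt.continuousWithinAt
  obtain ⟨R₁, h₁⟩ := isCompact_Icc.exists_bound_of_continuousOn c1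
  obtain ⟨R₂, h₂⟩ := isCompact_Icc.exists_bound_of_continuousOn c2
  obtain ⟨K, hK⟩ := (X.contDiff_H x).contDiffOn.exists_lipschitzOnWith (by simp)
    (convex_closedBall (0 : Fr n) (max R₁ R₂)) (isCompact_closedBall _ _)
  exact ODE_solution_unique_of_mem_Icc_right (v := fun _ w => X.H w x)
    (s := fun _ => closedBall 0 (max R₁ R₂)) (fun _ _ => hK) c1
    (fun t ht => (hγ t (Ico_subset_Icc_self ht)).hasDerivWithinAt)
    (fun t ht => mem_closedBall_zero_iff.2 ((h₁ t (Ico_subset_Icc_self ht)).trans (le_max_left _ _)))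
    c2 (fun t _ => (X.Ex_ode u hu x t).hasDerivWithinAt)
    (fun t ht => mem_closedBall_zero_iff.2
      ((h₂ t (Ico_subset_Icc_self ht)).trans (le_max_right _ _)))
    (by simp [h0, X.Ex_zero])

theorem flow {u : Fr n} (hu : u ∈ X.F) (v : E3) (s t : ℝ) :
    X.Ex (X.Ex u (s • v)) (t • v) = X.Ex u ((s + t) • v) := by
  have h := uniq X (X.Ex_mem u hu (s • v)) (t • v) (fun r => X.Ex u ((s + r * t) • v))
    (fun r _ => by
      have h1 : HasDerivAt (fun r : ℝ => s + r * t) t r := by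
        simpa using ((hasDerivAt_id r).mul_const t).const_add s
      have h2 := (X.Ex_ode u hu v (s + r * t)).scomp r h1
      rw [map_smul]
      exact h2) (by simp) 1 (by simp)
  simpa using h.symm

theorem Ex_rot {u : Fr n} (hu : u ∈ X.F) {Q : E3 →L[ℝ] E3} (hQ : Orth Q) (v : E3) :
    X.Ex (rot Q u) v = rot Q (X.Ex u (Q v)) := by
  have h := uniq X (X.rot_mem hu hQ) v (fun r => rot Q (X.Ex u (r • Q v)))
    (fun r _ => by
      rw [X.H_rot Q hQ]
      exact (rotL n Q).hasFDerivAt.comp_hasDerivAt r (X.Ex_ode u hu (Q v) r))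
    (by simp [X.Ex_zero]) 1 (by simp)
  simpa using h.symm

theorem diff_Ex (u : Fr n) : Differentiable ℝ (X.Ex u) :=
  (X.contDiff_Ex u).differentiable (by simp)

theorem str {u : Fr n} (hu : u ∈ X.F) (y : E3) :
    (∀ w, fderiv ℝ (X.Ex u) y w = X.H (X.Ex u y) (X.th u y w) + vert (X.om u y w) (X.Ex u y)) ∧
      ∀ w₁ w₂,
        fderiv ℝ (fun z => X.th u z w₂) y w₁ - fderiv ℝ (fun z => X.th u z w₁) y w₂ =
          -cr (X.om u y w₁) (X.th u y w₂) + cr (X.om u y w₂) (X.th u y w₁) ∧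
        fderiv ℝ (fun z => X.om u z w₂) y w₁ - fderiv ℝ (fun z => X.om u z w₁) y w₂ =
          -X.N (X.Ex u y) (cr (X.th u y w₁) (X.th u y w₂)) - cr (X.om u y w₁) (X.om u y w₂) :=
  str_holds n X.toCon E3 (X.Ex u) univ isOpen_univ (X.contDiff_Ex u).contDiffOn
    (fun v _ => X.Ex_mem u hu v) y (mem_univ y)

theorem fderiv_ex {u : Fr n} (hu : u ∈ X.F) (v : E3) :
    fderiv ℝ (X.ex u) v = (X.Ex u v).2 ∘L X.th u v := by
  have h : HasFDerivAt (X.ex u) (ContinuousLinearMap.fst ℝ _ _ ∘L fderiv ℝ (X.Ex u) v) v :=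
    (diff_Ex X u v).hasFDerivAt.fst
  rw [h.fderiv]
  ext1 w
  simp only [ContinuousLinearMap.comp_apply, ContinuousLinearMap.coe_fst', (str X hu v).1 w,
    Prod.fst_add, X.H_fst, vert_fst, add_zero]

theorem den_rot {u : Fr n} (hu : u ∈ X.F) {Q : E3 →L[ℝ] E3} (hQ : Orth Q) (v : E3) :
    X.den (rot Q u) v = X.den u (Q v) := by
  have e : X.ex (rot Q u) = X.ex u ∘ Q := funext fun v => by
    simp [Flo.ex, Ex_rot X hu hQ]
  have h1 := fderiv_ex X (X.rot_mem hu hQ) v
  rw [e, fderiv_comp v ((X.contDiff_ex u).differentiable (by simp) _) Q.differentiableAt,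
    Q.fderiv, fderiv_ex X hu, Ex_rot X hu hQ] at h1
  have h2 : X.th u (Q v) ∘L Q = Q ∘L X.th (rot Q u) v := by
    ext1 w
    exact X.frame_inj (X.Ex_mem u hu (Q v)) (congrArg (fun A : E3 →L[ℝ] Amb n => A w) h1)
  have h3 : Q.adjoint ∘L Q = ContinuousLinearMap.id ℝ E3 := by
    ext1 w
    exact hQ.adj_apply w
  have d : ∀ A B : E3 →L[ℝ] E3, (A ∘L B).det = A.det * B.det := fun A B =>
    LinearMap.det_comp (A : E3 →ₗ[ℝ] E3) B
  have h4 := congrArg ContinuousLinearMap.det h2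
  have h5 := congrArg ContinuousLinearMap.det h3
  rw [d, d] at h4
  rw [d, show (ContinuousLinearMap.id ℝ E3).det = 1 from LinearMap.det_id] at h5
  rw [X.den_eq_det, X.den_eq_det]
  linear_combination (X.th u (Q v)).det * h5 - (X.th (rot Q u) v).det * h5 -
    Q.adjoint.det * h4

theorem fderiv_ray {u : Fr n} (hu : u ∈ X.F) (v : E3) (s : ℝ) :
    fderiv ℝ (X.Ex u) (s • v) v = X.H (X.Ex u (s • v)) v :=
  (hasDerivAt_ray (diff_Ex X u) v s).unique (X.Ex_ode u hu v s)

theorem th_ray {u : Fr n} (hu : u ∈ X.F) (v : E3) (s : ℝ) : X.th u (s • v) v = v := by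
  have h := X.Th_H (X.Ex_mem u hu (s • v)) v
  rwa [← fderiv_ray X hu] at h

theorem om_ray {u : Fr n} (hu : u ∈ X.F) (v : E3) (s : ℝ) : X.om u (s • v) v = 0 := by
  have h := X.Om_H (X.Ex_mem u hu (s • v)) v
  rwa [← fderiv_ray X hu] at h

theorem th_int {u : Fr n} (hu : u ∈ X.F) (v w : E3) :
    X.th u v w = w + ∫ s in (0 : ℝ)..1, cr (X.om u (s • v) w) (s • v) := by
  have dth : Differentiable ℝ (X.th u) := (X.contDiff_th u).differentiable (by simp)
  have c : Continuous fun s : ℝ => cr (X.om u (s • v) w) (s • v) := by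
    have := (X.contDiff_om u).continuous
    fun_prop
  have h : ∀ s : ℝ, HasDerivAt (fun s : ℝ => s • X.th u (s • v) w)
      (w + cr (X.om u (s • v) w) (s • v)) s := fun s => by
    have h1 := (hasDerivAt_id s).smul (hasDerivAt_ray (f := fun z => X.th u z w)
      (dth.clm_apply (differentiable_const w)) v s)
    refine h1.congr_deriv ?_
    have h2 := ((str X hu (s • v)).2 v w).1
    have h3 := euler (B := ContinuousLinearMap.id ℝ E3) dth
      (fun z => by simpa using th_ray X hu z 1) v w s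
    rw [th_ray X hu, om_ray X hu] at h2
    simp only [id, map_smul, map_zero, ContinuousLinearMap.id_apply, neg_zero, zero_add,
      _root_.zero_apply] at h2 h3 ⊢
    linear_combination (norm := module) s • h2 + h3
  have h4 := intervalIntegral.integral_eq_sub_of_hasDerivAt (a := 0) (b := 1) (fun s _ => h s)
    ((continuous_const.add c).intervalIntegrable _ _)
  rw [intervalIntegral.integral_add (continuous_const.intervalIntegrable _ _)
    (c.intervalIntegrable _ _)] at h4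
  simpa using h4.symm

theorem om_int {u : Fr n} (hu : u ∈ X.F) (v w : E3) :
    X.om u v w = -∫ s in (0 : ℝ)..1, X.N (X.Ex u (s • v)) (cr (s • v) (X.th u (s • v) w)) := by
  have dom : Differentiable ℝ (X.om u) := (X.contDiff_om u).differentiable (by simp)
  have c : Continuous fun s : ℝ => -X.N (X.Ex u (s • v)) (cr (s • v) (X.th u (s • v) w)) := by
    have := (X.contDiff_th u).continuous
    have := (X.contDiff_Ex u).continuous
    have := X.smN.continuous
    fun_prop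
  have h : ∀ s : ℝ, HasDerivAt (fun s : ℝ => s • X.om u (s • v) w)
      (-X.N (X.Ex u (s • v)) (cr (s • v) (X.th u (s • v) w))) s := fun s => by
    have h1 := (hasDerivAt_id s).smul (hasDerivAt_ray (f := fun z => X.om u z w)
      (dom.clm_apply (differentiable_const w)) v s)
    refine h1.congr_deriv ?_
    have h2 := ((str X hu (s • v)).2 v w).2
    have h3 := euler (B := 0) dom (fun z => by simpa using om_ray X hu z 1) v w s
    rw [th_ray X hu, om_ray X hu] at h2
    simp only [id, map_smul, map_zero, sub_zero, _root_.zero_apply, _root_.smul_apply] at h2 h3 ⊢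
    linear_combination (norm := module) s • h2 + h3
  have h4 := intervalIntegral.integral_eq_sub_of_hasDerivAt (a := 0) (b := 1) (fun s _ => h s)
    (c.intervalIntegrable _ _)
  rw [intervalIntegral.integral_neg] at h4
  simpa using h4.symm

theorem gauss {u : Fr n} (hu : u ∈ X.F) (v w : E3) : ⟪X.th u v w, v⟫ = ⟪w, v⟫ := by
  have c : Continuous fun s : ℝ => cr (X.om u (s • v) w) (s • v) := by
    have := (X.contDiff_om u).continuous
    fun_prop
  have h := (innerSL ℝ v).intervalIntegral_comp_comm (c.intervalIntegrable (μ := volume) 0 1)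
  have e : ∀ s : ℝ, innerSL ℝ v (cr (X.om u (s • v) w) (s • v)) = 0 := fun s => by
    rw [innerSL_apply_apply, map_smul, inner_smul_right, real_inner_comm, inner_cr_right, mul_zero]
  simp only [e, intervalIntegral.integral_zero, innerSL_apply_apply] at h
  rw [th_int X hu, inner_add_left, real_inner_comm v (∫ _ in _.._, _), ← h, add_zero]

theorem gram_ex {u : Fr n} (hu : u ∈ X.F) (v : E3) :
    gram (X.g (X.ex u v)) (fderiv ℝ (X.ex u) v) = X.den u v ^ 2 := by
  have e : (Matrix.of fun i j : Fin 3 => X.g (X.ex u v) (fderiv ℝ (X.ex u) v (ee i))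
      (fderiv ℝ (X.ex u) v (ee j))) = (X.thM u v).transpose * X.thM u v := by
    ext i j
    rw [fderiv_ex X hu, Matrix.of_apply, Matrix.mul_apply, Fin.sum_univ_three]
    exact ((X.Ex_mem u hu v).2.2 _ _).trans (inner_E3 _ _)
  rw [gram, e, Matrix.det_mul, Matrix.det_transpose, sq, Flo.den]

theorem det_bound {e : Fin 3 → Fin 3 → ℝ} (h : ∀ i j, |e i j| ≤ 1 / 16)
    {M : Matrix (Fin 3) (Fin 3) ℝ} (hM : ∀ i j, M i j = e i j + if i = j then 1 else 0) :
    1 / 2 ≤ M.det ∧ M.det ≤ 2 := by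
  have m2 : ∀ i j k l, |e i j * e k l| ≤ 1 / 256 := fun i j k l => by
    rw [abs_mul]
    exact (mul_le_mul (h i j) (h k l) (abs_nonneg _) (by norm_num)).trans (by norm_num)
  have m3 : ∀ i j k l p q, |e i j * e k l * e p q| ≤ 1 / 4096 := fun i j k l p q => by
    rw [abs_mul]
    exact (mul_le_mul (m2 i j k l) (h p q) (abs_nonneg _) (by norm_num)).trans (by norm_num)
  have e0 : M.det = 1 + (e 0 0 + e 1 1 + e 2 2) + (e 0 0 * e 1 1 + e 0 0 * e 2 2 + e 1 1 * e 2 2 -
      e 1 2 * e 2 1 - e 0 1 * e 1 0 - e 0 2 * e 2 0) + (e 0 0 * e 1 1 * e 2 2 -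
      e 0 0 * e 1 2 * e 2 1 - e 0 1 * e 1 0 * e 2 2 + e 0 1 * e 1 2 * e 2 0 +
      e 0 2 * e 1 0 * e 2 1 - e 0 2 * e 1 1 * e 2 0) := by
    simp [Matrix.det_fin_three, hM]
    ring
  have a1 := abs_le.1 (h 0 0); have a2 := abs_le.1 (h 1 1); have a3 := abs_le.1 (h 2 2)
  have b1 := abs_le.1 (m2 0 0 1 1); have b2 := abs_le.1 (m2 0 0 2 2)
  have b3 := abs_le.1 (m2 1 1 2 2); have b4 := abs_le.1 (m2 1 2 2 1)
  have b5 := abs_le.1 (m2 0 1 1 0); have b6 := abs_le.1 (m2 0 2 2 0)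
  have c1 := abs_le.1 (m3 0 0 1 1 2 2); have c2 := abs_le.1 (m3 0 0 1 2 2 1)
  have c3 := abs_le.1 (m3 0 1 1 0 2 2); have c4 := abs_le.1 (m3 0 1 1 2 2 0)
  have c5 := abs_le.1 (m3 0 2 1 0 2 1); have c6 := abs_le.1 (m3 0 2 1 1 2 0)
  constructor <;> linarith

theorem bounds {u : Fr n} (hu : u ∈ X.F) (hB : X.Bd 0 1) (v : E3) (hv : ‖v‖ ≤ 1 / 4) :
    ‖X.th u v - ContinuousLinearMap.id ℝ E3‖ ≤ ‖v‖ ^ 2 ∧ ‖X.om u v‖ ≤ 2 * ‖v‖ := by
  obtain ⟨z, hz, hm⟩ := (isCompact_closedBall (0 : E3) (1 / 4)).exists_isMaxOn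
    ⟨0, mem_closedBall_self (by norm_num)⟩ (X.contDiff_th u).continuous.norm.continuousOn
  rw [mem_closedBall_zero_iff] at hz
  have hm' : ∀ y : E3, ‖y‖ ≤ 1 / 4 → ‖X.th u y‖ ≤ ‖X.th u z‖ := fun y hy =>
    hm (mem_closedBall_zero_iff.2 hy)
  generalize hmz : ‖X.th u z‖ = m at hm'
  have m0 : 0 ≤ m := hmz ▸ norm_nonneg _
  have sm : ∀ (y : E3) (s : ℝ), s ∈ Icc (0 : ℝ) 1 → ‖s • y‖ = s * ‖y‖ ∧ ‖s • y‖ ≤ ‖y‖ :=
    fun y s hs => by
      rw [norm_smul, Real.norm_of_nonneg hs.1]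
      exact ⟨rfl, mul_le_of_le_one_left (norm_nonneg _) hs.2⟩
  have h1 : ∀ y : E3, ‖y‖ ≤ 1 / 4 → ‖X.om u y‖ ≤ 3 / 2 * m * ‖y‖ := fun y hy => by
    refine ContinuousLinearMap.opNorm_le_bound _ (by positivity) fun w => ?_
    rw [om_int X hu, norm_neg]
    refine (norm_int_le (c := 3 * (‖y‖ * (m * ‖w‖))) fun s hs => ?_).trans (le_of_eq (by ring))
    have a1 : ‖X.N (X.Ex u (s • y))‖ ≤ 3 := by simpa using hB.norm_N (X.Ex_mem u hu (s • y))
    have a2 : ‖X.th u (s • y) w‖ ≤ m * ‖w‖ :=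
      (X.th u (s • y)).le_of_opNorm_le (hm' _ ((sm y s hs).2.trans hy)) w
    have a3 := (norm_cr_le (s • y) _).trans (mul_le_mul_of_nonneg_left a2 (norm_nonneg _))
    refine ((X.N _).le_of_opNorm_le_of_le a1 a3).trans (le_of_eq ?_)
    rw [(sm y s hs).1]
    ring
  have h2 : ∀ y : E3, ‖y‖ ≤ 1 / 4 →
      ‖X.th u y - ContinuousLinearMap.id ℝ E3‖ ≤ 3 / 4 * m * ‖y‖ ^ 2 := fun y hy => by
    refine ContinuousLinearMap.opNorm_le_bound _ (by positivity) fun w => ?_
    rw [_root_.sub_apply, th_int X hu, ContinuousLinearMap.id_apply, add_sub_cancel_left]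
    refine (norm_int_le (c := 3 / 2 * m * ‖y‖ * ‖w‖ * ‖y‖) fun s hs => ?_).trans
      (le_of_eq (by ring))
    have a1 : ‖X.om u (s • y) w‖ ≤ 3 / 2 * m * ‖y‖ * ‖w‖ :=
      (X.om u (s • y)).le_of_opNorm_le ((h1 _ ((sm y s hs).2.trans hy)).trans
        (mul_le_mul_of_nonneg_left (sm y s hs).2 (by positivity))) w
    refine ((norm_cr_le _ _).trans (mul_le_mul_of_nonneg_right a1 (norm_nonneg _))).trans
      (le_of_eq ?_)
    rw [(sm y s hs).1]
    ring
  have h3 : m ≤ 4 / 3 := by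
    have a1 : m ≤ ‖X.th u z - ContinuousLinearMap.id ℝ E3‖ + ‖ContinuousLinearMap.id ℝ E3‖ := by
      rw [← hmz]
      exact norm_le_norm_sub_add _ _
    have a2 : ‖ContinuousLinearMap.id ℝ E3‖ ≤ 1 := ContinuousLinearMap.norm_id_le
    have a3 : ‖z‖ ^ 2 ≤ (1 / 4) ^ 2 := pow_le_pow_left₀ (norm_nonneg _) hz 2
    have a4 := mul_le_mul_of_nonneg_left a3 m0
    have a5 := h2 z hz
    nlinarith
  refine ⟨(h2 v hv).trans ?_, (h1 v hv).trans ?_⟩
  · exact mul_le_of_le_one_left (sq_nonneg _) (by linarith)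
  · exact mul_le_mul_of_nonneg_right (by linarith) (norm_nonneg _)

end Str

open Str in
theorem rad_holds : RadStmt := by
  intro n X u hu
  refine ⟨uniq X hu, flow X hu, fun Q hQ v => ⟨Ex_rot X hu hQ v, den_rot X hu hQ v⟩, ?_, ?_,
    fun v => ⟨by simpa using th_ray X hu v 1, by simpa using om_ray X hu v 1, gauss X hu v,
      fderiv_ex X hu v, gram_ex X hu v, fun w => ⟨th_int X hu v w, om_int X hu v w⟩⟩,
    fun hB v hv => ?_⟩
  · ext1 w
    simpa using th_ray X hu w 0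
  · ext1 w
    simpa using om_ray X hu w 0
  · obtain ⟨h1, h2⟩ := bounds X hu hB v hv
    refine ⟨h1, h2, det_bound (e := fun a i => (X.th u v - ContinuousLinearMap.id ℝ E3) (ee i) a)
      (fun a i => ?_) fun a i => ?_⟩
    · have a3 : ‖v‖ ^ 2 ≤ (1 / 4) ^ 2 := pow_le_pow_left₀ (norm_nonneg _) hv 2
      have a4 := (X.th u v - ContinuousLinearMap.id ℝ E3).le_of_opNorm_le (h1.trans a3) (ee i)
      rw [norm_ee] at a4
      exact (abs_apply_le _ a).trans (a4.trans (by norm_num))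
    · simp [Flo.thM]

end Pool.Agent.Lib.MP_1a4aff_gt.I3
end

-- part Pool.Agent.Lib.MP_1a4aff_gt.I3.NuB
section

/-! The horizontal fields are divergence free. -/

set_option autoImplicit false
set_option linter.unusedSectionVars false

open MeasureTheory Set Filter Topology Metric
open scoped ContDiff RealInnerProductSpace ENNReal Manifold

namespace Pool.Agent.Lib.MP_1a4aff_gt.I3

namespace NuB

section
variable {P Z V : Type} [NormedAddCommGroup P] [NormedSpace ℝ P] [FiniteDimensional ℝ P]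
  [NormedAddCommGroup Z] [NormedSpace ℝ Z] [MeasurableSpace Z] [BorelSpace Z]
  [SecondCountableTopology Z] [NormedAddCommGroup V] [NormedSpace ℝ V] [CompleteSpace V]
  {η : Measure Z} [IsFiniteMeasure η] {K : Set Z}

theorem intg (hK : IsCompact K) (hη : η Kᶜ = 0) {f : Z → V} (hf : Continuous f) :
    Integrable f η := by
  have h := hf.continuousOn.integrableOn_compact (μ := η) hK
  rwa [IntegrableOn, Measure.restrict_eq_self_of_ae_mem hη] at h

theorem cont_param (hK : IsCompact K) (hη : η Kᶜ = 0) {F : P × Z → V} (hF : Continuous F) :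
    Continuous fun p => ∫ z, F (p, z) ∂η := by
  have := FiniteDimensional.proper_real P
  have h := continuous_parametric_integral_of_continuous (μ := η) (f := fun p z => F (p, z)) hF hK
  rwa [Measure.restrict_eq_self_of_ae_mem hη] at h

/-- differentiation under the integral sign -/
theorem param (hK : IsCompact K) (hη : η Kᶜ = 0) {F : P × Z → V} (hF : ContDiff ℝ 1 F) :
    ContDiff ℝ 1 (fun p => ∫ z, F (p, z) ∂η) ∧ ∀ p w,
      fderiv ℝ (fun p => ∫ z, F (p, z) ∂η) p w = ∫ z, fderiv ℝ (fun p => F (p, z)) p w ∂η := by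
  have := FiniteDimensional.proper_real P
  let F' : P × Z → P →L[ℝ] V := fun q => fderiv ℝ F q ∘L ContinuousLinearMap.inl ℝ P Z
  have hc : Continuous F' := (hF.continuous_fderiv (by simp)).clm_comp continuous_const
  have hd : ∀ p z, HasFDerivAt (fun p => F (p, z)) (F' (p, z)) p := fun p z =>
    (hF.differentiable (by simp) (p, z)).hasFDerivAt.comp p (hasFDerivAt_prodMk_left p z)
  have h1 : ∀ p, Continuous fun z => F (p, z) := fun p =>
    hF.continuous.comp (continuous_const.prodMk continuous_id)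
  have h2 : ∀ p, Continuous fun z => F' (p, z) := fun p =>
    hc.comp (continuous_const.prodMk continuous_id)
  have key : ∀ p, HasFDerivAt (fun p => ∫ z, F (p, z) ∂η) (∫ z, F' (p, z) ∂η) p := fun p => by
    obtain ⟨C, hC⟩ := ((isCompact_closedBall p 1).prod hK).exists_bound_of_continuousOn
      hc.continuousOn
    exact hasFDerivAt_integral_of_dominated_of_fderiv_le (F := fun p z => F (p, z))
      (F' := fun p z => F' (p, z)) (bound := fun _ => C) (closedBall_mem_nhds p one_pos)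
      (Eventually.of_forall fun q => (h1 q).aestronglyMeasurable) (intg hK hη (h1 p))
      (h2 p).aestronglyMeasurable
      ((show ∀ᵐ z ∂η, z ∈ K from hη).mono fun z hz q hq => hC (q, z) ⟨hq, hz⟩)
      (integrable_const C) (Eventually.of_forall fun z q _ => hd q z)
  refine ⟨contDiff_one_iff_fderiv.2 ⟨fun p => (key p).differentiableAt, ?_⟩, fun p w => ?_⟩
  · rw [funext fun p => (key p).fderiv]
    exact cont_param hK hη hc
  · rw [(key p).fderiv, ContinuousLinearMap.integral_apply (intg hK hη (h2 p))]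
    simp only [(hd p _).fderiv]

end

/-- the integral of a derivative over an open set vanishes if the support is compact there -/
theorem integral_deriv {G : E3 → ℝ} (hG : ContDiff ℝ 1 G) {W L : Set E3} (hW : IsOpen W)
    (hL : IsCompact L) (hLW : L ⊆ W) (h0 : ∀ v ∈ W, v ∉ L → G v = 0) (w : E3) :
    IntegrableOn (fun v => fderiv ℝ G v w) W ∧ ∫ v in W, fderiv ℝ G v w = 0 := by
  have e1 : ∀ v ∈ W, W.indicator G =ᶠ[𝓝 v] G := fun v hv =>
    (show ∀ᶠ y in 𝓝 v, y ∈ W from hW.mem_nhds hv).mono fun y hy => indicator_of_mem hy G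
  have z : ∀ y, y ∉ L → W.indicator G y = 0 := fun y hy => by
    by_cases h : y ∈ W
    · rw [indicator_of_mem h, h0 y h hy]
    · exact indicator_of_notMem h G
  have e2 : ∀ v, v ∉ W → W.indicator G =ᶠ[𝓝 v] fun _ => 0 := fun v hv =>
    (show ∀ᶠ y in 𝓝 v, y ∈ Lᶜ from hL.isClosed.isOpen_compl.mem_nhds fun h => hv (hLW h)).mono z
  have h1 : ContDiff ℝ 1 (W.indicator G) := contDiff_iff_contDiffAt.2 fun v => by
    by_cases h : v ∈ W
    · exact hG.contDiffAt.congr_of_eventuallyEq (e1 v h)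
    · exact contDiffAt_const.congr_of_eventuallyEq (e2 v h)
  have h2 : HasCompactSupport (W.indicator G) := HasCompactSupport.intro hL z
  have h3 : Integrable fun v => fderiv ℝ (W.indicator G) v w :=
    ((h1.continuous_fderiv (by simp)).clm_apply continuous_const).integrable_of_hasCompactSupport
      (h2.fderiv_apply ℝ w)
  have h4 := integral_mul_fderiv_eq_neg_fderiv_mul_of_integrable (μ := volume)
    (f := fun _ : E3 => (1 : ℝ)) (g := W.indicator G) (v := w) (by simp) (by simpa using h3)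
    (by simpa using h1.continuous.integrable_of_hasCompactSupport h2)
    (fun _ _ => differentiableAt_const _) fun y _ => h1.differentiable (by simp) y
  have h5 : (fun v => fderiv ℝ (W.indicator G) v w) = W.indicator fun v => fderiv ℝ G v w := by
    funext v
    by_cases h : v ∈ W
    · rw [indicator_of_mem h, (e1 v h).fderiv_eq]
    · rw [indicator_of_notMem h, (e2 v h).fderiv_eq]; simp
  simp only [one_mul, fderiv_fun_const, Pi.zero_apply, zero_apply, zero_mul,
    integral_zero, neg_zero] at h4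
  rw [h5] at h3 h4
  exact ⟨(integrable_indicator_iff hW.measurableSet).1 h3,
    by rwa [integral_indicator hW.measurableSet] at h4⟩

variable {n : ℕ}

/-- the area formula for integrals -/
theorem area {D : Data n} {μ : Measure (Amb n)} (hμ : IsArea D μ) {e : E3 → Amb n}
    (he : ContDiff ℝ 1 e) (hS : ∀ v, e v ∈ D.S) {W : Set E3} {U : Set (Amb n)} {a : Amb n → E3}
    (hW : IsOpen W) (hU : IsOpen U) (h1 : ∀ v ∈ W, e v ∈ U ∧ a (e v) = v)
    (h2 : ∀ p ∈ D.S ∩ U, a p ∈ W ∧ e (a p) = p) {ρ : E3 → ℝ} (hρ : Continuous ρ)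
    (h3 : ∀ v ∈ W, 0 ≤ ρ v) (h4 : ∀ v, gram (D.g (e v)) (fderiv ℝ e v) = ρ v ^ 2) {d : Amb n → ℝ}
    (hd : ContinuousOn d U) : ∫ p in U, d p ∂μ = ∫ v in W, ρ v * d (e v) := by
  have hm : Measurable fun v => ENNReal.ofReal (ρ v) := hρ.measurable.ennreal_ofReal
  have key : μ.restrict U =
      ((volume.restrict W).withDensity fun v => ENNReal.ofReal (ρ v)).map e := by
    ext B hB
    have hB' := he.continuous.measurable hB
    rw [Measure.restrict_apply hB, Measure.map_apply he.continuous.measurable hB,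
      withDensity_apply _ hB', Measure.restrict_restrict hB']
    have e1 : e '' (e ⁻¹' B ∩ W) = B ∩ U ∩ D.S := by
      ext p
      constructor
      · rintro ⟨v, ⟨hv, hv'⟩, rfl⟩
        exact ⟨⟨hv, (h1 v hv').1⟩, hS v⟩
      · rintro ⟨⟨k1, k2⟩, k3⟩
        obtain ⟨k4, k5⟩ := h2 p ⟨k3, k2⟩
        exact ⟨a p, ⟨by rwa [mem_preimage, k5], k4⟩, k5⟩
    have e2 := hμ.area e univ isOpen_univ he.contDiffOn (fun v _ => hS v) (e ⁻¹' B ∩ W)
      (subset_univ _) (hB'.inter hW.measurableSet)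
      fun v hv v' hv' h => by rw [← (h1 v hv.2).2, h, (h1 v' hv'.2).2]
    rw [← measure_inter_conull hμ.conc, ← e1, e2]
    refine setLIntegral_congr_fun (hB'.inter hW.measurableSet) fun v hv => ?_
    simp only [h4, Real.sqrt_sq (h3 v hv.2)]
  have h5 := hd.aestronglyMeasurable (μ := μ) hU.measurableSet
  rw [key] at h5 ⊢
  rw [integral_map he.continuous.aemeasurable h5,
    integral_withDensity_eq_integral_toReal_smul hm (by simp)]
  refine setIntegral_congr_fun hW.measurableSet fun v hv => ?_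
  simp only [ENNReal.toReal_ofReal (h3 v hv), smul_eq_mul]

theorem alg (A : E3 →L[ℝ] E3) {t0 t1 t2 w0 w1 w2 Y d01 d02 d10 d12 d20 d21 : E3}
    (h01 : d01 - d10 = -cr w0 t1 + cr w1 t0) (h12 : d12 - d21 = -cr w1 t2 + cr w2 t1)
    (h20 : d20 - d02 = -cr w2 t0 + cr w0 t2) :
    (⟪cr t1 t2, A t0 - cr w0 Y⟫ + ⟪cr t1 d02 + cr d01 t2, Y⟫) +
      (⟪cr t2 t0, A t1 - cr w1 Y⟫ + ⟪cr t2 d10 + cr d12 t0, Y⟫) +
      (⟪cr t0 t1, A t2 - cr w2 Y⟫ + ⟪cr t0 d21 + cr d20 t1, Y⟫) =
    ⟪cr t0 t1, t2⟫ * ∑ c, A (ee c) c := by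
  rw [eq_add_of_sub_eq h01, eq_add_of_sub_eq h12, eq_add_of_sub_eq h20, clm_sum_ee A t0,
    clm_sum_ee A t1, clm_sum_ee A t2]
  simp only [inner_E3, Fin.sum_univ_three, PiLp.add_apply, PiLp.sub_apply, PiLp.neg_apply,
    PiLp.smul_apply, smul_eq_mul, cr0, cr1, cr2]
  ring

/-- the horizontal divergence -/
noncomputable def Dv (C : Con n) (y : Fr n → E3) (u : Fr n) : ℝ :=
  ∑ c, fderiv ℝ y u (C.H u (ee c)) c

theorem fderiv_vert {y : Fr n → E3} (hy : ContDiff ℝ 1 y)
    (he : ∀ R, Orth R → ∀ u, R (y (rot R u)) = y u) (u : Fr n) (b : E3) :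
    fderiv ℝ y u (vert b u) = -cr b (y u) := by
  obtain ⟨R, -, h0, hO, hR⟩ := exists_rot_curve b
  have h1 : HasDerivAt (fun t => y (rot (R t) u)) (fderiv ℝ y u (vert b u)) 0 :=
    HasFDerivAt.comp_hasDerivAt_of_eq 0 (hy.differentiable (by simp) u).hasFDerivAt
      (hasDerivAt_rot_curve hR u) (by rw [h0]; rfl)
  have h2 := hR.clm_apply h1
  simp only [he _ (hO _)] at h2
  have h3 := h2.unique (hasDerivAt_const 0 (y u))
  rw [h0, rot_id, ContinuousLinearMap.id_apply] at h3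
  exact eq_neg_of_add_eq_zero_right h3

/-- the components of the field in normal coordinates, times the density -/
noncomputable def GG (X : Flo n) (u : Fr n) (y : Fr n → E3) (a b : Fin 3) (v : E3) : ℝ :=
  ⟪cr (X.th u v (ee a)) (X.th u v (ee b)), y (X.Ex u v)⟫

theorem contDiff_th1 (X : Flo n) (u : Fr n) (w : E3) : ContDiff ℝ 1 fun v => X.th u v w :=
  ((X.contDiff_th u).clm_apply contDiff_const).of_le (by simp)

theorem contDiff_GG (X : Flo n) (u : Fr n) {y : Fr n → E3} (hy : ContDiff ℝ 1 y) (a b : Fin 3) :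
    ContDiff ℝ 1 (GG X u y a b) :=
  ((cr.contDiff.comp (contDiff_th1 X u _)).clm_apply (contDiff_th1 X u _)).inner ℝ
    (hy.comp ((X.contDiff_Ex u).of_le (by simp)))

theorem ident (hS : StrStmt) (X : Flo n) {u : Fr n} (hu : u ∈ X.F) {y : Fr n → E3}
    (hy : ContDiff ℝ 1 y) (he : ∀ R, Orth R → ∀ u, R (y (rot R u)) = y u) (v : E3) :
    fderiv ℝ (GG X u y 1 2) v (ee 0) + fderiv ℝ (GG X u y 2 0) v (ee 1) +
      fderiv ℝ (GG X u y 0 1) v (ee 2) = X.den u v * Dv X.toCon y (X.Ex u v) := by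
  obtain ⟨h1, h2⟩ := hS n X.toCon E3 (X.Ex u) univ isOpen_univ (X.contDiff_Ex u).contDiffOn
    (fun w _ => X.Ex_mem u hu w) v trivial
  have hY := (hy.differentiable (by simp) (X.Ex u v)).hasFDerivAt.comp v
    ((X.contDiff_Ex u).differentiable (by simp) v).hasFDerivAt
  have ht := fun w => ((contDiff_th1 X u w).differentiable (by simp) v).hasFDerivAt
  have key : ∀ a b w, fderiv ℝ (GG X u y a b) v w =
      ⟪cr (X.th u v (ee a)) (X.th u v (ee b)), (fderiv ℝ y (X.Ex u v) ∘L X.H (X.Ex u v))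
        (X.th u v w) - cr (X.om u v w) (y (X.Ex u v))⟫ +
      ⟪cr (X.th u v (ee a)) (fderiv ℝ (fun z => X.th u z (ee b)) v w) +
        cr (fderiv ℝ (fun z => X.th u z (ee a)) v w) (X.th u v (ee b)), y (X.Ex u v)⟫ := by
    intro a b w
    have h3 := ((cr.hasFDerivAt_of_bilinear (ht (ee a)) (ht (ee b))).inner ℝ hY).fderiv
    refine (congrArg (fun L => L w) h3).trans ?_
    simp only [ContinuousLinearMap.comp_apply, ContinuousLinearMap.prod_apply, fderivInnerCLM_apply,
      add_apply, ContinuousLinearMap.precompR_apply,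
      ContinuousLinearMap.precompL_apply, ContinuousLinearMap.compL_apply, Function.comp_apply]
    rw [h1 w, map_add, fderiv_vert hy he, ← sub_eq_add_neg]
    rfl
  rw [key, key, key]
  refine (alg _ (h2 (ee 0) (ee 1)).1 (h2 (ee 1) (ee 2)).1 (h2 (ee 2) (ee 0)).1).trans ?_
  congr 1
  simp only [Flo.den, Flo.thM, Flo.th, Matrix.det_fin_three, Matrix.of_apply, inner_E3, cr0, cr1,
    cr2]
  ring

theorem HD_rot (C : Con n) {f : Fr n → ℝ} (hf : ContDiff ℝ ∞ f) {Q : E3 →L[ℝ] E3} (hQ : Orth Q)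
    (u : Fr n) (x : E3) :
    C.HD x f (rot Q u) = fderiv ℝ (fun w => f (rot Q w)) u (C.H u (Q x)) := by
  have h := ((hf.differentiable (by simp) (rot Q u)).hasFDerivAt.comp u
    (hasFDerivAt_rot Q u)).fderiv
  rw [Con.HD, C.H_rot Q hQ]
  exact (congrArg (fun L => L (C.H u (Q x))) h).symm

section
variable {η : Measure (E3 →L[ℝ] E3)} [IsProbabilityMeasure η]

theorem conc (h : η {Q | ¬ Orth Q} = 0) : η (closedBall 0 1)ᶜ = 0 :=
  measure_mono_null (fun _ hQ h' => hQ (mem_closedBall_zero_iff.2 (Orth.opNorm_le h'))) h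

theorem cpt : IsCompact (closedBall (0 : E3 →L[ℝ] E3) 1) :=
  have := FiniteDimensional.proper_real (E3 →L[ℝ] E3)
  isCompact_closedBall _ _

theorem contDiff_rot' : ContDiff ℝ ∞ fun z : Fr n × (E3 →L[ℝ] E3) => rot z.2 z.1 :=
  contDiff_rot₂.comp (contDiff_snd.prodMk contDiff_fst)

theorem avg_left (hl : ∀ Q, Orth Q → η.map (fun R => Q ∘L R) = η) {V : Type}
    [NormedAddCommGroup V] [NormedSpace ℝ V] [SecondCountableTopology V]
    {φ : (E3 →L[ℝ] E3) → V} (hφ : Continuous φ)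
    {R : E3 →L[ℝ] E3} (hR : Orth R) : ∫ Q, φ (R ∘L Q) ∂η = ∫ Q, φ Q ∂η := by
  conv_rhs => rw [← hl R hR]
  exact (integral_map (continuous_const.clm_comp continuous_id').aemeasurable
    hφ.aestronglyMeasurable).symm

/-- the averaged field -/
theorem exists_field (h0 : η {Q | ¬ Orth Q} = 0) (hl : ∀ Q, Orth Q → η.map (fun R => Q ∘L R) = η)
    (C : Con n) {f : Fr n → ℝ} (hf : ContDiff ℝ ∞ f) (x : E3) :
    ∃ y : Fr n → E3, ContDiff ℝ 1 y ∧ (∀ R, Orth R → ∀ u, R (y (rot R u)) = y u) ∧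
      (∀ u, Dv C y u = ∫ Q, C.HD x f (rot Q u) ∂η) ∧
      ∀ u, (∀ Q, f (rot Q u) = 0) → y u = 0 := by
  have hF : ContDiff ℝ 1 fun z : Fr n × (E3 →L[ℝ] E3) => f (rot z.2 z.1) • z.2 x :=
    ((hf.comp contDiff_rot').smul (contDiff_snd.clm_apply contDiff_const)).of_le (by simp)
  obtain ⟨h1, h2⟩ := param cpt (conc h0) hF
  have hc : ∀ u, Continuous fun Q : E3 →L[ℝ] E3 => f (rot Q u) • Q x := fun u =>
    hF.continuous.comp (continuous_const.prodMk continuous_id)
  refine ⟨_, h1, fun R hR u => ?_, fun u => ?_, fun u hu => by simp [hu]⟩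
  · simp only [rot_rot]
    rw [← R.integral_comp_comm (intg cpt (conc h0) (by simpa only [rot_rot] using hc (rot R u))),
      ← avg_left hl (hc u) hR]
    simp only [map_smul, ContinuousLinearMap.comp_apply]
  · have hd : ∀ Q : E3 →L[ℝ] E3, DifferentiableAt ℝ (fun w => f (rot Q w)) u := fun Q =>
      (hf.comp (contDiff_rot Q)).differentiable (by simp) u
    have h3 : Continuous fun Q : E3 →L[ℝ] E3 => fderiv ℝ (fun w => f (rot Q w)) u :=
      (ContDiff.fderiv (f := fun (Q : E3 →L[ℝ] E3) w => f (rot Q w)) (g := fun _ => u) (n := 0)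
        (m := ∞) (hf.comp contDiff_rot₂) contDiff_const (by simp)).continuous
    have h4 : ∀ w, Continuous fun Q : E3 →L[ℝ] E3 =>
        fderiv ℝ (fun w => f (rot Q w)) u w • Q x := fun w =>
      (h3.clm_apply continuous_const).smul (continuous_id'.clm_apply continuous_const)
    have h5 : ∀ c w, fderiv ℝ (fun p => ∫ Q, f (rot Q p) • Q x ∂η) u w c =
        ∫ Q, fderiv ℝ (fun w => f (rot Q w)) u w * Q x c ∂η := fun c w => by
      rw [h2]
      simp only [fderiv_smul_const (hd _), ContinuousLinearMap.smulRight_apply]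
      exact ((EuclideanSpace.proj c).integral_comp_comm (intg cpt (conc h0) (h4 w))).symm
    simp only [Dv, h5]
    have h6 : ∀ c w, Continuous fun Q : E3 →L[ℝ] E3 =>
        fderiv ℝ (fun w => f (rot Q w)) u w * Q x c := fun c w =>
      (EuclideanSpace.proj (𝕜 := ℝ) c).continuous.comp (h4 w)
    rw [← integral_finsetSum _ fun c _ => intg cpt (conc h0) (h6 c _)]
    refine integral_congr_ae ((show ∀ᵐ Q ∂η, Orth Q from h0).mono fun Q hQ => ?_)
    simp only
    rw [HD_rot C hf hQ, clm_sum_ee (C.H u) (Q x), map_sum]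
    exact Finset.sum_congr rfl fun c _ => by rw [map_smul, smul_eq_mul, mul_comm]

/-- averaging over the fibres -/
theorem integral_avg (h0 : η {Q | ¬ Orth Q} = 0) {D : Data n} (hK : IsCompact D.F)
    {μ : Measure (Amb n)} {ν : Measure (Fr n)} [IsFiniteMeasure μ] (hν : IsLift D μ ν)
    {φ : Fr n → ℝ} (hφ : Continuous φ) :
    ∫ u, φ u ∂ν = ∫ u, ∫ Q, φ (rot Q u) ∂η ∂ν := by
  have := hν.fin
  have hc : Continuous fun z : Fr n × (E3 →L[ℝ] E3) => φ (rot z.2 z.1) :=
    hφ.comp contDiff_rot'.continuous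
  have ha : ∀ᵐ z ∂ν.prod η, z.1 ∈ D.F := Measure.quasiMeasurePreserving_fst.ae hν.conc
  have hb : ∀ᵐ z ∂ν.prod η, z.2 ∈ closedBall (0 : E3 →L[ℝ] E3) 1 :=
    Measure.quasiMeasurePreserving_snd.ae (conc h0)
  rw [integral_integral_swap (f := fun u Q => φ (rot Q u))
    (integrable_of_conc (hK.prod cpt) (ha.and hb) hc.continuousOn)]
  rw [integral_congr_ae (g := fun _ => ∫ u, φ u ∂ν) ((show ∀ᵐ Q ∂η, Orth Q from h0).mono
    fun Q hQ => ?_)]
  · simp
  · simp only
    conv_rhs => rw [← hν.rot Q hQ]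
    exact (integral_map (contDiff_rot Q).continuous.aemeasurable hφ.aestronglyMeasurable).symm

end

/-- the statement for functions supported over a normal neighbourhood -/
theorem loc (hH : HaarStmt) (hS : StrStmt) (hR : RadStmt) (hL : LocStmt) (X : Flo n)
    {μ : Measure (Amb n)} {ν : Measure (Fr n)} (hμ : IsArea X.toData μ) (hν : IsLift X.toData μ ν)
    {p : Amb n} (hp : p ∈ X.S) : ∃ U, IsOpen U ∧ p ∈ U ∧ ∀ K, IsClosed K → K ⊆ U →
      ∀ f : Fr n → ℝ, ContDiff ℝ ∞ f → (∀ u : Fr n, u.1 ∉ K → f u = 0) →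
        ∀ x, ∫ u, X.HD x f u ∂ν = 0 := by
  obtain ⟨η, hη, h0, hl⟩ := hH
  have := hμ.fin
  obtain ⟨u, hu, rfl⟩ := X.frame p hp
  obtain ⟨-, -, -, r1, -, r2, -⟩ := hR n X u hu
  have hden := (X.contDiff_den u).continuous
  obtain ⟨W, U, a, hW, w0, hWO, hU, ha, h1, h2⟩ := hL n X.toData (X.ex u) {v | 0 < X.den u v}
    (isOpen_lt continuous_const hden) (X.contDiff_ex u).contDiffOn (fun v _ => X.ex_mem hu v) 0
    (by rw [mem_ofPred_eq, X.den_eq_det, r1]; simp [ContinuousLinearMap.det]) (by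
      rw [(r2 0).2.2.2.1, r1, X.Ex_zero, ContinuousLinearMap.comp_id]
      exact X.frame_inj hu)
  refine ⟨U, hU, by simpa using (h1 0 w0).1, fun K hK hKU f hf hz x => ?_⟩
  obtain ⟨y, y1, y2, y3, y4⟩ := exists_field h0 (fun Q hQ => (hl Q hQ).1) X.toCon hf x
  have hφ := (X.contDiff_HD x hf).continuous
  have hΦ : Continuous (Dv X.toCon y) := by
    rw [funext y3]
    exact cont_param cpt (conc h0) (hφ.comp contDiff_rot'.continuous)
  have hinv : ∀ R, Orth R → ∀ w, Dv X.toCon y (rot R w) = Dv X.toCon y w := fun R hR w => by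
    rw [y3, y3]
    exact avg_left (fun Q hQ => (hl Q hQ).1) (φ := fun Q => X.HD x f (rot Q w))
      (hφ.comp (contDiff_rot₂.continuous.comp (continuous_id.prodMk continuous_const))) hR
  have hy0 : ∀ w : Fr n, w.1 ∉ K → y w = 0 := fun w hw => y4 w fun Q => hz _ hw
  have hd : ContinuousOn (fun q => Dv X.toCon y (X.Ex u (a q))) U :=
    (hΦ.comp (X.contDiff_Ex u).continuous).comp_continuousOn ha.continuousOn
  have e1 : ∀ w ∈ X.F, Dv X.toCon y w =
      U.indicator (fun q => Dv X.toCon y (X.Ex u (a q))) w.1 := fun w hw => by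
    by_cases h : w.1 ∈ U
    · obtain ⟨Q, hQ, e⟩ := X.fiber _ (X.Ex_mem u hu (a w.1)) w hw (h2 _ ⟨hw.1, h⟩).2
      rw [indicator_of_mem h, ← hinv Q hQ (X.Ex u (a w.1)), ← e]
    · have e : y =ᶠ[𝓝 w] fun _ => 0 :=
        (show ∀ᶠ z : Fr n in 𝓝 w, z.1 ∈ Kᶜ from continuous_fst.continuousAt
          (hK.isOpen_compl.mem_nhds fun k => h (hKU k))).mono hy0
      simp [indicator_of_notMem h, Dv, e.fderiv_eq]
  have hLc : IsCompact (a '' (X.S ∩ K)) :=
    (X.cpt.inter_right hK).image_of_continuousOn (ha.continuousOn.mono fun q hq => hKU hq.2)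
  have hLW : a '' (X.S ∩ K) ⊆ W := by
    rintro _ ⟨q, hq, rfl⟩
    exact (h2 q ⟨hq.1, hKU hq.2⟩).1
  have e2 := fun i j w => integral_deriv (contDiff_GG X u y1 i j) hW hLc hLW (fun v hv hv' => by
    rw [GG, hy0 _ fun k => hv' ⟨X.ex u v, ⟨X.ex_mem hu v, k⟩, (h1 v hv).2⟩, inner_zero_right]) w
  rw [integral_avg h0 X.cptF hν hφ, ← funext y3,
    integral_congr_ae ((show ∀ᵐ w ∂ν, w ∈ X.F from hν.conc).mono e1),
    hν.integral_fst ((aestronglyMeasurable_indicator_iff hU.measurableSet).2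
      (hd.aestronglyMeasurable hU.measurableSet)), integral_indicator hU.measurableSet,
    area hμ ((X.contDiff_ex u).of_le (by simp)) (X.ex_mem hu) hW hU h1 h2 hden
      (fun v hv => le_of_lt (hWO hv)) (fun v => (r2 v).2.2.2.2.1) hd,
    setIntegral_congr_fun hW.measurableSet (g := fun v => fderiv ℝ (GG X u y 1 2) v (ee 0) +
      fderiv ℝ (GG X u y 2 0) v (ee 1) + fderiv ℝ (GG X u y 0 1) v (ee 2))
      fun v hv => by simp only [ident hS X hu y1 y2, (h1 v hv).2]]
  refine (integral_add ((e2 1 2 (ee 0)).1.add (e2 2 0 (ee 1)).1) (e2 0 1 (ee 2)).1).trans ?_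
  rw [integral_add' (e2 1 2 _).1 (e2 2 0 _).1, (e2 1 2 _).2, (e2 2 0 _).2, (e2 0 1 _).2]
  simp

end NuB

theorem nuB_holds (hH : HaarStmt) (hS : StrStmt) (hR : RadStmt) (hL : LocStmt) : NuBStmt := by
  intro n X μ ν hμ hν f hf x
  have := hμ.fin
  have := hν.fin
  choose U hU hpU hK using fun p : X.S => NuB.loc hH hS hR hL X hμ hν p.2
  obtain ⟨t, ht⟩ := X.cpt.elim_finite_subcover U hU fun p hp => mem_iUnion.2 ⟨⟨p, hp⟩, hpU _⟩
  obtain ⟨χ, hχ⟩ := SmoothPartitionOfUnity.exists_isSubordinate 𝓘(ℝ, Amb n) X.cpt.isClosed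
    (fun i : t => U i) (fun i => hU i) (by rwa [iUnion_subtype])
  have h1 : ∀ i : t, ContDiff ℝ ∞ fun u : Fr n => χ i u.1 * f u := fun i =>
    ((χ i).contMDiff.contDiff.comp contDiff_fst).mul hf
  have h2 : ∀ u ∈ X.F, X.HD x f u = ∑ i : t, X.HD x (fun u => χ i u.1 * f u) u := fun u hu => by
    rw [← X.HD_sum _ x fun i _ => h1 i]
    refine X.HD_congr hu x hf (ContDiff.sum fun i _ => h1 i) fun w hw => ?_
    have := χ.sum_eq_one hw.1
    rw [finsum_eq_sum_of_fintype] at this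
    simp only [← Finset.sum_mul, this, one_mul]
  rw [integral_congr_ae ((show ∀ᵐ w ∂ν, w ∈ X.F from hν.conc).mono h2),
    integral_finsetSum _ fun i _ => integrable_of_conc X.cptF hν.conc
      (X.contDiff_HD x (h1 i)).continuous.continuousOn]
  exact Finset.sum_eq_zero fun i _ => hK i _ (isClosed_tsupport (χ i)) (hχ i) _ (h1 i)
    (fun u hu => by rw [image_eq_zero_of_notMem_tsupport hu, zero_mul]) x

end Pool.Agent.Lib.MP_1a4aff_gt.I3
end
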