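import Pool.Agent.Lib.MP_1a4aff_gt.I3.BrB

-- part Pool.Agent.Lib.MP_1a4aff_gt.I3.NuC
section

/-! The geodesic flows preserve the Liouville measure; injectivity radius from ambient bounds. -/

set_option autoImplicit false

open MeasureTheory Set Filter Topology Metric
open scoped ContDiff RealInnerProductSpace ENNReal

namespace Pool.Agent.Lib.MP_1a4aff_gt.I3

namespace NuC

/-- finite measures that agree on smooth functions with values in `[0, 1]` are equal -/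
theorem ext_smooth {E : Type} [NormedAddCommGroup E] [NormedSpace ℝ E] [FiniteDimensional ℝ E]
    [MeasurableSpace E] [BorelSpace E] {μ ν : Measure E} [IsFiniteMeasure μ] [IsFiniteMeasure ν]
    (h : ∀ f : E → ℝ, ContDiff ℝ ∞ f → ∫ x, f x ∂μ = ∫ x, f x ∂ν) : μ = ν := by
  have key : ∀ U : Set E, IsOpen U → μ U = ν U := by
    intro U hU
    obtain ⟨f, hs, hf, hr⟩ := hU.exists_contDiff_support_eq (n := ⊤)
    have hr' : ∀ x, 0 ≤ f x ∧ f x ≤ 1 := fun x => hr ⟨x, rfl⟩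
    have lim : ∀ (m : Measure E) [IsFiniteMeasure m],
        Tendsto (fun k : ℕ => ∫ x, (1 - (1 - f x) ^ (k + 1)) ∂m) atTop
          (𝓝 (∫ x, U.indicator (fun _ => (1 : ℝ)) x ∂m)) := by
      intro m _
      refine tendsto_integral_of_dominated_convergence (fun _ => 1) (fun k => ?_)
        (integrable_const _) (fun k => Eventually.of_forall fun x => ?_)
        (Eventually.of_forall fun x => ?_)
      · exact (continuous_const.sub
          ((continuous_const.sub hf.continuous).pow _)).aestronglyMeasurable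
      · have h1 : 0 ≤ (1 - f x) ^ (k + 1) := pow_nonneg (by linarith [(hr' x).2]) _
        have h2 : (1 - f x) ^ (k + 1) ≤ 1 :=
          pow_le_one₀ (by linarith [(hr' x).2]) (by linarith [(hr' x).1])
        rw [Real.norm_eq_abs, abs_le]
        constructor <;> linarith
      · by_cases hx : x ∈ U
        · have h0 : f x ≠ 0 := by rw [← hs] at hx; exact hx
          have h1 : 0 < f x := lt_of_le_of_ne (hr' x).1 h0.symm
          have h2 : Tendsto (fun k : ℕ => (1 - f x) ^ (k + 1)) atTop (𝓝 0) :=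
            (tendsto_pow_atTop_nhds_zero_of_lt_one (by linarith [(hr' x).2]) (by linarith)).comp
              (tendsto_add_atTop_nat 1)
          simpa [hx] using h2.const_sub 1
        · have h0 : f x = 0 := by
            rw [← hs] at hx
            simpa using hx
          simp [hx, h0]
    have e := tendsto_nhds_unique (lim μ) ((lim ν).congr fun k =>
      (h _ (contDiff_const.sub ((contDiff_const.sub hf).pow _))).symm)
    rw [integral_indicator hU.measurableSet, integral_indicator hU.measurableSet] at e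
    simp only [integral_const, smul_eq_mul, mul_one, measureReal_restrict_apply_univ] at e
    exact (ENNReal.toReal_eq_toReal_iff' (measure_ne_top _ _) (measure_ne_top _ _)).1 e
  exact ext_of_generate_finite {s | IsOpen s} BorelSpace.measurable_eq isPiSystem_isOpen key
    (key _ isOpen_univ)

variable {n : ℕ}

theorem deriv_comp (X : Flo n) {f : Fr n → ℝ} (hf : ContDiff ℝ ∞ f) {u : Fr n} (hu : u ∈ X.F)
    (v : E3) (s : ℝ) :
    HasDerivAt (fun s : ℝ => f (X.Ex u (s • v))) (X.HD v f (X.Ex u (s • v))) s :=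
  (hf.differentiable (by simp) _).hasFDerivAt.comp_hasDerivAt s (X.Ex_ode u hu v s)

theorem HD_flow (hR : RadStmt) (X : Flo n) {f : Fr n → ℝ} (hf : ContDiff ℝ ∞ f) {u : Fr n}
    (hu : u ∈ X.F) (v : E3) (s : ℝ) :
    X.HD v (fun w => f (X.Ex w (s • v))) u = X.HD v f (X.Ex u (s • v)) := by
  have h1 := deriv_comp X (hf.comp (X.contDiff_Ex_left (s • v))) hu v 0
  have h2 : HasDerivAt (fun t : ℝ => f (X.Ex u ((t + s) • v)))
      (X.HD v f (X.Ex u ((0 + s) • v))) 0 :=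
    HasDerivAt.comp_add_const 0 s (deriv_comp X hf hu v (0 + s))
  rw [zero_smul, X.Ex_zero] at h1
  rw [zero_add] at h2
  simp only [Function.comp_def, (hR n X u hu).2.1 v] at h1
  exact h1.unique h2

theorem integral_flow (hR : RadStmt) (X : Flo n) (ν : Measure (Fr n)) [IsFiniteMeasure ν]
    (hν : ν X.Fᶜ = 0) (hd : ∀ f : Fr n → ℝ, ContDiff ℝ ∞ f → ∀ x, ∫ u, X.HD x f u ∂ν = 0)
    (v : E3) {f : Fr n → ℝ} (hf : ContDiff ℝ ∞ f) :
    ∫ u, f (X.Ex u v) ∂ν = ∫ u, f u ∂ν := by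
  have ae : ∀ᵐ u ∂ν, u ∈ X.F := hν
  have cont : Continuous fun z : ℝ × Fr n => X.HD v f (X.Ex z.2 (z.1 • v)) :=
    (X.contDiff_HD v hf).continuous.comp
      (X.smEx.continuous.comp (continuous_snd.prodMk (continuous_fst.smul continuous_const)))
  have hint : Integrable (Function.uncurry fun (s : ℝ) (u : Fr n) => X.HD v f (X.Ex u (s • v)))
      ((volume.restrict (uIoc (0 : ℝ) 1)).prod ν) := by
    have : IsFiniteMeasure (volume.restrict (uIoc (0 : ℝ) 1)) := by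
      rw [uIoc_of_le zero_le_one]; infer_instance
    refine integrable_of_conc (K := Icc (0 : ℝ) 1 ×ˢ X.F) (isCompact_Icc.prod X.cptF) ?_
      cont.continuousOn
    refine measure_mono_null (t := ((Icc (0 : ℝ) 1)ᶜ ×ˢ univ) ∪ (univ ×ˢ X.Fᶜ)) ?_
      (measure_union_null ?_ ?_)
    · rintro ⟨s, u⟩ h
      by_cases h1 : s ∈ Icc (0 : ℝ) 1
      · exact Or.inr ⟨trivial, fun h2 => h ⟨h1, h2⟩⟩
      · exact Or.inl ⟨h1, trivial⟩
    · rw [Measure.prod_prod, Measure.restrict_apply measurableSet_Icc.compl,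
        uIoc_of_le zero_le_one]
      have : (Icc (0 : ℝ) 1)ᶜ ∩ Ioc 0 1 = ∅ :=
        eq_empty_of_forall_notMem fun s hs => hs.1 (Ioc_subset_Icc_self hs.2)
      simp [this]
    · rw [Measure.prod_prod, hν, mul_zero]
  have sw := intervalIntegral_integral_swap hint
  have z : ∀ s : ℝ, ∫ u, X.HD v f (X.Ex u (s • v)) ∂ν = 0 := fun s => by
    rw [← hd _ (hf.comp (X.contDiff_Ex_left (s • v))) v]
    exact integral_congr_ae (ae.mono fun u hu => (HD_flow hR X hf hu v s).symm)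
  have ftc : ∀ u ∈ X.F, ∫ s in (0 : ℝ)..1, X.HD v f (X.Ex u (s • v)) = f (X.Ex u v) - f u := by
    intro u hu
    rw [intervalIntegral.integral_eq_sub_of_hasDerivAt (fun s _ => deriv_comp X hf hu v s)
      ((cont.comp (continuous_id.prodMk continuous_const)).intervalIntegrable 0 1)]
    rw [one_smul, zero_smul, X.Ex_zero]
  simp only [z, intervalIntegral.integral_zero] at sw
  have i1 : Integrable (fun u => f (X.Ex u v)) ν :=
    integrable_of_conc X.cptF hν (hf.comp (X.contDiff_Ex_left v)).continuous.continuousOn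
  rw [integral_congr_ae (ae.mono ftc), integral_sub i1
    (integrable_of_conc X.cptF hν hf.continuous.continuousOn)] at sw
  linarith

theorem bdd {E V : Type} [NormedAddCommGroup E] [NormedSpace ℝ E] [NormedAddCommGroup V]
    [NormedSpace ℝ V] {K : Set E} (hK : IsCompact K) {f : E → V} (hf : ContDiff ℝ ∞ f) :
    ∃ C, ∀ x ∈ K, ‖f x‖ ≤ C := hK.exists_bound_of_continuousOn hf.continuous.continuousOn

theorem kb (C : Con n) : ∃ K, C.KB K := by
  obtain ⟨K₁, h₁⟩ := bdd (E := Fr n) (V := E3 →L[ℝ] Fr n) C.cptF C.smH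
  obtain ⟨K₂, h₂⟩ := C.cptF.exists_bound_of_continuousOn
    (continuous_snd (X := Amb n) (Y := E3 →L[ℝ] Amb n)).continuousOn
  obtain ⟨K₃, h₃⟩ := bdd (E := Amb n) (V := Amb n →L[ℝ] Amb n →L[ℝ] ℝ) C.cpt C.smg
  refine ⟨max (max K₁ K₂) (max K₃ 1), fun u hu => ⟨(h₁ u hu).trans ?_, (h₂ u hu).trans ?_,
    fun x => ?_⟩⟩
  · exact (le_max_left _ _).trans (le_max_left _ _)
  · exact (le_max_right _ _).trans (le_max_left _ _)
  · set K := max (max K₁ K₂) (max K₃ 1) with hK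
    have a1 : 1 ≤ K := (le_max_right _ _).trans (le_max_right _ _)
    have a3 : ‖C.g u.1‖ ≤ K := (h₃ _ hu.1).trans ((le_max_left _ _).trans (le_max_right _ _))
    have e := hu.2.2 x x
    rw [real_inner_self_eq_norm_sq] at e
    have b := (C.g u.1).le_opNorm₂ (u.2 x) (u.2 x)
    rw [e, Real.norm_eq_abs, abs_of_nonneg (sq_nonneg _)] at b
    refine (abs_le_of_sq_le_sq' ?_ (by positivity)).2
    have c : ‖C.g u.1‖ * ‖u.2 x‖ * ‖u.2 x‖ ≤ K ^ 2 * ‖u.2 x‖ * ‖u.2 x‖ := by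
      gcongr
      nlinarith
    nlinarith

theorem bd (C : Con n) (J : ℕ) : ∃ B, C.Bd J B := by
  have h : ∀ z : List (Fin 3) × Fin 3 × Fin 3, ∃ B, ∀ u ∈ C.F, ‖C.T z.1 z.2.1 z.2.2 u‖ ≤ B :=
    fun z => C.cptF.exists_bound_of_continuousOn (C.contDiff_T _ _ _).continuous.continuousOn
  choose b hb using h
  have fin : ({l : List (Fin 3) | l.length ≤ J} ×ˢ (univ : Set (Fin 3 × Fin 3))).Finite :=
    (List.finite_length_le _ J).prod finite_univ
  obtain ⟨B, hB⟩ := (fin.image b).bddAbove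
  exact ⟨B, fun u hu I hI a c => (hb (I, a, c) u hu).trans (hB ⟨(I, a, c), ⟨hI, trivial⟩, rfl⟩)⟩

theorem frame_move (X : Flo n) {K : ℝ} (hK : X.KB K) {u : Fr n} (hu : u ∈ X.F) (v : E3) :
    ‖(X.Ex u v).2 - u.2‖ ≤ K * ‖v‖ := by
  have h := norm_image_sub_le_of_norm_deriv_le_segment_01'
    (f := fun s : ℝ => X.Ex u (s • v)) (f' := fun s : ℝ => X.H (X.Ex u (s • v)) v) (C := K * ‖v‖)
    (fun s _ => (X.Ex_ode u hu v s).hasDerivWithinAt)
    (fun s _ => ((X.H _).le_opNorm v).trans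
      (mul_le_mul_of_nonneg_right (hK _ (X.Ex_mem u hu _)).1 (norm_nonneg _)))
  simp only [one_smul, zero_smul, X.Ex_zero] at h
  exact (norm_snd_le (X.Ex u v - u)).trans h

theorem inj (hR : RadStmt) (K : ℝ) :
    ∃ ρ, 0 < ρ ∧ ρ ≤ 1 / 4 ∧ ∀ (n : ℕ) (X : Flo n), X.Bd 0 1 → X.KB K → X.Inj ρ := by
  have hp : 0 < 4 * (K ^ 2 + 1) := by positivity
  refine ⟨1 / (4 * (K ^ 2 + 1)), by positivity, ?_, fun n X hB hK u hu v hv w hw e => ?_⟩
  · exact one_div_le_one_div_of_le (by norm_num) (by nlinarith [sq_nonneg K])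
  set ρ := 1 / (4 * (K ^ 2 + 1)) with hρ
  have ρ1 : ρ ≤ 1 / 4 := one_div_le_one_div_of_le (by norm_num) (by nlinarith [sq_nonneg K])
  have ρ2 : ρ * (4 * (K ^ 2 + 1)) = 1 := by rw [hρ]; field_simp
  have ρ0 : 0 < ρ := by positivity
  have K0 : 0 ≤ K := (norm_nonneg _).trans (hK u hu).2.1
  obtain ⟨-, -, -, -, -, r6, r7⟩ := hR n X u hu
  have bound : ∀ y ∈ ball (0 : E3) ρ, ‖fderiv ℝ (X.ex u) y - u.2‖ ≤ 2 * K * ρ := by
    intro y hy
    rw [mem_ball_zero_iff] at hy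
    have a1 := (r7 hB y (by linarith)).1
    have a2 := frame_move X hK hu y
    have a3 := (hK _ (X.Ex_mem u hu y)).2.1
    have e1 : fderiv ℝ (X.ex u) y - u.2 =
        (X.Ex u y).2 ∘L (X.th u y - ContinuousLinearMap.id ℝ E3) + ((X.Ex u y).2 - u.2) := by
      rw [(r6 y).2.2.2.1]
      ext1 x
      simp
    rw [e1]
    refine (norm_add_le _ _).trans ?_
    have a4 := ((X.Ex u y).2).opNorm_comp_le (X.th u y - ContinuousLinearMap.id ℝ E3)
    have a5 : ‖(X.Ex u y).2‖ * ‖X.th u y - ContinuousLinearMap.id ℝ E3‖ ≤ K * ρ := by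
      refine mul_le_mul a3 (a1.trans ?_) (norm_nonneg _) K0
      nlinarith [norm_nonneg y]
    have a6 : K * ‖y‖ ≤ K * ρ := mul_le_mul_of_nonneg_left hy.le K0
    linarith
  have mv := (convex_ball (0 : E3) ρ).norm_image_sub_le_of_norm_fderiv_le'
    (fun y _ => (X.contDiff_ex u).differentiable (by simp) y) bound hv hw
  rw [e, sub_self, zero_sub, norm_neg] at mv
  have b1 := (hK u hu).2.2 (w - v)
  have b2 : K * ‖u.2 (w - v)‖ ≤ K * (2 * K * ρ * ‖w - v‖) := mul_le_mul_of_nonneg_left mv K0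
  have b3 : K * (2 * K * ρ) ≤ 1 / 2 := by nlinarith
  have b4 : ‖w - v‖ ≤ 0 := by nlinarith [norm_nonneg (w - v)]
  exact (sub_eq_zero.1 (norm_le_zero_iff.1 b4)).symm

end NuC

theorem nuC_holds (hR : RadStmt) : NuCStmt := by
  intro n X ν hfin hν hd v
  have hc := (X.contDiff_Ex_left v).continuous
  refine NuC.ext_smooth fun f hf => ?_
  rw [integral_map hc.aemeasurable hf.continuous.aestronglyMeasurable]
  exact NuC.integral_flow hR X ν hν hd v hf

theorem inj_holds (hR : RadStmt) : InjStmt :=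
  ⟨fun _ C => NuC.kb C, fun _ C J => NuC.bd C J, NuC.inj hR⟩

end Pool.Agent.Lib.MP_1a4aff_gt.I3
end

-- part Pool.Agent.Lib.MP_1a4aff_gt.I3.Lift
section

/-! Change of normal coordinates without a bound on the injectivity radius. -/

set_option autoImplicit false

open MeasureTheory Set Filter Topology Metric
open scoped ContDiff RealInnerProductSpace ENNReal

namespace Pool.Agent.Lib.MP_1a4aff_gt.I3

namespace Lift

theorem det_eq (A : E3 →L[ℝ] E3) : A.det = ⟪cr (A (ee 0)) (A (ee 1)), A (ee 2)⟫ := by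
  rw [ContinuousLinearMap.det, ← LinearMap.det_toMatrix (EuclideanSpace.basisFun _ ℝ).toBasis]
  have h : LinearMap.toMatrix (EuclideanSpace.basisFun (Fin 3) ℝ).toBasis
      (EuclideanSpace.basisFun (Fin 3) ℝ).toBasis (A : E3 →ₗ[ℝ] E3) =
      Matrix.of fun a i => A (ee i) a := by
    ext a i
    simp [LinearMap.toMatrix_apply, ee]
  rw [h, Matrix.det_fin_three, inner_E3]
  simp only [Matrix.of_apply, cr0, cr1, cr2]
  ring

theorem abs_det_le (A : E3 →L[ℝ] E3) : |A.det| ≤ ‖A‖ ^ 3 := by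
  have h : ∀ i, ‖A (ee i)‖ ≤ ‖A‖ := fun i => by simpa using A.le_opNorm (ee i)
  rw [det_eq]
  refine (abs_real_inner_le_norm _ _).trans ?_
  have h1 := (norm_cr_le (A (ee 0)) (A (ee 1))).trans
    (mul_le_mul (h 0) (h 1) (norm_nonneg _) (norm_nonneg _))
  calc _ ≤ ‖A‖ * ‖A‖ * ‖A‖ := mul_le_mul h1 (h 2) (norm_nonneg _) (by positivity)
    _ = ‖A‖ ^ 3 := by ring

/-- maps whose derivative is close to a rotation -/
theorem near_rot {ψ : E3 → E3} (hψ : Differentiable ℝ ψ) {Q : E3 →L[ℝ] E3} (hQ : Orth Q)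
    (h : ∀ y ∈ ball (0 : E3) (1 / 8), ‖fderiv ℝ ψ y - Q‖ ≤ 1 / 4) :
    (∀ y ∈ ball (0 : E3) (1 / 8), ∀ y' ∈ ball (0 : E3) (1 / 8),
        3 / 4 * ‖y - y'‖ ≤ ‖ψ y - ψ y'‖ ∧ ‖ψ y - ψ y'‖ ≤ 5 / 4 * ‖y - y'‖) ∧
      (∀ r, 0 ≤ r → r < 1 / 8 → ∀ z, ‖z - ψ 0‖ ≤ 3 / 4 * r → ∃ y, ‖y‖ ≤ r ∧ ψ y = z) ∧
      ∀ Ψ : E3 → ℝ≥0∞,
        ∫⁻ z in ball (ψ 0) (1 / 16), Ψ z ≤ 2 * ∫⁻ y in ball 0 (1 / 8), Ψ (ψ y) := by
  have mv : ∀ y ∈ ball (0 : E3) (1 / 8), ∀ y' ∈ ball (0 : E3) (1 / 8),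
      ‖ψ y - ψ y' - Q (y - y')‖ ≤ 1 / 4 * ‖y - y'‖ := fun y hy y' hy' =>
    (convex_ball _ _).norm_image_sub_le_of_norm_fderiv_le' (fun x _ => hψ x) h hy' hy
  have lip : ∀ y ∈ ball (0 : E3) (1 / 8), ∀ y' ∈ ball (0 : E3) (1 / 8),
      3 / 4 * ‖y - y'‖ ≤ ‖ψ y - ψ y'‖ ∧ ‖ψ y - ψ y'‖ ≤ 5 / 4 * ‖y - y'‖ := fun y hy y' hy' => by
    have h1 := mv y hy y' hy'
    have h2 := abs_norm_sub_norm_le (ψ y - ψ y') (Q (y - y'))
    rw [hQ.norm_map] at h2
    have h3 := abs_le.1 (h2.trans h1)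
    constructor <;> linarith [h3.1, h3.2]
  have sur : ∀ r, 0 ≤ r → r < 1 / 8 → ∀ z, ‖z - ψ 0‖ ≤ 3 / 4 * r → ∃ y, ‖y‖ ≤ r ∧ ψ y = z := by
    intro r h0 hr z hz
    have ap : ApproximatesLinearOn ψ Q (ball 0 (1 / 8)) (1 / 4) := fun y hy y' hy' => by
      simpa using mv y hy y' hy'
    let g : Q.NonlinearRightInverse :=
      ⟨Q.adjoint, 1, fun y => by simp [hQ.adj.norm_map], hQ.apply_adj⟩
    obtain ⟨y, hy, e⟩ := ap.surjOn_closedBall_of_nonlinearRightInverse g h0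
      (closedBall_subset_ball hr) (a := z) (by
        rw [mem_closedBall, dist_eq_norm]
        refine hz.trans (le_of_eq ?_)
        simp [g]; norm_num)
    exact ⟨y, by simpa using hy, e⟩
  refine ⟨lip, sur, fun Ψ => ?_⟩
  have sub : ball (ψ 0) (1 / 16) ⊆ ψ '' ball 0 (1 / 8) := fun z hz => by
    obtain ⟨y, hy, e⟩ := sur (1 / 12) (by norm_num) (by norm_num) z (by
      rw [mem_ball, dist_eq_norm] at hz; linarith)
    exact ⟨y, by rw [mem_ball_zero_iff]; linarith, e⟩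
  have inj : InjOn ψ (ball 0 (1 / 8)) := fun y hy y' hy' e => by
    have := (lip y hy y' hy').1
    rw [e, sub_self, norm_zero] at this
    exact sub_eq_zero.1 (norm_le_zero_iff.1 (by linarith))
  refine (lintegral_mono_set sub).trans ?_
  rw [lintegral_image_eq_lintegral_abs_det_fderiv_mul volume measurableSet_ball
    (fun x _ => (hψ x).hasFDerivAt.hasFDerivWithinAt) inj,
    ← lintegral_const_mul' _ _ (by simp)]
  refine setLIntegral_mono' measurableSet_ball fun y hy => mul_le_mul_left ?_ _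
  have h1 : ‖fderiv ℝ ψ y‖ ≤ 5 / 4 := by
    have := norm_sub_norm_le (fderiv ℝ ψ y) Q
    linarith [h y hy, hQ.opNorm_le]
  have h2 : |(fderiv ℝ ψ y).det| ≤ 2 :=
    (abs_det_le _).trans ((pow_le_pow_left₀ (norm_nonneg _) h1 3).trans (by norm_num))
  simpa using ENNReal.ofReal_le_ofReal h2

/-- a smooth cut-off inverse -/
theorem exists_inv {th : E3 → E3 →L[ℝ] E3} (hth : ContDiff ℝ ∞ th)
    (h : ∀ v : E3, ‖v‖ ≤ 1 / 4 → ‖th v - ContinuousLinearMap.id ℝ E3‖ ≤ ‖v‖ ^ 2) :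
    ∃ B : E3 → E3 →L[ℝ] E3, ContDiff ℝ ∞ B ∧ (∀ z, 1 / 4 ≤ ‖z‖ → B z = 0) ∧
      (∀ z w, ‖B z w‖ ≤ 16 / 15 * ‖w‖) ∧ ∀ z, ‖z‖ ≤ 1 / 5 → ∀ w, th z (B z w) = w := by
  let χ : ContDiffBump (0 : E3) := ⟨1 / 5, 9 / 40, by norm_num, by norm_num⟩
  have un : ∀ z : E3, ‖z‖ ≤ 1 / 4 → IsUnit (th z) := fun z hz => by
    have h1 : ‖1 - th z‖ < 1 := by
      rw [norm_sub_rev]
      exact (h z hz).trans_lt (by nlinarith [norm_nonneg z])
    have := (Units.oneSub _ h1).isUnit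
    simpa using this
  have inv : ∀ z : E3, ‖z‖ ≤ 1 / 4 → ∀ w, th z (Ring.inverse (th z) w) = w := fun z hz w => by
    have := congrArg (fun A : E3 →L[ℝ] E3 => A w) (Ring.mul_inverse_cancel _ (un z hz))
    simpa using this
  have z0 : ∀ z : E3, 9 / 40 ≤ ‖z‖ → χ z = 0 := fun z hz =>
    χ.zero_of_le_dist (by simpa using hz)
  refine ⟨fun z => χ z • Ring.inverse (th z), contDiff_iff_contDiffAt.2 fun z => ?_,
    fun z hz => by ext1 w; simp [z0 z (by linarith)], fun z w => ?_, fun z hz w => ?_⟩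
  · by_cases hz : ‖z‖ ≤ 1 / 4
    · obtain ⟨a, ha⟩ := un z hz
      refine χ.contDiff.contDiffAt.smul ?_
      exact ContDiffAt.comp z (g := Ring.inverse) (ha ▸ contDiffAt_ringInverse ℝ a) hth.contDiffAt
    · refine (contDiffAt_const (c := 0)).congr_of_eventuallyEq ?_
      have : ∀ᶠ y in 𝓝 z, 9 / 40 < ‖y‖ :=
        continuous_norm.continuousAt.eventually (lt_mem_nhds (by linarith))
      exact this.mono fun y hy => by ext1 w; simp [z0 y hy.le]
  · by_cases hz : ‖z‖ ≤ 1 / 4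
    · set a := Ring.inverse (th z) w with ha
      have h1 : ‖th z a - a‖ ≤ 1 / 16 * ‖a‖ := by
        have := (th z - ContinuousLinearMap.id ℝ E3).le_of_opNorm_le
          ((h z hz).trans (show ‖z‖ ^ 2 ≤ 1 / 16 by nlinarith [norm_nonneg z])) a
        simpa using this
      rw [ha, inv z hz, ← ha] at h1
      have h2 := norm_sub_norm_le a w
      rw [norm_sub_rev] at h2
      have h3 : ‖a‖ ≤ 16 / 15 * ‖w‖ := by linarith
      rw [smul_apply, norm_smul, Real.norm_of_nonneg χ.nonneg]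
      exact (mul_le_of_le_one_left (norm_nonneg _) χ.le_one).trans h3
    · simp [z0 z (by linarith)]
  · have : χ z = 1 := χ.one_of_mem_closedBall (mem_closedBall_zero_iff.2 hz)
    simp [this, inv z (by linarith)]

/-- solutions of `Q' = -cr β ∘ Q` stay orthogonal -/
theorem orth_of_ode {Q : ℝ → E3 →L[ℝ] E3} {β : ℝ → E3}
    (h : ∀ s, HasDerivAt Q (-(cr (β s) ∘L Q s)) s) (h0 : Orth (Q 0)) (s : ℝ) : Orth (Q s) := by
  intro x y
  have d : ∀ t, HasDerivAt (fun t => ⟪Q t x, Q t y⟫) 0 t := fun t => by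
    have := ((h t).clm_apply (hasDerivAt_const t x)).inner ℝ
      ((h t).clm_apply (hasDerivAt_const t y))
    refine this.congr_deriv ?_
    simp [inner_cr_skew]
  rw [← h0 x y]
  exact is_const_of_deriv_eq_zero (fun t => (d t).differentiableAt) (fun t => (d t).deriv) s 0

/-- the lifted flow -/
theorem exists_flow (hF : FlowStmt) {th om : E3 → E3 →L[ℝ] E3} (hth : ContDiff ℝ ∞ th)
    (hom : ContDiff ℝ ∞ om)
    (h : ∀ v : E3, ‖v‖ ≤ 1 / 4 → ‖th v - ContinuousLinearMap.id ℝ E3‖ ≤ ‖v‖ ^ 2 ∧ ‖om v‖ ≤ 2 * ‖v‖)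
    {v₀ : E3} (hv : ‖v₀‖ ≤ 1 / 16) {Q₀ : E3 →L[ℝ] E3} (hQ : Orth Q₀) :
    ∃ (ψ : E3 → E3) (Q : E3 → E3 →L[ℝ] E3), ContDiff ℝ ∞ ψ ∧ ψ 0 = v₀ ∧ Q 0 = Q₀ ∧
      ∀ y ∈ ball (0 : E3) (1 / 8), Orth (Q y) ∧ ‖ψ y‖ ≤ 1 / 5 ∧ ‖Q y - Q₀‖ ≤ 1 / 15 ∧
        ∀ s ∈ Icc (0 : ℝ) 1, Orth (Q (s • y)) ∧ ∃ w, th (ψ (s • y)) w = Q (s • y) y ∧
          HasDerivAt (fun s : ℝ => ψ (s • y)) w s ∧
          HasDerivAt (fun s : ℝ => Q (s • y)) (-(cr (om (ψ (s • y)) w) ∘L Q (s • y))) s := by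
  obtain ⟨B, sB, B0, Bn, Bi⟩ := exists_inv hth fun v hv => (h v hv).1
  let χ : ContDiffBump (0 : E3 →L[ℝ] E3) := ⟨2, 3, by norm_num, by norm_num⟩
  let W : E3 × (E3 →L[ℝ] E3) → E3 →L[ℝ] E3 := fun p => χ p.2 • (B p.1 ∘L p.2)
  have sW : ContDiff ℝ ∞ W :=
    (χ.contDiff.comp contDiff_snd).smul ((sB.comp contDiff_fst).clm_comp contDiff_snd)
  let X : E3 × (E3 →L[ℝ] E3) → E3 →L[ℝ] E3 × (E3 →L[ℝ] E3) := fun p =>
    (W p).prod (-((ContinuousLinearMap.compL ℝ E3 E3 E3).flip p.2 ∘L cr ∘L om p.1 ∘L W p))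
  have Xa : ∀ p y, X p y = (W p y, -(cr (om p.1 (W p y)) ∘L p.2)) := fun p y => rfl
  have sX : ContDiff ℝ ∞ X := by
    refine contDiff_clm_apply_iff.2 fun y => ?_
    simp only [Xa]
    have h1 : ContDiff ℝ ∞ fun p => W p y := sW.clm_apply contDiff_const
    exact h1.prodMk ((cr.contDiff.comp ((hom.comp contDiff_fst).clm_apply h1)).clm_comp
      contDiff_snd).neg
  have cX : HasCompactSupport X := by
    refine HasCompactSupport.intro
      ((isCompact_closedBall (0 : E3) (1 / 4)).prod (isCompact_closedBall (0 : E3 →L[ℝ] E3) 3))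
      fun p hp => ?_
    have h0 : ∀ y, W p y = 0 := fun y => by
      rw [mem_prod, mem_closedBall_zero_iff, mem_closedBall_zero_iff, not_and_or] at hp
      rcases hp with hp | hp
      · simp [W, B0 p.1 (not_le.1 hp).le]
      · have : χ p.2 = 0 := χ.zero_of_le_dist (by rw [dist_zero_right]; exact (not_le.1 hp).le)
        simp [W, this]
    ext1 y
    rw [Xa, h0]
    refine Prod.ext rfl ?_
    ext1 x; simp
  obtain ⟨Φ, sΦ, Φ0, dΦ⟩ := hF _ _ X sX cX
  have d1 : ∀ y (s : ℝ), HasDerivAt (fun s : ℝ => (Φ (v₀, Q₀) (s • y)).1)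
      (W (Φ (v₀, Q₀) (s • y)) y) s := fun y s =>
    (ContinuousLinearMap.fst ℝ E3 (E3 →L[ℝ] E3)).hasFDerivAt.comp_hasDerivAt s (dΦ _ y s)
  have d2 : ∀ y (s : ℝ), HasDerivAt (fun s : ℝ => (Φ (v₀, Q₀) (s • y)).2)
      (-(cr (om (Φ (v₀, Q₀) (s • y)).1 (W (Φ (v₀, Q₀) (s • y)) y)) ∘L (Φ (v₀, Q₀) (s • y)).2)) s :=
    fun y s =>
    (ContinuousLinearMap.snd ℝ E3 (E3 →L[ℝ] E3)).hasFDerivAt.comp_hasDerivAt s (dΦ _ y s)
  have oQ : ∀ y (s : ℝ), Orth (Φ (v₀, Q₀) (s • y)).2 := fun y s =>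
    orth_of_ode (d2 y) (by rw [zero_smul, Φ0]; exact hQ) s
  have eW : ∀ y (s : ℝ), W (Φ (v₀, Q₀) (s • y)) y =
      B (Φ (v₀, Q₀) (s • y)).1 ((Φ (v₀, Q₀) (s • y)).2 y) := fun y s => by
    have : χ (Φ (v₀, Q₀) (s • y)).2 = 1 := χ.one_of_mem_closedBall
      (mem_closedBall_zero_iff.2 ((oQ y s).opNorm_le.trans (show (1 : ℝ) ≤ 2 by norm_num)))
    simp [W, this]
  refine ⟨fun y => (Φ (v₀, Q₀) y).1, fun y => (Φ (v₀, Q₀) y).2,
    contDiff_fst.comp (sΦ.comp (contDiff_const.prodMk contDiff_id)), by simp only [Φ0],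
    by simp only [Φ0],
    fun y hy => ?_⟩
  rw [mem_ball_zero_iff] at hy
  have nW : ∀ s : ℝ, ‖W (Φ (v₀, Q₀) (s • y)) y‖ ≤ 2 / 15 := fun s => by
    rw [eW]
    refine (Bn _ _).trans ?_
    rw [(oQ y s).norm_map]; linarith
  have n1 : ∀ s ∈ Icc (0 : ℝ) 1, ‖(Φ (v₀, Q₀) (s • y)).1‖ ≤ 1 / 5 := fun s hs => by
    have h1 := norm_image_sub_le_of_norm_deriv_le_segment' (a := 0) (b := 1)
      (fun x _ => (d1 y x).hasDerivWithinAt) (fun x _ => nW x) s hs
    simp only [zero_smul, Φ0] at h1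
    have h2 := norm_sub_norm_le (Φ (v₀, Q₀) (s • y)).1 v₀
    linarith [hs.2]
  have n2 : ‖(Φ (v₀, Q₀) y).2 - Q₀‖ ≤ 1 / 15 := by
    have h1 := norm_image_sub_le_of_norm_deriv_le_segment_01' (C := 1 / 15)
      (fun x _ => (d2 y x).hasDerivWithinAt) (fun x hx => by
        have hx' := n1 x (Ico_subset_Icc_self hx)
        rw [norm_neg]
        refine (ContinuousLinearMap.opNorm_comp_le _ _).trans
          ((mul_le_of_le_one_right (norm_nonneg _) (oQ y x).opNorm_le).trans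
            ((opNorm_cr_le _).trans ?_))
        refine ((om _).le_of_opNorm_le_of_le
          ((h _ (by linarith)).2.trans (show _ ≤ (2 / 5 : ℝ) by linarith)) (nW x)).trans ?_
        norm_num)
    simpa only [zero_smul, one_smul, Φ0] using h1
  refine ⟨by simpa only [one_smul] using oQ y 1,
    by simpa only [one_smul] using n1 1 (right_mem_Icc.2 zero_le_one), n2,
    fun s hs => ⟨oQ y s, _, ?_, d1 y s, d2 y s⟩⟩
  rw [eW]
  exact Bi _ (n1 s hs) _

end Lift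

open Lift in
theorem lift_holds (hF : FlowStmt) (hS : StrStmt) (hR : RadStmt) : LiftStmt := by
  intro n X hB u hu u' hu' v₀ hv e
  obtain ⟨Q₀, hQ, eQ⟩ := X.fiber _ (X.Ex_mem u hu v₀) u' hu' e.symm
  obtain ⟨-, -, -, -, -, hD, hb⟩ := hR n X u hu
  obtain ⟨hU', -, -, -, -, hD', hb'⟩ := hR n X u' hu'
  obtain ⟨ψ, Q, sψ, ψ0, Q0, hψ⟩ := exists_flow hF (X.contDiff_th u) (X.contDiff_om u)
    (fun v hv => ⟨(hb hB v hv).1, (hb hB v hv).2.1⟩) hv hQ
  have dE : Differentiable ℝ (X.Ex u) := (X.contDiff_Ex u).differentiable (by simp)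
  have dψ : Differentiable ℝ ψ := sψ.differentiable (by simp)
  have key : ∀ y ∈ ball (0 : E3) (1 / 8), rot (Q y) (X.Ex u (ψ y)) = X.Ex u' y := by
    intro y hy
    have := hU' y (fun s => rot (Q (s • y)) (X.Ex u (ψ (s • y)))) (fun s hs => ?_)
      (by simp only [zero_smul, ψ0, Q0]; exact eQ.symm) 1 (right_mem_Icc.2 zero_le_one)
    · simpa only [one_smul] using this
    obtain ⟨hO, w, ew, d1, d2⟩ := (hψ y hy).2.2.2 s hs
    have d3 : HasDerivAt (fun s : ℝ => X.Ex u (ψ (s • y))) (fderiv ℝ (X.Ex u) (ψ (s • y)) w) s :=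
      (dE _).hasFDerivAt.comp_hasDerivAt s d1
    rw [(hS n X.toCon E3 (X.Ex u) univ isOpen_univ (X.contDiff_Ex u).contDiffOn
      (fun v _ => X.Ex_mem u hu v) _ (mem_univ _)).1 w] at d3
    change HasDerivAt _ (X.H _ (X.th u _ w) + vert (X.om u _ w) _) s at d3
    rw [ew] at d3
    rw [X.H_rot _ hO]
    refine HasDerivAt.prodMk ?_ ?_
    · exact ((ContinuousLinearMap.fst ℝ (Amb n) (E3 →L[ℝ] Amb n)).hasFDerivAt.comp_hasDerivAt s
        d3).congr_deriv (add_zero _)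
    · have d4 : HasDerivAt (fun s : ℝ => (X.Ex u (ψ (s • y))).2) _ s :=
        (ContinuousLinearMap.snd ℝ (Amb n) (E3 →L[ℝ] Amb n)).hasFDerivAt.comp_hasDerivAt s d3
      refine (d4.clm_comp d2).congr_deriv ?_
      ext1 x; simp
  have kx : ∀ y ∈ ball (0 : E3) (1 / 8), X.ex u (ψ y) = X.ex u' y := fun y hy =>
    (congrArg Prod.fst (key y hy) :)
  have hd : ∀ y ∈ ball (0 : E3) (1 / 8), ‖fderiv ℝ ψ y - Q₀‖ ≤ 1 / 4 := by
    intro y hy
    obtain ⟨hO, n1, n2, -⟩ := hψ y hy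
    have e1 : fderiv ℝ (X.ex u ∘ ψ) y = fderiv ℝ (X.ex u') y :=
      Filter.EventuallyEq.fderiv_eq ((isOpen_ball.eventually_mem hy).mono kx)
    rw [fderiv_comp y ((X.contDiff_ex u).differentiable (by simp) _) (dψ y), (hD _).2.2.2.1,
      (hD' _).2.2.2.1, ← key y hy] at e1
    rw [mem_ball_zero_iff] at hy
    refine ContinuousLinearMap.opNorm_le_bound _ (by norm_num) fun w => ?_
    have e2 : X.th u (ψ y) (fderiv ℝ ψ y w) = Q y (X.th u' y w) :=
      X.frame_inj (X.Ex_mem u hu (ψ y)) (congrArg (fun A : E3 →L[ℝ] Amb n => A w) e1)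
    set a := fderiv ℝ ψ y w
    have b1 : ‖X.th u (ψ y) a - a‖ ≤ 1 / 25 * ‖a‖ := by
      have := (X.th u (ψ y) - ContinuousLinearMap.id ℝ E3).le_of_opNorm_le
        ((hb hB _ (by linarith)).1.trans
          (show ‖ψ y‖ ^ 2 ≤ 1 / 25 by nlinarith [norm_nonneg (ψ y)])) a
      simpa using this
    have b2 : ‖X.th u' y w - w‖ ≤ 1 / 64 * ‖w‖ := by
      have := (X.th u' y - ContinuousLinearMap.id ℝ E3).le_of_opNorm_le
        ((hb' hB _ (by linarith)).1.trans
          (show ‖y‖ ^ 2 ≤ 1 / 64 by nlinarith [norm_nonneg y])) w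
      simpa using this
    have b3 : ‖Q y w - Q₀ w‖ ≤ 1 / 15 * ‖w‖ := (Q y - Q₀).le_of_opNorm_le n2 w
    have b4 : ‖a‖ ≤ ‖a - Q₀ w‖ + ‖w‖ := by
      have := norm_sub_norm_le a (Q₀ w)
      rw [hQ.norm_map] at this; linarith
    have e3 : a - Q₀ w = -(X.th u (ψ y) a - a) + Q y (X.th u' y w - w) + (Q y w - Q₀ w) := by
      rw [e2, map_sub]; abel
    have b5 : ‖a - Q₀ w‖ ≤ ‖X.th u (ψ y) a - a‖ + ‖X.th u' y w - w‖ + ‖Q y w - Q₀ w‖ := by
      rw [e3]
      refine norm_add₃_le.trans (le_of_eq ?_)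
      rw [norm_neg, hO.norm_map]
    change ‖a - Q₀ w‖ ≤ _
    linarith [norm_nonneg w]
  obtain ⟨r1, r2, r3⟩ := near_rot dψ hQ hd
  rw [ψ0] at r2 r3
  exact ⟨ψ, ψ0, sψ.continuous.continuousOn,
    fun y hy => ⟨(hψ y hy).2.1.trans_lt (by norm_num), kx y hy⟩, r1, r2, fun Ψ _ => r3 Ψ⟩

end Pool.Agent.Lib.MP_1a4aff_gt.I3
end

-- part Pool.Agent.Lib.MP_1a4aff_gt.I3.Push
section

/-! Push-forward of functions on the tangent ball by the exponential map. -/

set_option autoImplicit false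

open MeasureTheory Set Filter Topology Metric
open scoped ContDiff RealInnerProductSpace ENNReal Manifold

namespace Pool.Agent.Lib.MP_1a4aff_gt.I3

namespace Push

variable {n : ℕ}

theorem quad (M : Matrix (Fin 3) (Fin 3) ℝ) (hM : M.det ≠ 0) (x y : Fin 3 → ℝ) :
    ∑ i, ∑ j, (M.transpose * M)⁻¹ i j * (∑ b, M b j * x b) * (∑ a, M a i * y a) =
      ∑ c, x c * y c := by
  have hu : IsUnit M.det := hM.isUnit
  have e : M * (M.transpose * M)⁻¹ * M.transpose = 1 := by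
    rw [Matrix.mul_inv_rev, ← Matrix.mul_assoc, Matrix.mul_nonsing_inv _ hu, Matrix.one_mul,
      Matrix.nonsing_inv_mul _ (by rwa [Matrix.det_transpose])]
  have e2 : ∀ a b, ∑ j, (∑ i, M a i * (M.transpose * M)⁻¹ i j) * M b j =
      if a = b then 1 else 0 := fun a b => by
    have := congrFun (congrFun e a) b
    rwa [Matrix.mul_apply, Matrix.one_apply] at this
  generalize (M.transpose * M)⁻¹ = N at e2
  have h00 := e2 0 0
  have h01 := e2 0 1
  have h02 := e2 0 2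
  have h10 := e2 1 0
  have h11 := e2 1 1
  have h12 := e2 1 2
  have h20 := e2 2 0
  have h21 := e2 2 1
  have h22 := e2 2 2
  simp [Fin.sum_univ_three] at h00 h01 h02 h10 h11 h12 h20 h21 h22 ⊢
  linear_combination y 0 * x 0 * h00 + y 0 * x 1 * h01 + y 0 * x 2 * h02 + y 1 * x 0 * h10 +
    y 1 * x 1 * h11 + y 1 * x 2 * h12 + y 2 * x 0 * h20 + y 2 * x 1 * h21 + y 2 * x 2 * h22

theorem split {K U V : Set E3} (hK : IsClosed K) (hU : IsOpen U) (hV : IsOpen V)
    (h : K ⊆ U ∪ V) {w : E3 → ℝ} (hw : ContDiff ℝ ∞ w) (hs : tsupport w ⊆ K) :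
    ∃ w₁ w₂ : E3 → ℝ, ContDiff ℝ ∞ w₁ ∧ ContDiff ℝ ∞ w₂ ∧ tsupport w₁ ⊆ K ∩ U ∧
      tsupport w₂ ⊆ K ∩ V ∧ w = fun v => w₁ v + w₂ v := by
  obtain ⟨f, h0, h1, -⟩ := exists_contMDiffMap_zero_one_nhds_of_isClosed (n := ⊤) 𝓘(ℝ, E3)
    hU.isClosed_compl (hK.sdiff hV)
    (disjoint_left.2 fun x hx hx' => (h hx'.1).elim hx hx'.2)
  have hf : ContDiff ℝ ∞ f := f.contMDiff.contDiff
  refine ⟨fun v => f v * w v, fun v => (1 - f v) * w v, hf.mul hw, (contDiff_const.sub hf).mul hw,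
    fun x hx => ⟨hs (tsupport_mul_subset_right hx), by_contra fun hc => ?_⟩,
    fun x hx => ⟨hs (tsupport_mul_subset_right hx), by_contra fun hc => ?_⟩, ?_⟩
  · refine notMem_tsupport_iff_eventuallyEq.2 ?_ hx
    filter_upwards [h0.filter_mono (nhds_le_nhdsSet (s := Uᶜ) hc)] with y hy
    simp [hy]
  · refine notMem_tsupport_iff_eventuallyEq.2 ?_ hx
    filter_upwards [h1.filter_mono
      (nhds_le_nhdsSet (s := K \ V) ⟨hs (tsupport_mul_subset_right hx), hc⟩)] with y hy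
    simp [hy]
  · funext v; ring

theorem cpt {w : E3 → ℝ} (hs : tsupport w ⊆ ball 0 (1 / 4)) : IsCompact (tsupport w) :=
  (isCompact_closedBall 0 (1 / 4)).of_isClosed_subset (isClosed_tsupport w)
    (hs.trans ball_subset_closedBall)

/-- the flux of `w` in normal coordinates -/
noncomputable def fl (G : Geo n) (u : Fr n) (w : E3 → ℝ) (i j : Fin 3) (y : E3) : ℝ :=
  G.den u y * G.gi u i j y * dd j w y

theorem fl_zero (G : Geo n) (u : Fr n) {w : E3 → ℝ} (i j : Fin 3) {y : E3}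
    (hy : y ∉ tsupport w) : fl G u w i j =ᶠ[𝓝 y] 0 := by
  filter_upwards [(notMem_tsupport_iff_eventuallyEq.1 hy).fderiv (𝕜 := ℝ)] with z hz
  simp [fl, dd, hz]

theorem fl_supp (G : Geo n) (u : Fr n) (w : E3 → ℝ) (i j : Fin 3) :
    tsupport (fl G u w i j) ⊆ tsupport w := fun _ hy =>
  by_contra fun hc => notMem_tsupport_iff_eventuallyEq.2 (fl_zero G u i j hc) hy

theorem contDiff_dd (i : Fin 3) {f : E3 → ℝ} (hf : ContDiff ℝ ∞ f) : ContDiff ℝ ∞ (dd i f) :=
  (hf.fderiv_right (m := ∞) (by simp)).clm_apply contDiff_const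

theorem fl_smooth {G : Geo n} {u : Fr n}
    (hg : ∀ i j, ContDiffOn ℝ ∞ (G.gi u i j) (ball 0 (1 / 4))) {w : E3 → ℝ}
    (hw : ContDiff ℝ ∞ w) (hs : tsupport w ⊆ ball 0 (1 / 4)) (i j : Fin 3) :
    ContDiff ℝ ∞ (fl G u w i j) := by
  refine contDiff_iff_contDiffAt.2 fun y => ?_
  by_cases hy : y ∈ tsupport w
  · exact ((G.contDiff_den u).contDiffAt.mul
      ((hg i j).contDiffAt (isOpen_ball.mem_nhds (hs hy)))).mul (contDiff_dd j hw).contDiffAt
  · exact (contDiffAt_const (c := (0 : ℝ))).congr_of_eventuallyEq (fl_zero G u i j hy)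

theorem int_mul {f g : E3 → ℝ} (hf : Continuous f) (hg : Continuous g)
    (hc : HasCompactSupport f) : Integrable fun v => f v * g v :=
  (hf.mul hg).integrable_of_hasCompactSupport hc.mul_right

/-- the energy in normal coordinates -/
noncomputable def enl (G : Geo n) (u : Fr n) (w : E3 → ℝ) (h : Amb n → ℝ) (v : E3) : ℝ :=
  ∑ i, ∑ j, fl G u w i j v * dd i (fun y => h (G.ex u y)) v

theorem enl_int {G : Geo n} {u : Fr n}
    (hg : ∀ i j, ContDiffOn ℝ ∞ (G.gi u i j) (ball 0 (1 / 4))) {w : E3 → ℝ}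
    (hw : ContDiff ℝ ∞ w) (hs : tsupport w ⊆ ball 0 (1 / 4)) {h : Amb n → ℝ}
    (hh : ContDiff ℝ ∞ h) : Integrable (enl G u w h) :=
  integrable_finsetSum _ fun i _ => integrable_finsetSum _ fun j _ =>
    int_mul (fl_smooth hg hw hs i j).continuous
      (contDiff_dd i (hh.comp (G.contDiff_ex u))).continuous
      ((cpt hs).of_isClosed_subset (isClosed_tsupport _) (fl_supp G u w i j))

theorem parts {G : Geo n} {u : Fr n} (hd : ∀ v ∈ ball (0 : E3) (1 / 4), 0 < G.den u v)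
    (hg : ∀ i j, ContDiffOn ℝ ∞ (G.gi u i j) (ball 0 (1 / 4))) {w : E3 → ℝ}
    (hw : ContDiff ℝ ∞ w) (hs : tsupport w ⊆ ball 0 (1 / 4)) {h : Amb n → ℝ}
    (hh : ContDiff ℝ ∞ h) : ∫ v, enl G u w h v = -G.pr u (G.Lap u w) h := by
  have hH : ContDiff ℝ ∞ fun y => h (G.ex u y) := hh.comp (G.contDiff_ex u)
  have hF := fl_smooth hg hw hs
  have hc : ∀ i j, HasCompactSupport (fl G u w i j) := fun i j =>
    (cpt hs).of_isClosed_subset (isClosed_tsupport _) (fl_supp G u w i j)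
  have i1 : ∀ i j, Integrable fun v => dd i (fl G u w i j) v * h (G.ex u v) := fun i j =>
    int_mul (contDiff_dd i (hF i j)).continuous hH.continuous ((hc i j).fderiv_apply ℝ _)
  have i2 : ∀ i j, Integrable fun v => fl G u w i j v * dd i (fun y => h (G.ex u y)) v :=
    fun i j => int_mul (hF i j).continuous (contDiff_dd i hH).continuous (hc i j)
  have e : ∀ v, G.Lap u w v * h (G.ex u v) * G.den u v =
      ∑ i, ∑ j, dd i (fl G u w i j) v * h (G.ex u v) := fun v => by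
    have e1 : G.Lap u w v = (G.den u v)⁻¹ * ∑ i, ∑ j, dd i (fl G u w i j) v := rfl
    simp only [← Finset.sum_mul]
    rw [e1]
    by_cases hv : v ∈ tsupport w
    · have := (hd v (hs hv)).ne'
      field_simp
    · have : ∀ i j, dd i (fl G u w i j) v = 0 := fun i j => by
        simp [dd, (fl_zero G u i j hv).fderiv_eq]
      simp [this]
  simp only [Flo.pr, e, enl]
  rw [integral_finsetSum _ fun i _ => integrable_finsetSum _ fun j _ => i1 i j,
    integral_finsetSum _ fun i _ => integrable_finsetSum _ fun j _ => i2 i j,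
    ← Finset.sum_neg_distrib]
  refine Finset.sum_congr rfl fun i _ => ?_
  rw [integral_finsetSum _ fun j _ => i1 i j, integral_finsetSum _ fun j _ => i2 i j,
    ← Finset.sum_neg_distrib]
  refine Finset.sum_congr rfl fun j _ => ?_
  exact integral_mul_fderiv_eq_neg_fderiv_mul_of_integrable (i1 i j) (i2 i j)
    (int_mul (hF i j).continuous hH.continuous (hc i j))
    (fun x _ => (hF i j).differentiable (by simp) x) fun x _ => hH.differentiable (by simp) x

/-- `W` is the push-forward of `w` -/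
structure Good (G : Geo n) (u : Fr n) (w : E3 → ℝ) (W : Amb n → ℝ) : Prop where
  sm : ContDiff ℝ ∞ W
  sum : ∀ p ∈ G.S, W p = ∑ᶠ v ∈ {v | G.ex u v = p}, w v
  ms : ∀ φ : Amb n → ℝ, Integrable φ G.mu →
    Integrable (fun v => w v * φ (G.ex u v) * G.den u v) ∧ G.ms W φ = G.pr u w φ
  en : ∀ h, ContDiff ℝ ∞ h → G.en W h = ∫ v, enl G u w h v

theorem int_mu (G : Geo n) {W φ : Amb n → ℝ} (hW : Continuous W) (hφ : Integrable φ G.mu) :
    Integrable (fun p => W p * φ p) G.mu := by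
  obtain ⟨C, hC⟩ := G.cpt.exists_bound_of_continuousOn hW.continuousOn
  exact hφ.bdd_mul hW.aestronglyMeasurable (G.ae_S.mono hC)

/-- the integrand of the energy -/
noncomputable def eI (W h : Amb n → ℝ) (u : Fr n) : ℝ :=
  ∑ c, fderiv ℝ W u.1 (u.2 (ee c)) * fderiv ℝ h u.1 (u.2 (ee c))

theorem eI_cont {W h : Amb n → ℝ} (hW : ContDiff ℝ ∞ W) (hh : ContDiff ℝ ∞ h) :
    Continuous (eI W h) := by
  have k : ∀ {f : Amb n → ℝ}, ContDiff ℝ ∞ f → ∀ c,
      Continuous fun u : Fr n => fderiv ℝ f u.1 (u.2 (ee c)) := fun hf c =>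
    ((hf.continuous_fderiv (by simp)).comp continuous_fst).clm_apply
      (continuous_snd.clm_apply continuous_const)
  exact continuous_finsetSum _ fun c _ => (k hW c).mul (k hh c)

theorem Good.add {G : Geo n} {u : Fr n}
    (hg : ∀ i j, ContDiffOn ℝ ∞ (G.gi u i j) (ball 0 (1 / 4)))
    {w₁ w₂ : E3 → ℝ} {W₁ W₂ : Amb n → ℝ} (h₁ : Good G u w₁ W₁) (h₂ : Good G u w₂ W₂)
    (s₁ : ContDiff ℝ ∞ w₁) (s₂ : ContDiff ℝ ∞ w₂) (t₁ : tsupport w₁ ⊆ ball 0 (1 / 4))
    (t₂ : tsupport w₂ ⊆ ball 0 (1 / 4))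
    (f₁ : ∀ p, {v | v ∈ tsupport w₁ ∧ G.ex u v = p}.Finite)
    (f₂ : ∀ p, {v | v ∈ tsupport w₂ ∧ G.ex u v = p}.Finite) :
    Good G u (fun v => w₁ v + w₂ v) fun p => W₁ p + W₂ p := by
  refine ⟨h₁.sm.add h₂.sm, fun p hp => ?_, fun φ hφ => ?_, fun h hh => ?_⟩
  · rw [finsum_mem_add_distrib' (s := {v | G.ex u v = p})
      ((f₁ p).subset fun v hv => ⟨subset_tsupport _ hv.2, hv.1⟩)
      ((f₂ p).subset fun v hv => ⟨subset_tsupport _ hv.2, hv.1⟩), h₁.sum p hp, h₂.sum p hp]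
  · obtain ⟨a₁, b₁⟩ := h₁.ms φ hφ
    obtain ⟨a₂, b₂⟩ := h₂.ms φ hφ
    simp only [Geo.ms, Flo.pr, add_mul] at b₁ b₂ ⊢
    refine ⟨a₁.add a₂, ?_⟩
    rw [integral_add a₁ a₂, integral_add (int_mu G h₁.sm.continuous hφ)
      (int_mu G h₂.sm.continuous hφ), b₁, b₂]
  · have e₁ : ∀ u', eI (fun p => W₁ p + W₂ p) h u' = eI W₁ h u' + eI W₂ h u' := fun u' => by
      simp [eI, fderiv_fun_add (h₁.sm.differentiable (by simp) _)
        (h₂.sm.differentiable (by simp) _), add_mul, Finset.sum_add_distrib]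
    have e₂ : ∀ v, enl G u (fun v => w₁ v + w₂ v) h v = enl G u w₁ h v + enl G u w₂ h v :=
      fun v => by
        simp [enl, fl, dd, fderiv_fun_add (s₁.differentiable (by simp) _)
          (s₂.differentiable (by simp) _), add_mul, mul_add, Finset.sum_add_distrib]
    have b₁ : ∫ u', eI W₁ h u' ∂G.nu = _ := h₁.en h hh
    have b₂ : ∫ u', eI W₂ h u' ∂G.nu = _ := h₂.en h hh
    change ∫ u', eI (fun p => W₁ p + W₂ p) h u' ∂G.nu = _
    simp only [e₁, e₂]
    rw [integral_add (G.integrable_nu (eI_cont h₁.sm hh).continuousOn)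
      (G.integrable_nu (eI_cont h₂.sm hh).continuousOn),
      integral_add (enl_int hg s₁ t₁ hh) (enl_int hg s₂ t₂ hh), b₁, b₂]

/-- a local inverse of the exponential map -/
structure Inv (G : Geo n) (u : Fr n) (O : Set E3) (U : Set (Amb n)) (a : Amb n → E3) : Prop where
  oO : IsOpen O
  oU : IsOpen U
  den : ∀ v ∈ O, 0 < G.den u v
  sm : ContDiffOn ℝ ∞ a U
  l : ∀ v ∈ O, G.ex u v ∈ U ∧ a (G.ex u v) = v
  r : ∀ p ∈ G.S ∩ U, a p ∈ O ∧ G.ex u (a p) = p

variable {G : Geo n} {u : Fr n} {O : Set E3} {U : Set (Amb n)} {a : Amb n → E3}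

theorem Inv.inj (h : Inv G u O U a) : InjOn (G.ex u) O := fun x hx y hy e => by
  rw [← (h.l x hx).2, e, (h.l y hy).2]

theorem Inv.map_eq (h : Inv G u O U a) (hR : RadStmt) (hu : u ∈ G.F) :
    G.mu.restrict U = Measure.map (G.ex u)
      ((volume.restrict O).withDensity fun v => ENNReal.ofReal (G.den u v)) := by
  have me : Measurable (G.ex u) := (G.contDiff_ex u).continuous.measurable
  ext B hB
  have hA : MeasurableSet (G.ex u ⁻¹' B ∩ O) := (me hB).inter h.oO.measurableSet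
  rw [Measure.map_apply me hB, withDensity_apply _ (me hB), Measure.restrict_restrict (me hB),
    Measure.restrict_apply hB, ← measure_inter_conull (t := G.S) G.area.conc]
  have e : B ∩ U ∩ G.S = G.ex u '' (G.ex u ⁻¹' B ∩ O) := by
    ext p
    constructor
    · rintro ⟨⟨h1, h2⟩, h3⟩
      obtain ⟨k1, k2⟩ := h.r p ⟨h3, h2⟩
      exact ⟨a p, ⟨by rwa [mem_preimage, k2], k1⟩, k2⟩
    · rintro ⟨v, ⟨h1, h2⟩, rfl⟩
      exact ⟨⟨h1, (h.l v h2).1⟩, G.ex_mem hu v⟩
  rw [e, G.area.area (G.ex u) univ isOpen_univ ((G.contDiff_ex u).of_le (by simp)).contDiffOn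
    (fun v _ => G.ex_mem hu v) _ (subset_univ _) hA (h.inj.mono inter_subset_right)]
  refine setLIntegral_congr_fun hA fun v hv => ?_
  have := ((hR n G.toFlo u hu).2.2.2.2.2.1 v).2.2.2.2.1
  simp only [this, Real.sqrt_sq (h.den v hv.2).le]

theorem Inv.integral (h : Inv G u O U a) (hR : RadStmt) (hu : u ∈ G.F) {ψ : Amb n → ℝ}
    (hm : AEStronglyMeasurable ψ (G.mu.restrict U)) :
    (∫ p in U, ψ p ∂G.mu = ∫ v in O, ψ (G.ex u v) * G.den u v) ∧
      (IntegrableOn ψ U G.mu → IntegrableOn (fun v => ψ (G.ex u v) * G.den u v) O) := by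
  have me : Measurable (G.ex u) := (G.contDiff_ex u).continuous.measurable
  have md : Measurable fun v => ENNReal.ofReal (G.den u v) :=
    (G.contDiff_den u).continuous.measurable.ennreal_ofReal
  have e : EqOn (fun v => (ENNReal.ofReal (G.den u v)).toReal • ψ (G.ex u v))
      (fun v => ψ (G.ex u v) * G.den u v) O := fun v hv => by
    simp [ENNReal.toReal_ofReal (h.den v hv).le, mul_comm]
  rw [IntegrableOn]
  rw [h.map_eq hR hu] at hm ⊢
  constructor
  · rw [integral_map me.aemeasurable hm, integral_withDensity_eq_integral_toReal_smul md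
      (ae_of_all _ fun _ => ENNReal.ofReal_lt_top)]
    exact setIntegral_congr_fun h.oO.measurableSet e
  · intro hi
    rw [integrable_map_measure hm me.aemeasurable, integrable_withDensity_iff_integrable_smul' md
      (ae_of_all _ fun _ => ENNReal.ofReal_lt_top)] at hi
    exact IntegrableOn.congr_fun hi e h.oO.measurableSet

theorem Inv.good (h : Inv G u O U a) (hR : RadStmt) (hE : ExtStmt) (hu : u ∈ G.F) {w : E3 → ℝ}
    (hw : ContDiff ℝ ∞ w) (hc : IsCompact (tsupport w)) (hs : tsupport w ⊆ O) :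
    ∃ W, Good G u w W := by
  have ce := G.contDiff_ex u
  have cK : IsClosed (G.ex u '' tsupport w) := (hc.image ce.continuous).isClosed
  have hKU : G.ex u '' tsupport w ⊆ U := by
    rintro _ ⟨v, hv, rfl⟩
    exact (h.l v (hs hv)).1
  have z0 : ∀ p ∈ G.S, p ∉ G.ex u '' tsupport w → U.indicator (fun p => w (a p)) p = 0 :=
    fun p hp hK => indicator_apply_eq_zero.2 fun hU =>
      image_eq_zero_of_notMem_tsupport fun ha => hK ⟨a p, ha, (h.r p ⟨hp, hU⟩).2⟩
  obtain ⟨W, sW, eW⟩ := hE n ℝ G.S G.cpt.isClosed (U.indicator fun p => w (a p)) fun p hp => by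
    by_cases hU : p ∈ U
    · exact ⟨U, h.oU, hU, fun p => w (a p), hw.comp_contDiffOn h.sm,
        fun q hq => (indicator_of_mem hq.2 fun p => w (a p)).symm⟩
    · exact ⟨_, cK.isOpen_compl, fun hK => hU (hKU hK), fun _ => 0, contDiffOn_const,
        fun q hq => (z0 q hq.1 hq.2).symm⟩
  have w0 : ∀ v, v ∉ O → w v = 0 := fun v hv =>
    image_eq_zero_of_notMem_tsupport fun ht => hv (hs ht)
  have eO : ∀ v ∈ O, W (G.ex u v) = w v := fun v hv => by
    rw [eW (G.ex_mem hu v), indicator_of_mem (h.l v hv).1, (h.l v hv).2]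
  have eU : ∀ p ∈ G.S, p ∉ U → W p = 0 := fun p hp hU => by
    rw [eW hp, indicator_of_notMem hU]
  refine ⟨W, sW, fun p hp => ?_, fun φ hφ => ?_, fun k hk => ?_⟩
  · by_cases hU : p ∈ U
    · obtain ⟨k1, k2⟩ := h.r p ⟨hp, hU⟩
      rw [finsum_mem_def, finsum_eq_single _ (a p), indicator_of_mem (s := {v | G.ex u v = p}) k2,
        ← eO _ k1, k2]
      intro v hv
      refine indicator_apply_eq_zero.2 fun e => w0 v fun hO => hv ?_
      exact h.inj hO k1 (e.trans k2.symm)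
    · rw [eU p hp hU, finsum_mem_of_eqOn_zero]
      intro v hv
      exact w0 v fun hO => hU (hv ▸ (h.l v hO).1)
  · have hi := int_mu G sW.continuous hφ
    obtain ⟨k1, k2⟩ := h.integral hR hu hi.aestronglyMeasurable.restrict
    have e : EqOn (fun v => W (G.ex u v) * φ (G.ex u v) * G.den u v)
        (fun v => w v * φ (G.ex u v) * G.den u v) O := fun v hv => by simp only [eO v hv]
    have z : ∀ v, v ∉ O → w v * φ (G.ex u v) * G.den u v = 0 := fun v hv => by simp [w0 v hv]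
    refine ⟨((k2 hi.integrableOn).congr_fun e
      h.oO.measurableSet).integrable_of_forall_notMem_eq_zero z, ?_⟩
    rw [Geo.ms, Flo.pr, ← setIntegral_eq_integral_of_forall_compl_eq_zero z,
      ← setIntegral_congr_fun h.oO.measurableSet e, ← k1,
      setIntegral_eq_integral_of_ae_compl_eq_zero]
    filter_upwards [G.ae_S] with p hp hU
    simp [eU p hp hU]
  · have cI : ContinuousOn (fun p => eI W k (G.Ex u (a p))) U :=
      ((eI_cont sW hk).comp (G.contDiff_Ex u).continuous).comp_continuousOn h.sm.continuousOn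
    have mI := cI.aestronglyMeasurable (μ := G.mu) h.oU.measurableSet
    have e1 : EqOn (eI W k) (fun u' => U.indicator (fun p => eI W k (G.Ex u (a p))) u'.1) G.F := by
      intro u' hu'
      by_cases hU : u'.1 ∈ U
      · obtain ⟨Q, hQ, e⟩ := G.fiber _ (G.Ex_mem u hu (a u'.1)) u' hu' (h.r _ ⟨hu'.1, hU⟩).2
        simp only [indicator_of_mem hU]
        generalize G.Ex u (a u'.1) = u₀ at e
        subst e
        exact hQ.sum_mul (f := fun x => fderiv ℝ W u₀.1 (u₀.2 x))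
          (h := fun x => fderiv ℝ k u₀.1 (u₀.2 x))
          (fderiv ℝ W u₀.1 ∘L u₀.2).toLinearMap.isLinear
          (fderiv ℝ k u₀.1 ∘L u₀.2).toLinearMap.isLinear
      · simp only [indicator_of_notMem hU]
        refine Finset.sum_eq_zero fun c _ => mul_eq_zero_of_left ?_ _
        rw [fderiv_eq_of_eventuallyEq (g := fun _ => (0 : ℝ)) hu'.1 (hu'.2.1 _)
          (sW.differentiable (by simp) _) (differentiableAt_const _)]
        · simp
        · filter_upwards [self_mem_nhdsWithin, mem_nhdsWithin_of_mem_nhds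
            (cK.isOpen_compl.mem_nhds fun hK => hU (hKU hK))] with q hq hK
          rw [eW hq, z0 q hq hK]
    have z : ∀ v, v ∉ O → enl G u w k v = 0 := fun v hv => by
      have : ∀ i j, fl G u w i j v = 0 := fun i j =>
        (fl_zero G u i j fun ht => hv (hs ht)).eq_of_nhds
      simp [enl, this]
    change ∫ u', eI W k u' ∂G.nu = _
    rw [G.integral_congr_F e1, G.integral_fst
      ((aestronglyMeasurable_indicator_iff h.oU.measurableSet).2 mI),
      integral_indicator h.oU.measurableSet, (h.integral hR hu mI).1,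
      ← setIntegral_eq_integral_of_forall_compl_eq_zero z]
    refine setIntegral_congr_fun h.oO.measurableSet fun v hv => ?_
    have hD := ((hR n G.toFlo u hu).2.2.2.2.2.1 v).2.2.2.1
    have ch : ∀ {f : Amb n → ℝ}, ContDiff ℝ ∞ f → ∀ i, dd i (fun y => f (G.ex u y)) v =
        ∑ b, G.thM u v b i * fderiv ℝ f (G.Ex u v).1 ((G.Ex u v).2 (ee b)) := fun {f} hf i => by
      rw [dd, fderiv_fun_comp v (hf.differentiable (by simp) _) (ce.differentiable (by simp) _),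
        hD]
      exact clm_sum_ee (fderiv ℝ f (G.ex u v) ∘L (G.Ex u v).2) _
    have e2 : ∀ j, dd j w v = dd j (fun y => W (G.ex u y)) v := fun j => by
      have : (fun y => W (G.ex u y)) =ᶠ[𝓝 v] w :=
        eventually_of_mem (h.oO.mem_nhds hv) eO
      rw [dd, dd, this.fderiv_eq]
    simp only [(h.l v hv).2, enl, fl, e2, ch sW, ch hk, eI]
    rw [← quad (G.thM u v) (h.den v hv).ne', Finset.sum_mul]
    refine Finset.sum_congr rfl fun i _ => ?_
    rw [Finset.sum_mul]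
    refine Finset.sum_congr rfl fun j _ => ?_
    rw [Flo.gi]
    ring

theorem exists_inv (hR : RadStmt) (hL : LocStmt) (hu : u ∈ G.F)
    (hd : ∀ v ∈ ball (0 : E3) (1 / 4), 0 < G.den u v) {v : E3} (hv : v ∈ ball (0 : E3) (1 / 4)) :
    ∃ O U a, v ∈ O ∧ Inv G u O U a := by
  have hi : Function.Injective (fderiv ℝ (G.ex u) v) := by
    rw [((hR n G.toFlo u hu).2.2.2.2.2.1 v).2.2.2.1]
    refine (G.frame_inj (G.Ex_mem u hu v)).comp ?_
    have := (hd v hv).ne'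
    rw [Flo.den_eq_det] at this
    exact (LinearMap.equivOfDetNeZero (G.th u v : E3 →ₗ[ℝ] E3) this).injective
  obtain ⟨O, U, a, h1, h2, h3, h4, h5, h6, h7⟩ := hL n G.toData (G.ex u) _ isOpen_ball
    (G.contDiff_ex u).contDiffOn (fun v _ => G.ex_mem hu v) v hv hi
  exact ⟨O, U, a, h2, h1, h4, fun y hy => hd y (h3 hy), h5, h6, h7⟩

end Push

open Push in
theorem push_holds (hR : RadStmt) (hL : LocStmt) (hE : ExtStmt) (hM : MPStmt) : PushStmt := by
  intro n G hB u hu w hw hs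
  have hd : ∀ v ∈ ball (0 : E3) (1 / 4), 0 < G.den u v := fun v hv =>
    lt_of_lt_of_le (by norm_num)
      ((hR n G.toFlo u hu).2.2.2.2.2.2 hB v (mem_ball_zero_iff.1 hv).le).2.2.1
  have hg := (hM n G.toFlo u hu _ hd).1
  have fin : ∀ {f : E3 → ℝ}, tsupport f ⊆ ball 0 (1 / 4) →
      ∀ p, {v | v ∈ tsupport f ∧ G.ex u v = p}.Finite := fun {f} hf p => by
    refine (cpt hf).induction_on (p := fun s => {v | v ∈ s ∧ G.ex u v = p}.Finite) (by simp)
      (fun s t hst ht => ht.subset fun v hv => ⟨hst hv.1, hv.2⟩)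
      (fun s t h1 h2 => (h1.union h2).subset fun v hv =>
        hv.1.imp (fun k => ⟨k, hv.2⟩) fun k => ⟨k, hv.2⟩) fun v hv => ?_
    obtain ⟨O, U, a, h1, h2⟩ := exists_inv hR hL hu hd (hf hv)
    exact ⟨O, mem_nhdsWithin_of_mem_nhds (h2.oO.mem_nhds h1), Set.Subsingleton.finite
      fun x hx y hy => h2.inj hx.1 hy.1 (hx.2.trans hy.2.symm)⟩
  have main : ∃ V, IsOpen V ∧ tsupport w ⊆ V ∧ ∀ f : E3 → ℝ, ContDiff ℝ ∞ f →
      tsupport f ⊆ ball 0 (1 / 4) → tsupport f ⊆ V → ∃ W, Good G u f W := by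
    refine (cpt hs).induction_on (p := fun s => ∃ V, IsOpen V ∧ s ⊆ V ∧ ∀ f : E3 → ℝ,
      ContDiff ℝ ∞ f → tsupport f ⊆ ball 0 (1 / 4) → tsupport f ⊆ V → ∃ W, Good G u f W)
      ?_ ?_ ?_ fun v hv => ?_
    · obtain ⟨O, U, a, -, h2⟩ := exists_inv hR hL hu hd (mem_ball_self (by norm_num))
      exact ⟨O, h2.oO, empty_subset _, fun f hf t1 t2 => h2.good hR hE hu hf (cpt t1) t2⟩
    · rintro s t hst ⟨V, h1, h2, h3⟩
      exact ⟨V, h1, hst.trans h2, h3⟩
    · rintro s t ⟨V, h1, h2, h3⟩ ⟨V', k1, k2, k3⟩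
      refine ⟨V ∪ V', h1.union k1, union_subset_union h2 k2, fun f hf t1 t2 => ?_⟩
      obtain ⟨f₁, f₂, s₁, s₂, a₁, a₂, e⟩ := split (isClosed_tsupport f) h1 k1 t2 hf Subset.rfl
      have b₁ := (a₁.trans inter_subset_left).trans t1
      have b₂ := (a₂.trans inter_subset_left).trans t1
      obtain ⟨W₁, g₁⟩ := h3 f₁ s₁ b₁ (a₁.trans inter_subset_right)
      obtain ⟨W₂, g₂⟩ := k3 f₂ s₂ b₂ (a₂.trans inter_subset_right)
      exact ⟨_, e ▸ g₁.add hg g₂ s₁ s₂ b₁ b₂ (fin b₁) (fin b₂)⟩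
    · obtain ⟨O, U, a, h1, h2⟩ := exists_inv hR hL hu hd (hs hv)
      exact ⟨O, mem_nhdsWithin_of_mem_nhds (h2.oO.mem_nhds h1), O, h2.oO, Subset.rfl,
        fun f hf t1 t2 => h2.good hR hE hu hf (cpt t1) t2⟩
  obtain ⟨V, -, h2, h3⟩ := main
  obtain ⟨W, g⟩ := h3 w hw hs h2
  exact ⟨W, g.sm, fun p hp => ⟨fin hs p, g.sum p hp⟩, g.ms,
    fun h hh => (g.en h hh).trans (parts hd hg hw hs hh)⟩

end Pool.Agent.Lib.MP_1a4aff_gt.I3
end
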