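import Pool.Agent.Lib.MP_1a4aff_gt.I3.UBc

/-! Gluing of charts by a composition of retractions. -/

set_option autoImplicit false

open Set Filter Topology Metric
open scoped ContDiff

namespace Pool.Agent.Lib.MP_1a4aff_gt.I3

namespace Retr

section General

variable {ι E V : Type} [NormedAddCommGroup E] [NormedSpace ℝ E] [NormedAddCommGroup V]
  [NormedSpace ℝ V] {k : ℕ}

theorem ub_cases {f : ι → E → V} {y : ι → E} (p : ι → Prop)
    (h1 : UBk k (fun i : {i // p i} => f i) fun i => y i)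
    (h2 : UBk k (fun i : {i // ¬ p i} => f i) fun i => y i) : UBk k f y := by
  obtain ⟨a1, C1, b1⟩ := h1
  obtain ⟨a2, C2, b2⟩ := h2
  refine ⟨fun i => ?_, max C1 C2, fun i j hj => ?_⟩ <;> by_cases h : p i
  exacts [a1 ⟨i, h⟩, a2 ⟨i, h⟩, (b1 ⟨i, h⟩ j hj).trans (le_max_left _ _),
    (b2 ⟨i, h⟩ j hj).trans (le_max_right _ _)]

theorem lip (f : ι → E → V) {S : Set E} (hS : Convex ℝ S)
    (h : UBk 1 (fun i : ι × S => f i.1) fun i => i.2) :
    ∃ L, 0 ≤ L ∧ ∀ d, ∀ x ∈ S, ‖fderiv ℝ (f d) x‖ ≤ L ∧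
      ∀ y ∈ S, ‖f d y - f d x‖ ≤ L * ‖y - x‖ := by
  obtain ⟨a, C, b⟩ := h
  have key : ∀ d, ∀ x ∈ S, ‖fderiv ℝ (f d) x‖ ≤ max C 0 := fun d x hx => by
    have := b (d, ⟨x, hx⟩) 1 le_rfl
    rw [norm_iteratedFDeriv_one] at this
    exact this.trans (le_max_left _ _)
  exact ⟨max C 0, le_max_right _ _, fun d x hx => ⟨key d x hx, fun y hy =>
    hS.norm_image_sub_le_of_norm_fderiv_le
      (fun z hz => (a (d, ⟨z, hz⟩)).differentiableAt (by simp)) (key d) hx hy⟩⟩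

end General

abbrev X (m : ℕ) := Fin m → E3 × ℝ

variable {m : ℕ} {ρ : ℝ} {C : ℕ → ℝ}

/-- charts with bounded derivatives -/
def Adm (ρ : ℝ) (C : ℕ → ℝ) (Ψ : Fin m → E3 → X m) : Prop :=
  ∀ β, ContDiffOn ℝ ∞ (Ψ β) (ball 0 ρ) ∧
    ∀ k, ∀ y ∈ ball (0 : E3) ρ, ‖iteratedFDeriv ℝ k (Ψ β) y‖ ≤ C k

abbrev A (m : ℕ) (ρ : ℝ) (C : ℕ → ℝ) := {Ψ : Fin m → E3 → X m // Adm ρ C Ψ}

abbrev I (m : ℕ) (ρ : ℝ) (C : ℕ → ℝ) := A m ρ C × closedBall (0 : X m) (C 0)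

theorem Adm.bd {Ψ : Fin m → E3 → X m} (h : Adm ρ C Ψ) (β : Fin m) {y : E3} (hy : y ∈ ball 0 ρ) :
    Ψ β y ∈ closedBall (0 : X m) (C 0) := by
  simpa using (h β).2 0 y hy

theorem ub_adm {ι : Type} (k : ℕ) {Ψ : ι → Fin m → E3 → X m} (h : ∀ i, Adm ρ C (Ψ i))
    (β : ι → Fin m) {y : ι → E3} (hy : ∀ i, y i ∈ ball (0 : E3) ρ) :
    UBk k (fun i => Ψ i (β i)) y :=
  ⟨fun i => (h i (β i)).1.contDiffAt (isOpen_ball.mem_nhds (hy i)),
    ∑ j ∈ Finset.range (k + 1), |C j|, fun i j hj => ((h i (β i)).2 j _ (hy i)).trans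
      ((le_abs_self _).trans (Finset.single_le_sum (f := fun j => |C j|)
        (fun _ _ => abs_nonneg _) (Finset.mem_range.2 (Nat.lt_succ_of_le hj))))⟩

/-- the first coordinate of a block -/
noncomputable def pr (β : Fin m) : X m →L[ℝ] E3 :=
  ContinuousLinearMap.fst ℝ E3 ℝ ∘L ContinuousLinearMap.proj β

theorem pr_le (β : Fin m) : ‖pr β‖ ≤ 1 :=
  ContinuousLinearMap.opNorm_le_bound _ zero_le_one fun z => by
    rw [one_mul]
    exact (norm_fst_le (z β)).trans (norm_le_pi_norm z β)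

variable (hρ : 0 < ρ)

/-- the cut-off function -/
noncomputable def bump : ContDiffBump ((0, 1) : E3 × ℝ) := ⟨ρ / 16, ρ / 8, by linarith, by linarith⟩

theorem bump_ne {p : E3 × ℝ} (h : bump hρ p ≠ 0) : ‖p.1‖ < ρ / 8 ∧ |p.2 - 1| < ρ / 8 := by
  have : p ∈ ball ((0, 1) : E3 × ℝ) (ρ / 8) := (bump hρ).support_eq ▸ h
  simpa [Prod.dist_eq, Real.dist_eq] using this

/-- one retraction -/
noncomputable def R (Ψ : Fin m → E3 → X m) (β : Fin m) (z : X m) : X m :=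
  z + bump hρ (z β) • (Ψ β (z β).1 - z)

/-- the composition of the retractions -/
noncomputable def P (Ψ : Fin m → E3 → X m) : List (Fin m) → X m → X m
  | [], z => z
  | β :: l, z => P Ψ l (R hρ Ψ β z)

theorem R_mem {Ψ : Fin m → E3 → X m} (h : Adm ρ C Ψ) (β : Fin m) {z : X m}
    (hz : z ∈ closedBall (0 : X m) (C 0)) : R hρ Ψ β z ∈ closedBall (0 : X m) (C 0) := by
  by_cases h0 : bump hρ (z β) = 0
  · simpa [R, h0] using hz
  · exact (convex_closedBall 0 _).add_smul_sub_mem hz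
      (h.bd β (mem_ball_zero_iff.2 (by linarith [(bump_ne hρ h0).1])))
      ⟨(bump hρ).nonneg, (bump hρ).le_one⟩

theorem ub_R (k : ℕ) (β : Fin m) :
    UBk k (fun i : I m ρ C => R hρ i.1 β)
      fun i => i.2 := by
  have hid : UBk k (fun (_ : I m ρ C) x => x)
      fun i => (i.2 : X m) := ub_id (C 0) fun i => mem_closedBall_zero_iff.1 i.2.2
  have hb := ub_fixed (k := k) (y := fun i : I m ρ C => (i.2 : X m)) (fun z : X m => bump hρ (z β)) univ _ isOpen_univ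
    ((bump hρ).contDiff.comp (contDiff_apply ℝ _ β)).contDiffOn (isCompact_closedBall 0 (C 0))
    (subset_univ _) fun i => i.2.2
  refine hid.add (ub_cases (fun i => ‖(i.2.1 β).1‖ < ρ) ?_ ?_)
  · exact (hb.reindex _).smul (((ub_adm k (fun i => i.1.1.2) (fun _ => β)
      fun i => mem_ball_zero_iff.2 i.2).comp ((hid.reindex _).clm (pr β))).sub (hid.reindex _))
  · refine (ub_const (fun _ => 0) 0 fun _ => norm_zero.le).congr fun i => ?_
    have : ρ / 8 < ‖pr β i.1.2.1‖ := lt_of_lt_of_le (by linarith) (not_lt.1 i.2)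
    filter_upwards [(pr β).continuous.norm.continuousAt.eventually (lt_mem_nhds this)] with z hz
    rw [show bump hρ (z β) = 0 from by_contra fun h0 => lt_asymm hz (bump_ne hρ h0).1, zero_smul]

theorem ub_P (k : ℕ) (l : List (Fin m)) :
    UBk k (fun i : I m ρ C => P hρ i.1 l)
      fun i => i.2 := by
  induction l with
  | nil => exact ub_id (C 0) fun i => mem_closedBall_zero_iff.1 i.2.2
  | cons β l ih =>
    have h := ih.reindex fun i : I m ρ C => (i.1, ⟨_, R_mem hρ i.1.2 β i.2.2⟩)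
    exact (UBk.comp (g := fun i : I m ρ C => P hρ i.1 l) (by convert h using 1)
      (ub_R hρ k β)).congr fun i => Eventually.of_forall fun z => by rw [P]

/-- the set is described by the charts -/
def Ch (ρ : ℝ) (Ψ : Fin m → E3 → X m) (Z : Set (X m)) : Prop :=
  (∀ β, MapsTo (Ψ β) (ball 0 ρ) Z) ∧
    ∀ z ∈ Z, ∀ β, 1 / 2 < (z β).2 → ‖(z β).1‖ < ρ / 8 → z = Ψ β (z β).1

variable (h1 : ρ ≤ 1)
include h1

theorem R_fix {Ψ : Fin m → E3 → X m} {Z : Set (X m)} (h : Ch ρ Ψ Z) (β : Fin m) {z : X m}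
    (hz : z ∈ Z) : R hρ Ψ β z = z := by
  by_cases h0 : bump hρ (z β) = 0
  · simp [R, h0]
  · obtain ⟨a, b⟩ := bump_ne hρ h0
    rw [R, ← h.2 z hz β (by linarith [(abs_lt.1 b).1]) a, sub_self, smul_zero, add_zero]

theorem P_fix {Ψ : Fin m → E3 → X m} {Z : Set (X m)} (h : Ch ρ Ψ Z) (l : List (Fin m)) {z : X m}
    (hz : z ∈ Z) : P hρ Ψ l z = z := by
  induction l with
  | nil => rfl
  | cons β l ih => rw [P, R_fix hρ h1 h β hz, ih]

theorem P_near (C : ℕ → ℝ) (l : List (Fin m)) {ε : ℝ} (hε : 0 < ε) : ∃ δ > 0,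
    ∀ (Ψ : Fin m → E3 → X m) (Z : Set (X m)), Adm ρ C Ψ → Ch ρ Ψ Z → ∀ z₀ ∈ Z,
      z₀ ∈ closedBall (0 : X m) (C 0) → ∀ z ∈ closedBall (0 : X m) (C 0), ‖z - z₀‖ ≤ δ →
      ‖P hρ Ψ l z - z₀‖ ≤ ε ∧ ∀ β ∈ l, ‖z₀ β - (0, 1)‖ ≤ ρ / 32 → P hρ Ψ l z ∈ Z := by
  induction l with
  | nil => exact ⟨ε, hε, fun _ _ _ _ _ _ _ _ _ h => ⟨h, by simp⟩⟩
  | cons β l ih =>
    obtain ⟨δ, hδ, ih⟩ := ih
    obtain ⟨L, hL, hl⟩ := lip (fun Ψ : A m ρ C => R hρ Ψ β) (convex_closedBall 0 (C 0))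
      (by convert ub_R (C := C) hρ 1 β using 1)
    refine ⟨min (δ / (L + 1)) (ρ / 32), by positivity, fun Ψ Z hA hZ z₀ a b z c d => ?_⟩
    have e := (hl ⟨Ψ, hA⟩ z₀ b).2 z c
    rw [R_fix hρ h1 hZ β a] at e
    have e' : ‖R hρ Ψ β z - z₀‖ ≤ δ := e.trans (by
      have := (le_div_iff₀ (by positivity)).1 (d.trans (min_le_left _ _))
      nlinarith [norm_nonneg (z - z₀)])
    obtain ⟨i1, i2⟩ := ih Ψ Z hA hZ z₀ a b _ (R_mem hρ hA β c) e'
    refine ⟨i1, fun γ hγ hd => ?_⟩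
    rcases List.mem_cons.1 hγ with rfl | hγ
    swap
    · exact i2 γ hγ hd
    have n : ‖z γ - (0, 1)‖ ≤ ρ / 16 := by
      have := norm_sub_le_norm_sub_add_norm_sub (z γ) (z₀ γ) (0, 1)
      linarith [norm_le_pi_norm (z - z₀) γ, min_le_right (δ / (L + 1)) (ρ / 32),
        show ‖(z - z₀) γ‖ = ‖z γ - z₀ γ‖ from rfl]
    have m : R hρ Ψ γ z ∈ Z := by
      rw [R, (bump hρ).one_of_mem_closedBall (mem_closedBall_iff_norm.2 n), one_smul,
        add_sub_cancel]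
      refine hZ.1 γ (mem_ball_zero_iff.2 ?_)
      have := norm_fst_le (z γ - (0, 1))
      simp only [Prod.fst_sub, sub_zero] at this
      linarith
    rwa [P, P_fix hρ h1 hZ l m]

end Retr

open Retr in
theorem retr_holds : RetrStmt := by
  intro m ρ C hρ h1
  obtain ⟨δ, hδ, hP⟩ := P_near hρ h1 C (List.finRange m) (ε := ρ / 2000) (by positivity)
  obtain ⟨L₁, p1, l1⟩ := lip (fun Ψ : A m ρ C => P hρ Ψ (List.finRange m))
    (convex_closedBall 0 (C 0)) (ub_P (C := C) hρ 1 (List.finRange m))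
  obtain ⟨L₂, p2, l2⟩ := lip (fun Ψ : A m ρ C => fderiv ℝ (P hρ Ψ (List.finRange m)))
    (convex_closedBall 0 (C 0)) (ub_succ_iff.1 (ub_P (C := C) hρ 2 (List.finRange m))).2
  have ub : ∀ k, UBk (ι := (A m ρ C × A m ρ C) × Fin m × ball (0 : E3) ρ) k (fun i y =>
      pr i.2.1 (P hρ i.1.1 (List.finRange m) (i.1.2.1 i.2.1 y))) fun i => i.2.2 := fun k => by
    refine UBk.clm_apply (ub_const _ 1 fun i => pr_le _) ?_
    refine UBk.comp (g := fun i : (A m ρ C × A m ρ C) × Fin m × ball (0 : E3) ρ =>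
      P hρ i.1.1 (List.finRange m)) ?_ (ub_adm k (fun i => i.1.2.2) _ fun i => i.2.2.2)
    exact (ub_P (C := C) hρ k _).reindex fun i : (A m ρ C × A m ρ C) × Fin m × ball (0 : E3) ρ =>
      (i.1.1, ⟨_, i.1.2.2.bd i.2.1 i.2.2.2⟩)
  choose C' hC using fun k => (ub k).2
  refine ⟨min (min δ (ρ / 2000)) (1 / (2 * (L₂ * |C 1| + L₁ + 1))), by positivity, C',
    fun Ψ Ψ' Z a1 a2 a3 a4 a5 => ⟨P hρ Ψ (List.finRange m), fun β => ?_⟩⟩
  have hA : Adm ρ C Ψ := fun β => ⟨(a1 β).1, fun k y hy => ((a1 β).2.2 k y hy).1⟩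
  have hA' : Adm ρ C Ψ' := fun β => ⟨(a1 β).2.1, fun k y hy => ((a1 β).2.2 k y hy).2⟩
  have sub : ball (0 : E3) (ρ / 32) ⊆ ball 0 ρ := ball_subset_ball (by linarith)
  refine ⟨fun y hy => ((ub 0).1 ((⟨Ψ, hA⟩, ⟨Ψ', hA'⟩), β, ⟨y, sub hy⟩)).contDiffWithinAt,
    fun y hy => ?_⟩
  have y1 := mem_ball_zero_iff.1 hy
  obtain ⟨d1, d2⟩ := a5 β y (by linarith)
  rw [norm_sub_rev] at d1 d2
  have e0 := (a4 β y (by linarith)).1
  have m0 := hA.bd β (sub hy)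
  have m1 := hA'.bd β (sub hy)
  obtain ⟨n1, n2⟩ := hP Ψ Z hA ⟨a2, a3⟩ _ (a2 β (sub hy)) m0 _ m1
    (d1.trans ((min_le_left _ _).trans (min_le_left _ _)))
  have d3 := d1.trans ((min_le_left _ _).trans (min_le_right _ _))
  set F := P hρ Ψ (List.finRange m) with hF
  have n3 : ‖F (Ψ' β y) β - (y, 1)‖ ≤ ρ / 2000 := e0 ▸ (norm_le_pi_norm (_ - _) β).trans n1
  refine ⟨a3 _ (n2 β (List.mem_finRange β) (by simpa [e0] using y1.le)) β ?_ ?_, ?_, ?_,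
    fun k => hC k ((⟨Ψ, hA⟩, ⟨Ψ', hA'⟩), β, ⟨y, sub hy⟩) k le_rfl⟩
  · have := (norm_snd_le _).trans n3
    simp only [Prod.snd_sub, Real.norm_eq_abs] at this
    linarith [(abs_le.1 this).1]
  · have := (norm_fst_le _).trans n3
    simp only [Prod.fst_sub] at this
    linarith [norm_sub_norm_le (F (Ψ' β y) β).1 y]
  · have := norm_sub_le_norm_sub_add_norm_sub (F (Ψ' β y)) (Ψ β y) (Ψ' β y)
    rw [norm_sub_rev (Ψ β y)] at this
    linarith
  have dF : ∀ z ∈ closedBall (0 : X m) (C 0), HasFDerivAt F (fderiv ℝ F z) z := fun z hz =>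
    (((ub_P hρ 0 _).1 (⟨Ψ, hA⟩, ⟨z, hz⟩)).differentiableAt (by simp)).hasFDerivAt
  have dΨ : ∀ {Φ : Fin m → E3 → X m}, Adm ρ C Φ → HasFDerivAt (Φ β) (fderiv ℝ (Φ β) y) y :=
    fun h => (((h β).1.contDiffAt (isOpen_ball.mem_nhds (sub hy))).differentiableAt
      (by simp)).hasFDerivAt
  have k1 := (pr β).hasFDerivAt.comp y ((dF _ m1).comp y (dΨ hA'))
  have k0 := ((pr β).hasFDerivAt.comp y ((dF _ m0).comp y (dΨ hA))).unique
    ((hasFDerivAt_id y).congr_of_eventuallyEq (by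
      filter_upwards [isOpen_ball.mem_nhds hy] with w hw
      change (F (Ψ β w) β).1 = w
      rw [hF, P_fix hρ h1 ⟨a2, a3⟩ _ (a2 β (sub hw)),
        (a4 β w (by linarith [mem_ball_zero_iff.1 hw])).1]))
  have k2 : fderiv ℝ (fun y => (F (Ψ' β y) β).1) y = _ := k1.fderiv
  rw [k2, ← k0, ← ContinuousLinearMap.comp_sub]
  have b1 := (l1 ⟨Ψ, hA⟩ _ m0).1
  have b2 := (l2 ⟨Ψ, hA⟩ _ m0).2 _ m1
  have b3 : ‖fderiv ℝ (Ψ' β) y‖ ≤ |C 1| := by
    rw [← norm_iteratedFDeriv_one]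
    exact ((hA' β).2 1 y (sub hy)).trans (le_abs_self _)
  set t := min (min δ (ρ / 2000)) (1 / (2 * (L₂ * |C 1| + L₁ + 1))) with ht
  have t0 : 0 ≤ t := by positivity
  have t1 : t * (2 * (L₂ * |C 1| + L₁ + 1)) ≤ 1 :=
    (le_div_iff₀ (by positivity)).1 (min_le_right _ _)
  have e : fderiv ℝ F (Ψ' β y) ∘L fderiv ℝ (Ψ' β) y - fderiv ℝ F (Ψ β y) ∘L fderiv ℝ (Ψ β) y =
      (fderiv ℝ F (Ψ' β y) - fderiv ℝ F (Ψ β y)) ∘L fderiv ℝ (Ψ' β) y +
        fderiv ℝ F (Ψ β y) ∘L (fderiv ℝ (Ψ' β) y - fderiv ℝ (Ψ β) y) := by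
    rw [ContinuousLinearMap.sub_comp, ContinuousLinearMap.comp_sub, sub_add_sub_cancel]
  refine ((pr β).opNorm_comp_le _).trans ((mul_le_of_le_one_left (norm_nonneg _) (pr_le β)).trans ?_)
  rw [e]
  refine (norm_add_le_of_le ((ContinuousLinearMap.opNorm_comp_le _ _).trans
    (mul_le_mul (b2.trans (mul_le_mul_of_nonneg_left d1 p2)) b3 (norm_nonneg _) (by positivity)))
    ((ContinuousLinearMap.opNorm_comp_le _ _).trans (mul_le_mul b1 d2 (norm_nonneg _) p1))).trans ?_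
  nlinarith

end Pool.Agent.Lib.MP_1a4aff_gt.I3
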