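import Pool.Agent.Lib.MP_1a4aff_gt.I3.Gen

/-! Positivity of the semigroup of a form that does not increase under the absolute value. -/

set_option autoImplicit false

open MeasureTheory Set Filter Topology
open scoped RealInnerProductSpace

namespace Pool.Agent.Lib.MP_1a4aff_gt.I3

namespace SpC

section Gen
variable {V H : Type} [AddCommGroup V] [Module ℝ V] [NormedAddCommGroup H] [InnerProductSpace ℝ H]
  (ι : V →ₗ[ℝ] H) (q : V →ₗ[ℝ] V →ₗ[ℝ] ℝ)

/-- the weak graph of the operator attached to the form -/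
def Apx (z : H × H) : Prop :=
  ∀ ε > 0, ∃ f : V, ‖ι f - z.1‖ ≤ ε ∧
    ∀ h : V, |q f h - ⟪z.2, ι h⟫| ≤ ε * Real.sqrt (q h h + ‖ι h‖ ^ 2)

/-- the weak graph as a subspace -/
def gr : Submodule ℝ (H × H) where
  carrier := {z | Apx ι q z}
  zero_mem' := fun ε hε => ⟨0, by simpa using hε.le, fun h => by
    simp only [map_zero, LinearMap.zero_apply, Prod.snd_zero, inner_zero_left, sub_zero, abs_zero]
    positivity⟩
  add_mem' := fun {z z'} hz hz' ε hε => by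
    obtain ⟨f, h1, h2⟩ := hz (ε / 2) (by positivity)
    obtain ⟨f', h3, h4⟩ := hz' (ε / 2) (by positivity)
    refine ⟨f + f', ?_, fun h => ?_⟩
    · rw [map_add, Prod.fst_add, add_sub_add_comm]
      exact (norm_add_le _ _).trans (by linarith)
    · rw [map_add, LinearMap.add_apply, Prod.snd_add, inner_add_left, add_sub_add_comm]
      exact (abs_add_le _ _).trans (by linarith [h2 h, h4 h])
  smul_mem' := fun c z hz ε hε => by
    have hc : 0 < |c| + 1 := by positivity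
    obtain ⟨f, h1, h2⟩ := hz (ε / (|c| + 1)) (by positivity)
    have h3 : |c| * (ε / (|c| + 1)) ≤ ε := by
      rw [← mul_div_assoc, div_le_iff₀ hc]
      nlinarith [abs_nonneg c]
    refine ⟨c • f, ?_, fun h => ?_⟩
    · rw [map_smul, Prod.smul_fst, ← smul_sub, norm_smul, Real.norm_eq_abs]
      exact (mul_le_mul_of_nonneg_left h1 (abs_nonneg c)).trans h3
    · rw [map_smul, LinearMap.smul_apply, Prod.smul_snd, real_inner_smul_left, smul_eq_mul,
        ← mul_sub, abs_mul]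
      refine (mul_le_mul_of_nonneg_left (h2 h) (abs_nonneg c)).trans ?_
      rw [← mul_assoc]
      exact mul_le_mul_of_nonneg_right h3 (Real.sqrt_nonneg _)

variable {ι q}

theorem closed_gr (hq : ∀ f, 0 ≤ q f f) : IsClosed (gr ι q : Set (H × H)) := by
  refine isClosed_of_closure_subset fun z hz ε hε => ?_
  obtain ⟨z', hz', hd⟩ := Metric.mem_closure_iff.1 hz (ε / 2) (by positivity)
  obtain ⟨f, h1, h2⟩ := hz' (ε / 2) (by positivity)
  rw [dist_comm, dist_eq_norm] at hd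
  have d1 : ‖z'.1 - z.1‖ ≤ ε / 2 := (norm_fst_le (z' - z)).trans hd.le
  have d2 : ‖z'.2 - z.2‖ ≤ ε / 2 := (norm_snd_le (z' - z)).trans hd.le
  refine ⟨f, ?_, fun h => ?_⟩
  · rw [← sub_add_sub_cancel _ z'.1]
    exact (norm_add_le _ _).trans (by linarith)
  · have h3 : ‖ι h‖ ≤ Real.sqrt (q h h + ‖ι h‖ ^ 2) :=
      Real.le_sqrt_of_sq_le (by linarith [hq h])
    have h4 : |⟪z'.2 - z.2, ι h⟫| ≤ ε / 2 * Real.sqrt (q h h + ‖ι h‖ ^ 2) :=
      (abs_real_inner_le_norm _ _).trans (mul_le_mul d2 h3 (norm_nonneg _) (by positivity))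
    rw [inner_sub_left] at h4
    rw [← sub_add_sub_cancel _ ⟪z'.2, ι h⟫]
    exact (abs_add_le _ _).trans (by linarith [h2 h])

/-- the resolvent lies in the weak graph -/
theorem res (hq : ∀ f, 0 ≤ q f f) {b : HilbertBasis ℕ ℝ H} {lam : ℕ → ℝ} (hl : ∀ j, 0 ≤ lam j)
    (hb : ∀ j, WeakEig ι q (b j) (lam j)) {a : ℝ} (ha : 0 < a) (h : H) :
    ∃ u : H, (∀ j, ⟪b j, u⟫ = (1 + a * lam j)⁻¹ * ⟪b j, h⟫) ∧ Apx ι q (u, a⁻¹ • (h - u)) := by
  have hp : ∀ j, 1 ≤ 1 + a * lam j := fun j => by nlinarith [hl j]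
  have hm : Memℓp (fun j => (1 + a * lam j)⁻¹ * b.repr h j) 2 :=
    (lp.memℓp (b.repr h)).mono' fun j => by
      rw [norm_mul, Real.norm_of_nonneg (inv_nonneg.2 (by linarith [hp j]))]
      exact mul_le_of_le_one_left (norm_nonneg _) (inv_le_one_of_one_le₀ (hp j))
  refine ⟨b.repr.symm ⟨_, hm⟩, fun j => ?_, ?_⟩
  · rw [← b.repr_apply_apply, ← b.repr_apply_apply, LinearIsometryEquiv.apply_symm_apply]
  · have h1 := b.hasSum_repr_symm ⟨_, hm⟩
    have h2 := h1.prodMk (((b.hasSum_repr h).sub h1).const_smul a⁻¹)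
    refine (closed_gr hq).mem_of_tendsto h2 (Eventually.of_forall fun s => ?_)
    refine (gr ι q).sum_mem fun j _ => ?_
    have h3 : (b j, lam j • b j) ∈ gr ι q := fun ε hε => by
      obtain ⟨f, h4, h5⟩ := hb j ε hε
      exact ⟨f, h4, fun g => by rw [real_inner_smul_left]; exact h5 g⟩
    convert (gr ι q).smul_mem ((1 + a * lam j)⁻¹ * b.repr h j) h3 using 1
    refine Prod.ext rfl ?_
    simp only [Prod.smul_snd, ← sub_smul, smul_smul]
    congr 1
    have := hp j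
    field_simp
    ring

end Gen

variable {X V : Type} [MeasurableSpace X] {μ : Measure X} [AddCommGroup V] [Module ℝ V]
  {ι : V →ₗ[ℝ] Lp ℝ 2 μ} {q : V →ₗ[ℝ] V →ₗ[ℝ] ℝ}

theorem inner_pos {h k : Lp ℝ 2 μ} (hh : 0 ≤ h) (hk : 0 ≤ k) : 0 ≤ ⟪h, k⟫ := by
  rw [L2.inner_def]
  refine integral_nonneg_of_ae ?_
  filter_upwards [(Lp.coeFn_nonneg h).2 hh, (Lp.coeFn_nonneg k).2 hk] with x h1 h2
  simpa using mul_nonneg h2 h1

theorem key (hs : ∀ f h, q f h = q h f) (hq : ∀ f, 0 ≤ q f f)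
    (ha : ∀ f, ∀ ε > 0, ∃ f', q f' f' ≤ q f f ∧ ‖ι f' - |ι f|‖ ≤ ε) {u w : Lp ℝ 2 μ}
    (h : Apx ι q (u, w)) : ⟪w, |u| - u⟫ ≤ 0 := by
  have main : ∀ ε > 0, ⟪w, |u| - u⟫ ≤ ε * (ε / 2 + ‖|u| - u‖ + 3 * ε + 3 * ‖w‖) := fun ε hε => by
    obtain ⟨f, h1, h2⟩ := h ε hε
    obtain ⟨f', h3, h4⟩ := ha f ε hε
    have h5 := h2 (f' - f)
    have e : q (f' - f) (f' - f) = q f' f' - q f f - 2 * q f (f' - f) := by
      simp only [map_sub, LinearMap.sub_apply, hs f' f]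
      ring
    have h6 : ‖ι (f' - f) - (|u| - u)‖ ≤ 3 * ε := by
      have : ι (f' - f) - (|u| - u) = (ι f' - |ι f|) + (|ι f| - |u|) - (ι f - u) := by
        rw [map_sub]; abel
      rw [this]
      have h7 := (norm_abs_sub_abs (ι f) u).trans h1
      exact (norm_sub_le _ _).trans (by linarith [norm_add_le (ι f' - |ι f|) (|ι f| - |u|)])
    have h7 : ‖ι (f' - f)‖ ≤ ‖|u| - u‖ + 3 * ε := by
      linarith [norm_sub_norm_le (ι (f' - f)) (|u| - u)]
    have h8 : ⟪w, |u| - u⟫ ≤ ⟪w, ι (f' - f)⟫ + ‖w‖ * (3 * ε) := by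
      have h9 := (abs_real_inner_le_norm w (ι (f' - f) - (|u| - u))).trans
        (mul_le_mul_of_nonneg_left h6 (norm_nonneg _))
      rw [inner_sub_right] at h9
      linarith [neg_abs_le (⟪w, ι (f' - f)⟫ - ⟪w, |u| - u⟫)]
    have h0 := hq (f' - f)
    generalize q (f' - f) (f' - f) = x at *
    have h9 : Real.sqrt (x + ‖ι (f' - f)‖ ^ 2) ≤ Real.sqrt x + ‖ι (f' - f)‖ := by
      refine Real.sqrt_le_iff.2 ⟨by positivity, ?_⟩
      nlinarith [Real.sq_sqrt h0, Real.sqrt_nonneg x, norm_nonneg (ι (f' - f))]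
    have h10 := (neg_abs_le _).trans' (neg_le_neg (h5.trans (mul_le_mul_of_nonneg_left h9 hε.le)))
    have h11 := mul_le_mul_of_nonneg_left h7 hε.le
    dsimp only at h10
    nlinarith [Real.sq_sqrt h0, sq_nonneg (Real.sqrt x - ε)]
  have hc : Continuous fun ε : ℝ => ε * (ε / 2 + ‖|u| - u‖ + 3 * ε + 3 * ‖w‖) := by fun_prop
  have h1 := (hc.tendsto 0).mono_left (nhdsWithin_le_nhds (s := Ioi 0))
  rw [zero_mul] at h1
  exact ge_of_tendsto h1 (eventually_mem_nhdsWithin.mono fun ε hε => main ε hε)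

theorem pos_of (hs : ∀ f h, q f h = q h f) (hq : ∀ f, 0 ≤ q f f)
    (ha : ∀ f, ∀ ε > 0, ∃ f', q f' f' ≤ q f f ∧ ‖ι f' - |ι f|‖ ≤ ε) {u h : Lp ℝ 2 μ} {a : ℝ}
    (h0 : 0 < a) (hh : 0 ≤ h) (hu : Apx ι q (u, a⁻¹ • (h - u))) : 0 ≤ u := by
  have h1 := key hs hq ha hu
  have h2 := inner_pos hh (sub_nonneg.2 (le_abs_self u))
  rw [real_inner_smul_left, inner_sub_left] at h1
  have h3 : ⟪h, |u| - u⟫ - ⟪u, |u| - u⟫ ≤ 0 :=
    nonpos_of_mul_nonpos_right h1 (inv_pos.2 h0)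
  have h4 : ‖|u| - u‖ ^ 2 ≤ 0 := by
    rw [inner_sub_right u, real_inner_self_eq_norm_sq] at h3
    rw [norm_sub_sq_real, norm_abs_eq_norm, real_inner_comm]
    linarith
  have h5 : |u| - u = 0 := norm_eq_zero.1 (pow_eq_zero_iff two_ne_zero |>.1
    (le_antisymm h4 (sq_nonneg _)))
  rw [← sub_eq_zero.1 h5]
  exact abs_nonneg u

end SpC

open SpC

theorem spC_holds : SpCStmt := by
  intro X V _ μ _ _ ι q b lam hs hq hl hb ha t ht h k hh hk
  have h1 : ∀ a > 0, ∀ n : ℕ, ∃ u : Lp ℝ 2 μ, 0 ≤ u ∧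
      ∀ j, ⟪b j, u⟫ = ((1 + a * lam j) ^ n)⁻¹ * ⟪b j, h⟫ := fun a h0 n => by
    induction n with
    | zero => exact ⟨h, hh, fun j => by simp⟩
    | succ n ih =>
      obtain ⟨u, h1, h2⟩ := ih
      obtain ⟨v, h3, h4⟩ := res hq hl hb h0 u
      exact ⟨v, pos_of hs hq ha h0 h1 h4, fun j => by rw [h3, h2, pow_succ, mul_inv]; ring⟩
  have h2 : ∀ n : ℕ, 0 < n →
      0 ≤ ∑' j, ((1 + lam j * t / n) ^ n)⁻¹ * (⟪h, b j⟫ * ⟪k, b j⟫) := fun n hn => by
    obtain ⟨u, h3, h4⟩ := h1 (t / n) (by positivity) n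
    have h5 := inner_pos hk h3
    rw [← b.tsum_inner_mul_inner] at h5
    refine h5.trans_eq (tsum_congr fun j => ?_)
    rw [h4, real_inner_comm h, show lam j * t / n = t / n * lam j by ring]
    ring
  have h3 : Summable fun j => |⟪h, b j⟫ * ⟪k, b j⟫| := by
    have := (b.summable_inner_mul_inner h k).abs
    simpa only [real_inner_comm k] using this
  refine ge_of_tendsto (tendsto_tsum_of_dominated_convergence (𝓕 := atTop) h3 (fun j => ?_)
    (Eventually.of_forall fun n j => ?_)) ((eventually_gt_atTop 0).mono h2)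
  · rw [Real.exp_neg]
    exact ((Real.tendsto_one_add_div_pow_exp _).inv₀ (Real.exp_pos _).ne').mul_const _
  · have h4 : 1 ≤ (1 + lam j * t / n) ^ n :=
      one_le_pow₀ (le_add_of_nonneg_right (by have := hl j; positivity))
    rw [Real.norm_eq_abs, abs_mul, abs_of_nonneg (inv_nonneg.2 (by linarith))]
    exact mul_le_of_le_one_left (abs_nonneg _) (inv_le_one_of_one_le₀ h4)

end Pool.Agent.Lib.MP_1a4aff_gt.I3
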