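import Pool.Agent.Lib.MP_1a4aff_gt.I3.BrB

-- part Pool.Agent.Lib.MP_1a4aff_gt.I3.SpB
section

/-! Weak eigenfunctions are continuous. -/

set_option autoImplicit false

open MeasureTheory Set Filter Topology Metric
open scoped ContDiff RealInnerProductSpace ENNReal

namespace Pool.Agent.Lib.MP_1a4aff_gt.I3

namespace SpB

variable {n : ℕ}

/-! the profiles -/

noncomputable def ka (s : ℝ) : ℝ := expNegInvGlue (1 - s)

noncomputable def Ka (s : ℝ) : ℝ := ∫ x in (1 : ℝ)..s, ka x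

noncomputable def kb (s : ℝ) : ℝ := 6 * ka s + 4 * s * deriv ka s

theorem ka_sm : ContDiff ℝ ∞ ka :=
  expNegInvGlue.contDiff.comp (contDiff_const.sub contDiff_id)

theorem ka_nonneg (s : ℝ) : 0 ≤ ka s := expNegInvGlue.nonneg _

theorem ka_zero {s : ℝ} (h : 1 ≤ s) : ka s = 0 := expNegInvGlue.zero_of_nonpos (by linarith)

theorem Ka_deriv (s : ℝ) : HasDerivAt Ka (ka s) s :=
  intervalIntegral.integral_hasDerivAt_right (ka_sm.continuous.intervalIntegrable _ _)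
    (ka_sm.continuous.stronglyMeasurableAtFilter _ _) ka_sm.continuous.continuousAt

theorem deriv_Ka : deriv Ka = ka := funext fun s => (Ka_deriv s).deriv

theorem Ka_sm : ContDiff ℝ ∞ Ka :=
  contDiff_infty_iff_deriv.2 ⟨fun s => (Ka_deriv s).differentiableAt, deriv_Ka ▸ ka_sm⟩

theorem dka_sm : ContDiff ℝ ∞ (deriv ka) := (contDiff_infty_iff_deriv.1 ka_sm).2

theorem kb_sm : ContDiff ℝ ∞ kb :=
  (contDiff_const.mul ka_sm).add ((contDiff_const.mul contDiff_id).mul dka_sm)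

theorem Ka_zero {s : ℝ} (h : 1 ≤ s) : Ka s = 0 := by
  rw [Ka, intervalIntegral.integral_congr (g := fun _ => 0)]
  · simp
  · intro x hx
    rw [uIcc_of_le h] at hx
    exact ka_zero hx.1

theorem kb_zero {s : ℝ} (h : 1 < s) : kb s = 0 := by
  have : ka =ᶠ[𝓝 s] fun _ => 0 := (lt_mem_nhds h).mono fun x hx => ka_zero (le_of_lt hx)
  simp [kb, ka_zero h.le, this.deriv_eq]

theorem bd_of {f : ℝ → ℝ} (hf : Continuous f) (h0 : ∀ s, 1 < s → f s = 0) :
    ∃ M, 0 ≤ M ∧ ∀ s, 0 ≤ s → |f s| ≤ M := by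
  obtain ⟨M, hM⟩ := (isCompact_Icc (a := (0 : ℝ)) (b := 1)).exists_bound_of_continuousOn
    hf.continuousOn
  have h1 : 0 ≤ M := (norm_nonneg _).trans (hM 0 (by simp))
  refine ⟨M, h1, fun s hs => ?_⟩
  by_cases h : s ≤ 1
  · exact hM s ⟨hs, h⟩
  · simpa [h0 s (not_le.1 h)] using h1

theorem exists_M : ∃ M, 0 ≤ M ∧ ∀ s, 0 ≤ s → |ka s| ≤ M ∧ |Ka s| ≤ M ∧ |kb s| ≤ M := by
  obtain ⟨a, ha, ha'⟩ := bd_of ka_sm.continuous fun s h => ka_zero h.le
  obtain ⟨b, hb, hb'⟩ := bd_of Ka_sm.continuous fun s h => Ka_zero h.le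
  obtain ⟨c, hc, hc'⟩ := bd_of kb_sm.continuous fun s h => kb_zero h
  exact ⟨a + b + c, by positivity, fun s hs =>
    ⟨by linarith [ha' s hs], by linarith [hb' s hs], by linarith [hc' s hs]⟩⟩

/-- the rescaled radial function -/
noncomputable def sc (f : ℝ → ℝ) (m : ℕ) (σ : ℝ) (v : E3) : ℝ := σ⁻¹ ^ m * f (‖v‖ ^ 2 / σ ^ 4)

theorem sc_sm {f : ℝ → ℝ} (hf : ContDiff ℝ ∞ f) (m : ℕ) (σ : ℝ) : ContDiff ℝ ∞ (sc f m σ) :=
  contDiff_const.mul (hf.comp ((contDiff_norm_sq ℝ).div_const _))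

theorem sc_zero {f : ℝ → ℝ} (h0 : ∀ s, 1 < s → f s = 0) (m : ℕ) {σ : ℝ} (hσ : 0 < σ) (v : E3)
    (hv : σ ^ 2 < ‖v‖) : sc f m σ v = 0 := by
  have : 1 < ‖v‖ ^ 2 / σ ^ 4 := by
    rw [one_lt_div (by positivity)]
    calc σ ^ 4 = (σ ^ 2) ^ 2 := by ring
      _ < ‖v‖ ^ 2 := by gcongr
  simp [sc, h0 _ this]

theorem sc_bd {f : ℝ → ℝ} {M : ℝ} (h : ∀ s, 0 ≤ s → |f s| ≤ M) (m : ℕ) {σ : ℝ} (hσ : 0 < σ)
    (v : E3) : |sc f m σ v| ≤ σ⁻¹ ^ m * M := by
  rw [sc, abs_mul, abs_of_nonneg (by positivity)]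
  exact mul_le_mul_of_nonneg_left (h _ (by positivity)) (by positivity)

theorem sc_deriv {σ : ℝ} (hσ : 0 < σ) (v : E3) :
    HasDerivAt (fun σ => sc ka 6 σ v) (-sc kb 7 σ v) σ := by
  have h1 : HasDerivAt (fun σ : ℝ => ‖v‖ ^ 2 / σ ^ 4) _ σ :=
    (hasDerivAt_const σ (‖v‖ ^ 2)).div (hasDerivAt_pow 4 σ) (by positivity)
  have h2 := ((ka_sm.differentiable (by simp) _).hasDerivAt).comp σ h1
  have h3 := ((hasDerivAt_inv hσ.ne').fun_pow 6).mul h2
  refine h3.congr_deriv ?_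
  simp only [sc, kb, Function.comp_def]
  generalize ka (‖v‖ ^ 2 / σ ^ 4) = a
  generalize deriv ka (‖v‖ ^ 2 / σ ^ 4) = b
  norm_num
  field_simp
  ring

theorem supp_sub {w : E3 → ℝ} {r R : ℝ} (h : ∀ v, r < ‖v‖ → w v = 0) (hR : r < R) :
    tsupport w ⊆ ball 0 R := by
  refine (closure_minimal (t := closedBall 0 r) (fun v hv => ?_) isClosed_closedBall).trans
    (closedBall_subset_ball hR)
  by_contra h'
  exact hv (h v (by simpa using h'))

theorem supp_cpt {w : E3 → ℝ} {r : ℝ} (h : ∀ v, r < ‖v‖ → w v = 0) : HasCompactSupport w :=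
  HasCompactSupport.intro (isCompact_closedBall 0 r) fun v hv => h v (by simpa using hv)

/-- the total mass -/
noncomputable def c0 : ℝ := ∫ v : E3, ka (‖v‖ ^ 2)

theorem ka_cont : Continuous fun v : E3 => ka (‖v‖ ^ 2) := ka_sm.continuous.comp (by fun_prop)

theorem ka_out (v : E3) (h : 1 < ‖v‖) : ka (‖v‖ ^ 2) = 0 := ka_zero (by nlinarith)

theorem c0_pos : 0 < c0 :=
  ka_cont.integral_pos_of_hasCompactSupport_nonneg_nonzero (supp_cpt ka_out)
    (fun _ => ka_nonneg _) (x := 0) (by simp [ka])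

theorem sc_lim {Φ : E3 → ℝ} (hΦ : Continuous Φ) :
    Tendsto (fun σ => ∫ v, sc ka 6 σ v * Φ v) (𝓝[>] 0) (𝓝 (c0 * Φ 0)) := by
  have h1 : Continuous fun σ : ℝ => ∫ v in closedBall (0 : E3) 1, ka (‖v‖ ^ 2) * Φ (σ ^ 2 • v) :=
    continuous_parametric_integral_of_continuous
      ((ka_cont.comp continuous_snd).mul (hΦ.comp (by fun_prop))) (isCompact_closedBall 0 1)
  have h2 : ∀ σ : ℝ, ∫ v in closedBall (0 : E3) 1, ka (‖v‖ ^ 2) * Φ (σ ^ 2 • v) =
      ∫ v, ka (‖v‖ ^ 2) * Φ (σ ^ 2 • v) := fun σ =>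
    setIntegral_eq_integral_of_forall_compl_eq_zero fun v hv => by
      rw [ka_out v (by simpa using hv), zero_mul]
  simp only [h2] at h1
  have h3 := (h1.tendsto 0).mono_left (nhdsWithin_le_nhds (s := Ioi 0))
  simp only [ne_eq, OfNat.ofNat_ne_zero, not_false_eq_true, zero_pow, zero_smul,
    integral_mul_const] at h3
  refine h3.congr' ?_
  filter_upwards [self_mem_nhdsWithin] with σ hσ
  have hσ : 0 < σ := hσ
  have h4 := Measure.integral_comp_smul_of_nonneg (volume : Measure E3)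
    (fun v => sc ka 6 σ v * Φ v) (σ ^ 2) (hR := by positivity)
  have h5 : ∀ v : E3, sc ka 6 σ (σ ^ 2 • v) = σ⁻¹ ^ 6 * ka (‖v‖ ^ 2) := fun v => by
    rw [sc, norm_smul, Real.norm_eq_abs, abs_of_nonneg (by positivity)]
    congr 2
    field_simp
  simp only [h5, mul_assoc, integral_const_mul, finrank_euclideanSpace, Fintype.card_fin,
    smul_eq_mul] at h4
  have h6 : (σ⁻¹ ^ 6) = ((σ ^ 2) ^ 3)⁻¹ := by field_simp
  rw [h6] at h4
  exact mul_left_cancel₀ (by positivity) h4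

theorem sc_hasDeriv {g : E3 → ℝ} (hg : Integrable g) {σ : ℝ} (hσ : 0 < σ) :
    HasDerivAt (fun σ => ∫ v, sc ka 6 σ v * g v) (∫ v, -sc kb 7 σ v * g v) σ := by
  obtain ⟨M, hM, hb⟩ := exists_M
  have hm : ∀ {f : ℝ → ℝ}, ContDiff ℝ ∞ f → ∀ m τ,
      AEStronglyMeasurable (fun v => sc f m τ v * g v) volume := fun hf m τ =>
    (sc_sm hf m τ).continuous.aestronglyMeasurable.mul hg.aestronglyMeasurable
  refine (hasDerivAt_integral_of_dominated_loc_of_deriv_le (s := Ioi (σ / 2))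
    (F' := fun τ v => -sc kb 7 τ v * g v) (bound := fun v => (σ / 2)⁻¹ ^ 7 * M * ‖g v‖)
    (Ioi_mem_nhds (by linarith)) (Eventually.of_forall (hm ka_sm 6)) ?_ ?_ ?_ ?_ ?_).2
  · exact hg.bdd_mul (c := σ⁻¹ ^ 6 * M) (sc_sm ka_sm 6 σ).continuous.aestronglyMeasurable
      (Eventually.of_forall fun v => sc_bd (fun s hs => (hb s hs).1) 6 hσ v)
  · exact (sc_sm kb_sm 7 σ).continuous.neg.aestronglyMeasurable.mul hg.aestronglyMeasurable
  · refine Eventually.of_forall fun v τ hτ => ?_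
    have hτ : σ / 2 < τ := hτ
    have hτ0 : 0 < τ := by linarith
    rw [norm_mul, norm_neg]
    refine mul_le_mul_of_nonneg_right ((sc_bd (fun s hs => (hb s hs).2.2) 7 (by linarith) v).trans
      ?_) (norm_nonneg _)
    gcongr
  · exact hg.norm.const_mul _
  · refine Eventually.of_forall fun v τ hτ => ?_
    have hτ : σ / 2 < τ := hτ
    exact (sc_deriv (by linarith) v).mul_const _

/-! pairings -/

/-- smooth kernels with small support -/
structure Ker (w : E3 → ℝ) (r M : ℝ) : Prop where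
  sm : ContDiff ℝ ∞ w
  out : ∀ v, r < ‖v‖ → w v = 0
  bd : ∀ v, |w v| ≤ M

theorem sc_ker {f : ℝ → ℝ} {M : ℝ} (hf : ContDiff ℝ ∞ f) (h0 : ∀ s, 1 < s → f s = 0)
    (h : ∀ s, 0 ≤ s → |f s| ≤ M) (m : ℕ) {σ : ℝ} (hσ : 0 < σ) :
    Ker (sc f m σ) (σ ^ 2) (σ⁻¹ ^ m * M) :=
  ⟨sc_sm hf m σ, sc_zero h0 m hσ, sc_bd h m hσ⟩

/-- the volume of the unit ball -/
noncomputable def V1 : ℝ := (volume : Measure E3).real (closedBall 0 1)

section
variable {G : Geo n} {ρ : ℝ} {u : Fr n} {w : E3 → ℝ} {r M : ℝ} {φ : Amb n → ℝ}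

theorem int_pr (hP : PushStmt) (hB : G.Bd 0 1) (hu : u ∈ G.F) (hw : Ker w r M) (hr : r < 1 / 4)
    (hφ : Integrable φ G.mu) : Integrable fun v => w v * φ (G.ex u v) * G.den u v := by
  obtain ⟨W, -, -, h2, -⟩ := hP n G hB u hu w hw.sm (supp_sub hw.out hr)
  exact (h2 φ hφ).1

theorem push_bd (hP : PushStmt) (hB : G.Bd 0 1) (hρ : ρ ≤ 1 / 4) (hI : G.Inj ρ) (hu : u ∈ G.F)
    (hw : Ker w r M) (hr : r < ρ) : ∃ W : Amb n → ℝ, Continuous W ∧ (∀ p ∈ G.S, |W p| ≤ M) ∧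
      ∀ φ, Integrable φ G.mu → G.ms W φ = G.pr u w φ := by
  obtain ⟨W, hW, h1, h2, -⟩ := hP n G hB u hu w hw.sm (supp_sub hw.out (hr.trans_le hρ))
  refine ⟨W, hW.continuous, fun p hp => ?_, fun φ hφ => (h2 φ hφ).2⟩
  have hb : ∀ v, w v ≠ 0 → v ∈ ball (0 : E3) ρ := fun v hv =>
    mem_ball_zero_iff.2 ((not_lt.1 fun h => hv (hw.out v h)).trans_lt hr)
  rw [(h1 p hp).2, finsum_mem_def]
  by_cases h : ∃ v, G.ex u v = p ∧ w v ≠ 0
  · obtain ⟨v, hv, hv0⟩ := h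
    rw [finsum_eq_single _ v, indicator_of_mem (by exact hv)]
    · exact hw.bd v
    · intro x hx
      refine indicator_apply_eq_zero.2 fun hx' => ?_
      by_contra h0
      exact hx (hI u hu (hb x h0) (hb v hv0) (hx'.trans hv.symm))
  · rw [finsum_eq_zero_of_forall_eq_zero, abs_zero]
    · exact (abs_nonneg _).trans (hw.bd 0)
    · intro x
      refine indicator_apply_eq_zero.2 fun hx' => ?_
      by_contra h0
      exact h ⟨x, hx', h0⟩

theorem pr_L1 (hP : PushStmt) (hB : G.Bd 0 1) (hρ : ρ ≤ 1 / 4) (hI : G.Inj ρ) (hu : u ∈ G.F)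
    (hw : Ker w r M) (hr : r < ρ) (hφ : Integrable φ G.mu) :
    |G.pr u w φ| ≤ M * ∫ p, ‖φ p‖ ∂G.mu := by
  obtain ⟨W, -, h1, h2⟩ := push_bd hP hB hρ hI hu hw hr
  rw [← h2 φ hφ, ← integral_const_mul, Geo.ms, ← Real.norm_eq_abs]
  refine norm_integral_le_of_norm_le (hφ.norm.const_mul M) (G.ae_S.mono fun p hp => ?_)
  rw [norm_mul]
  exact mul_le_mul_of_nonneg_right (h1 p hp) (norm_nonneg _)

theorem pr_L2 (hR : RadStmt) (hP : PushStmt) (hB : G.Bd 0 1) (hρ : ρ ≤ 1 / 4) (hI : G.Inj ρ)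
    (hu : u ∈ G.F) {σ : ℝ} (hσ : 0 < σ) (hw : Ker w (σ ^ 2) (σ⁻¹ ^ 3 * M)) (hr : σ ^ 2 < ρ)
    (hφ : MemLp φ 2 G.mu) (h1 : G.ms φ φ ≤ 1) : |G.pr u w φ| ≤ 1 + 2 * M ^ 2 * V1 := by
  obtain ⟨W, hW, h2, h3⟩ := push_bd hP hB hρ hI hu hw hr
  have hM : 0 ≤ σ⁻¹ ^ 3 * M := (abs_nonneg _).trans (hw.bd 0)
  have h4 : G.ms W W ≤ 2 * M ^ 2 * V1 := by
    rw [h3 W (G.integrable_mu hW.continuousOn), Flo.pr,
      ← setIntegral_eq_integral_of_forall_compl_eq_zero (s := closedBall 0 (σ ^ 2))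
        fun v hv => by rw [hw.out v (by simpa using hv), zero_mul, zero_mul]]
    refine (Real.le_norm_self _).trans ((norm_setIntegral_le_of_norm_le_const
      (C := σ⁻¹ ^ 3 * M * (σ⁻¹ ^ 3 * M) * 2) measure_closedBall_lt_top fun v hv => ?_).trans ?_)
    · have hv' : ‖v‖ ≤ 1 / 4 := by linarith [mem_closedBall_zero_iff.1 hv]
      obtain ⟨-, -, d1, d2⟩ := (hR n G.toFlo u hu).2.2.2.2.2.2 hB v hv'
      rw [norm_mul, norm_mul, Real.norm_eq_abs, Real.norm_eq_abs, Real.norm_eq_abs,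
        abs_of_nonneg (a := G.den u v) (by linarith)]
      gcongr
      · exact hw.bd v
      · exact h2 _ (G.ex_mem hu v)
    · rw [Measure.addHaar_real_closedBall' _ _ (by positivity), finrank_euclideanSpace,
        Fintype.card_fin, V1]
      apply le_of_eq
      field_simp
  have i1 : Integrable (fun p => W p * W p) G.mu := G.integrable_mu (hW.mul hW).continuousOn
  have i2 : Integrable (fun p => φ p * φ p) G.mu := by simpa [sq] using hφ.integrable_sq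
  rw [← h3 φ (hφ.integrable one_le_two), Geo.ms, ← Real.norm_eq_abs]
  refine (norm_integral_le_of_norm_le (i2.add i1) (Eventually.of_forall fun p => ?_)).trans ?_
  · rw [Real.norm_eq_abs, abs_le]
    constructor <;> simp only [Pi.add_apply] <;>
      nlinarith [sq_nonneg (φ p - W p), sq_nonneg (φ p + W p)]
  · simp only [Pi.add_apply]
    rw [integral_add i2 i1]
    exact add_le_add h1 h4

theorem den_pos (hR : RadStmt) (hB : G.Bd 0 1) (hu : u ∈ G.F) :
    ∀ v ∈ ball (0 : E3) (1 / 4), 0 < G.den u v := fun v hv => by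
  linarith [((hR n G.toFlo u hu).2.2.2.2.2.2 hB v (mem_ball_zero_iff.1 hv).le).2.2.1]

theorem pr_lap (hR : RadStmt) (hM : MPStmt) (hP : PushStmt) (hB : G.Bd 0 1) (hu : u ∈ G.F)
    (hw : Ker w r M) (hr : r < 1 / 4) (hφ : Integrable φ G.mu) {lam : ℝ} (hW : G.Weak φ lam) :
    G.pr u (G.Lap u w) φ = -(lam * G.pr u w φ) := by
  have hs := supp_sub hw.out hr
  obtain ⟨l1, l2⟩ := (hM n G.toFlo u hu _ (den_pos hR hB hu)).2.2.2.1 w hw.sm hs
  obtain ⟨W, hW1, -, h2, h3⟩ := hP n G hB u hu w hw.sm hs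
  obtain ⟨L, hL1, -, h4, -⟩ := hP n G hB u hu _ l1 (l2.trans hs)
  have e : ∀ h, G.ms (fun p => -L p) h = -G.ms L h := fun h => by simp [Geo.ms, integral_neg]
  have := hW W (fun p => -L p) hW1 hL1.continuous.neg fun h hh => by
    rw [h3 h hh, e, (h4 h (G.integrable_mu hh.continuous.continuousOn)).2]
  rw [e, (h4 φ hφ).2, (h2 φ hφ).2] at this
  linarith

theorem dd_normSq (i : Fin 3) (v : E3) : dd i (fun y => ‖y‖ ^ 2) v = 2 * v i := by
  rw [dd, (hasStrictFDerivAt_norm_sq v).hasFDerivAt.fderiv]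
  simp [inner_ee]

theorem lap_sc (hR : RadStmt) (hM : MPStmt) (hB : G.Bd 0 1) (hu : u ∈ G.F) {σ : ℝ} (hσ : 0 < σ)
    {v : E3} (hv : v ∈ ball (0 : E3) (1 / 4)) : G.Lap u (sc Ka 3 σ) v =
      sc kb 7 σ v + 2 * sc ka 7 σ v * (fderiv ℝ (G.den u) v v / G.den u v) := by
  obtain ⟨-, g1, -, -, g2, g3, -⟩ := (hM n G.toFlo u hu _ (den_pos hR hB hu)).2.2.2.2.2 v hv
  have d0 : ∀ x : ℝ, HasDerivAt (fun x : ℝ => x / σ ^ 4) (1 / σ ^ 4) x := fun x =>
    (hasDerivAt_id x).div_const _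
  have d1 : deriv (fun x => σ⁻¹ ^ 3 * Ka (x / σ ^ 4)) = fun x => σ⁻¹ ^ 7 * ka (x / σ ^ 4) := by
    funext x
    refine (((Ka_deriv _).comp x (d0 x)).const_mul _).deriv.trans ?_
    field_simp
  have d2 : deriv (fun x => σ⁻¹ ^ 7 * ka (x / σ ^ 4)) =
      fun x => σ⁻¹ ^ 11 * deriv ka (x / σ ^ 4) := by
    funext x
    refine (((ka_sm.differentiable (by simp) _).hasDerivAt.comp x (d0 x)).const_mul _).deriv.trans
      ?_
    field_simp
  have h := g2 (fun x => σ⁻¹ ^ 3 * Ka (x / σ ^ 4)) (fun y => ‖y‖ ^ 2)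
    (contDiff_const.mul (Ka_sm.comp (contDiff_id.div_const _))).contDiffAt
    (contDiff_norm_sq ℝ).contDiffAt
  have e : ∑ i, ∑ j, G.gi u i j v * dd i (fun y => ‖y‖ ^ 2) v * dd j (fun y => ‖y‖ ^ 2) v =
      4 * ‖v‖ ^ 2 := by
    have g0 := g1 0; have g1' := g1 1; have g2' := g1 2
    simp only [dd_normSq]
    simp only [Fin.sum_univ_three, normSq_E3] at g0 g1' g2' ⊢
    linear_combination (4 * v 0) * g0 + (4 * v 1) * g1' + (4 * v 2) * g2'
  rw [d1, d2, g3, e] at h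
  refine h.trans ?_
  simp only [sc, kb]
  generalize ka (‖v‖ ^ 2 / σ ^ 4) = a
  generalize deriv ka (‖v‖ ^ 2 / σ ^ 4) = b
  generalize fderiv ℝ (G.den u) v v / G.den u v = c
  field_simp
  ring

theorem den_zero (hR : RadStmt) (hB : G.Bd 0 1) (hu : u ∈ G.F) :
    G.den u 0 = 1 ∧ fderiv ℝ (G.den u) 0 = 0 := by
  obtain ⟨-, -, -, h0, -, -, h1⟩ := hR n G.toFlo u hu
  refine ⟨by rw [Flo.den_eq_det, h0]; simp [ContinuousLinearMap.det], ?_⟩
  have h2 : HasFDerivAt (G.th u) (0 : E3 →L[ℝ] E3 →L[ℝ] E3) 0 := by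
    rw [hasFDerivAt_iff_isLittleO_nhds_zero]
    refine Asymptotics.IsBigO.trans_isLittleO (g := fun v : E3 => ‖v‖ ^ 2)
      (Asymptotics.IsBigO.of_bound 1 ?_) (Asymptotics.isLittleO_norm_pow_id one_lt_two)
    filter_upwards [closedBall_mem_nhds (0 : E3) (show (0 : ℝ) < 1 / 4 by norm_num)] with v hv
    simpa [h0] using (h1 hB v (mem_closedBall_zero_iff.1 hv)).1
  have h3 : Differentiable ℝ fun A : E3 →L[ℝ] E3 =>
      (Matrix.of fun a i : Fin 3 => A (ee i) a).det := by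
    simp only [Matrix.det_fin_three, Matrix.of_apply]
    fun_prop
  have h4 := ((h3 _).hasFDerivAt.comp 0 h2).fderiv
  exact h4.trans (by simp)

end

section
variable {G : Geo n} {ρ : ℝ} {u : Fr n} {w : E3 → ℝ} {r M : ℝ} {φ : Amb n → ℝ}

theorem D_bd (hR : RadStmt) (hI : InjStmt) (hU : UB2Stmt) (hB : G.Bd 0 1) :
    ∃ C, 0 ≤ C ∧ ∀ u ∈ G.F, ∀ v ∈ ball (0 : E3) (1 / 4),
      |fderiv ℝ (G.den u) v v / G.den u v| ≤ C * ‖v‖ ^ 2 := by
  obtain ⟨J, hJ⟩ := hU 2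
  obtain ⟨B, hB'⟩ := hI.2.1 n G.toCon J
  obtain ⟨C, hC⟩ := hJ B
  refine ⟨2 * |C|, by positivity, fun u hu v hv => ?_⟩
  have h0 : Differentiable ℝ (fderiv ℝ (G.den u)) :=
    ((G.contDiff_den u).fderiv_right (m := 1) (by norm_cast)).differentiable one_ne_zero
  have h1 : ‖fderiv ℝ (G.den u) v - fderiv ℝ (G.den u) 0‖ ≤ |C| * ‖v - 0‖ :=
    (convex_ball (0 : E3) (1 / 4)).norm_image_sub_le_of_norm_fderiv_le (fun x _ => h0 x)
      (fun x hx => by
        rw [← norm_iteratedFDeriv_one, norm_iteratedFDeriv_fderiv]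
        exact (hC n G.toFlo hB hB' u hu x hx 2 le_rfl).1.trans (le_abs_self C))
      (mem_ball_self (by norm_num)) hv
  rw [(den_zero hR hB hu).2, sub_zero, sub_zero] at h1
  have h2 := ((hR n G.toFlo u hu).2.2.2.2.2.2 hB v (mem_ball_zero_iff.1 hv).le).2.2.1
  have h3 : |fderiv ℝ (G.den u) v v| ≤ |C| * ‖v‖ * ‖v‖ :=
    ((fderiv ℝ (G.den u) v).le_opNorm v).trans (by gcongr)
  rw [abs_div, abs_of_pos (a := G.den u v) (by linarith), div_le_iff₀ (by linarith)]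
  have h4 : 0 ≤ |C| * ‖v‖ * ‖v‖ := by positivity
  nlinarith

theorem err_ker (hR : RadStmt) (hM : MPStmt) (hB : G.Bd 0 1) (hu : u ∈ G.F) {σ C : ℝ}
    (hσ : 0 < σ) (hσ' : σ ^ 2 < 1 / 4) (hM0 : 0 ≤ M) (hb : ∀ s, 0 ≤ s → |ka s| ≤ M) (hC : 0 ≤ C)
    (hD : ∀ v ∈ ball (0 : E3) (1 / 4), |fderiv ℝ (G.den u) v v / G.den u v| ≤ C * ‖v‖ ^ 2) :
    Ker (fun v => G.Lap u (sc Ka 3 σ) v - sc kb 7 σ v) (σ ^ 2) (σ⁻¹ ^ 3 * (2 * M * C)) := by
  have z := sc_zero (fun s h => Ka_zero h.le) 3 hσ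
  obtain ⟨l1, l2⟩ := (hM n G.toFlo u hu _ (den_pos hR hB hu)).2.2.2.1 _ (sc_sm Ka_sm 3 σ)
    (supp_sub z hσ')
  have o : ∀ v, σ ^ 2 < ‖v‖ → G.Lap u (sc Ka 3 σ) v - sc kb 7 σ v = 0 := fun v hv => by
    rw [sc_zero (fun s h => kb_zero h) 7 hσ v hv, sub_zero]
    exact image_eq_zero_of_notMem_tsupport fun h => by simpa using supp_sub z hv (l2 h)
  refine ⟨l1.sub (sc_sm kb_sm 7 σ), o, fun v => ?_⟩
  by_cases hv : σ ^ 2 < ‖v‖
  · rw [o v hv, abs_zero]; positivity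
  · have hv1 := not_lt.1 hv
    have hv2 : v ∈ ball (0 : E3) (1 / 4) := mem_ball_zero_iff.2 (hv1.trans_lt hσ')
    rw [lap_sc hR hM hB hu hσ hv2, add_sub_cancel_left, abs_mul, abs_mul, abs_two]
    calc _ ≤ 2 * (σ⁻¹ ^ 7 * M) * (C * (σ ^ 2) ^ 2) := by
          gcongr
          · exact sc_bd hb 7 hσ v
          · exact (hD v hv2).trans (by gcongr)
      _ = _ := by field_simp

theorem pr_deriv (hP : PushStmt) (hB : G.Bd 0 1) (hu : u ∈ G.F) (hφ : Integrable φ G.mu) {σ : ℝ}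
    (hσ : 0 < σ) (hσ' : σ < 1 / 4) :
    HasDerivAt (fun τ => G.pr u (sc ka 6 τ) φ) (-G.pr u (sc kb 7 σ) φ) σ := by
  let b : ContDiffBump (0 : E3) := ⟨1 / 8, 3 / 16, by norm_num, by norm_num⟩
  have hb : Ker b (3 / 16) 1 := ⟨b.contDiff,
    fun v hv => b.zero_of_le_dist (by simpa [b] using hv.le),
    fun v => abs_le.2 ⟨by linarith [b.nonneg (x := v)], b.le_one⟩⟩
  have e : ∀ {f : ℝ → ℝ}, (∀ s, 1 < s → f s = 0) → ∀ m τ, 0 < τ → τ < 1 / 4 →
      G.pr u (sc f m τ) φ = ∫ v, sc f m τ v * (b v * φ (G.ex u v) * G.den u v) := by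
    intro f h0 m τ h1 h2
    refine integral_congr_ae (Eventually.of_forall fun v => ?_)
    by_cases hv : τ ^ 2 < ‖v‖
    · simp [sc_zero h0 m h1 v hv]
    · have : b v = 1 := b.one_of_mem_closedBall (mem_closedBall_zero_iff.2 (by
        show ‖v‖ ≤ 1 / 8
        nlinarith [not_lt.1 hv]))
      simp only [this]
      ring
  have h := sc_hasDeriv (int_pr hP hB hu hb (by norm_num) hφ) hσ
  simp only [neg_mul, integral_neg] at h
  rw [e (fun s h => kb_zero h) 7 σ hσ hσ']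
  refine h.congr_of_eventuallyEq ?_
  filter_upwards [Ioo_mem_nhds hσ hσ'] with τ hτ using e (fun s h => ka_zero h.le) 6 τ hτ.1 hτ.2

theorem pr_rot (hR : RadStmt) (hu : u ∈ G.F) {Q : E3 →L[ℝ] E3} (hQ : Orth Q) (f : ℝ → ℝ) (m : ℕ)
    (σ : ℝ) : G.pr (rot Q u) (sc f m σ) φ = G.pr u (sc f m σ) φ := by
  let e : E3 ≃ₗᵢ[ℝ] E3 := LinearIsometry.toLinearIsometryEquiv
    ⟨(Q : E3 →ₗ[ℝ] E3), hQ.norm_map⟩ rfl
  refine Eq.trans ?_ (integral_comp e fun v => sc f m σ v * φ (G.ex u v) * G.den u v)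
  refine integral_congr_ae (Eventually.of_forall fun v => ?_)
  obtain ⟨h1, h2⟩ := (hR n G.toFlo u hu).2.2.1 Q hQ v
  have h3 : e v = Q v := rfl
  simp only [h3, sc, hQ.norm_map, h2, Flo.ex, h1, rot_fst]

theorem pr_cont (hw : Ker w r M) (hφ : Continuous φ) : Continuous fun u => G.pr u w φ := by
  have h2 : ∀ u, G.pr u w φ = ∫ v in closedBall (0 : E3) r, w v * φ (G.ex u v) * G.den u v :=
    fun u => (setIntegral_eq_integral_of_forall_compl_eq_zero fun v hv => by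
      rw [hw.out v (by simpa using hv), zero_mul, zero_mul]).symm
  simp only [h2]
  exact continuous_parametric_integral_of_continuous
    (((hw.sm.continuous.comp continuous_snd).mul (hφ.comp G.contDiff_ex₂.continuous)).mul
      G.contDiff_den₂.continuous) (isCompact_closedBall 0 r)

theorem pr_contOn (hP : PushStmt) (hB : G.Bd 0 1) (hρ : ρ ≤ 1 / 4) (hI : G.Inj ρ)
    (hw : Ker w r M) (hr : r < ρ) (hφ : Integrable φ G.mu) :
    ContinuousOn (fun u => G.pr u w φ) G.F := by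
  refine continuousOn_of_uniform_approx_of_continuousOn fun U hU => ?_
  obtain ⟨ε, hε, hU⟩ := mem_uniformity_dist.1 hU
  have hM : 0 ≤ M := (abs_nonneg _).trans (hw.bd 0)
  obtain ⟨g, hg, hg'⟩ := hφ.exists_boundedContinuous_integral_sub_le
    (ε := ε / (M + 1)) (by positivity)
  refine ⟨_, (pr_cont (G := G) hw g.continuous).continuousOn, fun u hu => hU ?_⟩
  have h1 := pr_L1 hP hB hρ hI hu hw hr (hφ.sub hg')
  have h2 : G.pr u w (φ - g) = G.pr u w φ - G.pr u w g := by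
    rw [Flo.pr, Flo.pr, Flo.pr, ← integral_sub (int_pr hP hB hu hw (hr.trans_le hρ) hφ)
      (int_pr hP hB hu hw (hr.trans_le hρ) hg')]
    simp only [Pi.sub_apply, mul_sub, sub_mul]
  rw [Real.dist_eq, ← h2]
  refine h1.trans_lt ((mul_le_mul_of_nonneg_left hg hM).trans_lt ?_)
  rw [← mul_div_assoc, div_lt_iff₀ (by positivity)]
  linarith

theorem lip (hR : RadStmt) (hI : InjStmt) (hM : MPStmt) (hP : PushStmt) (hU : UB2Stmt)
    (hB : G.Bd 0 1) (hρ0 : 0 < ρ) (hρ : ρ ≤ 1 / 4) (hJ : G.Inj ρ) :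
    ∃ L, 0 ≤ L ∧ ∀ (φ : Amb n → ℝ) (lam : ℝ), 0 ≤ lam → MemLp φ 2 G.mu → G.ms φ φ ≤ 1 →
      G.Weak φ lam → ∀ u ∈ G.F, |G.pr u (sc ka 6 (ρ / 2)) φ| ≤ L ∧
        ∀ σ ∈ Ioc 0 (ρ / 2), ∀ τ ∈ Ioc 0 (ρ / 2),
          |G.pr u (sc ka 6 τ) φ - G.pr u (sc ka 6 σ) φ| ≤ L * (1 + lam) * |τ - σ| := by
  obtain ⟨M, hM0, hb⟩ := exists_M
  obtain ⟨C, hC, hD⟩ := D_bd hR hI hU hB
  have hV : 0 ≤ V1 := measureReal_nonneg
  have a1 : 0 ≤ 2 * M ^ 2 * V1 := by positivity
  have a2 : 0 ≤ 2 * (2 * M * C) ^ 2 * V1 := by positivity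
  have a3 : 0 ≤ 2 * ((ρ / 2)⁻¹ ^ 3 * M) ^ 2 * V1 := by positivity
  have hs : ∀ σ ∈ Ioc 0 (ρ / 2), σ ^ 2 < ρ := fun σ h => by nlinarith [h.1, h.2]
  refine ⟨1 + 2 * M ^ 2 * V1 + 2 * (2 * M * C) ^ 2 * V1 + 2 * ((ρ / 2)⁻¹ ^ 3 * M) ^ 2 * V1,
    by positivity, fun φ lam hl h2 h1 hW u hu => ⟨?_, fun σ hσ τ hτ => ?_⟩⟩
  · have k := sc_ker ka_sm (fun s h => ka_zero h.le) (fun s h => (hb s h).1) 6 (half_pos hρ0)
    rw [show (6 : ℕ) = 3 + 3 from rfl, pow_add, mul_assoc] at k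
    have := pr_L2 hR hP hB hρ hJ hu (half_pos hρ0) k (hs _ ⟨half_pos hρ0, le_rfl⟩) h2 h1
    linarith
  have hi := h2.integrable one_le_two
  refine (convex_Ioc 0 (ρ / 2)).norm_image_sub_le_of_norm_hasDerivWithin_le
    (f := fun τ => G.pr u (sc ka 6 τ) φ) (f' := fun σ => -G.pr u (sc kb 7 σ) φ)
    (fun x hx => (pr_deriv hP hB hu hi hx.1 (by linarith [hx.2])).hasDerivWithinAt)
    (fun x hx => ?_) hσ hτ
  have x4 := (hs x hx).trans_le hρ
  have k1 := sc_ker Ka_sm (fun s h => Ka_zero h.le) (fun s h => (hb s h).2.1) 3 hx.1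
  have k2 := sc_ker kb_sm (fun s h => kb_zero h) (fun s h => (hb s h).2.2) 7 hx.1
  have k3 := err_ker hR hM hB hu hx.1 x4 hM0 (fun s h => (hb s h).1) hC (hD u hu)
  have b1 := pr_L2 hR hP hB hρ hJ hu hx.1 k1 (hs x hx) h2 h1
  have b3 := pr_L2 hR hP hB hρ hJ hu hx.1 k3 (hs x hx) h2 h1
  have e1 := pr_lap hR hM hP hB hu k1 x4 hi hW
  have e2 : G.pr u (G.Lap u (sc Ka 3 x)) φ =
      G.pr u (fun v => G.Lap u (sc Ka 3 x) v - sc kb 7 x v) φ + G.pr u (sc kb 7 x) φ := by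
    rw [Flo.pr, Flo.pr, Flo.pr, ← integral_add (int_pr hP hB hu k3 x4 hi)
      (int_pr hP hB hu k2 x4 hi)]
    congr 1
    funext v
    ring
  have e3 : -G.pr u (sc kb 7 x) φ =
      G.pr u (fun v => G.Lap u (sc Ka 3 x) v - sc kb 7 x v) φ + lam * G.pr u (sc Ka 3 x) φ := by
    linarith
  rw [e3, Real.norm_eq_abs]
  refine (abs_add_le _ _).trans ?_
  rw [abs_mul, abs_of_nonneg hl]
  nlinarith [mul_le_mul_of_nonneg_left b1 hl, mul_nonneg hl a2, mul_nonneg hl a3]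

end

section
variable {G : Geo n} {φ : Amb n → ℝ}

theorem Phi_cont (hR : RadStmt) (hφ : Integrable φ G.mu) (hm : Measurable φ)
    {c : Fr n × E3 → ℝ} (hc : Continuous c) :
    (∀ v, Integrable (fun u => c (u, v) * φ (G.ex u v)) G.nu) ∧
      Continuous fun v => ∫ u, c (u, v) * φ (G.ex u v) ∂G.nu := by
  have p0 : MeasurePreserving Prod.fst G.nu G.mu := ⟨measurable_fst, G.lift.fst⟩
  have i0 : Integrable (fun u : Fr n => φ u.1) G.nu := p0.integrable_comp_of_integrable hφ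
  have p1 : ∀ v, MeasurePreserving (fun u => G.Ex u v) G.nu G.nu := fun v =>
    ⟨(G.contDiff_Ex_left v).continuous.measurable, G.pres v⟩
  refine ⟨fun v => ?_, ?_⟩
  · have hc' : Continuous fun u => c (u, v) := hc.comp (continuous_id.prodMk continuous_const)
    obtain ⟨B, hB⟩ := G.cptF.exists_bound_of_continuousOn hc'.continuousOn
    exact ((p1 v).integrable_comp_of_integrable i0).bdd_mul hc'.aestronglyMeasurable
      (G.ae_F.mono hB)
  have hd : Continuous fun z : Fr n × E3 => c (G.Ex z.1 (-z.2), z.2) :=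
    hc.comp ((G.smEx.continuous.comp (continuous_fst.prodMk continuous_snd.neg)).prodMk
      continuous_snd)
  have hm' : ∀ v, Measurable fun u : Fr n => c (G.Ex u (-v), v) * φ u.1 := fun v =>
    (hd.comp (continuous_id.prodMk continuous_const)).measurable.mul (hm.comp measurable_fst)
  have e : ∀ v, ∫ u, c (u, v) * φ (G.ex u v) ∂G.nu = ∫ u, c (G.Ex u (-v), v) * φ u.1 ∂G.nu := by
    intro v
    conv_rhs => rw [← G.pres v]
    rw [integral_map (p1 v).measurable.aemeasurable (hm' v).aestronglyMeasurable]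
    refine G.integral_congr_F fun u hu => ?_
    have := (hR n G.toFlo u hu).2.1 v 1 (-1)
    simp only [one_smul, neg_smul, add_neg_cancel, zero_smul, G.Ex_zero] at this
    simp only [this, Flo.ex]
  simp only [e]
  refine continuous_iff_continuousAt.2 fun v => ?_
  obtain ⟨B, hB⟩ := (G.cptF.prod (isCompact_closedBall v 1)).exists_bound_of_continuousOn
    hd.continuousOn
  refine continuousAt_of_dominated (bound := fun u => B * ‖φ u.1‖)
    (Eventually.of_forall fun x => (hm' x).aestronglyMeasurable) ?_ (i0.norm.const_mul B)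
    (Eventually.of_forall fun u => ?_)
  · filter_upwards [closedBall_mem_nhds v one_pos] with x hx
    refine G.ae_F.mono fun u hu => ?_
    rw [norm_mul]
    exact mul_le_mul_of_nonneg_right (hB (u, x) ⟨hu, hx⟩) (norm_nonneg _)
  · exact ((hd.comp (continuous_const.prodMk continuous_id)).mul continuous_const).continuousAt

theorem weak_lim (hR : RadStmt) (hB : G.Bd 0 1) (hφ : Integrable φ G.mu) (hm : Measurable φ)
    {g : Amb n → ℝ} (hg : Continuous g) :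
    Tendsto (fun σ => ∫ u, g u.1 * G.pr u (sc ka 6 σ) φ ∂G.nu) (𝓝[>] 0)
      (𝓝 (c0 * ∫ p, g p * φ p ∂G.mu)) := by
  have hc : Continuous fun z : Fr n × E3 => g z.1.1 * G.den z.1 z.2 :=
    (hg.comp (continuous_fst.comp continuous_fst)).mul G.contDiff_den₂.continuous
  obtain ⟨i1, c1⟩ := Phi_cont hR hφ hm hc
  obtain ⟨-, c2⟩ := Phi_cont hR hφ.norm hm.norm hc.norm
  have h := sc_lim c1
  have e0 : ∫ u, g u.1 * G.den u 0 * φ (G.ex u 0) ∂G.nu = ∫ p, g p * φ p ∂G.mu := by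
    rw [← G.integral_fst (f := fun p => g p * φ p) (hg.aestronglyMeasurable.mul hφ.1)]
    refine G.integral_congr_F fun u hu => ?_
    simp [(den_zero hR hB hu).1]
  simp only [e0] at h
  refine h.congr' ?_
  filter_upwards [self_mem_nhdsWithin] with σ hσ
  have hk := (sc_sm ka_sm 6 σ).continuous
  have z := sc_zero (fun s h => ka_zero h.le) 6 hσ
  have hi : Integrable (Function.uncurry fun (u : Fr n) (v : E3) =>
      sc ka 6 σ v * (g u.1 * G.den u v * φ (G.ex u v))) (G.nu.prod volume) := by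
    refine (integrable_prod_iff' ?_).2
      ⟨Eventually.of_forall fun v => (i1 v).const_mul (sc ka 6 σ v), ?_⟩
    · exact ((hk.comp continuous_snd).measurable.mul (hc.measurable.mul
        (hm.comp G.contDiff_ex₂.continuous.measurable))).aestronglyMeasurable
    · simp only [Function.uncurry_apply_pair, norm_mul _ (_ * φ _), norm_mul _ (φ _),
        integral_const_mul]
      exact (hk.norm.mul c2).integrable_of_hasCompactSupport
        (supp_cpt (r := σ ^ 2) fun v hv => by simp [z v hv])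
  have h2 := integral_integral_swap hi
  simp only [integral_const_mul] at h2
  rw [← h2]
  congr 1
  funext u
  rw [Flo.pr, ← integral_const_mul]
  congr 1
  funext v
  ring

theorem descend {A : Fr n → ℝ} (hA : ContinuousOn A G.F)
    (hr : ∀ u ∈ G.F, ∀ Q, Orth Q → A (rot Q u) = A u) :
    ∃ ph : Amb n → ℝ, Continuous ph ∧ ∀ u ∈ G.F, ph u.1 = A u := by
  have : CompactSpace G.F := isCompact_iff_compactSpace.1 G.cptF
  let π : G.F → G.S := fun u => ⟨u.1.1, u.2.1⟩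
  have h1 : Continuous π := (continuous_fst.comp continuous_subtype_val).subtype_mk _
  choose s hs hs' using G.frame
  have h2 : Function.Surjective π := fun p => ⟨⟨s p p.2, hs p p.2⟩, Subtype.ext (hs' p p.2)⟩
  have h3 : ∀ u : G.F, A (s (π u) (π u).2) = A u := fun u => by
    obtain ⟨Q, hQ, e⟩ := G.fiber u u.2 _ (hs _ (π u).2) (hs' _ (π u).2).symm
    rw [e, hr u u.2 Q hQ]
  have h4 : Continuous fun p : G.S => A (s p p.2) :=
    (h1.isClosedMap.isQuotientMap h1 h2).continuous_iff.2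
      ((continuousOn_iff_continuous_domRestrict.1 hA).congr fun u => (h3 u).symm)
  obtain ⟨g, hg⟩ := ContinuousMap.exists_restrict_eq G.cpt.isClosed ⟨_, h4⟩
  exact ⟨g, g.continuous, fun u hu =>
    (congrArg (fun f : C(G.S, ℝ) => f (π ⟨u, hu⟩)) hg).trans (h3 ⟨u, hu⟩)⟩

theorem main (hR : RadStmt) (hI : InjStmt) (hM : MPStmt) (hP : PushStmt) (hU : UB2Stmt)
    (hB : G.Bd 0 1) : ∃ L, 0 ≤ L ∧ ∀ (φ : Amb n → ℝ) (lam : ℝ), 0 ≤ lam → Measurable φ →
      MemLp φ 2 G.mu → G.ms φ φ ≤ 1 → G.Weak φ lam → ∃ ph : Amb n → ℝ, Continuous ph ∧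
        ph =ᵐ[G.mu] φ ∧ ∀ p ∈ G.S, |ph p| ≤ L * (1 + lam) := by
  obtain ⟨K, hK⟩ := hI.1 n G.toCon
  obtain ⟨ρ, hρ0, hρ, hJ⟩ := hI.2.2 K
  replace hJ := hJ n G.toFlo hB hK
  obtain ⟨L, hL, hl⟩ := lip hR hI hM hP hU hB hρ0 hρ hJ
  obtain ⟨M, -, hb⟩ := exists_M
  have hc := c0_pos
  refine ⟨2 * L / c0, by positivity, fun φ lam hlam hm h2 h1 hW => ?_⟩
  replace hl := hl φ lam hlam h2 h1 hW
  have hi := h2.integrable one_le_two
  have hL' : 0 ≤ L * (1 + lam) := by positivity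
  let s : ℕ → ℝ := fun k => ρ / 2 * (1 / (k + 1))
  have s0 : s 0 = ρ / 2 := by simp [s]
  have s1 : ∀ k m, k ≤ m → s m ≤ s k := fun k m h => by
    simp only [s]
    gcongr
  have s2 : ∀ k, s k ∈ Ioc 0 (ρ / 2) := fun k =>
    ⟨by simp only [s]; positivity, s0 ▸ s1 0 k k.zero_le⟩
  have s3 : Tendsto s atTop (𝓝 0) := by
    simpa only [mul_zero] using
      (tendsto_one_div_add_atTop_nhds_zero_nat (𝕜 := ℝ)).const_mul (ρ / 2)
  have s4 : Tendsto (fun k => L * (1 + lam) * s k) atTop (𝓝 0) := by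
    simpa using s3.const_mul (L * (1 + lam))
  let a : ℕ → Fr n → ℝ := fun k u => G.pr u (sc ka 6 (s k)) φ
  have a1 : ∀ u ∈ G.F, ∀ k m, k ≤ m → dist (a k u) (a m u) ≤ L * (1 + lam) * s k :=
    fun u hu k m h => ((hl u hu).2 _ (s2 m) _ (s2 k)).trans (mul_le_mul_of_nonneg_left
      (abs_le.2 ⟨by linarith [s1 k m h, (s2 k).1], by linarith [(s2 m).1]⟩) hL')
  let A : Fr n → ℝ := fun u => limUnder atTop fun k => a k u
  have a2 : ∀ u ∈ G.F, Tendsto (fun k => a k u) atTop (𝓝 (A u)) := fun u hu =>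
    (cauchySeq_of_le_tendsto_0' _ (a1 u hu) s4).tendsto_limUnder
  have a3 : ∀ u ∈ G.F, ∀ k, dist (a k u) (A u) ≤ L * (1 + lam) * s k := fun u hu k =>
    le_of_tendsto (tendsto_const_nhds.dist (a2 u hu))
      ((eventually_ge_atTop k).mono fun m h => a1 u hu k m h)
  have a4 : ∀ k, ContinuousOn (a k) G.F := fun k =>
    pr_contOn hP hB hρ hJ
      (sc_ker ka_sm (fun s h => ka_zero h.le) (fun s h => (hb s h).1) 6 (s2 k).1)
      (by nlinarith [(s2 k).1, (s2 k).2]) hi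
  have a5 : TendstoUniformlyOn a A atTop G.F := Metric.tendstoUniformlyOn_iff.2 fun ε hε =>
    (s4.eventually (gt_mem_nhds hε)).mono fun k hk u hu =>
      (dist_comm _ _).trans_lt ((a3 u hu k).trans_lt hk)
  have a6 : ContinuousOn A G.F := a5.continuousOn (Frequently.of_forall a4)
  obtain ⟨ph, hph, e⟩ := descend a6 fun u hu Q hQ => by simp only [A, a, pr_rot hR hu hQ]
  have a7 : ∀ u ∈ G.F, ∀ k, |a k u| ≤ 2 * L * (1 + lam) := fun u hu k => by
    have b1 := a1 u hu 0 k k.zero_le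
    have b2 : |a 0 u| ≤ L := by simpa only [a, s0] using (hl u hu).1
    rw [s0, Real.dist_eq, abs_le] at b1
    rw [abs_le] at b2 ⊢
    constructor <;> nlinarith [b1.1, b1.2, b2.1, b2.2, mul_nonneg hL hlam]
  refine ⟨fun p => ph p / c0, hph.div_const _, ?_, fun p hp => ?_⟩
  · refine ae_eq_of_integral_contDiff_smul_eq
      (G.integrable_mu (hph.div_const _).continuousOn).locallyIntegrable hi.locallyIntegrable
      fun g hg _ => ?_
    have hg' := hg.continuous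
    obtain ⟨B, hB'⟩ := G.cpt.exists_bound_of_continuousOn hg'.continuousOn
    have t1 := (weak_lim hR hB hi hm hg').comp
      (tendsto_nhdsWithin_iff.2 ⟨s3, Eventually.of_forall fun k => (s2 k).1⟩)
    have t2 : Tendsto (fun k => ∫ u, g u.1 * a k u ∂G.nu) atTop (𝓝 (∫ u, g u.1 * A u ∂G.nu)) :=
      tendsto_integral_of_dominated_convergence (fun _ => B * (2 * L * (1 + lam)))
        (fun k => (G.integrable_nu ((hg'.comp continuous_fst).continuousOn.mul (a4 k))).1)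
        (integrable_const _)
        (fun k => G.ae_F.mono fun u hu => by
          rw [norm_mul]
          exact mul_le_mul (hB' _ hu.1) (a7 u hu k) (norm_nonneg _)
            ((norm_nonneg _).trans (hB' _ hu.1)))
        (G.ae_F.mono fun u hu => (a2 u hu).const_mul _)
    have t3 := tendsto_nhds_unique t2 t1
    have t4 : ∫ u, g u.1 * A u ∂G.nu = ∫ p, g p * ph p ∂G.mu := by
      rw [← G.integral_fst (f := fun p => g p * ph p) (hg'.mul hph).aestronglyMeasurable]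
      exact G.integral_congr_F fun u hu => by simp only [e u hu]
    simp only [smul_eq_mul, ← mul_div_assoc, integral_div]
    rw [← t4, t3, mul_div_cancel_left₀ _ hc.ne']
  · obtain ⟨u, hu, rfl⟩ := G.frame p hp
    have b : |A u| ≤ 2 * L * (1 + lam) :=
      le_of_tendsto (a2 u hu).abs (Eventually.of_forall (a7 u hu))
    beta_reduce
    rw [e u hu, abs_div, abs_of_pos hc, div_mul_eq_mul_div]
    gcongr

end

end SpB

theorem spB_holds (hR : RadStmt) (hI : InjStmt) (hM : MPStmt) (hP : PushStmt) (hU : UB2Stmt) :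
    SpBStmt := fun n G hB => by
  obtain ⟨L, hL, h⟩ := SpB.main hR hI hM hP hU hB
  refine ⟨fun t => L * (1 + t⁻¹), fun φ lam hl h2 h1 hW => ?_⟩
  have e : φ =ᵐ[G.mu] h2.1.mk φ := h2.1.ae_eq_mk
  have e1 : ∀ f, G.ms f (h2.1.mk φ) = G.ms f φ := fun f =>
    integral_congr_ae (e.mono fun p hp => by simp only [hp])
  obtain ⟨ph, c, a, b⟩ := h (h2.1.mk φ) lam hl h2.1.stronglyMeasurable_mk.measurable
    (h2.ae_eq e) (by rwa [e1, G.ms_comm, e1]) fun f K hf hK hfK => by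
      rw [e1, e1]
      exact hW f K hf hK hfK
  refine ⟨ph, c, a.trans e.symm, fun t ht p hp => (b p hp).trans ?_⟩
  have x1 : 1 ≤ Real.exp (lam * t) := Real.one_le_exp (by positivity)
  have x2 : lam ≤ t⁻¹ * Real.exp (lam * t) := by
    rw [le_inv_mul_iff₀ ht]
    linarith [Real.add_one_le_exp (lam * t), mul_comm t lam]
  rw [mul_assoc]
  exact mul_le_mul_of_nonneg_left (by linarith) hL

end Pool.Agent.Lib.MP_1a4aff_gt.I3
end

-- part Pool.Agent.Lib.MP_1a4aff_gt.I3.SpD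
section

/-! The spectral theorem: a basis of continuous eigenfunctions. -/

set_option autoImplicit false

open MeasureTheory Set Filter Topology
open scoped ContDiff RealInnerProductSpace ENNReal

namespace Pool.Agent.Lib.MP_1a4aff_gt.I3

namespace SpD

variable {n : ℕ}

/-- smooth functions -/
def Sm (n : ℕ) : Submodule ℝ (Amb n → ℝ) where
  carrier := {f | ContDiff ℝ ∞ f}
  add_mem' := fun {a b} (ha : ContDiff ℝ ∞ a) (hb : ContDiff ℝ ∞ b) => ContDiff.add ha hb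
  zero_mem' := (contDiff_const : ContDiff ℝ ∞ fun _ : Amb n => (0 : ℝ))
  smul_mem' := fun c f (h : ContDiff ℝ ∞ f) => ContDiff.const_smul c h

theorem sm (f : Sm n) : ContDiff ℝ ∞ f.1 := f.2

theorem memLp (G : Geo n) {f : Amb n → ℝ} (hf : Continuous f) : MemLp f 2 G.mu :=
  (memLp_two_iff_integrable_sq hf.aestronglyMeasurable).2
    (G.integrable_mu (hf.pow 2).continuousOn)

/-- the class of a smooth function -/
noncomputable def io (G : Geo n) : Sm n →ₗ[ℝ] Lp ℝ 2 G.mu where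
  toFun f := (memLp G (sm f).continuous).toLp f.1
  map_add' f g := MemLp.toLp_add (memLp G (sm f).continuous) (memLp G (sm g).continuous)
  map_smul' c f := MemLp.toLp_const_smul c (memLp G (sm f).continuous)

theorem io_ae (G : Geo n) (f : Sm n) : (io G f : Amb n → ℝ) =ᵐ[G.mu] f.1 :=
  MemLp.coeFn_toLp (memLp G (sm f).continuous)

theorem inner_eq (G : Geo n) (a b : Lp ℝ 2 G.mu) {f h : Amb n → ℝ} (ha : a =ᵐ[G.mu] f)
    (hb : b =ᵐ[G.mu] h) : ⟪a, b⟫ = G.ms f h := by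
  rw [L2.inner_def, Geo.ms]
  refine integral_congr_ae ?_
  filter_upwards [ha, hb] with p h1 h2
  simp [h1, h2, mul_comm]

theorem normSq_io (G : Geo n) (f : Sm n) : ‖io G f‖ ^ 2 = G.ms f.1 f.1 := by
  rw [← real_inner_self_eq_norm_sq, inner_eq G _ _ (io_ae G f) (io_ae G f)]

theorem cont_d {f : Amb n → ℝ} (hf : ContDiff ℝ ∞ f) (c : Fin 3) :
    Continuous fun u : Fr n => fderiv ℝ f u.1 (u.2 (ee c)) :=
  ((hf.continuous_fderiv (by simp)).comp continuous_fst).clm_apply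
    (continuous_snd.clm_apply continuous_const)

theorem int_en (G : Geo n) {f h : Amb n → ℝ} (hf : ContDiff ℝ ∞ f) (hh : ContDiff ℝ ∞ h) :
    Integrable (fun u : Fr n =>
      ∑ c, fderiv ℝ f u.1 (u.2 (ee c)) * fderiv ℝ h u.1 (u.2 (ee c))) G.nu :=
  G.integrable_nu (continuous_finsetSum _ fun c _ =>
    (cont_d hf c).mul (cont_d hh c)).continuousOn

theorem en_add (G : Geo n) (f g h : Sm n) :
    G.en (f + g).1 h.1 = G.en f.1 h.1 + G.en g.1 h.1 := by
  unfold Geo.en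
  rw [← integral_add (int_en G (sm f) (sm h)) (int_en G (sm g) (sm h))]
  refine integral_congr_ae (Eventually.of_forall fun u => ?_)
  have : fderiv ℝ (f + g).1 u.1 = fderiv ℝ f.1 u.1 + fderiv ℝ g.1 u.1 :=
    fderiv_add ((sm f).differentiable (by simp) _) ((sm g).differentiable (by simp) _)
  simp only [this, add_apply, add_mul, Finset.sum_add_distrib]

theorem en_smul (G : Geo n) (c : ℝ) (f h : Sm n) :
    G.en (c • f).1 h.1 = c • G.en f.1 h.1 := by
  unfold Geo.en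
  rw [smul_eq_mul, ← integral_const_mul]
  refine integral_congr_ae (Eventually.of_forall fun u => ?_)
  have : fderiv ℝ (c • f).1 u.1 = c • fderiv ℝ f.1 u.1 :=
    fderiv_const_smul ((sm f).differentiable (by simp) _) c
  simp only [this, smul_apply, smul_eq_mul, Finset.mul_sum, mul_assoc]

/-- the Dirichlet form on smooth functions -/
noncomputable def qq (G : Geo n) : Sm n →ₗ[ℝ] Sm n →ₗ[ℝ] ℝ :=
  LinearMap.mk₂ ℝ (fun f h => G.en f.1 h.1) (en_add G) (en_smul G)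
    (fun f g h => by rw [G.en_comm, en_add, G.en_comm, G.en_comm h.1])
    (fun c f h => by rw [G.en_comm, en_smul, G.en_comm])

theorem qq_apply (G : Geo n) (f h : Sm n) : qq G f h = G.en f.1 h.1 := rfl

theorem qq_nonneg (G : Geo n) (f : Sm n) : 0 ≤ qq G f f :=
  integral_nonneg fun _ => Finset.sum_nonneg fun _ _ => mul_self_nonneg _

theorem MMs_eq (G : Geo n) (k : ℕ) : MMs (io G) (qq G) k = G.MM k := by
  ext L
  constructor
  · rintro ⟨W, hW, h⟩
    refine ⟨W.map (Sm n).subtype, ?_, ?_⟩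
    · rw [← hW]
      exact (Submodule.equivMapOfInjective _ (Sm n).injective_subtype W).finrank_eq.symm
    · rintro _ ⟨f, hf, rfl⟩
      obtain ⟨h1, h2⟩ := h f hf
      refine ⟨sm f, fun h0 => ?_, ?_⟩
      · have : io G f ≠ 0 := h1 fun e => h0 (by rw [e]; rfl)
        have e := normSq_io G f
        have : 0 < ‖io G f‖ ^ 2 := pow_pos (norm_pos_iff.2 this) 2
        rw [e] at this
        exact this
      · rw [normSq_io] at h2
        exact h2
  · rintro ⟨W, hW, h⟩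
    have hle : W ≤ Sm n := fun f hf => (h f hf).1
    refine ⟨W.comap (Sm n).subtype, ?_, ?_⟩
    · rw [← hW]
      exact (Submodule.comapSubtypeEquivOfLe hle).finrank_eq
    · intro f hf
      obtain ⟨-, h1, h2⟩ := h f.1 hf
      refine ⟨fun h0 e => ?_, ?_⟩
      · have := h1 fun e => h0 (Subtype.ext e)
        rw [← normSq_io, e] at this
        simp at this
      · rw [normSq_io]
        exact h2

theorem dense (G : Geo n) : DenseRange (io G) := by
  refine (Lp.dense_hasCompactSupport_contDiff (μ := G.mu) (F := ℝ) (p := 2) (by simp)).mono ?_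
  rintro f ⟨g, h1, -, h3⟩
  exact ⟨⟨g, h3⟩, Lp.ext ((io_ae G ⟨g, h3⟩).trans h1.symm)⟩

theorem weak_of (G : Geo n) {b : Lp ℝ 2 G.mu} {lam : ℝ} (h : WeakEig (io G) (qq G) b lam)
    {φ : Amb n → ℝ} (hφ : b =ᵐ[G.mu] φ) : G.Weak φ lam := by
  intro f L hf hL hfL
  set l : Lp ℝ 2 G.mu := (memLp G hL).toLp L with hl
  have hlL : l =ᵐ[G.mu] L := MemLp.coeFn_toLp _
  set F : Sm n := ⟨f, hf⟩ with hF
  rw [← inner_eq G l b hlL hφ, ← inner_eq G (io G F) b (io_ae G F) hφ]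
  set K := ‖l‖ + Real.sqrt (qq G F F + ‖io G F‖ ^ 2) with hK
  have hK0 : 0 ≤ K := by positivity
  have key : ∀ ε > 0, |⟪l, b⟫ - lam * ⟪io G F, b⟫| ≤ ε * K := fun ε hε => by
    obtain ⟨g, h1, h2⟩ := h ε hε
    have e1 : qq G g F = ⟪l, io G g⟫ := by
      rw [qq_apply, G.en_comm, inner_eq G l _ hlL (io_ae G g)]
      exact hfL g.1 (sm g)
    have h3 := h2 F
    rw [e1, real_inner_comm (io G F)] at h3
    have h4 : |⟪l, io G g - b⟫| ≤ ε * ‖l‖ :=
      (abs_real_inner_le_norm _ _).trans (by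
        rw [mul_comm]; exact mul_le_mul_of_nonneg_right h1 (norm_nonneg _))
    rw [inner_sub_right] at h4
    rw [hK, mul_add]
    have := abs_le.1 h3
    have := abs_le.1 h4
    rw [abs_le]
    constructor <;> linarith
  have : |⟪l, b⟫ - lam * ⟪io G F, b⟫| ≤ 0 := by
    refine le_of_forall_pos_le_add fun ε hε => ?_
    refine (key (ε / (K + 1)) (by positivity)).trans ?_
    rw [zero_add, div_mul_eq_mul_div, div_le_iff₀ (by positivity)]
    nlinarith
  exact sub_eq_zero.1 (abs_nonpos_iff.1 this)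

theorem summ_aux {e : ℕ → ℝ} {C : ℝ} (he : ∀ k, 0 ≤ e k)
    (hC : ∀ k : ℕ, (k : ℝ) + 1 ≤ C * (1 + e k) ^ 2) {t : ℝ} (ht : 0 < t) :
    Summable fun j => Real.exp (-(e j * t)) := by
  have hs : Summable fun j : ℕ => 1 / ((j : ℝ) + 1) ^ 2 := by
    have := (summable_nat_add_iff 1).2 (Real.summable_one_div_nat_pow.2 (by norm_num : 1 < 2))
    simpa using this
  refine Summable.of_nonneg_of_le (fun _ => (Real.exp_pos _).le) (fun j => ?_)
    (hs.mul_left (Real.exp t * (24 * C ^ 2 / t ^ 4)))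
  have h1 := Real.pow_div_factorial_le_exp ((1 + e j) * t) (by have := he j; positivity) 4
  have h0 : (0 : ℝ) < (j : ℝ) + 1 := by positivity
  have h2 : ((j : ℝ) + 1) ^ 2 ≤ (C * (1 + e j) ^ 2) ^ 2 := pow_le_pow_left₀ h0.le (hC j) 2
  have h3 : Real.exp (-(e j * t)) = Real.exp t / Real.exp ((1 + e j) * t) := by
    rw [← Real.exp_sub]; congr 1; ring
  rw [h3, mul_assoc, div_eq_mul_inv]
  refine mul_le_mul_of_nonneg_left ?_ (Real.exp_pos _).le
  rw [inv_eq_one_div, div_mul_div_comm, div_le_div_iff₀ (Real.exp_pos _) (by positivity)]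
  have h4 : ((Nat.factorial 4 : ℕ) : ℝ) = 24 := by norm_num [Nat.factorial]
  rw [h4, div_le_iff₀ (by norm_num)] at h1
  calc 1 * (t ^ 4 * ((j : ℝ) + 1) ^ 2) ≤ t ^ 4 * (C * (1 + e j) ^ 2) ^ 2 := by
        rw [one_mul]; exact mul_le_mul_of_nonneg_left h2 (by positivity)
    _ = C ^ 2 * ((1 + e j) * t) ^ 4 := by ring
    _ ≤ C ^ 2 * (Real.exp ((1 + e j) * t) * 24) := mul_le_mul_of_nonneg_left h1 (by positivity)
    _ = _ := by ring

theorem abs_approx (G : Geo n) (f : Sm n) (ε : ℝ) (hε : 0 < ε) :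
    ∃ f', qq G f' f' ≤ qq G f f ∧ ‖io G f' - |io G f|‖ ≤ ε := by
  set M : ℝ := (measureUnivNNReal G.mu : ℝ) ^ (2 : ℝ≥0∞).toReal⁻¹ with hM
  have hM0 : 0 ≤ M := by positivity
  set δ : ℝ := ε / (M + 1) with hδ
  have hδ0 : 0 < δ := by positivity
  have hp : ∀ p, 0 < f.1 p ^ 2 + δ ^ 2 := fun p => by positivity
  have hs : ContDiff ℝ ∞ fun p => Real.sqrt (f.1 p ^ 2 + δ ^ 2) :=
    (((sm f).pow 2).add contDiff_const).sqrt fun p => (hp p).ne'
  refine ⟨⟨_, hs⟩, ?_, ?_⟩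
  · refine integral_mono (int_en G hs hs) (int_en G (sm f) (sm f)) fun u => ?_
    refine Finset.sum_le_sum fun c _ => ?_
    have hd := ((sm f).differentiable (by simp) u.1).hasFDerivAt
    have h1 := ((hd.pow 2).add_const (δ ^ 2)).sqrt (hp u.1).ne'
    rw [h1.fderiv]
    set a := fderiv ℝ f.1 u.1 (u.2 (ee c))
    set x := f.1 u.1
    set s := Real.sqrt (x ^ 2 + δ ^ 2)
    have hs0 : 0 < s := Real.sqrt_pos.2 (hp u.1)
    have hs2 : s ^ 2 = x ^ 2 + δ ^ 2 := Real.sq_sqrt (hp u.1).le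
    simp only [smul_apply, smul_eq_mul]
    have e : (1 / (2 * s) * (((2 : ℕ) • x ^ (2 - 1)) * a)) = x / s * a := by
      simp; field_simp
    rw [e]
    have : (x / s) ^ 2 ≤ 1 := by
      rw [div_pow, div_le_one (by positivity), hs2]; nlinarith [sq_nonneg δ]
    nlinarith [mul_self_nonneg a]
  · refine (Lp.norm_le_of_ae_bound hδ0.le ?_).trans ?_
    · filter_upwards [Lp.coeFn_sub (io G ⟨_, hs⟩) |io G f|, Lp.coeFn_abs (io G f), io_ae G f,
        io_ae G ⟨_, hs⟩] with p h1 h2 h3 h4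
      rw [h1, Pi.sub_apply, h2, h3, h4, Real.norm_eq_abs, abs_le]
      have a1 : |f.1 p| ≤ Real.sqrt (f.1 p ^ 2 + δ ^ 2) :=
        Real.abs_le_sqrt (by nlinarith [sq_nonneg δ])
      have a2 : Real.sqrt (f.1 p ^ 2 + δ ^ 2) ≤ |f.1 p| + δ :=
        Real.sqrt_le_iff.2 ⟨by positivity, by
          nlinarith [sq_abs (f.1 p), mul_nonneg (abs_nonneg (f.1 p)) hδ0.le]⟩
      constructor <;> linarith
    · change M * δ ≤ ε
      rw [hδ, ← mul_div_assoc, div_le_iff₀ (by positivity)]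
      nlinarith

end SpD

open SpD in
theorem spec_holds (hA : SpAStmt) (hC : SpCStmt) (hN : CountStmt) (hB : SpBStmt) : SpecStmt := by
  intro n G hG
  obtain ⟨hne, C, hCt⟩ := hN n G hG
  obtain ⟨D, hD⟩ := hB n G hG
  have hsym : ∀ f h, qq G f h = qq G h f := fun f h => G.en_comm _ _
  obtain ⟨b, hb⟩ := hA (Sm n) (Lp ℝ 2 G.mu) (io G) (qq G) (dense G) hsym (qq_nonneg G)
    (fun k => by rw [MMs_eq]; exact hne k)
    (fun L => ⟨⌈C * (1 + L) ^ 2⌉₊, fun k hk => by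
      rw [MMs_eq] at hk
      have h1 := (hCt k L hk).2
      have h2 := Nat.le_ceil (C * (1 + L) ^ 2)
      have : (k : ℝ) ≤ (⌈C * (1 + L) ^ 2⌉₊ : ℕ) := by linarith
      exact_mod_cast this⟩)
  simp only [MMs_eq] at hb
  have hb' : ∀ j, WeakEig (io G) (qq G) (b j) (G.eig j) := hb
  have h0 : ∀ j, 0 ≤ G.eig j := fun j => Real.sInf_nonneg fun L hL => (hCt j L hL).1
  have hw : ∀ k : ℕ, (k : ℝ) + 1 ≤ C * (1 + G.eig k) ^ 2 := fun k => by
    have hcl : IsClosed {L : ℝ | (k : ℝ) + 1 ≤ C * (1 + L) ^ 2} :=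
      isClosed_le continuous_const (by fun_prop)
    exact closure_minimal (fun L hL => (hCt k L hL).2) hcl
      (csInf_mem_closure (hne k) ⟨0, fun L hL => (hCt k L hL).1⟩)
  have hn1 : ∀ j, ⟪b j, b j⟫ = 1 := fun j => by
    rw [real_inner_self_eq_norm_sq, b.orthonormal.norm_eq_one j]; norm_num
  choose ph hc hae hbd using fun j => hD (b j) (G.eig j) (h0 j) (Lp.memLp _)
    (by rw [← inner_eq G (b j) (b j) EventuallyEq.rfl EventuallyEq.rfl, hn1])
    (weak_of G (hb' j) EventuallyEq.rfl)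
  have hin : ∀ (f : Amb n → ℝ) (hf : Continuous f) j,
      G.ms f (ph j) = ⟪(memLp G hf).toLp f, b j⟫ := fun f hf j =>
    (inner_eq G _ _ (MemLp.coeFn_toLp _) (hae j).symm).symm
  refine ⟨⟨ph, hc, fun j => ?_, h0, fun t ht => summ_aux h0 hw ht, fun f h hf hh => ?_,
    fun j => weak_of G (hb' j) (hae j).symm, fun t ht => ?_, fun t ht h k hh hk h1 k1 => ?_⟩⟩
  · rw [← inner_eq G _ _ (hae j).symm (hae j).symm, hn1]
  · have := b.hasSum_inner_mul_inner ((memLp G hf).toLp f) ((memLp G hh).toLp h)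
    rw [inner_eq G _ _ (MemLp.coeFn_toLp _) (MemLp.coeFn_toLp _)] at this
    have e : (fun j => G.ms f (ph j) * G.ms h (ph j)) = fun i =>
        ⟪(memLp G hf).toLp f, b i⟫ * ⟪b i, (memLp G hh).toLp h⟫ := by
      funext j
      rw [hin f hf, hin h hh, real_inner_comm (b j) ((memLp G hh).toLp h)]
    rw [e]
    exact this
  · refine ⟨fun j => D (t / 4) ^ 2 * Real.exp (-(G.eig j * (t / 2))),
      (summ_aux h0 hw (half_pos ht)).mul_left _, fun j p hp => ?_⟩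
    have h1 := hbd j (t / 4) (by positivity) p hp
    have h2 : ph j p ^ 2 ≤ (D (t / 4) * Real.exp (G.eig j * (t / 4))) ^ 2 :=
      sq_le_sq' (abs_le.1 h1).1 (abs_le.1 h1).2
    refine (mul_le_mul_of_nonneg_left h2 (Real.exp_pos _).le).trans (le_of_eq ?_)
    rw [mul_pow, ← Real.exp_nat_mul, mul_left_comm, ← Real.exp_add]
    congr 2
    push_cast
    ring
  · simp only [hin h hh, hin k hk]
    refine hC (Amb n) (Sm n) G.mu (io G) (qq G) b G.eig hsym (qq_nonneg G) h0 hb'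
      (abs_approx G) t ht _ _ ?_ ?_
    · rw [← Lp.coeFn_nonneg]
      filter_upwards [(memLp G hh).coeFn_toLp, G.ae_S] with p e hp
      rw [e]; exact h1 p hp
    · rw [← Lp.coeFn_nonneg]
      filter_upwards [(memLp G hk).coeFn_toLp, G.ae_S] with p e hp
      rw [e]; exact k1 p hp

end Pool.Agent.Lib.MP_1a4aff_gt.I3
end
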