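import Mathlib

/-! Riemannian metrics on a closed manifold, their smooth topology and their Laplace spectrum. -/

set_option autoImplicit false

open MeasureTheory Set
open scoped ContDiff Manifold

namespace Pool.Agent.Lib.MP_1a4aff_gt.Iso3

variable (E : Type) [NormedAddCommGroup E] [InnerProductSpace ℝ E]
  {M : Type} [TopologicalSpace M] [ChartedSpace E M]

/-- the differential of a map between manifolds modelled on `E` -/
noncomputable def dif {N : Type} [TopologicalSpace N] [ChartedSpace E N] (f : N → M) (x : N) :
    E →L[ℝ] E :=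
  mfderiv 𝓘(ℝ, E) 𝓘(ℝ, E) f x

/-- the pull-back by `f` of a field `b` of forms on the tangent spaces -/
noncomputable def pull {N : Type} [TopologicalSpace N] [ChartedSpace E N] (b : M → E → E → ℝ)
    (f : N → M) (x : N) (v w : E) : ℝ :=
  b (f x) (dif E f x v) (dif E f x w)

/-- the coefficient `b (v, w)`, as a function of the point `y` of the chart at `x₀` -/
noncomputable def coef (b : M → E → E → ℝ) (x₀ : M) (v w : E) (y : E) : ℝ :=
  pull E b (chartAt E x₀).symm y v w

variable (M)

/-- a smooth Riemannian metric: a symmetric positive definite bilinear form on every tangent space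
whose coefficients in every chart are smooth -/
structure Met where
  inner : M → E → E → ℝ
  lin : ∀ x w, IsLinearMap ℝ fun v => inner x v w
  symm : ∀ x v w, inner x v w = inner x w v
  pos : ∀ x v, v ≠ 0 → 0 < inner x v v
  smooth : ∀ x₀ v w, ContDiffOn ℝ ∞ (coef E inner x₀ v w) (chartAt E x₀).target

variable {E M}

/-- the norm of the `k`-th derivative of `f - h` at `y` -/
noncomputable def dgap (k : ℕ) (f h : E → ℝ) (y : E) : ℝ := ‖iteratedFDeriv ℝ k (f - h) y‖

/-- the metrics whose coefficient is `ε`-close to that of `h` in the `k`-th derivative on `K` -/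
def nbhd (h : Met E M) (x₀ : M) (v w : E) (k : ℕ) (K : Set E) (ε : ℝ) : Set (Met E M) :=
  {g | ∀ y ∈ K, dgap k (coef E g.inner x₀ v w) (coef E h.inner x₀ v w) y < ε}

/-- the `C^∞` topology: uniform convergence of every derivative of the coefficients on the compact
subsets of every chart -/
instance : TopologicalSpace (Met E M) :=
  TopologicalSpace.generateFrom {U | ∃ (h : Met E M) (x₀ : M) (v w : E) (k : ℕ) (K : Set E) (ε : ℝ),
    IsCompact K ∧ K ⊆ (chartAt E x₀).target ∧ U = nbhd h x₀ v w k K ε}

/-- `g'` is the pull-back of `g` by a diffeomorphism -/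
def Isometric (g g' : Met E M) : Prop :=
  ∃ φ : Diffeomorph 𝓘(ℝ, E) 𝓘(ℝ, E) M M ∞, g'.inner = pull E g.inner φ

/-- the differential of a real function on `M` -/
noncomputable def dfun (f : M → ℝ) (x : M) : E →L[ℝ] ℝ := mfderiv 𝓘(ℝ, E) 𝓘(ℝ, ℝ) f x

/-- the squared length of the gradient of `f` at `x` -/
noncomputable def gradSq (g : Met E M) (f : M → ℝ) (x : M) : ℝ :=
  sSup {r | ∃ v : E, g.inner x v v ≤ 1 ∧ r = dfun f x v ^ 2}

variable [FiniteDimensional ℝ E] [MeasurableSpace E] [BorelSpace E] [MeasurableSpace M]

/-- an orthonormal basis of the model space -/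
noncomputable def onb (i : Fin (Module.finrank ℝ E)) : E := stdOrthonormalBasis ℝ E i

/-- the Gram determinant of a form in an orthonormal basis -/
noncomputable def gramDet (B : E → E → ℝ) : ℝ := (Matrix.of fun i j => B (onb i) (onb j)).det

/-- the measure `sqrt(det g) dy` of the chart at `x₀` -/
noncomputable def chartVol (g : Met E M) (x₀ : M) : Measure M :=
  Measure.map (chartAt E x₀).symm ((volume.restrict (chartAt E x₀).target).withDensity
    fun y => ENNReal.ofReal (Real.sqrt (gramDet fun v w => coef E g.inner x₀ v w y)))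

/-- the Riemannian volume: the chart measures glued together -/
noncomputable def vol (g : Met E M) : Measure M := ⨆ x₀ : M, chartVol g x₀

/-- the `k`-th eigenvalue (`k = 0, 1, ...`, with multiplicity) of the Laplace-Beltrami operator on
functions, by the min-max principle over spaces of smooth functions of dimension `k + 1` -/
noncomputable def eigen (g : Met E M) (k : ℕ) : ℝ :=
  sInf {L : ℝ | ∃ F : Submodule ℝ (M → ℝ), Module.finrank ℝ F = k + 1 ∧
    ∀ f ∈ F, ContMDiff 𝓘(ℝ, E) 𝓘(ℝ, ℝ) ∞ f ∧
      ∫ x, gradSq g f x ∂vol g ≤ L * ∫ x, f x ^ 2 ∂vol g}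

/-- the isospectral set of `g₀` in the space of metrics up to diffeomorphism -/
def isospectral (g₀ : Met E M) : Set (Quot (Isometric (E := E) (M := M))) :=
  Quot.mk _ '' {g | ∀ k, eigen g k = eigen g₀ k}

end Pool.Agent.Lib.MP_1a4aff_gt.Iso3
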