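import Mathlib

/-! Riemannian metrics on a closed manifold, their smooth topology and their Laplace spectrum. -/

set_option autoImplicit false

open MeasureTheory Set
open scoped ContDiff Manifold

namespace Pool.Agent.Lib.MP_1a4aff_gt.I3

variable (E : Type) [NormedAddCommGroup E] [InnerProductSpace ℝ E]
  {M : Type} [TopologicalSpace M] [ChartedSpace E M]

/-- the differential of a map between manifolds modelled on `E` -/
noncomputable def dif {N : Type} [TopologicalSpace N] [ChartedSpace E N] (f : N → M) (x : N) :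
    E →L[ℝ] E :=
  mfderiv 𝓘(ℝ, E) 𝓘(ℝ, E) f x

/-- the coefficients, in the chart at `x₀`, of a field of bilinear forms on the tangent spaces -/
noncomputable def coef (b : M → E →L[ℝ] E →L[ℝ] ℝ) (x₀ : M) (y : E) : E →L[ℝ] E →L[ℝ] ℝ :=
  (b ((chartAt E x₀).symm y)).bilinearComp (dif E (chartAt E x₀).symm y)
    (dif E (chartAt E x₀).symm y)

variable (M)

/-- a smooth Riemannian metric: a symmetric positive definite form on every tangent space whose
coefficients in every chart are smooth -/
structure Met where
  inner : M → E →L[ℝ] E →L[ℝ] ℝ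
  symm : ∀ x v w, inner x v w = inner x w v
  pos : ∀ x v, v ≠ 0 → 0 < inner x v v
  smooth : ∀ x₀, ContDiffOn ℝ ∞ (coef E inner x₀) (chartAt E x₀).target

/-- the `C^∞` topology: uniform convergence of every derivative of the coefficients on the compact
subsets of every chart -/
noncomputable instance : TopologicalSpace (Met E M) :=
  ⨅ (x₀ : M) (k : ℕ), TopologicalSpace.induced
    (fun g : Met E M => UniformOnFun.ofFun {K | IsCompact K ∧ K ⊆ (chartAt E x₀).target}
      (iteratedFDeriv ℝ k (coef E g.inner x₀))) inferInstance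

variable {E M}

/-- `g'` is the pull-back of `g` by a diffeomorphism -/
def Isometric (g g' : Met E M) : Prop :=
  ∃ φ : Diffeomorph 𝓘(ℝ, E) 𝓘(ℝ, E) M M ∞,
    ∀ x v w, g'.inner x v w = g.inner (φ x) (dif E φ x v) (dif E φ x w)

/-- the differential of a real function on `M` -/
noncomputable def dfun (f : M → ℝ) (x : M) : E →L[ℝ] ℝ := mfderiv 𝓘(ℝ, E) 𝓘(ℝ, ℝ) f x

/-- the squared length of the gradient of `f` at `x` -/
noncomputable def gradSq (g : Met E M) (f : M → ℝ) (x : M) : ℝ :=
  sSup {r | ∃ v : E, g.inner x v v ≤ 1 ∧ r = dfun f x v ^ 2}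

variable [FiniteDimensional ℝ E] [MeasurableSpace E] [BorelSpace E] [MeasurableSpace M]

/-- the Gram determinant of a bilinear form in an orthonormal basis -/
noncomputable def gramDet (B : E →L[ℝ] E →L[ℝ] ℝ) : ℝ :=
  (Matrix.of fun i j => B (stdOrthonormalBasis ℝ E i) (stdOrthonormalBasis ℝ E j)).det

/-- the measure `sqrt(det g) dy` of the chart at `x₀` -/
noncomputable def chartVol (g : Met E M) (x₀ : M) : Measure M :=
  Measure.map (chartAt E x₀).symm ((volume.restrict (chartAt E x₀).target).withDensity
    fun y => ENNReal.ofReal (Real.sqrt (gramDet (coef E g.inner x₀ y))))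

/-- the Riemannian volume: the chart measures glued together -/
noncomputable def vol (g : Met E M) : Measure M := ⨆ x₀ : M, chartVol g x₀

/-- the `k`-th eigenvalue (`k = 0, 1, ...`, with multiplicity) of the Laplace-Beltrami operator on
functions, by the min-max principle over spaces of smooth functions of dimension `k + 1` -/
noncomputable def eigen (g : Met E M) (k : ℕ) : ℝ :=
  sInf {L : ℝ | ∃ F : Submodule ℝ (M → ℝ), Module.finrank ℝ F = k + 1 ∧
    ∀ f ∈ F, ContMDiff 𝓘(ℝ, E) 𝓘(ℝ, ℝ) ∞ f ∧
      ∫ x, gradSq g f x ∂vol g ≤ L * ∫ x, f x ^ 2 ∂vol g}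

/-- the isospectral set of `g₀` in the space of metrics up to diffeomorphism -/
def isospectral (g₀ : Met E M) : Set (Quot (Isometric (E := E) (M := M))) :=
  Quot.mk _ '' {g | ∀ k, eigen g k = eigen g₀ k}

end Pool.Agent.Lib.MP_1a4aff_gt.I3
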