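import Pool.Agent.Lib.MP_1a4aff_gt.I3.Gen

-- part Pool.Agent.Lib.MP_1a4aff_gt.I3.TrB
section

/-! Second order perturbation of a heat trace on the circle. -/

set_option autoImplicit false

open MeasureTheory Set Filter Topology

namespace Pool.Agent.Lib.MP_1a4aff_gt.I3

namespace TrB

theorem hs_congr {ι E : Type} [AddCommMonoid E] [TopologicalSpace E] {f g : ι → E} {a : E}
    (h : HasSum f a) (e : ∀ j, g j = f j) : HasSum g a := (funext e : g = f) ▸ h

theorem re_self (x : ℂ) : (x * (starRingEnd ℂ) x).re = ‖x‖ ^ 2 := by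
  rw [Complex.mul_conj, Complex.sq_norm, Complex.ofReal_re]

theorem abs_re_le (x y : ℂ) : |(x * (starRingEnd ℂ) y).re| ≤ ‖x‖ * ‖y‖ := by
  refine (Complex.abs_re_le_norm _).trans (le_of_eq ?_)
  rw [norm_mul, Complex.norm_conj]

theorem re_comm (x y : ℂ) : (x * (starRingEnd ℂ) y).re = (y * (starRingEnd ℂ) x).re := by
  simp [mul_comm]

theorem amgm (x y : ℝ) {η : ℝ} (h : 0 < η) : x * y ≤ x ^ 2 / (2 * η) + η * y ^ 2 / 2 := by
  have e : x ^ 2 / (2 * η) + η * y ^ 2 / 2 - x * y = (x - η * y) ^ 2 / (2 * η) := by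
    field_simp
    ring
  have : 0 ≤ (x - η * y) ^ 2 / (2 * η) := by positivity
  linarith

theorem lip_term {l μ g M η : ℝ} {c d u : ℂ} (hη : 0 < η) (hM : 0 ≤ M) (hg : |g| ≤ M * |l - μ|)
    (he : ((l - μ : ℝ) : ℂ) * c = d) :
    |g * (c * (starRingEnd ℂ) u).re| ≤ M * (‖d‖ ^ 2 / (2 * η) + η * ‖u‖ ^ 2 / 2) := by
  have h1 : ‖d‖ = |l - μ| * ‖c‖ := by rw [← he, norm_mul, Complex.norm_real, Real.norm_eq_abs]
  rw [abs_mul]
  calc |g| * |(c * (starRingEnd ℂ) u).re| ≤ M * |l - μ| * (‖c‖ * ‖u‖) :=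
        mul_le_mul hg (abs_re_le c u) (abs_nonneg _) (by positivity)
    _ = M * (‖d‖ * ‖u‖) := by rw [h1]; ring
    _ ≤ _ := mul_le_mul_of_nonneg_left (amgm _ _ hη) hM

theorem sq_diff {d p r : ℂ} {ε : ℝ} (hε : 0 < ε) (h : d = p + r) :
    |‖d‖ ^ 2 - ‖p‖ ^ 2| ≤ ε * ‖d‖ ^ 2 + ‖r‖ ^ 2 / ε + ‖r‖ ^ 2 := by
  have e : ‖d‖ ^ 2 - ‖p‖ ^ 2 = 2 * (d * (starRingEnd ℂ) r).re - ‖r‖ ^ 2 := by
    rw [← re_self, ← re_self, ← re_self, h]
    simp
    ring
  have h1 := abs_le.1 (abs_re_le d r)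
  have h2 := amgm ‖r‖ ‖d‖ hε
  have h3 : ‖r‖ ^ 2 / (2 * ε) = ‖r‖ ^ 2 / ε / 2 := by field_simp
  rw [e]
  refine abs_le.2 ⟨?_, ?_⟩ <;> nlinarith [h1.1, h1.2, sq_nonneg ‖r‖]

theorem one_mode {lam f G : ℕ → ℝ} {c cp cm d dp dm r : ℕ → ℂ}
    {μ μp μm ε B w m M F0 F1 Gp Gm D Dp Dm R : ℝ} (hε : 0 < ε) (hε1 : ε ≤ 1) (hw : |w| ≤ B)
    (hM : 0 ≤ M) (hT : ∀ j, f j = F0 + F1 * (lam j - μ) + (lam j - μ) ^ 2 * G j)
    (hG : ∀ j, |G j| ≤ M) (hp : ∀ j, |G j - Gp| ≤ M * |lam j - μp|)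
    (hm : ∀ j, |G j - Gm| ≤ M * |lam j - μm|) (e0 : ∀ j, ((lam j - μ : ℝ) : ℂ) * c j = d j)
    (ep : ∀ j, ((lam j - μp : ℝ) : ℂ) * cp j = dp j)
    (em : ∀ j, ((lam j - μm : ℝ) : ℂ) * cm j = dm j) (s0 : HasSum (fun j => ‖c j‖ ^ 2) 1)
    (sp : HasSum (fun j => ‖cp j‖ ^ 2) 1) (sm : HasSum (fun j => ‖cm j‖ ^ 2) 1)
    (spm : HasSum (fun j => (cp j * (starRingEnd ℂ) (cm j)).re) 0)
    (sdc : HasSum (fun j => (d j * (starRingEnd ℂ) (c j)).re) m)
    (sd : HasSum (fun j => ‖d j‖ ^ 2) D) (sdp : HasSum (fun j => ‖dp j‖ ^ 2) Dp)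
    (sdm : HasSum (fun j => ‖dm j‖ ^ 2) Dm) (sr : HasSum (fun j => ‖r j‖ ^ 2) R)
    (hD : D ≤ (2 * ε * B) ^ 2) (hDp : Dp ≤ (2 * ε * B) ^ 2) (hDm : Dm ≤ (2 * ε * B) ^ 2)
    (hR : R ≤ (ε ^ 2 * B) ^ 2)
    (hd : ∀ j, d j = ((-(ε * w / 2) : ℝ) : ℂ) * (cp j + cm j) + r j) :
    ∃ E, HasSum (fun j => f j * ‖c j‖ ^ 2) E ∧
      |E - (F0 + F1 * m + ε ^ 2 * (w ^ 2 / 4) * (Gp + Gm))| ≤ 8 * M * (ε ^ 3 * (1 + B) ^ 3) := by
  have hB : 0 ≤ B := (abs_nonneg _).trans hw
  have hη : 0 < ε * (1 + B) := by positivity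
  have hw2 : w ^ 2 ≤ B ^ 2 := sq_le_sq' (neg_le_of_abs_le hw) (le_of_abs_le hw)
  have up : HasSum (fun j => (cp j * (starRingEnd ℂ) (cp j + cm j)).re) 1 := by
    have := sp.add spm
    rw [add_zero] at this
    refine hs_congr this ?_
    intro j
    rw [map_add, mul_add, Complex.add_re, re_self]
  have um : HasSum (fun j => (cm j * (starRingEnd ℂ) (cp j + cm j)).re) 1 := by
    have := spm.add sm
    rw [zero_add] at this
    refine hs_congr this ?_
    intro j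
    rw [map_add, mul_add, Complex.add_re, re_self, re_comm]
  have hu : ∀ j, ‖cp j + cm j‖ ^ 2 = (cp j * (starRingEnd ℂ) (cp j + cm j)).re +
      (cm j * (starRingEnd ℂ) (cp j + cm j)).re := fun j => by
    rw [← re_self, add_mul, Complex.add_re]
  have su : HasSum (fun j => ‖cp j + cm j‖ ^ 2) (1 + 1) := by
    simp only [hu]
    exact up.add um
  let e : ℕ → ℝ := fun j => G j * (‖d j‖ ^ 2 - ‖((-(ε * w / 2) : ℝ) : ℂ) * (cp j + cm j)‖ ^ 2) +
    ε ^ 2 * (w ^ 2 / 4) * ((G j - Gp) * (cp j * (starRingEnd ℂ) (cp j + cm j)).re +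
      (G j - Gm) * (cm j * (starRingEnd ℂ) (cp j + cm j)).re)
  have hb := (((sd.mul_left ε).add (sr.div_const ε)).add sr).mul_left M |>.add
    (((((sdp.div_const (2 * (ε * (1 + B)))).add ((su.mul_left (ε * (1 + B))).div_const 2)).mul_left
      M).add (((sdm.div_const (2 * (ε * (1 + B)))).add
        ((su.mul_left (ε * (1 + B))).div_const 2)).mul_left M)).mul_left (ε ^ 2 * (B ^ 2 / 4)))
  have he : ∀ j, ‖e j‖ ≤ M * (ε * ‖d j‖ ^ 2 + ‖r j‖ ^ 2 / ε + ‖r j‖ ^ 2) + ε ^ 2 * (B ^ 2 / 4) *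
      (M * (‖dp j‖ ^ 2 / (2 * (ε * (1 + B))) + ε * (1 + B) * ‖cp j + cm j‖ ^ 2 / 2) +
        M * (‖dm j‖ ^ 2 / (2 * (ε * (1 + B))) + ε * (1 + B) * ‖cp j + cm j‖ ^ 2 / 2)) := by
    intro j
    rw [Real.norm_eq_abs]
    refine (abs_add_le _ _).trans (add_le_add ?_ ?_)
    · rw [abs_mul]
      exact mul_le_mul (hG j) (sq_diff hε (hd j)) (abs_nonneg _) hM
    · rw [abs_mul, abs_of_nonneg (by positivity : 0 ≤ ε ^ 2 * (w ^ 2 / 4))]
      refine mul_le_mul (by gcongr) ((abs_add_le _ _).trans (add_le_add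
        (lip_term hη hM (hp j) (ep j)) (lip_term hη hM (hm j) (em j)))) (abs_nonneg _)
        (by positivity)
  have hs : Summable e := Summable.of_norm_bounded hb.summable he
  have hn := hs.hasSum.norm_le_of_bounded hb he
  have hmain := (((s0.mul_left F0).add (sdc.mul_left F1)).add
    (((up.mul_left Gp).add (um.mul_left Gm)).mul_left (ε ^ 2 * (w ^ 2 / 4)))).add hs.hasSum
  refine ⟨_, hs_congr hmain fun j => ?_, ?_⟩
  · have a1 : (d j * (starRingEnd ℂ) (c j)).re = (lam j - μ) * ‖c j‖ ^ 2 := by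
      rw [← e0 j, mul_assoc, Complex.re_ofReal_mul, re_self]
    have a2 : ‖d j‖ ^ 2 = (lam j - μ) ^ 2 * ‖c j‖ ^ 2 := by
      rw [← e0 j, norm_mul, Complex.norm_real, mul_pow, Real.norm_eq_abs, sq_abs]
    have a3 : ‖((-(ε * w / 2) : ℝ) : ℂ) * (cp j + cm j)‖ ^ 2 =
        ε ^ 2 * (w ^ 2 / 4) * ‖cp j + cm j‖ ^ 2 := by
      rw [norm_mul, Complex.norm_real, mul_pow, Real.norm_eq_abs, sq_abs]
      ring
    simp only [e, a1, a2, a3, hT, hu]
    ring
  · rw [Real.norm_eq_abs] at hn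
    rw [mul_one, mul_one, mul_one, add_sub_cancel_left]
    refine hn.trans ?_
    have b1 : R / ε ≤ ε ^ 3 * B ^ 2 := by
      rw [div_le_iff₀ hε]
      linarith
    have b2 : R ≤ ε ^ 3 * B ^ 2 := by
      have : ε ^ 4 ≤ ε ^ 3 := pow_le_pow_of_le_one hε.le hε1 (by norm_num)
      nlinarith [sq_nonneg B]
    have b3 : ∀ X, X ≤ (2 * ε * B) ^ 2 → X / (2 * (ε * (1 + B))) ≤ 2 * ε * (1 + B) := by
      intro X hX
      rw [div_le_iff₀ (by positivity)]
      nlinarith [mul_nonneg hε.le hB, sq_nonneg ε]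
    have b4 : ε * D ≤ 4 * ε ^ 3 * B ^ 2 := by nlinarith
    have b5 : B ^ 2 ≤ (1 + B) ^ 2 := by nlinarith
    have b6 : (1 + B) ^ 2 ≤ (1 + B) ^ 3 := pow_le_pow_right₀ (by linarith) (by norm_num)
    have b7 : ε * D + R / ε + R ≤ 6 * (ε ^ 3 * (1 + B) ^ 3) := by
      have : ε ^ 3 * B ^ 2 ≤ ε ^ 3 * (1 + B) ^ 3 :=
        mul_le_mul_of_nonneg_left (b5.trans b6) (by positivity)
      linarith
    have b8 : ε ^ 2 * (B ^ 2 / 4) * (M * (Dp / (2 * (ε * (1 + B))) + ε * (1 + B) * (1 + 1) / 2) +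
        M * (Dm / (2 * (ε * (1 + B))) + ε * (1 + B) * (1 + 1) / 2)) ≤
        ε ^ 2 * ((1 + B) ^ 2 / 4) * (M * (3 * (ε * (1 + B))) + M * (3 * (ε * (1 + B)))) := by
      have c1 := b3 Dp hDp
      have c2 := b3 Dm hDm
      have c3 : 0 ≤ Dp := sdp.nonneg fun _ => sq_nonneg _
      have c4 : 0 ≤ Dm := sdm.nonneg fun _ => sq_nonneg _
      gcongr <;> linarith
    have b9 := mul_le_mul_of_nonneg_left b7 hM
    have b10 : 0 ≤ M * (ε ^ 3 * (1 + B) ^ 3) := by positivity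
    nlinarith

/-- The remainder in the Taylor formula of order two for the exponential. -/
noncomputable def GG (t μ x : ℝ) : ℝ :=
  ∫ s in (0 : ℝ)..1, (1 - s) * t ^ 2 * Real.exp (-(t * ((1 - s) * μ + s * x)))

theorem taylor (t μ x : ℝ) : Real.exp (-(x * t)) =
    Real.exp (-(t * μ)) + -(t * Real.exp (-(t * μ))) * (x - μ) + (x - μ) ^ 2 * GG t μ x := by
  have h : ∀ s, HasDerivAt (fun s => (1 - (1 - s) * t * (x - μ)) *
      Real.exp (-(t * ((1 - s) * μ + s * x))))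
      ((x - μ) ^ 2 * ((1 - s) * t ^ 2 * Real.exp (-(t * ((1 - s) * μ + s * x))))) s := by
    intro s
    have h1 : HasDerivAt (fun s => 1 - (1 - s) * t * (x - μ)) (t * (x - μ)) s := by
      have := ((((hasDerivAt_id s).const_sub 1).mul_const t).mul_const (x - μ)).const_sub 1
      exact this.congr_deriv (by ring)
    have h2 : HasDerivAt (fun s => -(t * ((1 - s) * μ + s * x))) (-(t * (x - μ))) s := by
      have := (((((hasDerivAt_id s).const_sub 1).mul_const μ).add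
        ((hasDerivAt_id s).mul_const x)).const_mul t).neg
      exact this.congr_deriv (by ring)
    exact (h1.mul h2.exp).congr_deriv (by ring)
  have h2 := intervalIntegral.integral_eq_sub_of_hasDerivAt (a := 0) (b := 1) (fun s _ => h s)
    (Continuous.intervalIntegrable (by fun_prop) _ _)
  rw [intervalIntegral.integral_const_mul] at h2
  rw [GG, h2]
  simp only [sub_self, zero_mul, sub_zero, one_mul, zero_add, add_zero, mul_comm x t]
  ring

theorem exp_lip {A A' m : ℝ} (h : m ≤ A) (h' : m ≤ A') :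
    |Real.exp (-A) - Real.exp (-A')| ≤ |A - A'| * Real.exp (-m) := by
  wlog hle : A ≤ A' generalizing A A'
  · rw [abs_sub_comm, abs_sub_comm A]
    exact this h' h (not_le.1 hle).le
  have h1 : Real.exp (-A') ≤ Real.exp (-A) := Real.exp_le_exp.2 (by linarith)
  have h2 : Real.exp (-A) ≤ Real.exp (-m) := Real.exp_le_exp.2 (by linarith)
  have h3 : Real.exp (-A') = Real.exp (-A) * Real.exp (A - A') := by
    rw [← Real.exp_add]
    congr 1
    ring
  have h4 := Real.add_one_le_exp (A - A')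
  have h5 := Real.exp_pos (-A)
  rw [abs_of_nonneg (by linarith), abs_of_nonpos (by linarith)]
  nlinarith

theorem wt_le {t s N k : ℝ} (ht : 0 < t) (ht1 : t ≤ 1) (hs : s ∈ Ioc (0 : ℝ) 1) (hN : 0 ≤ N) :
    (1 - s) * t ^ 2 * Real.exp (-(t * ((1 - s) * N + k))) ≤
      2 * Real.exp (-(t * k)) / (1 + N) := by
  have hu : 0 ≤ 1 - s := by linarith [hs.2]
  have hu1 : 1 - s ≤ 1 := by linarith [hs.1]
  have e : Real.exp (-(t * ((1 - s) * N + k))) =
      Real.exp (-(t * k)) * Real.exp (-(t * (1 - s) * N)) := by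
    rw [← Real.exp_add]
    congr 1
    ring
  have h0 : 0 ≤ t * (1 - s) * N := by positivity
  have h1 : Real.exp (-(t * (1 - s) * N)) ≤ 1 := Real.exp_le_one_iff.2 (by linarith)
  have h2 : t * (1 - s) * N * Real.exp (-(t * (1 - s) * N)) ≤ 1 := by
    rw [Real.exp_neg, ← div_eq_mul_inv, div_le_one (Real.exp_pos _)]
    linarith [Real.add_one_le_exp (t * (1 - s) * N)]
  have h3 := Real.exp_pos (-(t * (1 - s) * N))
  have h4 : (1 - s) * t ^ 2 ≤ 1 := mul_le_one₀ hu1 (by positivity) (pow_le_one₀ ht.le ht1)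
  have h5 : (1 - s) * t ^ 2 * Real.exp (-(t * (1 - s) * N)) * (1 + N) ≤ 2 := by
    have a1 : (1 - s) * t ^ 2 * Real.exp (-(t * (1 - s) * N)) ≤ 1 := mul_le_one₀ h4 h3.le h1
    have a2 : t * (t * (1 - s) * N * Real.exp (-(t * (1 - s) * N))) ≤ 1 :=
      mul_le_one₀ ht1 (by positivity) h2
    nlinarith
  rw [e, le_div_iff₀ (by positivity)]
  nlinarith [Real.exp_pos (-(t * k))]

theorem GG_le {t N κ x : ℝ} (ht : 0 < t) (ht1 : t ≤ 1) (hN : 0 ≤ N) (hκ : 0 ≤ κ)
    (hx : κ / 2 ≤ x) : |GG t (N + κ) x| ≤ 2 * Real.exp (-(t * (κ / 2))) / (1 + N) := by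
  have h := intervalIntegral.norm_integral_le_of_norm_le_const (a := (0 : ℝ)) (b := 1)
    (f := fun s => (1 - s) * t ^ 2 * Real.exp (-(t * ((1 - s) * (N + κ) + s * x))))
    (C := 2 * Real.exp (-(t * (κ / 2))) / (1 + N)) fun s hs => by
      rw [uIoc_of_le zero_le_one] at hs
      have hu : 0 ≤ 1 - s := by linarith [hs.2]
      rw [Real.norm_of_nonneg (by positivity)]
      refine le_trans (mul_le_mul_of_nonneg_left (Real.exp_le_exp.2 ?_) (by positivity))
        (wt_le ht ht1 hs hN)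
      refine neg_le_neg (mul_le_mul_of_nonneg_left ?_ ht.le)
      nlinarith [hs.1]
  simpa [GG] using h

theorem GG_lip {t N κ x y : ℝ} (ht : 0 < t) (ht1 : t ≤ 1) (hN : 0 ≤ N) (hκ : 0 ≤ κ)
    (hx : κ / 2 ≤ x) (hy : κ / 2 ≤ y) : |GG t (N + κ) x - GG t (N + κ) y| ≤
      2 * Real.exp (-(t * (κ / 2))) / (1 + N) * |x - y| := by
  rw [GG, GG, ← intervalIntegral.integral_sub (Continuous.intervalIntegrable (by fun_prop) _ _)
    (Continuous.intervalIntegrable (by fun_prop) _ _)]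
  have h := intervalIntegral.norm_integral_le_of_norm_le_const (a := (0 : ℝ)) (b := 1)
    (f := fun s => (1 - s) * t ^ 2 * Real.exp (-(t * ((1 - s) * (N + κ) + s * x))) -
      (1 - s) * t ^ 2 * Real.exp (-(t * ((1 - s) * (N + κ) + s * y))))
    (C := 2 * Real.exp (-(t * (κ / 2))) / (1 + N) * |x - y|) fun s hs => by
      rw [uIoc_of_le zero_le_one] at hs
      have hu : 0 ≤ 1 - s := by linarith [hs.2]
      have h1 := exp_lip (A := t * ((1 - s) * (N + κ) + s * x))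
        (A' := t * ((1 - s) * (N + κ) + s * y)) (m := t * ((1 - s) * N + κ / 2))
        (mul_le_mul_of_nonneg_left (by nlinarith [hs.1]) ht.le)
        (mul_le_mul_of_nonneg_left (by nlinarith [hs.1]) ht.le)
      have h2 : |t * ((1 - s) * (N + κ) + s * x) - t * ((1 - s) * (N + κ) + s * y)| ≤ |x - y| := by
        rw [show t * ((1 - s) * (N + κ) + s * x) - t * ((1 - s) * (N + κ) + s * y) =
          t * s * (x - y) by ring, abs_mul, abs_of_pos (mul_pos ht hs.1)]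
        exact mul_le_of_le_one_left (abs_nonneg _) (mul_le_one₀ ht1 hs.1.le hs.2)
      rw [← mul_sub, Real.norm_eq_abs, abs_mul, abs_of_nonneg (by positivity)]
      calc _ ≤ (1 - s) * t ^ 2 * (|x - y| * Real.exp (-(t * ((1 - s) * N + κ / 2)))) :=
            mul_le_mul_of_nonneg_left (h1.trans (mul_le_mul_of_nonneg_right h2
              (Real.exp_pos _).le)) (by positivity)
        _ = (1 - s) * t ^ 2 * Real.exp (-(t * ((1 - s) * N + κ / 2))) * |x - y| := by ring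
        _ ≤ _ := mul_le_mul_of_nonneg_right (wt_le ht ht1 hs hN) (abs_nonneg _)
  simpa using h

theorem GG_add (t κ n : ℝ) : GG t (n ^ 2 + κ) ((n + 1) ^ 2 + κ) + GG t ((n + 1) ^ 2 + κ) (n ^ 2 + κ) =
    Real.exp (-(t * κ)) * t ^ 2 *
      ∫ α in (0 : ℝ)..1, Real.exp (-(t * ((n + α) ^ 2 + α * (1 - α)))) := by
  have h := intervalIntegral.integral_comp_sub_left (a := (0 : ℝ)) (b := 1) (fun s : ℝ =>
    (1 - s) * t ^ 2 * Real.exp (-(t * ((1 - s) * ((n + 1) ^ 2 + κ) + s * (n ^ 2 + κ))))) 1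
  rw [sub_self, sub_zero] at h
  rw [GG, GG, ← h, ← intervalIntegral.integral_add (Continuous.intervalIntegrable (by fun_prop) _ _)
    (Continuous.intervalIntegrable (by fun_prop) _ _), ← intervalIntegral.integral_const_mul]
  refine intervalIntegral.integral_congr fun s _ => ?_
  have e1 : Real.exp (-(t * ((1 - s) * (n ^ 2 + κ) + s * ((n + 1) ^ 2 + κ)))) =
      Real.exp (-(t * κ)) * Real.exp (-(t * ((n + s) ^ 2 + s * (1 - s)))) := by
    rw [← Real.exp_add]
    congr 1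
    ring
  have e2 : Real.exp (-(t * ((1 - (1 - s)) * ((n + 1) ^ 2 + κ) + (1 - s) * (n ^ 2 + κ)))) =
      Real.exp (-(t * κ)) * Real.exp (-(t * ((n + s) ^ 2 + s * (1 - s)))) := by
    rw [← Real.exp_add]
    congr 1
    ring
  simp only [e1, e2]
  ring

theorem summable_inv : Summable fun n : ℤ => 1 / (1 + (n : ℝ) ^ 2) := by
  refine Summable.of_nonneg_of_le (fun n => by positivity) (fun n => ?_)
    ((Real.summable_one_div_int_pow.2 one_lt_two).add (hasSum_ite_eq (0 : ℤ) (1 : ℝ)).summable)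
  by_cases h : n = 0
  · simp [h]
  · rw [if_neg h, add_zero]
    have : (n : ℝ) ≠ 0 := Int.cast_ne_zero.2 h
    exact one_div_le_one_div_of_le (by positivity) (by linarith)

theorem summable_th0 {t : ℝ} (ht : 0 < t) (ht1 : t ≤ 1) :
    Summable fun n : ℤ => Real.exp (-(t * (n : ℝ) ^ 2)) := by
  refine Summable.of_nonneg_of_le (fun n => (Real.exp_pos _).le) (fun n => ?_)
    (summable_inv.mul_left t⁻¹)
  rw [Real.exp_neg, one_div, ← mul_inv]
  refine inv_anti₀ (by positivity) ?_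
  linarith [Real.add_one_le_exp (t * (n : ℝ) ^ 2)]

theorem cont_mode {a : ℝ → ℝ} (ha : Continuous a) (n : ℤ) : Continuous (mode a n) := by
  unfold mode
  fun_prop

theorem ipc_add {f g h : ℝ → ℂ} (hf : Continuous f) (hg : Continuous g) (hh : Continuous h) :
    ipc (fun x => f x + g x) h = ipc f h + ipc g h := by
  simp only [ipc, add_mul]
  rw [intervalIntegral.integral_add (Continuous.intervalIntegrable (by fun_prop) _ _)
    (Continuous.intervalIntegrable (by fun_prop) _ _), add_div]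

theorem ipc_mul (c : ℂ) (f h : ℝ → ℂ) : ipc (fun x => c * f x) h = c * ipc f h := by
  simp only [ipc, mul_assoc, intervalIntegral.integral_const_mul, mul_div_assoc]

theorem exp_conj (n : ℤ) (x : ℝ) : Complex.exp (Complex.I * n * x) *
    (starRingEnd ℂ) (Complex.exp (Complex.I * n * x)) = 1 := by
  rw [← Complex.exp_conj, ← Complex.exp_add]
  simp

theorem ipc_mode (a b : ℝ → ℝ) (n : ℤ) : ipc (mode a n) (mode b n) =
    (((∫ x in (0 : ℝ)..(2 * Real.pi), a (Real.cos x) * b (Real.cos x)) / (2 * Real.pi) : ℝ) : ℂ) := by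
  have e : ∀ x, mode a n x * (starRingEnd ℂ) (mode b n x) =
      ((a (Real.cos x) * b (Real.cos x) : ℝ) : ℂ) := fun x => by
    rw [mode, mode, map_mul, Complex.conj_ofReal, mul_mul_mul_comm, exp_conj, mul_one,
      Complex.ofReal_mul]
  simp only [ipc, e, intervalIntegral.integral_ofReal]
  push_cast
  rfl

theorem ipc_orth (n : ℤ) : ipc (mode (fun _ => 1) (n + 1)) (mode (fun _ => 1) (n - 1)) = 0 := by
  have e : ∀ x : ℝ, mode (fun _ => 1) (n + 1) x * (starRingEnd ℂ) (mode (fun _ => 1) (n - 1) x) =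
      Complex.exp (2 * Complex.I * x) := fun x => by
    simp only [mode, Complex.ofReal_one, one_mul]
    rw [← Complex.exp_conj, ← Complex.exp_add]
    congr 1
    simp
    ring
  simp only [ipc, e]
  rw [integral_exp_mul_complex (by simp)]
  have : Complex.exp (2 * Complex.I * ((2 * Real.pi : ℝ) : ℂ)) = 1 := by
    rw [← Complex.exp_nat_mul_two_pi_mul_I 2]
    congr 1
    push_cast
    ring
  rw [this]
  simp

theorem mean_le {f : ℝ → ℝ} {b : ℝ} (h : ∀ x, |f x| ≤ b) :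
    (∫ x in (0 : ℝ)..(2 * Real.pi), f x * f x) / (2 * Real.pi) ≤ b ^ 2 := by
  have hp := Real.two_pi_pos
  have h1 := intervalIntegral.norm_integral_le_of_norm_le_const (a := (0 : ℝ)) (b := 2 * Real.pi)
    (f := fun x => f x * f x) (C := b ^ 2) fun x _ => by
      rw [Real.norm_eq_abs, abs_mul, sq]
      exact mul_self_le_mul_self (abs_nonneg _) (h x)
  rw [sub_zero, abs_of_pos hp] at h1
  rw [div_le_iff₀ hp]
  exact (le_abs_self _).trans h1

theorem ipc_self (g : ℝ → ℂ) :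
    (ipc g g).re = (2 * Real.pi)⁻¹ * ∫ x in (0 : ℝ)..(2 * Real.pi), ‖g x‖ ^ 2 := by
  have e : ipc g g = (((2 * Real.pi)⁻¹ * ∫ x in (0 : ℝ)..(2 * Real.pi), ‖g x‖ ^ 2 : ℝ) : ℂ) := by
    simp only [ipc, Complex.mul_conj, Complex.normSq_eq_norm_sq, intervalIntegral.integral_ofReal]
    push_cast
    ring
  rw [e, Complex.ofReal_re]

theorem parseval {g : ℝ → ℂ} (hg : Continuous g) :
    HasSum (fun n : ℤ => ‖ipc (mode (fun _ => 1) n) g‖ ^ 2) (ipc g g).re := by
  have hc : Continuous fun x => (starRingEnd ℂ) (g x) := by fun_prop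
  obtain ⟨C, hC⟩ := (isCompact_Icc (a := (0 : ℝ)) (b := 2 * Real.pi)).exists_bound_of_continuousOn
    hc.continuousOn
  have hL : MemLp (fun x => (starRingEnd ℂ) (g x)) 2 (volume.restrict (Ioc 0 (2 * Real.pi))) :=
    MemLp.of_bound hc.aestronglyMeasurable C
      ((ae_restrict_mem measurableSet_Ioc).mono fun x hx => hC x (Ioc_subset_Icc_self hx))
  have h := (Equiv.neg ℤ).hasSum_iff.2 (hasSum_sq_fourierCoeffOn Real.two_pi_pos hL)
  simp only [Complex.norm_conj, sub_zero, smul_eq_mul] at h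
  rw [ipc_self]
  refine hs_congr h fun n => ?_
  simp only [Function.comp, Equiv.neg_apply]
  rw [fourierCoeffOn_eq_integral, ipc]
  congr 2
  have hpi : (Real.pi : ℂ) ≠ 0 := Complex.ofReal_ne_zero.2 Real.pi_ne_zero
  have e : ∀ x : ℝ, fourier (- -n) (x : AddCircle (2 * Real.pi - 0)) • (starRingEnd ℂ) (g x) =
      mode (fun _ => 1) n x * (starRingEnd ℂ) (g x) := fun x => by
    rw [neg_neg, fourier_coe_apply, mode, smul_eq_mul, Complex.ofReal_one, one_mul]
    congr 2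
    push_cast
    field_simp
    ring
  simp only [e, Complex.real_smul]
  push_cast
  ring

theorem ipc_move (V : ℝ → ℝ) (n : ℤ) (g : ℝ → ℂ) : ipc (mode V n) g =
    ipc (mode (fun _ => 1) n) fun x => (V (Real.cos x) : ℂ) * g x := by
  simp only [ipc, mode, map_mul, Complex.conj_ofReal, Complex.ofReal_one, one_mul]
  congr 2
  funext x
  ring

theorem gap {V : ℝ → ℝ} {g : ℝ → ℂ} {b k : ℝ} (hV : Continuous V) (hg : Continuous g)
    (hb : ∀ x, |V (Real.cos x)| ≤ b) (hk : b < k)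
    (h : ∀ n, k * ‖ipc (mode (fun _ => 1) n) g‖ ≤ ‖ipc (mode V n) g‖) :
    (ipc g g).re = 0 ∧ ∀ n, ipc (mode (fun _ => 1) n) g = 0 := by
  have hb0 : 0 ≤ b := (abs_nonneg _).trans (hb 0)
  have h1 := parseval hg
  have h2 := parseval (g := fun x => (V (Real.cos x) : ℂ) * g x) (by fun_prop)
  simp only [← ipc_move] at h2
  have h3 := hasSum_le (fun n => (by
    rw [← mul_pow]
    exact pow_le_pow_left₀ (mul_nonneg (hb0.trans hk.le) (norm_nonneg _)) (h n) 2 :
    k ^ 2 * ‖ipc (mode (fun _ => 1) n) g‖ ^ 2 ≤ ‖ipc (mode V n) g‖ ^ 2)) (h1.mul_left _) h2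
  have h4 : (ipc (fun x => (V (Real.cos x) : ℂ) * g x) fun x => (V (Real.cos x) : ℂ) * g x).re ≤
      b ^ 2 * (ipc g g).re := by
    rw [ipc_self, ipc_self, mul_left_comm]
    refine mul_le_mul_of_nonneg_left ?_ (inv_pos.2 Real.two_pi_pos).le
    rw [← intervalIntegral.integral_const_mul]
    refine intervalIntegral.integral_mono_on Real.two_pi_pos.le ?_ ?_ fun x _ => ?_
    · exact Continuous.intervalIntegrable (by fun_prop) _ _
    · exact Continuous.intervalIntegrable (by fun_prop) _ _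
    rw [norm_mul, mul_pow, Complex.norm_real, Real.norm_eq_abs]
    exact mul_le_mul_of_nonneg_right (pow_le_pow_left₀ (abs_nonneg _) (hb x) 2) (sq_nonneg _)
  have h5 : 0 ≤ (ipc g g).re := h1.nonneg fun _ => sq_nonneg _
  have h6 : b ^ 2 < k ^ 2 := pow_lt_pow_left₀ hk hb0 two_ne_zero
  have h7 : (ipc g g).re = 0 := by nlinarith
  refine ⟨h7, fun n => ?_⟩
  have h8 := le_hasSum h1 n fun _ _ => sq_nonneg _
  rw [h7] at h8
  exact norm_eq_zero.1 (pow_eq_zero_iff two_ne_zero |>.1 (le_antisymm h8 (sq_nonneg _)))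

theorem split_mode (p : ℝ) (V : ℝ → ℝ) (hV : Continuous V) (n : ℤ) {g : ℝ → ℂ}
    (hg : Continuous g) : ipc (mode (fun c => p + V c) n) g =
      p * ipc (mode (fun _ => 1) n) g + ipc (mode V n) g := by
  have c1 := cont_mode (a := fun _ => 1) continuous_const n
  rw [← ipc_mul, ← ipc_add (by fun_prop) (cont_mode hV n) hg]
  congr 1
  funext x
  simp only [mode]
  push_cast
  ring

theorem cos_mode (p : ℝ) (V : ℝ → ℝ) (hV : Continuous V) (n : ℤ) {g : ℝ → ℂ}
    (hg : Continuous g) : ipc (mode (fun c => -(p * c) + V c) n) g =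
      ((-(p / 2) : ℝ) : ℂ) * (ipc (mode (fun _ => 1) (n + 1)) g +
        ipc (mode (fun _ => 1) (n - 1)) g) + ipc (mode V n) g := by
  have c1 := cont_mode (a := fun _ => 1) continuous_const (n + 1)
  have c2 := cont_mode (a := fun _ => 1) continuous_const (n - 1)
  rw [← ipc_add c1 c2 hg, ← ipc_mul, ← ipc_add (by fun_prop) (cont_mode hV n) hg]
  congr 1
  funext x
  have e1 : Complex.exp (Complex.I * ((n + 1 : ℤ) : ℂ) * x) =
      Complex.exp (Complex.I * n * x) * Complex.exp (x * Complex.I) := by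
    rw [← Complex.exp_add]
    congr 1
    push_cast
    ring
  have e2 : Complex.exp (Complex.I * ((n - 1 : ℤ) : ℂ) * x) =
      Complex.exp (Complex.I * n * x) * Complex.exp (-x * Complex.I) := by
    rw [← Complex.exp_add]
    congr 1
    push_cast
    ring
  simp only [mode, e1, e2]
  push_cast
  rw [Complex.cos]
  ring

theorem swap_sum {f : ℤ → ℕ → ℝ} {E : ℤ → ℝ} {N : ℕ → ℝ} {z : ℝ} (h0 : ∀ n j, 0 ≤ f n j)
    (h1 : ∀ n, HasSum (f n) (E n)) (h2 : HasSum E z) (h3 : ∀ j, HasSum (fun n => f n j) (N j)) :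
    HasSum N z := by
  have hs : Summable fun p : ℤ × ℕ => f p.1 p.2 :=
    (summable_prod_of_nonneg fun p => h0 p.1 p.2).2 ⟨fun n => (h1 n).summable, by
      simp only [(h1 _).tsum_eq]
      exact h2.summable⟩
  have h4 := hs.hasSum
  rw [(h4.prod_fiberwise h1).unique h2] at h4
  exact ((Equiv.prodComm ℕ ℤ).hasSum_iff.2 h4).prod_fiberwise h3

end TrB

open TrB

theorem trB_holds : TrBStmt := by
  refine ⟨16 * ∑' n : ℤ, 1 / (1 + (n : ℝ) ^ 2), ?_⟩
  intro κ B ε w a ψ lam hκ hε hε1 hw ha haB hgap hlam hψ hP hE t ht ht1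
  have hB : 0 ≤ B := (abs_nonneg _).trans hw
  have hr : Continuous fun c => ε ^ 2 * a c := by fun_prop
  have hV : Continuous fun c => -(ε * w * c) + ε ^ 2 * a c := by fun_prop
  have hrb : ∀ x, |ε ^ 2 * a (Real.cos x)| ≤ ε ^ 2 * B := fun x => by
    rw [abs_mul, abs_of_nonneg (sq_nonneg ε)]
    exact mul_le_mul_of_nonneg_left (haB x) (sq_nonneg ε)
  have hVb : ∀ x, |-(ε * w * Real.cos x) + ε ^ 2 * a (Real.cos x)| ≤ 2 * ε * B := fun x => by
    refine (abs_add_le _ _).trans ?_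
    have h1 : |-(ε * w * Real.cos x)| ≤ ε * B := by
      rw [abs_neg, abs_mul, abs_mul, abs_of_pos hε]
      exact (mul_le_of_le_one_right (by positivity) (Real.abs_cos_le_one x)).trans
        (mul_le_mul_of_nonneg_left hw hε.le)
    have h2 : ε ^ 2 * B ≤ ε * B := mul_le_mul_of_nonneg_right (by nlinarith) hB
    linarith [hrb x]
  set c : ℤ → ℕ → ℂ := fun n j => ipc (mode (fun _ => 1) n) (ψ j) with hc
  set d : ℤ → ℕ → ℂ := fun n j => ipc (mode (fun c => -(ε * w * c) + ε ^ 2 * a c) n) (ψ j) with hd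
  have he : ∀ (n : ℤ) j, ((lam j - ((n : ℝ) ^ 2 + κ) : ℝ) : ℂ) * c n j = d n j := fun n j => by
    have h1 := hE j n
    have h2 : (fun c => (n : ℝ) ^ 2 + κ - ε * w * c + ε ^ 2 * a c) =
        fun c => (n : ℝ) ^ 2 + κ + (-(ε * w * c) + ε ^ 2 * a c) := funext fun c => by ring
    rw [h2, split_mode _ _ hV n (hψ j)] at h1
    rw [Complex.ofReal_sub]
    linear_combination -h1
  have hz : ∀ j, lam j < κ / 2 → (ipc (ψ j) (ψ j)).re = 0 ∧ ∀ n, c n j = 0 := fun j hj => by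
    refine gap (k := κ / 2) hV (hψ j) hVb ?_ fun n => ?_
    · rcases hgap with h | h
      · linarith [hlam j]
      · linarith
    · change _ ≤ ‖d n j‖
      rw [← he, norm_mul, Complex.norm_real, Real.norm_eq_abs]
      refine mul_le_mul_of_nonneg_right (le_abs.2 (Or.inr ?_)) (norm_nonneg _)
      linarith [sq_nonneg (n : ℝ)]
  have he' : ∀ (n : ℤ) j,
      ((max (lam j) (κ / 2) - ((n : ℝ) ^ 2 + κ) : ℝ) : ℂ) * c n j = d n j := by
    intro n j
    rcases le_or_gt (κ / 2) (lam j) with h | h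
    · rw [max_eq_left h, he]
    · rw [← he, (hz j h).2, mul_zero, mul_zero]
  have sq : ∀ (b : ℝ → ℝ) (n : ℤ), Continuous b → HasSum (fun j => ‖ipc (mode b n) (ψ j)‖ ^ 2)
      ((∫ x in (0 : ℝ)..(2 * Real.pi), b (Real.cos x) * b (Real.cos x)) / (2 * Real.pi)) := by
    intro b n hb
    have h := Complex.hasSum_re (hP b b n n hb hb)
    rw [ipc_mode, Complex.ofReal_re] at h
    exact hs_congr h fun j => (re_self _).symm
  have s1 : ∀ n, HasSum (fun j => ‖c n j‖ ^ 2) 1 := fun n => by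
    have h := sq (fun _ => 1) n continuous_const
    rwa [mul_one, intervalIntegral.integral_const, sub_zero, smul_eq_mul, mul_one,
      div_self Real.two_pi_pos.ne'] at h
  set m := (∫ x in (0 : ℝ)..(2 * Real.pi), a (Real.cos x)) / (2 * Real.pi) with hm
  have sdc : ∀ n, HasSum (fun j => (d n j * (starRingEnd ℂ) (c n j)).re) (ε ^ 2 * m) := fun n => by
    have h := Complex.hasSum_re (hP _ (fun _ => 1) n n hV continuous_const)
    rw [ipc_mode, Complex.ofReal_re] at h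
    simp only [mul_one] at h
    rwa [intervalIntegral.integral_add (Continuous.intervalIntegrable (by fun_prop) _ _)
      (Continuous.intervalIntegrable (by fun_prop) _ _), intervalIntegral.integral_neg,
      intervalIntegral.integral_const_mul, intervalIntegral.integral_const_mul, integral_cos,
      Real.sin_two_pi, Real.sin_zero, sub_zero, mul_zero, neg_zero, zero_add, mul_div_assoc] at h
  have hmu : ∀ n : ℤ, κ / 2 ≤ (n : ℝ) ^ 2 + κ := fun n => by linarith [sq_nonneg (n : ℝ)]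
  have key : ∀ n : ℤ, ∃ E, HasSum (fun j => Real.exp (-(max (lam j) (κ / 2) * t)) * ‖c n j‖ ^ 2) E ∧
      |E - (Real.exp (-(t * ((n : ℝ) ^ 2 + κ))) + -(t * Real.exp (-(t * ((n : ℝ) ^ 2 + κ)))) *
        (ε ^ 2 * m) + ε ^ 2 * (w ^ 2 / 4) * (GG t ((n : ℝ) ^ 2 + κ) (((n + 1 : ℤ) : ℝ) ^ 2 + κ) +
          GG t ((n : ℝ) ^ 2 + κ) (((n - 1 : ℤ) : ℝ) ^ 2 + κ)))| ≤
        8 * (2 * Real.exp (-(t * (κ / 2))) / (1 + (n : ℝ) ^ 2)) * (ε ^ 3 * (1 + B) ^ 3) := by
    intro n
    refine one_mode (lam := fun j => max (lam j) (κ / 2))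
      (G := fun j => GG t ((n : ℝ) ^ 2 + κ) (max (lam j) (κ / 2))) hε hε1 hw (by positivity)
      (fun j => taylor t _ _) (fun j => GG_le ht ht1 (sq_nonneg _) hκ (le_max_right _ _))
      (fun j => GG_lip ht ht1 (sq_nonneg _) hκ (le_max_right _ _) (hmu _))
      (fun j => GG_lip ht ht1 (sq_nonneg _) hκ (le_max_right _ _) (hmu _)) (he' n) (he' (n + 1))
      (he' (n - 1)) (s1 n) (s1 _) (s1 _) ?_ (sdc n) (sq _ n hV) (sq _ (n + 1) hV) (sq _ (n - 1) hV)
      (sq _ n hr) (mean_le hVb) (mean_le hVb) (mean_le hVb) (mean_le hrb)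
      fun j => cos_mode (ε * w) _ hr n (hψ j)
    have h := Complex.hasSum_re (hP (fun _ => 1) (fun _ => 1) (n + 1) (n - 1) continuous_const
      continuous_const)
    rwa [ipc_orth, Complex.zero_re] at h
  choose E hE1 hE2 using key
  have hG : ∀ k : ℤ → ℤ, Summable fun n : ℤ => GG t ((n : ℝ) ^ 2 + κ) (((k n : ℤ) : ℝ) ^ 2 + κ) :=
    fun k => Summable.of_norm_bounded (summable_inv.mul_left (2 * Real.exp (-(t * (κ / 2)))))
      fun n => by
        rw [mul_one_div]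
        exact GG_le ht ht1 (sq_nonneg _) hκ (hmu _)
  have g1 := (hG fun n => n + 1).hasSum
  have g2 := (hG fun n => n - 1).hasSum
  have g3 := g1.add ((Equiv.addRight (1 : ℤ)).hasSum_iff.2 g2)
  have g4 : HasSum (fun n : ℤ => Real.exp (-(t * κ)) * t ^ 2 *
      ∫ α in (0 : ℝ)..1, Real.exp (-(t * (((n : ℝ) + α) ^ 2 + α * (1 - α))))) _ :=
    hs_congr g3 fun n => by
      rw [← GG_add]
      simp
  have g5 := g4.tsum_eq
  rw [tsum_mul_left, ← th1] at g5
  have g6 := g1.add g2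
  rw [← g5] at g6
  have a0 : HasSum (fun n : ℤ => Real.exp (-(t * ((n : ℝ) ^ 2 + κ))))
      (Real.exp (-(t * κ)) * th0 t) :=
    hs_congr ((summable_th0 ht ht1).hasSum.mul_left _) fun n => by
      rw [← Real.exp_add]
      congr 1
      ring
  have a1 := (a0.add (((a0.mul_left t).neg).mul_right (ε ^ 2 * m))).add
    (g6.mul_left (ε ^ 2 * (w ^ 2 / 4)))
  have a2 := summable_inv.hasSum.mul_left (16 * Real.exp (-(t * (κ / 2))) * (ε ^ 3 * (1 + B) ^ 3))
  have a3 := fun n : ℤ => (hE2 n).trans (le_of_eq (by ring : _ =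
    16 * Real.exp (-(t * (κ / 2))) * (ε ^ 3 * (1 + B) ^ 3) * (1 / (1 + (n : ℝ) ^ 2))))
  simp only [← Real.norm_eq_abs] at a3
  have a4 := (Summable.of_norm_bounded a2.summable a3).hasSum
  have a5 := a4.norm_le_of_bounded a2 a3
  have a6 : HasSum E _ := hs_congr (a1.add a4) fun n => by ring
  refine ⟨_, hs_congr (swap_sum (fun n j => by positivity) hE1 a6
    fun j => (parseval (hψ j)).mul_left _) fun j => ?_, ?_⟩
  · rcases le_or_gt (κ / 2) (lam j) with h | h
    · rw [max_eq_left h]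
    · rw [(hz j h).1, mul_zero, mul_zero]
  · rw [Real.norm_eq_abs] at a5
    rw [mul_div_assoc t]
    refine le_trans (le_of_eq ?_) (a5.trans (le_of_eq ?_))
    · congr 1
      ring
    · ring

end Pool.Agent.Lib.MP_1a4aff_gt.I3
end

-- part Pool.Agent.Lib.MP_1a4aff_gt.I3.TrC
section

/-! Poisson summation and theta asymptotics for the test tori. -/

set_option autoImplicit false

open MeasureTheory Set Filter Topology Real Asymptotics

namespace Pool.Agent.Lib.MP_1a4aff_gt.I3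

namespace TrC

/-! ### Theta sums with even moments -/

noncomputable def e (j : ℕ) (t : ℝ) (n : ℤ) : ℝ := ((n : ℝ) ^ 2) ^ j * exp (-(t * (n : ℝ) ^ 2))

noncomputable def S (j : ℕ) (t : ℝ) : ℝ := ∑' n, e j t n

noncomputable def tail (j : ℕ) (t : ℝ) : ℝ := ∑' n, if n = 0 then 0 else e j t n

noncomputable def g (t : ℝ) : ℝ := √(π / t)

theorem e_nonneg (j : ℕ) (t : ℝ) (n : ℤ) : 0 ≤ e j t n := by unfold e; positivity

theorem sum_e (j : ℕ) {t : ℝ} (ht : 0 < t) : Summable (e j t) := by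
  refine (summable_pow_mul_jacobiTheta₂_term_bound 0 (div_pos ht pi_pos) (2 * j)).congr fun n => ?_
  unfold e
  rw [Int.cast_abs, pow_mul, sq_abs]
  congr 2
  field_simp
  ring

theorem th0_eq (t : ℝ) : th0 t = S 0 t := by simp [th0, S, e]

theorem S_deriv (j : ℕ) {x : ℝ} (hx : 0 < x) : HasDerivAt (S j) (-S (j + 1) x) x := by
  have h := hasDerivAt_tsum_of_isPreconnected (g := fun n y => e j y n)
    (g' := fun n y => -e (j + 1) y n) (t := Ioi (x / 2)) (y₀ := x) (y := x)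
    (sum_e (j + 1) (half_pos hx)) isOpen_Ioi isPreconnected_Ioi (fun n y _ => ?_) (fun n y hy => ?_)
    (half_lt_self hx) (sum_e j hx) (half_lt_self hx)
  · rwa [tsum_neg] at h
  · have h1 := (((hasDerivAt_id y).mul_const ((n : ℝ) ^ 2)).neg.exp).const_mul (((n : ℝ) ^ 2) ^ j)
    refine h1.congr_deriv ?_
    simp only [e, id, Pi.neg_apply]
    ring
  · rw [norm_neg, Real.norm_of_nonneg (e_nonneg _ _ _)]
    unfold e
    gcongr
    exact le_of_lt hy

theorem g_pos {t : ℝ} (ht : 0 < t) : 0 < g t := sqrt_pos.2 (div_pos pi_pos ht)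

theorem g_sq {t : ℝ} (ht : 0 < t) : g t ^ 2 = π / t := sq_sqrt (div_pos pi_pos ht).le

theorem inv_deriv (c : ℝ) {t : ℝ} (ht : 0 < t) : HasDerivAt (fun s => c / s) (-(c / t / t)) t := by
  refine ((hasDerivAt_const t c).div (hasDerivAt_id t) ht.ne').congr_deriv ?_
  simp only [id]
  field_simp
  ring

theorem g_deriv {t : ℝ} (ht : 0 < t) : HasDerivAt g (-(g t / (2 * t))) t := by
  refine ((inv_deriv π ht).sqrt (div_pos pi_pos ht).ne').congr_deriv ?_
  have h1 := g_pos ht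
  rw [← g_sq ht, sqrt_sq h1.le]
  field_simp

theorem Su_deriv (j : ℕ) {t : ℝ} (ht : 0 < t) :
    HasDerivAt (fun s => S j (π ^ 2 / s)) (S (j + 1) (π ^ 2 / t) * (π ^ 2 / t / t)) t := by
  refine ((S_deriv j (x := π ^ 2 / t) (by positivity)).comp t (inv_deriv (π ^ 2) ht)).congr_deriv ?_
  ring

theorem pois0 {t : ℝ} (ht : 0 < t) : S 0 t = g t * S 0 (π ^ 2 / t) := by
  have h := Real.tsum_exp_neg_mul_int_sq (div_pos ht pi_pos)
  have hp := pi_pos
  rw [← sqrt_eq_rpow, one_div, ← sqrt_inv, inv_div] at h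
  simp only [S, e, pow_zero, one_mul]
  convert h using 4 with n n
  · field_simp
  · rfl
  · congr 1; field_simp

theorem pois1 {t : ℝ} (ht : 0 < t) :
    t * S 1 t = g t * (S 0 (π ^ 2 / t) / 2 - π ^ 2 / t * S 1 (π ^ 2 / t)) := by
  have h1 := (g_deriv ht).mul (Su_deriv 0 ht)
  have h2 := (S_deriv 0 ht).unique (h1.congr_of_eventuallyEq
    ((lt_mem_nhds ht).mono fun s hs => pois0 hs))
  simp only [zero_add] at h2
  rw [neg_eq_iff_eq_neg.1 h2]
  field_simp
  ring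

theorem pois2 {t : ℝ} (ht : 0 < t) : t ^ 2 * S 2 t = g t * (3 / 4 * S 0 (π ^ 2 / t) -
    3 * (π ^ 2 / t * S 1 (π ^ 2 / t)) + π ^ 2 / t * (π ^ 2 / t * S 2 (π ^ 2 / t))) := by
  have h1 := (g_deriv ht).mul (((Su_deriv 0 ht).div_const 2).sub
    ((inv_deriv (π ^ 2) ht).mul (Su_deriv 1 ht)))
  have h2 := ((hasDerivAt_id t).mul (S_deriv 1 ht)).unique (h1.congr_of_eventuallyEq
    ((lt_mem_nhds ht).mono fun s hs => pois1 hs))
  have h3 := pois1 ht
  simp only [zero_add, id, Pi.sub_apply, Pi.mul_apply, one_add_one_eq_two] at h2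
  have h4 : t ^ 2 * S 2 t = t * S 1 t - t * (1 * S 1 t + t * -S 2 t) := by ring
  rw [h4, h2, h3]
  field_simp
  ring

theorem S_tail (j : ℕ) {t : ℝ} (ht : 0 < t) : S j t = (0 : ℝ) ^ j + tail j t := by
  rw [S, (sum_e j ht).tsum_eq_add_tsum_ite 0, tail]
  simp [e]

theorem sum_tail (j : ℕ) {t : ℝ} (ht : 0 < t) :
    Summable fun n : ℤ => if n = 0 then 0 else e j t n :=
  (sum_e j ht).of_nonneg_of_le (fun n => by split_ifs; exacts [le_rfl, e_nonneg _ _ _])
    fun n => by split_ifs; exacts [e_nonneg _ _ _, le_rfl]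

theorem tail_le (j : ℕ) {u : ℝ} (hu : 1 ≤ u) : |tail j u| ≤ S j 1 * exp (1 - u) := by
  refine tsum_of_norm_bounded (E := ℝ) ((sum_e j one_pos).hasSum.mul_right _) fun n => ?_
  split_ifs with h
  · rw [norm_zero]; exact mul_nonneg (e_nonneg _ _ _) (exp_pos _).le
  · rw [Real.norm_of_nonneg (e_nonneg _ _ _), e, e, mul_assoc, ← exp_add]
    gcongr
    have h1 : (1 : ℝ) ≤ (n : ℝ) ^ 2 := by exact_mod_cast (one_le_sq_iff_one_le_abs n).2 (Int.one_le_abs h)
    nlinarith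

/-- Poisson summation with a shift -/
theorem pois_shift {t : ℝ} (ht : 0 < t) (α : ℝ) :
    |∑' n : ℤ, exp (-(t * ((n : ℝ) + α) ^ 2)) - g t| ≤ g t * tail 0 (π ^ 2 / t) := by
  have hp := pi_pos
  have hg := g_pos ht
  have h := Complex.tsum_exp_neg_quadratic (a := ((π / t : ℝ) : ℂ))
    (by rw [Complex.ofReal_re]; positivity) (-(Complex.I * α))
  have e1 : ((π / t : ℝ) : ℂ) ^ (1 / 2 : ℂ) = (g t : ℂ) := by
    rw [g, sqrt_eq_rpow, Complex.ofReal_cpow (by positivity)]; norm_num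
  have e2 : ∀ n : ℤ, Complex.exp (-(π : ℂ) / ((π / t : ℝ) : ℂ) *
      (n + Complex.I * -(Complex.I * α)) ^ 2) = (exp (-(t * ((n : ℝ) + α) ^ 2)) : ℝ) := by
    intro n
    rw [Complex.ofReal_exp]
    congr 1
    have : (π : ℂ) ≠ 0 := by exact_mod_cast hp.ne'
    have : (t : ℂ) ≠ 0 := by exact_mod_cast ht.ne'
    rw [mul_neg, ← mul_assoc, Complex.I_mul_I]
    push_cast
    field_simp
  have e3 : ∀ n : ℤ, ‖Complex.exp (-(π : ℂ) * ((π / t : ℝ) : ℂ) * n ^ 2 +
      2 * π * -(Complex.I * α) * n)‖ = e 0 (π ^ 2 / t) n := by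
    intro n
    rw [Complex.norm_exp, e, pow_zero, one_mul]
    congr 1
    rw [show -(π : ℂ) * ((π / t : ℝ) : ℂ) * n ^ 2 + 2 * π * -(Complex.I * α) * n =
      ((-(π ^ 2 / t * (n : ℝ) ^ 2) : ℝ) : ℂ) + ((-(2 * π * α * n) : ℝ) : ℂ) * Complex.I by
        push_cast; ring]
    simp only [Complex.add_re, Complex.ofReal_re, Complex.re_ofReal_mul, Complex.I_re, mul_zero,
      add_zero]
  have hu : 0 < π ^ 2 / t := by positivity
  rw [e1, (Summable.of_norm ((sum_e 0 hu).congr fun n => (e3 n).symm)).tsum_eq_add_tsum_ite 0] at h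
  simp only [e2, ← Complex.ofReal_tsum] at h
  have h1 := tsum_of_norm_bounded (f := fun n : ℤ => if n = 0 then 0 else
    Complex.exp (-(π : ℂ) * ((π / t : ℝ) : ℂ) * n ^ 2 + 2 * π * -(Complex.I * α) * n))
    (sum_tail 0 hu).hasSum fun n => by
      split_ifs
      · simp
      · exact (e3 n).le
  rw [eq_sub_of_add_eq' h] at h1
  simp only [Int.cast_zero, ne_eq, OfNat.ofNat_ne_zero, not_false_eq_true, zero_pow, mul_zero,
    add_zero, Complex.exp_zero] at h1
  norm_cast at h1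
  rw [show ∑' n : ℤ, exp (-(t * ((n : ℝ) + α) ^ 2)) - g t =
    g t * (1 / g t * ∑' n : ℤ, exp (-(t * ((n : ℝ) + α) ^ 2)) - 1) by field_simp,
    abs_mul, abs_of_pos hg]
  exact mul_le_mul_of_nonneg_left h1 hg.le

theorem int_le {F : ℝ → ℝ} {C : ℝ} (h : ∀ α ∈ Ioc (0 : ℝ) 1, |F α| ≤ C) :
    |∫ α in (0 : ℝ)..1, F α| ≤ C := by
  simpa using intervalIntegral.norm_integral_le_of_norm_le_const (a := 0) (b := 1) (C := C) (f := F)
    fun α hα => h α (by rwa [uIoc_of_le zero_le_one] at hα)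

noncomputable def f (t : ℝ) : ℝ := ∫ α in (0 : ℝ)..1, exp (-(t * (α * (1 - α))))

theorem th1_le {t : ℝ} (ht : 0 < t) : |th1 t - g t * f t| ≤ g t * tail 0 (π ^ 2 / t) := by
  have hs : Summable fun n : ℤ => exp (2 * t) * e 0 (t / 2) n := (sum_e 0 (half_pos ht)).mul_left _
  have hb : ∀ (n : ℤ), ∀ α ∈ uIcc (0 : ℝ) 1,
      ‖exp (-(t * (((n : ℝ) + α) ^ 2 + α * (1 - α))))‖ ≤ exp (2 * t) * e 0 (t / 2) n := by
    intro n α hα
    rw [uIcc_of_le zero_le_one] at hα
    rw [Real.norm_of_nonneg (exp_pos _).le, e, pow_zero, one_mul, ← exp_add]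
    gcongr
    have h1 : 0 ≤ α * (1 - α) := mul_nonneg hα.1 (sub_nonneg.2 hα.2)
    have h2 : (n : ℝ) ^ 2 / 2 - 2 ≤ ((n : ℝ) + α) ^ 2 := by
      nlinarith [sq_nonneg ((n : ℝ) + 2 * α), hα.1, hα.2]
    nlinarith
  have h := intervalIntegral.hasSum_integral_of_dominated_convergence (μ := volume)
    (a := 0) (b := 1) (F := fun (n : ℤ) α => exp (-(t * (((n : ℝ) + α) ^ 2 + α * (1 - α)))))
    (f := fun α => ∑' n : ℤ, exp (-(t * (((n : ℝ) + α) ^ 2 + α * (1 - α)))))
    (fun n _ => exp (2 * t) * e 0 (t / 2) n) (fun n => Continuous.aestronglyMeasurable (by fun_prop))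
    (fun n => ae_of_all _ fun α hα => hb n α (uIoc_subset_uIcc hα)) (ae_of_all _ fun _ _ => hs)
    intervalIntegrable_const
    (ae_of_all _ fun α hα => (hs.of_norm_bounded fun n => hb n α (uIoc_subset_uIcc hα)).hasSum)
  rw [th1, h.tsum_eq, f, ← intervalIntegral.integral_const_mul, ← intervalIntegral.integral_sub
    (continuousOn_tsum (fun n => by fun_prop) hs hb).intervalIntegrable
    (Continuous.intervalIntegrable (by fun_prop) _ _)]
  refine int_le fun α hα => ?_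
  simp only [mul_add t, neg_add, exp_add]
  rw [tsum_mul_right, ← sub_mul, abs_mul]
  refine (mul_le_of_le_one_right (abs_nonneg _) ?_).trans (pois_shift ht α)
  rw [abs_of_pos (exp_pos _), exp_le_one_iff, neg_nonpos]
  exact mul_nonneg ht.le (mul_nonneg hα.1.le (sub_nonneg.2 hα.2))

theorem beta (n : ℕ) : ∀ m : ℕ, ∫ α in (0 : ℝ)..1, α ^ m * (1 - α) ^ n =
    (m.factorial * n.factorial : ℝ) / (m + n + 1).factorial := by
  induction n with
  | zero =>
    intro m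
    have : (m.factorial : ℝ) ≠ 0 := by positivity
    simp [Nat.factorial_succ]
    field_simp
  | succ n ih =>
    intro m
    have h : ∀ α : ℝ, α ^ m * (1 - α) ^ (n + 1) = α ^ m * (1 - α) ^ n - α ^ (m + 1) * (1 - α) ^ n :=
      fun α => by ring
    simp only [h]
    rw [intervalIntegral.integral_sub (Continuous.intervalIntegrable (by fun_prop) _ _)
      (Continuous.intervalIntegrable (by fun_prop) _ _), ih, ih,
      show m + 1 + n + 1 = m + n + 1 + 1 by ring, show m + (n + 1) + 1 = m + n + 1 + 1 by ring,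
      Nat.factorial_succ (m + n + 1), Nat.factorial_succ m, Nat.factorial_succ n]
    have : ((m + n + 1).factorial : ℝ) ≠ 0 := by positivity
    push_cast
    field_simp
    ring

theorem f_taylor {t : ℝ} (ht : 0 < t) (h1 : t ≤ 1) (M : ℕ) (hM : 0 < M) :
    |f t - ∑ k ∈ Finset.range M, phk k * t ^ k| ≤ (M.succ / (M.factorial * M)) * t ^ M := by
  have h : ∑ k ∈ Finset.range M, phk k * t ^ k = ∫ α in (0 : ℝ)..1,
      ∑ k ∈ Finset.range M, (-(t * (α * (1 - α)))) ^ k / k.factorial := by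
    rw [intervalIntegral.integral_finsetSum fun k _ =>
      Continuous.intervalIntegrable (by fun_prop) _ _]
    refine Finset.sum_congr rfl fun k _ => ?_
    have h2 : ∀ α : ℝ, (-(t * (α * (1 - α)))) ^ k / k.factorial =
        ((-1) ^ k * t ^ k / k.factorial) * (α ^ k * (1 - α) ^ k) := fun α => by
      rw [neg_pow, mul_pow, mul_pow]; ring
    simp only [h2]
    rw [intervalIntegral.integral_const_mul, beta, phk, two_mul]
    have : (k.factorial : ℝ) ≠ 0 := by positivity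
    field_simp
  rw [h, f, ← intervalIntegral.integral_sub (Continuous.intervalIntegrable (by fun_prop) _ _)
    (Continuous.intervalIntegrable (by fun_prop) _ _)]
  refine int_le fun α hα => ?_
  have h2 : |-(t * (α * (1 - α)))| ≤ t := by
    have h3 : 0 ≤ α * (1 - α) := mul_nonneg hα.1.le (sub_nonneg.2 hα.2)
    rw [abs_neg, abs_of_nonneg (mul_nonneg ht.le h3)]
    exact mul_le_of_le_one_right ht.le (by nlinarith [hα.1, hα.2])
  refine (Real.exp_bound (h2.trans h1) hM).trans ?_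
  rw [mul_comm]
  gcongr

/-! ### Expansions on the unit interval -/

abbrev l : Filter ℝ := 𝓟 (Ioc 0 1)

theorem big_of {F G : ℝ → ℝ} (C : ℝ) (h : ∀ t, 0 < t → t ≤ 1 → |F t| ≤ C * |G t|) : F =O[l] G :=
  isBigO_principal.2 ⟨C, fun t ht => h t ht.1 ht.2⟩

theorem pow_big (N : ℕ) : (fun t : ℝ => t ^ N) =O[l] fun _ => (1 : ℝ) :=
  big_of 1 fun t h0 h1 => by
    rw [abs_of_pos (pow_pos h0 N), abs_one, one_mul]; exact pow_le_one₀ h0.le h1

/-- functions vanishing to infinite order -/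
def Fl (F : ℝ → ℝ) : Prop := ∀ N : ℕ, F =O[l] fun t => t ^ N

theorem Fl.congr {F G : ℝ → ℝ} (h : Fl F) (e : ∀ t, 0 < t → F t = G t) : Fl G := fun N =>
  (h N).congr' (eventually_principal.2 fun t ht => e t ht.1) EventuallyEq.rfl

theorem Fl.add {F G : ℝ → ℝ} (h : Fl F) (h' : Fl G) : Fl fun t => F t + G t :=
  fun N => (h N).add (h' N)

theorem Fl.mul {F G : ℝ → ℝ} (h : Fl F) (h' : G =O[l] fun _ => (1 : ℝ)) : Fl fun t => F t * G t :=
  fun N => by simpa using (h N).mul h'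

theorem Fl.smul {F : ℝ → ℝ} (h : Fl F) (c : ℝ) : Fl fun t => c * F t :=
  fun N => (h N).const_mul_left c

theorem Fl.div {F : ℝ → ℝ} (h : Fl F) (c : ℝ) : Fl fun t => c / t * F t := fun N =>
  ((isBigO_refl (fun t : ℝ => c / t) l).mul (h (N + 1))).trans (big_of |c| fun t h0 _ => by
    rw [← abs_mul]; apply le_of_eq; congr 1; field_simp; ring)

theorem fl_tail (j : ℕ) : Fl fun t => tail j (π ^ 2 / t) := fun N =>
  big_of (S j 1 * (exp 1 * N.factorial)) fun t h0 h1 => by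
    have hp : 1 ≤ π ^ 2 := one_le_pow₀ (by linarith [pi_gt_three])
    have h2 : 1 / t ≤ π ^ 2 / t := by gcongr
    have h3 : 1 ≤ 1 / t := (one_le_div h0).2 h1
    refine (tail_le j (h3.trans h2)).trans ?_
    rw [mul_assoc]
    refine mul_le_mul_of_nonneg_left ?_ (tsum_nonneg (e_nonneg j 1))
    rw [exp_sub, abs_of_pos (pow_pos h0 N), div_le_iff₀ (exp_pos _), mul_assoc, mul_assoc]
    refine le_mul_of_one_le_right (exp_pos _).le ?_
    have h4 := (Real.pow_div_factorial_le_exp (1 / t) (by positivity) N).trans (exp_le_exp.2 h2)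
    calc (1 : ℝ) = N.factorial * (t ^ N * ((1 / t) ^ N / N.factorial)) := by
          have : (N.factorial : ℝ) ≠ 0 := by positivity
          rw [one_div, inv_pow]; field_simp
      _ ≤ _ := by gcongr

/-- `F` agrees to infinite order with the bounded function `G` -/
def Ap (F G : ℝ → ℝ) : Prop := (Fl fun t => F t - G t) ∧ G =O[l] fun _ => (1 : ℝ)

theorem Ap.bd {F G : ℝ → ℝ} (h : Ap F G) : F =O[l] fun _ => (1 : ℝ) := by
  simpa using ((h.1 0).trans (pow_big 0)).add h.2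

theorem ap_refl {G : ℝ → ℝ} (h : G =O[l] fun _ => (1 : ℝ)) : Ap G G :=
  ⟨fun N => by simpa using isBigO_zero _ _, h⟩

theorem ap_const (c : ℝ) : Ap (fun _ => c) fun _ => c := ap_refl (isBigO_const_const c one_ne_zero l)

theorem ap_id : Ap (fun t => t) fun t => t := ap_refl (by simpa using pow_big 1)

theorem Ap.add {F G F' G' : ℝ → ℝ} (h : Ap F G) (h' : Ap F' G') :
    Ap (fun t => F t + F' t) fun t => G t + G' t :=
  ⟨(h.1.add h'.1).congr fun t _ => by ring, h.2.add h'.2⟩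

theorem Ap.mul {F G F' G' : ℝ → ℝ} (h : Ap F G) (h' : Ap F' G') :
    Ap (fun t => F t * F' t) fun t => G t * G' t :=
  ⟨((h.1.mul h'.bd).add (h'.1.mul h.2)).congr fun t _ => by ring, by simpa using h.2.mul h'.2⟩

theorem ap_of {F : ℝ → ℝ} {c : ℝ} (h : Fl fun t => F t - c) : Ap F fun _ => c :=
  ⟨h, (ap_const c).2⟩

theorem ap0 : Ap (fun t => S 0 t / g t) fun _ => 1 :=
  ap_of ((fl_tail 0).congr fun t ht => by
    have := g_pos ht
    rw [pois0 ht, S_tail 0 (t := π ^ 2 / t) (by positivity)]; field_simp; ring)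

theorem ap1 : Ap (fun t => t * S 1 t / g t) fun _ => 1 / 2 :=
  ap_of ((((fl_tail 0).smul (1 / 2)).add (((fl_tail 1).div (π ^ 2)).smul (-1))).congr fun t ht => by
    have := g_pos ht
    rw [pois1 ht, S_tail 0 (t := π ^ 2 / t) (by positivity),
      S_tail 1 (t := π ^ 2 / t) (by positivity)]; field_simp; ring)

theorem ap2 : Ap (fun t => t ^ 2 * S 2 t / g t) fun _ => 3 / 4 :=
  ap_of (((((fl_tail 0).smul (3 / 4)).add (((fl_tail 1).div (π ^ 2)).smul (-3))).add
    (((fl_tail 2).div (π ^ 2)).div (π ^ 2))).congr fun t ht => by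
      have := g_pos ht
      rw [pois2 ht, S_tail 0 (t := π ^ 2 / t) (by positivity),
        S_tail 1 (t := π ^ 2 / t) (by positivity), S_tail 2 (t := π ^ 2 / t) (by positivity)]
      field_simp; ring)

/-- asymptotic expansions -/
def Ex (F : ℝ → ℝ) (c : ℕ → ℝ) : Prop :=
  ∀ M : ℕ, (fun t => F t - ∑ k ∈ Finset.range M, c k * t ^ k) =O[l] fun t => t ^ M

theorem ex_f : Ex f phk := by
  have h : ∀ M, 0 < M → (fun t => f t - ∑ k ∈ Finset.range M, phk k * t ^ k) =O[l]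
      fun t => t ^ M := fun M hM => big_of _ fun t h0 h1 => by
    rw [abs_of_pos (pow_pos h0 M)]; exact f_taylor h0 h1 M hM
  intro M
  rcases M.eq_zero_or_pos with rfl | hM
  · simpa using ((h 1 one_pos).trans (pow_big 1)).add (ap_const (phk 0)).2
  · exact h M hM

theorem ap3 : Ap (fun t => th1 t / g t) f :=
  ⟨fun N => (big_of 1 fun t ht _ => by
    have h0 := g_pos ht
    rw [show th1 t / g t - f t = (th1 t - g t * f t) / g t by field_simp, abs_div, abs_of_pos h0,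
      div_le_iff₀ h0, one_mul, mul_comm _ (g t)]
    exact (th1_le ht).trans (mul_le_mul_of_nonneg_left (le_abs_self _) h0.le)).trans (fl_tail 0 N),
    by simpa using ex_f 0⟩

theorem Ex.add {F G : ℝ → ℝ} {c d : ℕ → ℝ} (h : Ex F c) (h' : Ex G d) :
    Ex (fun t => F t + G t) fun k => c k + d k := fun M =>
  ((h M).add (h' M)).congr_left fun t => by simp only [add_mul, Finset.sum_add_distrib]; ring

theorem Ex.smul {F : ℝ → ℝ} {c : ℕ → ℝ} (h : Ex F c) (a : ℝ) :
    Ex (fun t => a * F t) fun k => a * c k := fun M =>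
  ((h M).const_mul_left a).congr_left fun t => by simp only [mul_sub, Finset.mul_sum, mul_assoc]

/-- shifted coefficients -/
def sh (a : ℝ) (c : ℕ → ℝ) : ℕ → ℝ
  | 0 => a
  | k + 1 => c k

theorem Ex.shift {F : ℝ → ℝ} {c : ℕ → ℝ} (h : Ex F c) (a : ℝ) :
    Ex (fun t => a + t * F t) (sh a c) := by
  intro M
  cases M with
  | zero =>
    have h1 : (fun t => t * F t) =O[l] fun _ => (1 : ℝ) := by simpa using ap_id.2.mul (h 0)
    simpa using (ap_const a).2.add h1
  | succ M =>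
    refine ((isBigO_refl (fun t : ℝ => t) l).mul (h M)).congr (fun t => ?_) fun t => by ring
    rw [Finset.sum_range_succ', mul_sub, Finset.mul_sum]
    simp only [sh, pow_succ, pow_zero, mul_one]
    rw [Finset.sum_congr rfl fun k _ => show t * (c k * t ^ k) = c k * (t ^ k * t) by ring]
    ring

theorem ex_zero : Ex (fun _ => 0) fun _ => 0 := fun M => by simpa using isBigO_zero _ _

theorem Ex.of_ap {F F' G H : ℝ → ℝ} {c : ℕ → ℝ} (h : Ap F G) (h' : Ex H c) (e : ∀ t, G t = H t)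
    (e' : ∀ t, 0 < t → F' t = F t) : Ex F' c := fun M => ((h.1 M).add (h' M)).congr'
  (eventually_principal.2 fun t ht => by simp only [e, e' t ht.1]; ring) EventuallyEq.rfl

theorem phk_succ (k : ℕ) : phk k = -2 * (2 * k + 3) * phk (k + 1) := by
  unfold phk
  rw [show 2 * (k + 1) + 1 = 2 * k + 1 + 1 + 1 by ring, Nat.factorial_succ (2 * k + 1 + 1),
    Nat.factorial_succ (2 * k + 1), Nat.factorial_succ k]
  have : ((2 * k + 1).factorial : ℝ) ≠ 0 := by positivity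
  push_cast
  field_simp
  ring

/-! ### Double sums -/

theorem hs_congr {F G : ℤ × ℤ → ℝ} {a : ℝ} (h : HasSum F a) (e : ∀ z, G z = F z) : HasSum G a :=
  (funext e : G = F) ▸ h

theorem hs2 (i j : ℕ) {t : ℝ} (ht : 0 < t) :
    HasSum (fun z : ℤ × ℤ => e i t z.1 * e j t z.2) (S i t * S j t) :=
  (sum_e i ht).hasSum.mul (sum_e j ht).hasSum
    ((sum_e i ht).mul_of_nonneg (sum_e j ht) (e_nonneg i t) (e_nonneg j t))

theorem exp_kap (t : ℝ) (z : ℤ × ℤ) :
    exp (-(t * kap z)) = exp (-(t * (z.1 : ℝ) ^ 2)) * exp (-(t * (z.2 : ℝ) ^ 2)) := by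
  rw [kap, mul_add, neg_add, exp_add]

theorem hsA0 {t : ℝ} (ht : 0 < t) : HasSum (zA0 t) (S 0 t * S 0 t * S 0 t) := by
  refine hs_congr ((hs2 0 0 ht).mul_right (S 0 t)) fun z => ?_
  simp only [zA0, exp_kap, th0_eq, e, pow_zero, one_mul]

theorem hsA2 (p q : ℝ) {t : ℝ} (ht : 0 < t) : HasSum (zA2 p q t)
    (-(S 0 t * t) * ((p + q) ^ 2 / 8 * (S 0 t * S 0 t) + p ^ 2 * (S 1 t * S 0 t) +
      q ^ 2 * (S 0 t * S 1 t)) + t ^ 2 * th1 t / 4 * ((p + q) ^ 2 / 4 * (S 0 t * S 0 t) +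
      4 * p ^ 2 * (S 2 t * S 0 t) + 4 * q ^ 2 * (S 0 t * S 2 t) + 2 * (p + q) * p * (S 1 t * S 0 t) +
      2 * (p + q) * q * (S 0 t * S 1 t) + 8 * p * q * (S 1 t * S 1 t))) := by
  refine hs_congr ((((((hs2 0 0 ht).mul_left _).add ((hs2 1 0 ht).mul_left _)).add
    ((hs2 0 1 ht).mul_left _)).mul_left _).add ((((((((hs2 0 0 ht).mul_left _).add
    ((hs2 2 0 ht).mul_left _)).add ((hs2 0 2 ht).mul_left _)).add ((hs2 1 0 ht).mul_left _)).add
    ((hs2 0 1 ht).mul_left _)).add ((hs2 1 1 ht).mul_left _)).mul_left _)) fun z => ?_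
  simp only [zA2, exp_kap, th0_eq, e, mT, wT]
  ring

theorem norm_g {t : ℝ} (ht : 0 < t) : (4 * π * t) ^ (3 / 2 : ℝ) = (2 * π) ^ 3 / g t ^ 3 := by
  have hp := pi_pos
  have h0 := g_pos ht
  have h1 : 4 * π * t = (2 * π / g t) ^ (2 : ℕ) := by rw [div_pow, g_sq ht]; field_simp; ring
  rw [h1, ← Real.rpow_natCast, ← Real.rpow_mul (by positivity), ← div_pow, ← Real.rpow_natCast]
  norm_num

theorem th0_le : ∃ C : ℝ, 0 ≤ C ∧ ∀ t, 0 < t → t ≤ 1 → |S 0 t| ≤ C / t := by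
  obtain ⟨C, hC⟩ := isBigO_principal.1 ap0.bd
  refine ⟨2 * |C|, by positivity, fun t h0 h1 => ?_⟩
  have h2 := hC t ⟨h0, h1⟩
  have h3 := g_pos h0
  rw [norm_one, mul_one, Real.norm_eq_abs, abs_div, abs_of_pos h3, div_le_iff₀ h3] at h2
  have h4 : g t ≤ 2 / t := by
    refine sqrt_le_iff.2 ⟨by positivity, ?_⟩
    rw [div_pow, div_le_div_iff₀ h0 (by positivity)]
    nlinarith [pi_le_four, mul_pos h0 h0, pi_pos]
  calc |S 0 t| ≤ C * g t := h2
    _ ≤ |C| * (2 / t) := by gcongr; exact le_abs_self C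
    _ = _ := by ring

theorem wt_le {t x : ℝ} (h0 : 0 < t) (h1 : t ≤ 1) (hx : 0 ≤ x) :
    (1 + x) ^ 3 * exp (-(t * x / 2)) ≤ 12 ^ 3 / t ^ 3 * exp (-(t / 4 * x)) := by
  have h2 : 1 + x ≤ 12 / t * exp (t * x / 12) := by
    rw [div_mul_eq_mul_div, le_div_iff₀ h0]
    nlinarith [add_one_le_exp (t * x / 12)]
  calc (1 + x) ^ 3 * exp (-(t * x / 2)) ≤ (12 / t * exp (t * x / 12)) ^ 3 * exp (-(t * x / 2)) := by
        gcongr
    _ = _ := by
        rw [mul_pow, div_pow, ← exp_nat_mul, mul_assoc, ← exp_add]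
        congr 2
        push_cast
        ring

theorem final (p q : ℝ) {c : ℕ → ℝ}
    (hF : Ex (fun t => (4 * π * t) ^ (3 / 2 : ℝ) * ∑' z, zA2 p q t z) c) (N : ℕ) : ∃ C : ℝ,
    ∀ t, 0 < t → t ≤ 1 → Summable (zA0 t) ∧ Summable (zA2 p q t) ∧
      |(4 * π * t) ^ (3 / 2 : ℝ) * ∑' z, zA0 t z - (2 * π) ^ 3| ≤ C * t ^ (N + 1) ∧
      |(4 * π * t) ^ (3 / 2 : ℝ) * ∑' z, zA2 p q t z -
        ∑ k ∈ Finset.range (N + 1), c k * t ^ k| ≤ C * t ^ (N + 1) := by
  obtain ⟨C1, h1⟩ := isBigO_principal.1 (hF (N + 1))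
  obtain ⟨C2, h2⟩ := isBigO_principal.1
    (((ap_const ((2 * π) ^ 3)).mul ((ap0.mul ap0).mul ap0)).1 (N + 1))
  refine ⟨max C1 C2, fun t t0 t1 => ⟨(hsA0 t0).summable, (hsA2 p q t0).summable, ?_, ?_⟩⟩
  · have h3 := h2 t ⟨t0, t1⟩
    have h4 := g_pos t0
    rw [Real.norm_of_nonneg (pow_pos t0 _).le, Real.norm_eq_abs] at h3
    rw [(hsA0 t0).tsum_eq, norm_g t0]
    refine le_trans (le_of_eq ?_) (h3.trans (by gcongr; exact le_max_right _ _))
    congr 1
    field_simp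
  · have h3 := h1 t ⟨t0, t1⟩
    rw [Real.norm_of_nonneg (pow_pos t0 _).le, Real.norm_eq_abs] at h3
    exact h3.trans (by gcongr; exact le_max_left _ _)

end TrC

open TrC in
theorem trC_holds : TrCStmt := by
  refine ⟨?_, fun p q => ?_⟩
  · obtain ⟨C, hC0, hC⟩ := th0_le
    refine ⟨C + 12 ^ 3 * (4 * C) ^ 2, fun t h0 h1 => ?_⟩
    have h4 : 0 < t / 4 := by positivity
    have hs := (hs2 0 0 h4).mul_left (12 ^ 3 / t ^ 3)
    have hk : ∀ z, 0 ≤ kap z := fun z => by unfold kap; positivity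
    have hb : ∀ z, (1 + kap z) ^ 3 * exp (-(t * kap z / 2)) ≤
        12 ^ 3 / t ^ 3 * (e 0 (t / 4) z.1 * e 0 (t / 4) z.2) := fun z => by
      simpa only [e, pow_zero, one_mul, exp_kap] using wt_le h0 h1 (hk z)
    have hs' : Summable fun z => (1 + kap z) ^ 3 * exp (-(t * kap z / 2)) :=
      hs.summable.of_nonneg_of_le (fun z => by have := hk z; positivity) hb
    refine ⟨?_, hs', (hs'.tsum_le_tsum hb hs.summable).trans ?_⟩
    · rw [th0_eq]
      refine (hC t h0 h1).trans ?_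
      gcongr
      exact le_add_of_nonneg_right (by positivity)
    · rw [hs.tsum_eq, ← abs_mul_abs_self]
      have h5 := hC (t / 4) h4 (by linarith)
      calc 12 ^ 3 / t ^ 3 * (|S 0 (t / 4)| * |S 0 (t / 4)|)
          ≤ 12 ^ 3 / t ^ 3 * (C / (t / 4) * (C / (t / 4))) := by gcongr
        _ = 12 ^ 3 * (4 * C) ^ 2 / t ^ 5 := by field_simp
        _ ≤ _ := by gcongr; exact le_add_of_nonneg_left hC0
  have hE := ((((ex_zero.shift (-((p + q) ^ 2 / 8))).shift (-((p ^ 2 + q ^ 2) / 2))).add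
    (ex_f.smul (((p + q) ^ 2 + 2 * (p ^ 2 + q ^ 2)) / 4))).add
    (((ex_f.smul ((p + q) ^ 2 / 4)).add ((ex_f.smul ((p + q) ^ 2 / 16)).shift 0)).shift 0)).smul
    ((2 * π) ^ 3)
  have k := fun c => ap_const c
  have hA := (k ((2 * π) ^ 3)).mul ((((k (-1)).mul ap0).mul
    (((((k ((p + q) ^ 2 / 8)).mul ap_id).mul (ap0.mul ap0)).add ((k (p ^ 2)).mul (ap1.mul ap0))).add
      ((k (q ^ 2)).mul (ap0.mul ap1)))).add (((k (1 / 4)).mul ap3).mul
    ((((((((k ((p + q) ^ 2 / 4)).mul (ap_id.mul ap_id)).mul (ap0.mul ap0)).add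
      ((k (4 * p ^ 2)).mul (ap2.mul ap0))).add ((k (4 * q ^ 2)).mul (ap0.mul ap2))).add
      (((k (2 * (p + q) * p)).mul ap_id).mul (ap1.mul ap0))).add
      (((k (2 * (p + q) * q)).mul ap_id).mul (ap0.mul ap1))).add
      ((k (8 * p * q)).mul (ap1.mul ap1)))))
  refine ⟨_, fun k hk => ?_, final p q (Ex.of_ap hA hE (fun t => by ring) fun t t0 => ?_)⟩
  · obtain ⟨k, rfl⟩ := Nat.exists_eq_add_of_le' hk
    simp only [sh, cTest]
    rw [phk_succ k, phk_succ (k + 1)]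
    push_cast
    ring
  · have h4 := g_pos t0
    rw [(hsA2 p q t0).tsum_eq, norm_g t0]
    field_simp

end Pool.Agent.Lib.MP_1a4aff_gt.I3
end
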