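import Pool.Agent.Lib.MP_1a4aff_gt.I3.BrB

-- part Pool.Agent.Lib.MP_1a4aff_gt.I3.TrA
section

/-! The explicit test tori. -/

set_option autoImplicit false

open MeasureTheory Set Filter Topology Metric Real
open scoped ContDiff RealInnerProductSpace

namespace Pool.Agent.Lib.MP_1a4aff_gt.I3

namespace TrA

@[simp] theorem tor0 (x : E3) : tor x 0 = cos (x 0) := rfl
@[simp] theorem tor1 (x : E3) : tor x 1 = sin (x 0) := rfl
@[simp] theorem tor2 (x : E3) : tor x 2 = cos (x 1) := rfl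
@[simp] theorem tor3 (x : E3) : tor x 3 = sin (x 1) := rfl
@[simp] theorem tor4 (x : E3) : tor x 4 = cos (x 2) := rfl
@[simp] theorem tor5 (x : E3) : tor x 5 = sin (x 2) := rfl

theorem A6_ext {a b : Amb 6} (h0 : a 0 = b 0) (h1 : a 1 = b 1) (h2 : a 2 = b 2) (h3 : a 3 = b 3)
    (h4 : a 4 = b 4) (h5 : a 5 = b 5) : a = b := by
  ext i; fin_cases i <;> assumption

theorem contDiff_tor : ContDiff ℝ ∞ tor := by
  refine contDiff_euclidean.2 fun i => ?_
  fin_cases i <;> simp <;> fun_prop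

theorem diff_tor (x : E3) : DifferentiableAt ℝ tor x := contDiff_tor.differentiable (by simp) x

theorem fderiv_tor (x w : E3) : fderiv ℝ tor x w = WithLp.toLp 2
    ![-sin (x 0) * w 0, cos (x 0) * w 0, -sin (x 1) * w 1, cos (x 1) * w 1,
      -sin (x 2) * w 2, cos (x 2) * w 2] := by
  have h : ∀ i, fderiv ℝ tor x w i = fderiv ℝ (fun y => tor y i) x w := fun i =>
    (congrArg (fun L : E3 →L[ℝ] ℝ => L w) ((EuclideanSpace.proj (𝕜 := ℝ) i).hasFDerivAt.comp x
      (diff_tor x).hasFDerivAt).fderiv).symm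
  have p : ∀ i : Fin 3, HasFDerivAt (fun y : E3 => y i) (EuclideanSpace.proj (𝕜 := ℝ) i) x :=
    fun i => (EuclideanSpace.proj (𝕜 := ℝ) i).hasFDerivAt
  refine A6_ext ?_ ?_ ?_ ?_ ?_ ?_ <;> rw [h]
  · exact congrArg (fun L : E3 →L[ℝ] ℝ => L w) (p 0).cos.fderiv
  · exact congrArg (fun L : E3 →L[ℝ] ℝ => L w) (p 0).sin.fderiv
  · exact congrArg (fun L : E3 →L[ℝ] ℝ => L w) (p 1).cos.fderiv
  · exact congrArg (fun L : E3 →L[ℝ] ℝ => L w) (p 1).sin.fderiv
  · exact congrArg (fun L : E3 →L[ℝ] ℝ => L w) (p 2).cos.fderiv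
  · exact congrArg (fun L : E3 →L[ℝ] ℝ => L w) (p 2).sin.fderiv

theorem dg_apply (a b : ℝ) (v : E3) : dg a b v = WithLp.toLp 2 ![v 0, a * v 1, b * v 2] := by
  refine E3_ext ?_ ?_ ?_ <;> simp [dg, Matrix.mulVec_diagonal]

/-- the fundamental cube -/
def box : Set E3 := {x | ∀ i, x i ∈ Ioc 0 (2 * π)}

theorem meas_box : MeasurableSet box := by
  have : box = ⋂ i, (fun x : E3 => x i) ⁻¹' Ioc 0 (2 * π) := by ext x; simp [box]
  rw [this]
  exact MeasurableSet.iInter fun i => measurableSet_Ioc.preimage (by fun_prop)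

theorem exists_box (x : E3) : ∃ y ∈ box, tor y = tor x := by
  have h : ∀ a : ℝ, ∃ b ∈ Ioc 0 (2 * π), cos b = cos a ∧ sin b = sin a := fun a => by
    refine ⟨toIocMod two_pi_pos 0 a, by simpa using toIocMod_mem_Ioc two_pi_pos 0 a, ?_⟩
    rw [← self_sub_toIocDiv_zsmul, zsmul_eq_mul]
    exact ⟨cos_sub_int_mul_two_pi _ _, sin_sub_int_mul_two_pi _ _⟩
  choose b hb hc hs using h
  exact ⟨WithLp.toLp 2 fun i => b (x i), fun i => hb _,
    A6_ext (hc _) (hs _) (hc _) (hs _) (hc _) (hs _)⟩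

theorem injOn_box : InjOn tor box := fun x hx y hy h => by
  have key : ∀ i, cos (x i) = cos (y i) → sin (x i) = sin (y i) → x i = y i := fun i hc hs => by
    have h1 := hx i
    have h2 := hy i
    rw [← sub_eq_zero, ← cos_eq_one_iff_of_lt_of_lt (by linarith [h1.1, h2.2])
      (by linarith [h1.2, h2.1]), cos_sub, hc, hs, ← sq, ← sq, cos_sq_add_sin_sq]
  have e := fun i => congrArg (fun P : Amb 6 => P i) h
  exact E3_ext (key 0 (e 0) (e 1)) (key 1 (e 2) (e 3)) (key 2 (e 4) (e 5))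

theorem cpt : IsCompact (range tor) := by
  have : range tor = tor '' closedBall 0 20 := by
    refine Subset.antisymm ?_ (image_subset_range _ _)
    rintro _ ⟨x, rfl⟩
    obtain ⟨y, hy, h⟩ := exists_box x
    refine ⟨y, mem_closedBall_zero_iff.2 (abs_le_of_sq_le_sq' ?_ (by norm_num)).2, h⟩
    have e : ∀ i, y i ^ 2 ≤ 64 := fun i => by nlinarith [(hy i).1, (hy i).2, pi_le_four]
    rw [normSq_E3]
    linarith [e 0, e 1, e 2]
  rw [this]
  exact (isCompact_closedBall _ _).image contDiff_tor.continuous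

/-- the angle of `(c, s)` near `a` -/
noncomputable def ang (a c s : ℝ) : ℝ :=
  a + arctan ((s * cos a - c * sin a) / (c * cos a + s * sin a))

theorem ang_cos_sin {a y : ℝ} (h : |y - a| < π / 2) : ang a (cos y) (sin y) = y := by
  rw [ang, ← sin_sub, ← cos_sub, ← tan_eq_sin_div_cos,
    arctan_tan (abs_lt.1 h).1 (abs_lt.1 h).2, add_sub_cancel]

theorem abs_ang (a c s : ℝ) : |ang a c s - a| < π / 2 := by
  rw [ang, add_sub_cancel_left]
  exact abs_lt.2 ⟨neg_pi_div_two_lt_arctan _, arctan_lt_pi_div_two _⟩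

theorem cos_sin_ang {a y : ℝ} (h : 0 < cos y * cos a + sin y * sin a) :
    cos (ang a (cos y) (sin y)) = cos y ∧ sin (ang a (cos y) (sin y)) = sin y := by
  rw [← cos_sub] at h
  have h1 : √(1 + tan (y - a) ^ 2) = (cos (y - a))⁻¹ := by
    rw [← inv_sqrt_one_add_tan_sq h, inv_inv]
  have h2 : cos (arctan (tan (y - a))) = cos (y - a) := by rw [cos_arctan, h1]; simp
  have h3 : sin (arctan (tan (y - a))) = sin (y - a) := by
    rw [sin_arctan, h1, div_inv_eq_mul, tan_mul_cos h.ne']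
  rw [ang, ← sin_sub, ← cos_sub, ← tan_eq_sin_div_cos, cos_add, sin_add, h2, h3, ← cos_add,
    ← sin_add, add_sub_cancel]
  exact ⟨rfl, rfl⟩

theorem contDiffOn_ang (a : ℝ) (i j : Fin 6) {U : Set (Amb 6)}
    (h : ∀ P ∈ U, 0 < P i * cos a + P j * sin a) :
    ContDiffOn ℝ ∞ (fun P : Amb 6 => ang a (P i) (P j)) U :=
  contDiffOn_const.add (contDiff_arctan.comp_contDiffOn
    (ContDiffOn.div (by fun_prop) (by fun_prop) fun P hP => (h P hP).ne'))

/-- the chart around `tor a` -/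
noncomputable def chart (a : E3) : Chart (range tor) where
  j := tor
  r P := WithLp.toLp 2 ![ang (a 0) (P 0) (P 1), ang (a 1) (P 2) (P 3), ang (a 2) (P 4) (P 5)]
  U := {P | 0 < P 0 * cos (a 0) + P 1 * sin (a 0) ∧ 0 < P 2 * cos (a 1) + P 3 * sin (a 1) ∧
    0 < P 4 * cos (a 2) + P 5 * sin (a 2)}
  V := {y | |y 0 - a 0| < π / 2 ∧ |y 1 - a 1| < π / 2 ∧ |y 2 - a 2| < π / 2}
  openU := by
    refine IsOpen.and (isOpen_lt ?_ ?_) (IsOpen.and (isOpen_lt ?_ ?_) (isOpen_lt ?_ ?_)) <;>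
      fun_prop
  openV := by
    refine IsOpen.and (isOpen_lt ?_ ?_) (IsOpen.and (isOpen_lt ?_ ?_) (isOpen_lt ?_ ?_)) <;>
      fun_prop
  smj := contDiff_tor.contDiffOn
  smr := by
    refine contDiffOn_euclidean.2 fun i => ?_
    fin_cases i
    · exact contDiffOn_ang _ 0 1 fun P hP => hP.1
    · exact contDiffOn_ang _ 2 3 fun P hP => hP.2.1
    · exact contDiffOn_ang _ 4 5 fun P hP => hP.2.2
  jmem := fun y hy => by
    have e : ∀ i, |y i - a i| < π / 2 → 0 < cos (y i) * cos (a i) + sin (y i) * sin (a i) :=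
      fun i h => by
        rw [← cos_sub]
        exact cos_pos_of_mem_Ioo (abs_lt.1 h)
    exact ⟨⟨y, rfl⟩, e 0 hy.1, e 1 hy.2.1, e 2 hy.2.2⟩
  rmem := fun P _ => ⟨abs_ang _ _ _, abs_ang _ _ _, abs_ang _ _ _⟩
  rj := fun y hy => E3_ext (ang_cos_sin hy.1) (ang_cos_sin hy.2.1) (ang_cos_sin hy.2.2)
  jr := by
    rintro _ ⟨⟨y, rfl⟩, h0, h1, h2⟩
    exact A6_ext (cos_sin_ang h0).1 (cos_sin_ang h0).2 (cos_sin_ang h1).1 (cos_sin_ang h1).2
      (cos_sin_ang h2).1 (cos_sin_ang h2).2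

/-- the squares of the coordinate forms -/
noncomputable def bb (i : Fin 6) : Amb 6 →L[ℝ] Amb 6 →L[ℝ] ℝ :=
  (EuclideanSpace.proj (𝕜 := ℝ) i).smulRight (EuclideanSpace.proj (𝕜 := ℝ) i)

theorem bb_apply (i : Fin 6) (X Y : Amb 6) : bb i X Y = X i * Y i := rfl

/-- the metric -/
noncomputable def gg (ε p q : ℝ) (P : Amb 6) : Amb 6 →L[ℝ] Amb 6 →L[ℝ] ℝ :=
  bb 0 + bb 1 + exp (2 * ε * p * P 0) • (bb 2 + bb 3) + exp (2 * ε * q * P 0) • (bb 4 + bb 5)

theorem gg_apply (ε p q : ℝ) (P X Y : Amb 6) : gg ε p q P X Y = X 0 * Y 0 + X 1 * Y 1 +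
    exp (2 * ε * p * P 0) * (X 2 * Y 2 + X 3 * Y 3) +
    exp (2 * ε * q * P 0) * (X 4 * Y 4 + X 5 * Y 5) := rfl

/-- the test torus -/
noncomputable def data (ε p q : ℝ) : Data 6 where
  S := range tor
  cpt := cpt
  ne := range_nonempty _
  ch := by
    rintro _ ⟨a, rfl⟩
    refine ⟨chart a, ((chart a).jmem (x := a) ?_).2⟩
    refine ⟨?_, ?_, ?_⟩ <;> simp [pi_pos]
  g := gg ε p q
  smg := by
    refine contDiff_clm_apply_iff.2 fun X => contDiff_clm_apply_iff.2 fun Y => ?_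
    simp only [gg_apply]
    fun_prop
  symm := fun P X Y => by rw [gg_apply, gg_apply]; ring
  pos := fun P _ X _ hX => by
    by_contra hc
    have h1 := exp_pos (2 * ε * p * P 0)
    have h2 := exp_pos (2 * ε * q * P 0)
    rw [gg_apply, not_lt] at hc
    have e := fun i => mul_self_nonneg (X i)
    have a1 := mul_nonneg h1.le (add_nonneg (e 2) (e 3))
    have a2 := mul_nonneg h2.le (add_nonneg (e 4) (e 5))
    have b1 : X 2 * X 2 + X 3 * X 3 ≤ 0 :=
      nonpos_of_mul_nonpos_right (by linarith [e 0, e 1]) h1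
    have b2 : X 4 * X 4 + X 5 * X 5 ≤ 0 :=
      nonpos_of_mul_nonpos_right (by linarith [e 0, e 1]) h2
    have z : ∀ i, X i * X i ≤ 0 → X i = (0 : Amb 6) i := fun i h =>
      mul_self_eq_zero.1 (le_antisymm h (e i))
    exact hX (A6_ext (z 0 (by linarith [e 1])) (z 1 (by linarith [e 0])) (z 2 (by linarith [e 3]))
      (z 3 (by linarith [e 2])) (z 4 (by linarith [e 5])) (z 5 (by linarith [e 4])))

variable {ε p q : ℝ}

theorem g_tor {D : Data 6} (hD : IsTor ε p q D) (x v w : E3) :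
    D.g (tor x) (fderiv ℝ tor x v) (fderiv ℝ tor x w) = v 0 * w 0 +
      exp (2 * ε * p * cos (x 0)) * (v 1 * w 1) + exp (2 * ε * q * cos (x 0)) * (v 2 * w 2) := by
  rw [hD.2, fderiv_tor, fderiv_tor]
  simp
  linear_combination (v 0 * w 0) * sin_sq_add_cos_sq (x 0) +
    exp (2 * ε * p * cos (x 0)) * (v 1 * w 1) * sin_sq_add_cos_sq (x 1) +
    exp (2 * ε * q * cos (x 0)) * (v 2 * w 2) * sin_sq_add_cos_sq (x 2)

theorem exp_sq (c t : ℝ) : exp (-(ε * c * t)) * exp (-(ε * c * t)) = exp (-(2 * ε * c * t)) := by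
  rw [← exp_add]; congr 1; ring

theorem sec_mem {D : Data 6} (hD : IsTor ε p q D) (x : E3) : sec ε p q x ∈ D.F := by
  refine ⟨hD.1 ▸ ⟨x, rfl⟩, fun v => ?_, fun v w => ?_⟩
  · rw [hD.1]
    exact fderiv_mem_tangentCone (diff_tor x) (Eventually.of_forall fun y => mem_range_self y) _
  · refine (g_tor hD x (dg _ _ v) (dg _ _ w)).trans ?_
    have e : ∀ c : ℝ, exp (2 * ε * c * cos (x 0)) *
        (exp (-(ε * c * cos (x 0))) * exp (-(ε * c * cos (x 0)))) = 1 := fun c => by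
      rw [exp_sq, ← exp_add, add_neg_cancel, exp_zero]
    rw [dg_apply, dg_apply, inner_E3]
    simp
    linear_combination (v 1 * w 1) * e p + (v 2 * w 2) * e q

theorem gram_tor {D : Data 6} (hD : IsTor ε p q D) (x : E3) :
    √(gram (D.g (tor x)) (fderiv ℝ tor x)) = exp (ε * (p + q) * cos (x 0)) := by
  rw [sqrt_eq_iff_mul_self_eq_of_pos (exp_pos _), gram, Matrix.det_fin_three]
  simp only [Matrix.of_apply, g_tor hD]
  simp [← exp_add]
  ring

theorem integral_box {F : E3 → ℝ} (hF : Continuous F) : ∫ x in box, F x = cube F := by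
  let e : (ℝ × ℝ × ℝ) ≃ᵐ E3 :=
    ((MeasurableEquiv.piFinSuccAbove (fun _ : Fin 3 => ℝ) 0).trans
      ((MeasurableEquiv.refl ℝ).prodCongr MeasurableEquiv.finTwoArrow)).symm.trans
      (MeasurableEquiv.toLp 2 _)
  have he : MeasurePreserving e volume volume :=
    (PiLp.volume_preserving_toLp (Fin 3)).comp
      (((MeasurePreserving.id volume).prod (volume_preserving_finTwoArrow ℝ)).comp
        (volume_preserving_piFinSuccAbove (fun _ : Fin 3 => ℝ) 0) :
        MeasurePreserving ((MeasurableEquiv.piFinSuccAbove (fun _ : Fin 3 => ℝ) 0).trans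
          ((MeasurableEquiv.refl ℝ).prodCongr MeasurableEquiv.finTwoArrow)) volume volume).symm
  have h1 : ∀ z, e z = WithLp.toLp 2 ![z.1, z.2.1, z.2.2] := fun z => E3_ext rfl rfl rfl
  have h2 : e ⁻¹' box = Ioc 0 (2 * π) ×ˢ Ioc 0 (2 * π) ×ˢ Ioc 0 (2 * π) := by
    ext z
    simp [box, h1, Fin.forall_fin_succ]
  have hc : Continuous fun z : ℝ × ℝ × ℝ => F (WithLp.toLp 2 ![z.1, z.2.1, z.2.2]) :=
    hF.comp (by fun_prop)
  rw [← he.setIntegral_preimage_emb e.measurableEmbedding, h2]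
  simp only [h1, cube, intervalIntegral.integral_of_le two_pi_pos.le]
  rw [Measure.volume_eq_prod, setIntegral_prod _
    ((hc.continuousOn.integrableOn_compact
      (isCompact_Icc.prod (isCompact_Icc.prod isCompact_Icc))).mono_set
      (prod_mono Ioc_subset_Icc_self (prod_mono Ioc_subset_Icc_self Ioc_subset_Icc_self)))]
  refine integral_congr_ae (Eventually.of_forall fun x => ?_)
  exact setIntegral_prod _
    (((hc.comp (Continuous.prodMk_right x)).continuousOn.integrableOn_compact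
      (isCompact_Icc.prod isCompact_Icc)).mono_set
      (prod_mono Ioc_subset_Icc_self Ioc_subset_Icc_self))

theorem mu_eq {D : Data 6} (hD : IsTor ε p q D) {μ : Measure (Amb 6)} (hμ : IsArea D μ) :
    μ = ((volume.restrict box).withDensity
      fun x => ENNReal.ofReal (exp (ε * (p + q) * cos (x 0)))).map tor := by
  have hm := contDiff_tor.continuous.measurable
  ext T hT
  have h1 : tor '' (tor ⁻¹' T ∩ box) = T ∩ D.S := by
    rw [hD.1]
    refine Subset.antisymm ?_ ?_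
    · rintro _ ⟨x, hx, rfl⟩
      exact ⟨hx.1, x, rfl⟩
    · rintro _ ⟨h, x, rfl⟩
      obtain ⟨y, hy, e⟩ := exists_box x
      exact ⟨y, ⟨by rwa [mem_preimage, e], hy⟩, e⟩
  rw [Measure.map_apply hm hT, withDensity_apply _ (hm hT), Measure.restrict_restrict (hm hT),
    ← measure_inter_conull hμ.conc, ← h1, hμ.area tor univ isOpen_univ
      (contDiff_tor.of_le (by simp)).contDiffOn (fun x _ => hD.1 ▸ ⟨x, rfl⟩) _ (subset_univ _)
      ((hm hT).inter meas_box) (injOn_box.mono inter_subset_right)]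
  simp only [gram_tor hD]

theorem integral_mu (G : Geo 6) (hG : IsTor ε p q G.toData) {f : Amb 6 → ℝ} (hf : Continuous f) :
    ∫ P, f P ∂G.mu = cube fun x => f (tor x) * exp (ε * (p + q) * cos (x 0)) := by
  rw [mu_eq hG G.area, integral_map contDiff_tor.continuous.aemeasurable hf.aestronglyMeasurable,
    integral_withDensity_eq_integral_toReal_smul (by fun_prop)
      (Eventually.of_forall fun _ => ENNReal.ofReal_lt_top),
    ← integral_box (F := fun x => f (tor x) * exp (ε * (p + q) * cos (x 0)))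
      ((hf.comp contDiff_tor.continuous).mul (by fun_prop))]
  refine integral_congr_ae (Eventually.of_forall fun x => ?_)
  simp only [ENNReal.toReal_ofReal (exp_pos _).le, smul_eq_mul, mul_comm]

/-- the global frame as a function of the ambient point -/
noncomputable def fr (ε p q : ℝ) (P : Amb 6) : E3 →L[ℝ] Amb 6 :=
  (EuclideanSpace.proj (𝕜 := ℝ) 0).smulRight (WithLp.toLp 2 ![-P 1, P 0, 0, 0, 0, 0]) +
    (EuclideanSpace.proj (𝕜 := ℝ) 1).smulRight
      (exp (-(ε * p * P 0)) • WithLp.toLp 2 ![0, 0, -P 3, P 2, 0, 0]) +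
    (EuclideanSpace.proj (𝕜 := ℝ) 2).smulRight
      (exp (-(ε * q * P 0)) • WithLp.toLp 2 ![0, 0, 0, 0, -P 5, P 4])

theorem continuous_fr : Continuous (fr ε p q) := by
  refine continuous_clm_apply.2 fun v => ?_
  simp only [fr, add_apply, ContinuousLinearMap.smulRight_apply]
  fun_prop

theorem fr_tor (x : E3) : (tor x, fr ε p q (tor x)) = sec ε p q x := by
  refine Prod.ext rfl (ContinuousLinearMap.ext fun v => ?_)
  simp only [sec, ContinuousLinearMap.comp_apply, fderiv_tor, dg_apply]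
  refine A6_ext ?_ ?_ ?_ ?_ ?_ ?_ <;> simp [fr] <;> ring

theorem integral_nu (G : Geo 6) (hG : IsTor ε p q G.toData) {f : Fr 6 → ℝ} (hf : Continuous f)
    (hr : ∀ u ∈ G.F, ∀ Q, Orth Q → f (rot Q u) = f u) :
    ∫ u, f u ∂G.nu = cube fun x => f (sec ε p q x) * exp (ε * (p + q) * cos (x 0)) := by
  have hc : Continuous fun P => f (P, fr ε p q P) := hf.comp (continuous_id.prodMk continuous_fr)
  have h1 := integral_mu G hG hc
  simp only [fr_tor] at h1
  rw [← h1, ← G.integral_fst hc.aestronglyMeasurable]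
  refine G.integral_congr_F fun u hu => ?_
  obtain ⟨x, hx⟩ : u.1 ∈ range tor := hG.1 ▸ hu.1
  obtain ⟨Q, hQ, rfl⟩ := G.fiber _ (sec_mem hG x) u hu hx
  rw [hr _ (sec_mem hG x) Q hQ]
  exact congrArg f (fr_tor x).symm

theorem en_eq (G : Geo 6) (hG : IsTor ε p q G.toData) {f h : Amb 6 → ℝ} (hf : ContDiff ℝ ∞ f)
    (hh : ContDiff ℝ ∞ h) : G.en f h = cube fun x =>
      (dd 0 (f ∘ tor) x * dd 0 (h ∘ tor) x +
        exp (-(2 * ε * p * cos (x 0))) * (dd 1 (f ∘ tor) x * dd 1 (h ∘ tor) x) +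
        exp (-(2 * ε * q * cos (x 0))) * (dd 2 (f ∘ tor) x * dd 2 (h ∘ tor) x)) *
        exp (ε * (p + q) * cos (x 0)) := by
  have hc : ∀ {f : Amb 6 → ℝ}, ContDiff ℝ ∞ f → ∀ c,
      Continuous fun u : Fr 6 => fderiv ℝ f u.1 (u.2 (ee c)) := fun hf c =>
    ((hf.continuous_fderiv (by simp)).comp continuous_fst).clm_apply
      (continuous_snd.clm_apply continuous_const)
  have hl : ∀ (f : Amb 6 → ℝ) (u : Fr 6), IsLinearMap ℝ fun x => fderiv ℝ f u.1 (u.2 x) :=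
    fun f u => ⟨fun a b => by simp, fun c a => by simp⟩
  have hd : ∀ {f : Amb 6 → ℝ}, ContDiff ℝ ∞ f → ∀ c x,
      dd c (f ∘ tor) x = fderiv ℝ f (tor x) (fderiv ℝ tor x (ee c)) := fun hf c x => by
    rw [dd, fderiv_comp x (hf.differentiable (by simp) _) (diff_tor x)]
    rfl
  refine (integral_nu G hG (continuous_finsetSum _ fun c _ => (hc hf c).mul (hc hh c))
    fun u _ Q hQ => hQ.sum_mul (hl f u) (hl h u)).trans ?_
  congr 1
  funext x
  have e0 : ∀ a b, dg a b (ee 0) = ee 0 := fun a b => by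
    rw [dg_apply]; exact E3_ext (by simp) (by simp) (by simp)
  have e1 : ∀ a b, dg a b (ee 1) = a • ee 1 := fun a b => by
    rw [dg_apply]; exact E3_ext (by simp) (by simp) (by simp)
  have e2 : ∀ a b, dg a b (ee 2) = b • ee 2 := fun a b => by
    rw [dg_apply]; exact E3_ext (by simp) (by simp) (by simp)
  simp only [Fin.sum_univ_three, sec, ContinuousLinearMap.comp_apply, e0, e1, e2, map_smul,
    smul_eq_mul, hd hf, hd hh, ← exp_sq, Pi.mul_apply]
  ring

end TrA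

theorem trA_holds : TrAStmt := fun ε p q =>
  ⟨⟨TrA.data ε p q, rfl, TrA.gg_apply ε p q⟩, fun _ hD => TrA.sec_mem hD, fun G hG =>
    ⟨fun _ hf => TrA.integral_mu G hG hf, fun _ hf hr => TrA.integral_nu G hG hf hr,
      fun _ _ hf hh => TrA.en_eq G hG hf hh⟩⟩

end Pool.Agent.Lib.MP_1a4aff_gt.I3
end

-- part Pool.Agent.Lib.MP_1a4aff_gt.I3.TrD
section

/-! The curvature of the test tori. -/

set_option autoImplicit false

open Set Filter Topology Metric
open scoped ContDiff RealInnerProductSpace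

namespace Pool.Agent.Lib.MP_1a4aff_gt.I3

namespace TrD

/-! ### trigonometric polynomials with a parameter -/

inductive Cl : (ℝ → ℝ → ℝ) → Prop
  | const (c : ℝ) : Cl fun _ _ => c
  | eps : Cl fun ε _ => ε
  | cos : Cl fun _ t => Real.cos t
  | sin : Cl fun _ t => Real.sin t
  | add {f g : ℝ → ℝ → ℝ} : Cl f → Cl g → Cl fun ε t => f ε t + g ε t
  | mul {f g : ℝ → ℝ → ℝ} : Cl f → Cl g → Cl fun ε t => f ε t * g ε t

theorem Cl.der {f : ℝ → ℝ → ℝ} (h : Cl f) :
    ∃ f', Cl f' ∧ ∀ ε t, HasDerivAt (f ε) (f' ε t) t := by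
  induction h with
  | const c => exact ⟨_, .const 0, fun _ t => hasDerivAt_const t c⟩
  | eps => exact ⟨_, .const 0, fun ε t => hasDerivAt_const t ε⟩
  | cos => exact ⟨_, (Cl.const (-1)).mul .sin, fun _ t => by simpa using Real.hasDerivAt_cos t⟩
  | sin => exact ⟨_, .cos, fun _ t => Real.hasDerivAt_sin t⟩
  | add _ _ hf hg =>
    obtain ⟨f', h1, h2⟩ := hf
    obtain ⟨g', h3, h4⟩ := hg
    exact ⟨_, h1.add h3, fun ε t => (h2 ε t).add (h4 ε t)⟩
  | mul hf0 hg0 hf hg =>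
    obtain ⟨f', h1, h2⟩ := hf
    obtain ⟨g', h3, h4⟩ := hg
    exact ⟨_, (h1.mul hg0).add (hf0.mul h3), fun ε t => (h2 ε t).mul (h4 ε t)⟩

theorem Cl.bd {f : ℝ → ℝ → ℝ} (h : Cl f) :
    ∃ K, 0 ≤ K ∧ ∀ ε, 0 < ε → ε ≤ 1 → ∀ t, |f ε t| ≤ K := by
  induction h with
  | const c => exact ⟨|c|, abs_nonneg c, fun _ _ _ _ => le_rfl⟩
  | eps => exact ⟨1, zero_le_one, fun ε h0 h1 _ => by rwa [abs_of_pos h0]⟩
  | cos => exact ⟨1, zero_le_one, fun _ _ _ t => Real.abs_cos_le_one t⟩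
  | sin => exact ⟨1, zero_le_one, fun _ _ _ t => Real.abs_sin_le_one t⟩
  | add _ _ hf hg =>
    obtain ⟨K, h1, h2⟩ := hf
    obtain ⟨L, h3, h4⟩ := hg
    exact ⟨K + L, add_nonneg h1 h3, fun ε a b t =>
      (abs_add_le _ _).trans (add_le_add (h2 ε a b t) (h4 ε a b t))⟩
  | mul _ _ hf hg =>
    obtain ⟨K, h1, h2⟩ := hf
    obtain ⟨L, h3, h4⟩ := hg
    exact ⟨K * L, mul_nonneg h1 h3, fun ε a b t => by
      rw [abs_mul]; exact mul_le_mul (h2 ε a b t) (h4 ε a b t) (abs_nonneg _) h1⟩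

theorem Cl.sum {ι : Type} (s : Finset ι) {f : ι → ℝ → ℝ → ℝ} (h : ∀ i, Cl (f i)) :
    Cl fun ε t => ∑ i ∈ s, f i ε t := by
  classical
  induction s using Finset.induction_on with
  | empty => simpa using Cl.const 0
  | insert a s ha ih => simpa only [Finset.sum_insert ha] using (h a).add ih

theorem hd_cos (m : ℕ) (t : ℝ) :
    HasDerivAt (iteratedDeriv m Real.cos) (iteratedDeriv (m + 1) Real.cos t) t := by
  rw [iteratedDeriv_succ]
  exact (Real.contDiff_cos.differentiable_iteratedDeriv m (n := ∞)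
    (by exact_mod_cast ENat.natCast_lt_top m) t).hasDerivAt

theorem cl_cos : ∀ m : ℕ, Cl fun _ t => iteratedDeriv m Real.cos t
  | 0 => Cl.cos
  | m + 1 => by
    obtain ⟨f', h1, h2⟩ := (cl_cos m).der
    have e : f' = fun _ t => iteratedDeriv (m + 1) Real.cos t := by
      funext ε t; exact (h2 ε t).unique (hd_cos m t)
    rwa [e] at h1

/-! ### vectors -/

noncomputable def v3 (a b c : ℝ) : E3 := a • ee 0 + b • ee 1 + c • ee 2

@[simp] theorem v3_0 (a b c : ℝ) : v3 a b c 0 = a := by simp [v3]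
@[simp] theorem v3_1 (a b c : ℝ) : v3 a b c 1 = b := by simp [v3]
@[simp] theorem v3_2 (a b c : ℝ) : v3 a b c 2 = c := by simp [v3]

theorem hd_v3 {a b c : ℝ → ℝ} {a' b' c' t : ℝ} (ha : HasDerivAt a a' t) (hb : HasDerivAt b b' t)
    (hc : HasDerivAt c c' t) : HasDerivAt (fun s => v3 (a s) (b s) (c s)) (v3 a' b' c') t :=
  ((ha.smul_const _).add (hb.smul_const _)).add (hc.smul_const _)

theorem dg_apply (a b : ℝ) (v : E3) : dg a b v = v3 (v 0) (a * v 1) (b * v 2) := by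
  refine E3_ext ?_ ?_ ?_ <;> simp [dg, Matrix.mulVec_diagonal]

theorem dg_eq (a b : ℝ) : dg a b = dg 0 0 + a • (dg 1 0 - dg 0 0) + b • (dg 0 1 - dg 0 0) := by
  ext1 v
  refine E3_ext ?_ ?_ ?_ <;> simp [dg_apply]

theorem fd0 {V : Type} [NormedAddCommGroup V] [NormedSpace ℝ V] {φ : ℝ → V} {φ' : V} {y : E3}
    (h : HasDerivAt φ φ' (y 0)) (w : E3) : fderiv ℝ (fun z : E3 => φ (z 0)) y w = w 0 • φ' := by
  have h1 : HasFDerivAt (fun z : E3 => φ (z 0)) _ y :=
    h.hasFDerivAt.comp y (EuclideanSpace.proj (𝕜 := ℝ) (0 : Fin 3)).hasFDerivAt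
  rw [h1.fderiv]; simp

theorem cd_tor : ContDiff ℝ ∞ tor := contDiff_euclidean.2 fun i => by
  fin_cases i <;> simp [tor] <;> fun_prop

theorem cd_sec₂ (p q : ℝ) : ContDiff ℝ ∞ fun z : ℝ × E3 => sec z.1 p q z.2 := by
  have h1 : ContDiff ℝ ∞ fun z : ℝ × E3 => fderiv ℝ tor z.2 :=
    (cd_tor.fderiv_right (m := ∞) (by simp)).comp contDiff_snd
  have h2 : ∀ r : ℝ, ContDiff ℝ ∞ fun z : ℝ × E3 => Real.exp (-(z.1 * r * Real.cos (z.2 0))) :=
    fun r => by fun_prop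
  refine (cd_tor.comp contDiff_snd).prodMk (h1.clm_comp ?_)
  simp only [dg_eq (Real.exp _)]
  exact (contDiff_const.add ((h2 p).smul contDiff_const)).add ((h2 q).smul contDiff_const)

theorem cd_sec (ε p q : ℝ) : ContDiff ℝ ∞ (sec ε p q) :=
  (cd_sec₂ p q).comp (contDiff_const.prodMk contDiff_id)

theorem vs_length (β : E3) : ∀ xs : List E3, ∀ l ∈ vs β xs, l.length = xs.length
  | [], l, h => by simp [vs] at h
  | x :: xs, l, h => by
    simp only [vs, List.mem_cons, List.mem_map] at h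
    rcases h with rfl | ⟨l', h, rfl⟩
    · rfl
    · simp [vs_length β xs l' h]

/-! ### the connection and the curvature along the global frame -/

theorem hd_exp (k t : ℝ) : HasDerivAt (fun s => Real.exp (k * Real.cos s))
    (k * -Real.sin t * Real.exp (k * Real.cos t)) t :=
  (((Real.hasDerivAt_cos t).const_mul k).exp).congr_deriv (by ring)

theorem hd_exp' (k t : ℝ) : HasDerivAt (fun s => k * -Real.sin s * Real.exp (k * Real.cos s))
    ((-(k * Real.cos t) + (k * Real.sin t) ^ 2) * Real.exp (k * Real.cos t)) t :=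
  (((Real.hasDerivAt_sin t).fun_neg.const_mul k).mul (hd_exp k t)).congr_deriv (by ring)

noncomputable def gam (p q : ℝ) (v : E3) : E3 := v3 0 (-(q * v 2)) (p * v 1)

/-- the horizontal fields along the global frame -/
noncomputable def HH (p q ε : ℝ) (y v : E3) : Fr 6 :=
  fderiv ℝ (sec ε p q) y
      (dg (Real.exp (-(ε * p * Real.cos (y 0)))) (Real.exp (-(ε * q * Real.cos (y 0)))) v) +
    (ε * Real.sin (y 0)) • vert (gam p q v) (sec ε p q y)

section Geo

variable (hS : StrStmt) {ε p q : ℝ} {C : Con 6} (hm : ∀ x, sec ε p q x ∈ C.F)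
include hS hm

theorem str1 (y w : E3) : fderiv ℝ (sec ε p q) y w =
    C.H (sec ε p q y) (C.al (sec ε p q) y w) + vert (C.be (sec ε p q) y w) (sec ε p q y) :=
  (hS 6 C E3 _ univ isOpen_univ (cd_sec ε p q).contDiffOn (fun x _ => hm x) y trivial).1 w

theorem al_eq (y w : E3) : C.al (sec ε p q) y w =
    v3 (w 0) (Real.exp (ε * p * Real.cos (y 0)) * w 1) (Real.exp (ε * q * Real.cos (y 0)) * w 2) := by
  have h1 := congrArg Prod.fst (str1 hS hm y w)
  have h2 : (fderiv ℝ (sec ε p q) y w).1 = fderiv ℝ tor y w := by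
    have := ((ContinuousLinearMap.fst ℝ (Amb 6) (E3 →L[ℝ] Amb 6)).hasFDerivAt.comp y
      ((cd_sec ε p q).differentiable (by simp) y).hasFDerivAt).fderiv
    exact (congrArg (fun A : E3 →L[ℝ] Amb 6 => A w) this).symm
  rw [h2, Prod.fst_add, C.H_fst, vert_fst, add_zero] at h1
  refine C.frame_inj (hm y) ?_
  rw [← h1]
  show _ = fderiv ℝ tor y (dg _ _ _)
  congr 1
  refine E3_ext ?_ ?_ ?_ <;> simp [dg_apply, ← mul_assoc, ← Real.exp_add]

theorem fd_al (y w v : E3) : fderiv ℝ (fun z => C.al (sec ε p q) z w) y v =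
    v 0 • v3 0 (ε * p * -Real.sin (y 0) * Real.exp (ε * p * Real.cos (y 0)) * w 1)
      (ε * q * -Real.sin (y 0) * Real.exp (ε * q * Real.cos (y 0)) * w 2) := by
  simp only [al_eq hS hm]
  exact fd0 (hd_v3 (hasDerivAt_const _ _) ((hd_exp _ _).mul_const _) ((hd_exp _ _).mul_const _)) v

theorem be_eq (y w : E3) : C.be (sec ε p q) y w =
    v3 0 (-(ε * q * -Real.sin (y 0) * Real.exp (ε * q * Real.cos (y 0)) * w 2))
      (ε * p * -Real.sin (y 0) * Real.exp (ε * p * Real.cos (y 0)) * w 1) := by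
  have h := fun w₁ w₂ => ((hS 6 C E3 _ univ isOpen_univ (cd_sec ε p q).contDiffOn
    (fun x _ => hm x) y trivial).2 w₁ w₂).1
  simp only [fd_al hS hm, al_eq hS hm y] at h
  have ha := Real.exp_pos (ε * p * Real.cos (y 0))
  have hb := Real.exp_pos (ε * q * Real.cos (y 0))
  rw [clm_sum_ee (C.be _ y), Fin.sum_univ_three]
  generalize Real.exp (ε * p * Real.cos (y 0)) = a at *
  generalize Real.exp (ε * q * Real.cos (y 0)) = b at *
  have e := fun i j k => congrArg (fun v : E3 => v k) (h (ee i) (ee j))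
  have e1 := e 0 1 0
  have e2 := e 0 1 1
  have e3 := e 0 1 2
  have e4 := e 0 2 0
  have e5 := e 0 2 1
  have e6 := e 0 2 2
  have e7 := e 1 2 0
  have e8 := e 1 2 1
  have e9 := e 1 2 2
  simp [ha.ne', hb.ne'] at e1 e2 e3 e4 e5 e6 e7 e8 e9
  have z0 : C.be (sec ε p q) y (ee 0) 0 = 0 := by
    have : 2 * (a * b) * C.be (sec ε p q) y (ee 0) 0 = 0 := by
      linear_combination b * e3 - a * e5 - e7
    simpa [ha.ne', hb.ne'] using this
  have z1 : C.be (sec ε p q) y (ee 1) 1 = 0 := by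
    rw [z0] at e3; linarith
  have z2 : C.be (sec ε p q) y (ee 2) 2 = 0 := by
    rw [z0] at e5; linarith
  refine E3_ext ?_ ?_ ?_
  · simp [z0, e8, e9]
  · simp [e4, z1]; linear_combination (-w 2) * e6
  · simp [e1, z2]; linear_combination (-w 1) * e2

theorem fd_be (y w v : E3) : fderiv ℝ (fun z => C.be (sec ε p q) z w) y v =
    v 0 • v3 0 (-((-(ε * q * Real.cos (y 0)) + (ε * q * Real.sin (y 0)) ^ 2) *
        Real.exp (ε * q * Real.cos (y 0)) * w 2))
      ((-(ε * p * Real.cos (y 0)) + (ε * p * Real.sin (y 0)) ^ 2) *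
        Real.exp (ε * p * Real.cos (y 0)) * w 1) := by
  simp only [be_eq hS hm]
  exact fd0 (hd_v3 (hasDerivAt_const _ _) ((hd_exp' _ _).mul_const _).neg
    ((hd_exp' _ _).mul_const _)) v

theorem N_eq (y w : E3) : C.N (sec ε p q y) w =
    v3 (-(ε ^ 2 * p * q * Real.sin (y 0) ^ 2) * w 0)
      ((ε * q * Real.cos (y 0) - (ε * q * Real.sin (y 0)) ^ 2) * w 1)
      ((ε * p * Real.cos (y 0) - (ε * p * Real.sin (y 0)) ^ 2) * w 2) := by
  have h := fun w₁ w₂ => ((hS 6 C E3 _ univ isOpen_univ (cd_sec ε p q).contDiffOn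
    (fun x _ => hm x) y trivial).2 w₁ w₂).2
  simp only [fd_be hS hm, al_eq hS hm y, be_eq hS hm y] at h
  have ha := Real.exp_pos (ε * p * Real.cos (y 0))
  have hb := Real.exp_pos (ε * q * Real.cos (y 0))
  generalize Real.exp (ε * p * Real.cos (y 0)) = a at *
  generalize Real.exp (ε * q * Real.cos (y 0)) = b at *
  have e := fun i j k => congrArg (fun v : E3 => v k) (h (ee i) (ee j))
  simp only [clm_sum_ee (C.N _) (cr _ _), Fin.sum_univ_three] at e
  rw [clm_sum_ee (C.N _), Fin.sum_univ_three]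
  have e1 := e 0 1 0
  have e2 := e 0 1 1
  have e3 := e 0 1 2
  have e4 := e 0 2 0
  have e5 := e 0 2 1
  have e6 := e 0 2 2
  have e7 := e 1 2 0
  have e8 := e 1 2 1
  have e9 := e 1 2 2
  simp [ha.ne', hb.ne'] at e1 e2 e3 e4 e5 e6 e7 e8 e9
  have f0 : C.N (sec ε p q y) (ee 0) 0 = -(ε ^ 2 * p * q * Real.sin (y 0) ^ 2) :=
    mul_left_cancel₀ (mul_pos ha hb).ne' (by linear_combination e7)
  have f1 : C.N (sec ε p q y) (ee 1) 1 = ε * q * Real.cos (y 0) - (ε * q * Real.sin (y 0)) ^ 2 :=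
    mul_left_cancel₀ hb.ne' (by linear_combination -e5)
  have f2 : C.N (sec ε p q y) (ee 2) 2 = ε * p * Real.cos (y 0) - (ε * p * Real.sin (y 0)) ^ 2 :=
    mul_left_cancel₀ ha.ne' (by linear_combination e3)
  refine E3_ext ?_ ?_ ?_ <;> simp [e1, e2, e4, e6, e8, e9, f0, f1, f2, mul_comm]

theorem H_eq (y v : E3) : C.H (sec ε p q y) v = HH p q ε y v := by
  have h := str1 hS hm y
    (dg (Real.exp (-(ε * p * Real.cos (y 0)))) (Real.exp (-(ε * q * Real.cos (y 0)))) v)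
  have e1 : C.al (sec ε p q) y
      (dg (Real.exp (-(ε * p * Real.cos (y 0)))) (Real.exp (-(ε * q * Real.cos (y 0)))) v) = v := by
    rw [al_eq hS hm]
    refine E3_ext ?_ ?_ ?_ <;> simp [dg_apply, ← mul_assoc, ← Real.exp_add]
  have e2 : C.be (sec ε p q) y
      (dg (Real.exp (-(ε * p * Real.cos (y 0)))) (Real.exp (-(ε * q * Real.cos (y 0)))) v) =
      (-(ε * Real.sin (y 0))) • gam p q v := by
    rw [be_eq hS hm]
    have h1 := Real.exp_ne_zero (ε * p * Real.cos (y 0))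
    have h2 := Real.exp_ne_zero (ε * q * Real.cos (y 0))
    refine E3_ext ?_ ?_ ?_ <;> simp [dg_apply, gam, Real.exp_neg] <;> field_simp
  rw [e1, e2, ← vertL_apply, map_smul, vertL_apply] at h
  rw [HH, h]
  module

theorem TV_step (hB : BiaStmt) (xs : List E3) (y z v x : E3) {F : ℝ → ℝ} {F' : ℝ}
    (hF : ∀ x, C.TV xs y z (sec ε p q x) = F (x 0)) (hd : HasDerivAt F F' (x 0)) :
    C.TV (v :: xs) y z (sec ε p q x) = v 0 * F' + ε * Real.sin (x 0) *
      (((vs (gam p q v) xs).map fun l => C.TV l y z (sec ε p q x)).sum +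
        C.TV xs (cr (gam p q v) y) z (sec ε p q x) + C.TV xs y (cr (gam p q v) z) (sec ε p q x)) := by
  have h1 : ∀ w, fderiv ℝ (C.TV xs y z) (sec ε p q x) (fderiv ℝ (sec ε p q) x w) = w 0 * F' :=
    fun w => by
      have e : C.TV xs y z ∘ sec ε p q = fun x : E3 => F (x 0) := funext hF
      have := fderiv_comp x ((C.contDiff_TV xs y z).differentiable (by simp) _)
        ((cd_sec ε p q).differentiable (by simp) x)
      rw [e] at this
      exact (congrArg (fun A : E3 →L[ℝ] ℝ => A w) this).symm.trans (fd0 hd w)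
  show fderiv ℝ (C.TV xs y z) _ (C.H _ v) = _
  rw [H_eq hS hm, HH, map_add, map_smul, h1, (hB 6 C _ (hm x)).2.2.2.1, dg_apply, v3_0,
    smul_eq_mul]

end Geo

/-! ### expansion of the curvature tensors -/

noncomputable def lead (p q : ℝ) (xs : List E3) (y z : E3) (t : ℝ) : ℝ :=
  (xs.map fun v => v 0).prod * (q * (y 1 * z 1) + p * (y 2 * z 2)) *
    iteratedDeriv xs.length Real.cos t

theorem cl_lead (p q : ℝ) (xs : List E3) (y z : E3) : Cl fun _ t => lead p q xs y z t :=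
  (Cl.const _).mul (cl_cos _)

section Exp

variable (hS : StrStmt) (hB : BiaStmt) (p q : ℝ)
include hS hB

theorem TV_exp (m : ℕ) : ∀ xs : List E3, xs.length = m → ∀ y z, ∃ R, Cl R ∧
    ∀ (ε : ℝ) (C : Con 6), (∀ x, sec ε p q x ∈ C.F) → ∀ x : E3,
      C.TV xs y z (sec ε p q x) = ε * lead p q xs y z (x 0) + ε ^ 2 * R ε (x 0) := by
  induction m with
  | zero =>
    intro xs hx y z
    obtain rfl := List.length_eq_zero_iff.1 hx
    refine ⟨_, (Cl.const (-(p * q * y 0 * z 0 + q ^ 2 * y 1 * z 1 + p ^ 2 * y 2 * z 2))).mul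
      (Cl.sin.mul Cl.sin), fun ε C hm x => ?_⟩
    simp only [Con.TV, N_eq hS hm, inner_E3, v3_0, v3_1, v3_2, lead, List.map_nil, List.prod_nil,
      List.length_nil, iteratedDeriv_zero]
    ring
  | succ m ih =>
    intro xs hx y z
    obtain ⟨v, xs, rfl⟩ := List.exists_cons_of_length_eq_add_one hx
    have hx' : xs.length = m := by simpa using hx
    have weak : ∀ l : List E3, l.length = m → ∀ y z, ∃ G, Cl G ∧
        ∀ (ε : ℝ) (C : Con 6), (∀ x, sec ε p q x ∈ C.F) → ∀ x : E3,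
          C.TV l y z (sec ε p q x) = ε * G ε (x 0) := fun l hl y z => by
      obtain ⟨R, h1, h2⟩ := ih l hl y z
      exact ⟨_, (cl_lead p q l y z).add (Cl.eps.mul h1), fun ε C hm x => by rw [h2 ε C hm]; ring⟩
    have lst : ∀ L : List (List E3), (∀ l ∈ L, l.length = m) → ∃ G, Cl G ∧
        ∀ (ε : ℝ) (C : Con 6), (∀ x, sec ε p q x ∈ C.F) → ∀ x : E3,
          (L.map fun l => C.TV l y z (sec ε p q x)).sum = ε * G ε (x 0) := fun L hL => by
      induction L with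
      | nil => exact ⟨_, Cl.const 0, fun ε C hm x => by simp⟩
      | cons l L ihL =>
        obtain ⟨G, h1, h2⟩ := weak l (hL l List.mem_cons_self) y z
        obtain ⟨G', h3, h4⟩ := ihL fun l' h => hL l' (List.mem_cons_of_mem _ h)
        exact ⟨_, h1.add h3, fun ε C hm x => by
          rw [List.map_cons, List.sum_cons, h2 ε C hm, h4 ε C hm]; ring⟩
    obtain ⟨R, r1, r2⟩ := ih xs hx' y z
    obtain ⟨R', r3, r4⟩ := r1.der
    obtain ⟨G₁, a1, a2⟩ := lst (vs (gam p q v) xs) fun l h => (vs_length _ _ l h).trans hx'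
    obtain ⟨G₂, b1, b2⟩ := weak xs hx' (cr (gam p q v) y) z
    obtain ⟨G₃, c1, c2⟩ := weak xs hx' y (cr (gam p q v) z)
    refine ⟨_, ((Cl.const (v 0)).mul r3).add (Cl.sin.mul ((a1.add b1).add c1)),
      fun ε C hm x => ?_⟩
    rw [TV_step hS hm hB xs y z v x (r2 ε C hm)
      ((((hd_cos _ _).const_mul _).const_mul ε).add ((r4 ε _).const_mul _)), a2 ε C hm, b2 ε C hm,
      c2 ε C hm]
    simp only [lead, List.map_cons, List.prod_cons, List.length_cons]
    ring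

omit hS hB in
theorem sum_pi (m : ℕ) : ∑ I : Fin m → Fin 3, (∏ i, ee (I i) 0) ^ 2 = 1 := by
  simp only [← Finset.prod_pow]
  rw [← Fintype.piFinset_univ, ← Finset.prod_univ_sum (fun _ => Finset.univ)
    fun (_ : Fin m) (c : Fin 3) => ee c 0 ^ 2]
  simp

omit hS hB in
theorem lead_ee {m : ℕ} (I : Fin m → Fin 3) (y z : E3) (t : ℝ) :
    lead p q ((List.ofFn I).map ee) y z t =
      (∏ i, ee (I i) 0) * (q * (y 1 * z 1) + p * (y 2 * z 2)) * iteratedDeriv m Real.cos t := by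
  simp only [lead, List.map_ofFn, List.prod_ofFn, List.length_ofFn, Function.comp_apply]

theorem nd_exp (m : ℕ) : ∃ K, 0 ≤ K ∧ ∀ ε, 0 < ε → ε ≤ 1 → ∀ C : Con 6,
    (∀ x, sec ε p q x ∈ C.F) → ∀ x : E3,
      |C.nd m (sec ε p q x) - ε ^ 2 * (p ^ 2 + q ^ 2) * iteratedDeriv m Real.cos (x 0) ^ 2| ≤
        K * ε ^ 3 ∧
      |C.td m (sec ε p q x) - ε ^ 2 * (p + q) ^ 2 * iteratedDeriv m Real.cos (x 0) ^ 2| ≤
        K * ε ^ 3 := by
  choose R r1 r2 using fun (I : Fin m → Fin 3) (a b : Fin 3) =>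
    TV_exp hS hB p q m ((List.ofFn I).map ee) (by simp) (ee a) (ee b)
  obtain ⟨K₁, k1, k2⟩ := (Cl.sum Finset.univ fun I => Cl.sum Finset.univ fun a =>
    Cl.sum Finset.univ fun b => (((Cl.const 2).mul
      (cl_lead p q ((List.ofFn I).map ee) (ee a) (ee b))).add (Cl.eps.mul (r1 I a b))).mul
        (r1 I a b)).bd
  obtain ⟨K₂, k3, k4⟩ := (Cl.sum Finset.univ fun I => (((Cl.const
    (2 * (∏ i, ee (I i) 0) * (p + q))).mul (cl_cos m)).add
      (Cl.eps.mul (Cl.sum Finset.univ fun a => r1 I a a))).mul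
        (Cl.sum Finset.univ fun a => r1 I a a)).bd
  refine ⟨K₁ + K₂, add_nonneg k1 k3, fun ε h0 h1 C hm x => ?_⟩
  have h3 : 0 < ε ^ 3 := by positivity
  have key : ∀ (c X K : ℝ) (f g : (Fin m → Fin 3) → ℝ), |∑ I, g I| ≤ K → K ≤ K₁ + K₂ →
      (∀ I, f I = (∏ i, ee (I i) 0) ^ 2 * c + ε ^ 3 * g I) →
      |∑ I, f I - c| ≤ (K₁ + K₂) * ε ^ 3 := fun c X K f g hg hK hf => by
    simp only [hf, Finset.sum_add_distrib, ← Finset.sum_mul, ← Finset.mul_sum, sum_pi, one_mul,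
      add_sub_cancel_left, abs_mul, abs_of_pos h3]
    rw [mul_comm]
    exact mul_le_mul_of_nonneg_right (hg.trans hK) h3.le
  constructor
  · refine key _ 0 _ _ _ (k2 ε h0 h1 (x 0)) (by linarith) fun I => ?_
    simp only [Con.T, r2 _ _ _ ε C hm, lead_ee, Fin.sum_univ_three]
    simp
    ring
  · refine key _ 0 _ _ _ (k4 ε h0 h1 (x 0)) (by linarith) fun I => ?_
    simp only [Con.T, r2 _ _ _ ε C hm, lead_ee, Fin.sum_univ_three]
    simp
    ring

end Exp

/-! ### ambient bounds -/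

theorem cont_HH (p q : ℝ) : Continuous fun z : ℝ × E3 × E3 => HH p q z.1 z.2.1 z.2.2 := by
  have h1 : ContDiff ℝ ∞ fun z : ℝ × E3 => fderiv ℝ (sec z.1 p q) z.2 :=
    ContDiff.fderiv (f := fun z : ℝ × E3 => sec z.1 p q) (n := ∞)
      ((cd_sec₂ p q).comp ((contDiff_fst.comp contDiff_fst).prodMk contDiff_snd)) contDiff_snd
      (by simp)
  have h0 : Continuous fun z : ℝ × E3 × E3 => (z.1, z.2.1) := by fun_prop
  have h2 : Continuous fun z : ℝ × E3 × E3 => gam p q z.2.2 := by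
    unfold gam v3; fun_prop
  have h3 : Continuous fun z : ℝ × E3 × E3 => z.1 * Real.sin (z.2.1 0) := by fun_prop
  refine ((h1.continuous.comp h0).clm_apply ?_).add (h3.smul
    (contDiff_vert₂.continuous.comp (h2.prodMk ((cd_sec₂ p q).continuous.comp h0))))
  simp only [dg_apply, v3]
  fun_prop

theorem exists_small (x : E3) : ∃ y ∈ closedBall (0 : E3) 20, tor y = tor x := by
  have hp := Real.two_pi_pos
  have h := fun i => toIcoMod_mem_Ico hp 0 (x i)
  have hc : ∀ t, Real.cos (toIcoMod hp 0 t) = Real.cos t := fun t =>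
    Real.cos_periodic.sub_zsmul_eq _
  have hs : ∀ t, Real.sin (toIcoMod hp 0 t) = Real.sin t := fun t =>
    Real.sin_periodic.sub_zsmul_eq _
  refine ⟨v3 (toIcoMod hp 0 (x 0)) (toIcoMod hp 0 (x 1)) (toIcoMod hp 0 (x 2)), ?_,
    by simp [tor, hc, hs]⟩
  rw [mem_closedBall_zero_iff]
  refine abs_le_of_sq_le_sq' ?_ (by norm_num) |>.2
  rw [normSq_E3, v3_0, v3_1, v3_2]
  have := Real.pi_le_four
  nlinarith [(h 0).1, (h 0).2, (h 1).1, (h 1).2, (h 2).1, (h 2).2]

theorem norm_rot_le {Q : E3 →L[ℝ] E3} (hQ : Orth Q) (u : Fr 6) : ‖rot Q u‖ ≤ ‖u‖ :=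
  max_le_max le_rfl (((u.2).opNorm_comp_le Q).trans
    (mul_le_of_le_one_right (norm_nonneg _) hQ.opNorm_le))

theorem exp_bds {ε r c M : ℝ} (h0 : 0 < ε) (h1 : ε ≤ 1) (hc : |c| ≤ 1) (hM : |r| ≤ M) :
    Real.exp (2 * ε * r * c) ≤ Real.exp M ^ 2 ∧ 1 ≤ Real.exp M ^ 2 * Real.exp (2 * ε * r * c) := by
  have h : |ε * r * c| ≤ M := by
    rw [abs_mul, abs_mul, abs_of_pos h0]
    calc ε * |r| * |c| ≤ 1 * |r| * 1 := by gcongr
      _ ≤ M := by linarith
  obtain ⟨h2, h3⟩ := abs_le.1 h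
  rw [← Real.exp_nat_mul, ← Real.exp_add]
  exact ⟨Real.exp_le_exp.2 (by push_cast; linarith), Real.one_le_exp (by push_cast; linarith)⟩

theorem frame_bds {ε p q : ℝ} (h0 : 0 < ε) (h1 : ε ≤ 1) {D : Data 6} (hD : IsTor ε p q D)
    {u : Fr 6} (hu : u ∈ D.F) (v : E3) :
    ‖u.2 v‖ ≤ Real.exp (|p| + |q|) * ‖v‖ ∧ ‖v‖ ≤ Real.exp (|p| + |q|) * ‖u.2 v‖ := by
  have hc : |u.1 0| ≤ 1 := by
    obtain ⟨x, hx⟩ : u.1 ∈ range tor := hD.1 ▸ hu.1
    rw [← hx]; exact Real.abs_cos_le_one _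
  obtain ⟨a1, a2⟩ := exp_bds h0 h1 hc (le_add_of_nonneg_right (abs_nonneg q) : |p| ≤ |p| + |q|)
  obtain ⟨b1, b2⟩ := exp_bds h0 h1 hc (le_add_of_nonneg_left (abs_nonneg p) : |q| ≤ |p| + |q|)
  have hM : 1 ≤ Real.exp (|p| + |q|) ^ 2 :=
    one_le_pow₀ (Real.one_le_exp (by positivity))
  have e := hu.2.2 v v
  rw [hD.2, real_inner_self_eq_norm_sq] at e
  have e' : ‖u.2 v‖ ^ 2 = (u.2 v 0 * u.2 v 0 + u.2 v 1 * u.2 v 1) +
      (u.2 v 2 * u.2 v 2 + u.2 v 3 * u.2 v 3) + (u.2 v 4 * u.2 v 4 + u.2 v 5 * u.2 v 5) := by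
    rw [EuclideanSpace.real_norm_sq_eq, Fin.sum_univ_six]; ring
  have n1 : 0 ≤ u.2 v 0 * u.2 v 0 + u.2 v 1 * u.2 v 1 :=
    add_nonneg (mul_self_nonneg _) (mul_self_nonneg _)
  have n2 : 0 ≤ u.2 v 2 * u.2 v 2 + u.2 v 3 * u.2 v 3 :=
    add_nonneg (mul_self_nonneg _) (mul_self_nonneg _)
  have n3 : 0 ≤ u.2 v 4 * u.2 v 4 + u.2 v 5 * u.2 v 5 :=
    add_nonneg (mul_self_nonneg _) (mul_self_nonneg _)
  constructor
  · refine abs_le_of_sq_le_sq' ?_ (by positivity) |>.2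
    rw [mul_pow, ← e, e']
    nlinarith [mul_le_mul_of_nonneg_right hM n1, mul_le_mul_of_nonneg_right a2 n2,
      mul_le_mul_of_nonneg_right b2 n3]
  · refine abs_le_of_sq_le_sq' ?_ (by positivity) |>.2
    rw [mul_pow, ← e, e']
    nlinarith [mul_le_mul_of_nonneg_right hM n1, mul_le_mul_of_nonneg_right a1 n2,
      mul_le_mul_of_nonneg_right b1 n3]

end TrD

open TrD in
theorem trD_holds (hT : TrAStmt) (hS : StrStmt) (hB : BiaStmt) : TrDStmt := fun p q J => by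
  choose K k1 k2 using nd_exp hS hB p q
  obtain ⟨K₁, hK₁⟩ := ((isCompact_Icc (a := (0 : ℝ)) (b := 1)).prod
    ((isCompact_closedBall (0 : E3) 20).prod (isCompact_closedBall (0 : E3) 1))
    ).exists_bound_of_continuousOn (cont_HH p q).continuousOn
  obtain ⟨K₀, hK₀, hK⟩ : ∃ K₀, 0 ≤ K₀ ∧ ∀ m ≤ J, K m ≤ K₀ :=
    ⟨∑ m ∈ Finset.range (J + 1), K m, Finset.sum_nonneg fun m _ => k1 m, fun m hm =>
      Finset.single_le_sum (fun m _ => k1 m) (Finset.mem_range_succ_iff.2 hm)⟩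
  have hM := Real.exp_pos (|p| + |q|)
  have hA := le_abs_self K₁
  have hA' := abs_nonneg K₁
  have hp := sq_nonneg p
  have hq := sq_nonneg q
  refine ⟨|K₁| + Real.exp (|p| + |q|) + (1 + p ^ 2 + q ^ 2 + K₀), fun ε h0 h1 C hC => ?_⟩
  have hm : ∀ x, sec ε p q x ∈ C.F := (hT ε p q).2.1 _ hC
  have h3 : 0 < ε ^ 3 := by positivity
  have fib : ∀ u ∈ C.F, ∃ x ∈ closedBall (0 : E3) 20, ∃ Q, Orth Q ∧ u = rot Q (sec ε p q x) :=
    fun u hu => by
      obtain ⟨x, hx⟩ : u.1 ∈ range tor := hC.1 ▸ hu.1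
      obtain ⟨y, h1, h2⟩ := exists_small x
      exact ⟨y, h1, C.fiber _ (hm y) u hu (h2.trans hx)⟩
  refine ⟨fun u hu => ⟨?_, ?_, fun v => ?_⟩, fun u hu I hI a b => ?_, fun m hm' x => ?_⟩
  · obtain ⟨x, hx, Q, hQ, rfl⟩ := fib u hu
    refine ContinuousLinearMap.opNorm_le_of_unit_norm (by linarith) fun v hv => ?_
    rw [C.H_rot Q hQ, H_eq hS hm]
    have := hK₁ (ε, x, Q v) ⟨⟨h0.le, h1⟩, hx, by simp [hQ.norm_map, hv]⟩
    refine (norm_rot_le hQ _).trans (this.trans ?_)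
    linarith
  · refine ContinuousLinearMap.opNorm_le_bound _ (by linarith) fun v =>
      (frame_bds h0 h1 hC hu v).1.trans (mul_le_mul_of_nonneg_right (by linarith) (norm_nonneg _))
  · exact (frame_bds h0 h1 hC hu v).2.trans
      (mul_le_mul_of_nonneg_right (by linarith) (norm_nonneg _))
  · obtain ⟨x, -, Q, hQ, rfl⟩ := fib u hu
    have e1 := C.T_sq_le_nd I a b (rot Q (sec ε p q x))
    rw [((hB 6 C _ (hm x)).2.2.2.2.2 Q hQ _).1] at e1
    have e2 := (abs_le.1 (k2 I.length ε h0 h1 C hm x).1).2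
    have e3 : iteratedDeriv I.length Real.cos (x 0) ^ 2 ≤ 1 :=
      (sq_le_one_iff_abs_le_one _).2 (Real.abs_iteratedDeriv_cos_le_one _ _)
    have e4 : K I.length * ε ^ 3 ≤ K₀ * ε ^ 2 :=
      mul_le_mul (hK _ hI) (pow_le_pow_of_le_one h0.le h1 (by norm_num)) h3.le hK₀
    have e5 : ε ^ 2 * (p ^ 2 + q ^ 2) * iteratedDeriv I.length Real.cos (x 0) ^ 2 ≤
        ε ^ 2 * (p ^ 2 + q ^ 2) := mul_le_of_le_one_right (by positivity) e3
    refine abs_le.2 (abs_le_of_sq_le_sq' ?_ (mul_nonneg (by linarith) h0.le))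
    have e6 : p ^ 2 + q ^ 2 + K₀ ≤
        (|K₁| + Real.exp (|p| + |q|) + (1 + p ^ 2 + q ^ 2 + K₀)) ^ 2 := by nlinarith
    rw [mul_pow]
    nlinarith [mul_le_mul_of_nonneg_right e6 (sq_nonneg ε)]
  · have e : K m * ε ^ 3 ≤ (|K₁| + Real.exp (|p| + |q|) + (1 + p ^ 2 + q ^ 2 + K₀)) * ε ^ 3 :=
      mul_le_mul_of_nonneg_right (by linarith [hK m hm']) h3.le
    exact ⟨(k2 m ε h0 h1 C hm x).1.trans e, (k2 m ε h0 h1 C hm x).2.trans e⟩

end Pool.Agent.Lib.MP_1a4aff_gt.I3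
end
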