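import Pool.Agent.Lib.MP_1a4aff_gt.I3.BrB

/-! Separation of variables on the test tori. -/

set_option autoImplicit false

open MeasureTheory Set Filter Topology Real
open scoped ContDiff

namespace Pool.Agent.Lib.MP_1a4aff_gt.I3

namespace TrE

theorem hs_congr {ι E : Type} [AddCommMonoid E] [TopologicalSpace E] {f g : ι → E} {a : E}
    (h : HasSum f a) (e : ∀ j, g j = f j) : HasSum g a := (funext e : g = f) ▸ h

theorem hs_congr₂ {ι E : Type} [AddCommMonoid E] [TopologicalSpace E] {f g : ι → E} {a b : E}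
    (h : HasSum f a) (e : ∀ j, g j = f j) (e' : b = a) : HasSum g b := e' ▸ hs_congr h e

theorem hs_prod {α β : Type} {f : α → β → ℝ} {g : α → ℝ} {s : ℝ} (h0 : ∀ a b, 0 ≤ f a b)
    (h1 : ∀ a, HasSum (f a) (g a)) (h2 : HasSum g s) :
    HasSum (fun z : β × α => f z.2 z.1) s := by
  have hs : Summable fun p : α × β => f p.1 p.2 :=
    (summable_prod_of_nonneg fun p => h0 p.1 p.2).2 ⟨fun n => (h1 n).summable, by
      simp only [(h1 _).tsum_eq]
      exact h2.summable⟩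
  have h4 := hs.hasSum
  rw [(h4.prod_fiberwise h1).unique h2] at h4
  exact (Equiv.prodComm β α).hasSum_iff.2 h4

theorem hs_int {ι : Type} [Countable ι] {F : ι → ℝ → ℝ} {f : ℝ → ℝ} (hF : ∀ i, Continuous (F i))
    (hf : Continuous f) (h0 : ∀ i x, 0 ≤ F i x) (h : ∀ x, HasSum (fun i => F i x) (f x)) :
    HasSum (fun i => ∫ x in (0 : ℝ)..(2 * π), F i x) (∫ x in (0 : ℝ)..(2 * π), f x) := by
  refine intervalIntegral.hasSum_integral_of_dominated_convergence F
    (fun i => (hF i).aestronglyMeasurable)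
    (fun i => ae_of_all _ fun x _ => (Real.norm_of_nonneg (h0 i x)).le)
    (ae_of_all _ fun x _ => (h x).summable) ?_ (ae_of_all _ fun x _ => h x)
  simp only [(h _).tsum_eq]
  exact hf.intervalIntegrable _ _

/-- the characters of the circle -/
noncomputable def ch (n : ℤ) (x : ℝ) : ℂ := Complex.exp (Complex.I * n * x)

@[fun_prop] theorem cont_ch (n : ℤ) : Continuous (ch n) := by unfold ch; fun_prop

theorem ch_conj (n : ℤ) (x : ℝ) : ch n x * (starRingEnd ℂ) (ch n x) = 1 := by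
  rw [ch, ← Complex.exp_conj, ← Complex.exp_add]
  simp

theorem ch_per (n : ℤ) : ch n (2 * π) = ch n 0 := by
  rw [ch, ch, Complex.ofReal_zero, mul_zero, Complex.exp_zero, ← Complex.exp_int_mul_two_pi_mul_I n]
  congr 1
  push_cast
  ring

theorem ch_deriv (n : ℤ) (x : ℝ) : HasDerivAt (ch n) (Complex.I * n * ch n x) x := by
  have h := ((Complex.ofRealCLM.hasDerivAt (x := x)).const_mul (Complex.I * n)).cexp
  simp only [Complex.ofRealCLM_apply, Complex.ofReal_one, mul_one] at h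
  rw [mul_comm]
  exact h

theorem pars1 {g : ℝ → ℂ} (hg : Continuous g) :
    HasSum (fun n : ℤ => ‖∫ x in (0 : ℝ)..(2 * π), ch n x * g x‖ ^ 2)
      (2 * π * ∫ x in (0 : ℝ)..(2 * π), ‖g x‖ ^ 2) := by
  obtain ⟨C, hC⟩ := (isCompact_Icc (a := (0 : ℝ)) (b := 2 * π)).exists_bound_of_continuousOn
    hg.continuousOn
  have hL : MemLp g 2 (volume.restrict (Ioc 0 (2 * π))) :=
    MemLp.of_bound hg.aestronglyMeasurable C
      ((ae_restrict_mem measurableSet_Ioc).mono fun x hx => hC x (Ioc_subset_Icc_self hx))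
  have h := ((Equiv.neg ℤ).hasSum_iff.2 (hasSum_sq_fourierCoeffOn two_pi_pos hL)).mul_left
    ((2 * π) ^ 2)
  have hp : (2 * π) ≠ 0 := two_pi_pos.ne'
  have e0 : ∀ X : ℝ, (2 * π) ^ 2 * ((2 * π - 0)⁻¹ • X) = 2 * π * X := fun X => by
    rw [sub_zero, smul_eq_mul]; field_simp
  rw [e0] at h
  refine hs_congr h fun n => ?_
  simp only [Function.comp, Equiv.neg_apply]
  rw [fourierCoeffOn_eq_integral]
  have hpi : (π : ℂ) ≠ 0 := Complex.ofReal_ne_zero.2 Real.pi_ne_zero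
  have e : ∀ x : ℝ, fourier (- -n) (x : AddCircle (2 * π - 0)) • g x = ch n x * g x := fun x => by
    rw [neg_neg, fourier_coe_apply, ch, smul_eq_mul]
    congr 2
    push_cast
    field_simp
    ring
  simp only [e]
  rw [norm_smul, sub_zero, Real.norm_of_nonneg (by positivity), mul_pow]
  field_simp

section cube

variable {E E' : Type} [NormedAddCommGroup E] [NormedSpace ℝ E] [CompleteSpace E]
  [NormedAddCommGroup E'] [NormedSpace ℝ E'] [CompleteSpace E']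

/-- iterated integral over the cube -/
noncomputable def J3 (f : ℝ → ℝ → ℝ → E) : E :=
  ∫ x in (0 : ℝ)..(2 * π), ∫ y in (0 : ℝ)..(2 * π), ∫ w in (0 : ℝ)..(2 * π), f x y w

/-- joint continuity -/
def C3 (f : ℝ → ℝ → ℝ → E) : Prop := Continuous fun z : (ℝ × ℝ) × ℝ => f z.1.1 z.1.2 z.2

omit [CompleteSpace E] in
theorem C3.c2 {f : ℝ → ℝ → ℝ → E} (hf : C3 f) :
    Continuous fun z : ℝ × ℝ => ∫ w in (0 : ℝ)..(2 * π), f z.1 z.2 w :=
  intervalIntegral.continuous_parametric_intervalIntegral_of_continuous'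
    (f := fun (z : ℝ × ℝ) w => f z.1 z.2 w) hf _ _

omit [CompleteSpace E] in
theorem C3.c1 {f : ℝ → ℝ → ℝ → E} (hf : C3 f) :
    Continuous fun x : ℝ => ∫ y in (0 : ℝ)..(2 * π), ∫ w in (0 : ℝ)..(2 * π), f x y w :=
  intervalIntegral.continuous_parametric_intervalIntegral_of_continuous'
    (f := fun x y => ∫ w in (0 : ℝ)..(2 * π), f x y w) hf.c2 _ _

omit [CompleteSpace E] [NormedSpace ℝ E] in
theorem C3.w {f : ℝ → ℝ → ℝ → E} (hf : C3 f) (x y : ℝ) : Continuous (f x y) :=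
  Continuous.comp (f := fun w => ((x, y), w)) hf (by fun_prop)

omit [CompleteSpace E] [NormedSpace ℝ E] in
theorem C3.std {f : ℝ → ℝ → ℝ → E} (hf : C3 f) :
    Continuous fun z : ℝ × ℝ × ℝ => f z.1 z.2.1 z.2.2 :=
  Continuous.comp (f := fun z : ℝ × ℝ × ℝ => ((z.1, z.2.1), z.2.2)) hf (by fun_prop)

omit [CompleteSpace E] [NormedSpace ℝ E] in
theorem C3.add {f g : ℝ → ℝ → ℝ → E} (hf : C3 f) (hg : C3 g) :
    C3 fun x y w => f x y w + g x y w := Continuous.add hf hg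

omit [CompleteSpace E] in
theorem C3.y {f : ℝ → ℝ → ℝ → E} (hf : C3 f) (x : ℝ) :
    Continuous fun y => ∫ w in (0 : ℝ)..(2 * π), f x y w :=
  Continuous.comp (f := fun y => (x, y)) hf.c2 (by fun_prop)

omit [CompleteSpace E] in
theorem J3_add {f g : ℝ → ℝ → ℝ → E} (hf : C3 f) (hg : C3 g) :
    J3 (fun x y w => f x y w + g x y w) = J3 f + J3 g := by
  unfold J3
  rw [← intervalIntegral.integral_add (hf.c1.intervalIntegrable _ _) (hg.c1.intervalIntegrable _ _)]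
  refine intervalIntegral.integral_congr fun x _ => ?_
  show _ = _ + _
  rw [← intervalIntegral.integral_add ((hf.y x).intervalIntegrable _ _)
    ((hg.y x).intervalIntegrable _ _)]
  refine intervalIntegral.integral_congr fun y _ => ?_
  exact intervalIntegral.integral_add ((hf.w x y).intervalIntegrable _ _)
    ((hg.w x y).intervalIntegrable _ _)

theorem J3_map (T : E →L[ℝ] E') {f : ℝ → ℝ → ℝ → E} (hf : C3 f) :
    J3 (fun x y w => T (f x y w)) = T (J3 f) := by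
  unfold J3
  rw [← T.intervalIntegral_comp_comm (hf.c1.intervalIntegrable _ _)]
  refine intervalIntegral.integral_congr fun x _ => ?_
  show _ = T _
  rw [← T.intervalIntegral_comp_comm ((hf.y x).intervalIntegrable _ _)]
  refine intervalIntegral.integral_congr fun y _ => ?_
  exact T.intervalIntegral_comp_comm ((hf.w x y).intervalIntegrable _ _)

omit [CompleteSpace E] in
theorem swap {F : ℝ → ℝ → E} (hF : Continuous fun z : ℝ × ℝ => F z.1 z.2) :
    ∫ x in (0 : ℝ)..(2 * π), ∫ y in (0 : ℝ)..(2 * π), F x y =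
      ∫ y in (0 : ℝ)..(2 * π), ∫ x in (0 : ℝ)..(2 * π), F x y :=
  intervalIntegral_intervalIntegral_swap
    ((hF.continuousOn.integrableOn_compact (isCompact_uIcc.prod isCompact_uIcc)).mono_set
      (prod_mono uIoc_subset_uIcc uIoc_subset_uIcc))

theorem per_int {g g' : ℝ → E} (hc : Continuous g') (hd : ∀ x, HasDerivAt g (g' x) x)
    (hp : g (2 * π) = g 0) : ∫ x in (0 : ℝ)..(2 * π), g' x = 0 := by
  rw [intervalIntegral.integral_eq_sub_of_hasDerivAt (fun x _ => hd x) (hc.intervalIntegrable _ _),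
    hp, sub_self]

theorem J3_d2 {g g' : ℝ → ℝ → ℝ → E} (hc : C3 g')
    (hd : ∀ x y w, HasDerivAt (fun t => g x y t) (g' x y w) w)
    (hp : ∀ x y, g x y (2 * π) = g x y 0) : J3 g' = 0 := by
  unfold J3
  simp only [fun x y => per_int (hc.w x y) (hd x y) (hp x y), intervalIntegral.integral_zero]

theorem J3_d1 {g g' : ℝ → ℝ → ℝ → E} (hc : C3 g')
    (hd : ∀ x y w, HasDerivAt (fun t => g x t w) (g' x y w) y)
    (hp : ∀ x w, g x (2 * π) w = g x 0 w) : J3 g' = 0 := by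
  have h1 : ∀ x, ∫ y in (0 : ℝ)..(2 * π), ∫ w in (0 : ℝ)..(2 * π), g' x y w = 0 := fun x => by
    rw [swap (Continuous.comp (f := fun z : ℝ × ℝ => ((x, z.1), z.2)) hc (by fun_prop))]
    have h2 : ∀ w, ∫ y in (0 : ℝ)..(2 * π), g' x y w = 0 := fun w =>
      per_int (Continuous.comp (f := fun y : ℝ => ((x, y), w)) hc (by fun_prop))
        (fun y => hd x y w) (hp x w)
    simp only [h2, intervalIntegral.integral_zero]
  unfold J3
  simp only [h1, intervalIntegral.integral_zero]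

theorem J3_d0 {g g' : ℝ → ℝ → ℝ → E} (hc : C3 g')
    (hd : ∀ x y w, HasDerivAt (fun t => g t y w) (g' x y w) x)
    (hp : ∀ y w, g (2 * π) y w = g 0 y w) : J3 g' = 0 := by
  unfold J3
  rw [swap hc.c2]
  exact J3_d1 (g := fun y x w => g x y w) (g' := fun y x w => g' x y w)
    (Continuous.comp (f := fun z : (ℝ × ℝ) × ℝ => ((z.1.2, z.1.1), z.2)) hc (by fun_prop))
    (fun y x w => hd x y w) hp

end cube

/-- points of the parameter space -/
noncomputable def pt (x y w : ℝ) : E3 := WithLp.toLp 2 ![x, y, w]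

@[simp] theorem pt0 (x y w : ℝ) : pt x y w 0 = x := rfl
@[simp] theorem pt1 (x y w : ℝ) : pt x y w 1 = y := rfl
@[simp] theorem pt2 (x y w : ℝ) : pt x y w 2 = w := rfl

theorem cube_eq (f : E3 → ℝ) : cube f = J3 fun x y w => f (pt x y w) := rfl

theorem c3_pt : C3 pt := by unfold C3 pt; fun_prop

theorem contDiff_tor : ContDiff ℝ ∞ tor := by
  refine contDiff_euclidean.2 fun i => ?_
  fin_cases i <;> simp [tor] <;> fun_prop

theorem hd0 {g : E3 → ℝ} (hg : Differentiable ℝ g) (x y w : ℝ) :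
    HasDerivAt (fun t => g (pt t y w)) (dd 0 g (pt x y w)) x := by
  have e : (fun t => pt t y w) = fun t => pt 0 y w + t • ee 0 := by
    funext t; apply E3_ext <;> simp
  have h : HasDerivAt (fun t => pt t y w) (ee 0) x := by
    rw [e]; simpa using ((hasDerivAt_id x).smul_const (ee 0)).const_add (pt 0 y w)
  exact (hg _).hasFDerivAt.comp_hasDerivAt x h

theorem hd1 {g : E3 → ℝ} (hg : Differentiable ℝ g) (x y w : ℝ) :
    HasDerivAt (fun t => g (pt x t w)) (dd 1 g (pt x y w)) y := by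
  have e : (fun t => pt x t w) = fun t => pt x 0 w + t • ee 1 := by
    funext t; apply E3_ext <;> simp
  have h : HasDerivAt (fun t => pt x t w) (ee 1) y := by
    rw [e]; simpa using ((hasDerivAt_id y).smul_const (ee 1)).const_add (pt x 0 w)
  exact (hg _).hasFDerivAt.comp_hasDerivAt y h

theorem hd2 {g : E3 → ℝ} (hg : Differentiable ℝ g) (x y w : ℝ) :
    HasDerivAt (fun t => g (pt x y t)) (dd 2 g (pt x y w)) w := by
  have e : (fun t => pt x y t) = fun t => pt x y 0 + t • ee 2 := by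
    funext t; apply E3_ext <;> simp
  have h : HasDerivAt (fun t => pt x y t) (ee 2) w := by
    rw [e]; simpa using ((hasDerivAt_id w).smul_const (ee 2)).const_add (pt x y 0)
  exact (hg _).hasFDerivAt.comp_hasDerivAt w h

theorem cont_dd (i : Fin 3) {g : E3 → ℝ} (hg : ContDiff ℝ ∞ g) : Continuous (dd i g) :=
  (hg.continuous_fderiv (by simp)).clm_apply continuous_const

/-- the point of the torus -/
noncomputable def tp (x y w : ℝ) : Amb 6 := tor (pt x y w)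

theorem c3_tp : C3 tp := contDiff_tor.continuous.comp c3_pt

theorem tp_per0 (y w : ℝ) : tp (2 * π) y w = tp 0 y w := by simp [tp, tor]
theorem tp_per1 (x w : ℝ) : tp x (2 * π) w = tp x 0 w := by simp [tp, tor]
theorem tp_per2 (x y : ℝ) : tp x y (2 * π) = tp x y 0 := by simp [tp, tor]

/-- ambient extension of a character -/
noncomputable def cz (n : ℤ) (a b : ℝ) : ℂ :=
  (a + b * Complex.I) ^ n.toNat * (a - b * Complex.I) ^ (-n).toNat

theorem cz_eq (n : ℤ) (x : ℝ) : cz n (cos x) (sin x) = ch n x := by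
  have e1 : ((cos x : ℝ) : ℂ) + (sin x : ℝ) * Complex.I = Complex.exp (x * Complex.I) := by
    rw [Complex.exp_mul_I, Complex.ofReal_cos, Complex.ofReal_sin]
  have e2 : ((cos x : ℝ) : ℂ) - (sin x : ℝ) * Complex.I = Complex.exp (-x * Complex.I) := by
    rw [Complex.exp_mul_I, Complex.ofReal_cos, Complex.ofReal_sin, Complex.cos_neg, Complex.sin_neg]
    ring
  have e3 : ((n.toNat : ℕ) : ℂ) - ((-n).toNat : ℕ) = n := by
    have := Int.toNat_sub_toNat_neg n
    exact_mod_cast congrArg (Int.cast : ℤ → ℂ) this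
  rw [cz, e1, e2, ← Complex.exp_nat_mul, ← Complex.exp_nat_mul, ← Complex.exp_add, ch, ← e3]
  congr 1
  ring

theorem contDiff_cz (n : ℤ) (i j : Fin 6) : ContDiff ℝ ∞ fun P : Amb 6 => cz n (P i) (P j) := by
  have h : ∀ i : Fin 6, ContDiff ℝ ∞ fun P : Amb 6 => ((P i : ℝ) : ℂ) := fun i =>
    Complex.ofRealCLM.contDiff.comp (by fun_prop)
  exact (((h i).add ((h j).mul contDiff_const)).pow _).mul
    (((h i).sub ((h j).mul contDiff_const)).pow _)

@[simp] theorem tp0 (x y w : ℝ) : tp x y w 0 = cos x := rfl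
@[simp] theorem tp1 (x y w : ℝ) : tp x y w 1 = sin x := rfl
@[simp] theorem tp2 (x y w : ℝ) : tp x y w 2 = cos y := rfl
@[simp] theorem tp3 (x y w : ℝ) : tp x y w 3 = sin y := rfl
@[simp] theorem tp4 (x y w : ℝ) : tp x y w 4 = cos w := rfl
@[simp] theorem tp5 (x y w : ℝ) : tp x y w 5 = sin w := rfl

/-- ambient lift of the function `a (cos x) e^{inx}` in the sector `z` -/
noncomputable def Fz (σ : ℝ) (z : ℤ × ℤ) (a : ℝ → ℝ) (n : ℤ) (P : Amb 6) : ℂ :=
  ((a (P 0) * exp (-(σ * P 0 / 2)) : ℝ) : ℂ) *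
    (cz n (P 0) (P 1) * (cz z.1 (P 2) (P 3) * cz z.2 (P 4) (P 5)))

theorem Fz_tp (σ : ℝ) (z : ℤ × ℤ) (a : ℝ → ℝ) (n : ℤ) (x y w : ℝ) : Fz σ z a n (tp x y w) =
    ((a (cos x) * exp (-(σ * cos x / 2)) : ℝ) : ℂ) * (ch n x * (ch z.1 y * ch z.2 w)) := by
  simp only [Fz, tp0, tp1, tp2, tp3, tp4, tp5, cz_eq]

theorem cont_Fz (σ : ℝ) (z : ℤ × ℤ) {a : ℝ → ℝ} (ha : Continuous a) (n : ℤ) :
    Continuous (Fz σ z a n) :=
  Continuous.mul (by fun_prop) ((contDiff_cz _ _ _).continuous.mul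
    ((contDiff_cz _ _ _).continuous.mul (contDiff_cz _ _ _).continuous))

theorem contDiff_Fz (σ : ℝ) (z : ℤ × ℤ) (n : ℤ) : ContDiff ℝ ∞ (Fz σ z (fun _ => 1) n) := by
  have h : ContDiff ℝ ∞ fun P : Amb 6 => 1 * exp (-(σ * P 0 / 2)) := by fun_prop
  exact ContDiff.mul (Complex.ofRealCLM.contDiff.comp h) ((contDiff_cz _ _ _).mul
    ((contDiff_cz _ _ _).mul (contDiff_cz _ _ _)))

/-- the partial Fourier coefficients -/
noncomputable def Bz (z : ℤ × ℤ) (Φ : ℝ → ℝ → ℝ → ℝ) (x : ℝ) : ℂ :=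
  ∫ y in (0 : ℝ)..(2 * π), ch z.1 y * ∫ w in (0 : ℝ)..(2 * π), ch z.2 w * Φ x y w

theorem c3_ch (l : ℤ) {Φ : ℝ → ℝ → ℝ → ℝ} (hΦ : C3 Φ) : C3 fun x y w => ch l w * Φ x y w :=
  Continuous.mul (by fun_prop) (Complex.continuous_ofReal.comp hΦ)

theorem cont_Bz (z : ℤ × ℤ) {Φ : ℝ → ℝ → ℝ → ℝ} (hΦ : C3 Φ) : Continuous (Bz z Φ) :=
  intervalIntegral.continuous_parametric_intervalIntegral_of_continuous'
    (f := fun x y => ch z.1 y * ∫ w in (0 : ℝ)..(2 * π), ch z.2 w * Φ x y w)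
    (Continuous.mul (by fun_prop) (c3_ch z.2 hΦ).c2) _ _

theorem pars2 {Φ : ℝ → ℝ → ℝ → ℝ} (hΦ : C3 Φ) (x : ℝ) : HasSum (fun z => ‖Bz z Φ x‖ ^ 2)
    ((2 * π) ^ 2 * ∫ y in (0 : ℝ)..(2 * π), ∫ w in (0 : ℝ)..(2 * π), Φ x y w ^ 2) := by
  have hA := fun l => (c3_ch l hΦ).y x
  have h1 := fun l => pars1 (hA l)
  have hsq : C3 fun x y w => Φ x y w ^ 2 := Continuous.pow hΦ 2
  have h2 : ∀ y, HasSum (fun l => ‖∫ w in (0 : ℝ)..(2 * π), ch l w * Φ x y w‖ ^ 2)
      (2 * π * ∫ w in (0 : ℝ)..(2 * π), Φ x y w ^ 2) := fun y => by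
    have := pars1 (g := fun w => (Φ x y w : ℂ)) (Complex.continuous_ofReal.comp (hΦ.w x y))
    simpa only [Complex.norm_real, Real.norm_eq_abs, sq_abs] using this
  have h3 := (hs_int (f := fun y => 2 * π * ∫ w in (0 : ℝ)..(2 * π), Φ x y w ^ 2)
    (fun l => ((hA l).norm.pow 2)) (continuous_const.mul (hsq.y x))
    (fun _ _ => sq_nonneg _) h2).mul_left (2 * π)
  have h4 := hs_prod (fun _ _ => sq_nonneg _) h1 h3
  rw [intervalIntegral.integral_const_mul, ← mul_assoc, ← sq] at h4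
  exact h4

/-- the components of a function on the torus -/
noncomputable def psi (σ : ℝ) (z : ℤ × ℤ) (φ : Amb 6 → ℝ) (x : ℝ) : ℂ :=
  (starRingEnd ℂ) ((((√(2 * π))⁻¹ * exp (σ * cos x / 2) : ℝ) : ℂ) *
    Bz z (fun x y w => φ (tp x y w)) x)

theorem c3_comp {E : Type} [NormedAddCommGroup E] {φ : Amb 6 → E} (hφ : Continuous φ) :
    C3 fun x y w => φ (tp x y w) := hφ.comp c3_tp

theorem cont_psi (σ : ℝ) (z : ℤ × ℤ) {φ : Amb 6 → ℝ} (hφ : Continuous φ) :
    Continuous (psi σ z φ) :=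
  Complex.continuous_conj.comp (Continuous.mul (by fun_prop) (cont_Bz z (c3_comp hφ)))

theorem sq_c : (√(2 * π))⁻¹ ^ 2 = (2 * π)⁻¹ := by
  rw [inv_pow, Real.sq_sqrt two_pi_pos.le]

theorem ipc_self (g : ℝ → ℂ) :
    (ipc g g).re = (2 * π)⁻¹ * ∫ x in (0 : ℝ)..(2 * π), ‖g x‖ ^ 2 := by
  have e : ∀ x, g x * (starRingEnd ℂ) (g x) = ((‖g x‖ ^ 2 : ℝ) : ℂ) := fun x => by
    rw [Complex.mul_conj, Complex.sq_norm]
  simp only [ipc, e, intervalIntegral.integral_ofReal]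
  rw [← Complex.ofReal_ofNat, ← Complex.ofReal_mul, ← Complex.ofReal_div, Complex.ofReal_re]
  ring

theorem sum_psi (σ : ℝ) {φ : Amb 6 → ℝ} (hφ : Continuous φ) :
    HasSum (fun z => (ipc (psi σ z φ) (psi σ z φ)).re)
      (J3 fun x y w => φ (tp x y w) * φ (tp x y w) * exp (σ * cos x)) := by
  have hΦ := c3_comp hφ
  have hsq : C3 fun x y w => φ (tp x y w) ^ 2 := Continuous.pow hΦ 2
  have e : ∀ z x, ‖psi σ z φ x‖ ^ 2 =
      (2 * π)⁻¹ * exp (σ * cos x) * ‖Bz z (fun x y w => φ (tp x y w)) x‖ ^ 2 := fun z x => by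
    rw [psi, Complex.norm_conj, norm_mul, mul_pow, Complex.norm_real, Real.norm_eq_abs, sq_abs,
      mul_pow, sq_c, ← Real.exp_nat_mul]
    congr 3
    push_cast
    ring
  have h1 := (hs_int (fun z => (cont_psi σ z hφ).norm.pow 2)
    (f := fun x => (2 * π)⁻¹ * exp (σ * cos x) * ((2 * π) ^ 2 *
      ∫ y in (0 : ℝ)..(2 * π), ∫ w in (0 : ℝ)..(2 * π), φ (tp x y w) ^ 2))
    (Continuous.mul (by fun_prop) (continuous_const.mul hsq.c1)) (fun _ _ => sq_nonneg _)
    (fun x => hs_congr ((pars2 hΦ x).mul_left _) fun z => e z x)).mul_left (2 * π)⁻¹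
  refine hs_congr₂ h1 (fun z => ipc_self _) ?_
  rw [J3, ← intervalIntegral.integral_const_mul]
  refine intervalIntegral.integral_congr fun x _ => ?_
  have hp : (2 * π) ≠ 0 := two_pi_pos.ne'
  simp only [← sq, intervalIntegral.integral_mul_const]
  field_simp

/-- complex pairing -/
noncomputable def msC (G : Geo 6) (F : Amb 6 → ℂ) (φ : Amb 6 → ℝ) : ℂ :=
  G.ms (fun P => (F P).re) φ + G.ms (fun P => (F P).im) φ * Complex.I

/-- the formula for the volume -/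
def Vol (G : Geo 6) (σ : ℝ) : Prop := ∀ f : Amb 6 → ℝ, Continuous f →
  ∫ P, f P ∂G.mu = J3 fun x y w => f (tp x y w) * exp (σ * cos x)

variable {G : Geo 6} {σ : ℝ}

theorem Vol.cx (h : Vol G σ) {F : Amb 6 → ℂ} (hF : Continuous F) :
    ((∫ P, (F P).re ∂G.mu : ℝ) : ℂ) + (∫ P, (F P).im ∂G.mu : ℝ) * Complex.I =
      J3 fun x y w => F (tp x y w) * (exp (σ * cos x) : ℝ) := by
  have hc : C3 fun x y w => F (tp x y w) * (exp (σ * cos x) : ℝ) :=
    Continuous.mul (c3_comp hF) (by fun_prop)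
  have h1 := J3_map Complex.reCLM hc
  have h2 := J3_map Complex.imCLM hc
  simp only [Complex.reCLM_apply, Complex.imCLM_apply, Complex.re_mul_ofReal,
    Complex.im_mul_ofReal] at h1 h2
  rw [h (fun P => (F P).re) (by fun_prop), h (fun P => (F P).im) (by fun_prop), h1, h2,
    Complex.re_add_im]

theorem Vol.msC (h : Vol G σ) {F : Amb 6 → ℂ} (hF : Continuous F) {φ : Amb 6 → ℝ}
    (hφ : Continuous φ) :
    msC G F φ = J3 fun x y w => F (tp x y w) * φ (tp x y w) * (exp (σ * cos x) : ℝ) := by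
  rw [← h.cx (F := fun P => F P * φ P) (by fun_prop)]
  simp only [TrE.msC, Geo.ms, Complex.re_mul_ofReal, Complex.im_mul_ofReal]

theorem Vol.ipc_psi (h : Vol G σ) (z : ℤ × ℤ) {a : ℝ → ℝ} (ha : Continuous a) (n : ℤ)
    {φ : Amb 6 → ℝ} (hφ : Continuous φ) :
    ipc (mode a n) (psi σ z φ) =
      (((√(2 * π))⁻¹ * (2 * π)⁻¹ : ℝ) : ℂ) * TrE.msC G (Fz σ z a n) φ := by
  rw [h.msC (cont_Fz σ z ha n) hφ, ipc, J3, div_eq_inv_mul, ← intervalIntegral.integral_const_mul,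
    ← intervalIntegral.integral_const_mul]
  refine intervalIntegral.integral_congr fun x _ => ?_
  have e : ∀ y w, Fz σ z a n (tp x y w) * φ (tp x y w) * (exp (σ * cos x) : ℝ) =
      mode a n x * (exp (σ * cos x / 2) : ℝ) * (ch z.1 y * (ch z.2 w * φ (tp x y w))) := by
    intro y w
    have e1 : exp (σ * cos x / 2) = exp (-(σ * cos x / 2)) * exp (σ * cos x) := by
      rw [← exp_add]; congr 1; ring
    rw [Fz_tp, e1, mode, ← ch]
    simp only [Complex.ofReal_mul]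
    ring
  simp only [e, intervalIntegral.integral_const_mul, psi, Complex.conj_conj, Bz]
  push_cast
  ring

theorem Vol.pars (h : Vol G σ) (P : Spec G) (z : ℤ × ℤ) {a₁ a₂ : ℝ → ℝ} (n₁ n₂ : ℤ)
    (h₁ : Continuous a₁) (h₂ : Continuous a₂) :
    HasSum (fun j => ipc (mode a₁ n₁) (psi σ z (P.ph j)) *
      (starRingEnd ℂ) (ipc (mode a₂ n₂) (psi σ z (P.ph j)))) (ipc (mode a₁ n₁) (mode a₂ n₂)) := by
  have c1 := cont_Fz σ z h₁ n₁
  have c2 := cont_Fz σ z h₂ n₂
  set F₁ := Fz σ z a₁ n₁ with hF₁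
  set F₂ := Fz σ z a₂ n₂ with hF₂
  have r1 : Continuous fun P => (F₁ P).re := by fun_prop
  have i1 : Continuous fun P => (F₁ P).im := by fun_prop
  have r2 : Continuous fun P => (F₂ P).re := by fun_prop
  have i2 : Continuous fun P => (F₂ P).im := by fun_prop
  have s1 := Complex.hasSum_ofReal.2 ((P.pars _ _ r1 r2).add (P.pars _ _ i1 i2))
  have s2 := Complex.hasSum_ofReal.2 ((P.pars _ _ i1 r2).sub (P.pars _ _ r1 i2))
  have s3 := (s1.add (s2.mul_right Complex.I)).mul_left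
    ((((√(2 * π))⁻¹ * (2 * π)⁻¹ : ℝ) : ℂ) ^ 2)
  have hi : ∀ {f g : Amb 6 → ℝ}, Continuous f → Continuous g →
      Integrable (fun p => f p * g p) G.mu := fun hf hg =>
    G.integrable_mu (hf.mul hg).continuousOn
  have e := h.cx (F := fun P => F₁ P * (starRingEnd ℂ) (F₂ P)) (by fun_prop)
  simp only [Complex.mul_re, Complex.mul_im, Complex.conj_re, Complex.conj_im, mul_neg,
    sub_neg_eq_add, neg_add_eq_sub] at e
  rw [integral_add (hi r1 r2) (hi i1 i2), integral_sub (hi i1 r2) (hi r1 i2)] at e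
  simp only [Geo.ms] at s3
  rw [e] at s3
  have e2 : ∀ x y w, F₁ (tp x y w) * (starRingEnd ℂ) (F₂ (tp x y w)) * (exp (σ * cos x) : ℝ) =
      mode a₁ n₁ x * (starRingEnd ℂ) (mode a₂ n₂ x) := by
    intro x y w
    have e1 : exp (-(σ * cos x / 2)) * exp (-(σ * cos x / 2)) * exp (σ * cos x) = 1 := by
      rw [← exp_add, ← exp_add, ← exp_zero]; congr 1; ring
    have e1' := congrArg Complex.ofReal e1
    rw [hF₁, hF₂, Fz_tp, Fz_tp, mode, mode, ← ch, ← ch]
    simp only [Complex.ofReal_mul, map_mul, Complex.conj_ofReal, Complex.ofReal_one] at e1' ⊢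
    have k1 := ch_conj z.1 y
    have k2 := ch_conj z.2 w
    linear_combination (a₁ (cos x) * a₂ (cos x) * ch n₁ x * (starRingEnd ℂ) (ch n₂ x)) *
      (e1' * (ch z.1 y * (starRingEnd ℂ) (ch z.1 y)) * (ch z.2 w * (starRingEnd ℂ) (ch z.2 w)) +
        k1 * (ch z.2 w * (starRingEnd ℂ) (ch z.2 w)) + k2)
  simp only [e2, J3, intervalIntegral.integral_const, sub_zero, intervalIntegral.integral_smul] at s3
  refine hs_congr₂ s3 (fun j => ?_) ?_
  · rw [h.ipc_psi z h₁ n₁ (P.cont j), h.ipc_psi z h₂ n₂ (P.cont j)]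
    simp only [TrE.msC, Geo.ms, map_mul, map_add, Complex.conj_ofReal, Complex.conj_I, ← hF₁, ← hF₂]
    simp only [Complex.ofReal_add, Complex.ofReal_sub, Complex.ofReal_mul]
    linear_combination (-(((√(2 * π))⁻¹ : ℝ) * ((2 * π)⁻¹ : ℝ) : ℂ) ^ 2 *
      (∫ p, (F₁ p).im * P.ph j p ∂G.mu : ℝ) * (∫ p, (F₂ p).im * P.ph j p ∂G.mu : ℝ)) *
        Complex.I_mul_I
  · rw [← Complex.ofReal_pow, mul_pow, sq_c, ipc]
    have hpi : (π : ℂ) ≠ 0 := Complex.ofReal_ne_zero.2 Real.pi_ne_zero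
    simp only [Complex.real_smul]
    push_cast
    field_simp

theorem T_der (T : ℂ →L[ℝ] ℝ) {u : ℝ → ℂ} {r t x : ℝ}
    (h : HasDerivAt u ((r + t * Complex.I) * u x) x) :
    HasDerivAt (fun s => T (u s)) (r * T (u x) + t * T (Complex.I * u x)) x ∧
      HasDerivAt (fun s => T (Complex.I * u s)) (r * T (Complex.I * u x) - t * T (u x)) x := by
  have h1 := T.hasFDerivAt.comp_hasDerivAt x h
  have h2 := T.hasFDerivAt.comp_hasDerivAt x (h.const_mul Complex.I)
  have e1 : (r + t * Complex.I) * u x = r • u x + t • (Complex.I * u x) := by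
    simp only [Complex.real_smul]; ring
  have e2 : Complex.I * ((r + t * Complex.I) * u x) = r • (Complex.I * u x) - t • u x := by
    simp only [Complex.real_smul]; linear_combination (t * u x) * Complex.I_mul_I
  rw [e2, map_sub, map_smul, map_smul] at h2
  rw [e1, map_add, map_smul, map_smul] at h1
  exact ⟨h1, h2⟩

theorem ibp {A B H H0 H1 H2 : ℝ → ℝ → ℝ → ℝ} {σ α β n k l : ℝ} (cA : C3 A) (cB : C3 B)
    (cH : C3 H) (c0 : C3 H0) (c1 : C3 H1) (c2 : C3 H2)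
    (a0 : ∀ x y w, HasDerivAt (fun t => A t y w) (σ * sin x / 2 * A x y w + n * B x y w) x)
    (b0 : ∀ x y w, HasDerivAt (fun t => B t y w) (σ * sin x / 2 * B x y w - n * A x y w) x)
    (b1 : ∀ x y w, HasDerivAt (fun t => B x t w) (0 * B x y w - k * A x y w) y)
    (b2 : ∀ x y w, HasDerivAt (fun t => B x y t) (0 * B x y w - l * A x y w) w)
    (h0 : ∀ x y w, HasDerivAt (fun t => H t y w) (H0 x y w) x)
    (h1 : ∀ x y w, HasDerivAt (fun t => H x t w) (H1 x y w) y)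
    (h2 : ∀ x y w, HasDerivAt (fun t => H x y t) (H2 x y w) w)
    (p0 : ∀ y w, A (2 * π) y w = A 0 y w ∧ B (2 * π) y w = B 0 y w ∧ H (2 * π) y w = H 0 y w)
    (p1 : ∀ x w, B x (2 * π) w = B x 0 w ∧ H x (2 * π) w = H x 0 w)
    (p2 : ∀ x y, B x y (2 * π) = B x y 0 ∧ H x y (2 * π) = H x y 0) :
    (J3 fun x y w => ((σ * sin x / 2 * A x y w + n * B x y w) * H0 x y w +
      exp (-(α * cos x)) * ((0 * A x y w + k * B x y w) * H1 x y w) +
      exp (-(β * cos x)) * ((0 * A x y w + l * B x y w) * H2 x y w)) * exp (σ * cos x)) =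
    J3 fun x y w => (n ^ 2 + σ ^ 2 * (1 - cos x ^ 2) / 4 - σ * cos x / 2 +
      k ^ 2 * exp (-(α * cos x)) + l ^ 2 * exp (-(β * cos x))) * A x y w * H x y w *
        exp (σ * cos x) := by
  replace cA := cA.std
  replace cB := cB.std
  replace cH := cH.std
  replace c0 := c0.std
  replace c1 := c1.std
  replace c2 := c2.std
  have d0 : C3 fun x y w => ((σ * cos x / 2 - σ ^ 2 * (1 - cos x ^ 2) / 4 - n ^ 2) * A x y w *
      H x y w + (σ * sin x / 2 * A x y w + n * B x y w) * H0 x y w) * exp (σ * cos x) := by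
    unfold C3; fun_prop
  have d1 : C3 fun x y w => exp (-(α * cos x)) * k * exp (σ * cos x) *
      ((0 * B x y w - k * A x y w) * H x y w + B x y w * H1 x y w) := by
    unfold C3; fun_prop
  have d2 : C3 fun x y w => exp (-(β * cos x)) * l * exp (σ * cos x) *
      ((0 * B x y w - l * A x y w) * H x y w + B x y w * H2 x y w) := by
    unfold C3; fun_prop
  have d3 : C3 fun x y w => (n ^ 2 + σ ^ 2 * (1 - cos x ^ 2) / 4 - σ * cos x / 2 +
      k ^ 2 * exp (-(α * cos x)) + l ^ 2 * exp (-(β * cos x))) * A x y w * H x y w *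
        exp (σ * cos x) := by
    unfold C3; fun_prop
  have i0 := J3_d0 (g := fun x y w => (σ * sin x / 2 * A x y w + n * B x y w) * H x y w *
      exp (σ * cos x)) d0 (fun x y w => by
    have h := ((((((hasDerivAt_sin x).const_mul σ).div_const 2).mul (a0 x y w)).add
      ((b0 x y w).const_mul n)).mul (h0 x y w)).mul ((hasDerivAt_cos x).const_mul σ).exp
    refine h.congr_deriv ?_
    simp only [Pi.mul_apply, Pi.add_apply]
    linear_combination (-(σ ^ 2 / 4 * A x y w * H x y w * exp (σ * cos x))) * sin_sq_add_cos_sq x)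
    (fun y w => by
      simp only [(p0 y w).1, (p0 y w).2.1, (p0 y w).2.2, sin_two_pi, sin_zero, cos_two_pi, cos_zero])
  have i1 := J3_d1 (g := fun x y w => exp (-(α * cos x)) * k * exp (σ * cos x) *
      (B x y w * H x y w)) d1 (fun x y w => ((b1 x y w).mul (h1 x y w)).const_mul _)
    (fun x w => by simp only [(p1 x w).1, (p1 x w).2])
  have i2 := J3_d2 (g := fun x y w => exp (-(β * cos x)) * l * exp (σ * cos x) *
      (B x y w * H x y w)) d2 (fun x y w => ((b2 x y w).mul (h2 x y w)).const_mul _)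
    (fun x w => by simp only [(p2 x w).1, (p2 x w).2])
  have s1 := J3_add d1 d2
  have s2 := J3_add d0 (d1.add d2)
  have s3 := J3_add d3 (d0.add (d1.add d2))
  rw [s2, s1, i0, i1, i2, add_zero, add_zero, add_zero] at s3
  rw [← s3]
  congr 1
  funext x y w
  ring

/-- the formula for the energy -/
def Ene (G : Geo 6) (σ α β : ℝ) : Prop := ∀ f h : Amb 6 → ℝ, ContDiff ℝ ∞ f → ContDiff ℝ ∞ h →
  G.en f h = cube fun x => (dd 0 (f ∘ tor) x * dd 0 (h ∘ tor) x +
    exp (-(α * cos (x 0))) * (dd 1 (f ∘ tor) x * dd 1 (h ∘ tor) x) +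
    exp (-(β * cos (x 0))) * (dd 2 (f ∘ tor) x * dd 2 (h ∘ tor) x)) * exp (σ * cos (x 0))

/-- the potential -/
noncomputable def pot (σ α β : ℝ) (z : ℤ × ℤ) (n : ℤ) (c : ℝ) : ℝ :=
  (n : ℝ) ^ 2 + σ ^ 2 * (1 - c ^ 2) / 4 - σ * c / 2 + (z.1 : ℝ) ^ 2 * exp (-(α * c)) +
    (z.2 : ℝ) ^ 2 * exp (-(β * c))

theorem cont_pot (σ α β : ℝ) (z : ℤ × ℤ) (n : ℤ) : Continuous (pot σ α β z n) := by
  unfold pot; fun_prop

theorem weak_T {α β : ℝ} (hV : Vol G σ) (hE : Ene G σ α β) (z : ℤ × ℤ) (n : ℤ) (T : ℂ →L[ℝ] ℝ)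
    (h : Amb 6 → ℝ) (hh : ContDiff ℝ ∞ h) : G.en (fun P => T (Fz σ z (fun _ => 1) n P)) h =
      G.ms (fun P => T (Fz σ z (pot σ α β z n) n P)) h := by
  have hF := contDiff_Fz σ z n
  have hf : ContDiff ℝ ∞ fun P => T (Fz σ z (fun _ => 1) n P) := T.contDiff.comp hF
  have hL := cont_Fz σ z (cont_pot σ α β z n) n
  have u0 : ∀ x y w, HasDerivAt (fun t => Fz σ z (fun _ => 1) n (tp t y w))
      (((σ * sin x / 2 : ℝ) + (n : ℝ) * Complex.I) * Fz σ z (fun _ => 1) n (tp x y w)) x := by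
    intro x y w
    simp only [Fz_tp]
    have h1 := ((((hasDerivAt_cos x).const_mul σ).div_const 2).neg.exp.const_mul 1).ofReal_comp
    refine (h1.mul ((ch_deriv n x).mul_const (ch z.1 y * ch z.2 w))).congr_deriv ?_
    simp only [Pi.neg_apply, Complex.ofReal_mul, Complex.ofReal_neg, Complex.ofReal_div,
      Complex.ofReal_intCast]
    ring
  have u1 : ∀ x y w, HasDerivAt (fun t => Fz σ z (fun _ => 1) n (tp x t w))
      (((0 : ℝ) + (z.1 : ℝ) * Complex.I) * Fz σ z (fun _ => 1) n (tp x y w)) y := by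
    intro x y w
    simp only [Fz_tp]
    refine ((((ch_deriv z.1 y).mul_const (ch z.2 w)).const_mul _).const_mul _).congr_deriv ?_
    simp only [Complex.ofReal_zero, Complex.ofReal_intCast]
    ring
  have u2 : ∀ x y w, HasDerivAt (fun t => Fz σ z (fun _ => 1) n (tp x y t))
      (((0 : ℝ) + (z.2 : ℝ) * Complex.I) * Fz σ z (fun _ => 1) n (tp x y w)) w := by
    intro x y w
    simp only [Fz_tp]
    refine ((((ch_deriv z.2 w).const_mul (ch z.1 y)).const_mul _).const_mul _).congr_deriv ?_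
    simp only [Complex.ofReal_zero, Complex.ofReal_intCast]
    ring
  have df := (hf.comp contDiff_tor).differentiable (by simp)
  have hH := hh.comp contDiff_tor
  have dh := hH.differentiable (by simp)
  have e0 := fun x y w => (hd0 df x y w).unique (T_der T (u0 x y w)).1
  have e1 := fun x y w => (hd1 df x y w).unique (T_der T (u1 x y w)).1
  have e2 := fun x y w => (hd2 df x y w).unique (T_der T (u2 x y w)).1
  have e3 : ∀ x y w, T (Fz σ z (pot σ α β z n) n (tp x y w)) =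
      pot σ α β z n (cos x) * T (Fz σ z (fun _ => 1) n (tp x y w)) := fun x y w => by
    rw [← smul_eq_mul, ← map_smul, Fz_tp, Fz_tp, Complex.real_smul]
    congr 1
    simp only [Complex.ofReal_mul, Complex.ofReal_one]
    ring
  rw [hE _ _ hf hh, Geo.ms, hV (fun P => T (Fz σ z (pot σ α β z n) n P) * h P)
    (Continuous.mul (T.continuous.comp hL) hh.continuous), cube_eq]
  simp only [e0, e1, e2, e3, pt0, pot]
  exact ibp (A := fun x y w => T (Fz σ z (fun _ => 1) n (tp x y w)))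
    (B := fun x y w => T (Complex.I * Fz σ z (fun _ => 1) n (tp x y w)))
    (H := fun x y w => h (tp x y w)) (c3_comp hf.continuous)
    (c3_comp (T.continuous.comp (continuous_const.mul hF.continuous))) (c3_comp hh.continuous)
    ((cont_dd 0 hH).comp c3_pt) ((cont_dd 1 hH).comp c3_pt) ((cont_dd 2 hH).comp c3_pt)
    (fun x y w => (T_der T (u0 x y w)).1) (fun x y w => (T_der T (u0 x y w)).2)
    (fun x y w => (T_der T (u1 x y w)).2) (fun x y w => (T_der T (u2 x y w)).2)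
    (hd0 dh) (hd1 dh) (hd2 dh) (fun y w => by simp only [tp_per0, and_self])
    (fun y w => by simp only [tp_per1, and_self]) (fun y w => by simp only [tp_per2, and_self])

theorem weak_psi {α β : ℝ} (hV : Vol G σ) (hE : Ene G σ α β) (P : Spec G) (z : ℤ × ℤ) (j : ℕ)
    (n : ℤ) : ipc (mode (pot σ α β z n) n) (psi σ z (P.ph j)) =
      G.eig j * ipc (mode (fun _ => 1) n) (psi σ z (P.ph j)) := by
  have hF := contDiff_Fz σ z n
  have hL := cont_Fz σ z (cont_pot σ α β z n) n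
  have w := fun T : ℂ →L[ℝ] ℝ => P.weak j _ _ (T.contDiff.comp hF) (T.continuous.comp hL)
    (weak_T hV hE z n T)
  have w1 : G.ms (fun P => (Fz σ z (pot σ α β z n) n P).re) _ =
    _ * G.ms (fun P => (Fz σ z (fun _ => 1) n P).re) _ := w Complex.reCLM
  have w2 : G.ms (fun P => (Fz σ z (pot σ α β z n) n P).im) _ =
    _ * G.ms (fun P => (Fz σ z (fun _ => 1) n P).im) _ := w Complex.imCLM
  rw [hV.ipc_psi z (cont_pot σ α β z n) n (P.cont j), hV.ipc_psi z continuous_const n (P.cont j),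
    msC, msC, w1, w2]
  simp only [Complex.ofReal_mul]
  ring

/-- the second order part of the potential -/
noncomputable def aE (ε p q : ℝ) (z : ℤ × ℤ) (c : ℝ) : ℝ :=
  (p + q) ^ 2 / 4 * (1 - c ^ 2) +
    (z.1 : ℝ) ^ 2 * ((exp (-(2 * ε * p * c)) - 1 + 2 * ε * p * c) / ε ^ 2) +
    (z.2 : ℝ) ^ 2 * ((exp (-(2 * ε * q * c)) - 1 + 2 * ε * q * c) / ε ^ 2)

theorem cont_aE (ε p q : ℝ) (z : ℤ × ℤ) : Continuous (aE ε p q z) := by unfold aE; fun_prop

theorem pot_eq {ε : ℝ} (hε : 0 < ε) (p q : ℝ) (z : ℤ × ℤ) (n : ℤ) :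
    (fun c => (n : ℝ) ^ 2 + kap z - ε * wT p q z * c + ε ^ 2 * aE ε p q z c) =
      pot (ε * (p + q)) (2 * ε * p) (2 * ε * q) z n := by
  funext c
  simp only [kap, wT, aE, pot]
  field_simp
  ring

theorem exp_rem {u : ℝ} (hu : |u| ≤ 1) : |exp (-u) - 1 + u - u ^ 2 / 2| ≤ |u| ^ 3 := by
  have h := Real.exp_bound (x := -u) (by rwa [abs_neg]) (n := 3) (by norm_num)
  simp only [Finset.sum_range_succ, Finset.range_zero, Finset.sum_empty, abs_neg,
    Nat.factorial] at h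
  have e : exp (-u) - 1 + u - u ^ 2 / 2 = exp (-u) - (0 + (-u) ^ 0 / ((1 : ℕ) : ℝ) +
      (-u) ^ 1 / ((Nat.succ 0 * 1 : ℕ) : ℝ) + (-u) ^ 2 / ((Nat.succ 1 * (Nat.succ 0 * 1) : ℕ) : ℝ)) := by
    norm_num
    ring
  rw [e]
  refine h.trans (mul_le_of_le_one_right (by positivity) ?_)
  norm_num

theorem rem_le {ε M r c : ℝ} (hε : 0 < ε) (hM : 2 * ε * M ≤ 1) (hr : |r| ≤ M) (hc : |c| ≤ 1) :
    |(exp (-(2 * ε * r * c)) - 1 + 2 * ε * r * c) / ε ^ 2 - 2 * r ^ 2 * c ^ 2| ≤ 8 * M ^ 3 * ε := by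
  have h1 : |2 * ε * r * c| ≤ 2 * ε * M := by
    rw [abs_mul, abs_mul, abs_of_pos (by positivity : 0 < 2 * ε)]
    calc 2 * ε * |r| * |c| ≤ 2 * ε * M * 1 := by
          have := (abs_nonneg r).trans hr
          gcongr
      _ = _ := mul_one _
  have h2 := (exp_rem (h1.trans hM)).trans (pow_le_pow_left₀ (abs_nonneg _) h1 3)
  have e : (exp (-(2 * ε * r * c)) - 1 + 2 * ε * r * c) / ε ^ 2 - 2 * r ^ 2 * c ^ 2 =
      (exp (-(2 * ε * r * c)) - 1 + 2 * ε * r * c - (2 * ε * r * c) ^ 2 / 2) / ε ^ 2 := by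
    field_simp
  rw [e, abs_div, abs_of_pos (by positivity : 0 < ε ^ 2), div_le_iff₀ (by positivity)]
  refine h2.trans (le_of_eq ?_)
  ring

theorem kap_nonneg (z : ℤ × ℤ) : 0 ≤ kap z := by unfold kap; positivity

theorem kap_cases (z : ℤ × ℤ) : kap z = 0 ∨ 1 ≤ kap z := by
  have h : z.1 ^ 2 + z.2 ^ 2 = 0 ∨ 1 ≤ z.1 ^ 2 + z.2 ^ 2 := by
    have : 0 ≤ z.1 ^ 2 + z.2 ^ 2 := by positivity
    omega
  unfold kap
  exact_mod_cast h

/-- the limit of `aE` -/
noncomputable def a0 (p q : ℝ) (z : ℤ × ℤ) (c : ℝ) : ℝ :=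
  (p + q) ^ 2 / 4 + (2 * p ^ 2 * (z.1 : ℝ) ^ 2 + 2 * q ^ 2 * (z.2 : ℝ) ^ 2 - (p + q) ^ 2 / 4) * c ^ 2

theorem aE_sub {ε M p q c : ℝ} (hε : 0 < ε) (hM : 2 * ε * M ≤ 1) (hp : |p| ≤ M) (hq : |q| ≤ M)
    (hc : |c| ≤ 1) (z : ℤ × ℤ) : |aE ε p q z c - a0 p q z c| ≤ 8 * M ^ 3 * ε * kap z := by
  have h1 := abs_le.1 (rem_le hε hM hp hc)
  have h2 := abs_le.1 (rem_le hε hM hq hc)
  have k1 := sq_nonneg (z.1 : ℝ)
  have k2 := sq_nonneg (z.2 : ℝ)
  unfold aE a0 kap
  refine abs_le.2 ⟨?_, ?_⟩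
  · nlinarith [mul_le_mul_of_nonneg_left h1.1 k1, mul_le_mul_of_nonneg_left h2.1 k2]
  · nlinarith [mul_le_mul_of_nonneg_left h1.2 k1, mul_le_mul_of_nonneg_left h2.2 k2]

theorem a0_le {M p q c : ℝ} (hp : |p| ≤ M) (hq : |q| ≤ M) (hs : |p + q| ≤ M) (hc : |c| ≤ 1)
    (z : ℤ × ℤ) : |a0 p q z c| ≤ M ^ 2 + 2 * M ^ 2 * kap z := by
  have h1 : p ^ 2 ≤ M ^ 2 := sq_le_sq' (neg_le_of_abs_le hp) (le_of_abs_le hp)
  have h2 : q ^ 2 ≤ M ^ 2 := sq_le_sq' (neg_le_of_abs_le hq) (le_of_abs_le hq)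
  have h3 : (p + q) ^ 2 ≤ M ^ 2 := sq_le_sq' (neg_le_of_abs_le hs) (le_of_abs_le hs)
  have h4 : c ^ 2 ≤ 1 := (sq_le_one_iff_abs_le_one c).2 hc
  have e : a0 p q z c = (p + q) ^ 2 / 4 * (1 - c ^ 2) + 2 * (p ^ 2 * c ^ 2) * (z.1 : ℝ) ^ 2 +
      2 * (q ^ 2 * c ^ 2) * (z.2 : ℝ) ^ 2 := by unfold a0; ring
  have h5 : 0 ≤ 1 - c ^ 2 := by linarith
  rw [e, abs_of_nonneg (by positivity)]
  have h6 : p ^ 2 * c ^ 2 ≤ M ^ 2 := (mul_le_of_le_one_right (sq_nonneg _) h4).trans h1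
  have h7 : q ^ 2 * c ^ 2 ≤ M ^ 2 := (mul_le_of_le_one_right (sq_nonneg _) h4).trans h2
  have h8 : (p + q) ^ 2 / 4 * (1 - c ^ 2) ≤ M ^ 2 := by nlinarith [sq_nonneg c, sq_nonneg (p + q)]
  unfold kap
  nlinarith [mul_le_mul_of_nonneg_right h6 (sq_nonneg (z.1 : ℝ)),
    mul_le_mul_of_nonneg_right h7 (sq_nonneg (z.2 : ℝ))]

theorem wT_le {M p q : ℝ} (hp : |p| ≤ M) (hq : |q| ≤ M) (hs : |p + q| ≤ M) (z : ℤ × ℤ) :
    |wT p q z| ≤ 2 * M * (1 + kap z) := by
  have h1 := abs_le.1 hp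
  have h2 := abs_le.1 hq
  have h3 := abs_le.1 hs
  have k1 := sq_nonneg (z.1 : ℝ)
  have k2 := sq_nonneg (z.2 : ℝ)
  unfold wT kap
  refine abs_le.2 ⟨?_, ?_⟩
  · nlinarith [mul_le_mul_of_nonneg_left h1.1 k1, mul_le_mul_of_nonneg_left h2.1 k2]
  · nlinarith [mul_le_mul_of_nonneg_left h1.2 k1, mul_le_mul_of_nonneg_left h2.2 k2]

theorem mean_le {ε M p q : ℝ} (hε : 0 < ε) (hM : 2 * ε * M ≤ 1) (hp : |p| ≤ M) (hq : |q| ≤ M)
    (z : ℤ × ℤ) : |(∫ x in (0 : ℝ)..(2 * π), aE ε p q z (cos x)) / (2 * π) - mT p q z| ≤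
      8 * M ^ 3 * ε * kap z := by
  have hc := cont_aE ε p q z
  have h0 : Continuous (a0 p q z) := by unfold a0; fun_prop
  have e : ∫ x in (0 : ℝ)..(2 * π), a0 p q z (cos x) = 2 * π * mT p q z := by
    unfold a0 mT
    rw [intervalIntegral.integral_add intervalIntegrable_const
      (Continuous.intervalIntegrable (by fun_prop) _ _), intervalIntegral.integral_const_mul,
      integral_cos_sq, intervalIntegral.integral_const]
    simp only [sin_two_pi, sin_zero, mul_zero, sub_zero, zero_add, smul_eq_mul]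
    ring
  have h1 := intervalIntegral.norm_integral_le_of_norm_le_const (a := 0) (b := 2 * π)
    (f := fun x => aE ε p q z (cos x) - a0 p q z (cos x))
    fun x _ => aE_sub hε hM hp hq (abs_cos_le_one x) z
  rw [intervalIntegral.integral_sub (Continuous.intervalIntegrable (by fun_prop) _ _)
    (Continuous.intervalIntegrable (by fun_prop) _ _), e, sub_zero, abs_of_pos two_pi_pos,
    Real.norm_eq_abs] at h1
  have e2 : ∀ X : ℝ, X / (2 * π) - mT p q z = (X - 2 * π * mT p q z) / (2 * π) := fun X => by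
    field_simp
  rw [e2, abs_div, abs_of_pos two_pi_pos, div_le_iff₀ two_pi_pos]
  exact h1

end TrE

open TrE

theorem trE_holds (hS : SpecStmt) (hA : TrAStmt) (hB : TrBStmt) (hC : TrCStmt) : TrEStmt := by
  intro p q
  obtain ⟨CB, hB⟩ := hB
  obtain ⟨⟨C0, hC0⟩, hC⟩ := hC
  obtain ⟨c, -, hC⟩ := hC p q
  obtain ⟨C1, hC⟩ := hC 0
  obtain ⟨M, hM⟩ : ∃ M, M = |p| + |q| + 1 := ⟨_, rfl⟩
  have hM1 : 1 ≤ M := by rw [hM]; linarith [abs_nonneg p, abs_nonneg q]
  have hp : |p| ≤ M := by rw [hM]; linarith [abs_nonneg q]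
  have hq : |q| ≤ M := by rw [hM]; linarith [abs_nonneg p]
  have hs : |p + q| ≤ M := by rw [hM]; linarith [abs_add_le p q]
  refine ⟨(|CB| * (5 * M ^ 2) ^ 3 + C0 * (8 * M ^ 3)) * C0, 1 / (64 * M ^ 2), by positivity,
    fun ε hε hε0 G hG hb t ht ht1 => ?_⟩
  have hM2 : M ≤ M ^ 2 := by nlinarith
  have hεM : 64 * M ^ 2 * ε ≤ 1 := by
    rwa [le_div_iff₀ (by positivity), mul_comm] at hε0
  have hεM' : 2 * ε * M ≤ 1 := by nlinarith
  have hε1 : ε ≤ 1 := by nlinarith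
  obtain ⟨P⟩ := hS 6 G hb
  obtain ⟨hV, -, hE⟩ := (hA ε p q).2.2 G hG
  replace hV : Vol G (ε * (p + q)) := hV
  replace hE : Ene G (ε * (p + q)) (2 * ε * p) (2 * ε * q) := hE
  have key := fun z : ℤ × ℤ => hB (kap z) (4 * M ^ 2 * (1 + kap z)) ε (wT p q z) (aE ε p q z)
    (fun j => psi (ε * (p + q)) z (P.ph j)) G.eig (kap_nonneg z) hε hε1
    ((wT_le hp hq hs z).trans (by have := kap_nonneg z; gcongr; nlinarith)) (cont_aE ε p q z)
    (fun x => by
      have h1 := aE_sub hε hεM' hp hq (abs_cos_le_one x) z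
      have h2 := a0_le hp hq hs (abs_cos_le_one x) z
      have h3 := abs_sub_abs_le_abs_sub (aE ε p q z (cos x)) (a0 p q z (cos x))
      have h4 : 8 * M ^ 3 * ε ≤ M ^ 2 := by nlinarith
      have h5 := mul_le_mul_of_nonneg_right h4 (kap_nonneg z)
      have h6 := mul_nonneg (sq_nonneg M) (kap_nonneg z)
      nlinarith [sq_nonneg M])
    ((kap_cases z).imp_right fun h => by
      have h1 : 64 * M ^ 2 * ε * (1 + kap z) ≤ 1 * (1 + kap z) := by gcongr
      nlinarith)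
    P.nonneg (fun j => cont_psi _ z (P.cont j))
    (fun a₁ a₂ n₁ n₂ h₁ h₂ => hV.pars P z n₁ n₂ h₁ h₂)
    (fun j n => by rw [pot_eq hε]; exact weak_psi hV hE P z j n) t ht ht1
  choose zz hz1 hz2 using key
  have s1 : ∀ j, HasSum (fun z => exp (-(G.eig j * t)) *
      (ipc (psi (ε * (p + q)) z (P.ph j)) (psi (ε * (p + q)) z (P.ph j))).re)
      (exp (-(G.eig j * t))) := fun j => by
    have h1 := sum_psi (ε * (p + q)) (P.cont j)
    rw [← hV (fun x => P.ph j x * P.ph j x) ((P.cont j).mul (P.cont j))] at h1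
    have h2 : ∫ x, P.ph j x * P.ph j x ∂G.mu = 1 := P.norm j
    rw [h2] at h1
    simpa only [mul_one] using h1.mul_left (exp (-(G.eig j * t)))
  have s2 : HasSum zz (ZZ G.eig t) :=
    (hs_prod (fun j z => mul_nonneg (exp_pos _).le (by
      rw [ipc_self]
      exact mul_nonneg (by positivity)
        (intervalIntegral.integral_nonneg two_pi_pos.le fun _ _ => sq_nonneg _))) s1
      (P.summ t ht).hasSum).prod_fiberwise hz1
  obtain ⟨t1, t2, t3⟩ := hC0 t ht ht1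
  obtain ⟨u1, u2, -⟩ := hC t ht ht1
  have hth : |th0 t| * t ≤ C0 := by rwa [le_div_iff₀ ht] at t1
  have hC00 : 0 ≤ C0 := (mul_nonneg (abs_nonneg _) ht.le).trans hth
  have s3 := s2.sub (u1.hasSum.add (u2.hasSum.mul_left (ε ^ 2)))
  have s4 := s3.norm_le_of_bounded (t2.hasSum.mul_left
    ((|CB| * (5 * M ^ 2) ^ 3 + C0 * (8 * M ^ 3)) * ε ^ 3)) fun z => by
    have hk := kap_nonneg z
    have h1 := hz2 z
    have h2 := mean_le hε hεM' hp hq z
    generalize (∫ x in (0 : ℝ)..(2 * π), aE ε p q z (cos x)) / (2 * π) = m at h1 h2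
    have e : zz z - (zA0 t z + ε ^ 2 * zA2 p q t z) = (zz z - exp (-(t * kap z)) *
        (th0 t * (1 - t * ε ^ 2 * m) + ε ^ 2 * (wT p q z ^ 2 / 4) * t ^ 2 * th1 t)) -
        exp (-(t * kap z)) * (th0 t * t) * (ε ^ 2 * (m - mT p q z)) := by
      unfold zA0 zA2; ring
    have h3 : CB * ε ^ 3 * (1 + 4 * M ^ 2 * (1 + kap z)) ^ 3 * exp (-(t * kap z / 2)) ≤
        |CB| * ε ^ 3 * (5 * M ^ 2 * (1 + kap z)) ^ 3 * exp (-(t * kap z / 2)) := by
      have h4 : 1 + 4 * M ^ 2 * (1 + kap z) ≤ 5 * M ^ 2 * (1 + kap z) := by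
        nlinarith [mul_nonneg (sq_nonneg M) hk]
      gcongr
      exact le_abs_self _
    have h5 : |exp (-(t * kap z)) * (th0 t * t) * (ε ^ 2 * (m - mT p q z))| ≤
        exp (-(t * kap z / 2)) * C0 * (ε ^ 2 * (8 * M ^ 3 * ε * (1 + kap z) ^ 3)) := by
      have h6 : kap z ≤ (1 + kap z) ^ 3 := by nlinarith [sq_nonneg (kap z), pow_nonneg hk 3]
      have h7 : -(t * kap z) ≤ -(t * kap z / 2) := by nlinarith [mul_nonneg ht.le hk]
      rw [abs_mul, abs_mul, abs_mul, abs_mul, abs_of_pos (exp_pos _), abs_of_pos ht,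
        abs_of_pos (by positivity : 0 < ε ^ 2)]
      gcongr
      exact h2.trans (by gcongr)
    rw [Real.norm_eq_abs, e]
    refine (abs_sub _ _).trans ((add_le_add (h1.trans h3) h5).trans (le_of_eq ?_))
    ring
  rw [Real.norm_eq_abs] at s4
  refine s4.trans ((mul_le_mul_of_nonneg_left t3 (by positivity)).trans (le_of_eq ?_))
  ring

end Pool.Agent.Lib.MP_1a4aff_gt.I3
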