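import Pool.Agent.Lib.MP_1a4aff_gt.I3.BrB

/-! The signs of the leading terms of the heat invariants, computed on the test tori. -/

set_option autoImplicit false

open MeasureTheory Set Filter Topology Metric
open scoped ContDiff RealInnerProductSpace

namespace Pool.Agent.Lib.MP_1a4aff_gt.I3

namespace TrF

theorem cd_coord (c : Fin 3) : ContDiff ℝ ∞ fun v : E3 => v c :=
  (EuclideanSpace.proj c : E3 →L[ℝ] ℝ).contDiff

theorem contDiff_tor : ContDiff ℝ ∞ tor := by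
  refine contDiff_euclidean.2 fun i => ?_
  fin_cases i
  · exact Real.contDiff_cos.comp (cd_coord 0)
  · exact Real.contDiff_sin.comp (cd_coord 0)
  · exact Real.contDiff_cos.comp (cd_coord 1)
  · exact Real.contDiff_sin.comp (cd_coord 1)
  · exact Real.contDiff_cos.comp (cd_coord 2)
  · exact Real.contDiff_sin.comp (cd_coord 2)

theorem continuous_dg {α : Type} [TopologicalSpace α] {a b : α → ℝ} (ha : Continuous a)
    (hb : Continuous b) : Continuous fun x => dg (a x) (b x) := by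
  refine continuous_clm_apply.2 fun y => ?_
  have e : (fun x => dg (a x) (b x) y) =
      fun x => y 0 • ee 0 + (a x * y 1) • ee 1 + (b x * y 2) • ee 2 := by
    funext x
    refine E3_ext ?_ ?_ ?_ <;> simp [dg, Matrix.toLpLin_apply, Matrix.mulVec_diagonal]
  rw [e]
  fun_prop

theorem continuous_sec (ε p q : ℝ) : Continuous (sec ε p q) := by
  have h0 := (cd_coord 0).continuous
  refine contDiff_tor.continuous.prodMk
    ((contDiff_tor.continuous_fderiv (by simp)).clm_comp (continuous_dg ?_ ?_)) <;> fun_prop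

theorem int_close {h g : ℝ → ℝ} (hh : Continuous h) (hg : Continuous g) {D : ℝ}
    (H : ∀ x, |h x - g x| ≤ D) :
    |(∫ x in (0 : ℝ)..(2 * Real.pi), h x) - ∫ x in (0 : ℝ)..(2 * Real.pi), g x| ≤
      2 * Real.pi * D := by
  rw [← intervalIntegral.integral_sub (hh.intervalIntegrable _ _) (hg.intervalIntegrable _ _)]
  have := intervalIntegral.norm_integral_le_of_norm_le_const (a := 0) (b := 2 * Real.pi) (C := D)
    (f := fun x => h x - g x) fun x _ => H x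
  rw [sub_zero, abs_of_pos (by positivity : 0 < 2 * Real.pi), Real.norm_eq_abs] at this
  linarith

theorem cube_close {f : E3 → ℝ} {g : ℝ → ℝ} (hf : Continuous f) (hg : Continuous g) {D : ℝ}
    (H : ∀ x, |f x - g (x 0)| ≤ D) :
    |cube f - (2 * Real.pi) ^ 2 * ∫ x in (0 : ℝ)..(2 * Real.pi), g x| ≤ (2 * Real.pi) ^ 3 * D := by
  have hv : Continuous fun w : (ℝ × ℝ) × ℝ => (WithLp.toLp 2 ![w.1.1, w.1.2, w.2] : E3) := by
    refine (PiLp.continuous_toLp 2 _).comp (continuous_pi fun i => ?_)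
    fin_cases i
    · exact continuous_fst.comp continuous_fst
    · exact continuous_snd.comp continuous_fst
    · exact continuous_snd
  have h3 : Continuous fun w : (ℝ × ℝ) × ℝ => f (WithLp.toLp 2 ![w.1.1, w.1.2, w.2]) := hf.comp hv
  have h2 : Continuous fun w : ℝ × ℝ =>
      ∫ z in (0 : ℝ)..(2 * Real.pi), f (WithLp.toLp 2 ![w.1, w.2, z]) :=
    intervalIntegral.continuous_parametric_intervalIntegral_of_continuous'
      (f := fun (w : ℝ × ℝ) (z : ℝ) => f (WithLp.toLp 2 ![w.1, w.2, z])) h3 _ _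
  have h1 : Continuous fun x : ℝ => ∫ y in (0 : ℝ)..(2 * Real.pi),
      ∫ z in (0 : ℝ)..(2 * Real.pi), f (WithLp.toLp 2 ![x, y, z]) :=
    intervalIntegral.continuous_parametric_intervalIntegral_of_continuous'
      (f := fun (x y : ℝ) => ∫ z in (0 : ℝ)..(2 * Real.pi), f (WithLp.toLp 2 ![x, y, z])) h2 _ _
  have b3 : ∀ x y : ℝ, |(∫ z in (0 : ℝ)..(2 * Real.pi), f (WithLp.toLp 2 ![x, y, z])) -
      2 * Real.pi * g x| ≤ 2 * Real.pi * D := fun x y => by
    have := int_close (h := fun z => f (WithLp.toLp 2 ![x, y, z])) (g := fun _ => g x)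
      (h3.comp (Continuous.prodMk_right (x, y))) continuous_const fun z => H _
    simpa using this
  have b2 : ∀ x : ℝ, |(∫ y in (0 : ℝ)..(2 * Real.pi), ∫ z in (0 : ℝ)..(2 * Real.pi),
      f (WithLp.toLp 2 ![x, y, z])) - (2 * Real.pi) ^ 2 * g x| ≤
      2 * Real.pi * (2 * Real.pi * D) := fun x => by
    have := int_close (g := fun _ => 2 * Real.pi * g x)
      (h2.comp (Continuous.prodMk_right x)) continuous_const fun y => b3 x y
    rw [intervalIntegral.integral_const, sub_zero, smul_eq_mul, ← mul_assoc, ← sq] at this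
    exact this
  have := int_close (g := fun x => (2 * Real.pi) ^ 2 * g x) h1 (continuous_const.mul hg) b2
  rw [intervalIntegral.integral_const_mul] at this
  refine this.trans (le_of_eq (by ring))

theorem int_cos (m : ℕ) :
    ∫ x in (0 : ℝ)..(2 * Real.pi), iteratedDeriv m Real.cos x ^ 2 = Real.pi := by
  obtain ⟨j, rfl | rfl⟩ := Nat.even_or_odd' m
  · have e : (fun x => iteratedDeriv (2 * j) Real.cos x ^ 2) = fun x => Real.cos x ^ 2 := by
      funext x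
      rw [Real.iteratedDeriv_even_cos]
      simp [mul_pow, ← pow_mul]
    rw [e, integral_cos_sq]
    simp
  · have e : (fun x => iteratedDeriv (2 * j + 1) Real.cos x ^ 2) = fun x => Real.sin x ^ 2 := by
      funext x
      rw [Real.iteratedDeriv_odd_cos]
      simp [mul_pow, ← pow_mul]
    rw [e, integral_sin_sq]
    simp

theorem exp_close {ε s : ℝ} (hε : 0 < ε) (h : ε * |s| ≤ 1) (x : ℝ) :
    |Real.exp (ε * s * Real.cos x) - 1| ≤ 2 * (ε * |s|) ∧ |Real.exp (ε * s * Real.cos x)| ≤ 3 := by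
  have h1 : |ε * s * Real.cos x| ≤ ε * |s| := by
    rw [abs_mul, abs_mul, abs_of_pos hε]
    exact mul_le_of_le_one_right (by positivity) (Real.abs_cos_le_one x)
  have h2 := Real.abs_exp_sub_one_le (h1.trans h)
  refine ⟨by linarith, ?_⟩
  rw [abs_of_pos (Real.exp_pos _)]
  linarith [(abs_le.1 h2).2]

theorem ev_small {c : ℝ} (hc : 0 < c) (a : ℝ) :
    ∀ᶠ ε in 𝓝[>] (0 : ℝ), 0 < ε ∧ ε ≤ c ∧ ε * |a| ≤ 1 := by
  have h1 : Tendsto (fun ε : ℝ => ε * |a|) (𝓝[>] 0) (𝓝 0) := by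
    have : Tendsto (fun ε : ℝ => ε * |a|) (𝓝 0) (𝓝 (0 * |a|)) := tendsto_id.mul_const _
    rw [zero_mul] at this
    exact this.mono_left nhdsWithin_le_nhds
  filter_upwards [Ioo_mem_nhdsGT hc, h1.eventually (eventually_le_nhds one_pos)] with ε h2 h3
  exact ⟨h2.1, h2.2.le, h3⟩

theorem lim_of_bound {F : ℝ → ℝ} {c M : ℝ} (h : ∀ᶠ τ in 𝓝[>] (0 : ℝ), |F τ - c| ≤ M * τ) :
    Tendsto F (𝓝[>] 0) (𝓝 c) := by
  rw [tendsto_iff_norm_sub_tendsto_zero]
  refine squeeze_zero' (Eventually.of_forall fun _ => norm_nonneg _) h ?_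
  have : Tendsto (fun τ : ℝ => M * τ) (𝓝 0) (𝓝 (M * 0)) := tendsto_id.const_mul _
  rw [mul_zero] at this
  exact this.mono_left nhdsWithin_le_nhds

theorem cube_lim {F : ℝ → E3 → ℝ} (hF : ∀ ε, Continuous (F ε)) {P K : ℝ} (s : ℝ) (m : ℕ)
    (H : ∀ ε, 0 < ε → ε ≤ 1 → ∀ x : E3,
      |F ε x - ε ^ 2 * P * iteratedDeriv m Real.cos (x 0) ^ 2| ≤ K * ε ^ 3) :
    Tendsto (fun ε => cube (fun x => F ε x * Real.exp (ε * s * Real.cos (x 0))) / ε ^ 2)
      (𝓝[>] 0) (𝓝 (P * ((2 * Real.pi) ^ 3 / 2))) := by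
  refine lim_of_bound (M := (2 * Real.pi) ^ 3 * (3 * K + 2 * |P| * |s|)) ?_
  filter_upwards [ev_small one_pos s] with ε hε
  have h0 := (cd_coord 0).continuous
  have hc : Continuous (iteratedDeriv m Real.cos) :=
    (Real.differentiable_iteratedDeriv_cos m).continuous
  have h1 := cube_close (f := fun x => F ε x * Real.exp (ε * s * Real.cos (x 0)))
    (g := fun x => ε ^ 2 * P * iteratedDeriv m Real.cos x ^ 2)
    (D := (3 * K + 2 * |P| * |s|) * ε ^ 3) ((hF ε).mul (by fun_prop)) (by fun_prop) fun x => by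
      obtain ⟨e1, e2⟩ := exp_close hε.1 hε.2.2 (x 0)
      have e3 := H ε hε.1 hε.2.1 x
      have e4 : |ε ^ 2 * P * iteratedDeriv m Real.cos (x 0) ^ 2| ≤ ε ^ 2 * |P| := by
        rw [abs_mul, abs_mul, abs_pow, abs_pow, abs_of_pos hε.1]
        exact mul_le_of_le_one_right (by positivity)
          (pow_le_one₀ (abs_nonneg _) (Real.abs_iteratedDeriv_cos_le_one m _))
      set E := Real.exp (ε * s * Real.cos (x 0))
      set A := ε ^ 2 * P * iteratedDeriv m Real.cos (x 0) ^ 2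
      calc |F ε x * E - A| = |(F ε x - A) * E + A * (E - 1)| := by congr 1; ring
        _ ≤ |F ε x - A| * |E| + |A| * |E - 1| := by
          rw [← abs_mul, ← abs_mul]; exact abs_add_le _ _
        _ ≤ K * ε ^ 3 * 3 + ε ^ 2 * |P| * (2 * (ε * |s|)) :=
          add_le_add (mul_le_mul e3 e2 (abs_nonneg _) ((abs_nonneg _).trans e3))
            (mul_le_mul e4 e1 (abs_nonneg _) (by positivity))
        _ = _ := by ring
  rw [intervalIntegral.integral_const_mul, int_cos] at h1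
  have hp : 0 < ε ^ 2 := pow_pos hε.1 2
  rw [div_sub' hp.ne', abs_div, abs_of_pos hp, div_le_iff₀ hp]
  refine le_of_eq_of_le ?_ (h1.trans (le_of_eq (by ring)))
  congr 1
  ring

section Tori

variable {p q : ℝ} {G : ℝ → Geo 6} (hG : ∀ ε, IsTor ε p q (G ε).toData)

include hG

theorem nn_lim (hA : TrAStmt) (hD : TrDStmt) (hB : BiaStmt) (m : ℕ) :
    Tendsto (fun ε => (G ε).nn m / ε ^ 2) (𝓝[>] 0)
      (𝓝 ((p ^ 2 + q ^ 2) * ((2 * Real.pi) ^ 3 / 2))) ∧
    Tendsto (fun ε => (G ε).tt m / ε ^ 2) (𝓝[>] 0)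
      (𝓝 ((p + q) ^ 2 * ((2 * Real.pi) ^ 3 / 2))) := by
  obtain ⟨K, hK⟩ := hD p q m
  constructor
  · refine (cube_lim (F := fun ε x => (G ε).nd m (sec ε p q x)) (K := K)
      (fun ε => ((G ε).contDiff_nd m).continuous.comp (continuous_sec ε p q)) (p + q) m
      fun ε h0 h1 x => ((hK ε h0 h1 (G ε).toCon (hG ε)).2.2 m le_rfl x).1).congr fun ε => ?_
    rw [Geo.nn, ((hA ε p q).2.2 (G ε) (hG ε)).2.1 _ ((G ε).contDiff_nd m).continuous
      fun u hu Q hQ => ((hB _ (G ε).toCon u hu).2.2.2.2.2 Q hQ m).1]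
  · refine (cube_lim (F := fun ε x => (G ε).td m (sec ε p q x)) (K := K)
      (fun ε => ((G ε).contDiff_td m).continuous.comp (continuous_sec ε p q)) (p + q) m
      fun ε h0 h1 x => ((hK ε h0 h1 (G ε).toCon (hG ε)).2.2 m le_rfl x).2).congr fun ε => ?_
    rw [Geo.tt, ((hA ε p q).2.2 (G ε) (hG ε)).2.1 _ ((G ε).contDiff_td m).continuous
      fun u hu Q hQ => ((hB _ (G ε).toCon u hu).2.2.2.2.2 Q hQ m).2]

theorem V_le (hA : TrAStmt) {ε : ℝ} (h0 : 0 < ε) (h1 : ε * |p + q| ≤ 1) :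
    (G ε).V ≤ (2 * Real.pi) ^ 3 * 3 := by
  have e := ((hA ε p q).2.2 (G ε) (hG ε)).1 (fun _ => 1) continuous_const
  have hc := (cd_coord 0).continuous
  have h := cube_close (f := fun x => 1 * Real.exp (ε * (p + q) * Real.cos (x 0)))
    (g := fun _ => 0) (D := 3) (by fun_prop) continuous_const fun x => by
      simpa using (exp_close h0 h1 (x 0)).2
  rw [← e] at h
  simp only [integral_const, smul_eq_mul, mul_one, intervalIntegral.integral_zero, mul_zero,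
    sub_zero] at h
  exact (le_abs_self _).trans h

theorem hk_lim (hA : TrAStmt) (hD : TrDStmt) (hE : TrEStmt) (hP : TrCStmt) (hT : TrcStmt)
    (hI : InjStmt) (hK : CoefStmt) {k : ℕ} (hk : 2 ≤ k) :
    Tendsto (fun τ => (G (τ ^ (k + 6))).hk k / (τ ^ (k + 6)) ^ 2) (𝓝[>] 0)
      (𝓝 (cTest p q k)) := by
  obtain ⟨_, -, hT⟩ := hT
  obtain ⟨J, hT⟩ := hT (3 * k + 12)
  obtain ⟨K, hD⟩ := hD p q J
  obtain ⟨ρ, hρ, -, hI⟩ := hI.2.2 K
  obtain ⟨C₁, t₀, ht₀, hT⟩ := (hT 1).2 ρ hρ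
  obtain ⟨C₂, ε₀, hε₀, hE⟩ := hE p q
  obtain ⟨c, hc, hP⟩ := hP.2 p q
  obtain ⟨C₃, hP⟩ := hP (3 * k + 12)
  obtain ⟨C₄, hK⟩ := hK (3 * k + 12)
  set Λ := (4 * Real.pi) ^ (3 / 2 : ℝ) with hΛ
  set A := 2 ^ (3 * k + 12 + 1) * (|C₁| * ((2 * Real.pi) ^ 3 * 3) + 2 * |C₃|) + Λ * |C₂| with hAdef
  refine lim_of_bound (M := C₄ * A) ?_
  have hpow : Tendsto (fun τ : ℝ => τ ^ (k + 6)) (𝓝[>] 0) (𝓝[>] 0) :=
    tendsto_nhdsWithin_iff.2 ⟨by
      have := (continuous_pow (k + 6) (M := ℝ)).tendsto 0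
      rw [zero_pow (by omega)] at this
      exact this.mono_left nhdsWithin_le_nhds,
      eventually_mem_nhdsWithin.mono fun τ hτ => mem_Ioi.2 (pow_pos (mem_Ioi.1 hτ) _)⟩
  filter_upwards [ev_small (half_pos (lt_min ht₀ one_pos)) 0,
    hpow.eventually (ev_small hε₀ K), hpow.eventually (ev_small one_pos (p + q))] with τ h1 h2 h3
  set ε := τ ^ (k + 6) with hε
  have hτ := h1.1
  obtain ⟨hKB, hBd, -⟩ := hD ε h2.1 h3.2.1 (G ε).toCon (hG ε)
  have hK1 : K * ε ≤ 1 := by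
    have := le_abs_self K
    nlinarith [h2.2.2, h2.1]
  have hB0 : (G ε).Bd 0 1 := hBd.mono (Nat.zero_le _) hK1
  have hBJ : (G ε).Bd J 1 := hBd.mono le_rfl hK1
  have hInj := hI _ (G ε).toFlo hB0 hKB
  have hV := V_le hG hA h2.1 h3.2.2
  have hV0 : 0 ≤ (G ε).V := measureReal_nonneg
  have key := hK (fun j => (G ε).hk j - (if j = 0 then (2 * Real.pi) ^ 3 else 0) - ε ^ 2 * c j) τ
    (A * τ ^ (3 * k + 12 + 1)) hτ (fun t ht => ?_) k (by omega)
  · simp only [if_neg (show k ≠ 0 by omega), sub_zero, hc k hk] at key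
    have hp : 0 < ε ^ 2 := pow_pos h2.1 2
    rw [div_sub' hp.ne', abs_div, abs_of_pos hp, div_le_iff₀ hp]
    refine le_of_mul_le_mul_right (key.trans (le_of_eq ?_)) (pow_pos hτ k)
    rw [hε]
    ring
  · have ht0 : 0 < t := hτ.trans_le ht.1
    have ht1 : t ≤ min t₀ 1 := by linarith [ht.2, h1.2.1]
    have ht2 : t ≤ 1 := ht1.trans (min_le_right _ _)
    have e1 := hT _ (G ε) hB0 hBJ hInj t ht0 (ht1.trans (min_le_left _ _))
    have e2 := hE ε h2.1 h2.2.1 (G ε) (hG ε) hB0 t ht0 ht2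
    obtain ⟨-, -, e3, e4⟩ := hP t ht0 ht2
    have hs : ∑ j ∈ Finset.range (3 * k + 12 + 1),
        ((G ε).hk j - (if j = 0 then (2 * Real.pi) ^ 3 else 0) - ε ^ 2 * c j) * t ^ j =
        ∑ j ∈ Finset.range (3 * k + 12 + 1), (G ε).hk j * t ^ j - (2 * Real.pi) ^ 3 -
          ε ^ 2 * ∑ j ∈ Finset.range (3 * k + 12 + 1), c j * t ^ j := by
      simp only [sub_mul, Finset.sum_sub_distrib, Finset.mul_sum, ite_mul, zero_mul,
        Finset.sum_ite_eq', Finset.mem_range, mul_assoc]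
      simp
    rw [hs]
    set L := (4 * Real.pi * t) ^ (3 / 2 : ℝ) with hL
    have hL0 : 0 ≤ L := by positivity
    have hL1 : L ≤ Λ := Real.rpow_le_rpow (by positivity)
      (mul_le_of_le_one_right (by positivity) ht2) (by norm_num)
    set T := τ ^ (3 * k + 12 + 1) with hTdef
    have hT0 : 0 < T := pow_pos hτ _
    have hT1 : t ^ (3 * k + 12 + 1) ≤ 2 ^ (3 * k + 12 + 1) * T := by
      rw [hTdef, ← mul_pow]
      exact pow_le_pow_left₀ ht0.le ht.2 _
    have hT2 : ε ^ 3 / t ^ 5 ≤ T := by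
      rw [div_le_iff₀ (pow_pos ht0 5)]
      calc ε ^ 3 = T * τ ^ 5 := by rw [hε, hTdef]; ring
        _ ≤ T * t ^ 5 := mul_le_mul_of_nonneg_left (pow_le_pow_left₀ hτ.le ht.1 5) hT0.le
    have hε1 : ε ^ 2 ≤ 1 := pow_le_one₀ h2.1.le h3.2.1
    set U := t ^ (3 * k + 12 + 1)
    have hU0 : 0 ≤ U := by positivity
    set W := (2 : ℝ) ^ (3 * k + 12 + 1)
    have b1 : C₁ * U * (G ε).V ≤ |C₁| * (W * T) * ((2 * Real.pi) ^ 3 * 3) :=
      mul_le_mul (mul_le_mul (le_abs_self _) hT1 hU0 (abs_nonneg _)) hV hV0 (by positivity)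
    have b2 : C₂ * ε ^ 3 / t ^ 5 ≤ |C₂| * T := by
      rw [mul_div_assoc]
      exact mul_le_mul (le_abs_self _) hT2 (by have := h2.1; positivity) (abs_nonneg _)
    have b3 : C₃ * U ≤ |C₃| * (W * T) := mul_le_mul (le_abs_self _) hT1 hU0 (abs_nonneg _)
    set S₁ := ∑ j ∈ Finset.range (3 * k + 12 + 1), (G ε).hk j * t ^ j
    set S₂ := ∑ j ∈ Finset.range (3 * k + 12 + 1), c j * t ^ j
    set Z := ZZ (G ε).eig t
    set Z₀ := ∑' z, zA0 t z
    set Z₂ := ∑' z, zA2 p q t z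
    have f2 : |L * (Z - (Z₀ + ε ^ 2 * Z₂))| ≤ Λ * (|C₂| * T) := by
      rw [abs_mul, abs_of_nonneg hL0]
      exact mul_le_mul hL1 (e2.trans b2) (abs_nonneg _) (hL0.trans hL1)
    have f4 : |ε ^ 2 * (L * Z₂ - S₂)| ≤ |C₃| * (W * T) := by
      rw [abs_mul, abs_of_nonneg (sq_nonneg ε)]
      exact (mul_le_of_le_one_left (abs_nonneg _) hε1).trans (e4.trans b3)
    have e : S₁ - (2 * Real.pi) ^ 3 - ε ^ 2 * S₂ = -(L * Z - S₁) + L * (Z - (Z₀ + ε ^ 2 * Z₂)) +
        (L * Z₀ - (2 * Real.pi) ^ 3) + ε ^ 2 * (L * Z₂ - S₂) := by ring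
    rw [e]
    have g1 := abs_le.1 (e1.trans b1)
    have g2 := abs_le.1 f2
    have g3 := abs_le.1 (e3.trans b3)
    have g4 := abs_le.1 f4
    have eA : A * T = |C₁| * (W * T) * ((2 * Real.pi) ^ 3 * 3) + Λ * (|C₂| * T) +
        |C₃| * (W * T) + |C₃| * (W * T) := by rw [hAdef]; ring
    rw [eA]
    exact abs_le.2 ⟨by linarith [g1.2, g2.1, g3.1, g4.1], by linarith [g1.1, g2.2, g3.2, g4.2]⟩

end Tori

theorem coef_eq (hG : GeoStmt) (hA : TrAStmt) (hD : TrDStmt) (hE : TrEStmt) (hP : TrCStmt)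
    (hT : TrcStmt) (hI : InjStmt) (hB : BiaStmt) (hK : CoefStmt) {m : ℕ} {a b C : ℝ}
    (H : ∀ (G : Geo 6) (δ : ℝ), 0 ≤ δ → δ ≤ 1 → G.Bd m δ →
      |G.hk (m + 2) - (a * G.nn m + b * G.tt m)| ≤ C * δ * ∑ j ∈ Finset.range m, G.nn j)
    (p q : ℝ) : cTest p q (m + 2) = a * ((p ^ 2 + q ^ 2) * ((2 * Real.pi) ^ 3 / 2)) +
      b * ((p + q) ^ 2 * ((2 * Real.pi) ^ 3 / 2)) := by
  have hex : ∀ ε, ∃ G : Geo 6, IsTor ε p q G.toData := fun ε => by
    obtain ⟨D, hD⟩ := (hA ε p q).1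
    obtain ⟨G, rfl⟩ := hG 6 D
    exact ⟨G, hD⟩
  choose G hG using hex
  have hpow : Tendsto (fun τ : ℝ => τ ^ (m + 2 + 6)) (𝓝[>] 0) (𝓝[>] 0) :=
    tendsto_nhdsWithin_iff.2 ⟨by
      have := (continuous_pow (m + 2 + 6) (M := ℝ)).tendsto 0
      rw [zero_pow (by omega)] at this
      exact this.mono_left nhdsWithin_le_nhds,
      eventually_mem_nhdsWithin.mono fun τ hτ => mem_Ioi.2 (pow_pos (mem_Ioi.1 hτ) _)⟩
  have l1 := hk_lim hG hA hD hE hP hT hI hK (k := m + 2) (by omega)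
  have l2 := (nn_lim hG hA hD hB m).1.comp hpow
  have l3 := (nn_lim hG hA hD hB m).2.comp hpow
  obtain ⟨K, hK'⟩ := hD p q m
  have l4 : Tendsto (fun ε : ℝ => C * (ε * |K|) * ∑ j ∈ Finset.range m, (G ε).nn j / ε ^ 2)
      (𝓝[>] 0) (𝓝 (C * (0 * |K|) *
        ∑ _j ∈ Finset.range m, (p ^ 2 + q ^ 2) * ((2 * Real.pi) ^ 3 / 2))) :=
    (((tendsto_id.mono_left nhdsWithin_le_nhds).mul_const _).const_mul C).mul
      (tendsto_finsetSum _ fun j _ => (nn_lim hG hA hD hB j).1)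
  rw [zero_mul, mul_zero, zero_mul] at l4
  have hle := le_of_tendsto_of_tendsto (l1.sub ((l2.const_mul a).add (l3.const_mul b))).abs
    (l4.comp hpow) (hpow.eventually (p := fun ε => |(G ε).hk (m + 2) / ε ^ 2 -
      (a * ((G ε).nn m / ε ^ 2) + b * ((G ε).tt m / ε ^ 2))| ≤
        C * (ε * |K|) * ∑ j ∈ Finset.range m, (G ε).nn j / ε ^ 2) ?_)
  · exact sub_eq_zero.1 (abs_nonpos_iff.1 hle)
  · filter_upwards [ev_small one_pos K] with ε hε
    have hb : (G ε).Bd m (ε * |K|) := (hK' ε hε.1 hε.2.1 (G ε).toCon (hG ε)).2.1.mono le_rfl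
      (by rw [mul_comm]; exact mul_le_mul_of_nonneg_left (le_abs_self K) hε.1.le)
    have h := H (G ε) _ (by have := hε.1; positivity) hε.2.2 hb
    have hp : 0 < ε ^ 2 := pow_pos hε.1 2
    rw [← Finset.sum_div, ← mul_div_assoc, ← mul_div_assoc, ← mul_div_assoc, ← add_div,
      ← sub_div, abs_div, abs_of_pos hp]
    exact div_le_div_of_nonneg_right h hp.le

theorem phk_ne (k : ℕ) : phk k ≠ 0 := by
  unfold phk
  have h1 : (k.factorial : ℝ) ≠ 0 := by positivity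
  have h2 : ((2 * k + 1).factorial : ℝ) ≠ 0 := by positivity
  exact div_ne_zero (mul_ne_zero (pow_ne_zero _ (by norm_num)) h1) h2

end TrF

theorem gil_holds (hJ : JetStmt) (hC : GlCStmt) (hG : GeoStmt) (hA : TrAStmt) (hD : TrDStmt)
    (hE : TrEStmt) (hP : TrCStmt) (hT : TrcStmt) (hI : InjStmt) (hB : BiaStmt) (hK : CoefStmt) :
    GilStmt := by
  intro m
  obtain ⟨a, b, C, H⟩ := hC m _ (hJ (m + 2))
  have H' : ∀ (n : ℕ) (G : Geo n) (δ : ℝ) (J : ℕ), 0 ≤ δ → δ ≤ 1 → 2 * m ≤ 3 * J + 2 → G.Bd J δ →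
      |G.hk (m + 2) - (a * G.nn m + b * G.tt m)| ≤ C * δ * ∑ j ∈ Finset.range m, G.nn j :=
    fun n G δ J h0 h1 h2 h3 => H n G δ J h0 h1 h2 h3 (fun u => G.bb u (m + 2) 0) fun _ _ => rfl
  have key := TrF.coef_eq hG hA hD hE hP hT hI hB hK
    fun G δ h0 h1 h3 => H' 6 G δ m h0 h1 (by omega) h3
  have hπ : (2 * Real.pi) ^ 3 ≠ 0 := by positivity
  have ha : a = phk (m + 2) := by
    have := key 1 (-1)
    unfold cTest at this
    refine mul_left_cancel₀ hπ ?_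
    linear_combination -this
  have hb : b = phk (m + 2) * (2 * ((m : ℝ) + 2) ^ 2 - 2 * (m + 2) - 1) := by
    have := key 1 0
    unfold cTest at this
    rw [ha] at this
    push_cast at this
    refine mul_left_cancel₀ hπ ?_
    linear_combination -2 * this
  refine ⟨|a|, abs_pos.2 (ha ▸ TrF.phk_ne _), C, fun n G J hJ' hBd => ?_⟩
  have h1 := H' n G 1 J zero_le_one le_rfl hJ' hBd
  have hw : 0 ≤ 2 * ((m : ℝ) + 2) ^ 2 - 2 * (m + 2) - 1 := by
    have : (0 : ℝ) ≤ m := Nat.cast_nonneg m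
    nlinarith
  have h2 : |a| * G.nn m ≤ |a * G.nn m + b * G.tt m| := by
    have h3 := G.nn_nonneg m
    have h4 := mul_nonneg hw (G.tt_nonneg m)
    rw [hb, ← ha, mul_assoc, ← mul_add, abs_mul, abs_of_nonneg (add_nonneg h3 h4)]
    exact mul_le_mul_of_nonneg_left (le_add_of_nonneg_right h4) (abs_nonneg _)
  have h5 := abs_sub_abs_le_abs_sub (a * G.nn m + b * G.tt m) (G.hk (m + 2))
  rw [abs_sub_comm] at h5
  linarith

end Pool.Agent.Lib.MP_1a4aff_gt.I3
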