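import Pool.Agent.Lib.MP_1a4aff_gt.I3.BrB

-- part Pool.Agent.Lib.MP_1a4aff_gt.I3.Cmp
section

/-! The parabolic comparison principle through the eigenbasis. -/

set_option autoImplicit false

open MeasureTheory Set Filter Topology Metric
open scoped ContDiff RealInnerProductSpace ENNReal

namespace Pool.Agent.Lib.MP_1a4aff_gt.I3

namespace Cmp

theorem mono_tsum {a b : ℕ → ℝ → ℝ} {m : ℕ → ℝ} {x y X Y : ℝ} (hxy : x ≤ y) (hm : Summable m)
    (hd : ∀ j, ∀ s ∈ Icc x y, HasDerivAt (a j) (b j s) s) (hb : ∀ j, ∀ s ∈ Icc x y, |b j s| ≤ m j)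
    (h0 : ∀ s ∈ Icc x y, 0 ≤ ∑' j, b j s) (hx : HasSum (a · x) X) (hy : HasSum (a · y) Y) :
    X ≤ Y := by
  have key : ∀ J : Finset ℕ, (∑ j ∈ J, m j - ∑' j, m j) * (y - x) ≤
      ∑ j ∈ J, a j y - ∑ j ∈ J, a j x := fun J => by
    have hD : ∀ s ∈ Icc x y, HasDerivAt (fun s => ∑ j ∈ J, a j s) (∑ j ∈ J, b j s) s :=
      fun s hs => HasDerivAt.fun_sum fun j _ => hd j s hs
    refine (convex_Icc x y).mul_sub_le_image_sub_of_le_deriv (f := fun s => ∑ j ∈ J, a j s)
      (fun s hs => (hD s hs).continuousAt.continuousWithinAt)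
      (fun s hs => (hD s (interior_subset hs)).differentiableAt.differentiableWithinAt)
      (fun s hs => ?_) x ⟨le_rfl, hxy⟩ y ⟨hxy, le_rfl⟩ hxy
    have hs := interior_subset hs
    have h1 : Summable fun j => b j s := hm.of_norm_bounded fun j => hb j s hs
    have h2 := (hm.sub h1).sum_le_tsum J fun j _ => sub_nonneg.2 ((le_abs_self _).trans (hb j s hs))
    rw [hm.tsum_sub h1, Finset.sum_sub_distrib] at h2
    rw [(hD s hs).deriv]
    linarith [h0 s hs]
  have h := le_of_tendsto_of_tendsto' ((hm.hasSum.sub_const (∑' j, m j)).mul_const (y - x))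
    (Tendsto.sub hy hx) key
  rw [sub_self, zero_mul] at h
  linarith

variable {n : ℕ} {G : Geo n}

theorem int_mul {f g : Amb n → ℝ} (hf : ContinuousOn f G.S) (hg : ContinuousOn g G.S) :
    Integrable (fun p => f p * g p) G.mu := G.integrable_mu (hf.mul hg)

theorem ms_lin (a b : ℝ) {f g h : Amb n → ℝ} (hf : ContinuousOn f G.S) (hg : ContinuousOn g G.S)
    (hh : ContinuousOn h G.S) :
    G.ms (fun p => a * f p + b * g p) h = a * G.ms f h + b * G.ms g h := by
  simp only [Geo.ms, add_mul, mul_assoc]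
  rw [integral_add ((int_mul hf hh).const_mul a) ((int_mul hg hh).const_mul b),
    integral_const_mul, integral_const_mul]

theorem ms_smul (a : ℝ) (f h : Amb n → ℝ) : G.ms f (fun p => a * h p) = a * G.ms f h := by
  simp only [Geo.ms, mul_left_comm _ a, integral_const_mul]

theorem ms_le {f h : Amb n → ℝ} (hf : ContinuousOn f G.S) {m : ℝ} (hm : ∀ p ∈ G.S, |h p| ≤ m) :
    ∫ p, ‖f p * h p‖ ∂G.mu ≤ (∫ p, |f p| ∂G.mu) * m := by
  rw [← integral_mul_const]
  refine integral_mono_of_nonneg (ae_of_all _ fun _ => norm_nonneg _)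
    ((G.integrable_mu hf).abs.mul_const m) (G.ae_S.mono fun p hp => ?_)
  simp only [norm_mul, Real.norm_eq_abs]
  exact mul_le_mul_of_nonneg_left (hm p hp) (abs_nonneg _)

theorem hasSum_ms {g : Amb n → ℝ} (hg : Continuous g) {F : ℕ → Amb n → ℝ}
    (hF : ∀ j, Continuous (F j)) {m : ℕ → ℝ} (hm : Summable m)
    (hb : ∀ j, ∀ p ∈ G.S, |F j p| ≤ m j) :
    HasSum (fun j => G.ms g (F j)) (G.ms g fun p => ∑' j, F j p) ∧
      ContinuousOn (fun p => ∑' j, F j p) G.S := by
  refine ⟨?_, continuousOn_tsum (fun j => (hF j).continuousOn) hm hb⟩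
  have := hasSum_integral_of_summable_integral_norm (μ := G.mu) (F := fun j p => g p * F j p)
    (fun j => int_mul hg.continuousOn (hF j).continuousOn)
    (Summable.of_nonneg_of_le (fun j => integral_nonneg fun _ => norm_nonneg _)
      (fun j => ms_le hg.continuousOn (hb j)) (hm.mul_left _))
  simp only [tsum_mul_left] at this
  exact this

theorem le_of_test {D : Amb n → ℝ} (hD : ContinuousOn D G.S)
    (h : ∀ h : Amb n → ℝ, Continuous h → (∀ p ∈ G.S, 0 ≤ h p) → G.ms h D ≤ 0) :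
    ∀ p ∈ G.S, D p ≤ 0 := fun p hp => not_lt.1 fun h0 => by
  obtain ⟨δ, hδ, h1⟩ := Metric.mem_nhdsWithin_iff.1 ((hD p hp).eventually (lt_mem_nhds h0))
  have hc : Continuous fun q => max 0 (δ - dist q p) := by fun_prop
  refine (h _ hc fun _ _ => le_max_left _ _).not_gt (G.integral_pos (hc.continuousOn.mul hD)
    (fun q hq => ?_) hp (mul_pos (by simpa using hδ) h0))
  by_cases h2 : dist q p < δ
  · exact mul_nonneg (le_max_left _ _) (le_of_lt (h1 ⟨h2, hq⟩))
  · simp [max_eq_left (sub_nonpos.2 (not_lt.1 h2))]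

variable (P : Spec G)

theorem eig_bd {τ : ℝ} (hτ : 0 < τ) : ∃ m : ℕ → ℝ, Summable m ∧ ∀ j, ∀ p ∈ G.S,
    Real.exp (-(G.eig j * τ)) * |P.ph j p| ≤ m j ∧
      ∀ q ∈ G.S, |Real.exp (-(G.eig j * τ)) * P.ph j p * P.ph j q| ≤ m j := by
  obtain ⟨c, hc, h⟩ := P.bnd τ hτ
  refine ⟨fun j => Real.exp (-(G.eig j * τ)) + c j, (P.summ τ hτ).add hc, fun j p hp => ?_⟩
  have h0 := Real.exp_pos (-(G.eig j * τ))
  have h1 := h j p hp
  rw [← sq_abs] at h1
  refine ⟨by nlinarith [mul_nonneg h0.le (sq_nonneg (|P.ph j p| - 1))], fun q hq => ?_⟩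
  have h2 := h j q hq
  rw [← sq_abs] at h2
  rw [abs_mul, abs_mul, abs_of_pos h0]
  nlinarith [mul_nonneg h0.le (sq_nonneg (|P.ph j p| - |P.ph j q|))]

theorem coef_bd {h : Amb n → ℝ} (hh : Continuous h) (j : ℕ) :
    |G.ms h (P.ph j)| ≤ 1 + G.ms h h := by
  have h1 := le_hasSum (P.pars h h hh hh) j fun i _ => mul_self_nonneg _
  rw [← abs_mul_abs_self] at h1
  nlinarith [sq_nonneg (|G.ms h (P.ph j)| - 1), abs_nonneg (G.ms h (P.ph j))]

theorem eig_one (j : ℕ) : G.eig j * G.ms (fun _ => 1) (P.ph j) = 0 := by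
  rw [← P.weak j (fun _ => 1) (fun _ => 0) contDiff_const continuous_const fun h _ => by
    simp [Geo.en, Geo.ms]]
  simp [Geo.ms]

/-- comparison for families of functions on the manifold -/
theorem abs_cmp {W K : ℝ → Amb n → ℝ} {T t σ : ℝ} {x : Amb n} (hx : x ∈ G.S) (ht : t ∈ Ioo 0 T)
    (hW : ∀ s ∈ Ioo 0 T, Continuous (W s)) (hK : ∀ s ∈ Ioo 0 T, Continuous (K s))
    (hD : ∀ j, ∀ s ∈ Ioo 0 T, HasDerivAt (fun s => G.ms (W s) (P.ph j))
      (G.ms (K s) (P.ph j) - G.eig j * G.ms (W s) (P.ph j)) s)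
    (hB : ∀ a ∈ Ioo 0 t, ∃ C, ∀ s ∈ Icc a t, ∀ φ m, Continuous φ → (∀ p ∈ G.S, |φ p| ≤ m) →
      |G.ms (K s) φ| ≤ C * m)
    (hI : ∀ f, ContinuousOn f G.S → Tendsto (fun s => G.ms (W s) f) (𝓝[>] 0) (𝓝 (σ * f x)))
    (h0 : ∀ s ∈ Ioo 0 T, ∀ p ∈ G.S, 0 ≤ K s p) : ∀ p ∈ G.S, σ * P.hker t x p ≤ W t p := by
  obtain ⟨m, hm, hm'⟩ := eig_bd P ht.1
  have hk := fun g hg => hasSum_ms (G := G) (g := g) hg
    (F := fun j p => Real.exp (-(G.eig j * t)) * P.ph j x * P.ph j p)
    (fun j => continuous_const.mul (P.cont j)) hm fun j p hp => (hm' j x hx).2 p hp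
  have ek : P.hker t x = fun p => ∑' j, Real.exp (-(G.eig j * t)) * P.ph j x * P.ph j p := by
    funext p
    simp only [Spec.hker, mul_assoc]
  have ck : ContinuousOn (P.hker t x) G.S := ek ▸ (hk _ continuous_zero).2
  intro p hp
  have := le_of_test (D := fun p => σ * P.hker t x p + -1 * W t p)
    ((ck.const_mul σ).add ((hW t ht).continuousOn.const_mul _)) (fun h hh hh0 => ?_) p hp
  · linarith
  have hf := fun g hg => hasSum_ms (G := G) (g := g) hg
    (F := fun j p => Real.exp (-(G.eig j * t)) * G.ms h (P.ph j) * P.ph j p)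
    (fun j => continuous_const.mul (P.cont j)) (hm.mul_left (1 + G.ms h h)) fun j p hp => by
      rw [mul_right_comm, abs_mul, abs_mul, abs_of_pos (Real.exp_pos _), mul_comm]
      exact mul_le_mul (coef_bd P hh j) (hm' j p hp).1 (by positivity)
        ((abs_nonneg _).trans (coef_bd P hh j))
  have l1 := hI _ (hf _ continuous_zero).2
  have sW := P.pars h (W t) hh (hW t ht)
  have l2 : Tendsto (fun a => ∑' j, Real.exp (-(G.eig j * a)) *
      (G.ms h (P.ph j) * G.ms (W t) (P.ph j))) (𝓝[>] 0) (𝓝 (G.ms h (W t))) := by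
    rw [← sW.tsum_eq]
    refine tendsto_tsum_of_dominated_convergence sW.summable.abs (fun j => ?_) ?_
    · have : Continuous fun a => Real.exp (-(G.eig j * a)) *
        (G.ms h (P.ph j) * G.ms (W t) (P.ph j)) := by fun_prop
      simpa using (this.tendsto 0).mono_left (nhdsWithin_le_nhds (s := Ioi 0))
    · filter_upwards [self_mem_nhdsWithin] with a ha j
      rw [Real.norm_eq_abs, abs_mul, abs_of_pos (Real.exp_pos _)]
      exact mul_le_of_le_one_left (abs_nonneg _) (Real.exp_le_one_iff.2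
        (neg_nonpos.2 (mul_nonneg (P.nonneg j) (le_of_lt ha))))
  have l3 := le_of_tendsto_of_tendsto l1 l2 (by
    filter_upwards [Ioo_mem_nhdsGT ht.1] with a ha
    have hs : ∀ s ∈ Icc a t, s ∈ Ioo 0 T := fun s hs => ⟨ha.1.trans_le hs.1, hs.2.trans_lt ht.2⟩
    obtain ⟨C, hC⟩ := hB a ha
    obtain ⟨m, hm, hm'⟩ := eig_bd P ha.1
    refine mono_tsum (a := fun j s => Real.exp (-(G.eig j * (t + a - s))) *
      (G.ms h (P.ph j) * G.ms (W s) (P.ph j))) (b := fun j s => Real.exp (-(G.eig j * (t + a - s))) *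
      (G.ms h (P.ph j) * G.ms (K s) (P.ph j))) ha.2.le (hm.mul_left ((1 + G.ms h h) * C))
      (fun j s h1 => ?_) (fun j s h1 => ?_) (fun s h1 => P.pos _ (by linarith [h1.2, ha.1]) _ _ hh
        (hK s (hs s h1)) hh0 (h0 s (hs s h1))) ?_ ?_
    · have d1 : HasDerivAt (fun s => -(G.eig j * (t + a - s))) (G.eig j) s :=
        (((hasDerivAt_id s).const_sub (t + a)).const_mul (G.eig j)).neg.congr_deriv (by ring)
      refine (d1.exp.mul ((hD j s (hs s h1)).const_mul _)).congr_deriv ?_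
      ring
    · have k1 := hC s h1 (fun p => Real.exp (-(G.eig j * (t + a - s))) * P.ph j p) (m j)
        (continuous_const.mul (P.cont j)) fun p hp => by
          rw [abs_mul, abs_of_pos (Real.exp_pos _)]
          refine le_trans (mul_le_mul_of_nonneg_right (Real.exp_le_exp.2 ?_) (abs_nonneg _))
            (hm' j p hp).1
          nlinarith [P.nonneg j, h1.2]
      rw [ms_smul] at k1
      rw [mul_left_comm, abs_mul, mul_assoc]
      exact mul_le_mul (coef_bd P hh j) k1 (abs_nonneg _) ((abs_nonneg _).trans (coef_bd P hh j))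
    · simpa only [ms_smul, add_sub_cancel_right, mul_assoc] using (hf _ (hW a (hs a ⟨le_rfl, ha.2.le⟩))).1
    · simp only [add_sub_cancel_left]
      refine (sW.summable.abs.of_norm_bounded fun j => ?_).hasSum
      rw [Real.norm_eq_abs, abs_mul, abs_of_pos (Real.exp_pos _)]
      exact mul_le_of_le_one_left (abs_nonneg _) (Real.exp_le_one_iff.2
        (neg_nonpos.2 (mul_nonneg (P.nonneg j) ha.1.le))))
  have e1 := (hk h hh).1.tsum_eq
  simp only [ms_smul] at e1
  rw [G.ms_comm, ms_lin _ _ ck (hW t ht).continuousOn hh.continuousOn, G.ms_comm _ h,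
    G.ms_comm _ h, ek, ← e1]
  simp only [mul_right_comm _ (P.ph _ x)]
  linarith

section Joint

variable {F : ℝ → E3 → ℝ} {O : Set (ℝ × E3)} (hO : IsOpen O)
  (hF : ContDiffOn ℝ ∞ (fun z : ℝ × E3 => F z.1 z.2) O)
include hO hF

theorem dd_joint (i : Fin 3) : ContDiffOn ℝ ∞ (fun z : ℝ × E3 => dd i (F z.1) z.2) O := by
  refine ((hF.fderiv_of_isOpen (m := ∞) hO (by simp)).clm_apply
    (contDiffOn_const (c := ((0, ee i) : ℝ × E3)))).congr fun z hz => ?_
  have h1 := ((hF.contDiffAt (hO.mem_nhds hz)).differentiableAt (by simp)).hasFDerivAt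
  have h2 := HasFDerivAt.comp (f := fun v : E3 => (z.1, v)) z.2 h1
    (hasFDerivAt_prodMk_right z.1 z.2)
  rw [dd, HasFDerivAt.fderiv (f := F z.1) h2]
  simp

theorem ds_joint : (∀ z ∈ O, DifferentiableAt ℝ (fun s => F s z.2) z.1) ∧
    ContDiffOn ℝ ∞ (fun z : ℝ × E3 => deriv (fun s => F s z.2) z.1) O := by
  have h : ∀ z ∈ O, HasDerivAt (fun s => F s z.2)
      (fderiv ℝ (fun z : ℝ × E3 => F z.1 z.2) z (1, 0)) z.1 := fun z hz => by
    have := HasFDerivAt.comp_hasDerivAt (f := fun s : ℝ => (s, z.2)) z.1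
      ((hF.contDiffAt (hO.mem_nhds hz)).differentiableAt (by simp)).hasFDerivAt
      ((hasDerivAt_id z.1).prodMk (hasDerivAt_const z.1 z.2))
    exact this
  exact ⟨fun z hz => (h z hz).differentiableAt, ((hF.fderiv_of_isOpen (m := ∞) hO
    (by simp)).clm_apply contDiffOn_const).congr fun z hz => (h z hz).deriv⟩

end Joint

theorem slice {F : ℝ → E3 → ℝ} {T s : ℝ}
    (hF : ContDiffOn ℝ ∞ (fun z : ℝ × E3 => F z.1 z.2) (Ioo 0 T ×ˢ univ)) (hs : s ∈ Ioo 0 T) :
    ContDiff ℝ ∞ (F s) :=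
  contDiffOn_univ.1 (hF.comp (contDiffOn_const.prodMk contDiffOn_id) fun _ _ => ⟨hs, trivial⟩)

theorem tsupp {f : E3 → ℝ} {r : ℝ} (h : ∀ v, r < ‖v‖ → f v = 0) : tsupport f ⊆ closedBall 0 r :=
  closure_minimal (fun v hv => mem_closedBall_zero_iff.2 (not_lt.1 fun h' => hv (h v h')))
    isClosed_closedBall

theorem dom {F : ℝ → E3 → ℝ} {d : E3 → ℝ} {T r a b : ℝ} (hr : r < 1 / 4) (hd : Continuous d)
    (hF : ContinuousOn (fun z : ℝ × E3 => F z.1 z.2) (Ioo 0 T ×ˢ ball 0 (1 / 4)))
    (h0 : ∀ s ∈ Ioo 0 T, ∀ v, r < ‖v‖ → F s v = 0) (hab : Icc a b ⊆ Ioo 0 T) :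
    ∃ B : E3 → ℝ, Integrable B ∧ ∀ s ∈ Icc a b, ∀ v x m, |x| ≤ m → ‖F s v * x * d v‖ ≤ B v * m := by
  obtain ⟨C, hC⟩ := (isCompact_Icc.prod (isCompact_closedBall (0 : E3) r)).exists_bound_of_continuousOn
    ((hF.mono (prod_mono hab (closedBall_subset_ball hr))).mul (hd.comp continuous_snd).continuousOn)
  refine ⟨indicator (closedBall 0 r) fun _ => C, (integrableOn_const
    measure_closedBall_lt_top.ne).integrable_indicator measurableSet_closedBall,
    fun s hs v x m hx => ?_⟩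
  by_cases hv : v ∈ closedBall (0 : E3) r
  · rw [indicator_of_mem hv, mul_right_comm, norm_mul]
    exact mul_le_mul (hC (s, v) ⟨hs, hv⟩) hx (norm_nonneg _)
      ((norm_nonneg _).trans (hC (s, v) ⟨hs, hv⟩))
  · simp [indicator_of_notMem hv, h0 s (hab hs) v (by simpa using hv)]

theorem gs_scale {s : ℝ} (hs : 0 < s) (v : E3) : gs s (√s • v) = (√s ^ 3)⁻¹ * gs 1 v := by
  have hp := Real.pi_pos
  have h1 : (4 * Real.pi * s) ^ (-(3 / 2) : ℝ) =
      (√s ^ 3)⁻¹ * (4 * Real.pi * 1) ^ (-(3 / 2) : ℝ) := by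
    rw [mul_one, Real.mul_rpow (by positivity) hs.le, mul_comm, Real.sqrt_eq_rpow,
      ← Real.rpow_natCast, ← Real.rpow_mul hs.le, ← Real.rpow_neg hs.le]
    norm_num
  have h2 : ‖√s • v‖ ^ 2 / (4 * s) = ‖v‖ ^ 2 / (4 * 1) := by
    rw [norm_smul, mul_pow, Real.norm_of_nonneg (Real.sqrt_nonneg s), Real.sq_sqrt hs.le]
    field_simp
  unfold gs
  rw [h1, h2, mul_assoc]

theorem gs_int {s : ℝ} (hs : 0 < s) : ∫ v, gs s v = 1 := by
  have hp := Real.pi_pos
  have e : ∀ v : E3, -(‖v‖ ^ 2 / (4 * s)) = -(4 * s)⁻¹ * ‖v‖ ^ 2 := fun v => by ring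
  simp only [gs, e]
  rw [integral_const_mul, GaussianFourier.integral_rexp_neg_mul_sq_norm (by positivity),
    finrank_euclideanSpace_fin, div_inv_eq_mul, show Real.pi * (4 * s) = 4 * Real.pi * s by ring,
    ← Real.rpow_add (by positivity)]
  norm_num

theorem gs_nonneg {s : ℝ} (hs : 0 < s) (v : E3) : 0 ≤ gs s v := by
  have hp := Real.pi_pos
  unfold gs
  positivity

theorem gs_mul {g : E3 → ℝ} (hg : Continuous g) {m : ℝ} (hm : ∀ v, |g v| ≤ m) {s : ℝ}
    (hs : 0 < s) : Integrable fun v => gs s v * g v :=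
  (Integrable.of_integral_ne_zero (by rw [gs_int hs]; exact one_ne_zero)).mul_bdd
    hg.aestronglyMeasurable (ae_of_all _ hm)

theorem gauss {g : E3 → ℝ} (hg : Continuous g) {m : ℝ} (hm : ∀ v, |g v| ≤ m) :
    Tendsto (fun s => ∫ v, gs s v * g v) (𝓝[>] 0) (𝓝 (g 0)) := by
  have h := tendsto_integral_filter_of_dominated_convergence (μ := volume) (l := 𝓝[>] (0 : ℝ))
    (F := fun s v => gs 1 v * g (√s • v)) (f := fun v => gs 1 v * g 0) (fun v => gs 1 v * m)
    (Eventually.of_forall fun s => (gs_mul (g := fun v => g (√s • v)) (by fun_prop)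
      (fun _ => hm _) one_pos).1)
    (Eventually.of_forall fun s => ae_of_all _ fun v => by
      rw [norm_mul, Real.norm_of_nonneg (gs_nonneg one_pos v)]
      exact mul_le_mul_of_nonneg_left (hm _) (gs_nonneg one_pos v))
    (gs_mul continuous_const (fun _ => le_rfl) one_pos) (ae_of_all _ fun v => by
      have : Continuous fun s : ℝ => gs 1 v * g (√s • v) := by fun_prop
      simpa using (this.tendsto 0).mono_left (nhdsWithin_le_nhds (s := Ioi 0)))
  rw [integral_mul_const, gs_int one_pos, one_mul] at h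
  refine h.congr' ?_
  filter_upwards [self_mem_nhdsWithin] with s hs
  have h1 := Measure.integral_comp_smul volume (fun v => gs s v * g v) √s
  have h2 : 0 < √s := Real.sqrt_pos.2 hs
  simp only [gs_scale hs, mul_assoc, integral_const_mul, finrank_euclideanSpace_fin,
    smul_eq_mul] at h1
  rw [abs_of_pos (by positivity)] at h1
  exact mul_left_cancel₀ (by positivity) h1

end Cmp

open Cmp in
theorem cmp_holds (hR : RadStmt) (hM : MPStmt) (hP : PushStmt) : CmpStmt := by
  intro n G P hB u hu w T r hr adm t ht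
  have hden : ∀ v ∈ ball (0 : E3) (1 / 4), 0 < G.den u v := fun v hv =>
    one_half_pos.trans_le ((hR n G.toFlo u hu).2.2.2.2.2.2 hB v (mem_ball_zero_iff.1 hv).le).2.2.1
  obtain ⟨mg, -, -, mL, -⟩ := hM n G.toFlo u hu _ hden
  have push := fun (f : E3 → ℝ) (hf : ContDiff ℝ ∞ f) (h0 : ∀ v, r < ‖v‖ → f v = 0) =>
    hP n G hB u hu f hf ((tsupp (f := f) h0).trans (closedBall_subset_ball hr))
  have hO : IsOpen (Ioo 0 T ×ˢ (univ : Set E3)) := isOpen_Ioo.prod isOpen_univ
  have hO' : IsOpen (Ioo 0 T ×ˢ ball (0 : E3) (1 / 4)) := isOpen_Ioo.prod isOpen_ball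
  have hOO : Ioo 0 T ×ˢ ball (0 : E3) (1 / 4) ⊆ Ioo 0 T ×ˢ univ := prod_mono_right (subset_univ _)
  obtain ⟨d1, d2⟩ := ds_joint hO adm.sm
  have d0 : ∀ s ∈ Ioo 0 T, ∀ v, r < ‖v‖ → deriv (fun s => w s v) s = 0 := fun s hs v hv => by
    rw [EventuallyEq.deriv_eq (f := fun _ => 0), deriv_const]
    filter_upwards [isOpen_Ioo.mem_nhds hs] with s' hs' using adm.supp s' hs' v hv
  have L1 := fun s hs => mL (w s) (slice adm.sm hs)
    ((tsupp (adm.supp s hs)).trans (closedBall_subset_ball hr))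
  have L0 : ∀ s ∈ Ioo 0 T, ∀ v, r < ‖v‖ → G.Lap u (w s) v = 0 := fun s hs v hv =>
    image_eq_zero_of_notMem_tsupport fun h =>
      (mem_closedBall_zero_iff.1 (tsupp (adm.supp s hs) ((L1 s hs).2 h))).not_gt hv
  have k0 : ∀ s ∈ Ioo 0 T, ∀ v, r < ‖v‖ → G.heat u w s v = 0 := fun s hs v hv => by
    rw [Flo.heat, d0 s hs v hv, L0 s hs v hv, sub_zero]
  have k1 : ∀ s ∈ Ioo 0 T, ContDiff ℝ ∞ (G.heat u w s) := fun s hs =>
    (slice (F := fun s v => deriv (fun s => w s v) s) d2 hs).sub (L1 s hs).1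
  have dn : ContDiffOn ℝ ∞ (fun z : ℝ × E3 => G.den u z.2) (Ioo 0 T ×ˢ ball 0 (1 / 4)) :=
    ((G.contDiff_den u).comp contDiff_snd).contDiffOn
  have k2 : ContDiffOn ℝ ∞ (fun z : ℝ × E3 => G.heat u w z.1 z.2) (Ioo 0 T ×ˢ ball 0 (1 / 4)) :=
    (d2.mono hOO).sub ((dn.inv fun z hz => (hden _ hz.2).ne').mul
      (ContDiffOn.sum fun i _ => ContDiffOn.sum fun j _ =>
        dd_joint (F := fun s y => G.den u y * G.gi u i j y * dd j (w s) y) hO'
          ((dn.mul ((mg i j).comp contDiffOn_snd fun _ hz => hz.2)).mul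
            (dd_joint hO' (adm.sm.mono hOO) j)) i))
  choose! W W1 W2 W3 W4 using fun s hs => push (w s) (slice adm.sm hs) (adm.supp s hs)
  choose! K K1 K2 K3 K4 using fun s hs => push _ (k1 s hs) (k0 s hs)
  have iμ : ∀ φ : Amb n → ℝ, Continuous φ → Integrable φ G.mu := fun φ h =>
    G.integrable_mu h.continuousOn
  have hD : ∀ j, ∀ s ∈ Ioo 0 T, HasDerivAt (fun s => G.ms (W s) (P.ph j))
      (G.ms (K s) (P.ph j) - G.eig j * G.ms (W s) (P.ph j)) s := fun j s hs => by
    obtain ⟨L, l1, -, l3, -⟩ := push _ (L1 s hs).1 (L0 s hs)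
    obtain ⟨m, hm⟩ := G.cpt.exists_bound_of_continuousOn (P.cont j).continuousOn
    obtain ⟨a, b, hab, hs', hI⟩ := exists_Icc_mem_subset_of_mem_nhds (isOpen_Ioo.mem_nhds hs)
    obtain ⟨B, b1, b2⟩ := dom (F := fun s v => deriv (fun s => w s v) s) hr
      (G.contDiff_den u).continuous (d2.mono hOO).continuousOn d0 hI
    have hc : ∀ f : E3 → ℝ, ContDiff ℝ ∞ f →
        AEStronglyMeasurable (fun v => f v * P.ph j (G.ex u v) * G.den u v) volume := fun f hf =>
      ((hf.continuous.mul ((P.cont j).comp (G.contDiff_ex u).continuous)).mul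
        (G.contDiff_den u).continuous).aestronglyMeasurable
    have h := (hasDerivAt_integral_of_dominated_loc_of_deriv_le (μ := volume)
      (F := fun s v => w s v * P.ph j (G.ex u v) * G.den u v)
      (F' := fun s v => deriv (fun s => w s v) s * P.ph j (G.ex u v) * G.den u v) hs'
      (by filter_upwards [isOpen_Ioo.mem_nhds hs] with s h using hc _ (slice adm.sm h))
      (W3 s hs _ (iμ _ (P.cont j))).1
      (hc _ (slice (F := fun s v => deriv (fun s => w s v) s) d2 hs))
      (ae_of_all _ fun v s h => b2 s h v _ m (hm _ (G.ex_mem hu v))) (b1.mul_const m)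
      (ae_of_all _ fun v s h => ((d1 (s, v) ⟨hI h, trivial⟩).hasDerivAt.mul_const _).mul_const _)).2
    have e := P.weak j (W s) (fun p => -1 * L p + 0 * L p) (W1 s hs) (by fun_prop) fun h hh => by
      rw [W4 s hs h hh, ms_lin _ _ l1.continuous.continuousOn l1.continuous.continuousOn
        hh.continuous.continuousOn, (l3 h (iμ h hh.continuous)).2]
      ring
    rw [ms_lin _ _ l1.continuous.continuousOn l1.continuous.continuousOn (P.cont j).continuousOn,
      (l3 _ (iμ _ (P.cont j))).2] at e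
    refine (h.congr_of_eventuallyEq ?_).congr_deriv ?_
    · filter_upwards [isOpen_Ioo.mem_nhds hs] with s h using (W3 s h _ (iμ _ (P.cont j))).2
    · rw [← e, (K3 s hs _ (iμ _ (P.cont j))).2, zero_mul, add_zero, neg_one_mul, sub_neg_eq_add,
        Flo.pr, Flo.pr, ← integral_add (K3 s hs _ (iμ _ (P.cont j))).1 (l3 _ (iμ _ (P.cont j))).1]
      refine integral_congr_ae (ae_of_all _ fun v => ?_)
      simp only [Flo.heat]
      ring
  have hI : ∀ f, ContinuousOn f G.S → Tendsto (fun s => G.ms (W s) f) (𝓝[>] 0) (𝓝 (f u.1)) := by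
    intro f hf
    obtain ⟨m, hm⟩ := G.cpt.exists_bound_of_continuousOn hf
    have hg : Continuous fun v => f (G.ex u v) :=
      hf.comp_continuous (G.contDiff_ex u).continuous (G.ex_mem hu)
    have hm' : ∀ v, |f (G.ex u v)| ≤ m := fun v => hm _ (G.ex_mem hu v)
    have h1 := gauss hg hm'
    rw [G.ex_zero] at h1
    refine h1.congr_dist (squeeze_zero' (Eventually.of_forall fun _ => dist_nonneg) ?_
      (by simpa using adm.init.mul_const m))
    filter_upwards [Ioo_mem_nhdsGT (ht.1.trans ht.2)] with s hs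
    obtain ⟨i1, i2⟩ := W3 s hs f (G.integrable_mu hf)
    have i3 : Integrable fun v => w s v * G.den u v - gs s v :=
      ((W3 s hs (fun _ => 1) (integrable_const _)).1.sub (gs_mul continuous_const
        (fun _ => le_refl |(1 : ℝ)|) hs.1)).congr (ae_of_all _ fun v => by simp)
    rw [i2, dist_comm, dist_eq_norm, Flo.pr, ← integral_sub i1 (gs_mul hg hm' hs.1),
      ← integral_mul_const]
    refine norm_integral_le_of_norm_le (i3.abs.mul_const m) (ae_of_all _ fun v => ?_)
    rw [mul_right_comm, ← sub_mul, norm_mul]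
    exact mul_le_mul_of_nonneg_left (hm' v) (norm_nonneg _)
  have key : ∀ (σ c : ℝ) (M : ℕ),
      (∀ s ∈ Ioo 0 T, ∀ p ∈ G.S, 0 ≤ σ * K s p + c * (M + 1) * s ^ M * 1) →
      σ * P.hker t u.1 u.1 ≤ σ * W t u.1 + c * t ^ (M + 1) * 1 := fun σ c M h0 => by
    refine abs_cmp P (W := fun s p => σ * W s p + c * s ^ (M + 1) * 1)
      (K := fun s p => σ * K s p + c * (M + 1) * s ^ M * 1) hu.1 ht
      (fun s hs => by have := (W1 s hs).continuous; fun_prop)
      (fun s hs => by have := (K1 s hs).continuous; fun_prop) (fun j s hs => ?_) (fun a ha => ?_)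
      (fun f hf => ?_) h0 _ hu.1
    · have e := fun s hs => ms_lin (G := G) σ (c * s ^ (M + 1)) (W1 s hs).continuous.continuousOn
        (continuousOn_const (c := 1)) (P.cont j).continuousOn
      rw [e s hs, ms_lin _ _ (K1 s hs).continuous.continuousOn continuousOn_const
        (P.cont j).continuousOn]
      refine ((((hD j s hs).const_mul σ).add (((hasDerivAt_pow (M + 1) s).const_mul c).mul_const
        (G.ms (fun _ => 1) (P.ph j)))).congr_of_eventuallyEq ?_).congr_deriv ?_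
      · filter_upwards [isOpen_Ioo.mem_nhds hs] with s h using e s h
      · simp only [Nat.add_sub_cancel, Nat.cast_add, Nat.cast_one]
        linear_combination (c * s ^ (M + 1)) * eig_one P j
    · have hI : Icc a t ⊆ Ioo 0 T := fun s hs => ⟨ha.1.trans_le hs.1, hs.2.trans_lt ht.2⟩
      obtain ⟨B, b1, b2⟩ := dom hr (G.contDiff_den u).continuous k2.continuousOn k0 hI
      refine ⟨|σ| * (∫ v, B v) + |c| * (M + 1) * t ^ M * ∫ p, |(1 : ℝ)| ∂G.mu,
        fun s hs φ m hφ hm => ?_⟩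
      have q1 : |G.ms (K s) φ| ≤ (∫ v, B v) * m := by
        rw [(K3 s (hI hs) φ (iμ φ hφ)).2, ← integral_mul_const]
        exact norm_integral_le_of_norm_le (b1.mul_const m)
          (ae_of_all _ fun v => b2 s hs v _ m (hm _ (G.ex_mem hu v)))
      have q2 : |G.ms (fun _ => 1) φ| ≤ _ :=
        (norm_integral_le_integral_norm _).trans (ms_le continuousOn_const hm)
      have q3 : |c * (M + 1) * s ^ M| ≤ |c| * (M + 1) * t ^ M := by
        have := (hI hs).1
        rw [abs_mul, abs_mul, abs_of_pos (pow_pos this M), abs_of_pos (by positivity : (0 : ℝ) < M + 1)]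
        gcongr
        exact hs.2
      rw [ms_lin _ _ (K1 s (hI hs)).continuous.continuousOn continuousOn_const hφ.continuousOn,
        add_mul, mul_assoc |σ|, mul_assoc _ (∫ p, |(1 : ℝ)| ∂G.mu) m]
      refine (abs_add_le _ _).trans (add_le_add ?_ ?_) <;> rw [abs_mul]
      · exact mul_le_mul_of_nonneg_left q1 (abs_nonneg _)
      · exact mul_le_mul q3 q2 (abs_nonneg _) ((abs_nonneg _).trans q3)
    · have h1 : Continuous fun s : ℝ => c * s ^ (M + 1) * G.ms (fun _ => 1) f := by fun_prop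
      have h2 := ((hI f hf).const_mul σ).add ((h1.tendsto 0).mono_left nhdsWithin_le_nhds)
      simp only [ne_eq, Nat.add_eq_zero_iff, one_ne_zero, and_false, not_false_eq_true, zero_pow,
        mul_zero, zero_mul, add_zero] at h2
      refine h2.congr' ?_
      filter_upwards [Ioo_mem_nhdsGT (ht.1.trans ht.2)] with s hs using
        (ms_lin _ _ (W1 s hs).continuous.continuousOn continuousOn_const hf).symm
  refine ⟨fun h A hA => ?_, fun ρ hρ hi c M hc h => ?_⟩
  · have k := key (-1) 0 0 fun s hs p hp => by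
      have : K s p ≤ 0 := by
        rw [(K2 s hs p hp).2]
        exact finsum_mem_induction (fun x => x ≤ 0) le_rfl (fun _ _ => add_nonpos)
          fun v _ => (h s hs v).2
      linarith
    obtain ⟨f1, f2⟩ := W2 t ht u.1 hu.1
    classical
    rw [f2, finsum_mem_eq_sum_of_inter_support_eq (t := A ∪ f1.toFinset) _ (by
      ext v
      simp only [mem_inter_iff, mem_ofPred_eq, Finset.coe_union, mem_union, Finset.mem_coe,
        Finite.mem_toFinset]
      exact ⟨fun h => ⟨Or.inr ⟨subset_tsupport _ h.2, h.1⟩, h.2⟩,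
        fun h => ⟨h.1.elim (hA v) fun h => h.2, h.2⟩⟩)] at k
    have := Finset.sum_le_sum_of_subset_of_nonneg (Finset.subset_union_left (s₂ := f1.toFinset)
      (s₁ := A)) fun v _ _ => (h t ht v).1
    linarith
  · have one : ∀ (f : E3 → ℝ) (v₀ : E3), (∀ v, r < ‖v‖ → f v = 0) → ‖v₀‖ < ρ ∨ (∀ v, f v = 0) →
        ∑ᶠ v ∈ {v | G.ex u v = G.ex u v₀}, f v = f v₀ := fun f v₀ h0 h1 => by
      rw [finsum_mem_inter_support_eq' f _ {v₀} fun v hv => ⟨fun e => ?_, fun e => ?_⟩,
        finsum_mem_singleton]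
      · exact hi u hu (mem_ball_zero_iff.2 ((not_lt.1 fun h => hv (h0 v h)).trans_lt hρ))
          (mem_ball_zero_iff.2 (h1.resolve_right fun h => hv (h v))) e
      · exact congrArg (G.ex u) e
    have k := key 1 c M fun s hs p hp => by
      rw [(K2 s hs p hp).2, one_mul, mul_one]
      by_cases hv : ∃ v, G.ex u v = p ∧ G.heat u w s v ≠ 0
      · obtain ⟨v, rfl, hv⟩ := hv
        rw [one _ v (k0 s hs) (Or.inl ((not_lt.1 fun h => hv (k0 s hs v h)).trans_lt hρ))]
        exact h s hs v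
      · rw [finsum_mem_of_eqOn_zero (s := {v | G.ex u v = p})
          fun v e => not_not.1 fun h => hv ⟨v, e, h⟩, zero_add]
        have := hs.1
        positivity
    have e := one (w t) 0 (adm.supp t ht) ((lt_or_ge r 0).symm.imp
      (fun h => by rw [norm_zero]; linarith) fun h v => adm.supp t ht v (h.trans_le (norm_nonneg v)))
    rw [G.ex_zero] at e
    rw [(W2 t ht u.1 hu.1).2, e] at k
    linarith

end Pool.Agent.Lib.MP_1a4aff_gt.I3
end

-- part Pool.Agent.Lib.MP_1a4aff_gt.I3.Trc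
section

/-! Bounds for the heat trace. -/

set_option autoImplicit false

open MeasureTheory Set Filter Topology Metric
open scoped ContDiff RealInnerProductSpace ENNReal

namespace Pool.Agent.Lib.MP_1a4aff_gt.I3

namespace Trc

variable {n : ℕ}

/-! the cut-off function -/

/-- the profile -/
noncomputable def bet (r x : ℝ) : ℝ := expNegInvGlue (1 - x / r ^ 2)

theorem der0 (x : ℝ) : HasDerivAt expNegInvGlue (x⁻¹ ^ 2 * expNegInvGlue x) x := by
  simpa using expNegInvGlue.hasDerivAt_polynomial_eval_inv_mul 1 x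

theorem der1 (x : ℝ) : HasDerivAt (fun x => x⁻¹ ^ 2 * expNegInvGlue x)
    ((x⁻¹ ^ 4 - 2 * x⁻¹ ^ 3) * expNegInvGlue x) x := by
  have h := expNegInvGlue.hasDerivAt_polynomial_eval_inv_mul (Polynomial.X ^ 2) x
  simp only [Polynomial.eval_pow, Polynomial.eval_X, Polynomial.eval_mul, Polynomial.eval_sub,
    Polynomial.derivative_X_pow, Polynomial.eval_C, Nat.cast_ofNat] at h
  convert h using 1
  ring

theorem der_in (r x : ℝ) : HasDerivAt (fun x : ℝ => 1 - x / r ^ 2) (-(1 / r ^ 2)) x :=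
  ((hasDerivAt_id x).div_const (r ^ 2)).const_sub 1

theorem deriv_bet (r : ℝ) : deriv (bet r) =
    fun x => (1 - x / r ^ 2)⁻¹ ^ 2 * expNegInvGlue (1 - x / r ^ 2) * -(1 / r ^ 2) :=
  funext fun x => ((der0 _).comp x (der_in r x)).deriv

theorem deriv2_bet (r x : ℝ) : deriv (deriv (bet r)) x =
    ((1 - x / r ^ 2)⁻¹ ^ 4 - 2 * (1 - x / r ^ 2)⁻¹ ^ 3) * expNegInvGlue (1 - x / r ^ 2) *
      -(1 / r ^ 2) * -(1 / r ^ 2) := by
  rw [deriv_bet]
  exact (((der1 _).comp x (der_in r x)).mul_const _).deriv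

theorem contDiff_bet (r : ℝ) : ContDiff ℝ ∞ (bet r) :=
  expNegInvGlue.contDiff.comp (contDiff_const.sub (contDiff_id.div_const _))

theorem bet_ineq {r x Λ L : ℝ} (hr : 0 < r) (hL : L ≤ Λ) :
    -(deriv (bet r) x * L + deriv (deriv (bet r)) x * (4 * x)) ≤
      (10 + Λ) ^ 2 / 8 / r ^ 2 * bet r x := by
  rw [deriv2_bet, deriv_bet]
  simp only [bet]
  rcases le_or_gt (1 - x / r ^ 2) 0 with h | h
  · simp [expNegInvGlue.zero_of_nonpos h]
  · have hb := expNegInvGlue.nonneg (1 - x / r ^ 2)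
    have hx : x = r ^ 2 * (1 - (1 - x / r ^ 2)) := by field_simp; ring
    generalize 1 - x / r ^ 2 = a at h hb hx
    generalize expNegInvGlue a = b at hb
    have hy : a = a⁻¹⁻¹ := (inv_inv a).symm
    have hy0 : a⁻¹ ≠ 0 := inv_ne_zero h.ne'
    generalize a⁻¹ = y at hy hy0
    subst hy hx
    have e : -(y ^ 2 * b * -(1 / r ^ 2) * L +
        (y ^ 4 - 2 * y ^ 3) * b * -(1 / r ^ 2) * -(1 / r ^ 2) * (4 * (r ^ 2 * (1 - y⁻¹)))) =
        (y ^ 2 * (L - 4 * (y - 1) * (y - 2))) / r ^ 2 * b := by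
      field_simp
      ring
    rw [e]
    refine mul_le_mul_of_nonneg_right (div_le_div_of_nonneg_right ?_ (by positivity)) hb
    nlinarith [sq_nonneg (y ^ 2 - (10 + Λ) / 4), mul_nonneg (sq_nonneg y) (sub_nonneg.2 hL),
      mul_nonneg (sq_nonneg y) (sq_nonneg (y - 3))]

/-- the cut-off function -/
noncomputable def chi (r : ℝ) (v : E3) : ℝ := bet r (‖v‖ ^ 2)

theorem contDiff_chi (r : ℝ) : ContDiff ℝ ∞ (chi r) := (contDiff_bet r).comp (contDiff_norm_sq ℝ)

theorem chi_nonneg (r : ℝ) (v : E3) : 0 ≤ chi r v := expNegInvGlue.nonneg _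

theorem chi_zero (r : ℝ) : 0 < chi r 0 := expNegInvGlue.pos_of_pos (by simp)

theorem tsupport_chi {r : ℝ} (hr : 0 < r) : tsupport (chi r) ⊆ closedBall 0 r := by
  refine closure_minimal (fun v hv => ?_) isClosed_closedBall
  by_contra h
  rw [mem_closedBall_zero_iff, not_le] at h
  refine hv (expNegInvGlue.zero_of_nonpos ?_)
  rw [sub_nonpos, one_le_div (by positivity)]
  exact pow_le_pow_left₀ hr.le h.le 2

theorem dd_normSq (i : Fin 3) (v : E3) : dd i (fun y => ‖y‖ ^ 2) v = 2 * v i := by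
  rw [dd, (hasStrictFDerivAt_norm_sq v).hasFDerivAt.fderiv]
  simp [inner_ee]

theorem lap_chi (hR : RadStmt) (hM : MPStmt) (X : Flo n) (hB : X.Bd 0 1) {u : Fr n} (hu : u ∈ X.F)
    {C r : ℝ} (hr : 0 < r) {v : E3} (hv : v ∈ ball (0 : E3) (1 / 4))
    (hC : ‖iteratedFDeriv ℝ 1 (X.den u) v‖ ≤ C) :
    -X.Lap u (chi r) v ≤ (16 + C) ^ 2 / 8 / r ^ 2 * chi r v := by
  have hd := fun v (hv : v ∈ ball (0 : E3) (1 / 4)) =>
    ((hR n X u hu).2.2.2.2.2.2 hB v (mem_ball_zero_iff.1 hv).le).2.2.1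
  obtain ⟨-, hg, -, -, hch, hl, -⟩ :=
    (hM n X u hu (1 / 4) fun v hv => lt_of_lt_of_le (by norm_num) (hd v hv)).2.2.2.2.2 v hv
  have h1 := hch (bet r) (fun y => ‖y‖ ^ 2) (contDiff_bet r).contDiffAt
    (contDiff_norm_sq ℝ).contDiffAt
  have h2 : ∑ i, ∑ j, X.gi u i j v * dd i (fun y => ‖y‖ ^ 2) v * dd j (fun y => ‖y‖ ^ 2) v =
      4 * ‖v‖ ^ 2 := by
    have h0 := hg 0
    have h1 := hg 1
    have h2 := hg 2
    simp only [dd_normSq, normSq_E3 v, Fin.sum_univ_three] at h0 h1 h2 ⊢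
    linear_combination 4 * v 0 * h0 + 4 * v 1 * h1 + 4 * v 2 * h2
  have h3 : X.Lap u (fun y => ‖y‖ ^ 2) v ≤ 6 + C := by
    rw [hl]
    rw [norm_iteratedFDeriv_one] at hC
    have hC0 : 0 ≤ C := (norm_nonneg _).trans hC
    have a1 : fderiv ℝ (X.den u) v v ≤ C * (1 / 4) :=
      (le_abs_self _).trans (((fderiv ℝ (X.den u) v).le_opNorm v).trans
        (mul_le_mul hC (mem_ball_zero_iff.1 hv).le (norm_nonneg _) hC0))
    have a2 := hd v hv
    have a3 : fderiv ℝ (X.den u) v v / X.den u v ≤ C / 2 := by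
      rw [div_le_iff₀ (by linarith)]
      nlinarith
    linarith
  have h4 := bet_ineq (x := ‖v‖ ^ 2) hr h3
  rw [h2] at h1
  change -X.Lap u (fun y => bet r (‖y‖ ^ 2)) v ≤ _
  rw [h1, show (16 + C : ℝ) = 10 + (6 + C) by ring]
  exact h4

/-! the diagonal of the heat kernel -/

variable {G : Geo n} (P : Spec G)

theorem contOn_hker {t : ℝ} (ht : 0 < t) : ContinuousOn (fun p => P.hker t p p) G.S := by
  obtain ⟨c, hc, h⟩ := P.bnd t ht
  refine continuousOn_tsum (fun j => (continuous_const.mul ((P.cont j).mul (P.cont j))).continuousOn)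
    hc fun j p hp => ?_
  rw [Real.norm_of_nonneg (mul_nonneg (Real.exp_pos _).le (mul_self_nonneg _)), ← pow_two]
  exact h j p hp

theorem int_sq (j : ℕ) : Integrable (fun p => P.ph j p * P.ph j p) G.mu :=
  G.integrable_mu ((P.cont j).mul (P.cont j)).continuousOn

theorem hasSum_hker {t : ℝ} (ht : 0 < t) (A : Set (Amb n)) :
    HasSum (fun j => Real.exp (-(G.eig j * t)) * ∫ p in A, P.ph j p * P.ph j p ∂G.mu)
      (∫ p in A, P.hker t p p ∂G.mu) := by
  have h := hasSum_integral_of_summable_integral_norm (μ := G.mu.restrict A)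
    (F := fun j p => Real.exp (-(G.eig j * t)) * (P.ph j p * P.ph j p))
    (fun j => ((int_sq P j).const_mul _).restrict) ?_
  · simp only [integral_const_mul] at h
    exact h
  · refine Summable.of_nonneg_of_le (fun j => integral_nonneg fun p => norm_nonneg _)
      (fun j => ?_) (P.summ t ht)
    refine (setIntegral_le_integral ((int_sq P j).const_mul _).norm
      (Eventually.of_forall fun p => norm_nonneg _)).trans (le_of_eq ?_)
    have h1 : ∀ p, ‖Real.exp (-(G.eig j * t)) * (P.ph j p * P.ph j p)‖ =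
        Real.exp (-(G.eig j * t)) * (P.ph j p * P.ph j p) := fun p =>
      Real.norm_of_nonneg (mul_nonneg (Real.exp_pos _).le (mul_self_nonneg _))
    have h2 := P.norm j
    simp only [h1, integral_const_mul]
    rw [Geo.ms] at h2
    rw [h2, mul_one]

theorem integral_hker {t : ℝ} (ht : 0 < t) : ∫ p, P.hker t p p ∂G.mu = ZZ G.eig t := by
  have h := hasSum_hker P ht univ
  have h2 := P.norm
  simp only [Geo.ms] at h2
  simp only [Measure.restrict_univ, h2, mul_one] at h
  exact h.tsum_eq.symm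

/-- a test function supported in `A` bounds the local trace from below -/
theorem local_trace {t K : ℝ} (ht : 0 < t) {A : Set (Amb n)} (hA : MeasurableSet A)
    {W L : Amb n → ℝ} (hW : ContDiff ℝ ∞ W) (hL : Continuous L)
    (h0 : ∀ p ∈ G.S, p ∉ A → W p = 0) (hpos : 0 < G.ms W W)
    (he : ∀ h, ContDiff ℝ ∞ h → G.en W h = G.ms L h) (hK : G.ms L W ≤ K * G.ms W W) :
    1 - K * t ≤ ∫ p in A, P.hker t p p ∂G.mu := by
  have hWc := hW.continuous
  have s1 := P.pars W W hWc hWc
  have s2 := P.pars L W hL hWc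
  have s3 := (s1.sub (s2.mul_left t)).div_const (G.ms W W)
  refine le_trans ?_ (hasSum_le (fun j => ?_) s3 (hasSum_hker P ht A))
  · rw [le_div_iff₀ hpos]
    nlinarith
  · rw [P.weak j W L hW hL he]
    set a := G.ms W (P.ph j) with ha
    set M := G.ms W W with hM
    have i1 : Integrable (fun p => W p * P.ph j p) G.mu :=
      G.integrable_mu (hWc.mul (P.cont j)).continuousOn
    have i2 : Integrable (fun p => W p * W p) G.mu := G.integrable_mu (hWc.mul hWc).continuousOn
    have c1 : 2 * (a / M) * a - (a / M) ^ 2 * M ≤ ∫ p in A, P.ph j p * P.ph j p ∂G.mu := by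
      rw [← integral_indicator hA, ha, hM, Geo.ms, Geo.ms, ← integral_const_mul,
        ← integral_const_mul, ← integral_sub (i1.const_mul _) (i2.const_mul _)]
      refine integral_mono_ae ((i1.const_mul _).sub (i2.const_mul _)) ((int_sq P j).indicator hA)
        (G.ae_S.mono fun p hp => ?_)
      by_cases h : p ∈ A
      · simp only [indicator_of_mem h]
        nlinarith [sq_nonneg (P.ph j p -
          (∫ p, W p * P.ph j p ∂G.mu) / (∫ p, W p * W p ∂G.mu) * W p)]
      · simp [indicator_of_notMem h, h0 p hp h]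
    have c2 : 2 * (a / M) * a - (a / M) ^ 2 * M = a * a / M := by field_simp; ring
    have c3 : 1 - G.eig j * t ≤ Real.exp (-(G.eig j * t)) := by
      linarith [Real.add_one_le_exp (-(G.eig j * t))]
    have c4 : 0 ≤ a * a / M := div_nonneg (mul_self_nonneg a) hpos.le
    calc (a * a - t * (G.eig j * a * a)) / M = (1 - G.eig j * t) * (a * a / M) := by ring
      _ ≤ Real.exp (-(G.eig j * t)) * (a * a / M) := mul_le_mul_of_nonneg_right c3 c4
      _ ≤ _ := mul_le_mul_of_nonneg_left (c2 ▸ c1) (Real.exp_pos _).le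

theorem ball_trace (hR : RadStmt) (hM : MPStmt) (hP : PushStmt) (hB : G.Bd 0 1) {u : Fr n}
    (hu : u ∈ G.F) {C r t : ℝ} (hr : 0 < r) (hr' : r ≤ 1 / 8) (ht : 0 < t)
    (hC : ∀ v ∈ ball (0 : E3) (1 / 4), ‖iteratedFDeriv ℝ 1 (G.den u) v‖ ≤ C) :
    1 - (16 + C) ^ 2 / 8 / r ^ 2 * t ≤ ∫ p in G.ex u '' closedBall 0 r, P.hker t p p ∂G.mu := by
  have hd := fun v (hv : v ∈ ball (0 : E3) (1 / 4)) =>
    ((hR n G.toFlo u hu).2.2.2.2.2.2 hB v (mem_ball_zero_iff.1 hv).le).2.2.1
  have hs : tsupport (chi r) ⊆ ball 0 (1 / 4) :=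
    (tsupport_chi hr).trans (closedBall_subset_ball (by linarith))
  obtain ⟨hl1, hl2⟩ := (hM n G.toFlo u hu (1 / 4)
    fun v hv => lt_of_lt_of_le (by norm_num) (hd v hv)).2.2.2.1 (chi r) (contDiff_chi r) hs
  obtain ⟨W, hW, w1, w2, w3⟩ := hP n G hB u hu (chi r) (contDiff_chi r) hs
  obtain ⟨L, hL, -, l2, -⟩ := hP n G hB u hu (fun v => -G.Lap u (chi r) v) hl1.neg
    (by rw [tsupport_fun_neg]; exact hl2.trans hs)
  have W0 : ∀ p ∈ G.S, 0 ≤ W p := fun p hp => by
    rw [(w1 p hp).2]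
    exact finsum_nonneg fun v => finsum_nonneg fun _ => chi_nonneg r v
  have iW := G.integrable_mu hW.continuous.continuousOn
  refine local_trace P ht
    ((isCompact_closedBall 0 r).image (G.contDiff_ex u).continuous).measurableSet hW hL.continuous
    (fun p hp h => ?_) ?_ (fun h hh => ?_) ?_
  · rw [(w1 p hp).2]
    refine finsum_mem_of_eqOn_zero fun v hv => ?_
    exact image_eq_zero_of_notMem_tsupport fun h' => h ⟨v, tsupport_chi hr h', hv⟩
  · refine G.integral_pos (hW.continuous.mul hW.continuous).continuousOn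
      (fun p _ => mul_self_nonneg _) hu.1 (mul_self_pos.2 (ne_of_gt ?_))
    have hf : ({v | G.ex u v = u.1} ∩ Function.support (chi r)).Finite :=
      (w1 u.1 hu.1).1.subset fun v hv => ⟨subset_tsupport _ hv.2, hv.1⟩
    rw [(w1 u.1 hu.1).2, finsum_mem_eq_sum _ hf]
    refine (chi_zero r).trans_le (Finset.single_le_sum (fun v _ => chi_nonneg r v) ?_)
    rw [hf.mem_toFinset]
    exact ⟨G.ex_zero u, (chi_zero r).ne'⟩
  · rw [w3 h hh, (l2 h (G.integrable_mu hh.continuous.continuousOn)).2]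
    simp only [Flo.pr, neg_mul, integral_neg]
  · rw [(l2 W iW).2, (w2 W iW).2, Flo.pr, Flo.pr, ← integral_const_mul]
    refine integral_mono (l2 W iW).1 ((w2 W iW).1.const_mul _) fun v => ?_
    by_cases hv : v ∈ ball (0 : E3) (1 / 4)
    · have h1 := lap_chi hR hM G.toFlo hB hu hr hv (hC v hv)
      have h2 := W0 _ (G.ex_mem hu v)
      have h3 : 0 ≤ G.den u v := le_trans (by norm_num) (hd v hv)
      simp only [← mul_assoc]
      exact mul_le_mul_of_nonneg_right (mul_le_mul_of_nonneg_right h1 h2) h3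
    · simp [image_eq_zero_of_notMem_tsupport fun h => hv (hs h),
        image_eq_zero_of_notMem_tsupport fun h => hv (hs (hl2 h))]

/-! integration over the frame bundle -/

theorem contOn_bb (hJ : JetStmt) (G : Geo n) (k : ℕ) : ContinuousOn (fun u => G.bb u k 0) G.F := by
  obtain ⟨h, hh, e⟩ := exists_contDiff_of_PP (hJ k) G
  exact hh.continuous.continuousOn.congr fun u hu => (e u hu).symm

theorem int_sum (hJ : JetStmt) (G : Geo n) (N : ℕ) (t : ℝ) :
    Integrable (fun u => ∑ k ∈ Finset.range (N + 1), G.bb u k 0 * t ^ k) G.nu ∧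
    ∫ u, ∑ k ∈ Finset.range (N + 1), G.bb u k 0 * t ^ k ∂G.nu =
      ∑ k ∈ Finset.range (N + 1), G.hk k * t ^ k := by
  have h := fun k => (G.integrable_nu (contOn_bb hJ G k)).mul_const (t ^ k)
  refine ⟨integrable_finsetSum _ fun k _ => h k, ?_⟩
  rw [integral_finsetSum _ fun k _ => h k]
  simp only [integral_mul_const, Geo.hk]

theorem int_fst {f : Amb n → ℝ} (hf : Integrable f G.mu) : Integrable (fun u => f u.1) G.nu := by
  rw [← G.lift.fst] at hf
  exact hf.comp_measurable measurable_fst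

theorem lower (hJ : JetStmt) (N : ℕ) (t c : ℝ) {f : Amb n → ℝ} (hf : Integrable f G.mu)
    (h : ∀ u ∈ G.F, ∑ k ∈ Finset.range (N + 1), G.bb u k 0 * t ^ k - c ≤ f u.1) :
    ∑ k ∈ Finset.range (N + 1), G.hk k * t ^ k - c * G.V ≤ ∫ p, f p ∂G.mu := by
  obtain ⟨i, e⟩ := int_sum hJ G N t
  have h1 := integral_mono_ae (i.sub (integrable_const c)) (int_fst hf) (G.ae_F.mono h)
  rw [G.integral_fst hf.aestronglyMeasurable] at h1
  simp only [Pi.sub_apply] at h1
  rwa [integral_sub i (integrable_const c), e, integral_const, G.nu_real_univ, smul_eq_mul,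
    mul_comm G.V] at h1

theorem upper (hJ : JetStmt) (N : ℕ) (t c : ℝ) {f : Amb n → ℝ} (hf : Integrable f G.mu)
    (h : ∀ u ∈ G.F, f u.1 ≤ ∑ k ∈ Finset.range (N + 1), G.bb u k 0 * t ^ k + c) :
    ∫ p, f p ∂G.mu ≤ ∑ k ∈ Finset.range (N + 1), G.hk k * t ^ k + c * G.V := by
  obtain ⟨i, e⟩ := int_sum hJ G N t
  have h1 := integral_mono_ae (int_fst hf) (i.add (integrable_const c)) (G.ae_F.mono h)
  rw [G.integral_fst hf.aestronglyMeasurable] at h1
  simp only [Pi.add_apply] at h1
  rwa [integral_add i (integrable_const c), e, integral_const, G.nu_real_univ, smul_eq_mul,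
    mul_comm G.V] at h1

end Trc

open Trc in
theorem trc_holds (hS : SpecStmt) (hA : LemAStmt) (hB : LemBStmt) (hJ : JetStmt) (hR : RadStmt)
    (hM : MPStmt) (hP : PushStmt) (hU : UB2Stmt) : TrcStmt := by
  obtain ⟨c, hc, hA⟩ := hA
  refine ⟨c, hc, fun N => ?_⟩
  obtain ⟨JA, hA⟩ := hA N
  obtain ⟨JB, hB⟩ := hB N
  obtain ⟨JU, hU⟩ := hU (N + 1)
  refine ⟨max JA (max JB JU), fun B => ?_⟩
  obtain ⟨CA, tA, htA, hA⟩ := hA B
  obtain ⟨CU, hU⟩ := hU B
  refine ⟨⟨|CA| + (N + 1) * |CU| + (16 + CU) ^ 2 / 8, min tA 1, lt_min htA one_pos,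
    fun n G h0 hb t ht ht' => ?_⟩, fun ρ hρ => ?_⟩
  · obtain ⟨P⟩ := hS n G h0
    have hA := fun u hu => hA n G P h0 (hb.mono (le_max_left _ _) le_rfl) u hu t ht
      (ht'.trans (min_le_left _ _))
    have hU := hU n G.toFlo h0 (hb.mono ((le_max_right _ _).trans (le_max_right _ _)) le_rfl)
    have ht1 : t ≤ 1 := ht'.trans (min_le_right _ _)
    have ik := G.integrable_mu (contOn_hker P ht)
    have hκ : 0 ≤ (4 * Real.pi * t) ^ (3 / 2 : ℝ) := by positivity
    have hV : 0 ≤ G.V := measureReal_nonneg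
    have htN : 0 ≤ t ^ (N + 1) := by positivity
    generalize (4 * Real.pi * t) ^ (3 / 2 : ℝ) = κ at hA hκ ⊢
    have hCA : CA * t ^ (N + 1) * G.V ≤
        (|CA| + (N + 1) * |CU| + (16 + CU) ^ 2 / 8) * t ^ (N + 1) * G.V := by
      refine mul_le_mul_of_nonneg_right (mul_le_mul_of_nonneg_right ?_ htN) hV
      have := le_abs_self CA
      have : 0 ≤ ((N : ℝ) + 1) * |CU| := by positivity
      have : 0 ≤ (16 + CU) ^ 2 / 8 := by positivity
      linarith
    refine ⟨fun u hu r hr hr' => ?_, fun A hm hz => ?_⟩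
    · have hm := ((isCompact_closedBall (0 : E3) r).image
        (G.contDiff_ex u).continuous).measurableSet
      have h1 := ball_trace P hR hM hP h0 hu hr hr' ht
        fun v hv => (hU u hu v hv 1 (Nat.le_add_left 1 N)).1
      generalize G.ex u '' closedBall 0 r = A at hm h1 ⊢
      have i1 := (integrable_const (μ := G.mu) (|CA| + (N + 1) * |CU|)).indicator hm
      have i2 := (ik.indicator hm).const_mul κ
      have h2 := lower hJ N t (CA * t ^ (N + 1)) (((ik.const_mul κ).add i1).sub i2) fun w hw => by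
        simp only [Pi.add_apply, Pi.sub_apply]
        by_cases h : w.1 ∈ A
        · simp only [indicator_of_mem h]
          have b1 : ∑ k ∈ Finset.range (N + 1), G.bb w k 0 * t ^ k ≤ (N + 1) * |CU| := by
            refine (Finset.sum_le_card_nsmul _ _ |CU| fun k hk => ?_).trans (by simp)
            have b := ((hU w hw 0 (mem_ball_self (by norm_num)) 0 (Nat.zero_le _)).2.2 k
              (Finset.mem_range.1 hk).le).1
            rw [norm_iteratedFDeriv_zero, Real.norm_eq_abs] at b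
            refine (mul_le_mul_of_nonneg_right ((le_abs_self _).trans
              (b.trans (le_abs_self _))) (by positivity)).trans ?_
            exact mul_le_of_le_one_right (abs_nonneg _) (pow_le_one₀ ht.le ht1)
          have b2 : -|CA| ≤ CA * t ^ (N + 1) := by
            have := mul_le_of_le_one_right (abs_nonneg CA) (pow_le_one₀ (n := N + 1) ht.le ht1)
            nlinarith [neg_abs_le CA]
          linarith
        · simp only [indicator_of_notMem h]
          linarith [(hA w hw).1]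
      rw [integral_sub' ((ik.const_mul κ).add i1) i2, integral_add' (ik.const_mul κ) i1,
        integral_const_mul, integral_const_mul, integral_hker P ht, integral_indicator hm,
        integral_indicator hm, setIntegral_const, smul_eq_mul] at h2
      have hμ : 0 ≤ G.mu.real A := measureReal_nonneg
      have b3 : G.mu.real A * (|CA| + (N + 1) * |CU|) ≤
          (|CA| + (N + 1) * |CU| + (16 + CU) ^ 2 / 8) * G.mu.real A := by
        rw [mul_comm]
        exact mul_le_mul_of_nonneg_right (le_add_of_nonneg_right (by positivity)) hμ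
      have b4 : 1 - (|CA| + (N + 1) * |CU| + (16 + CU) ^ 2 / 8) * t / r ^ 2 ≤
          ∫ p in A, P.hker t p p ∂G.mu := by
        refine le_trans (sub_le_sub_left ?_ 1) h1
        rw [div_mul_eq_mul_div]
        refine div_le_div_of_nonneg_right (mul_le_mul_of_nonneg_right
          (le_add_of_nonneg_left (by positivity)) ht.le) (by positivity)
      have b5 := mul_le_mul_of_nonneg_left b4 hκ
      linarith
    · have i1 := (integrable_const (μ := G.mu) c).indicator hm
      have h2 := lower hJ N t (CA * t ^ (N + 1)) ((ik.const_mul κ).sub i1) fun w hw => by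
        simp only [Pi.sub_apply]
        by_cases h : w.1 ∈ A
        · obtain ⟨z, z1, z2, z3⟩ := hz w hw h
          simp only [indicator_of_mem h]
          linarith [(hA w hw).2 z z1 z2 z3]
        · simp only [indicator_of_notMem h]
          linarith [(hA w hw).1]
      simp only [Pi.sub_apply] at h2
      rw [integral_sub (ik.const_mul κ) i1, integral_const_mul, integral_hker P ht,
        integral_indicator hm, setIntegral_const, smul_eq_mul] at h2
      linarith
  · obtain ⟨CB, tB, htB, hB⟩ := hB B ρ hρ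
    refine ⟨max CA CB, min tA tB, lt_min htA htB, fun n G h0 hb hi t ht ht' => ?_⟩
    obtain ⟨P⟩ := hS n G h0
    have hA := fun u hu => hA n G P h0 (hb.mono (le_max_left _ _) le_rfl) u hu t ht
      (ht'.trans (min_le_left _ _))
    have hB := fun u hu => hB n G P h0
      (hb.mono ((le_max_left _ _).trans (le_max_right _ _)) le_rfl) hi u hu t ht
      (ht'.trans (min_le_right _ _))
    have ik := G.integrable_mu (contOn_hker P ht)
    have hV : 0 ≤ G.V := measureReal_nonneg
    have htN : 0 ≤ t ^ (N + 1) := by positivity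
    have h1 := lower hJ N t _ (ik.const_mul _) fun w hw => (hA w hw).1
    have h2 := upper hJ N t _ (ik.const_mul _) hB
    rw [integral_const_mul, integral_hker P ht] at h1 h2
    have b1 := mul_le_mul_of_nonneg_right (mul_le_mul_of_nonneg_right (le_max_left CA CB) htN) hV
    have b2 := mul_le_mul_of_nonneg_right (mul_le_mul_of_nonneg_right (le_max_right CA CB) htN) hV
    rw [abs_le]
    constructor <;> linarith

end Pool.Agent.Lib.MP_1a4aff_gt.I3
end
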