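import Pool.Agent.Lib.MP_1a4aff_gt.I3.Gen

/-! Coefficients of small polynomials, and smooth limits along an ultrafilter. -/

set_option autoImplicit false

open MeasureTheory Set Filter Topology
open scoped ContDiff

namespace Pool.Agent.Lib.MP_1a4aff_gt.I3

theorem coef_holds : CoefStmt := by
  intro N
  let x : Fin (N + 1) → ℝ := fun i => 1 + (i : ℝ) / (N + 1)
  have hx : Function.Injective x := fun i j e => by
    have h1 : (i : ℝ) / (N + 1) = (j : ℝ) / (N + 1) := add_left_cancel e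
    have h2 : (i : ℝ) = (j : ℝ) := by
      rwa [div_left_inj' (by positivity)] at h1
    exact Fin.ext (by exact_mod_cast h2)
  have hd : IsUnit (Matrix.vandermonde x).det :=
    (Matrix.det_vandermonde_ne_zero_iff.2 hx).isUnit
  refine ⟨∑ k, ∑ i, |(Matrix.vandermonde x)⁻¹ k i|, fun c τ D hτ h k hk => ?_⟩
  have hD : 0 ≤ D := (abs_nonneg _).trans (h τ ⟨le_rfl, by linarith⟩)
  let a : Fin (N + 1) → ℝ := fun k => c k * τ ^ (k : ℕ)
  have h1 : ∀ i, |((Matrix.vandermonde x).mulVec a) i| ≤ D := fun i => by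
    have h2 : (i : ℝ) / (N + 1) ≤ 1 := by
      rw [div_le_one (by positivity)]
      exact_mod_cast i.2.le
    have h3 : 0 ≤ (i : ℝ) / (N + 1) := by positivity
    have h4 := h (τ * x i) ⟨by simp only [x]; nlinarith, by simp only [x]; nlinarith⟩
    rw [Finset.sum_range] at h4
    convert h4 using 2
    simp only [Matrix.mulVec, dotProduct, Matrix.vandermonde_apply, a, mul_pow]
    exact Finset.sum_congr rfl fun j _ => by ring
  have h2 : a = (Matrix.vandermonde x)⁻¹.mulVec ((Matrix.vandermonde x).mulVec a) := by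
    rw [Matrix.mulVec_mulVec, Matrix.nonsing_inv_mul _ hd, Matrix.one_mulVec]
  let k' : Fin (N + 1) := ⟨k, Nat.lt_succ_of_le hk⟩
  have h3 : |a k'| ≤ (∑ i, |(Matrix.vandermonde x)⁻¹ k' i|) * D := by
    have h5 : a k' = ∑ i, (Matrix.vandermonde x)⁻¹ k' i * ((Matrix.vandermonde x).mulVec a) i :=
      congrFun h2 k'
    rw [h5, Finset.sum_mul]
    refine (Finset.abs_sum_le_sum_abs _ _).trans (Finset.sum_le_sum fun i _ => ?_)
    rw [abs_mul]
    exact mul_le_mul_of_nonneg_left (h1 i) (abs_nonneg _)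
  have h4 : |a k'| = |c k| * τ ^ k := by
    simp only [a, k', abs_mul, abs_of_pos (pow_pos hτ k)]
  rw [← h4]
  refine h3.trans (mul_le_mul_of_nonneg_right ?_ hD)
  exact Finset.single_le_sum (f := fun k => ∑ i, |(Matrix.vandermonde x)⁻¹ k i|)
    (fun k _ => Finset.sum_nonneg fun i _ => abs_nonneg _) (Finset.mem_univ k')

namespace ULim

theorem exists_lim {ι E Y : Type} [NormedAddCommGroup E] [NormedSpace ℝ E]
    [NormedAddCommGroup Y] [NormedSpace ℝ Y] [FiniteDimensional ℝ Y] (𝒰 : Ultrafilter ι)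
    (F : ι → E → Y) {W : Set E} (hW : IsOpen W) (B L : ℝ)
    (h1 : ∀ i, ∀ y ∈ W, ‖F i y‖ ≤ B) (h2 : ∀ i, ∀ y ∈ W, DifferentiableAt ℝ (F i) y)
    (h3 : ∀ i, ∀ y ∈ W, ‖fderiv ℝ (F i) y‖ ≤ L) :
    ∃ G : E → Y, TendstoLocallyUniformlyOn F G 𝒰 W := by
  have := FiniteDimensional.proper_real Y
  have h4 : ∀ y ∈ W, ∃ z, Tendsto (fun i => F i y) 𝒰 (𝓝 z) := fun y hy => by
    obtain ⟨z, -, hz⟩ := (isCompact_closedBall (0 : Y) B).ultrafilter_le_nhds
      (𝒰.map fun i => F i y) (le_principal_iff.2 (mem_map.2 (Eventually.of_forall fun i =>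
        mem_closedBall_zero_iff.2 (h1 i y hy))))
    exact ⟨z, hz⟩
  choose! G hG using h4
  refine ⟨G, Metric.tendstoLocallyUniformlyOn_iff.2 fun ε hε x hx => ?_⟩
  obtain ⟨r, hr, hrW⟩ := Metric.isOpen_iff.1 hW x hx
  have hL : 0 < |L| + 1 := by positivity
  let δ := min r (ε / (4 * (|L| + 1)))
  have hδ : 0 < δ := lt_min hr (by positivity)
  have h5 : ∀ i, ∀ y ∈ Metric.ball x δ, ‖F i y - F i x‖ ≤ ε / 4 := fun i y hy => by
    have h6 := (convex_ball x r).norm_image_sub_le_of_norm_fderiv_le (𝕜 := ℝ) (C := L)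
      (fun z hz => h2 i z (hrW hz)) (fun z hz => h3 i z (hrW hz)) (Metric.mem_ball_self hr)
      (Metric.ball_subset_ball (min_le_left _ _) hy)
    have h7 : ‖y - x‖ ≤ ε / (4 * (|L| + 1)) :=
      (mem_ball_iff_norm.1 hy).le.trans (min_le_right _ _)
    calc _ ≤ L * ‖y - x‖ := h6
      _ ≤ (|L| + 1) * ‖y - x‖ :=
        mul_le_mul_of_nonneg_right (by linarith [le_abs_self L]) (norm_nonneg _)
      _ ≤ (|L| + 1) * (ε / (4 * (|L| + 1))) := mul_le_mul_of_nonneg_left h7 hL.le
      _ = ε / 4 := by field_simp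
  refine ⟨Metric.ball x δ, mem_nhdsWithin_of_mem_nhds (Metric.ball_mem_nhds x hδ), ?_⟩
  filter_upwards [Metric.tendsto_nhds.1 (hG x hx) (ε / 4) (by positivity)] with i hi y hy
  have hyW : y ∈ W := hrW (Metric.ball_subset_ball (min_le_left _ _) hy)
  have h6 : ‖G y - G x‖ ≤ ε / 4 :=
    le_of_tendsto' (((hG y hyW).sub (hG x hx)).norm) fun i => h5 i y hy
  have h7 := h5 i y hy
  rw [← dist_eq_norm] at h6 h7
  have h8 := dist_triangle4 (G y) (G x) (F i x) (F i y)
  rw [dist_comm (G x), dist_comm (F i x) (F i y)] at h8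
  linarith

theorem finDim (E V : Type) [NormedAddCommGroup E] [NormedSpace ℝ E] [FiniteDimensional ℝ E]
    [NormedAddCommGroup V] [NormedSpace ℝ V] [FiniteDimensional ℝ V] (k : ℕ) :
    FiniteDimensional ℝ (ContinuousMultilinearMap ℝ (fun _ : Fin k => E) V) :=
  Module.Finite.of_injective (ContinuousMultilinearMap.toMultilinearMapLinear (R' := ℝ))
    ContinuousMultilinearMap.toMultilinearMap_injective

theorem main {ι E V : Type} [NormedAddCommGroup E] [NormedSpace ℝ E] [FiniteDimensional ℝ E]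
    [NormedAddCommGroup V] [NormedSpace ℝ V] [FiniteDimensional ℝ V] (𝒰 : Ultrafilter ι)
    (f : ι → E → V) (W : Set E) (C : ℕ → ℝ) (hW : IsOpen W)
    (h : ∀ i, ContDiffOn ℝ ∞ (f i) W ∧ ∀ k, ∀ y ∈ W, ‖iteratedFDeriv ℝ k (f i) y‖ ≤ C k) :
    ∃ g : E → V, ContDiffOn ℝ ∞ g W ∧ ∀ k, ∀ K ⊆ W, IsCompact K →
      TendstoUniformlyOn (fun i => iteratedFDeriv ℝ k (f i)) (iteratedFDeriv ℝ k g) 𝒰 K := by
  have := FiniteDimensional.proper_real E
  have hd : ∀ k i, ∀ y ∈ W, DifferentiableAt ℝ (iteratedFDeriv ℝ k (f i)) y := fun k i y hy =>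
    ((h i).1.contDiffAt (hW.mem_nhds hy)).differentiableAt_iteratedFDeriv
      (by exact_mod_cast ENat.natCast_lt_top k)
  have h1 : ∀ k, ∃ G, TendstoLocallyUniformlyOn (fun i => iteratedFDeriv ℝ k (f i)) G 𝒰 W :=
    fun k => by
      have := finDim E V k
      exact exists_lim 𝒰 _ hW (C k) (C (k + 1)) (fun i => (h i).2 k) (hd k) fun i y hy => by
        rw [norm_fderiv_iteratedFDeriv]; exact (h i).2 (k + 1) y hy
  choose G hG using h1
  have h2 : ∀ k, ∀ y ∈ W, HasFDerivAt (G k)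
      (continuousMultilinearCurryLeftEquiv ℝ (fun _ : Fin (k + 1) => E) V (G (k + 1) y)) y := by
    intro k y hy
    refine hasFDerivAt_of_tendstoLocallyUniformlyOn (l := (𝒰 : Filter ι)) hW
      (f := fun i => iteratedFDeriv ℝ k (f i))
      (f' := fun i => fderiv ℝ (iteratedFDeriv ℝ k (f i)))
      (g' := fun y =>
        continuousMultilinearCurryLeftEquiv ℝ (fun _ : Fin (k + 1) => E) V (G (k + 1) y))
      ?_ (fun i x hx => (hd k i x hx).hasFDerivAt) (fun x hx => (hG k).tendsto_at hx) hy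
    exact (continuousMultilinearCurryLeftEquiv ℝ (fun _ : Fin (k + 1) => E)
      V).isometry.uniformContinuous.comp_tendstoLocallyUniformlyOn (hG (k + 1))
  let g : E → V := fun y => continuousMultilinearCurryFin0 ℝ E V (G 0 y)
  have h3 : ∀ k, EqOn (iteratedFDeriv ℝ k g) (G k) W := by
    intro k
    induction k with
    | zero =>
      intro y _
      rw [iteratedFDeriv_zero_eq_comp]
      exact LinearIsometryEquiv.symm_apply_apply _ _
    | succ k ih =>
      intro y hy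
      rw [iteratedFDeriv_succ_eq_comp_left, Function.comp_apply,
        (ih.eventuallyEq_of_mem (hW.mem_nhds hy)).fderiv_eq, (h2 k y hy).fderiv]
      exact LinearIsometryEquiv.symm_apply_apply _ _
  refine ⟨g, contDiffOn_of_differentiableOn fun m _ => ?_, fun k K hK hc => ?_⟩
  · refine DifferentiableOn.congr (f := G m)
      (fun y hy => (h2 m y hy).differentiableAt.differentiableWithinAt) fun y hy => ?_
    rw [iteratedFDerivWithin_of_isOpen m hW hy, h3 m hy]
  · exact ((tendstoLocallyUniformlyOn_iff_forall_isCompact hW).1 (hG k) K hK hc).congr_right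
      fun y hy => (h3 k (hK hy)).symm

end ULim

theorem ulim_holds : ULimStmt := by
  classical
  intro ι E V _ _ _ _ _ _ 𝒰 f W C hW h
  obtain ⟨i0, hi0⟩ := h.exists
  obtain ⟨g, h1, h2⟩ := ULim.main 𝒰 (fun i => if ContDiffOn ℝ ∞ (f i) W ∧
      ∀ k, ∀ y ∈ W, ‖iteratedFDeriv ℝ k (f i) y‖ ≤ C k then f i else f i0) W C hW fun i => by
    split_ifs with hi
    · exact hi
    · exact hi0
  refine ⟨g, h1, fun k K hK hc => (h2 k K hK hc).congr ?_⟩
  filter_upwards [h] with i hi y _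
  rw [if_pos hi]

end Pool.Agent.Lib.MP_1a4aff_gt.I3
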