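import Pool.Agent.Lib.MP_1a4aff_gt.I3.BrB
import Pool.Agent.Lib.MP_1a4aff_gt.I3.Flow
import Pool.Agent.Lib.MP_1a4aff_gt.I3.GlB
import Pool.Agent.Lib.MP_1a4aff_gt.I3.SpC
import Pool.Agent.Lib.MP_1a4aff_gt.I3.TrC
import Pool.Agent.Lib.MP_1a4aff_gt.I3.ULim
import Pool.Agent.Lib.MP_1a4aff_gt.I3.Retr
import Pool.Agent.Lib.MP_1a4aff_gt.I3.Haar
import Pool.Agent.Lib.MP_1a4aff_gt.I3.Lim
import Pool.Agent.Lib.MP_1a4aff_gt.I3.Bas
import Pool.Agent.Lib.MP_1a4aff_gt.I3.Flo
import Pool.Agent.Lib.MP_1a4aff_gt.I3.NuB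
import Pool.Agent.Lib.MP_1a4aff_gt.I3.Push
import Pool.Agent.Lib.MP_1a4aff_gt.I3.Jet
import Pool.Agent.Lib.MP_1a4aff_gt.I3.Count
import Pool.Agent.Lib.MP_1a4aff_gt.I3.SpD
import Pool.Agent.Lib.MP_1a4aff_gt.I3.Trc
import Pool.Agent.Lib.MP_1a4aff_gt.I3.LemB
import Pool.Agent.Lib.MP_1a4aff_gt.I3.MainB
import Pool.Agent.Lib.MP_1a4aff_gt.I3.TrD
import Pool.Agent.Lib.MP_1a4aff_gt.I3.TrE
import Pool.Agent.Lib.MP_1a4aff_gt.I3.TrF
import Pool.Agent.Lib.MP_1a4aff_gt.I3.Statement

-- part Pool.Agent.Lib.MP_1a4aff_gt.I3.All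
section

/-! All the parts put together. -/

set_option autoImplicit false

open scoped ContDiff Manifold

namespace Pool.Agent.Lib.MP_1a4aff_gt.I3

theorem geo_all : GeoStmt :=
  geo_holds (con_holds bas_holds) (flo_holds flow_holds) (mu_holds bas_holds)
    (nuA_holds haar_holds rad_holds loc_holds) (nuB_holds haar_holds str_holds rad_holds loc_holds)
    (nuC_holds rad_holds)

theorem mp_all : MPStmt := mp_holds rad_holds

theorem inj_all : InjStmt := inj_holds rad_holds

theorem lift_all : LiftStmt := lift_holds flow_holds str_holds rad_holds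

theorem push_all : PushStmt := push_holds rad_holds loc_holds ext_holds mp_all

theorem ub1_all : UB1Stmt := ub1_holds str_holds rad_holds bia_holds

theorem ub2_all : UB2Stmt := ub2_holds ub1_all rad_holds mp_all

theorem jet_all : JetStmt := jet_holds str_holds rad_holds bia_holds mp_all

theorem spec_all : SpecStmt :=
  spec_holds spA_holds spC_holds (count_holds rad_holds inj_all)
    (spB_holds rad_holds inj_all mp_all push_all ub2_all)

theorem cmp_all : CmpStmt := cmp_holds rad_holds mp_all push_all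

theorem trc_all : TrcStmt :=
  trc_holds spec_all (lemA_holds rad_holds mp_all ub2_all cmp_all)
    (lemB_holds rad_holds mp_all ub2_all cmp_all) jet_all rad_holds mp_all push_all ub2_all

theorem gil_all : GilStmt :=
  gil_holds jet_all (glC_holds (glA_holds bia_holds) glB_holds bia_holds) geo_all trA_holds
    (trD_holds trA_holds str_holds bia_holds) (trE_holds spec_all trA_holds trB_holds trC_holds)
    trC_holds trc_all inj_all bia_holds coef_holds

theorem asy_all : AsyStmt := asy_holds trc_all inj_all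

theorem mainA_all : MainAStmt :=
  mainA_holds asy_all trc_all gil_all (sob_holds rad_holds bia_holds lift_all) scale_holds

theorem mainB_all : MainBStmt := mainB_holds mainA_all asy_all trc_all lift_all rad_holds loc_holds

theorem p7_all : P7Stmt :=
  p7_holds (p7a_holds str_holds rad_holds loc_holds ub1_all) retr_holds ulim_holds ub1_all loc_holds
    ext_holds rad_holds

theorem compact_all
    (E : Type) [NormedAddCommGroup E] [InnerProductSpace ℝ E] [FiniteDimensional ℝ E]
    [MeasurableSpace E] [BorelSpace E] (hE : Module.finrank ℝ E = 3)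
    (M : Type) [TopologicalSpace M] [ChartedSpace E M] [IsManifold 𝓘(ℝ, E) ∞ M] [CompactSpace M]
    [T2Space M] [Nonempty M] [MeasurableSpace M] [BorelSpace M] (g₀ : Met E M) :
    IsCompact (isospectral g₀) :=
  final_of brA_holds embLoc_holds (brB_holds embLoc_holds bas_holds)
    (brC_holds mbas_holds embLoc_holds bas_holds) (brD_holds embLoc_holds) geo_all scale_holds
    mainA_all mainB_all p7_all (closed_holds mbas_holds) (lim_holds ulim_holds) E hE M g₀

end Pool.Agent.Lib.MP_1a4aff_gt.I3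
end

-- part Pool.Agent.Lib.MP_1a4aff_gt.I3.Transfer
section

/-! Transfer to the scalar form of the definitions. -/

set_option autoImplicit false

open MeasureTheory Set Filter Topology
open scoped ContDiff Manifold

namespace Pool.Agent.Lib.MP_1a4aff_gt.Iso3

variable {E : Type} [NormedAddCommGroup E] [InnerProductSpace ℝ E]
  {M : Type} [TopologicalSpace M] [ChartedSpace E M]

/-- forget the continuity -/
noncomputable def toNew (g : I3.Met E M) : Met E M where
  inner x v w := g.inner x v w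
  lin x w := ⟨fun a b => by simp, fun c a => by simp⟩
  symm := g.symm
  pos := g.pos
  smooth x₀ v w := ((g.smooth x₀).clm_apply contDiffOn_const).clm_apply contDiffOn_const

theorem coef_toNew (g : I3.Met E M) (x₀ : M) (v w : E) :
    coef E (toNew g).inner x₀ v w = fun y => I3.coef E g.inner x₀ y v w := rfl

theorem exists_old [FiniteDimensional ℝ E] (g : Met E M) : ∃ g' : I3.Met E M, toNew g' = g := by
  have hb : ∀ x, ∃ B : E →L[ℝ] E →L[ℝ] ℝ, ∀ v w, B v w = g.inner x v w := fun x => by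
    let B : E →ₗ[ℝ] E →ₗ[ℝ] ℝ := LinearMap.mk₂ ℝ (g.inner x) (fun a b w => (g.lin x w).map_add a b)
      (fun c a w => (g.lin x w).map_smul c a)
      (fun v a b => by rw [g.symm, g.symm x v a, g.symm x v b]; exact (g.lin x v).map_add a b)
      (fun c v a => by rw [g.symm, g.symm x v a]; exact (g.lin x v).map_smul c a)
    exact ⟨LinearMap.toContinuousLinearMap
      ((LinearMap.toContinuousLinearMap (𝕜 := ℝ) (E := E) (F' := ℝ)).toLinearMap ∘ₗ B),
      fun _ _ => rfl⟩
  choose B hB using hb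
  refine ⟨⟨B, fun x v w => by rw [hB, hB, g.symm], fun x v hv => by rw [hB]; exact g.pos x v hv,
    fun x₀ => ?_⟩, ?_⟩
  · refine contDiffOn_clm_apply.2 fun v => contDiffOn_clm_apply.2 fun w => ?_
    refine (g.smooth x₀ v w).congr fun y _ => ?_
    exact hB _ _ _
  · cases g
    unfold toNew
    congr 1
    funext x v w
    exact hB x v w

/-- evaluation of a bilinear form -/
noncomputable def ev (v w : E) : (E →L[ℝ] E →L[ℝ] ℝ) →L[ℝ] ℝ :=
  (ContinuousLinearMap.apply ℝ ℝ w).comp (ContinuousLinearMap.apply ℝ (E →L[ℝ] ℝ) v)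

theorem gap_le {V : Type} [NormedAddCommGroup V] [NormedSpace ℝ V] (L : V →L[ℝ] ℝ) {a b : E → V}
    {h : E → ℝ} {y : E} (ha : ContDiffAt ℝ ∞ a y) (hb : ContDiffAt ℝ ∞ b y)
    (hh : ContDiffAt ℝ ∞ h y) (k : ℕ) :
    dgap k (fun z => L (a z)) h y ≤ dgap k (fun z => L (b z)) h y +
      ‖L‖ * dist (iteratedFDeriv ℝ k b y) (iteratedFDeriv ℝ k a y) := by
  have hk : ((k : ℕ∞) : WithTop ℕ∞) ≤ ∞ := by exact_mod_cast le_top
  have e : (fun z => L (a z)) - h = ((fun z => L (b z)) - h) + L ∘ (a - b) := by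
    funext z; simp
  have h1 : ContDiffAt ℝ k ((fun z => L (b z)) - h) y :=
    ((L.contDiff.contDiffAt.comp y hb).sub hh).of_le hk
  have h2 : ContDiffAt ℝ k (a - b) y := (ha.sub hb).of_le hk
  rw [dgap, e, iteratedFDeriv_add_apply h1 (L.contDiff.contDiffAt.comp y h2)]
  refine (norm_add_le _ _).trans (add_le_add le_rfl ?_)
  rw [L.iteratedFDeriv_comp_left h2 le_rfl, iteratedFDeriv_sub_apply (ha.of_le hk) (hb.of_le hk),
    dist_comm, dist_eq_norm]
  exact L.norm_compContinuousMultilinearMap_le _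

theorem gap_le' {V : Type} [NormedAddCommGroup V] [NormedSpace ℝ V] (L : V →L[ℝ] ℝ) :
    ∃ c : ℝ, 0 ≤ c ∧ ∀ (a b : E → V) (h : E → ℝ) (y : E), ContDiffAt ℝ ∞ a y →
      ContDiffAt ℝ ∞ b y → ContDiffAt ℝ ∞ h y → ∀ k : ℕ,
      dgap k (fun z => L (a z)) h y ≤ dgap k (fun z => L (b z)) h y +
        c * dist (iteratedFDeriv ℝ k b y) (iteratedFDeriv ℝ k a y) :=
  ⟨‖L‖, norm_nonneg _, fun _ _ _ _ ha hb hh k => gap_le L ha hb hh k⟩

theorem continuous_toNew : Continuous (toNew : I3.Met E M → Met E M) := by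
  refine continuous_generateFrom_iff.2 ?_
  rintro _ ⟨h, x₀, v, w, k, K, ε, hK, hKt, rfl⟩
  refine isOpen_iff_mem_nhds.2 fun g hg => ?_
  have hO := (chartAt E x₀).open_target
  have hc : ContinuousOn (dgap k (coef E (toNew g).inner x₀ v w) (coef E h.inner x₀ v w)) K := by
    have h1 := ((((toNew g).smooth x₀ v w).sub (h.smooth x₀ v w)).continuousOn_iteratedFDerivWithin
      (m := k) (by exact_mod_cast le_top) hO.uniqueDiffOn).congr
      fun y hy => (iteratedFDerivWithin_of_isOpen k hO hy).symm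
    exact (h1.mono hKt).norm
  obtain ⟨η, hη, hη'⟩ : ∃ η > 0, ∀ y ∈ K,
      dgap k (coef E (toNew g).inner x₀ v w) (coef E h.inner x₀ v w) y + η ≤ ε := by
    rcases K.eq_empty_or_nonempty with rfl | hne
    · exact ⟨1, one_pos, fun _ h => h.elim⟩
    · obtain ⟨y, hy, hm⟩ := hK.exists_isMaxOn hne hc
      exact ⟨_, sub_pos.2 (hg y hy), fun z hz => by linarith [isMaxOn_iff.1 hm z hz]⟩
  have ht : TendstoUniformlyOn (fun g' : I3.Met E M => iteratedFDeriv ℝ k (I3.coef E g'.inner x₀))
      (iteratedFDeriv ℝ k (I3.coef E g.inner x₀)) (𝓝 g) K := by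
    have h1 : Continuous fun g' : I3.Met E M =>
        UniformOnFun.ofFun {K | IsCompact K ∧ K ⊆ (chartAt E x₀).target}
          (iteratedFDeriv ℝ k (I3.coef E g'.inner x₀)) :=
      continuous_iInf_dom (i := x₀) (continuous_iInf_dom (i := k) continuous_induced_dom)
    exact UniformOnFun.tendsto_iff_tendstoUniformlyOn.1 (h1.tendsto g) K ⟨hK, hKt⟩
  obtain ⟨c, hc0, hc1⟩ := gap_le' (E := E) (V := E →L[ℝ] E →L[ℝ] ℝ) (ev v w)
  filter_upwards [Metric.tendstoUniformlyOn_iff.1 ht (η / (c + 1)) (by positivity)]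
    with g' hg' y hy
  have hy' := hO.mem_nhds (hKt hy)
  have h1 := hc1 _ _ _ y ((g'.smooth x₀).contDiffAt hy') ((g.smooth x₀).contDiffAt hy')
    ((h.smooth x₀ v w).contDiffAt hy') k
  have h2 := hg' y hy
  rw [lt_div_iff₀ (by positivity)] at h2
  have h3 := hη' y hy
  have h4 := dist_nonneg (x := iteratedFDeriv ℝ k (I3.coef E g.inner x₀) y)
    (y := iteratedFDeriv ℝ k (I3.coef E g'.inner x₀) y)
  change dgap k (fun z => ev v w (I3.coef E g'.inner x₀ z)) _ y < ε
  change dgap k (fun z => ev v w (I3.coef E g.inner x₀ z)) _ y + η ≤ ε at h3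
  nlinarith

theorem isometric_toNew {g g' : I3.Met E M} (h : I3.Isometric g g') :
    Isometric (toNew g) (toNew g') := by
  obtain ⟨φ, hφ⟩ := h
  exact ⟨φ, funext fun x => funext fun v => funext fun w => hφ x v w⟩

theorem compact_new [FiniteDimensional ℝ E] [MeasurableSpace E] [BorelSpace E]
    (hE : Module.finrank ℝ E = 3) [IsManifold 𝓘(ℝ, E) ∞ M] [CompactSpace M] [T2Space M]
    [Nonempty M] [MeasurableSpace M] [BorelSpace M] (g₀ : Met E M) :
    IsCompact (isospectral g₀) := by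
  obtain ⟨g₀, rfl⟩ := exists_old g₀
  have he : ∀ (g : I3.Met E M) k, eigen (toNew g) k = I3.eigen g k := fun _ _ => rfl
  have hc : Continuous (Quot.map toNew fun _ _ => isometric_toNew :
      Quot (I3.Isometric (E := E) (M := M)) → Quot (Isometric (E := E) (M := M))) :=
    continuous_quot_lift _ (continuous_quot_mk.comp continuous_toNew)
  convert (I3.compact_all E hE M g₀).image hc using 1
  ext x
  constructor
  · rintro ⟨g, hg, rfl⟩
    obtain ⟨g, rfl⟩ := exists_old g
    exact ⟨_, ⟨g, hg, rfl⟩, rfl⟩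
  · rintro ⟨_, ⟨g, hg, rfl⟩, rfl⟩
    exact ⟨toNew g, hg, rfl⟩

end Pool.Agent.Lib.MP_1a4aff_gt.Iso3
end
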